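import Mathlib
import Pool.Agent.N20.Main3

/-!
Chains of projections of a form on a maximal lattice.
-/

set_option autoImplicit false
set_option linter.unusedSectionVars false

open scoped BigOperators

namespace Pool.Agent.Zk65.SE

open Pool.Agent.N20

variable {A : Type*} [AddCommGroup A] {ι : Type*} [Fintype ι] {Q : Type*} [Fintype Q]

/-- maximality of the lattice: no vector outside has integral products with the lattice and an
integral norm -/
def Mx (F : A →+ A →+ ℚ) : Prop :=
  ∀ (a : A) (d : ℕ), 0 < d → (∀ b, F a b / d ∈ ZZ) → F a a / (d : ℚ) ^ 2 ∈ ZZ →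
    ∃ a' : A, ∀ b, F a b = d * F a' b

lemma rat_split (τ : ℚ) : (τ.den : ℚ) * τ = τ.num := by
  rw [mul_comm]
  exact Rat.mul_den_eq_num τ

lemma Mx.proj {F : A →+ A →+ ℚ} (hM : Mx F) (_hsym : ∀ a b, F a b = F b a) {z : A}
    (hz : F z z ≠ 0) : Mx (proj F z) := by
  intro a d hd h1 h2
  set τ : ℚ := F a z / F z z with hτ
  have hden : (0 : ℚ) < τ.den := by exact_mod_cast τ.den_pos
  set a1 : A := (τ.den : ℤ) • a - τ.num • z with ha1
  have h3 : ∀ b, F a1 b = τ.den * Pool.Agent.N20.proj F z a b := by
    intro b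
    rw [ha1, map_sub, AddMonoidHom.sub_apply, map_zsmul, map_zsmul, AddMonoidHom.zsmul_apply,
      AddMonoidHom.zsmul_apply, proj_apply, zsmul_eq_mul, zsmul_eq_mul, ← rat_split τ, hτ]
    push_cast
    ring
  have hd0 : (d : ℚ) ≠ 0 := by positivity
  have hproj0 : Pool.Agent.N20.proj F z a z = 0 := by
    rw [proj_apply]
    field_simp
    ring
  have h4 : Pool.Agent.N20.proj F z a a1 = τ.den * Pool.Agent.N20.proj F z a a := by
    rw [ha1, map_sub, map_zsmul, map_zsmul, hproj0, smul_zero, sub_zero, zsmul_eq_mul]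
    push_cast
    ring
  obtain ⟨a', ha'⟩ := hM a1 (τ.den * d) (Nat.mul_pos τ.den_pos hd) (by
    intro b
    rw [h3]
    have : (τ.den : ℚ) * Pool.Agent.N20.proj F z a b / ((τ.den * d : ℕ) : ℚ) =
        Pool.Agent.N20.proj F z a b / d := by
      push_cast
      field_simp
    rw [this]
    exact h1 b) (by
    rw [h3, h4]
    have : (τ.den : ℚ) * (τ.den * Pool.Agent.N20.proj F z a a) / ((τ.den * d : ℕ) : ℚ) ^ 2 =
        Pool.Agent.N20.proj F z a a / (d : ℚ) ^ 2 := by
      push_cast
      field_simp
    rw [this]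
    exact h2)
  refine ⟨a', fun b => ?_⟩
  have h5 : ∀ b, Pool.Agent.N20.proj F z a b = d * F a' b := by
    intro b
    have := ha' b
    rw [h3] at this
    push_cast at this
    have h6 : (τ.den : ℚ) * Pool.Agent.N20.proj F z a b = τ.den * (d * F a' b) := by
      rw [this]
      ring
    exact mul_left_cancel₀ hden.ne' h6
  have h6 : F a' z = 0 := by
    have := h5 z
    rw [hproj0] at this
    exact (mul_eq_zero.mp this.symm).resolve_left hd0
  rw [h5, proj_apply F z a' b, h6]
  ring

/-- integrality of the coefficient `τ` -/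
lemma tau_mem' {F : A →+ A →+ ℚ} {e : ι → A} {κ m l : ℕ} (L : Lev F e κ m l) {z : A}
    (hz : F z z ≠ 0) (hM : Mx F) (hprim : Prim F z) {x : A} {k : ℕ}
    (hk : ∀ b, (k : ℚ) * proj F z x b ∈ ZZ) : (k : ℚ) * F x z / F z z ∈ ZZ := by
  set τ : ℚ := (k : ℚ) * F x z / F z z with hτ
  have hden : (0 : ℚ) < τ.den := by exact_mod_cast τ.den_pos
  set a1 : A := (τ.den : ℤ) • ((k : ℤ) • x) - τ.num • z with ha1
  have h3 : ∀ b, F a1 b = τ.den * (k * proj F z x b) := by
    intro b
    rw [ha1, map_sub, AddMonoidHom.sub_apply, map_zsmul, map_zsmul, map_zsmul,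
      AddMonoidHom.zsmul_apply, AddMonoidHom.zsmul_apply, AddMonoidHom.zsmul_apply, proj_apply,
      zsmul_eq_mul, zsmul_eq_mul, zsmul_eq_mul, ← rat_split τ, hτ]
    push_cast
    ring
  have hproj0 : proj F z x z = 0 := by
    rw [proj_apply]
    field_simp
    ring
  have h4 : proj F z x a1 = τ.den * (k * proj F z x x) := by
    rw [ha1, map_sub, map_zsmul, map_zsmul, map_zsmul, hproj0, smul_zero, sub_zero,
      zsmul_eq_mul, zsmul_eq_mul]
    push_cast
    ring
  obtain ⟨a', ha'⟩ := hM a1 τ.den τ.den_pos (by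
    intro b
    rw [h3]
    have : (τ.den : ℚ) * (k * proj F z x b) / (τ.den : ℚ) = k * proj F z x b := by
      field_simp
    rw [this]
    exact hk b) (by
    rw [h3, h4]
    have : (τ.den : ℚ) * (k * (τ.den * (k * proj F z x x))) / (τ.den : ℚ) ^ 2 =
        k * (k * proj F z x x) := by
      field_simp
    rw [this]
    exact mul_mem (natCast_ZZ _) (hk x))
  apply hprim ((k : ℤ) • x - a')
  intro b
  have h5 := ha' b
  rw [h3] at h5
  have h6 := mul_left_cancel₀ hden.ne' h5
  rw [map_sub, AddMonoidHom.sub_apply, map_zsmul, AddMonoidHom.zsmul_apply, zsmul_eq_mul, ← h6,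
    proj_apply, hτ]
  push_cast
  ring

section stepineq

variable {F : A →+ A →+ ℚ} {e : ι → A} {κ m l n : ℕ} (L : Lev F e κ m l) {z : A}
  (hm : 0 < m) (hz : F z z ≠ 0) (hn : (n : ℚ) = m * F z z) (hn0 : 0 < n)
  (hco : Mx F) (hprim : Prim F z) (hF' : ∀ x b, (n : ℚ) * proj F z x b ∈ ZZ)

include L hm hz hn hn0 hco hprim hF'

/-- the general step inequality -/
lemma W_step (x : A) : W F x ≤ (1 - 1 / (od F z : ℚ) ^ 2) * (F x z ^ 2 / F z z ^ 2) +
    W (proj F z) x := by
  have hF := L.int1
  set k := od (proj F z) x with hk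
  have hk0 : 0 < k := od_pos hn0 hF' x
  have hkm := od_mem hn0 hF' x
  rw [← hk] at hkm
  have hτ := tau_mem' L hz hco hprim hkm
  set τ : ℚ := (k : ℚ) * F x z / F z z with hτd
  have ho0 : 0 < od F x := od_pos hm hF x
  have hs0 : 0 < od F z := od_pos hm hF z
  have hkQ : (0 : ℚ) < k := by exact_mod_cast hk0
  have hoQ : (0 : ℚ) < od F x := by exact_mod_cast ho0
  have hsQ : (1 : ℚ) ≤ od F z := by exact_mod_cast hs0
  have hproj : ∀ b, (k : ℚ) * proj F z x b = k * F x b - τ * F z b := by
    intro b
    rw [proj_apply, hτd]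
    ring
  have hfr : F x z ^ 2 / F z z ^ 2 = τ ^ 2 / (k : ℚ) ^ 2 := by
    rw [hτd]
    field_simp
  rw [hfr]
  unfold W
  rw [← hk]
  have hs1 : (0 : ℚ) ≤ 1 - 1 / (od F z : ℚ) ^ 2 := by
    rw [sub_nonneg, div_le_one (by positivity)]
    nlinarith
  by_cases h0 : τ = 0
  · have h1 : od F x ≤ k := by
      apply od_le hk0
      intro b
      have := hkm b
      rw [hproj, h0, zero_mul, sub_zero] at this
      exact this
    have h1Q : (od F x : ℚ) ≤ k := by exact_mod_cast h1
    have h2 : 1 / (k : ℚ) ^ 2 ≤ 1 / (od F x : ℚ) ^ 2 := by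
      apply one_div_le_one_div_of_le (by positivity)
      nlinarith
    have h3 : 0 ≤ (1 - 1 / (od F z : ℚ) ^ 2) * (τ ^ 2 / (k : ℚ) ^ 2) :=
      mul_nonneg hs1 (by positivity)
    linarith
  · have hτ1 := one_le_sq_of_ZZ hτ h0
    have h1 : od F x ≤ k * od F z := by
      apply od_le (Nat.mul_pos hk0 hs0)
      intro b
      have h2 : ((k * od F z : ℕ) : ℚ) * F x b =
          od F z * (k * proj F z x b) + τ * (od F z * F z b) := by
        rw [hproj]
        push_cast
        ring
      rw [h2]
      exact add_mem (mul_mem (natCast_ZZ _) (hkm b)) (mul_mem hτ (od_mem hm hF z b))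
    have h1Q : (od F x : ℚ) ≤ k * od F z := by exact_mod_cast h1
    have h2 : 1 / ((k : ℚ) * od F z) ^ 2 ≤ 1 / (od F x : ℚ) ^ 2 := by
      apply one_div_le_one_div_of_le (by positivity)
      nlinarith
    have h3 : (1 - 1 / (od F z : ℚ) ^ 2) * (1 / (k : ℚ) ^ 2) ≤
        (1 - 1 / (od F z : ℚ) ^ 2) * (τ ^ 2 / (k : ℚ) ^ 2) := by
      apply mul_le_mul_of_nonneg_left _ hs1
      apply div_le_div_of_nonneg_right hτ1 (by positivity)
    have h4 : (1 - 1 / (od F z : ℚ) ^ 2) * (1 / (k : ℚ) ^ 2) + (1 - 1 / (k : ℚ) ^ 2) =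
        1 - 1 / ((k : ℚ) * od F z) ^ 2 := by
      have : (od F z : ℚ) ≠ 0 := by linarith
      field_simp
      ring
    linarith

/-- the first step inequality -/
lemma top_step (x : A) (hx : F x z ≠ 0) :
    1 ≤ F x z ^ 2 / F z z ^ 2 + W (proj F z) x := by
  set k := od (proj F z) x with hk
  have hk0 : 0 < k := od_pos hn0 hF' x
  have hkm := od_mem hn0 hF' x
  rw [← hk] at hkm
  have hτ := tau_mem' L hz hco hprim hkm
  set τ : ℚ := (k : ℚ) * F x z / F z z with hτd
  have hkQ : (0 : ℚ) < k := by exact_mod_cast hk0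
  have hfr : F x z ^ 2 / F z z ^ 2 = τ ^ 2 / (k : ℚ) ^ 2 := by
    rw [hτd]
    field_simp
  rw [hfr]
  unfold W
  rw [← hk]
  have h0 : τ ≠ 0 := by
    rw [hτd]
    exact div_ne_zero (mul_ne_zero hkQ.ne' hx) hz
  have hτ1 := one_le_sq_of_ZZ hτ h0
  have : 1 / (k : ℚ) ^ 2 ≤ τ ^ 2 / (k : ℚ) ^ 2 := div_le_div_of_nonneg_right hτ1 (by positivity)
  linarith

end stepineq

section stepineq

variable {F : A →+ A →+ ℚ} {e : ι → A} {κ m l n : ℕ} (L : Lev F e κ m l) {z : A}
  (hm : 0 < m) (hz : F z z ≠ 0) (hn : (n : ℚ) = m * F z z) (hn0 : 0 < n)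
  (hco : Mx F) (hprim : Prim F z) (hF' : ∀ x b, (n : ℚ) * proj F z x b ∈ ZZ)

include L hm hz hn hn0 hco hprim hF'

/-- the basic dichotomy -/
lemma dich (x : A) : (F x z = 0 ∧ od F x = od (proj F z) x) ∨
    (F x z ≠ 0 ∧ 1 / (od (proj F z) x : ℚ) ^ 2 ≤ F x z ^ 2 / F z z ^ 2 ∧
      od F x ≤ od (proj F z) x * od F z) := by
  have hF := L.int1
  set k := od (proj F z) x with hk
  have hk0 : 0 < k := od_pos hn0 hF' x
  have hkm := od_mem hn0 hF' x
  rw [← hk] at hkm
  have hτ := tau_mem' L hz hco hprim hkm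
  set τ : ℚ := (k : ℚ) * F x z / F z z with hτd
  have ho0 : 0 < od F x := od_pos hm hF x
  have hs0 : 0 < od F z := od_pos hm hF z
  have hkQ : (0 : ℚ) < k := by exact_mod_cast hk0
  have hproj : ∀ b, (k : ℚ) * proj F z x b = k * F x b - τ * F z b := by
    intro b
    rw [proj_apply, hτd]
    ring
  have hfr : F x z ^ 2 / F z z ^ 2 = τ ^ 2 / (k : ℚ) ^ 2 := by
    rw [hτd]
    field_simp
  by_cases hx : F x z = 0
  · left
    refine ⟨hx, ?_⟩
    have hsame : ∀ b, proj F z x b = F x b := by
      intro b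
      rw [proj_apply, hx, zero_mul, zero_div, sub_zero]
    have h1 : od F x ≤ k := by
      apply od_le hk0
      intro b
      rw [← hsame]
      exact hkm b
    have h2 : k ≤ od F x := by
      rw [hk]
      apply od_le ho0
      intro b
      rw [hsame]
      exact od_mem hm hF x b
    omega
  · right
    have h0 : τ ≠ 0 := by
      rw [hτd]
      exact div_ne_zero (mul_ne_zero hkQ.ne' hx) hz
    have hτ1 := one_le_sq_of_ZZ hτ h0
    refine ⟨hx, ?_, ?_⟩
    · rw [hfr]
      exact div_le_div_of_nonneg_right hτ1 (by positivity)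
    · apply od_le (Nat.mul_pos hk0 hs0)
      intro b
      have h2 : ((k * od F z : ℕ) : ℚ) * F x b =
          od F z * (k * proj F z x b) + τ * (od F z * F z b) := by
        rw [hproj]
        push_cast
        ring
      rw [h2]
      exact add_mem (mul_mem (natCast_ZZ _) (hkm b)) (mul_mem hτ (od_mem hm hF z b))

/-- the step inequality for the truncated potential -/
lemma WT_step {ε : ℕ} (hε : 0 < ε) (x : A) : WT ε F x ≤
    (1 - 1 / (ε : ℚ) ^ 2) * (F x z ^ 2 / F z z ^ 2) + WT ε (proj F z) x := by
  have hF := L.int1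
  have hE := frac_nonneg hε
  have ho0 : 0 < od F x := od_pos hm hF x
  have hk0 : 0 < od (proj F z) x := od_pos hn0 hF' x
  rcases dich L hm hz hn hn0 hco hprim hF' x with ⟨hx, h1⟩ | ⟨hx, h1, h2⟩
  · have h3 : WT ε F x = WT ε (proj F z) x := by
      unfold WT
      rw [h1]
    rw [h3]
    have : 0 ≤ (1 - 1 / (ε : ℚ) ^ 2) * (F x z ^ 2 / F z z ^ 2) := mul_nonneg hE (by positivity)
    linarith
  · have h4 := WT_le hm hF hε x
    rcases le_total ε (od (proj F z) x) with h5 | h5
    · have h6 : WT ε (proj F z) x = 1 - 1 / (ε : ℚ) ^ 2 := by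
        unfold WT
        rw [min_eq_right h5]
      rw [h6]
      have : 0 ≤ (1 - 1 / (ε : ℚ) ^ 2) * (F x z ^ 2 / F z z ^ 2) := mul_nonneg hE (by positivity)
      linarith
    · have h6 : WT ε (proj F z) x = 1 - 1 / (od (proj F z) x : ℚ) ^ 2 := by
        unfold WT
        rw [min_eq_left h5]
      rw [h6]
      have h7 : (1 - 1 / (ε : ℚ) ^ 2) * (1 / (od (proj F z) x : ℚ) ^ 2) ≤
          (1 - 1 / (ε : ℚ) ^ 2) * (F x z ^ 2 / F z z ^ 2) := mul_le_mul_of_nonneg_left h1 hE
      have hkQ : (1 : ℚ) ≤ od (proj F z) x := by exact_mod_cast hk0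
      have hεQ : (1 : ℚ) ≤ ε := by exact_mod_cast hε
      have h8 : (1 - 1 / (ε : ℚ) ^ 2) * (1 / (od (proj F z) x : ℚ) ^ 2) +
          (1 - 1 / (od (proj F z) x : ℚ) ^ 2) =
          1 - 1 / ((ε * od (proj F z) x : ℕ) : ℚ) ^ 2 := by
        have : (ε : ℚ) ≠ 0 := by linarith
        have : (od (proj F z) x : ℚ) ≠ 0 := by linarith
        push_cast
        field_simp
        ring
      have h9 : 1 - 1 / (ε : ℚ) ^ 2 ≤ 1 - 1 / ((ε * od (proj F z) x : ℕ) : ℚ) ^ 2 :=
        frac_le hε (Nat.le_mul_of_pos_right ε hk0)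
      linarith

/-- the refined step inequality -/
lemma W_ref {d : ℕ} (hd : m = d * od F z) (x : A) :
    W F x ≤ (1 - 1 / (od F z : ℚ) ^ 2) * (F x z ^ 2 / F z z ^ 2) +
      (1 - 1 / (od F z : ℚ) ^ 2) * W (proj F z) x +
      1 / (od F z : ℚ) ^ 2 * WT d (proj F z) x := by
  have hF := L.int1
  have ho0 : 0 < od F x := od_pos hm hF x
  have hk0 : 0 < od (proj F z) x := od_pos hn0 hF' x
  have hs0 : 0 < od F z := od_pos hm hF z
  have hd0 : 0 < d := by
    rcases Nat.eq_zero_or_pos d with h | h
    · rw [h, zero_mul] at hd; omega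
    · exact h
  have hs := frac_nonneg hs0
  have hsQ : (od F z : ℚ) ≠ 0 := by positivity
  have hkQ : (od (proj F z) x : ℚ) ≠ 0 := by positivity
  have hdQ : (d : ℚ) ≠ 0 := by positivity
  rcases dich L hm hz hn hn0 hco hprim hF' x with ⟨hx, h1⟩ | ⟨hx, h1, h2⟩
  · have h3 : od (proj F z) x ≤ d := by
      rw [← h1]
      exact od_le_zero L hm hd hx
    have h4 : WT d (proj F z) x = W (proj F z) x := by
      unfold WT W
      rw [min_eq_left h3]
    have h5 : W F x = W (proj F z) x := by
      unfold W
      rw [h1]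
    rw [h4, h5, hx]
    have : (1 - 1 / (od F z : ℚ) ^ 2) * ((0 : ℚ) ^ 2 / F z z ^ 2) +
      (1 - 1 / (od F z : ℚ) ^ 2) * W (proj F z) x +
      1 / (od F z : ℚ) ^ 2 * W (proj F z) x = W (proj F z) x := by ring
    rw [this]
  · have h7 : (1 - 1 / (od F z : ℚ) ^ 2) * (1 / (od (proj F z) x : ℚ) ^ 2) ≤
        (1 - 1 / (od F z : ℚ) ^ 2) * (F x z ^ 2 / F z z ^ 2) := mul_le_mul_of_nonneg_left h1 hs
    rcases le_total d (od (proj F z) x) with h5 | h5
    · have h6 : WT d (proj F z) x = 1 - 1 / (d : ℚ) ^ 2 := by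
        unfold WT
        rw [min_eq_right h5]
      rw [h6]
      have h8 : W F x ≤ 1 - 1 / (m : ℚ) ^ 2 := W_le hm hF x
      have h9 : (1 - 1 / (od F z : ℚ) ^ 2) * (1 / (od (proj F z) x : ℚ) ^ 2) +
          (1 - 1 / (od F z : ℚ) ^ 2) * W (proj F z) x +
          1 / (od F z : ℚ) ^ 2 * (1 - 1 / (d : ℚ) ^ 2) = 1 - 1 / (m : ℚ) ^ 2 := by
        unfold W
        rw [hd]
        push_cast
        field_simp
        ring
      linarith
    · have h6 : WT d (proj F z) x = 1 - 1 / (od (proj F z) x : ℚ) ^ 2 := by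
        unfold WT
        rw [min_eq_left h5]
      rw [h6]
      have h8 : W F x ≤ 1 - 1 / ((od (proj F z) x * od F z : ℕ) : ℚ) ^ 2 := frac_le ho0 h2
      have h9 : (1 - 1 / (od F z : ℚ) ^ 2) * (1 / (od (proj F z) x : ℚ) ^ 2) +
          (1 - 1 / (od F z : ℚ) ^ 2) * W (proj F z) x +
          1 / (od F z : ℚ) ^ 2 * (1 - 1 / (od (proj F z) x : ℚ) ^ 2) =
          1 - 1 / ((od (proj F z) x * od F z : ℕ) : ℚ) ^ 2 := by
        unfold W
        push_cast
        field_simp
        ring
      linarith

/-- the unit step for the truncated potential -/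
lemma WT_unit (hs : od F z = m) {ε : ℕ} (hε : 0 < ε) (x : A) :
    WT ε F x ≤ (1 - 1 / (ε : ℚ) ^ 2) * (F x z ^ 2 / F z z ^ 2 + W (proj F z) x) := by
  have hF := L.int1
  have hE := frac_nonneg hε
  by_cases hx : F x z = 0
  · have h1 : od F x ≤ 1 := od_le_zero L hm (d := 1) (by rw [hs, one_mul]) hx
    have h2 : od F x = 1 := by
      have := od_pos hm hF x
      omega
    have h3 : WT ε F x = 0 := by
      unfold WT
      rw [h2, min_eq_left (by omega)]
      norm_num
    rw [h3]
    apply mul_nonneg hE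
    have := W_nonneg hn0 hF' x
    positivity
  · have h1 := top_step L hm hz hn hn0 hco hprim hF' x hx
    have h2 := WT_le hm hF hε x
    have h3 := mul_le_mul_of_nonneg_left h1 hE
    linarith

end stepineq

/-- The sharp potential estimate. -/
theorem main_ind' {e : ι → A} {κ : ℕ} (hκ0 : 0 < κ) {f : Q → A} {κ' : ℚ} (hκ' : 0 < κ') :
    ∀ (l m : ℕ) (F : A →+ A →+ ℚ), 0 < m → Mx F → Lev F e κ m l → Fr F f κ' l →
      (∑ q, W F (f q) ≤ κ' * V l m) ∧
      (∀ (ε : ℕ) (μ : ℚ), 2 ≤ ε → 0 ≤ μ → μ * m ≤ (l : ℚ) - m - 1 →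
        ∑ q, (W F (f q) + μ * WT ε F (f q)) ≤
          κ' * (l * ((1 - 1 / (m : ℚ)) + μ * (1 - 1 / (ε : ℚ) ^ 2)))) := by
  intro l
  induction l with
  | zero =>
    intro m F hm hmax L R
    have h1 : ∀ q, W F (f q) = 0 := by
      intro q
      have h2 : F (f q) (f q) = 0 := by
        by_contra hne
        obtain ⟨l', hl'⟩ := L.rank_pos hκ0 hne
        omega
      have h3 : od F (f q) ≤ 1 := by
        apply od_le one_pos
        intro b
        rw [L.zero_of_self hκ0 h2 b, mul_zero]
        exact zero_mem _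
      have h4 := od_pos hm L.int1 (f q)
      have h5 : od F (f q) = 1 := by omega
      unfold W
      rw [h5]
      norm_num
    refine ⟨?_, ?_⟩
    · rw [Finset.sum_eq_zero (fun q _ => h1 q)]
      exact mul_nonneg hκ'.le (V_nonneg hm)
    · intro ε μ _ hμ0 hμ
      exfalso
      have h2 : (0 : ℚ) ≤ μ * m := mul_nonneg hμ0 (by positivity)
      have h3 : (0 : ℚ) ≤ m := by positivity
      push_cast at hμ
      linarith
  | succ l' ih =>
    intro m F hm hmax L R
    have hmQ : (0 : ℚ) < m := by exact_mod_cast hm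
    have hF := L.int1
    -- it suffices to treat ranks at most `m` and the second part
    suffices hmain : (l' + 1 ≤ m → ∑ q, W F (f q) ≤ κ' * V (l' + 1) m) ∧
      (∀ (ε : ℕ) (μ : ℚ), 2 ≤ ε → 0 ≤ μ → μ * m ≤ ((l' + 1 : ℕ) : ℚ) - m - 1 →
        ∑ q, (W F (f q) + μ * WT ε F (f q)) ≤
          κ' * (((l' + 1 : ℕ) : ℚ) * ((1 - 1 / (m : ℚ)) + μ * (1 - 1 / (ε : ℚ) ^ 2)))) by
      refine ⟨?_, hmain.2⟩
      rcases le_or_gt (l' + 1) m with h | h
      · exact hmain.1 h
      · have h1 := hmain.2 2 0 le_rfl le_rfl (by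
          rw [zero_mul]
          have : (m : ℚ) + 1 ≤ ((l' + 1 : ℕ) : ℚ) := by exact_mod_cast h
          linarith)
        simp only [zero_mul, add_zero] at h1
        rw [V_big h]
        calc ∑ q, W F (f q) ≤ _ := h1
          _ = _ := by ring
    by_cases hbad : ∃ y : A, (1 - 1 / (m : ℚ)) * F y y < W F y
    · obtain ⟨y, hy⟩ := hbad
      obtain ⟨z, n, hz, hn, hmin⟩ :=
        L.exists_min hκ0 (fun y => (1 - 1 / (m : ℚ)) * F y y < W F y) hy
      have hm1 : (1 : ℚ) ≤ m := by exact_mod_cast hm
      have h1m : (0 : ℚ) ≤ 1 - 1 / (m : ℚ) := by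
        rw [sub_nonneg, div_le_one hmQ]
        exact hm1
      have hzz0 : F z z ≠ 0 := by
        intro h0
        have h3 : od F z ≤ 1 := by
          apply od_le one_pos
          intro b
          rw [L.zero_of_self hκ0 h0 b, mul_zero]
          exact zero_mem _
        have h4 := od_pos hm hF z
        have h5 : od F z = 1 := by omega
        rw [h0, mul_zero] at hz
        unfold W at hz
        rw [h5] at hz
        norm_num at hz
      have hzzpos : 0 < F z z := lt_of_le_of_ne (L.nonneg hκ0 z) (Ne.symm hzz0)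
      -- order of z
      have hs0 : 0 < od F z := od_pos hm hF z
      have hsdvd : od F z ∣ m := od_dvd hm hF (hF z)
      obtain ⟨r', hr'⟩ := od_mem hm hF z z
      have hW : W F z = 1 - 1 / (od F z : ℚ) ^ 2 := rfl
      generalize hs : od F z = s at hs0 hsdvd hr' hW
      simp only [eq_intCast] at hr'
      obtain ⟨d, hd⟩ := hsdvd
      have hsQ : (0 : ℚ) < s := by exact_mod_cast hs0
      have hr0 : 0 < r' := by
        have : (0 : ℚ) < r' := by rw [hr']; exact mul_pos hsQ hzzpos
        exact_mod_cast this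
      obtain ⟨r, rfl⟩ := Int.eq_ofNat_of_zero_le hr0.le
      have hr : (r : ℚ) = s * F z z := by simpa using hr'
      have hr1 : 1 ≤ r := by omega
      have hd0 : 0 < d := by
        rcases Nat.eq_zero_or_pos d with h | h
        · rw [h, mul_zero] at hd; omega
        · exact h
      have hdQ : (0 : ℚ) < d := by exact_mod_cast hd0
      have hmds : m = d * s := by rw [hd, mul_comm]
      have hndr : n = d * r := by
        have : (n : ℚ) = d * r := by
          rw [hn, hr, hmds]
          push_cast
          ring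
        exact_mod_cast this
      have hs2 : 2 ≤ s := by
        by_contra hlt
        have : s = 1 := by omega
        rw [this, Nat.cast_one, one_pow, div_one, sub_self] at hW
        rw [hW] at hz
        have : (0 : ℚ) ≤ (1 - 1 / (m : ℚ)) * F z z := mul_nonneg h1m hzzpos.le
        linarith
      have hFzz : F z z = r / s := by
        rw [hr]
        field_simp
      have hrs : r + 1 ≤ s := by
        by_contra hlt
        have hrs' : s ≤ r := by omega
        rcases hrs'.eq_or_lt with h | h
        · have hF1 : F z z = 1 := by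
            rw [hFzz, ← h]
            exact div_self hsQ.ne'
          have h2 := od_sq_le L hm hF1
          rw [hs] at h2
          rw [hF1, mul_one, hW] at hz
          have h3 : (s : ℚ) ^ 2 ≤ m := by exact_mod_cast h2
          have h4 : 1 / (m : ℚ) ≤ 1 / (s : ℚ) ^ 2 :=
            one_div_le_one_div_of_le (by positivity) h3
          linarith
        · have h1 : (s : ℚ) + 1 ≤ r := by exact_mod_cast h
          rw [hFzz, hW] at hz
          have hsm : (s : ℚ) ≤ m := by
            have : s ≤ m := by rw [hmds]; exact Nat.le_mul_of_pos_left s hd0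
            exact_mod_cast this
          have h4 : 1 / (m : ℚ) ≤ 1 / (s : ℚ) := one_div_le_one_div_of_le hsQ hsm
          have h5 : (1 - 1 / (s : ℚ)) * (r / s) ≤ (1 - 1 / (m : ℚ)) * (r / s) := by
            apply mul_le_mul_of_nonneg_right _ (by positivity)
            linarith
          have h6 : 1 - 1 / (s : ℚ) ^ 2 ≤ (1 - 1 / (s : ℚ)) * (r / s) := by
            have h7 : (s : ℚ) + 1 ≤ r := h1
            have h8 : (0 : ℚ) ≤ 1 - 1 / (s : ℚ) := by
              rw [sub_nonneg, div_le_one hsQ]
              exact_mod_cast hs0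
            have h9 : ((s : ℚ) + 1) / s ≤ r / s := div_le_div_of_nonneg_right h7 hsQ.le
            calc 1 - 1 / (s : ℚ) ^ 2 = (1 - 1 / (s : ℚ)) * (((s : ℚ) + 1) / s) := by
                  field_simp
                  ring
              _ ≤ _ := mul_le_mul_of_nonneg_left h9 h8
          linarith
      have hn0 : 0 < n := by rw [hndr]; exact Nat.mul_pos hd0 (by omega)
      have hnm : n < m := by
        rw [hndr, hmds]
        exact Nat.mul_lt_mul_of_pos_left (by omega) hd0
      have hco : Mx F := hmax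
      have hprim : Prim F z := by
        apply prim_of_min hF L.sym (L.nonneg hκ0) (fun y => (1 - 1 / (m : ℚ)) * F y y < W F y)
          hn hzz0 hm _ hmin
        intro y d' hd' hyz
        have hyz1 : (d' : ℚ) ^ 2 * F y y = F z z := by
          have h6 := hyz y
          have h7 := hyz z
          rw [L.sym z y] at h6
          rw [pow_two, mul_assoc, h6, h7]
        have hd'Q : (2 : ℚ) ≤ d' := by exact_mod_cast hd'
        have h1 : F y y ≤ F z z := by
          have := L.nonneg hκ0 y
          have h4 : (1 : ℚ) ≤ (d' : ℚ) ^ 2 := by nlinarith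
          rw [← hyz1]
          exact le_mul_of_one_le_left this h4
        have h2 : od F z ≤ od F y := by
          apply od_le (od_pos hm hF y)
          intro b
          rw [← hyz b]
          have : (od F y : ℚ) * (d' * F y b) = d' * (od F y * F y b) := by ring
          rw [this]
          exact mul_mem (natCast_ZZ _) (od_mem hm hF y b)
        have h3 : W F z ≤ W F y := frac_le (od_pos hm hF z) h2
        calc (1 - 1 / (m : ℚ)) * F y y ≤ (1 - 1 / (m : ℚ)) * F z z :=
              mul_le_mul_of_nonneg_left h1 h1m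
          _ < W F z := hz
          _ ≤ W F y := h3
      have L' : Lev (proj F z) e κ n l' := L.step hzz0 hn rfl
      have R' : Fr (proj F z) f κ' l' := R.step L.sym hzz0 rfl
      have hF' := L'.int1
      obtain ⟨hIH1, hIH2⟩ := ih n (proj F z) hn0 (hmax.proj L.sym hzz0) L' R'
      have hsum := R.sum_sq hzz0 hm hn
      have hmn0 : (0 : ℚ) ≤ (m : ℚ) / n := by positivity
      by_cases hd1 : d = 1
      · -- unit case
        have hsm : od F z = m := by rw [hs, hmds, hd1, one_mul]
        have h1m2 : (0 : ℚ) ≤ 1 - 1 / (m : ℚ) ^ 2 := frac_nonneg hm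
        have hstep : ∀ q, W F (f q) ≤ (1 - 1 / (m : ℚ) ^ 2) *
            (F (f q) z ^ 2 / F z z ^ 2 + W (proj F z) (f q)) := by
          intro q
          by_cases hx : F (f q) z = 0
          · have h1 := od_eq_one L hm hsm hn hx
            have h2 : W F (f q) = 0 := by
              unfold W
              rw [h1]
              norm_num
            rw [h2]
            apply mul_nonneg h1m2
            have := W_nonneg hn0 hF' (f q)
            positivity
          · have h1 := top_step L hm hzz0 hn hn0 hco hprim hF' (f q) hx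
            have h2 := W_le hm hF (f q)
            nlinarith
        have hP : ∑ q, (F (f q) z ^ 2 / F z z ^ 2 + W (proj F z) (f q)) ≤
            κ' * ((m : ℚ) / n + V l' n) := by
          rw [Finset.sum_add_distrib, hsum, mul_add]
          linarith
        have hP0 : (0 : ℚ) ≤ (m : ℚ) / n + V l' n := add_nonneg hmn0 (V_nonneg hn0)
        refine ⟨?_, ?_⟩
        · intro _
          calc ∑ q, W F (f q) ≤ ∑ q, (1 - 1 / (m : ℚ) ^ 2) *
              (F (f q) z ^ 2 / F z z ^ 2 + W (proj F z) (f q)) :=
                Finset.sum_le_sum fun q _ => hstep q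
            _ = (1 - 1 / (m : ℚ) ^ 2) *
              ∑ q, (F (f q) z ^ 2 / F z z ^ 2 + W (proj F z) (f q)) := by
                rw [← Finset.mul_sum]
            _ ≤ (1 - 1 / (m : ℚ) ^ 2) * (κ' * ((m : ℚ) / n + V l' n)) :=
                mul_le_mul_of_nonneg_left hP h1m2
            _ = κ' * ((1 - 1 / (m : ℚ) ^ 2) * ((m : ℚ) / n + V l' n)) := by ring
            _ ≤ κ' * V (l' + 1) m := by
                apply mul_le_mul_of_nonneg_left _ hκ'.le
                have := V_unit (l := l' + 1) (m := m) (n := n) hn0 hnm (by omega)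
                simpa using this
        · intro ε μ hε hμ0 hμ
          have hE := frac_nonneg (show 0 < ε by omega)
          have hlm : m + 1 ≤ l' + 1 := by
            have h2 : (0 : ℚ) ≤ μ * m := mul_nonneg hμ0 (by positivity)
            have h3 : (m : ℚ) + 1 ≤ ((l' + 1 : ℕ) : ℚ) := by linarith
            exact_mod_cast h3
          calc ∑ q, (W F (f q) + μ * WT ε F (f q))
              ≤ ∑ q, ((1 - 1 / (m : ℚ) ^ 2) + μ * (1 - 1 / (ε : ℚ) ^ 2)) *
                (F (f q) z ^ 2 / F z z ^ 2 + W (proj F z) (f q)) := by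
                refine Finset.sum_le_sum fun q _ => ?_
                have h1 := hstep q
                have h2 := WT_unit L hm hzz0 hn hn0 hco hprim hF' hsm
                  (show 0 < ε by omega) (f q)
                have h3 := mul_le_mul_of_nonneg_left h2 hμ0
                linarith
            _ = ((1 - 1 / (m : ℚ) ^ 2) + μ * (1 - 1 / (ε : ℚ) ^ 2)) *
                ∑ q, (F (f q) z ^ 2 / F z z ^ 2 + W (proj F z) (f q)) := by
                rw [← Finset.mul_sum]
            _ ≤ ((1 - 1 / (m : ℚ) ^ 2) + μ * (1 - 1 / (ε : ℚ) ^ 2)) *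
                (κ' * ((m : ℚ) / n + V l' n)) :=
                mul_le_mul_of_nonneg_left hP (add_nonneg h1m2 (mul_nonneg hμ0 hE))
            _ = κ' * (((1 - 1 / (m : ℚ) ^ 2) + μ * (1 - 1 / (ε : ℚ) ^ 2)) *
                ((m : ℚ) / n + V l' n)) := by ring
            _ ≤ _ := by
                apply mul_le_mul_of_nonneg_left _ hκ'.le
                have := V_unit_trunc (l := l' + 1) (m := m) (n := n) hn0 hnm hlm hμ0 hE
                simpa using this
      · -- non-unit case
        have hd2 : 2 ≤ d := by omega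
        have hE0 : (0 : ℚ) ≤ 1 - 1 / (s : ℚ) ^ 2 := frac_nonneg hs0
        have hcast : ((l' + 1 : ℕ) : ℚ) = (l' : ℚ) + 1 := by push_cast; ring
        refine ⟨?_, ?_⟩
        · intro hlm
          have hstep : ∀ q, W F (f q) ≤ (1 - 1 / (s : ℚ) ^ 2) *
              (F (f q) z ^ 2 / F z z ^ 2) + W (proj F z) (f q) := by
            intro q
            have := W_step L hm hzz0 hn hn0 hco hprim hF' (f q)
            rwa [hs] at this
          calc ∑ q, W F (f q) ≤ ∑ q, ((1 - 1 / (s : ℚ) ^ 2) *
              (F (f q) z ^ 2 / F z z ^ 2) + W (proj F z) (f q)) :=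
                Finset.sum_le_sum fun q _ => hstep q
            _ = (1 - 1 / (s : ℚ) ^ 2) * (κ' * ((m : ℚ) / n)) + ∑ q, W (proj F z) (f q) := by
                rw [Finset.sum_add_distrib, ← Finset.mul_sum, hsum]
            _ ≤ (1 - 1 / (s : ℚ) ^ 2) * (κ' * ((m : ℚ) / n)) + κ' * V l' n := by
                linarith
            _ = κ' * ((1 - 1 / (s : ℚ) ^ 2) * ((m : ℚ) / n) + V l' n) := by ring
            _ ≤ κ' * V (l' + 1) m := by
                apply mul_le_mul_of_nonneg_left _ hκ'.le
                have := V_non (m := m) (n := n) (s := s) (d := d) (r := r)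
                  hs2 hd2 hr1 hrs hmds hndr (l := l' + 1) (by omega) hlm
                simpa using this
        · intro ε μ hε hμ0 hμ
          have hE := frac_nonneg (show 0 < ε by omega)
          have hE1 : 1 - 1 / (ε : ℚ) ^ 2 ≤ 1 := by
            have : (0 : ℚ) ≤ 1 / (ε : ℚ) ^ 2 := by positivity
            linarith
          have hWT : ∀ q, μ * WT ε F (f q) ≤ μ * ((1 - 1 / (ε : ℚ) ^ 2) *
              (F (f q) z ^ 2 / F z z ^ 2)) + μ * WT ε (proj F z) (f q) := by
            intro q
            have h2 := WT_step L hm hzz0 hn hn0 hco hprim hF' (show 0 < ε by omega) (f q)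
            have h3 := mul_le_mul_of_nonneg_left h2 hμ0
            linarith
          rcases le_total r d with hrd | hrd
          · -- plain step
            have h1 := hIH2 ε μ hε hμ0 (by
              have := mu_le hs2 hd2 hr1 hrs hmds hndr hμ0 hμ
              rw [hcast] at this
              linarith)
            calc ∑ q, (W F (f q) + μ * WT ε F (f q))
                ≤ ∑ q, (((1 - 1 / (s : ℚ) ^ 2) + μ * (1 - 1 / (ε : ℚ) ^ 2)) *
                  (F (f q) z ^ 2 / F z z ^ 2) +
                  (W (proj F z) (f q) + μ * WT ε (proj F z) (f q))) := by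
                  refine Finset.sum_le_sum fun q _ => ?_
                  have h2 := W_step L hm hzz0 hn hn0 hco hprim hF' (f q)
                  rw [hs] at h2
                  have h3 := hWT q
                  linarith
              _ = ((1 - 1 / (s : ℚ) ^ 2) + μ * (1 - 1 / (ε : ℚ) ^ 2)) * (κ' * ((m : ℚ) / n)) +
                  ∑ q, (W (proj F z) (f q) + μ * WT ε (proj F z) (f q)) := by
                  rw [Finset.sum_add_distrib, ← Finset.mul_sum, hsum]
              _ ≤ ((1 - 1 / (s : ℚ) ^ 2) + μ * (1 - 1 / (ε : ℚ) ^ 2)) * (κ' * ((m : ℚ) / n)) +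
                  κ' * (l' * ((1 - 1 / (n : ℚ)) + μ * (1 - 1 / (ε : ℚ) ^ 2))) := by
                  linarith
              _ = κ' * ((1 - 1 / (s : ℚ) ^ 2) * ((m : ℚ) / n) +
                  μ * ((1 - 1 / (ε : ℚ) ^ 2) * ((m : ℚ) / n)) +
                  (((l' + 1 : ℕ) : ℚ) - 1) *
                    ((1 - 1 / (n : ℚ)) + μ * (1 - 1 / (ε : ℚ) ^ 2))) := by
                  rw [hcast]
                  ring
              _ ≤ _ := by
                  apply mul_le_mul_of_nonneg_left _ hκ'.le
                  exact V_plain hs2 hd2 hr1 hrs hmds hndr hμ0 hμ hE hE1 hrd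
          · -- refined step
            have hs2Q : (2 : ℚ) ≤ s := by exact_mod_cast hs2
            have ha0 : (0 : ℚ) < 1 - 1 / (s : ℚ) ^ 2 := by
              rw [sub_pos, div_lt_one (by positivity)]
              nlinarith
            set a : ℚ := 1 - 1 / (s : ℚ) ^ 2 with ha
            have hμ' := mu_le' hs2 hd2 hr1 hrs hmds hndr hμ0 hμ
            rw [← ha] at hμ'
            have h1 := two_trunc (F := proj F z) (f := f) (l := l') (n := n) (κ' := κ') hIH2
              (ε₁ := d) (ε₂ := ε) (μ₁ := (1 / (s : ℚ) ^ 2) / a) (μ₂ := μ / a) hd2 hε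
              (by positivity) (by positivity) (by
                rw [← add_div, div_mul_eq_mul_div, div_le_iff₀ ha0]
                rw [hcast] at hμ'
                linarith)
            have h2 := mul_le_mul_of_nonneg_left h1 ha0.le
            have e1 : a * ∑ q, (W (proj F z) (f q) + (1 / (s : ℚ) ^ 2) / a *
                WT d (proj F z) (f q) + μ / a * WT ε (proj F z) (f q)) =
                ∑ q, (a * W (proj F z) (f q) + 1 / (s : ℚ) ^ 2 * WT d (proj F z) (f q) +
                  μ * WT ε (proj F z) (f q)) := by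
              rw [Finset.mul_sum]
              refine Finset.sum_congr rfl fun q _ => ?_
              field_simp
            have e2 : a * (κ' * ((l' : ℚ) * ((1 - 1 / (n : ℚ)) +
                (1 / (s : ℚ) ^ 2) / a * (1 - 1 / (d : ℚ) ^ 2) +
                  μ / a * (1 - 1 / (ε : ℚ) ^ 2)))) =
                κ' * (l' * (a * (1 - 1 / (n : ℚ)) + (1 / (s : ℚ) ^ 2) * (1 - 1 / (d : ℚ) ^ 2) +
                  μ * (1 - 1 / (ε : ℚ) ^ 2))) := by
              have ha' : a ≠ 0 := ha0.ne'
              have e3 : a * ((1 / (s : ℚ) ^ 2) / a) = 1 / (s : ℚ) ^ 2 := by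
                field_simp
              have e4 : a * (μ / a) = μ := by field_simp
              calc a * (κ' * ((l' : ℚ) * ((1 - 1 / (n : ℚ)) +
                (1 / (s : ℚ) ^ 2) / a * (1 - 1 / (d : ℚ) ^ 2) +
                  μ / a * (1 - 1 / (ε : ℚ) ^ 2))))
                  = κ' * (l' * (a * (1 - 1 / (n : ℚ)) +
                    (a * ((1 / (s : ℚ) ^ 2) / a)) * (1 - 1 / (d : ℚ) ^ 2) +
                    (a * (μ / a)) * (1 - 1 / (ε : ℚ) ^ 2))) := by ring
                _ = _ := by rw [e3, e4]
            rw [e1, e2] at h2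
            calc ∑ q, (W F (f q) + μ * WT ε F (f q))
                ≤ ∑ q, ((a + μ * (1 - 1 / (ε : ℚ) ^ 2)) *
                  (F (f q) z ^ 2 / F z z ^ 2) +
                  (a * W (proj F z) (f q) + 1 / (s : ℚ) ^ 2 * WT d (proj F z) (f q) +
                  μ * WT ε (proj F z) (f q))) := by
                  refine Finset.sum_le_sum fun q _ => ?_
                  have h2 := W_ref L hm hzz0 hn hn0 hco hprim hF' (d := d)
                    (by rw [hs]; exact hmds) (f q)
                  rw [hs, ← ha] at h2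
                  have h3 := hWT q
                  linarith
              _ = (a + μ * (1 - 1 / (ε : ℚ) ^ 2)) * (κ' * ((m : ℚ) / n)) +
                  ∑ q, (a * W (proj F z) (f q) + 1 / (s : ℚ) ^ 2 * WT d (proj F z) (f q) +
                  μ * WT ε (proj F z) (f q)) := by
                  rw [Finset.sum_add_distrib, ← Finset.mul_sum, hsum]
              _ ≤ (a + μ * (1 - 1 / (ε : ℚ) ^ 2)) * (κ' * ((m : ℚ) / n)) +
                  κ' * (l' * (a * (1 - 1 / (n : ℚ)) +
                    (1 / (s : ℚ) ^ 2) * (1 - 1 / (d : ℚ) ^ 2) +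
                    μ * (1 - 1 / (ε : ℚ) ^ 2))) := by
                  linarith
              _ = κ' * (a * ((m : ℚ) / n) +
                  μ * ((1 - 1 / (ε : ℚ) ^ 2) * ((m : ℚ) / n)) +
                  (((l' + 1 : ℕ) : ℚ) - 1) *
                    (a * (1 - 1 / (n : ℚ)) + (1 / (s : ℚ) ^ 2) * (1 - 1 / (d : ℚ) ^ 2) +
                    μ * (1 - 1 / (ε : ℚ) ^ 2))) := by
                  rw [hcast]
                  ring
              _ ≤ _ := by
                  apply mul_le_mul_of_nonneg_left _ hκ'.le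
                  exact V_ref hs2 hd2 hr1 hrs hmds hndr hμ0 hμ hE hE1 hrd
    · push Not at hbad
      have hT : ∀ q, W F (f q) ≤ (1 - 1 / (m : ℚ)) * F (f q) (f q) := fun q => hbad (f q)
      refine ⟨?_, ?_⟩
      · intro _
        calc ∑ q, W F (f q) ≤ ∑ q, (1 - 1 / (m : ℚ)) * F (f q) (f q) :=
              Finset.sum_le_sum fun q _ => hT q
          _ = κ' * ((1 - 1 / (m : ℚ)) * ((l' + 1 : ℕ) : ℚ)) := by
              rw [← Finset.mul_sum, R.trace]
              ring
          _ ≤ κ' * V (l' + 1) m := by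
              apply mul_le_mul_of_nonneg_left _ hκ'.le
              exact V_trace hm
      · intro ε μ hε hμ0 hμ
        have hE := frac_nonneg (show 0 < ε by omega)
        have hWT : ∀ q, WT ε F (f q) ≤ (1 - 1 / (ε : ℚ) ^ 2) * F (f q) (f q) := by
          intro q
          have ho0 : 0 < od F (f q) := od_pos hm hF (f q)
          have hFnn := L.nonneg hκ0 (f q)
          rcases Nat.lt_or_ge 1 (od F (f q)) with ho | ho
          · have h1 := hT q
            obtain ⟨c, hc⟩ := od_mem hm hF (f q) (f q)
            simp only [eq_intCast] at hc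
            have hoQ : (2 : ℚ) ≤ od F (f q) := by exact_mod_cast ho
            have hW : W F (f q) = 1 - 1 / (od F (f q) : ℚ) ^ 2 := rfl
            generalize od F (f q) = o at ho0 ho hc hoQ hW
            rw [hW] at h1
            have ho0Q : (0 : ℚ) < o := by linarith
            have h2 : 1 - 1 / (o : ℚ) < F (f q) (f q) := by
              have h3 : 1 / (o : ℚ) ^ 2 < 1 / (o : ℚ) := by
                apply one_div_lt_one_div_of_lt (by positivity)
                nlinarith
              have h4 : (1 - 1 / (m : ℚ)) * F (f q) (f q) ≤ F (f q) (f q) := by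
                have : (0 : ℚ) ≤ 1 / (m : ℚ) * F (f q) (f q) := by positivity
                linarith
              linarith
            have h3 : (o : ℚ) - 1 < c := by
              rw [hc]
              have h4 := mul_lt_mul_of_pos_left h2 ho0Q
              have h5 : (o : ℚ) * (1 - 1 / o) = o - 1 := by field_simp
              linarith
            have h4 : (o : ℤ) ≤ c := by
              have : ((o : ℤ) : ℚ) - 1 < c := by exact_mod_cast h3
              have h6 : (o : ℤ) - 1 < c := by exact_mod_cast this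
              omega
            have h5 : 1 ≤ F (f q) (f q) := by
              have h6 : (o : ℚ) ≤ o * F (f q) (f q) := by
                rw [← hc]
                exact_mod_cast h4
              nlinarith
            calc WT ε F (f q) ≤ 1 - 1 / (ε : ℚ) ^ 2 := WT_le hm hF (by omega) (f q)
              _ ≤ _ := le_mul_of_one_le_right hE h5
          · have h1 : od F (f q) = 1 := by omega
            have h3 : WT ε F (f q) = 0 := by
              unfold WT
              rw [h1, min_eq_left (by omega)]
              norm_num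
            rw [h3]
            exact mul_nonneg hE hFnn
        calc ∑ q, (W F (f q) + μ * WT ε F (f q))
            ≤ ∑ q, ((1 - 1 / (m : ℚ)) + μ * (1 - 1 / (ε : ℚ) ^ 2)) * F (f q) (f q) := by
              refine Finset.sum_le_sum fun q _ => ?_
              have h1 := hT q
              have h2 := mul_le_mul_of_nonneg_left (hWT q) hμ0
              linarith
          _ = κ' * (((l' + 1 : ℕ) : ℚ) * ((1 - 1 / (m : ℚ)) + μ * (1 - 1 / (ε : ℚ) ^ 2))) := by
              rw [← Finset.mul_sum, R.trace]
              ring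


end Pool.Agent.Zk65.SE
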