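import Mathlib
import Pool.Agent.Zk65.SE1

/-!
The first step of the chain, and maximal lattices of given level.
-/

set_option autoImplicit false
set_option linter.unusedSectionVars false

open scoped BigOperators

namespace Pool.Agent.Zk65.SE

open Pool.Agent.N20

section top

variable {A : Type*} [AddCommGroup A] {ι : Type*} [Fintype ι] {Q : Type*} [Fintype Q]

open Classical in
/-- the first step -/
theorem top' {e : ι → A} {κ q l : ℕ} (hκ0 : 0 < κ) {f : Q → A} {κ' : ℚ} (hκ' : 0 < κ')
    {F : A →+ A →+ ℚ} (L : Lev F e κ q l) (hM : Mx F) (R : Fr F f κ' l) {z : A} {n : ℕ}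
    (hz : F z z ≠ 0) (hn : (n : ℚ) = q * F z z) (hn0 : 0 < n) (hnq : n < q)
    (hprim : Prim F z) :
    ((Finset.univ.filter (fun r => F (f r) z ≠ 0)).card : ℚ) ≤
      κ' * ((q : ℚ) / (q + 1) * max ((q : ℚ) + 1) l) := by
  have hq : 0 < q := by omega
  obtain ⟨l₀, rfl⟩ := L.rank_pos hκ0 hz
  have L' : Lev (proj F z) e κ n l₀ := L.step hz hn rfl
  have R' : Fr (proj F z) f κ' l₀ := R.step L.sym hz rfl
  have hF' := L'.int1
  have hIH := (main_ind' hκ0 hκ' l₀ n (proj F z) hn0 (hM.proj L.sym hz) L' R').1
  have hsum := R.sum_sq hz hq hn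
  calc ((Finset.univ.filter (fun r => F (f r) z ≠ 0)).card : ℚ)
      = ∑ r ∈ Finset.univ.filter (fun r => F (f r) z ≠ 0), (1 : ℚ) := by simp
    _ ≤ ∑ r ∈ Finset.univ.filter (fun r => F (f r) z ≠ 0),
        (F (f r) z ^ 2 / F z z ^ 2 + W (proj F z) (f r)) :=
        Finset.sum_le_sum fun r hr =>
          top_step L hq hz hn hn0 hM hprim hF' (f r) (Finset.mem_filter.mp hr).2
    _ ≤ ∑ r, (F (f r) z ^ 2 / F z z ^ 2 + W (proj F z) (f r)) :=
        Finset.sum_le_sum_of_subset_of_nonneg (Finset.filter_subset _ _)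
        (fun r _ _ => by
          have := W_nonneg hn0 hF' (f r)
          positivity)
    _ = κ' * ((q : ℚ) / n) + ∑ r, W (proj F z) (f r) := by
        rw [Finset.sum_add_distrib, hsum]
    _ ≤ κ' * ((q : ℚ) / n + V l₀ n) := by
        rw [mul_add]
        linarith
    _ ≤ _ := by
        apply mul_le_mul_of_nonneg_left _ hκ'.le
        have := V_top (l := l₀ + 1) (p := q) (n := n) hn0 hnq (by omega)
        simpa using this

end top

section minors

/-- adding an integral matrix to a matrix all whose minors are integral up to a factor -/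
theorem minors_add {X : Type*} (q : ℚ) (hq : q ∈ ZZ) (P : X → X → ℚ)
    (hP : ∀ (s : ℕ) (x y : Fin s → X), q * Matrix.det (Matrix.of fun i j => P (x i) (y j)) ∈ ZZ) :
    ∀ (s : ℕ) (x y : Fin s → X) (E : Matrix (Fin s) (Fin s) ℚ), (∀ i j, E i j ∈ ZZ) →
      q * Matrix.det (Matrix.of fun i j => P (x i) (y j) + E i j) ∈ ZZ := by
  intro s
  induction s with
  | zero =>
    intro x y E _
    rw [Matrix.det_isEmpty, mul_one]
    exact hq
  | succ s ih =>
    intro x y E hE
    have key : ∀ T : Finset (Fin (s + 1)), q * Matrix.det (Matrix.of fun i j =>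
        P (x i) (y j) + if i ∈ T then E i j else 0) ∈ ZZ := by
      intro T
      induction T using Finset.induction_on with
      | empty =>
        simp only [Finset.notMem_empty, if_false, add_zero]
        exact hP _ x y
      | insert i₀ T hi₀ ihT =>
        set A : Matrix (Fin (s + 1)) (Fin (s + 1)) ℚ := Matrix.of fun i j =>
          P (x i) (y j) + if i ∈ T then E i j else 0 with hA
        have h1 : (Matrix.of fun i j => P (x i) (y j) + if i ∈ insert i₀ T then E i j else 0) =
            A.updateRow i₀ (A i₀ + E i₀) := by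
          ext i j
          by_cases hi : i = i₀
          · subst hi
            rw [Matrix.updateRow_self, Pi.add_apply]
            simp [hA, hi₀]
          · rw [Matrix.updateRow_ne hi]
            simp [hA, hi]
        rw [h1, Matrix.det_updateRow_add, Matrix.updateRow_eq_self, mul_add]
        refine add_mem ihT ?_
        rw [Matrix.det_succ_row _ i₀, Finset.mul_sum]
        refine sum_mem fun j _ => ?_
        have h2 : (A.updateRow i₀ (E i₀)).submatrix i₀.succAbove j.succAbove =
            Matrix.of fun a b => P (x (i₀.succAbove a)) (y (j.succAbove b)) +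
              if i₀.succAbove a ∈ T then E (i₀.succAbove a) (j.succAbove b) else 0 := by
          ext a b
          rw [Matrix.submatrix_apply, Matrix.updateRow_ne (Fin.succAbove_ne i₀ a)]
          rfl
        have h3 := ih (fun a => x (i₀.succAbove a)) (fun b => y (j.succAbove b))
          (fun a b => if i₀.succAbove a ∈ T then E (i₀.succAbove a) (j.succAbove b) else 0)
          (by
            intro a b
            show (if i₀.succAbove a ∈ T then E (i₀.succAbove a) (j.succAbove b) else 0) ∈ ZZ
            split_ifs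
            · exact hE _ _
            · exact zero_mem _)
        rw [Matrix.updateRow_self, h2]
        have h4 : q * ((-1) ^ ((i₀ : ℕ) + (j : ℕ)) * E i₀ j * Matrix.det (Matrix.of fun a b =>
            P (x (i₀.succAbove a)) (y (j.succAbove b)) +
              if i₀.succAbove a ∈ T then E (i₀.succAbove a) (j.succAbove b) else 0)) =
            ((-1) ^ ((i₀ : ℕ) + (j : ℕ)) * E i₀ j) * (q * Matrix.det (Matrix.of fun a b =>
            P (x (i₀.succAbove a)) (y (j.succAbove b)) +
              if i₀.succAbove a ∈ T then E (i₀.succAbove a) (j.succAbove b) else 0)) := by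
          ring
        rw [h4]
        refine mul_mem (mul_mem (pow_mem (neg_mem (one_mem _)) _) (hE _ _)) h3
    have h5 := key Finset.univ
    simpa using h5

end minors

section zorn

variable {V : Type*} [AddCommGroup V] (B : V →+ V →+ ℚ) (q : ℕ)

/-- the lattices of level `q` -/
def Good (X : AddSubgroup V) : Prop :=
  ∀ (s : ℕ) (x y : Fin s → V), (∀ i, x i ∈ X) → (∀ i, y i ∈ X) →
    (q : ℚ) * Matrix.det (Matrix.of fun i j => B (x i) (y j)) ∈ ZZ

/-- the restriction of a form -/
def res (X : AddSubgroup V) : X →+ X →+ ℚ :=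
  AddMonoidHom.mk' (fun a => (B a).comp X.subtype) (by
    intro a b
    ext c
    simp)

@[simp] lemma res_apply (X : AddSubgroup V) (a b : X) : res B X a b = B a b := rfl

lemma chain_finite {c : Set (AddSubgroup V)} (hc : IsChain (· ≤ ·) c) {Y : AddSubgroup V}
    (hY : Y ∈ c) {α : Type*} (T : Finset α) (v : α → V) (hv : ∀ a ∈ T, v a ∈ sSup c) :
    ∃ Z ∈ c, ∀ a ∈ T, v a ∈ Z := by
  classical
  induction T using Finset.induction_on with
  | empty => exact ⟨Y, hY, by simp⟩
  | insert a T ha ih =>
    obtain ⟨Z, hZ, h1⟩ := ih (fun b hb => hv b (Finset.mem_insert_of_mem hb))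
    have h2 := hv a (Finset.mem_insert_self a T)
    rw [AddSubgroup.mem_sSup_of_directedOn ⟨Y, hY⟩ hc.directedOn] at h2
    obtain ⟨Z', hZ', h3⟩ := h2
    rcases hc.total hZ hZ' with h4 | h4
    · refine ⟨Z', hZ', fun b hb => ?_⟩
      rcases Finset.mem_insert.mp hb with rfl | hb
      · exact h3
      · exact h4 (h1 b hb)
    · refine ⟨Z, hZ, fun b hb => ?_⟩
      rcases Finset.mem_insert.mp hb with rfl | hb
      · exact h4 h3
      · exact h1 b hb

/-- there are maximal lattices of level `q` -/
lemma exists_maximal {A : AddSubgroup V} (hA : Good B q A) :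
    ∃ X : AddSubgroup V, A ≤ X ∧ Good B q X ∧ ∀ Y, X ≤ Y → Good B q Y → Y ≤ X := by
  obtain ⟨m, h1, h2⟩ := zorn_le_nonempty₀ {X | Good B q X} (by
    intro c hcs hc Y hY
    refine ⟨sSup c, ?_, fun z hz => le_sSup hz⟩
    intro s x y hx hy
    obtain ⟨Z, hZ, h3⟩ := chain_finite hc hY (Finset.univ : Finset (Fin s ⊕ Fin s))
      (Sum.elim x y) (by
        intro a _
        rcases a with a | a
        · exact hx a
        · exact hy a)
    exact hcs hZ s x y (fun i => h3 (Sum.inl i) (Finset.mem_univ _))
      (fun i => h3 (Sum.inr i) (Finset.mem_univ _))) A hA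
  exact ⟨m, h1, h2.prop, fun Y hY hg => h2.le_of_ge hg hY⟩

end zorn

section mx

variable {ι : Type*} (B : (ι → ℚ) →+ (ι → ℚ) →+ ℚ) (q : ℕ)

/-- maximal lattices are maximal in the sense of `Mx` -/
lemma mx_of_maximal (hsym : ∀ a b, B a b = B b a) {X : AddSubgroup (ι → ℚ)} (hX : Good B q X)
    (hmax : ∀ Y, X ≤ Y → Good B q Y → Y ≤ X) : Mx (res B X) := by
  intro a d hd h1 h2
  have hd0 : (d : ℚ) ≠ 0 := by positivity
  have hz1 : ∀ (k : ℤ) (v w : ι → ℚ), B (k • v) w = k * B v w := by
    intro k v w
    rw [map_zsmul, AddMonoidHom.zsmul_apply, _root_.zsmul_eq_mul]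
  have hz2 : ∀ (k : ℤ) (v w : ι → ℚ), B v (k • w) = k * B v w := by
    intro k v w
    rw [map_zsmul, _root_.zsmul_eq_mul]
  set y : ι → ℚ := (d : ℚ)⁻¹ • (a : ι → ℚ) with hy
  have hdy : d • y = a := by
    rw [hy]
    ext i
    simp [hd0]
  have hBy : ∀ v, B v y = B v a / d := by
    intro v
    have h3 : B v (d • y) = d * B v y := by
      rw [map_nsmul, nsmul_eq_mul]
    rw [hdy] at h3
    rw [h3]
    field_simp
  have hBy' : ∀ v, B y v = B a v / d := by
    intro v
    rw [hsym y v, hBy, hsym v a]
  have hyX : ∀ v ∈ X, B y v ∈ ZZ := by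
    intro v hv
    rw [hBy']
    exact h1 ⟨v, hv⟩
  have hyy : B y y ∈ ZZ := by
    rw [hBy, hBy']
    have : B (a : ι → ℚ) a / d / d = res B X a a / (d : ℚ) ^ 2 := by
      rw [res_apply]
      field_simp
    rw [this]
    exact h2
  have hgood : Good B q (X ⊔ AddSubgroup.zmultiples y) := by
    intro s x w hx hw
    have hdec : ∀ v ∈ X ⊔ AddSubgroup.zmultiples y, ∃ (v' : X) (k : ℤ),
        v = (v' : ι → ℚ) + k • y := by
      intro v hv
      obtain ⟨v', hv', v'', hv'', rfl⟩ := AddSubgroup.mem_sup.mp hv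
      obtain ⟨k, rfl⟩ := AddSubgroup.mem_zmultiples_iff.mp hv''
      exact ⟨⟨v', hv'⟩, k, rfl⟩
    choose x' α hx' using fun i => hdec (x i) (hx i)
    choose w' β hw' using fun i => hdec (w i) (hw i)
    have h3 := minors_add (X := X) (q : ℚ) (natCast_ZZ q) (fun a b => B a b)
      (fun s x y => hX s (fun i => x i) (fun i => y i) (fun i => (x i).2) (fun i => (y i).2))
      s x' w' (Matrix.of fun i j => (β j : ℚ) * B y (x' i) + α i * B y (w' j) +
        α i * β j * B y y) (by
        intro i j
        refine add_mem (add_mem (mul_mem (intCast_ZZ _) (hyX _ (x' i).2))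
          (mul_mem (intCast_ZZ _) (hyX _ (w' j).2)))
          (mul_mem (mul_mem (intCast_ZZ _) (intCast_ZZ _)) hyy))
    have h4 : (Matrix.of fun i j => B (x i) (w j)) = Matrix.of fun i j =>
        B (x' i) (w' j) + (Matrix.of fun i j => (β j : ℚ) * B y (x' i) + α i * B y (w' j) +
        α i * β j * B y y) i j := by
      ext i j
      rw [Matrix.of_apply, Matrix.of_apply, Matrix.of_apply, hx' i, hw' j, map_add, map_add,
        AddMonoidHom.add_apply, AddMonoidHom.add_apply, hz1, hz2, hz2, hz1,
        hsym (x' i : ι → ℚ) y]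
      ring
    rw [h4]
    exact h3
  have h5 := hmax _ le_sup_left hgood
  have h6 : y ∈ X := h5 (AddSubgroup.mem_sup_right (AddSubgroup.mem_zmultiples y))
  refine ⟨⟨y, h6⟩, fun b => ?_⟩
  rw [res_apply, res_apply, hBy']
  field_simp

end mx

end Pool.Agent.Zk65.SE
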