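import Mathlib

/-!
Frames in the lattice of an integral matrix with even rows and contributions divisible by four.
-/

set_option autoImplicit false

open scoped BigOperators

namespace Pool.Agent.Zk65.TB

section

variable {ι Q : Type*} [Fintype ι] [Fintype Q]

/-- the bilinear form of a matrix -/
def fm (M : ι → ι → ℤ) (x y : ι → ℤ) : ℤ := ∑ i, ∑ j, x i * y j * M i j

lemma fm_comb_left (M : ι → ι → ℤ) (a b : ℤ) (x y w : ι → ℤ) :
    fm M (fun i => a * x i + b * y i) w = a * fm M x w + b * fm M y w := by
  unfold fm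
  rw [Finset.mul_sum, Finset.mul_sum, ← Finset.sum_add_distrib]
  refine Finset.sum_congr rfl fun i _ => ?_
  rw [Finset.mul_sum, Finset.mul_sum, ← Finset.sum_add_distrib]
  refine Finset.sum_congr rfl fun j _ => ?_
  ring

lemma fm_symm {M : ι → ι → ℤ} (hsym : ∀ i j, M i j = M j i) (x y : ι → ℤ) :
    fm M x y = fm M y x := by
  unfold fm
  rw [Finset.sum_comm]
  refine Finset.sum_congr rfl fun i _ => Finset.sum_congr rfl fun j _ => ?_
  rw [hsym j i]
  ring

lemma fm_comb_right {M : ι → ι → ℤ} (hsym : ∀ i j, M i j = M j i) (a b : ℤ)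
    (x y w : ι → ℤ) : fm M w (fun i => a * x i + b * y i) = a * fm M w x + b * fm M w y := by
  rw [fm_symm hsym, fm_comb_left, fm_symm hsym x w, fm_symm hsym y w]

lemma fm_comb {M : ι → ι → ℤ} (hsym : ∀ i j, M i j = M j i) (a b : ℤ) (x y : ι → ℤ) :
    fm M (fun i => a * x i + b * y i) (fun i => a * x i + b * y i) =
      a ^ 2 * fm M x x + 2 * a * b * fm M x y + b ^ 2 * fm M y y := by
  rw [fm_comb_left, fm_comb_right hsym, fm_comb_right hsym, fm_symm hsym y x]
  ring

lemma fm_eq (M : ι → ι → ℤ) (x y : ι → ℤ) : fm M x y = ∑ i, x i * ∑ j, M i j * y j := by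
  unfold fm
  refine Finset.sum_congr rfl fun i _ => ?_
  rw [Finset.mul_sum]
  exact Finset.sum_congr rfl fun j _ => by ring

/-- the data of a frame -/
structure FrD (M : ι → ι → ℤ) (f : Q → ι → ℤ) (q κ l : ℤ) : Prop where
  sym : ∀ i j, M i j = M j i
  sq : ∀ i j, ∑ k, M i k * M k j = q * M i j
  tr : ∑ i, M i i = q * l
  fr : ∀ i j, ∑ r, (∑ k, M i k * f r k) * (∑ k, M j k * f r k) = κ * M i j
  qpos : 0 < q
  κpos : 0 ≤ κ
  lpos : 0 ≤ l

variable {M : ι → ι → ℤ} {f : Q → ι → ℤ} {q κ l : ℤ} (h : FrD M f q κ l)

include h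

lemma FrD.frame (x y : ι → ℤ) : ∑ r, fm M (f r) x * fm M (f r) y = κ * fm M x y := by
  have h1 : ∀ r, fm M (f r) x * fm M (f r) y =
      ∑ i, ∑ j, x i * y j * ((∑ k, M i k * f r k) * (∑ k, M j k * f r k)) := by
    intro r
    rw [fm_symm h.sym (f r) x, fm_symm h.sym (f r) y, fm_eq, fm_eq, Finset.sum_mul_sum]
    refine Finset.sum_congr rfl fun i _ => Finset.sum_congr rfl fun j _ => ?_
    ring
  rw [Finset.sum_congr rfl (fun r _ => h1 r), Finset.sum_comm]
  unfold fm
  rw [Finset.mul_sum]
  refine Finset.sum_congr rfl fun i _ => ?_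
  rw [Finset.sum_comm, Finset.mul_sum]
  refine Finset.sum_congr rfl fun j _ => ?_
  rw [← Finset.mul_sum, h.fr]
  ring

lemma FrD.sqsum (x : ι → ℤ) : q * fm M x x = ∑ k, (∑ i, M k i * x i) * (∑ i, M k i * x i) := by
  have h1 : ∀ k, (∑ i, M k i * x i) * (∑ i, M k i * x i) =
      ∑ i, ∑ j, x i * x j * (M i k * M k j) := by
    intro k
    rw [Finset.sum_mul_sum]
    refine Finset.sum_congr rfl fun i _ => Finset.sum_congr rfl fun j _ => ?_
    rw [h.sym i k]
    ring
  rw [Finset.sum_congr rfl (fun k _ => h1 k), Finset.sum_comm]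
  unfold fm
  rw [Finset.mul_sum]
  refine Finset.sum_congr rfl fun i _ => ?_
  rw [Finset.sum_comm, Finset.mul_sum]
  refine Finset.sum_congr rfl fun j _ => ?_
  rw [← Finset.mul_sum, h.sq]
  ring

lemma FrD.nonneg (x : ι → ℤ) : 0 ≤ fm M x x := by
  have h1 := h.sqsum x
  have h2 : 0 ≤ q * fm M x x := by
    rw [h1]
    exact Finset.sum_nonneg fun k _ => mul_self_nonneg _
  exact nonneg_of_mul_nonneg_right h2 h.qpos

lemma FrD.trace : ∑ r, fm M (f r) (f r) = κ * l := by
  have h1 : q * ∑ r, fm M (f r) (f r) = q * (κ * l) := by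
    rw [Finset.mul_sum, Finset.sum_congr rfl (fun r _ => h.sqsum (f r)), Finset.sum_comm,
      Finset.sum_congr rfl (fun k _ => h.fr k k), ← Finset.mul_sum, h.tr]
    ring
  exact mul_left_cancel₀ h.qpos.ne' h1

lemma FrD.cs (x z : ι → ℤ) (hne : fm M x z ≠ 0) : 0 < fm M x x := by
  rcases (h.nonneg x).lt_or_eq with h1 | h1
  · exact h1
  · exfalso
    have h2 : ∀ k, (∑ i, M k i * x i) = 0 := by
      have h3 := h.sqsum x
      rw [← h1, mul_zero] at h3
      have h4 := (Finset.sum_eq_zero_iff_of_nonneg
        (fun k _ => mul_self_nonneg (∑ i, M k i * x i))).mp h3.symm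
      intro k
      exact mul_self_eq_zero.mp (h4 k (Finset.mem_univ _))
    apply hne
    rw [fm_symm h.sym, fm_eq]
    exact Finset.sum_eq_zero fun i _ => by rw [h2, mul_zero]

end

section main

variable {ι Q : Type*} [Fintype ι] [Fintype Q] {M : ι → ι → ℤ} {f : Q → ι → ℤ} {q κ l : ℤ}

open Classical in
/-- the number of frame vectors not orthogonal to a vector -/
noncomputable def cnt (M : ι → ι → ℤ) (f : Q → ι → ℤ) (z : ι → ℤ) : ℤ :=
  ((Finset.univ.filter (fun r => fm M (f r) z ≠ 0)).card : ℤ)

/-- counting with weights -/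
lemma cnt_le (z : ι → ℤ) (c : ℤ) (w : Q → ℤ) (hw : ∀ r, 0 ≤ w r)
    (h1 : ∀ r, fm M (f r) z ≠ 0 → c ≤ w r) : c * cnt M f z ≤ ∑ r, w r := by
  classical
  unfold cnt
  calc c * ((Finset.univ.filter (fun r => fm M (f r) z ≠ 0)).card : ℤ)
      = ∑ r ∈ Finset.univ.filter (fun r => fm M (f r) z ≠ 0), c := by
        rw [Finset.sum_const, nsmul_eq_mul]
        ring
    _ ≤ ∑ r ∈ Finset.univ.filter (fun r => fm M (f r) z ≠ 0), w r :=
        Finset.sum_le_sum fun r hr => h1 r (Finset.mem_filter.mp hr).2
    _ ≤ ∑ r, w r := Finset.sum_le_sum_of_subset_of_nonneg (Finset.filter_subset _ _)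
        (fun r _ _ => hw r)

variable (h : FrD M f q κ l)

include h

/-- vectors of norm one -/
lemma case_one {z : ι → ℤ} (hz : fm M z z = 1) : cnt M f z ≤ κ := by
  have h1 := cnt_le (M := M) (f := f) z 1 (fun r => fm M (f r) z * fm M (f r) z)
    (fun r => mul_self_nonneg _) (fun r hr => by
      have : 0 < fm M (f r) z * fm M (f r) z := mul_self_pos.mpr hr
      omega)
  rw [h.frame, hz] at h1
  linarith

/-- **Vectors of norm three.** -/
lemma case_three {z : ι → ℤ} (hz : fm M z z = 3) {G : (ι → ℤ) → (ι → ℤ) → ℤ}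
    (hG : ∀ x y, 4 * G x y = 3 * fm M x y - fm M x z * fm M y z) :
    5 * cnt M f z ≤ κ * max 5 l := by
  have hκ := h.κpos
  -- properties of `G`
  have hGs : ∀ x y, G x y = G y x := by
    intro x y
    have h1 := hG x y
    have h2 := hG y x
    rw [fm_symm h.sym y x] at h2
    linarith
  have hG0 : ∀ x, 0 ≤ G x x := by
    intro x
    have h1 := h.nonneg (fun i => 3 * x i + (-fm M x z) * z i)
    rw [fm_comb h.sym, hz] at h1
    have h2 := hG x x
    nlinarith
  have hGc : ∀ (a b : ℤ) (x y : ι → ℤ), G (fun i => a * x i + b * y i)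
      (fun i => a * x i + b * y i) = a ^ 2 * G x x + 2 * a * b * G x y + b ^ 2 * G y y := by
    intro a b x y
    have h1 := hG (fun i => a * x i + b * y i) (fun i => a * x i + b * y i)
    rw [fm_comb h.sym, fm_comb_left] at h1
    have h2 := hG x x
    have h3 := hG x y
    have h4 := hG y y
    have h5 : 4 * G (fun i => a * x i + b * y i) (fun i => a * x i + b * y i) =
        4 * (a ^ 2 * G x x + 2 * a * b * G x y + b ^ 2 * G y y) := by
      rw [h1]
      linear_combination -a ^ 2 * h2 - 2 * a * b * h3 - b ^ 2 * h4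
    linarith
  have hfG : ∀ x y, 4 * ∑ r, G (f r) x * G (f r) y = 3 * κ * G x y := by
    intro x y
    have h1 : ∀ r, 16 * (G (f r) x * G (f r) y) = 9 * (fm M (f r) x * fm M (f r) y) -
        3 * fm M y z * (fm M (f r) x * fm M (f r) z) - 3 * fm M x z *
        (fm M (f r) y * fm M (f r) z) + fm M x z * fm M y z * (fm M (f r) z * fm M (f r) z) := by
      intro r
      have e : 16 * (G (f r) x * G (f r) y) = (4 * G (f r) x) * (4 * G (f r) y) := by ring
      rw [e, hG, hG]
      ring
    have h2 : 16 * ∑ r, G (f r) x * G (f r) y = 12 * κ * G x y := by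
      rw [Finset.mul_sum, Finset.sum_congr rfl (fun r _ => h1 r), Finset.sum_add_distrib,
        Finset.sum_sub_distrib, Finset.sum_sub_distrib, ← Finset.mul_sum, ← Finset.mul_sum,
        ← Finset.mul_sum, ← Finset.mul_sum, h.frame, h.frame, h.frame, h.frame, hz]
      linear_combination (-3 * κ) * hG x y
    linarith
  have htG : 4 * ∑ r, G (f r) (f r) = 3 * κ * (l - 1) := by
    rw [Finset.mul_sum, Finset.sum_congr rfl (fun r _ => hG (f r) (f r)), Finset.sum_sub_distrib,
      ← Finset.mul_sum, h.trace, h.frame, hz]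
    ring
  have ht : ∑ r, fm M (f r) z * fm M (f r) z = 3 * κ := by
    rw [h.frame, hz]
    ring
  have hmod : ∀ x, ¬ (3 : ℤ) ∣ fm M x z → G x x % 3 = 2 := by
    intro x hx
    have h1 := hG x x
    have h2 : fm M x z % 3 = 1 ∨ fm M x z % 3 = 2 := by omega
    have h3 : (fm M x z * fm M x z) % 3 = 1 := by
      rcases h2 with h2 | h2 <;> rw [Int.mul_emod, h2] <;> rfl
    omega
  by_cases hB : ∀ x, ¬ (3 : ℤ) ∣ fm M x z → 5 ≤ G x x
  · -- all norms are large
    have h1 := cnt_le (M := M) (f := f) z 45
      (fun r => 5 * (fm M (f r) z * fm M (f r) z) + 8 * G (f r) (f r))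
      (fun r => by
        have := hG0 (f r)
        have := mul_self_nonneg (fm M (f r) z)
        positivity) (fun r hr => by
        have h2 := hG0 (f r)
        by_cases h3 : (3 : ℤ) ∣ fm M (f r) z
        · obtain ⟨c, hc⟩ := h3
          have hc0 : c ≠ 0 := by
            rintro rfl
            exact hr (by rw [hc]; ring)
          have h4 : 0 < c * c := mul_self_pos.mpr hc0
          rw [hc]
          nlinarith
        · have h4 := hB _ h3
          have h5 : 0 < fm M (f r) z * fm M (f r) z := mul_self_pos.mpr hr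
          nlinarith)
    rw [Finset.sum_add_distrib, ← Finset.mul_sum, ← Finset.mul_sum, ht] at h1
    have h2 : 45 * cnt M f z ≤ κ * (9 + 6 * l) := by nlinarith
    rcases le_total l 5 with h3 | h3
    · rw [max_eq_left h3]
      nlinarith
    · rw [max_eq_right h3]
      nlinarith
  · -- a vector of norm two
    push Not at hB
    obtain ⟨z', hz', hlt⟩ := hB
    have hGz : G z' z' = 2 := by
      have h1 := hmod z' hz'
      have h2 := hG0 z'
      omega
    -- the third form
    have h3dvd : ∀ x y, (3 : ℤ) ∣ 2 * G x y - G x z' * G y z' := by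
      intro x y
      have e1 := hG x y
      have e2 := hG x z'
      have e3 := hG y z'
      have e4 := hG z' z'
      rw [hGz] at e4
      have h1 : 16 * (2 * G x y - G x z' * G y z') = 3 * (8 * fm M x y -
          3 * fm M x z' * fm M y z' + fm M x z' * (fm M y z * fm M z' z) +
          fm M y z' * (fm M x z * fm M z' z) - fm M x z * fm M y z * fm M z' z') := by
        have e5 : 16 * (2 * G x y - G x z' * G y z') = 8 * (4 * G x y) -
            (4 * G x z') * (4 * G y z') := by ring
        rw [e5, e1, e2, e3]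
        linear_combination (-(fm M x z * fm M y z)) * e4
      set X := 2 * G x y - G x z' * G y z'
      set Y := 8 * fm M x y -
          3 * fm M x z' * fm M y z' + fm M x z' * (fm M y z * fm M z' z) +
          fm M y z' * (fm M x z * fm M z' z) - fm M x z * fm M y z * fm M z' z'
      exact ⟨Y - 5 * X, by linarith⟩
    choose H hH using h3dvd
    have hs : 2 * ∑ r, G (f r) z' * G (f r) z' = 3 * κ := by
      have := hfG z' z'
      rw [hGz] at this
      linarith
    have hH0 : ∀ x, 0 ≤ H x x := by
      intro x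
      have h1 := hG0 (fun i => 2 * x i + (-G x z') * z' i)
      rw [hGc, hGz] at h1
      have h2 := hH x x
      nlinarith
    have hfH : ∀ x, 2 * ∑ r, H (f r) x * H (f r) x = κ * H x x := by
      intro x
      have h1 : ∀ r, 9 * (H (f r) x * H (f r) x) = 4 * (G (f r) x * G (f r) x) -
          4 * G x z' * (G (f r) x * G (f r) z') + G x z' * G x z' *
            (G (f r) z' * G (f r) z') := by
        intro r
        have e : 9 * (H (f r) x * H (f r) x) = (3 * H (f r) x) * (3 * H (f r) x) := by ring
        rw [e, ← hH]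
        ring
      have h2 : 9 * ∑ r, H (f r) x * H (f r) x = 4 * ∑ r, G (f r) x * G (f r) x -
          4 * G x z' * ∑ r, G (f r) x * G (f r) z' + G x z' * G x z' *
            ∑ r, G (f r) z' * G (f r) z' := by
        rw [Finset.mul_sum, Finset.sum_congr rfl (fun r _ => h1 r), Finset.sum_add_distrib,
          Finset.sum_sub_distrib, ← Finset.mul_sum, ← Finset.mul_sum, ← Finset.mul_sum]
      have h3 := hfG x x
      have h4 := hfG x z'
      have h5 := hH x x
      have h6 : 18 * ∑ r, H (f r) x * H (f r) x = 9 * (κ * H x x) := by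
        linear_combination 2 * h2 + 2 * h3 - 2 * G x z' * h4 + G x z' * G x z' * hs + 3 * κ * h5
      linarith
    have htH : 2 * ∑ r, H (f r) (f r) = κ * (l - 2) := by
      have h1 : 3 * ∑ r, H (f r) (f r) = 2 * ∑ r, G (f r) (f r) -
          ∑ r, G (f r) z' * G (f r) z' := by
        rw [Finset.mul_sum, Finset.mul_sum, ← Finset.sum_sub_distrib]
        exact Finset.sum_congr rfl fun r _ => (hH (f r) (f r)).symm
      linarith
    have hs3 : ∀ r, ¬ (3 : ℤ) ∣ fm M (f r) z → G (f r) z' ≠ 0 := by
      intro r hr h0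
      have h1 := hG (f r) z'
      rw [h0, mul_zero] at h1
      have h2 : (3 : ℤ) ∣ fm M (f r) z * fm M z' z := ⟨fm M (f r) z', by linarith⟩
      rcases Int.prime_three.dvd_or_dvd h2 with h3 | h3
      · exact hr h3
      · exact hz' h3
    have hthree : ∀ r, fm M (f r) z ≠ 0 → (3 : ℤ) ∣ fm M (f r) z →
        9 ≤ fm M (f r) z * fm M (f r) z := by
      rintro r hr ⟨c, hc⟩
      have hc0 : c ≠ 0 := by
        rintro rfl
        exact hr (by rw [hc]; ring)
      have h4 : 0 < c * c := mul_self_pos.mpr hc0
      rw [hc]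
      nlinarith
    by_cases hC : ∀ x, ¬ (2 : ℤ) ∣ G x z' → 3 ≤ H x x
    · have h1 := cnt_le (M := M) (f := f) z 9
        (fun r => fm M (f r) z * fm M (f r) z + 2 * (G (f r) z' * G (f r) z') +
          2 * H (f r) (f r)) (fun r => by
          have := hH0 (f r)
          have := mul_self_nonneg (fm M (f r) z)
          have := mul_self_nonneg (G (f r) z')
          positivity) (fun r hr => by
          have h2 := hH0 (f r)
          have h2' := mul_self_nonneg (G (f r) z')
          by_cases h3 : (3 : ℤ) ∣ fm M (f r) z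
          · have := hthree r hr h3
            linarith
          · have h4 := hs3 r h3
            have h5 : 0 < fm M (f r) z * fm M (f r) z := mul_self_pos.mpr hr
            by_cases h6 : (2 : ℤ) ∣ G (f r) z'
            · obtain ⟨c, hc⟩ := h6
              have hc0 : c ≠ 0 := by
                rintro rfl
                exact h4 (by rw [hc]; ring)
              have h7 : 0 < c * c := mul_self_pos.mpr hc0
              rw [hc]
              nlinarith
            · have h7 := hC _ h6
              have h8 : 0 < G (f r) z' * G (f r) z' := mul_self_pos.mpr h4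
              linarith)
      rw [Finset.sum_add_distrib, Finset.sum_add_distrib, ← Finset.mul_sum, ← Finset.mul_sum,
        ht, hs, htH] at h1
      have h2 : 9 * cnt M f z ≤ κ * (l + 4) := by linarith
      rcases le_total l 5 with h3 | h3
      · rw [max_eq_left h3]
        nlinarith
      · rw [max_eq_right h3]
        nlinarith
    · push Not at hC
      obtain ⟨x, hx, hlt'⟩ := hC
      have hHx : H x x = 1 := by
        have h1 := hH0 x
        have h2 := hH x x
        have h3 : ¬ (2 : ℤ) ∣ G x z' * G x z' := by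
          intro h4
          rcases Int.prime_two.dvd_or_dvd h4 with h5 | h5 <;> exact hx h5
        omega
      have h1 := cnt_le (M := M) (f := f) z 9
        (fun r => fm M (f r) z * fm M (f r) z + 2 * (G (f r) z' * G (f r) z') +
          6 * (H (f r) x * H (f r) x)) (fun r => by
          have := mul_self_nonneg (H (f r) x)
          have := mul_self_nonneg (fm M (f r) z)
          have := mul_self_nonneg (G (f r) z')
          positivity) (fun r hr => by
          have h2 := mul_self_nonneg (H (f r) x)
          have h2' := mul_self_nonneg (G (f r) z')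
          by_cases h3 : (3 : ℤ) ∣ fm M (f r) z
          · have := hthree r hr h3
            linarith
          · have h4 := hs3 r h3
            have h5 : 0 < fm M (f r) z * fm M (f r) z := mul_self_pos.mpr hr
            by_cases h6 : (2 : ℤ) ∣ G (f r) z'
            · obtain ⟨c, hc⟩ := h6
              have hc0 : c ≠ 0 := by
                rintro rfl
                exact h4 (by rw [hc]; ring)
              have h7 : 0 < c * c := mul_self_pos.mpr hc0
              rw [hc]
              nlinarith
            · have h7 : H (f r) x ≠ 0 := by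
                intro h0
                have h8 := hH (f r) x
                rw [h0, mul_zero] at h8
                have h9 : (2 : ℤ) ∣ G (f r) z' * G x z' := ⟨G (f r) x, by linarith⟩
                rcases Int.prime_two.dvd_or_dvd h9 with h10 | h10
                · exact h6 h10
                · exact hx h10
              have h8 : 0 < H (f r) x * H (f r) x := mul_self_pos.mpr h7
              have h9 : 0 < G (f r) z' * G (f r) z' := mul_self_pos.mpr h4
              linarith)
      have h2 := hfH x
      rw [hHx, mul_one] at h2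
      rw [Finset.sum_add_distrib, Finset.sum_add_distrib, ← Finset.mul_sum, ← Finset.mul_sum,
        ht, hs] at h1
      have h3 : 9 * cnt M f z ≤ 9 * κ := by linarith
      have h4 : κ * 5 ≤ κ * max 5 l := mul_le_mul_of_nonneg_left (le_max_left _ _) hκ
      linarith

end main

end Pool.Agent.Zk65.TB
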