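import Mathlib
import Pool.Agent.N20.MatThm
import Pool.Agent.Zk65.SE2
import Pool.Agent.Zk65.TB7

/-!
The counting theorem for integral matrices whose minors of order two are divisible by a power of
`p`.
-/

set_option autoImplicit false
set_option linter.unusedSectionVars false

open scoped BigOperators

namespace Pool.Agent.Zk65.SE

open Pool.Agent.N20 Pool.Agent.Zk65.TB

section ext

variable {ι : Type*} [Fintype ι] {M : ι → ι → ℤ} {q : ℤ}

lemma minor_ext (hq : ∀ i j k t, q ∣ M i j * M k t - M i t * M k j) (x x' y y' : ι → ℤ) :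
    q ∣ fm M x y * fm M x' y' - fm M x y' * fm M x' y := by
  have h1 : fm M x y * fm M x' y' = ∑ i, ∑ j, ∑ k, ∑ t,
      x i * y j * x' k * y' t * (M i j * M k t) := by
    unfold fm
    rw [Finset.sum_mul]
    refine Finset.sum_congr rfl fun i _ => ?_
    rw [Finset.sum_mul]
    refine Finset.sum_congr rfl fun j _ => ?_
    rw [Finset.mul_sum]
    refine Finset.sum_congr rfl fun k _ => ?_
    rw [Finset.mul_sum]
    refine Finset.sum_congr rfl fun t _ => ?_
    ring
  have h2 : fm M x y' * fm M x' y = ∑ i, ∑ j, ∑ k, ∑ t,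
      x i * y j * x' k * y' t * (M i t * M k j) := by
    unfold fm
    rw [Finset.sum_mul]
    refine Finset.sum_congr rfl fun i _ => ?_
    rw [Finset.sum_mul]
    have h3 : ∀ t, (x i * y' t * M i t) * ∑ k, ∑ j, x' k * y j * M k j =
        ∑ k, ∑ j, x i * y j * x' k * y' t * (M i t * M k j) := by
      intro t
      rw [Finset.mul_sum]
      refine Finset.sum_congr rfl fun k _ => ?_
      rw [Finset.mul_sum]
      refine Finset.sum_congr rfl fun j _ => ?_
      ring
    rw [Finset.sum_congr rfl (fun t _ => h3 t)]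
    rw [Finset.sum_comm]
    rw [Finset.sum_congr rfl (fun k _ => Finset.sum_comm)]
    rw [Finset.sum_comm]
  rw [h1, h2, ← Finset.sum_sub_distrib]
  refine Finset.dvd_sum fun i _ => ?_
  rw [← Finset.sum_sub_distrib]
  refine Finset.dvd_sum fun j _ => ?_
  rw [← Finset.sum_sub_distrib]
  refine Finset.dvd_sum fun k _ => ?_
  rw [← Finset.sum_sub_distrib]
  refine Finset.dvd_sum fun t _ => ?_
  rw [← mul_sub]
  exact Dvd.dvd.mul_left (hq i j k t) _

end ext

section rat

variable {ι : Type*} [Fintype ι]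

/-- the form over the rationals -/
def bq (M : ι → ι → ℤ) (q : ℕ) : (ι → ℚ) →+ (ι → ℚ) →+ ℚ :=
  AddMonoidHom.mk' (fun a => AddMonoidHom.mk'
    (fun b => (∑ i, ∑ j, a i * b j * (M i j : ℚ)) / q)
    (by
      intro b b'
      rw [← add_div, ← Finset.sum_add_distrib]
      congr 1
      refine Finset.sum_congr rfl fun i _ => ?_
      rw [← Finset.sum_add_distrib]
      refine Finset.sum_congr rfl fun j _ => ?_
      rw [Pi.add_apply]
      ring))
    (by
      intro a a'
      apply AddMonoidHom.ext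
      intro b
      rw [AddMonoidHom.add_apply, AddMonoidHom.mk'_apply, AddMonoidHom.mk'_apply,
        AddMonoidHom.mk'_apply]
      rw [← add_div, ← Finset.sum_add_distrib]
      congr 1
      refine Finset.sum_congr rfl fun i _ => ?_
      rw [← Finset.sum_add_distrib]
      refine Finset.sum_congr rfl fun j _ => ?_
      rw [Pi.add_apply]
      ring)

lemma bq_apply (M : ι → ι → ℤ) (q : ℕ) (a b : ι → ℚ) :
    bq M q a b = (∑ i, ∑ j, a i * b j * (M i j : ℚ)) / q := rfl

/-- the rational vector of an integral one -/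
def cv : (ι → ℤ) →+ (ι → ℚ) :=
  AddMonoidHom.mk' (fun a i => (a i : ℚ)) (by
    intro a b
    ext i
    simp)

omit [Fintype ι] in
@[simp] lemma cv_apply (a : ι → ℤ) (i : ι) : cv a i = (a i : ℚ) := rfl

lemma bq_cv (M : ι → ι → ℤ) (q : ℕ) (a b : ι → ℤ) :
    bq M q (cv a) (cv b) = ((fm M a b : ℤ) : ℚ) / q := by
  rw [bq_apply]
  unfold fm
  push_cast
  rfl

lemma bq_cv_left (M : ι → ι → ℤ) (hsym : ∀ i j, M i j = M j i) (q : ℕ) (a : ι → ℤ)
    (b : ι → ℚ) : bq M q (cv a) b = (∑ i, b i * ((∑ k, M i k * a k : ℤ) : ℚ)) / q := by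
  rw [bq_apply, Finset.sum_comm]
  congr 1
  refine Finset.sum_congr rfl fun i _ => ?_
  push_cast
  rw [Finset.mul_sum]
  refine Finset.sum_congr rfl fun k _ => ?_
  rw [hsym i k, cv_apply]
  ring

lemma bq_symm (M : ι → ι → ℤ) (hsym : ∀ i j, M i j = M j i) (q : ℕ) (a b : ι → ℚ) :
    bq M q a b = bq M q b a := by
  rw [bq_apply, bq_apply, Finset.sum_comm]
  congr 1
  refine Finset.sum_congr rfl fun i _ => Finset.sum_congr rfl fun j _ => ?_
  rw [hsym i j]
  ring

end rat

section main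

variable {ι Q : Type*} [Fintype ι] [DecidableEq ι] [Fintype Q] {M : ι → ι → ℤ}
  {f : Q → ι → ℤ} {c κ l : ℤ}

/-- the lattice of integral vectors has level `q` -/
lemma good_int {p s : ℕ} (hp : p.Prime) (hs : 1 ≤ s)
    (hmin : ∀ i j k t, ((p ^ s : ℕ) : ℤ) ∣ M i j * M k t - M i t * M k j) {z : ι → ℤ}
    (hz : ¬ (p : ℤ) ∣ fm M z z) :
    Good (bq M (p ^ s)) (p ^ s) (cv (ι := ι)).range := by
  intro t x y hx hy
  choose x' hx' using hx
  choose y' hy' using hy
  have hqQ : (((p ^ s : ℕ) : ℕ) : ℚ) ≠ 0 := by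
    exact_mod_cast pow_ne_zero s hp.ne_zero
  have hcop : IsCoprime (fm M z z) (((p ^ s : ℕ) : ℤ)) := by
    push_cast
    apply IsCoprime.pow_right
    exact ((Nat.prime_iff_prime_int.mp hp).irreducible.coprime_iff_not_dvd.mpr hz).symm
  obtain ⟨w, w', hw⟩ := hcop
  have hE : ∀ i j, (((p ^ s : ℕ) : ℤ)) ∣ fm M (x' i) (y' j) -
      (w * fm M (x' i) z) * fm M z (y' j) := by
    intro i j
    have h1 := minor_ext hmin (x' i) z (y' j) z
    obtain ⟨a, ha⟩ := h1
    refine ⟨w * a + w' * fm M (x' i) (y' j), ?_⟩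
    have h2 : fm M (x' i) (y' j) = (w * fm M z z + w' * ((p ^ s : ℕ) : ℤ)) *
        fm M (x' i) (y' j) := by rw [hw, one_mul]
    linear_combination h2 + w * ha
  choose E hE using hE
  obtain ⟨a, ha⟩ := det_rank_one (((p ^ s : ℕ) : ℤ)) (fun i => w * fm M (x' i) z)
    (fun j => fm M z (y' j)) (Matrix.of E)
  have h1 : (Matrix.of fun i j => bq M (p ^ s) (x i) (y j)) =
      (((p ^ s : ℕ) : ℚ))⁻¹ • ((Matrix.of fun i j => (w * fm M (x' i) z) * fm M z (y' j) +
        ((p ^ s : ℕ) : ℤ) * (Matrix.of E) i j).map (Int.cast : ℤ → ℚ)) := by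
    ext i j
    rw [Matrix.smul_apply, Matrix.map_apply, Matrix.of_apply, Matrix.of_apply, Matrix.of_apply,
      ← hE, ← hx' i, ← hy' j, bq_cv, smul_eq_mul, add_sub_cancel, div_eq_inv_mul]
  rw [h1, Matrix.det_smul, Fintype.card_fin]
  have h2 : ((Matrix.of fun i j => (w * fm M (x' i) z) * fm M z (y' j) +
        ((p ^ s : ℕ) : ℤ) * (Matrix.of E) i j).map (Int.cast : ℤ → ℚ)).det =
      ((Matrix.of fun i j => (w * fm M (x' i) z) * fm M z (y' j) +
        ((p ^ s : ℕ) : ℤ) * (Matrix.of E) i j).det : ℚ) := by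
    have := (Int.castRingHom ℚ).map_det (Matrix.of fun i j =>
      (w * fm M (x' i) z) * fm M z (y' j) + ((p ^ s : ℕ) : ℤ) * (Matrix.of E) i j)
    simpa [RingHom.mapMatrix_apply] using this.symm
  rw [h2]
  refine ⟨a, ?_⟩
  generalize (Matrix.of fun i j => (w * fm M (x' i) z) * fm M z (y' j) +
        ((p ^ s : ℕ) : ℤ) * (Matrix.of E) i j).det = Δ at ha
  have h3 := congrArg (Int.cast : ℤ → ℚ) ha
  rw [Int.cast_mul, Int.cast_mul, Int.cast_pow, Int.cast_natCast] at h3
  rw [eq_intCast, mul_left_comm, h3, inv_pow, ← mul_assoc,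
    inv_mul_cancel₀ (pow_ne_zero _ hqQ), one_mul]

end main

end Pool.Agent.Zk65.SE
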