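import Mathlib
import Pool.Agent.Zk65.SE3

/-!
The counting theorem for integral matrices whose minors of order two are divisible by a power of
`p`: the main theorem.
-/

set_option autoImplicit false
set_option linter.unusedSectionVars false

open scoped BigOperators

namespace Pool.Agent.Zk65.SE

open Pool.Agent.N20 Pool.Agent.Zk65.TB

variable {ι Q : Type*} [Fintype ι] [DecidableEq ι] [Fintype Q] {M : ι → ι → ℤ}
  {f : Q → ι → ℤ} {c κ l : ℤ}

/-- frames over the rationals -/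
lemma frame_rat (h : FrD M f c κ l) (q : ℕ) (a b : ι → ℚ) :
    ∑ r, bq M q (cv (f r)) a * bq M q (cv (f r)) b = (κ : ℚ) / q * bq M q a b := by
  have h1 : ∀ r, bq M q (cv (f r)) a * bq M q (cv (f r)) b =
      (∑ i, ∑ j, a i * b j * (((∑ k, M i k * f r k) * (∑ k, M j k * f r k) : ℤ) : ℚ)) /
        (q : ℚ) / q := by
    intro r
    rw [bq_cv_left M h.sym, bq_cv_left M h.sym, div_mul_div_comm, div_div, Finset.sum_mul_sum]
    congr 1
    refine Finset.sum_congr rfl fun i _ => Finset.sum_congr rfl fun j _ => ?_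
    push_cast
    ring
  rw [Finset.sum_congr rfl (fun r _ => h1 r), ← Finset.sum_div, ← Finset.sum_div,
    Finset.sum_comm]
  have h2 : ∑ i, ∑ r, ∑ j, a i * b j *
      (((∑ k, M i k * f r k) * (∑ k, M j k * f r k) : ℤ) : ℚ) =
      κ * ∑ i, ∑ j, a i * b j * (M i j : ℚ) := by
    rw [Finset.mul_sum]
    refine Finset.sum_congr rfl fun i _ => ?_
    rw [Finset.sum_comm, Finset.mul_sum]
    refine Finset.sum_congr rfl fun j _ => ?_
    rw [← Finset.mul_sum, ← Int.cast_sum, h.fr]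
    push_cast
    ring
  rw [h2, bq_apply]
  ring

lemma trace_rat (h : FrD M f c κ l) (q : ℕ) :
    ∑ r, bq M q (cv (f r)) (cv (f r)) = (κ : ℚ) / q * l := by
  have h1 : ∀ r, bq M q (cv (f r)) (cv (f r)) = ((fm M (f r) (f r) : ℤ) : ℚ) / q := fun r =>
    bq_cv M q _ _
  rw [Finset.sum_congr rfl (fun r _ => h1 r), ← Finset.sum_div, ← Int.cast_sum, h.trace]
  push_cast
  ring

/-- the standard frame -/
lemma std_frame (h : FrD M f c κ l) (q : ℤ) :
    FrD M (fun r k => q * (if k = r then 1 else 0)) c (q ^ 2 * c) l := by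
  refine ⟨h.sym, h.sq, h.tr, ?_, h.qpos, by have := h.qpos; positivity, h.lpos⟩
  intro i j
  have h1 : ∀ r i, ∑ k, M i k * (q * (if k = r then 1 else 0)) = q * M i r := by
    intro r i
    rw [Finset.sum_eq_single r]
    · rw [if_pos rfl]
      ring
    · intro k _ hk
      rw [if_neg hk]
      ring
    · intro hr
      exact absurd (Finset.mem_univ _) hr
  simp only [h1]
  have h2 : ∀ r, q * M i r * (q * M j r) = q ^ 2 * (M i r * M r j) := by
    intro r
    rw [h.sym j r]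
    ring
  rw [Finset.sum_congr rfl (fun r _ => h2 r), ← Finset.mul_sum, h.sq]
  ring

section lev

variable {q cN lN : ℕ}

/-- the level data on a lattice -/
lemma lev_res (hq : 0 < q) (h : FrD M f (cN : ℤ) κ (lN : ℤ)) {X : AddSubgroup (ι → ℚ)}
    (hX : Good (bq M q) q X) (hle : (cv (ι := ι)).range ≤ X) :
    Lev (res (bq M q) X)
      (fun r : ι => (⟨cv (fun k => (q : ℤ) * (if k = r then 1 else 0)), hle ⟨_, rfl⟩⟩ : X))
      (q * cN) q lN := by
  have hqQ : (q : ℚ) ≠ 0 := by positivity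
  have h1 := std_frame h (q : ℤ)
  refine ⟨fun a b => bq_symm M h.sym q a b, ?_, ?_, ?_⟩
  · intro a b
    have h2 := frame_rat h1 q a b
    simp only [res_apply]
    rw [h2]
    push_cast
    field_simp
  · have h2 := trace_rat h1 q
    simp only [res_apply]
    rw [h2]
    push_cast
    field_simp
  · intro t x y
    exact hX t (fun i => x i) (fun j => y j) (fun i => (x i).2) (fun j => (y j).2)

lemma fr_res (h : FrD M f c κ (lN : ℤ)) {X : AddSubgroup (ι → ℚ)}
    (hle : (cv (ι := ι)).range ≤ X) :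
    Fr (res (bq M q) X) (fun r : Q => (⟨cv (f r), hle ⟨_, rfl⟩⟩ : X)) ((κ : ℚ) / q) lN := by
  refine ⟨fun a b => frame_rat h q a b, ?_⟩
  have h2 := trace_rat h q
  simp only [res_apply]
  rw [h2]
  push_cast
  rfl

end lev

/-- primitivity of a minimal vector -/
lemma prim_min {p s d lN : ℕ} (hp : p.Prime)
    (h : FrD M f ((p ^ d : ℕ) : ℤ) κ (lN : ℤ)) {X : AddSubgroup (ι → ℚ)}
    (hX : Good (bq M (p ^ s)) (p ^ s) X) (hle : (cv (ι := ι)).range ≤ X) {z : ι → ℤ} {n : ℕ}
    (hn : fm M z z = n) (hz : ¬ (p : ℤ) ∣ fm M z z)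
    (hmin : ∀ y : ι → ℤ, ¬ (p : ℤ) ∣ fm M y y → (n : ℤ) ≤ fm M y y) :
    Prim (res (bq M (p ^ s)) X) (⟨cv z, hle ⟨_, rfl⟩⟩ : X) := by
  have hq : 0 < p ^ s := pow_pos hp.pos s
  have hqQ : (((p ^ s : ℕ) : ℕ) : ℚ) ≠ 0 := by positivity
  have L := lev_res hq h hX hle
  intro y β hβ
  by_contra hcon
  have hd1 : β.den ≠ 1 := by
    intro h1
    apply hcon
    refine ⟨β.num, ?_⟩
    simp only [eq_intCast]
    have := Rat.num_div_den β
    rw [h1, Nat.cast_one, div_one] at this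
    exact this
  obtain ⟨r, hr, hrd⟩ := Nat.exists_prime_and_dvd hd1
  obtain ⟨d', hd'⟩ := hrd
  have hco : IsCoprime β.num (β.den : ℤ) := by
    rw [Int.isCoprime_iff_gcd_eq_one]
    exact β.reduced
  obtain ⟨u, v, huv⟩ := hco
  set Z : X := ⟨cv z, hle ⟨_, rfl⟩⟩ with hZ
  set F := res (bq M (p ^ s)) X with hF
  have hz1 : ∀ (k : ℤ) (v w : X), F (k • v) w = k * F v w := by
    intro k v w
    rw [map_zsmul, AddMonoidHom.zsmul_apply, _root_.zsmul_eq_mul]
  set y₁ : X := (d' : ℤ) • (u • y + v • Z) with hy₁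
  have h1 : ∀ b, (r : ℚ) * F y₁ b = F Z b := by
    intro b
    have h2 : F y₁ b = d' * (u * F y b + v * F Z b) := by
      rw [hy₁, hz1, map_add, AddMonoidHom.add_apply, hz1, hz1]
      push_cast
      ring
    have h3 : β * β.den = β.num := Rat.mul_den_eq_num β
    have h4 : (u : ℚ) * β.num + v * β.den = 1 := by exact_mod_cast huv
    have h5 : (β.den : ℚ) = r * d' := by exact_mod_cast hd'
    rw [h2, hβ]
    calc (r : ℚ) * (d' * (u * (β * F Z b) + v * F Z b))
        = (u * (β * (r * d')) + v * (r * d')) * F Z b := by ring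
      _ = F Z b := by rw [← h5, h3, h4, one_mul]
  have hZZ : ((p ^ s : ℕ) : ℚ) * F Z Z = n := by
    rw [hF, res_apply, hZ]
    change ((p ^ s : ℕ) : ℚ) * bq M (p ^ s) (cv z) (cv z) = n
    rw [bq_cv, hn]
    field_simp
    push_cast
    rfl
  obtain ⟨k, hk⟩ := L.int1 y₁ y₁
  simp only [eq_intCast] at hk
  have h2 : (n : ℤ) = (r : ℤ) ^ 2 * k := by
    have h3 : (n : ℚ) = (r : ℚ) ^ 2 * k := by
      rw [hk, ← hZZ, ← h1 Z, L.sym y₁ Z, ← h1 y₁]
      ring
    exact_mod_cast h3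
  by_cases hrp : r = p
  · apply hz
    rw [hn, h2, hrp, pow_two, mul_assoc]
    exact dvd_mul_right _ _
  · -- an integral vector
    choose t ht using fun i : ι => L.int1 (⟨cv (fun k => if k = i then 1 else 0),
      hle ⟨_, rfl⟩⟩ : X) y₁
    simp only [eq_intCast] at ht
    set g : ι → ℤ := t with hg
    have h3 : ∀ b : X, F (⟨cv g, hle ⟨_, rfl⟩⟩ : X) b = ((p ^ d : ℕ) : ℚ) * F y₁ b := by
      intro b
      have hfr := frame_rat (std_frame h 1) (p ^ s) (y₁ : ι → ℚ) (b : ι → ℚ)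
      have e1 : ∀ i : ι, bq M (p ^ s) (cv (fun k => (1 : ℤ) * (if k = i then 1 else 0)))
          (y₁ : ι → ℚ) = (t i : ℚ) / ((p ^ s : ℕ) : ℚ) := by
        intro i
        rw [ht i]
        have : (fun k => (1 : ℤ) * (if k = i then 1 else 0)) = (fun k => if k = i then 1 else 0) := by
          funext k
          ring
        rw [this, res_apply]
        field_simp
      have e2 : (cv g : ι → ℚ) = ∑ i, t i • cv (fun k => (1 : ℤ) * (if k = i then 1 else 0)) := by
        ext k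
        rw [Finset.sum_apply, Finset.sum_eq_single k]
        · simp [hg]
        · intro i _ hi
          simp [Ne.symm hi]
        · intro hk
          exact absurd (Finset.mem_univ _) hk
      have e3 : bq M (p ^ s) (cv g) (b : ι → ℚ) =
          ∑ i, (t i : ℚ) * bq M (p ^ s) (cv (fun k => (1 : ℤ) * (if k = i then 1 else 0)))
            (b : ι → ℚ) := by
        rw [e2, map_sum, AddMonoidHom.finsetSum_apply]
        refine Finset.sum_congr rfl fun i _ => ?_
        rw [map_zsmul, AddMonoidHom.zsmul_apply, _root_.zsmul_eq_mul]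
      rw [hF, res_apply, res_apply]
      change bq M (p ^ s) (cv g) (b : ι → ℚ) = _
      rw [e3]
      simp only [e1] at hfr
      have e4 : ∑ i, (t i : ℚ) * bq M (p ^ s) (cv (fun k => (1 : ℤ) * (if k = i then 1 else 0)))
            (b : ι → ℚ) = ((p ^ s : ℕ) : ℚ) * ∑ i, (t i : ℚ) / ((p ^ s : ℕ) : ℚ) *
              bq M (p ^ s) (cv (fun k => (1 : ℤ) * (if k = i then 1 else 0))) (b : ι → ℚ) := by
        rw [Finset.mul_sum]
        refine Finset.sum_congr rfl fun i _ => ?_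
        field_simp
      have e5 : (((1 : ℤ) ^ 2 * ((p ^ d : ℕ) : ℤ) : ℤ) : ℚ) = ((p ^ d : ℕ) : ℚ) := by
        push_cast
        ring
      rw [e4, hfr, e5, ← mul_assoc, mul_div_cancel₀ _ hqQ]
    have hcop : IsCoprime ((p ^ d : ℕ) : ℤ) (r : ℤ) := by
      rw [Nat.isCoprime_iff_coprime]
      exact Nat.Coprime.pow_left d ((Nat.coprime_primes hp hr).mpr (Ne.symm hrp))
    obtain ⟨α, α', hα⟩ := hcop
    set a₁ : ι → ℤ := α • g + α' • z with ha₁
    have h4 : ∀ b : X, F (⟨cv a₁, hle ⟨_, rfl⟩⟩ : X) b = F y₁ b := by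
      intro b
      have e1 : (⟨cv a₁, hle ⟨_, rfl⟩⟩ : X) = α • (⟨cv g, hle ⟨_, rfl⟩⟩ : X) + α' • Z := by
        apply Subtype.ext
        show cv (α • g + α' • z) = α • cv g + α' • cv z
        rw [map_add, map_zsmul, map_zsmul]
      rw [e1, map_add, AddMonoidHom.add_apply, hz1, hz1, h3, ← h1 b]
      have e2 : (α : ℚ) * ((p ^ d : ℕ) : ℚ) + α' * r = 1 := by exact_mod_cast hα
      linear_combination (F y₁ b) * e2
    have h5 : fm M z z = (r : ℤ) ^ 2 * fm M a₁ a₁ := by
      have e1 : ∀ w : ι → ℤ, ((fm M z w : ℤ) : ℚ) = r * ((fm M a₁ w : ℤ) : ℚ) := by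
        intro w
        have e2 := h1 (⟨cv w, hle ⟨_, rfl⟩⟩ : X)
        rw [← h4, hF, res_apply, res_apply] at e2
        change (r : ℚ) * bq M (p ^ s) (cv a₁) (cv w) = bq M (p ^ s) (cv z) (cv w) at e2
        rw [bq_cv, bq_cv] at e2
        have e3 : (r : ℚ) * ((fm M a₁ w : ℤ) : ℚ) / ((p ^ s : ℕ) : ℚ) =
            ((fm M z w : ℤ) : ℚ) / ((p ^ s : ℕ) : ℚ) := by
          rw [← e2]
          ring
        exact ((div_left_inj' hqQ).mp e3).symm
      have e2 := e1 z
      have e3 := e1 a₁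
      rw [fm_symm h.sym z a₁] at e3
      rw [e3] at e2
      have : ((fm M z z : ℤ) : ℚ) = (((r : ℤ) ^ 2 * fm M a₁ a₁ : ℤ) : ℚ) := by
        rw [e2]
        push_cast
        ring
      exact_mod_cast this
    have h6 : ¬ (p : ℤ) ∣ fm M a₁ a₁ := fun h7 => hz (by
      rw [h5]
      exact Dvd.dvd.mul_left h7 _)
    have h7 := hmin a₁ h6
    have h8 : 0 ≤ fm M a₁ a₁ := h.nonneg a₁
    have h9 : 0 < fm M a₁ a₁ := lt_of_le_of_ne h8 (fun h0 => h6 (by rw [← h0]; exact dvd_zero _))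
    have h10 : (2 : ℤ) ≤ r := by exact_mod_cast hr.two_le
    rw [hn] at h5
    have h11 : (4 : ℤ) ≤ (r : ℤ) ^ 2 := by nlinarith
    have h12 := mul_le_mul_of_nonneg_right h11 h8
    linarith

end Pool.Agent.Zk65.SE
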