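import Mathlib
import Pool.Agent.Zk65.SE4

/-!
The counting theorem for integral matrices whose minors of order two are divisible by a power of
`p`: the bounds.
-/

set_option autoImplicit false
set_option linter.unusedSectionVars false

open scoped BigOperators

namespace Pool.Agent.Zk65.SE

open Pool.Agent.N20 Pool.Agent.Zk65.TB

variable {ι Q : Type*} [Fintype ι] [DecidableEq ι] [Fintype Q] {M : ι → ι → ℤ}
  {f : Q → ι → ℤ} {κ : ℤ}

open Classical in
/-- **The counting theorem.** -/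
theorem lat_q {p s d lN : ℕ} (hp : p.Prime) (hs : 1 ≤ s) (hκ : 0 < κ)
    (h : FrD M f ((p ^ d : ℕ) : ℤ) κ (lN : ℤ))
    (hmin : ∀ i j k t, ((p ^ s : ℕ) : ℤ) ∣ M i j * M k t - M i t * M k j)
    (hex : ∃ z : ι → ℤ, ¬ (p : ℤ) ∣ fm M z z) {N N' : ℤ}
    (hN : ∀ z : ι → ℤ, ¬ (p : ℤ) ∣ fm M z z → N ≤ cnt M f z)
    (hN' : ∀ z : ι → ℤ, ¬ (p : ℤ) ∣ fm M z z →
      N' ≤ ((Finset.univ.filter (fun r => ¬ (p : ℤ) ∣ fm M (f r) z)).card : ℤ)) :
    (p : ℤ) ^ min s 2 * N + ((p : ℤ) ^ s + 1 - (p : ℤ) ^ min s 2) * N' ≤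
        κ * max ((p : ℤ) ^ s + 1) lN ∧
      (p : ℤ) ^ min s 2 * N ≤ κ * max ((p : ℤ) ^ min s 2) lN := by
  have hq : 0 < p ^ s := pow_pos hp.pos s
  have hp1 : (1 : ℤ) ≤ p := by exact_mod_cast hp.one_lt.le
  -- the minimal vector
  have hexn : ∃ n : ℕ, ∃ z : ι → ℤ, ¬ (p : ℤ) ∣ fm M z z ∧ fm M z z = n := by
    obtain ⟨z, hz⟩ := hex
    exact ⟨(fm M z z).toNat, z, hz, (Int.toNat_of_nonneg (h.nonneg z)).symm⟩
  set n := Nat.find hexn with hndef
  obtain ⟨z, hz, hzn⟩ := Nat.find_spec hexn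
  rw [← hndef] at hzn
  have hleast : ∀ y : ι → ℤ, ¬ (p : ℤ) ∣ fm M y y → (n : ℤ) ≤ fm M y y := by
    intro y hy
    have h1 : n ≤ (fm M y y).toNat :=
      Nat.find_min' hexn ⟨y, hy, (Int.toNat_of_nonneg (h.nonneg y)).symm⟩
    have h2 := Int.toNat_of_nonneg (h.nonneg y)
    omega
  have hn0 : 0 < n := by
    rcases Nat.eq_zero_or_pos n with h0 | h0
    · exfalso
      apply hz
      rw [hzn, h0]
      exact dvd_zero _
    · exact h0
  have hNz := hN z hz
  have hN'z := hN' z hz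
  have hqs : (p : ℤ) ^ min s 2 ≤ (p : ℤ) ^ s := pow_le_pow_right₀ hp1 (min_le_left _ _)
  have hq1pos : (0 : ℤ) < (p : ℤ) ^ min s 2 := by positivity
  have hcnt' : N' ≤ cnt M f z := by
    refine hN'z.trans ?_
    unfold cnt
    have : (Finset.univ.filter (fun r => ¬ (p : ℤ) ∣ fm M (f r) z)).card ≤
        (Finset.univ.filter (fun r => fm M (f r) z ≠ 0)).card := by
      apply Finset.card_le_card
      intro r hr
      rw [Finset.mem_filter] at hr ⊢
      refine ⟨hr.1, fun h0 => hr.2 ?_⟩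
      rw [h0]
      exact dvd_zero _
    exact_mod_cast this
  have hcnt0 : 0 ≤ cnt M f z := by
    unfold cnt
    positivity
  by_cases hlt : n < p ^ s
  · -- the chain
    obtain ⟨X, hle, hX, hmax⟩ := exists_maximal (bq M (p ^ s)) (p ^ s)
      (good_int hp hs hmin hz)
    have L := lev_res hq h hX hle
    have hM := mx_of_maximal (bq M (p ^ s)) (p ^ s) (bq_symm M h.sym (p ^ s)) hX hmax
    have hprim := prim_min hp h hX hle hzn hz hleast
    have hqQ : ((p ^ s : ℕ) : ℚ) ≠ 0 := by positivity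
    have hZZ : (n : ℚ) = ((p ^ s : ℕ) : ℚ) * res (bq M (p ^ s)) X
        (⟨cv z, hle ⟨_, rfl⟩⟩ : X) (⟨cv z, hle ⟨_, rfl⟩⟩ : X) := by
      rw [res_apply]
      change (n : ℚ) = ((p ^ s : ℕ) : ℚ) * bq M (p ^ s) (cv z) (cv z)
      rw [bq_cv, hzn]
      field_simp
      push_cast
      rfl
    have hne : res (bq M (p ^ s)) X (⟨cv z, hle ⟨_, rfl⟩⟩ : X) (⟨cv z, hle ⟨_, rfl⟩⟩ : X) ≠ 0 := by
      intro h0
      rw [h0, mul_zero] at hZZ
      have : n = 0 := by exact_mod_cast hZZ
      omega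
    have hκQ : (0 : ℚ) < (κ : ℚ) / ((p ^ s : ℕ) : ℚ) := by
      have : (0 : ℚ) < κ := by exact_mod_cast hκ
      positivity
    have h1 := top' (Nat.mul_pos hq (pow_pos hp.pos d)) hκQ L hM (fr_res h hle) hne hZZ hn0 hlt
      hprim
    have h2 : (Finset.univ.filter (fun r : Q => res (bq M (p ^ s)) X
        (⟨cv (f r), hle ⟨_, rfl⟩⟩ : X) (⟨cv z, hle ⟨_, rfl⟩⟩ : X) ≠ 0)).card =
        (Finset.univ.filter (fun r => fm M (f r) z ≠ 0)).card := by
      congr 1
      apply Finset.filter_congr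
      intro r _
      rw [res_apply]
      change bq M (p ^ s) (cv (f r)) (cv z) ≠ 0 ↔ _
      rw [bq_cv]
      constructor
      · intro h3 h4
        apply h3
        rw [h4]
        simp
      · intro h3
        exact div_ne_zero (by exact_mod_cast h3) hqQ
    rw [h2] at h1
    have h3 : ((p : ℤ) ^ s + 1) * cnt M f z ≤ κ * max ((p : ℤ) ^ s + 1) lN := by
      unfold cnt
      have e1 : (0 : ℚ) < ((p ^ s : ℕ) : ℚ) + 1 := by positivity
      have e2 := mul_le_mul_of_nonneg_left h1 e1.le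
      have e3 : (((p ^ s : ℕ) : ℚ) + 1) * ((κ : ℚ) / ((p ^ s : ℕ) : ℚ) *
          (((p ^ s : ℕ) : ℚ) / (((p ^ s : ℕ) : ℚ) + 1) * max (((p ^ s : ℕ) : ℚ) + 1) lN)) =
          κ * max (((p ^ s : ℕ) : ℚ) + 1) lN := by
        field_simp
      rw [e3] at e2
      have e4 : (((p ^ s : ℕ) : ℤ) + 1) *
          ((Finset.univ.filter (fun r => fm M (f r) z ≠ 0)).card : ℤ) ≤
          κ * max (((p ^ s : ℕ) : ℤ) + 1) lN := by exact_mod_cast e2
      push_cast at e4 ⊢
      exact e4
    constructor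
    · calc (p : ℤ) ^ min s 2 * N + ((p : ℤ) ^ s + 1 - (p : ℤ) ^ min s 2) * N'
          ≤ (p : ℤ) ^ min s 2 * cnt M f z +
            ((p : ℤ) ^ s + 1 - (p : ℤ) ^ min s 2) * cnt M f z :=
            add_le_add (mul_le_mul_of_nonneg_left hNz hq1pos.le)
              (mul_le_mul_of_nonneg_left hcnt' (by linarith))
        _ = ((p : ℤ) ^ s + 1) * cnt M f z := by ring
        _ ≤ _ := h3
    · -- the second bound
      set q1 : ℤ := (p : ℤ) ^ min s 2 with hq1
      set q0 : ℤ := (p : ℤ) ^ s + 1 with hq0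
      have h4 : q1 ≤ q0 := by linarith
      have h5 : 0 < q0 := by linarith
      have h6 : q0 * (q1 * N) ≤ q0 * (κ * max q1 lN) := by
        calc q0 * (q1 * N) ≤ q0 * (q1 * cnt M f z) :=
              mul_le_mul_of_nonneg_left (mul_le_mul_of_nonneg_left hNz hq1pos.le) h5.le
          _ = q1 * (q0 * cnt M f z) := by ring
          _ ≤ q1 * (κ * max q0 lN) := mul_le_mul_of_nonneg_left h3 hq1pos.le
          _ = κ * (q1 * max q0 lN) := by ring
          _ ≤ κ * (q0 * max q1 lN) := by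
              apply mul_le_mul_of_nonneg_left _ hκ.le
              rcases le_total (lN : ℤ) q0 with h7 | h7
              · rw [max_eq_left h7, mul_comm]
                exact mul_le_mul_of_nonneg_left (le_max_left _ _) h5.le
              · rw [max_eq_right h7]
                calc q1 * (lN : ℤ) ≤ q0 * lN := mul_le_mul_of_nonneg_right h4 (by positivity)
                  _ ≤ q0 * max q1 lN := mul_le_mul_of_nonneg_left (le_max_right _ _) h5.le
          _ = q0 * (κ * max q1 lN) := by ring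
      exact le_of_mul_le_mul_left h6 h5
  · -- all norms are large
    push Not at hlt
    have hne : n ≠ p ^ s := by
      intro h0
      apply hz
      rw [hzn, h0]
      push_cast
      exact dvd_pow_self _ (by omega)
    have hlt' : p ^ s + 1 ≤ n := by omega
    have hltZ : (p : ℤ) ^ s + 1 ≤ n := by exact_mod_cast hlt'
    have hdvdq : ∀ y : ι → ℤ, ((p : ℤ) ^ s) ∣ fm M z z * fm M y y - fm M y z * fm M y z := by
      intro y
      have h1 := minor_ext hmin z y z y
      rw [fm_symm h.sym z y] at h1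
      push_cast at h1
      exact h1
    have hunit : ∀ y : ι → ℤ, ¬ (p : ℤ) ∣ fm M y z → ¬ (p : ℤ) ∣ fm M y y := by
      intro y hy hyy
      have h1 : (p : ℤ) ∣ fm M z z * fm M y y - fm M y z * fm M y z :=
        (dvd_pow_self _ (by omega)).trans (hdvdq y)
      have h2 : (p : ℤ) ∣ fm M y z * fm M y z := by
        have h3 := dvd_sub (Dvd.dvd.mul_left hyy (fm M z z)) h1
        have h4 : fm M z z * fm M y y - (fm M z z * fm M y y - fm M y z * fm M y z) =
            fm M y z * fm M y z := by ring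
        rwa [h4] at h3
      rcases (Nat.prime_iff_prime_int.mp hp).dvd_or_dvd h2 with h3 | h3 <;> exact hy h3
    have hnon : ∀ y : ι → ℤ, (p : ℤ) ∣ fm M y z → ((p : ℤ) ^ min s 2) ∣ fm M y y := by
      intro y hy
      have h1 : ((p : ℤ) ^ min s 2) ∣ fm M z z * fm M y y - fm M y z * fm M y z :=
        (pow_dvd_pow _ (min_le_left _ _)).trans (hdvdq y)
      have h2 : ((p : ℤ) ^ min s 2) ∣ fm M y z * fm M y z := by
        refine (pow_dvd_pow _ (min_le_right _ _)).trans ?_
        rw [pow_two]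
        exact mul_dvd_mul hy hy
      have h3 : ((p : ℤ) ^ min s 2) ∣ fm M z z * fm M y y := by
        have h4 := dvd_add h1 h2
        rwa [sub_add_cancel] at h4
      have hcop : IsCoprime ((p : ℤ) ^ min s 2) (fm M z z) := by
        apply IsCoprime.pow_left
        exact (Nat.prime_iff_prime_int.mp hp).irreducible.coprime_iff_not_dvd.mpr hz
      exact hcop.dvd_of_dvd_mul_left h3
    have hge : ∀ y : ι → ℤ, fm M y z ≠ 0 → (p : ℤ) ∣ fm M y z →
        (p : ℤ) ^ min s 2 ≤ fm M y y := by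
      intro y hy hyz
      exact Int.le_of_dvd (h.cs y z hy) (hnon y hyz)
    have hsum : (p : ℤ) ^ min s 2 * cnt M f z + ((p : ℤ) ^ s + 1 - (p : ℤ) ^ min s 2) *
        ((Finset.univ.filter (fun r => ¬ (p : ℤ) ∣ fm M (f r) z)).card : ℤ) ≤ κ * lN := by
      rw [← h.trace]
      have e4 : ((Finset.univ.filter (fun r => ¬ (p : ℤ) ∣ fm M (f r) z)).card : ℤ) =
          ∑ r, (if ¬ (p : ℤ) ∣ fm M (f r) z then 1 else 0) := by
        rw [Finset.sum_boole]
      have e5 : cnt M f z = ∑ r, (if fm M (f r) z ≠ 0 then 1 else 0) := by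
        unfold cnt
        rw [Finset.sum_boole]
      rw [e4, e5, Finset.mul_sum, Finset.mul_sum, ← Finset.sum_add_distrib]
      refine Finset.sum_le_sum fun r _ => ?_
      by_cases h6 : (p : ℤ) ∣ fm M (f r) z
      · rw [if_neg (not_not.mpr h6), mul_zero, add_zero]
        by_cases h7 : fm M (f r) z = 0
        · rw [if_neg (not_not.mpr h7), mul_zero]
          exact h.nonneg (f r)
        · rw [if_pos h7, mul_one]
          exact hge (f r) h7 h6
      · have h7 : fm M (f r) z ≠ 0 := by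
          intro h0
          rw [h0] at h6
          exact h6 (dvd_zero _)
        rw [if_pos h6, if_pos h7, mul_one, mul_one]
        have h8 := hleast (f r) (hunit (f r) h6)
        linarith
    have e4 : κ * lN ≤ κ * max ((p : ℤ) ^ s + 1) lN :=
      mul_le_mul_of_nonneg_left (le_max_right _ _) hκ.le
    have e5 : κ * lN ≤ κ * max ((p : ℤ) ^ min s 2) lN :=
      mul_le_mul_of_nonneg_left (le_max_right _ _) hκ.le
    have e6 : (0 : ℤ) ≤ ((Finset.univ.filter
        (fun r => ¬ (p : ℤ) ∣ fm M (f r) z)).card : ℤ) := by positivity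
    have e7 : (0 : ℤ) ≤ (p : ℤ) ^ s + 1 - (p : ℤ) ^ min s 2 := by linarith
    constructor
    · calc (p : ℤ) ^ min s 2 * N + ((p : ℤ) ^ s + 1 - (p : ℤ) ^ min s 2) * N'
          ≤ (p : ℤ) ^ min s 2 * cnt M f z + ((p : ℤ) ^ s + 1 - (p : ℤ) ^ min s 2) *
            ((Finset.univ.filter (fun r => ¬ (p : ℤ) ∣ fm M (f r) z)).card : ℤ) :=
            add_le_add (mul_le_mul_of_nonneg_left hNz hq1pos.le)
              (mul_le_mul_of_nonneg_left hN'z e7)
        _ ≤ κ * lN := hsum
        _ ≤ _ := e4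
    · have e8 := mul_nonneg e7 e6
      have e9 := mul_le_mul_of_nonneg_left hNz hq1pos.le
      linarith

end Pool.Agent.Zk65.SE
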