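import Mathlib
import Pool.Agent.Zk65.SE5

/-!
Chains of projections for a part of a frame.
-/

set_option autoImplicit false
set_option linter.unusedSectionVars false

open scoped BigOperators

namespace Pool.Agent.Zk65.SE

open Pool.Agent.N20

variable {A : Type*} [AddCommGroup A] {ι : Type*} [Fintype ι] {Q : Type*} [Fintype Q]

/-- the frame inequality is preserved by projections -/
lemma sub_step {F : A →+ A →+ ℚ} (hsym : ∀ a b, F a b = F b a) {f : Q → A} {κ' : ℚ}
    (hS : ∀ a, ∑ q, F (f q) a ^ 2 ≤ κ' * F a a) {z : A} (hz : F z z ≠ 0) (a : A) :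
    ∑ q, proj F z (f q) a ^ 2 ≤ κ' * proj F z a a := by
  set τ : ℚ := F a z / F z z with hτ
  have hden : (0 : ℚ) < τ.den := by exact_mod_cast τ.den_pos
  set a1 : A := (τ.den : ℤ) • a - τ.num • z with ha1
  have h1 : ∀ x, F x a1 = τ.den * proj F z x a := by
    intro x
    rw [ha1, map_sub, map_zsmul, map_zsmul, proj_apply, zsmul_eq_mul, zsmul_eq_mul,
      ← rat_split τ, hτ, hsym z a]
    push_cast
    ring
  have h0 : proj F z z a = 0 := by
    rw [proj_apply]
    field_simp
    ring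
  have h2 : F a1 a1 = (τ.den : ℚ) ^ 2 * proj F z a a := by
    rw [h1, ha1, map_sub, AddMonoidHom.sub_apply, map_zsmul, map_zsmul, AddMonoidHom.zsmul_apply,
      AddMonoidHom.zsmul_apply, h0, smul_zero, sub_zero, zsmul_eq_mul]
    push_cast
    ring
  have h3 := hS a1
  rw [h2] at h3
  have h4 : ∑ q, F (f q) a1 ^ 2 = (τ.den : ℚ) ^ 2 * ∑ q, proj F z (f q) a ^ 2 := by
    rw [Finset.mul_sum]
    refine Finset.sum_congr rfl fun q _ => ?_
    rw [h1]
    ring
  rw [h4] at h3
  have h5 : (τ.den : ℚ) ^ 2 * ∑ q, proj F z (f q) a ^ 2 ≤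
      (τ.den : ℚ) ^ 2 * (κ' * proj F z a a) := by
    calc _ ≤ _ := h3
      _ = _ := by ring
  exact le_of_mul_le_mul_left h5 (by positivity)

lemma chain_arith {κ' : ℚ} (hκ' : 0 ≤ κ') {m n : ℕ} (hn0 : 0 < n) (hnm : n ≤ m) :
    κ' * ((m : ℚ) / n - 1) + κ' * ((n : ℚ) - 1) ≤ κ' * ((m : ℚ) - 1) := by
  have hnQ : (0 : ℚ) < n := by exact_mod_cast hn0
  have h1 : (1 : ℚ) ≤ n := by exact_mod_cast hn0
  have h2 : (n : ℚ) ≤ m := by exact_mod_cast hnm
  have h3 : (m : ℚ) / n - 1 + ((n : ℚ) - 1) ≤ (m : ℚ) - 1 := by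
    have h4 : (m : ℚ) / n ≤ m - n + 1 := by
      rw [div_le_iff₀ hnQ]
      nlinarith
    linarith
  calc _ = κ' * ((m : ℚ) / n - 1 + ((n : ℚ) - 1)) := by ring
    _ ≤ _ := mul_le_mul_of_nonneg_left h3 hκ'

/-- the sum over a step -/
lemma step_sum {F : A →+ A →+ ℚ} (hsym : ∀ a b, F a b = F b a) {f : Q → A} {κ' : ℚ}
    (hS : ∀ a, ∑ q, F (f q) a ^ 2 ≤ κ' * F a a) {z : A} {m n : ℕ}
    (hn : (n : ℚ) = m * F z z) (hm : 0 < m) (hn0 : 0 < n) (hnm : n ≤ m)
    {Θ : Q → ℚ} {Ψ : Q → ℚ}
    (hstep : ∀ q, Θ q ≤ F (f q) z ^ 2 / F z z ^ 2 + Ψ q) :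
    ∑ q, (Θ q - F (f q) (f q)) ≤ κ' * ((m : ℚ) / n - 1) +
      ∑ q, (Ψ q - proj F z (f q) (f q)) := by
  have hmQ : (0 : ℚ) < m := by exact_mod_cast hm
  have hnQ : (0 : ℚ) < n := by exact_mod_cast hn0
  have hF : F z z = n / m := by
    rw [hn]
    field_simp
  have hpos : 0 < F z z := by
    rw [hF]
    positivity
  have h1 : 0 ≤ 1 - F z z := by
    rw [hF, sub_nonneg, div_le_one hmQ]
    exact_mod_cast hnm
  have h2 : ∀ q, Θ q - F (f q) (f q) ≤ (1 - F z z) * (F (f q) z ^ 2 / F z z ^ 2) +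
      (Ψ q - proj F z (f q) (f q)) := by
    intro q
    have h3 : proj F z (f q) (f q) = F (f q) (f q) - F z z * (F (f q) z ^ 2 / F z z ^ 2) := by
      rw [proj_apply, hsym z (f q)]
      field_simp
    rw [h3]
    have := hstep q
    linarith
  have h4 : ∑ q, (F (f q) z ^ 2 / F z z ^ 2) ≤ κ' * ((m : ℚ) / n) := by
    rw [← Finset.sum_div, div_le_iff₀ (by positivity)]
    calc _ ≤ κ' * F z z := hS z
      _ = κ' * ((m : ℚ) / n) * F z z ^ 2 := by
        rw [hF]
        field_simp
  calc ∑ q, (Θ q - F (f q) (f q)) ≤ ∑ q, ((1 - F z z) * (F (f q) z ^ 2 / F z z ^ 2) +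
        (Ψ q - proj F z (f q) (f q))) := Finset.sum_le_sum fun q _ => h2 q
    _ = (1 - F z z) * ∑ q, (F (f q) z ^ 2 / F z z ^ 2) +
        ∑ q, (Ψ q - proj F z (f q) (f q)) := by
        rw [Finset.sum_add_distrib, ← Finset.mul_sum]
    _ ≤ (1 - F z z) * (κ' * ((m : ℚ) / n)) + ∑ q, (Ψ q - proj F z (f q) (f q)) := by
        have := mul_le_mul_of_nonneg_left h4 h1
        linarith
    _ = _ := by
        rw [hF]
        field_simp

/-- **Chains for a part of a frame.** -/
theorem sub_chain {e : ι → A} {κ : ℕ} (hκ0 : 0 < κ) {f : Q → A} {κ' : ℚ} (hκ' : 0 ≤ κ') :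
    ∀ (m l : ℕ) (F : A →+ A →+ ℚ), 0 < m → Mx F → Lev F e κ m l →
      (∀ a, ∑ q, F (f q) a ^ 2 ≤ κ' * F a a) →
      ∑ q, (W F (f q) - F (f q) (f q)) ≤ κ' * ((m : ℚ) - 1) := by
  intro m
  induction m using Nat.strong_induction_on with
  | _ m ih =>
    intro l F hm hM L hS
    have hF := L.int1
    have hmQ : (0 : ℚ) < m := by exact_mod_cast hm
    by_cases hbad : ∃ y : A, F y y < W F y
    · obtain ⟨y, hy⟩ := hbad
      obtain ⟨z, n, hz, hn, hmin⟩ := L.exists_min hκ0 (fun y => F y y < W F y) hy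
      have hzz0 : F z z ≠ 0 := by
        intro h0
        have h3 : od F z ≤ 1 := by
          apply od_le one_pos
          intro b
          rw [L.zero_of_self hκ0 h0 b, mul_zero]
          exact zero_mem _
        have h4 := od_pos hm hF z
        have h5 : od F z = 1 := by omega
        rw [h0] at hz
        unfold W at hz
        rw [h5] at hz
        norm_num at hz
      have hzzpos : 0 < F z z := lt_of_le_of_ne (L.nonneg hκ0 z) (Ne.symm hzz0)
      have hW1 : W F z < 1 := by
        have h1 := W_le hm hF z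
        have h2 : (0 : ℚ) < 1 / (m : ℚ) ^ 2 := by positivity
        linarith
      have hn0 : 0 < n := by
        have : (0 : ℚ) < n := by
          rw [hn]
          positivity
        exact_mod_cast this
      have hnm : n < m := by
        have : (n : ℚ) < m := by
          rw [hn]
          nlinarith
        exact_mod_cast this
      have hprim : Prim F z := by
        apply prim_of_min hF L.sym (L.nonneg hκ0) (fun y => F y y < W F y)
          hn hzz0 hm _ hmin
        intro y d' hd' hyz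
        have hyz1 : (d' : ℚ) ^ 2 * F y y = F z z := by
          have h6 := hyz y
          have h7 := hyz z
          rw [L.sym z y] at h6
          rw [pow_two, mul_assoc, h6, h7]
        have hd'Q : (2 : ℚ) ≤ d' := by exact_mod_cast hd'
        have h1 : F y y ≤ F z z := by
          have := L.nonneg hκ0 y
          have h4 : (1 : ℚ) ≤ (d' : ℚ) ^ 2 := by nlinarith
          rw [← hyz1]
          exact le_mul_of_one_le_left this h4
        have h2 : od F z ≤ od F y := by
          apply od_le (od_pos hm hF y)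
          intro b
          rw [← hyz b]
          have : (od F y : ℚ) * (d' * F y b) = d' * (od F y * F y b) := by ring
          rw [this]
          exact mul_mem (natCast_ZZ _) (od_mem hm hF y b)
        have h3 : W F z ≤ W F y := frac_le (od_pos hm hF z) h2
        calc F y y ≤ F z z := h1
          _ < W F z := hz
          _ ≤ W F y := h3
      obtain ⟨l', rfl⟩ := L.rank_pos hκ0 hzz0
      have L' : Lev (proj F z) e κ n l' := L.step hzz0 hn rfl
      have hF' := L'.int1
      have hIH := ih n hnm l' (proj F z) hn0 (hM.proj L.sym hzz0) L'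
        (sub_step L.sym hS hzz0)
      have h1 := step_sum (Θ := fun q => W F (f q)) (Ψ := fun q => W (proj F z) (f q)) L.sym hS hn
        hm hn0 hnm.le (by
          intro q
          have h2 := W_step L hm hzz0 hn hn0 hM hprim hF' (f q)
          have h3 : (0 : ℚ) ≤ 1 / (od F z : ℚ) ^ 2 * (F (f q) z ^ 2 / F z z ^ 2) := by positivity
          linarith)
      have h2 := chain_arith hκ' hn0 hnm.le
      linarith
    · push Not at hbad
      have h1 : ∑ q, (W F (f q) - F (f q) (f q)) ≤ 0 := by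
        apply Finset.sum_nonpos
        intro q _
        have := hbad (f q)
        linarith
      have h2 : 0 ≤ κ' * ((m : ℚ) - 1) := by
        apply mul_nonneg hκ'
        have : (1 : ℚ) ≤ m := by exact_mod_cast hm
        linarith
      linarith

/-- the first step for a part of a frame -/
theorem sub_top {e : ι → A} {κ : ℕ} (hκ0 : 0 < κ) {f : Q → A} {κ' : ℚ} (hκ' : 0 ≤ κ')
    {m l : ℕ} {F : A →+ A →+ ℚ} (hM : Mx F) (L : Lev F e κ m l)
    (hS : ∀ a, ∑ q, F (f q) a ^ 2 ≤ κ' * F a a) {z : A} {n : ℕ}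
    (hz : F z z ≠ 0) (hn : (n : ℚ) = m * F z z) (hn0 : 0 < n) (hnm : n < m)
    (hprim : Prim F z) (hnv : ∀ q, F (f q) z ≠ 0) :
    ∑ q, (1 - F (f q) (f q)) ≤ κ' * ((m : ℚ) - 1) := by
  have hm : 0 < m := by omega
  obtain ⟨l', rfl⟩ := L.rank_pos hκ0 hz
  have L' : Lev (proj F z) e κ n l' := L.step hz hn rfl
  have hF' := L'.int1
  have h0 := sub_chain hκ0 (f := f) hκ' n l' (proj F z) hn0 (hM.proj L.sym hz) L'
    (sub_step L.sym hS hz)
  have h1 := step_sum (Θ := fun _ => 1) (Ψ := fun q => W (proj F z) (f q)) L.sym hS hn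
    hm hn0 hnm.le (by
      intro q
      exact top_step L hm hz hn hn0 hM hprim hF' (f q) (hnv q))
  have h2 := chain_arith hκ' hn0 hnm.le
  linarith

end Pool.Agent.Zk65.SE
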