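import Mathlib
import Pool.Agent.Zk65.SE8

/-!
The sublattices of vectors of positive height.
-/

set_option autoImplicit false
set_option linter.unusedSectionVars false

open scoped BigOperators

namespace Pool.Agent.Zk65.SE

open Pool.Agent.N20 Pool.Agent.Zk65.TB

variable {ι Q : Type*} [Fintype ι] [DecidableEq ι] [Fintype Q] {M : ι → ι → ℤ}
  {f : Q → ι → ℤ} {c κ l : ℤ}

/-- the vectors whose product with `z` is divisible by `P` -/
def LL (M : ι → ι → ℤ) (P : ℤ) (z : ι → ℤ) : AddSubgroup (ι → ℤ) where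
  carrier := {y | P ∣ fm M y z}
  zero_mem' := by
    show P ∣ fm M 0 z
    have : fm M 0 z = 0 := by
      unfold fm
      simp
    rw [this]
    exact dvd_zero P
  add_mem' := by
    intro a b ha hb
    show P ∣ fm M (a + b) z
    have h1 := fm_comb_left M 1 1 a b z
    have h2 : (fun i => 1 * a i + 1 * b i) = a + b := by
      funext i
      simp
    rw [h2] at h1
    rw [h1]
    exact dvd_add (Dvd.dvd.mul_left ha _) (Dvd.dvd.mul_left hb _)
  neg_mem' := by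
    intro a ha
    show P ∣ fm M (-a) z
    have h1 := fm_comb_left M (-1) 0 a a z
    have h2 : (fun i => (-1) * a i + 0 * a i) = -a := by
      funext i
      simp
    rw [h2] at h1
    rw [h1]
    exact dvd_add (Dvd.dvd.mul_left ha _) (Dvd.dvd.mul_left ha _)

lemma mem_LL {P : ℤ} {z y : ι → ℤ} : y ∈ LL M P z ↔ P ∣ fm M y z := Iff.rfl

lemma pow_split {p s j : ℕ} (hj : 2 * j < s) :
    ((p ^ s : ℕ) : ℤ) = ((p ^ j : ℕ) : ℤ) * ((p ^ j : ℕ) : ℤ) * ((p ^ (s - 2 * j) : ℕ) : ℤ) := by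
  have h1 : p ^ s = p ^ j * p ^ j * p ^ (s - 2 * j) := by
    rw [← pow_add, ← pow_add]
    congr 1
    omega
  exact_mod_cast h1

lemma cancel_aux {P R : ℚ} (hP : P ≠ 0) (hR : R ≠ 0) (x : ℚ) :
    P * P * x / (P * P * R) = R⁻¹ * x := by
  field_simp

/-- the sublattice has level `p ^ (s - 2 j)` -/
lemma good_low {p s j : ℕ} (hp : p.Prime) (hj : 2 * j < s) (hsym : ∀ i j, M i j = M j i)
    (hmin : ∀ i j k t, ((p ^ s : ℕ) : ℤ) ∣ M i j * M k t - M i t * M k j) {z : ι → ℤ}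
    (hz : ¬ (p : ℤ) ∣ fm M z z) :
    Good (bq M (p ^ s)) (p ^ (s - 2 * j)) ((LL M ((p ^ j : ℕ) : ℤ) z).map cv) := by
  intro t x y hx hy
  have hx1 : ∀ i, ∃ x' : ι → ℤ, ∃ α : ℤ, fm M x' z = ((p ^ j : ℕ) : ℤ) * α ∧ cv x' = x i := by
    intro i
    obtain ⟨x', h1, h2⟩ := hx i
    obtain ⟨α, hα⟩ := mem_LL.mp h1
    exact ⟨x', α, hα, h2⟩
  have hy1 : ∀ i, ∃ x' : ι → ℤ, ∃ α : ℤ, fm M x' z = ((p ^ j : ℕ) : ℤ) * α ∧ cv x' = y i := by
    intro i
    obtain ⟨x', h1, h2⟩ := hy i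
    obtain ⟨α, hα⟩ := mem_LL.mp h1
    exact ⟨x', α, hα, h2⟩
  choose x' α hα hx' using hx1
  choose y' β hβ hy' using hy1
  set R : ℕ := p ^ (s - 2 * j) with hR
  have hsplit := pow_split (p := p) hj
  rw [← hR] at hsplit
  have hRQ : ((R : ℕ) : ℚ) ≠ 0 := by
    rw [hR]
    exact_mod_cast pow_ne_zero _ hp.ne_zero
  have hjQ : (((p ^ j : ℕ) : ℤ) : ℚ) ≠ 0 := by
    exact_mod_cast pow_ne_zero _ hp.ne_zero
  have hsQ : (((p ^ s : ℕ) : ℕ) : ℚ) = (((p ^ j : ℕ) : ℤ) : ℚ) * (((p ^ j : ℕ) : ℤ) : ℚ) *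
      ((R : ℕ) : ℚ) := by
    have := congrArg (Int.cast : ℤ → ℚ) hsplit
    push_cast at this ⊢
    exact this
  have hcop : IsCoprime (fm M z z) (((p ^ s : ℕ) : ℤ)) := by
    push_cast
    apply IsCoprime.pow_right
    exact ((Nat.prime_iff_prime_int.mp hp).irreducible.coprime_iff_not_dvd.mpr hz).symm
  obtain ⟨w, w', hw⟩ := hcop
  have hE : ∀ i k, ∃ E : ℤ, fm M (x' i) (y' k) = ((p ^ j : ℕ) : ℤ) * ((p ^ j : ℕ) : ℤ) *
      ((w * α i) * β k + (R : ℤ) * E) := by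
    intro i k
    have h1 := minor_ext hmin (x' i) z (y' k) z
    obtain ⟨a, ha⟩ := h1
    refine ⟨w * a + w' * fm M (x' i) (y' k), ?_⟩
    have h2 : fm M (x' i) (y' k) = (w * fm M z z + w' * ((p ^ s : ℕ) : ℤ)) *
        fm M (x' i) (y' k) := by rw [hw, one_mul]
    have h3 : fm M z (y' k) = ((p ^ j : ℕ) : ℤ) * β k := by
      rw [fm_symm hsym, hβ]
    rw [hα, h3] at ha
    rw [hsplit] at h2 ha
    linear_combination h2 + w * ha
  choose E hE using hE
  obtain ⟨a, ha⟩ := det_rank_one (R : ℤ) (fun i => w * α i) β (Matrix.of E)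
  have h1 : (Matrix.of fun i j => bq M (p ^ s) (x i) (y j)) =
      ((R : ℕ) : ℚ)⁻¹ • ((Matrix.of fun i j => (w * α i) * β j +
        (R : ℤ) * (Matrix.of E) i j).map (Int.cast : ℤ → ℚ)) := by
    ext i k
    rw [Matrix.smul_apply, Matrix.map_apply, Matrix.of_apply, Matrix.of_apply, Matrix.of_apply,
      ← hx' i, ← hy' k, bq_cv, smul_eq_mul, hE, hsQ, Int.cast_mul, Int.cast_mul]
    exact cancel_aux hjQ hRQ _
  rw [h1, Matrix.det_smul, Fintype.card_fin]
  have h2 : ((Matrix.of fun i j => (w * α i) * β j +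
        (R : ℤ) * (Matrix.of E) i j).map (Int.cast : ℤ → ℚ)).det =
      ((Matrix.of fun i j => (w * α i) * β j + (R : ℤ) * (Matrix.of E) i j).det : ℚ) := by
    have := (Int.castRingHom ℚ).map_det (Matrix.of fun i j =>
      (w * α i) * β j + (R : ℤ) * (Matrix.of E) i j)
    simpa [RingHom.mapMatrix_apply] using this.symm
  rw [h2]
  refine ⟨a, ?_⟩
  generalize (Matrix.of fun i j => (w * α i) * β j + (R : ℤ) * (Matrix.of E) i j).det = Δ at ha
  have h3 := congrArg (Int.cast : ℤ → ℚ) ha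
  rw [Int.cast_mul, Int.cast_mul, Int.cast_pow, Int.cast_natCast] at h3
  rw [eq_intCast, mul_left_comm, h3, inv_pow, ← mul_assoc,
    inv_mul_cancel₀ (pow_ne_zero _ hRQ), one_mul]

lemma std_mem (P R : ℤ) (hPR : P ∣ R) (z : ι → ℤ) (r : ι) :
    (fun k => R * (if k = r then 1 else 0)) ∈ LL M P z := by
  rw [mem_LL]
  have h1 : fm M (fun k => R * (if k = r then 1 else 0)) z =
      R * fm M (fun k => if k = r then 1 else 0) z := by
    unfold fm
    rw [Finset.mul_sum]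
    refine Finset.sum_congr rfl fun i _ => ?_
    rw [Finset.mul_sum]
    refine Finset.sum_congr rfl fun k _ => ?_
    ring
  rw [h1]
  exact Dvd.dvd.mul_right hPR _

/-- the level data on the sublattice -/
lemma lev_low {p s j cN lN : ℕ} (hp : p.Prime) (hj : 2 * j < s)
    (h : FrD M f (cN : ℤ) κ (lN : ℤ)) {z : ι → ℤ} {X : AddSubgroup (ι → ℚ)}
    (hX : Good (bq M (p ^ s)) (p ^ (s - 2 * j)) X)
    (hle : (LL M ((p ^ j : ℕ) : ℤ) z).map cv ≤ X) :
    Lev (res (bq M (p ^ s)) X)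
      (fun r : ι => (⟨cv (fun k => ((p ^ (s + j) : ℕ) : ℤ) * (if k = r then 1 else 0)),
        hle ⟨_, std_mem _ _ (by
          have : p ^ j ∣ p ^ (s + j) := pow_dvd_pow p (by omega)
          exact_mod_cast this) z r, rfl⟩⟩ : X))
      (p ^ (s + 2 * j) * cN) (p ^ (s - 2 * j)) lN := by
  have hqQ : ((p ^ s : ℕ) : ℚ) ≠ 0 := by
    exact_mod_cast pow_ne_zero _ hp.ne_zero
  have hpQ : (p : ℚ) ≠ 0 := by exact_mod_cast hp.ne_zero
  have h1 := std_frame h (((p ^ (s + j) : ℕ) : ℤ))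
  refine ⟨fun a b => bq_symm M h.sym (p ^ s) a b, ?_, ?_, ?_⟩
  · intro a b
    have h2 := frame_rat h1 (p ^ s) a b
    simp only [res_apply]
    rw [h2]
    congr 1
    push_cast
    rw [div_eq_iff (pow_ne_zero _ hpQ)]
    ring
  · have h2 := trace_rat h1 (p ^ s)
    simp only [res_apply]
    rw [h2]
    push_cast
    congr 1
    rw [div_eq_iff (pow_ne_zero _ hpQ)]
    ring
  · intro t x y
    exact hX t (fun i => x i) (fun j => y j) (fun i => (x i).2) (fun j => (y j).2)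

/-- parts of frames -/
lemma sub_res (h : FrD M f c κ l) (q : ℕ) {X : AddSubgroup (ι → ℚ)} (T : Finset Q)
    (hT : ∀ r ∈ T, cv (f r) ∈ X) (a : X) :
    ∑ r : {r // r ∈ T}, res (bq M q) X (⟨cv (f r), hT r r.2⟩ : X) a ^ 2 ≤
      (κ : ℚ) / q * res (bq M q) X a a := by
  have h1 := frame_rat h q (a : ι → ℚ) (a : ι → ℚ)
  rw [res_apply, ← h1]
  have h2 : ∑ r : {r // r ∈ T}, res (bq M q) X (⟨cv (f r), hT r r.2⟩ : X) a ^ 2 =
      ∑ r ∈ T, bq M q (cv (f r)) (a : ι → ℚ) * bq M q (cv (f r)) (a : ι → ℚ) := by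
    rw [← Finset.sum_coe_sort T (fun r => bq M q (cv (f r)) (a : ι → ℚ) *
      bq M q (cv (f r)) (a : ι → ℚ))]
    refine Finset.sum_congr rfl fun r _ => ?_
    rw [res_apply, pow_two]
  rw [h2]
  exact Finset.sum_le_univ_sum_of_nonneg (fun r => mul_self_nonneg _)

end Pool.Agent.Zk65.SE
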