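import Mathlib
import Pool.Agent.Zk65.SE9

/-!
Minimal vectors in the sublattices of vectors of positive height, and the bound.
-/

set_option autoImplicit false
set_option linter.unusedSectionVars false

open scoped BigOperators

namespace Pool.Agent.Zk65.SE

open Pool.Agent.N20 Pool.Agent.Zk65.TB

variable {ι Q : Type*} [Fintype ι] [DecidableEq ι] [Fintype Q] {M : ι → ι → ℤ}
  {f : Q → ι → ℤ} {c κ l : ℤ}

lemma exact_mul {p : ℕ} (hp : p.Prime) {i j : ℕ} {a b : ℤ} (ha : ((p ^ i : ℕ) : ℤ) ∣ a)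
    (ha' : ¬ ((p ^ (i + 1) : ℕ) : ℤ) ∣ a) (hb : ((p ^ j : ℕ) : ℤ) ∣ b)
    (hb' : ¬ ((p ^ (j + 1) : ℕ) : ℤ) ∣ b) : ¬ ((p ^ (i + j + 1) : ℕ) : ℤ) ∣ a * b := by
  obtain ⟨a', rfl⟩ := ha
  obtain ⟨b', rfl⟩ := hb
  have hpz : (p : ℤ) ≠ 0 := by exact_mod_cast hp.ne_zero
  intro h
  have h1 : (p : ℤ) ∣ a' * b' := by
    obtain ⟨c, hc⟩ := h
    refine ⟨c, ?_⟩
    have h2 : (p : ℤ) ^ (i + j) * (a' * b') = (p : ℤ) ^ (i + j) * (p * c) := by
      push_cast at hc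
      calc (p : ℤ) ^ (i + j) * (a' * b') = (p : ℤ) ^ i * a' * ((p : ℤ) ^ j * b') := by ring
        _ = _ := hc
        _ = _ := by ring
    exact mul_left_cancel₀ (pow_ne_zero _ hpz) h2
  rcases (Nat.prime_iff_prime_int.mp hp).dvd_or_dvd h1 with h2 | h2
  · apply ha'
    obtain ⟨c, rfl⟩ := h2
    refine ⟨c, ?_⟩
    push_cast
    ring
  · apply hb'
    obtain ⟨c, rfl⟩ := h2
    refine ⟨c, ?_⟩
    push_cast
    ring

lemma exact_exists {p : ℕ} (hp : p.Prime) {a : ℤ} (ha : a ≠ 0) :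
    ∃ i : ℕ, ((p ^ i : ℕ) : ℤ) ∣ a ∧ ¬ ((p ^ (i + 1) : ℕ) : ℤ) ∣ a := by
  have hfin : FiniteMultiplicity (p : ℤ) a := by
    rw [Int.finiteMultiplicity_iff]
    exact ⟨by simpa using hp.ne_one, ha⟩
  refine ⟨multiplicity (p : ℤ) a, ?_, ?_⟩
  · push_cast
    exact pow_multiplicity_dvd _ _
  · push_cast
    exact hfin.not_pow_dvd_of_multiplicity_lt (Nat.lt_succ_self _)

/-- the norm of a vector of given height -/
lemma norm_exact {p s j : ℕ} (hp : p.Prime) (hj : 2 * j < s) (hsym : ∀ i j, M i j = M j i)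
    (hmin : ∀ i j k t, ((p ^ s : ℕ) : ℤ) ∣ M i j * M k t - M i t * M k j) {z z' : ι → ℤ}
    (h1 : ((p ^ j : ℕ) : ℤ) ∣ fm M z' z) (h2 : ¬ ((p ^ (j + 1) : ℕ) : ℤ) ∣ fm M z' z) :
    ¬ ((p ^ (2 * j + 1) : ℕ) : ℤ) ∣ fm M z' z' := by
  intro h3
  have h4 := minor_ext hmin z z' z z'
  rw [fm_symm hsym z z'] at h4
  have h5 : ((p ^ (2 * j + 1) : ℕ) : ℤ) ∣ fm M z z * fm M z' z' - fm M z' z * fm M z' z := by
    refine dvd_trans ?_ h4
    have : p ^ (2 * j + 1) ∣ p ^ s := pow_dvd_pow p (by omega)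
    exact_mod_cast this
  have h6 : ((p ^ (j + j + 1) : ℕ) : ℤ) ∣ fm M z' z * fm M z' z := by
    have h7 := dvd_sub (Dvd.dvd.mul_left h3 (fm M z z)) h5
    have h8 : fm M z z * fm M z' z' - (fm M z z * fm M z' z' - fm M z' z * fm M z' z) =
        fm M z' z * fm M z' z := by ring
    rw [h8] at h7
    have h9 : j + j + 1 = 2 * j + 1 := by ring
    rw [h9]
    exact h7
  exact exact_mul hp h1 h2 h1 h2 h6

/-- primitivity of a minimal vector of given height -/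
lemma prim_low {p s d j lN : ℕ} (hp : p.Prime) (hj : 2 * j < s)
    (h : FrD M f ((p ^ d : ℕ) : ℤ) κ (lN : ℤ))
    (hmin : ∀ i j k t, ((p ^ s : ℕ) : ℤ) ∣ M i j * M k t - M i t * M k j)
    {z : ι → ℤ} {X : AddSubgroup (ι → ℚ)}
    (hX : Good (bq M (p ^ s)) (p ^ (s - 2 * j)) X)
    (hle : (LL M ((p ^ j : ℕ) : ℤ) z).map cv ≤ X) {z' : ι → ℤ}
    (h1 : ((p ^ j : ℕ) : ℤ) ∣ fm M z' z) (h2 : ¬ ((p ^ (j + 1) : ℕ) : ℤ) ∣ fm M z' z)
    (hleast : ∀ y : ι → ℤ, ((p ^ j : ℕ) : ℤ) ∣ fm M y z → ¬ ((p ^ (j + 1) : ℕ) : ℤ) ∣ fm M y z →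
      fm M z' z' ≤ fm M y y) :
    Prim (res (bq M (p ^ s)) X) (⟨cv z', hle ⟨_, h1, rfl⟩⟩ : X) := by
  have hqQ : (((p ^ s : ℕ) : ℕ) : ℚ) ≠ 0 := by
    exact_mod_cast pow_ne_zero _ hp.ne_zero
  have hpQ : (p : ℚ) ≠ 0 := by exact_mod_cast hp.ne_zero
  have L := lev_low hp hj h hX hle
  intro y β hβ
  by_contra hcon
  have hd1 : β.den ≠ 1 := by
    intro h1
    apply hcon
    refine ⟨β.num, ?_⟩
    simp only [eq_intCast]
    have := Rat.num_div_den β
    rw [h1, Nat.cast_one, div_one] at this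
    exact this
  obtain ⟨r, hr, hrd⟩ := Nat.exists_prime_and_dvd hd1
  obtain ⟨d', hd'⟩ := hrd
  have hco : IsCoprime β.num (β.den : ℤ) := by
    rw [Int.isCoprime_iff_gcd_eq_one]
    exact β.reduced
  obtain ⟨u, v, huv⟩ := hco
  set Z : X := ⟨cv z', hle ⟨_, h1, rfl⟩⟩ with hZ
  set F := res (bq M (p ^ s)) X with hF
  have hz1 : ∀ (k : ℤ) (v w : X), F (k • v) w = k * F v w := by
    intro k v w
    rw [map_zsmul, AddMonoidHom.zsmul_apply, _root_.zsmul_eq_mul]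
  set y₁ : X := (d' : ℤ) • (u • y + v • Z) with hy₁
  have hb1 : ∀ b, (r : ℚ) * F y₁ b = F Z b := by
    intro b
    have h2 : F y₁ b = d' * (u * F y b + v * F Z b) := by
      rw [hy₁, hz1, map_add, AddMonoidHom.add_apply, hz1, hz1]
      push_cast
      ring
    have h3 : β * β.den = β.num := Rat.mul_den_eq_num β
    have h4 : (u : ℚ) * β.num + v * β.den = 1 := by exact_mod_cast huv
    have h5 : (β.den : ℚ) = r * d' := by exact_mod_cast hd'
    rw [h2, hβ]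
    calc (r : ℚ) * (d' * (u * (β * F Z b) + v * F Z b))
        = (u * (β * (r * d')) + v * (r * d')) * F Z b := by ring
      _ = F Z b := by rw [← h5, h3, h4, one_mul]
  have hrQ : (r : ℚ) ≠ 0 := by exact_mod_cast hr.ne_zero
  -- the products with all integral vectors
  have hb2 : ∀ b : ι → ℤ, (r : ℚ) * bq M (p ^ s) (y₁ : ι → ℚ) (cv b) =
      bq M (p ^ s) (cv z') (cv b) := by
    intro b
    have hmemb : cv (((p ^ j : ℕ) : ℤ) • b) ∈ X := by
      refine hle ⟨_, ?_, rfl⟩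
      show ((p ^ j : ℕ) : ℤ) ∣ fm M (((p ^ j : ℕ) : ℤ) • b) z
      have h3 := fm_comb_left M ((p ^ j : ℕ) : ℤ) 0 b b z
      have h4 : (fun i => ((p ^ j : ℕ) : ℤ) * b i + 0 * b i) = ((p ^ j : ℕ) : ℤ) • b := by
        funext i
        simp
      rw [h4] at h3
      rw [h3, zero_mul, add_zero]
      exact dvd_mul_right _ _
    have h3 := hb1 (⟨_, hmemb⟩ : X)
    rw [hF, res_apply, res_apply] at h3
    change (r : ℚ) * bq M (p ^ s) (y₁ : ι → ℚ) (cv (((p ^ j : ℕ) : ℤ) • b)) =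
      bq M (p ^ s) (cv z') (cv (((p ^ j : ℕ) : ℤ) • b)) at h3
    rw [map_zsmul, map_zsmul, map_zsmul, _root_.zsmul_eq_mul, _root_.zsmul_eq_mul] at h3
    have h5 : (((p ^ j : ℕ) : ℤ) : ℚ) ≠ 0 := by exact_mod_cast pow_ne_zero _ hp.ne_zero
    apply mul_left_cancel₀ h5
    linarith
  have hsplit := pow_split (p := p) hj
  have hsQ : (((p ^ s : ℕ) : ℕ) : ℚ) = (((p ^ j : ℕ) : ℤ) : ℚ) * (((p ^ j : ℕ) : ℤ) : ℚ) *
      ((p ^ (s - 2 * j) : ℕ) : ℚ) := by
    have := congrArg (Int.cast : ℤ → ℚ) hsplit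
    push_cast at this ⊢
    exact this
  have hRQ : (((p ^ (s - 2 * j) : ℕ)) : ℚ) ≠ 0 := by
    exact_mod_cast pow_ne_zero _ hp.ne_zero
  have hjQ : (((p ^ j : ℕ) : ℤ) : ℚ) ≠ 0 := by
    exact_mod_cast pow_ne_zero _ hp.ne_zero
  by_cases hrp : r = p
  · obtain ⟨k, hk⟩ := L.int1 y₁ y₁
    simp only [eq_intCast] at hk
    have hyy : (r : ℚ) ^ 2 * F y₁ y₁ = bq M (p ^ s) (cv z') (cv z') := by
      have e1 : bq M (p ^ s) (cv z') (cv z') = F Z Z := rfl
      rw [e1, ← hb1 Z, L.sym y₁ Z, ← hb1 y₁]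
      ring
    have e2 : ((fm M z' z' : ℤ) : ℚ) = (((p ^ j : ℕ) : ℤ) : ℚ) * (((p ^ j : ℕ) : ℤ) : ℚ) *
        ((p : ℚ) ^ 2 * k) := by
      rw [hk]
      rw [bq_cv, eq_div_iff hqQ] at hyy
      rw [← hyy, hrp, hsQ]
      ring
    apply norm_exact hp hj h.sym hmin h1 h2
    have e3 : fm M z' z' = ((p ^ j : ℕ) : ℤ) * ((p ^ j : ℕ) : ℤ) * ((p : ℤ) ^ 2 * k) := by
      exact_mod_cast e2
    rw [e3]
    refine ⟨(p : ℤ) * k, ?_⟩
    push_cast
    ring
  · -- an integral vector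
    have ht0 : ∀ i : ι, ∃ t : ℤ, bq M (p ^ s) (cv (fun k => if k = i then 1 else 0)) (y₁ : ι → ℚ) =
        (t : ℚ) / ((p ^ s : ℕ) : ℚ) := by
      intro i
      have hmemi := std_mem (M := M) (((p ^ j : ℕ) : ℤ)) (((p ^ j : ℕ) : ℤ)) (dvd_refl _) z i
      obtain ⟨t, ht⟩ := L.int1 (⟨cv _, hle ⟨_, hmemi, rfl⟩⟩ : X) y₁
      simp only [eq_intCast] at ht
      rw [res_apply] at ht
      change (t : ℚ) = ((p ^ (s - 2 * j) : ℕ) : ℚ) *
        bq M (p ^ s) (cv (fun k => ((p ^ j : ℕ) : ℤ) * (if k = i then 1 else 0)))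
          (y₁ : ι → ℚ) at ht
      have e1 : (cv (fun k => ((p ^ j : ℕ) : ℤ) * (if k = i then 1 else 0)) : ι → ℚ) =
          ((p ^ j : ℕ) : ℤ) • cv (fun k => if k = i then 1 else 0) := by
        ext k
        simp
      rw [e1, map_zsmul, AddMonoidHom.zsmul_apply, _root_.zsmul_eq_mul] at ht
      refine ⟨((p ^ j : ℕ) : ℤ) * t, ?_⟩
      rw [eq_div_iff hqQ, Int.cast_mul, ht, hsQ]
      ring
    choose t ht using ht0
    set g : ι → ℤ := t with hg
    have h3 : ∀ b : ι → ℚ, bq M (p ^ s) (cv g) b =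
        ((p ^ d : ℕ) : ℚ) * bq M (p ^ s) (y₁ : ι → ℚ) b := by
      intro b
      have hfr := frame_rat (std_frame h 1) (p ^ s) (y₁ : ι → ℚ) b
      have e1 : ∀ i : ι, bq M (p ^ s) (cv (fun k => (1 : ℤ) * (if k = i then 1 else 0)))
          (y₁ : ι → ℚ) = (t i : ℚ) / ((p ^ s : ℕ) : ℚ) := by
        intro i
        rw [← ht i]
        have : (fun k => (1 : ℤ) * (if k = i then 1 else 0)) = (fun k => if k = i then 1 else 0) := by
          funext k
          ring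
        rw [this]
      have e2 : (cv g : ι → ℚ) = ∑ i, t i • cv (fun k => (1 : ℤ) * (if k = i then 1 else 0)) := by
        ext k
        rw [Finset.sum_apply, Finset.sum_eq_single k]
        · simp [hg]
        · intro i _ hi
          simp [Ne.symm hi]
        · intro hk
          exact absurd (Finset.mem_univ _) hk
      have e3 : bq M (p ^ s) (cv g) b =
          ∑ i, (t i : ℚ) * bq M (p ^ s) (cv (fun k => (1 : ℤ) * (if k = i then 1 else 0))) b := by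
        rw [e2, map_sum, AddMonoidHom.finsetSum_apply]
        refine Finset.sum_congr rfl fun i _ => ?_
        rw [map_zsmul, AddMonoidHom.zsmul_apply, _root_.zsmul_eq_mul]
      rw [e3]
      simp only [e1] at hfr
      have e4 : ∑ i, (t i : ℚ) * bq M (p ^ s) (cv (fun k => (1 : ℤ) * (if k = i then 1 else 0))) b =
          ((p ^ s : ℕ) : ℚ) * ∑ i, (t i : ℚ) / ((p ^ s : ℕ) : ℚ) *
              bq M (p ^ s) (cv (fun k => (1 : ℤ) * (if k = i then 1 else 0))) b := by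
        rw [Finset.mul_sum]
        refine Finset.sum_congr rfl fun i _ => ?_
        field_simp
      have e5 : (((1 : ℤ) ^ 2 * ((p ^ d : ℕ) : ℤ) : ℤ) : ℚ) = ((p ^ d : ℕ) : ℚ) := by
        push_cast
        ring
      rw [e4, hfr, e5, ← mul_assoc, mul_div_cancel₀ _ hqQ]
    have hcop : IsCoprime ((p ^ d : ℕ) : ℤ) (r : ℤ) := by
      rw [Nat.isCoprime_iff_coprime]
      exact Nat.Coprime.pow_left d ((Nat.coprime_primes hp hr).mpr (Ne.symm hrp))
    obtain ⟨α, α', hα⟩ := hcop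
    set a₁ : ι → ℤ := α • g + α' • z' with ha₁
    have e1 : ∀ w : ι → ℤ, fm M z' w = r * fm M a₁ w := by
      intro w
      have e2 : bq M (p ^ s) (cv a₁) (cv w) = bq M (p ^ s) (y₁ : ι → ℚ) (cv w) := by
        rw [ha₁, map_add, map_zsmul, map_zsmul, map_add, AddMonoidHom.add_apply, map_zsmul,
          map_zsmul, AddMonoidHom.zsmul_apply, AddMonoidHom.zsmul_apply, _root_.zsmul_eq_mul,
          _root_.zsmul_eq_mul, h3, ← hb2 w]
        have e3 : (α : ℚ) * ((p ^ d : ℕ) : ℚ) + α' * r = 1 := by exact_mod_cast hα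
        linear_combination (bq M (p ^ s) (y₁ : ι → ℚ) (cv w)) * e3
      have e4 := hb2 w
      rw [← e2, bq_cv, bq_cv, ← mul_div_assoc] at e4
      have e5 := (div_left_inj' hqQ).mp e4
      exact_mod_cast e5.symm
    have h5 : fm M z' z' = (r : ℤ) ^ 2 * fm M a₁ a₁ := by
      rw [e1 z', fm_symm h.sym a₁ z', e1 a₁]
      ring
    have hcop2 : IsCoprime ((p ^ j : ℕ) : ℤ) (r : ℤ) := by
      rw [Nat.isCoprime_iff_coprime]
      exact Nat.Coprime.pow_left j ((Nat.coprime_primes hp hr).mpr (Ne.symm hrp))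
    have h6 : ((p ^ j : ℕ) : ℤ) ∣ fm M a₁ z := by
      have h7 := h1
      rw [e1 z] at h7
      exact hcop2.dvd_of_dvd_mul_left h7
    have h7 : ¬ ((p ^ (j + 1) : ℕ) : ℤ) ∣ fm M a₁ z := by
      intro h8
      apply h2
      rw [e1 z]
      exact Dvd.dvd.mul_left h8 _
    have h8 := hleast a₁ h6 h7
    have hne : fm M a₁ z ≠ 0 := by
      intro h0
      apply h7
      rw [h0]
      exact dvd_zero _
    have h9 : 0 < fm M a₁ a₁ := h.cs a₁ z hne
    have h10 : (2 : ℤ) ≤ r := by exact_mod_cast hr.two_le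
    have h11 : (4 : ℤ) ≤ (r : ℤ) ^ 2 := by nlinarith
    have h12 := mul_le_mul_of_nonneg_right h11 h9.le
    linarith

end Pool.Agent.Zk65.SE
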