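import Mathlib
import Pool.Agent.Zk65.SE10

/-!
The counting theorem when all vectors of height zero are long.
-/

set_option autoImplicit false
set_option linter.unusedSectionVars false

open scoped BigOperators

namespace Pool.Agent.Zk65.SE

open Pool.Agent.N20 Pool.Agent.Zk65.TB

variable {ι Q : Type*} [Fintype ι] [DecidableEq ι] [Fintype Q] {M : ι → ι → ℤ}
  {f : Q → ι → ℤ} {κ : ℤ}

lemma cancel_div {P R S : ℚ} (hS : S = P * P * R) (hP : P ≠ 0) (hR : R ≠ 0) (x : ℚ) :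
    R * (P * P * x / S) = x := by
  rw [hS]
  field_simp

/-- a part of the frame at positive height -/
lemma part_bound {p s d j lN : ℕ} (hp : p.Prime) (hκ : 0 < κ) (hj : 2 * j < s)
    (h : FrD M f ((p ^ d : ℕ) : ℤ) κ (lN : ℤ))
    (hmin : ∀ i j k t, ((p ^ s : ℕ) : ℤ) ∣ M i j * M k t - M i t * M k j)
    {z : ι → ℤ} (hz : ¬ (p : ℤ) ∣ fm M z z) {z' : ι → ℤ}
    (h1 : ((p ^ j : ℕ) : ℤ) ∣ fm M z' z) (h2 : ¬ ((p ^ (j + 1) : ℕ) : ℤ) ∣ fm M z' z)
    (hleast : ∀ y : ι → ℤ, ((p ^ j : ℕ) : ℤ) ∣ fm M y z → ¬ ((p ^ (j + 1) : ℕ) : ℤ) ∣ fm M y z →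
      fm M z' z' ≤ fm M y y) (hsmall : fm M z' z' < ((p ^ s : ℕ) : ℤ)) (T : Finset Q)
    (hT : ∀ r ∈ T, ((p ^ j : ℕ) : ℤ) ∣ fm M (f r) z) (hnv : ∀ r ∈ T, fm M (f r) z' ≠ 0) :
    ∑ r ∈ T, (((p ^ s : ℕ) : ℤ) - fm M (f r) (f r)) ≤ κ * (((p ^ (s - 2 * j) : ℕ) : ℤ) - 1) := by
  have hqQ : (((p ^ s : ℕ) : ℕ) : ℚ) ≠ 0 := by
    exact_mod_cast pow_ne_zero _ hp.ne_zero
  have hqpos : (0 : ℚ) < (((p ^ s : ℕ) : ℕ) : ℚ) := by
    have := pow_pos hp.pos s
    exact_mod_cast this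
  have hsplit := pow_split (p := p) hj
  obtain ⟨X, hle, hX, hmax⟩ := exists_maximal (bq M (p ^ s)) (p ^ (s - 2 * j))
    (good_low hp hj h.sym hmin hz)
  have L := lev_low hp hj h hX hle
  have hM := mx_of_maximal (bq M (p ^ s)) (p ^ (s - 2 * j)) (bq_symm M h.sym (p ^ s)) hX hmax
  have hprim := prim_low hp hj h hmin hX hle h1 h2 hleast
  have hTX : ∀ r ∈ T, cv (f r) ∈ X := fun r hr => hle ⟨_, hT r hr, rfl⟩
  -- the norm of `z'`
  have hne : fm M z' z ≠ 0 := by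
    intro h0
    apply h2
    rw [h0]
    exact dvd_zero _
  have hpos : 0 < fm M z' z' := h.cs z' z hne
  have hdvd : ((p ^ j : ℕ) : ℤ) * ((p ^ j : ℕ) : ℤ) ∣ fm M z' z' := by
    have h4 := minor_ext hmin z z' z z'
    rw [fm_symm h.sym z z'] at h4
    have h5 : ((p ^ j : ℕ) : ℤ) * ((p ^ j : ℕ) : ℤ) ∣
        fm M z z * fm M z' z' - fm M z' z * fm M z' z :=
      dvd_trans ⟨_, hsplit⟩ h4
    have h6 := dvd_add h5 (mul_dvd_mul h1 h1)
    rw [sub_add_cancel] at h6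
    have hcop : IsCoprime (((p ^ j : ℕ) : ℤ) * ((p ^ j : ℕ) : ℤ)) (fm M z z) := by
      have h7 : IsCoprime (((p ^ j : ℕ) : ℤ)) (fm M z z) := by
        push_cast
        apply IsCoprime.pow_left
        exact (Nat.prime_iff_prime_int.mp hp).irreducible.coprime_iff_not_dvd.mpr hz
      exact IsCoprime.mul_left h7 h7
    exact hcop.dvd_of_dvd_mul_left h6
  obtain ⟨n', hn'⟩ := hdvd
  have hjpos : (0 : ℤ) < ((p ^ j : ℕ) : ℤ) * ((p ^ j : ℕ) : ℤ) := by
    have : (0 : ℤ) < ((p ^ j : ℕ) : ℤ) := by exact_mod_cast pow_pos hp.pos j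
    positivity
  have hn'pos : 0 < n' := by
    by_contra hcon
    push Not at hcon
    have : fm M z' z' ≤ 0 := by
      rw [hn']
      exact mul_nonpos_of_nonneg_of_nonpos hjpos.le hcon
    linarith
  obtain ⟨n, rfl⟩ := Int.eq_ofNat_of_zero_le hn'pos.le
  have hn0 : 0 < n := by exact_mod_cast hn'pos
  have hnR : n < p ^ (s - 2 * j) := by
    have h5 : ((p ^ j : ℕ) : ℤ) * ((p ^ j : ℕ) : ℤ) * (n : ℤ) <
        ((p ^ j : ℕ) : ℤ) * ((p ^ j : ℕ) : ℤ) * ((p ^ (s - 2 * j) : ℕ) : ℤ) := by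
      rw [← hn', ← hsplit]
      exact hsmall
    have h6 := lt_of_mul_lt_mul_left h5 hjpos.le
    exact_mod_cast h6
  set Z : X := ⟨cv z', hle ⟨_, h1, rfl⟩⟩ with hZ
  have hFZ : res (bq M (p ^ s)) X Z Z = ((fm M z' z' : ℤ) : ℚ) / ((p ^ s : ℕ) : ℚ) := by
    rw [res_apply]
    exact bq_cv M (p ^ s) z' z'
  have hsQ : (((p ^ s : ℕ) : ℕ) : ℚ) = (((p ^ j : ℕ) : ℤ) : ℚ) * (((p ^ j : ℕ) : ℤ) : ℚ) *
      ((p ^ (s - 2 * j) : ℕ) : ℚ) := by
    have := congrArg (Int.cast : ℤ → ℚ) hsplit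
    push_cast at this ⊢
    exact this
  have hRQ : (((p ^ (s - 2 * j) : ℕ)) : ℚ) ≠ 0 := by
    exact_mod_cast pow_ne_zero _ hp.ne_zero
  have hjQ : (((p ^ j : ℕ) : ℤ) : ℚ) ≠ 0 := by
    exact_mod_cast pow_ne_zero _ hp.ne_zero
  have hnF : (n : ℚ) = ((p ^ (s - 2 * j) : ℕ) : ℚ) * res (bq M (p ^ s)) X Z Z := by
    rw [hFZ, hn', Int.cast_mul, Int.cast_mul, cancel_div hsQ hjQ hRQ]
    exact (Int.cast_natCast n).symm
  have hz0 : res (bq M (p ^ s)) X Z Z ≠ 0 := by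
    intro h0
    rw [h0, mul_zero] at hnF
    have : n = 0 := by exact_mod_cast hnF
    omega
  have hκQ : (0 : ℚ) ≤ (κ : ℚ) / ((p ^ s : ℕ) : ℚ) := by
    have : (0 : ℚ) < κ := by exact_mod_cast hκ
    positivity
  have hmain := sub_top (f := fun r : {r // r ∈ T} => (⟨cv (f r), hTX r r.2⟩ : X))
    (Nat.mul_pos (pow_pos hp.pos _) (pow_pos hp.pos d)) hκQ hM L
    (fun a => sub_res h (p ^ s) T hTX a) hz0 hnF hn0 hnR hprim (by
      intro r
      rw [res_apply]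
      change bq M (p ^ s) (cv (f r)) (cv z') ≠ 0
      rw [bq_cv]
      exact div_ne_zero (by exact_mod_cast hnv r r.2) hqQ)
  have h3 : ∑ r : {r // r ∈ T}, (1 - res (bq M (p ^ s)) X (⟨cv (f r), hTX r r.2⟩ : X)
      (⟨cv (f r), hTX r r.2⟩ : X)) =
      ((∑ r ∈ T, (((p ^ s : ℕ) : ℤ) - fm M (f r) (f r)) : ℤ) : ℚ) / ((p ^ s : ℕ) : ℚ) := by
    rw [← Finset.sum_coe_sort T, Int.cast_sum, Finset.sum_div]
    refine Finset.sum_congr rfl fun r _ => ?_
    rw [res_apply]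
    change 1 - bq M (p ^ s) (cv (f r)) (cv (f r)) = _
    rw [bq_cv, Int.cast_sub, Int.cast_natCast, sub_div, div_self hqQ]
  rw [h3, div_le_iff₀ hqpos] at hmain
  have h4 : (κ : ℚ) / ((p ^ s : ℕ) : ℚ) * (((p ^ (s - 2 * j) : ℕ) : ℚ) - 1) *
      ((p ^ s : ℕ) : ℚ) = ((κ * (((p ^ (s - 2 * j) : ℕ) : ℤ) - 1) : ℤ) : ℚ) := by
    rw [Int.cast_mul, Int.cast_sub, Int.cast_natCast, Int.cast_one, div_mul_eq_mul_div,
      div_mul_cancel₀ _ hqQ]
  rw [h4] at hmain
  exact_mod_cast hmain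

open Classical in
/-- **The bound when all vectors of height zero are long.** -/
theorem lat_low {p s d lN : ℕ} (hp : p.Prime) (hκ : 0 < κ) (hs : 1 ≤ s)
    (h : FrD M f ((p ^ d : ℕ) : ℤ) κ (lN : ℤ))
    (hmin : ∀ i j k t, ((p ^ s : ℕ) : ℤ) ∣ M i j * M k t - M i t * M k j)
    {z : ι → ℤ} (hz : ¬ (p : ℤ) ∣ fm M z z)
    (hbig : ∀ y : ι → ℤ, ¬ (p : ℤ) ∣ fm M y y → ((p ^ s : ℕ) : ℤ) + 1 ≤ fm M y y) :
    ((p ^ s : ℕ) : ℤ) * cnt M f z +
        ((Finset.univ.filter (fun r => ¬ (p : ℤ) ∣ fm M (f r) z)).card : ℤ) ≤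
      κ * ((lN : ℤ) + ((p ^ (s - 2) : ℕ) : ℤ) - 1) := by
  have hqpos : (0 : ℤ) < ((p ^ s : ℕ) : ℤ) := by exact_mod_cast pow_pos hp.pos s
  have e4 : ((Finset.univ.filter (fun r => ¬ (p : ℤ) ∣ fm M (f r) z)).card : ℤ) =
      ∑ r, (if ¬ (p : ℤ) ∣ fm M (f r) z then 1 else 0) := by
    rw [Finset.sum_boole]
  have e5 : cnt M f z = ∑ r, (if fm M (f r) z ≠ 0 then 1 else 0) := by
    unfold cnt
    rw [Finset.sum_boole]
  have hdvdq : ∀ y : ι → ℤ, ((p ^ s : ℕ) : ℤ) ∣ fm M z z * fm M y y - fm M y z * fm M y z := by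
    intro y
    have h1 := minor_ext hmin z y z y
    rw [fm_symm h.sym z y] at h1
    exact h1
  have hcop : IsCoprime (((p ^ s : ℕ) : ℤ)) (fm M z z) := by
    push_cast
    apply IsCoprime.pow_left
    exact (Nat.prime_iff_prime_int.mp hp).irreducible.coprime_iff_not_dvd.mpr hz
  have hunit : ∀ y : ι → ℤ, ¬ (p : ℤ) ∣ fm M y z → ¬ (p : ℤ) ∣ fm M y y := by
    intro y hy hyy
    have h0 : (p : ℤ) ∣ ((p ^ s : ℕ) : ℤ) := by
      push_cast
      exact dvd_pow_self _ (by omega)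
    have h1 : (p : ℤ) ∣ fm M z z * fm M y y - fm M y z * fm M y z := h0.trans (hdvdq y)
    have h2 : (p : ℤ) ∣ fm M y z * fm M y z := by
      have h3 := dvd_sub (Dvd.dvd.mul_left hyy (fm M z z)) h1
      have h4 : fm M z z * fm M y y - (fm M z z * fm M y y - fm M y z * fm M y z) =
          fm M y z * fm M y z := by ring
      rwa [h4] at h3
    rcases (Nat.prime_iff_prime_int.mp hp).dvd_or_dvd h2 with h3 | h3 <;> exact hy h3
  -- vectors of large height
  have hhigh : ∀ y : ι → ℤ, fm M y z ≠ 0 → ((p ^ s : ℕ) : ℤ) ∣ fm M y z * fm M y z →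
      ((p ^ s : ℕ) : ℤ) ≤ fm M y y := by
    intro y hy h1
    have h2 := dvd_add (hdvdq y) h1
    rw [sub_add_cancel] at h2
    exact Int.le_of_dvd (h.cs y z hy) (hcop.dvd_of_dvd_mul_left h2)
  -- `p` divides every product of positive height
  have hone : ∀ y : ι → ℤ, ∀ i, 1 ≤ i → ((p ^ i : ℕ) : ℤ) ∣ fm M y z → (p : ℤ) ∣ fm M y z := by
    intro y i hi h1
    refine dvd_trans ?_ h1
    push_cast
    exact dvd_pow_self _ (by omega)
  -- the classification of the valuations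
  have hclass : ∀ y : ι → ℤ, fm M y z ≠ 0 → ¬ ((p ^ s : ℕ) : ℤ) ∣ fm M y z * fm M y z →
      ∃ i, 2 * i < s ∧ ((p ^ i : ℕ) : ℤ) ∣ fm M y z ∧
        ¬ ((p ^ (i + 1) : ℕ) : ℤ) ∣ fm M y z := by
    intro y hy hsq
    obtain ⟨i, hi1, hi2⟩ := exact_exists hp hy
    refine ⟨i, ?_, hi1, hi2⟩
    by_contra hcon
    apply hsq
    refine dvd_trans ?_ (mul_dvd_mul hi1 hi1)
    have h3 : p ^ s ∣ p ^ i * p ^ i := by
      rw [← pow_add]
      exact pow_dvd_pow p (by omega)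
    exact_mod_cast h3
  by_cases hbad : ∃ j : ℕ, 1 ≤ j ∧ 2 * j < s ∧ ∃ y : ι → ℤ, ((p ^ j : ℕ) : ℤ) ∣ fm M y z ∧
      ¬ ((p ^ (j + 1) : ℕ) : ℤ) ∣ fm M y z ∧ fm M y y < ((p ^ s : ℕ) : ℤ)
  · set j := Nat.find hbad with hjdef
    obtain ⟨hj1, hj2, y₀, hy1, hy2, hy3⟩ := Nat.find_spec hbad
    rw [← hjdef] at hj1 hj2 hy1 hy2
    have hjmin : ∀ i, 1 ≤ i → i < j → ∀ y : ι → ℤ, ((p ^ i : ℕ) : ℤ) ∣ fm M y z →
        ¬ ((p ^ (i + 1) : ℕ) : ℤ) ∣ fm M y z → ((p ^ s : ℕ) : ℤ) ≤ fm M y y := by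
      intro i hi1 hi2 y h1 h2
      by_contra hcon
      push Not at hcon
      exact Nat.find_min hbad hi2 ⟨hi1, by omega, y, h1, h2, hcon⟩
    -- the minimal vector of height `j`
    have hex : ∃ n : ℕ, ∃ y : ι → ℤ, ((p ^ j : ℕ) : ℤ) ∣ fm M y z ∧
        ¬ ((p ^ (j + 1) : ℕ) : ℤ) ∣ fm M y z ∧ fm M y y = n :=
      ⟨(fm M y₀ y₀).toNat, y₀, hy1, hy2, (Int.toNat_of_nonneg (h.nonneg y₀)).symm⟩
    set n := Nat.find hex with hndef
    obtain ⟨z', hz1, hz2, hzn⟩ := Nat.find_spec hex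
    rw [← hndef] at hzn
    have hleast : ∀ y : ι → ℤ, ((p ^ j : ℕ) : ℤ) ∣ fm M y z →
        ¬ ((p ^ (j + 1) : ℕ) : ℤ) ∣ fm M y z → fm M z' z' ≤ fm M y y := by
      intro y h1 h2
      have h3 : n ≤ (fm M y y).toNat :=
        Nat.find_min' hex ⟨y, h1, h2, (Int.toNat_of_nonneg (h.nonneg y)).symm⟩
      have h4 := Int.toNat_of_nonneg (h.nonneg y)
      omega
    have hsmall : fm M z' z' < ((p ^ s : ℕ) : ℤ) := (hleast y₀ hy1 hy2).trans_lt hy3
    set T : Finset Q := Finset.univ.filter (fun r => ((p ^ j : ℕ) : ℤ) ∣ fm M (f r) z ∧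
      ¬ ((p ^ s : ℕ) : ℤ) ∣ fm M (f r) z * fm M (f r) z) with hTdef
    have hTne : ∀ r ∈ T, fm M (f r) z ≠ 0 := by
      intro r hr h0
      apply (Finset.mem_filter.mp hr).2.2
      rw [h0, mul_zero]
      exact dvd_zero _
    have hnv : ∀ r ∈ T, fm M (f r) z' ≠ 0 := by
      intro r hr h0
      obtain ⟨i, hi1, hi2, hi3⟩ := hclass (f r) (hTne r hr) (Finset.mem_filter.mp hr).2.2
      have h4 := minor_ext hmin z (f r) z z'
      rw [h0, mul_zero, fm_symm h.sym z z', zero_sub, dvd_neg] at h4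
      have h5 := exact_mul hp hz1 hz2 hi2 hi3
      apply h5
      refine dvd_trans ?_ h4
      have : p ^ (j + i + 1) ∣ p ^ s := pow_dvd_pow p (by omega)
      exact_mod_cast this
    have hb := part_bound hp hκ hj2 h hmin hz hz1 hz2 hleast hsmall T
      (fun r hr => (Finset.mem_filter.mp hr).2.1) hnv
    have hle : ((p ^ s : ℕ) : ℤ) * cnt M f z +
        ((Finset.univ.filter (fun r => ¬ (p : ℤ) ∣ fm M (f r) z)).card : ℤ) ≤
        κ * lN + ∑ r ∈ T, (((p ^ s : ℕ) : ℤ) - fm M (f r) (f r)) := by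
      rw [← h.trace, e4, e5, Finset.mul_sum, hTdef, Finset.sum_filter, ← Finset.sum_add_distrib,
        ← Finset.sum_add_distrib]
      refine Finset.sum_le_sum fun r _ => ?_
      by_cases h7 : fm M (f r) z = 0
      · rw [if_neg (not_not.mpr h7), h7, if_neg (not_not.mpr (dvd_zero _)), if_neg (by simp)]
        have := h.nonneg (f r)
        linarith
      · rw [if_pos h7]
        by_cases h8 : ((p ^ s : ℕ) : ℤ) ∣ fm M (f r) z * fm M (f r) z
        · have h9 : (p : ℤ) ∣ fm M (f r) z := by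
            have h10 : (p : ℤ) ∣ fm M (f r) z * fm M (f r) z := by
              refine dvd_trans ?_ h8
              push_cast
              exact dvd_pow_self _ (by omega)
            rcases (Nat.prime_iff_prime_int.mp hp).dvd_or_dvd h10 with h11 | h11 <;> exact h11
          rw [if_neg (not_not.mpr h9), if_neg (fun h10 => h10.2 h8)]
          have := hhigh (f r) h7 h8
          linarith
        · obtain ⟨i, hi1, hi2, hi3⟩ := hclass (f r) h7 h8
          rcases Nat.eq_zero_or_pos i with hi0 | hi0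
          · subst hi0
            have h9 : ¬ (p : ℤ) ∣ fm M (f r) z := by
              intro h10
              apply hi3
              simpa using h10
            have h10 : ¬ (((p ^ j : ℕ) : ℤ) ∣ fm M (f r) z ∧
                ¬ ((p ^ s : ℕ) : ℤ) ∣ fm M (f r) z * fm M (f r) z) := by
              rintro ⟨h11, -⟩
              exact h9 (hone (f r) j hj1 h11)
            rw [if_pos h9, if_neg h10]
            have := hbig (f r) (hunit (f r) h9)
            linarith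
          · have h9 : (p : ℤ) ∣ fm M (f r) z := hone (f r) i hi0 hi2
            rw [if_neg (not_not.mpr h9)]
            rcases Nat.lt_or_ge i j with hij | hij
            · have h10 : ¬ (((p ^ j : ℕ) : ℤ) ∣ fm M (f r) z ∧
                  ¬ ((p ^ s : ℕ) : ℤ) ∣ fm M (f r) z * fm M (f r) z) := by
                rintro ⟨h11, -⟩
                apply hi3
                refine dvd_trans ?_ h11
                have : p ^ (i + 1) ∣ p ^ j := pow_dvd_pow p (by omega)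
                exact_mod_cast this
              rw [if_neg h10]
              have := hjmin i hi0 hij (f r) hi2 hi3
              linarith
            · have h10 : ((p ^ j : ℕ) : ℤ) ∣ fm M (f r) z ∧
                  ¬ ((p ^ s : ℕ) : ℤ) ∣ fm M (f r) z * fm M (f r) z := by
                refine ⟨dvd_trans ?_ hi2, h8⟩
                have : p ^ j ∣ p ^ i := pow_dvd_pow p hij
                exact_mod_cast this
              rw [if_pos h10]
              linarith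
    have hpow : ((p ^ (s - 2 * j) : ℕ) : ℤ) ≤ ((p ^ (s - 2) : ℕ) : ℤ) := by
      have : p ^ (s - 2 * j) ≤ p ^ (s - 2) := Nat.pow_le_pow_right hp.pos (by omega)
      exact_mod_cast this
    have h6 := mul_le_mul_of_nonneg_left hpow hκ.le
    linarith
  · have hgood : ∀ i, 1 ≤ i → 2 * i < s → ∀ y : ι → ℤ, ((p ^ i : ℕ) : ℤ) ∣ fm M y z →
        ¬ ((p ^ (i + 1) : ℕ) : ℤ) ∣ fm M y z → ((p ^ s : ℕ) : ℤ) ≤ fm M y y := by
      intro i hi1 hi2 y h1 h2
      by_contra hcon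
      push Not at hcon
      exact hbad ⟨i, hi1, hi2, y, h1, h2, hcon⟩
    have hle : ((p ^ s : ℕ) : ℤ) * cnt M f z +
        ((Finset.univ.filter (fun r => ¬ (p : ℤ) ∣ fm M (f r) z)).card : ℤ) ≤ κ * lN := by
      rw [← h.trace, e4, e5, Finset.mul_sum, ← Finset.sum_add_distrib]
      refine Finset.sum_le_sum fun r _ => ?_
      by_cases h7 : fm M (f r) z = 0
      · rw [if_neg (not_not.mpr h7), h7, if_neg (not_not.mpr (dvd_zero _))]
        have := h.nonneg (f r)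
        linarith
      · rw [if_pos h7]
        by_cases h9 : (p : ℤ) ∣ fm M (f r) z
        · rw [if_neg (not_not.mpr h9)]
          by_cases h8 : ((p ^ s : ℕ) : ℤ) ∣ fm M (f r) z * fm M (f r) z
          · have := hhigh (f r) h7 h8
            linarith
          · obtain ⟨i, hi1, hi2, hi3⟩ := hclass (f r) h7 h8
            have hi0 : 1 ≤ i := by
              by_contra hcon
              have : i = 0 := by omega
              subst this
              apply hi3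
              simpa using h9
            have := hgood i hi0 hi1 (f r) hi2 hi3
            linarith
        · rw [if_pos h9]
          have := hbig (f r) (hunit (f r) h9)
          linarith
    have h5 : (0 : ℤ) ≤ κ * (((p ^ (s - 2) : ℕ) : ℤ) - 1) := by
      apply mul_nonneg hκ.le
      have : 1 ≤ p ^ (s - 2) := Nat.one_le_pow _ _ hp.pos
      have : (1 : ℤ) ≤ ((p ^ (s - 2) : ℕ) : ℤ) := by exact_mod_cast this
      linarith
    linarith

end Pool.Agent.Zk65.SE
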