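import Mathlib
import Pool.Agent.Zk65.SE11

/-!
The counting theorem: all bounds.
-/

set_option autoImplicit false
set_option linter.unusedSectionVars false

open scoped BigOperators

namespace Pool.Agent.Zk65.SE

open Pool.Agent.N20 Pool.Agent.Zk65.TB

variable {ι Q : Type*} [Fintype ι] [DecidableEq ι] [Fintype Q] {M : ι → ι → ℤ}
  {f : Q → ι → ℤ} {κ : ℤ}

open Classical in
/-- the bound when there is a short vector of height zero -/
theorem lat_small {p s d lN n : ℕ} (hp : p.Prime) (hs : 1 ≤ s) (hκ : 0 < κ)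
    (h : FrD M f ((p ^ d : ℕ) : ℤ) κ (lN : ℤ))
    (hmin : ∀ i j k t, ((p ^ s : ℕ) : ℤ) ∣ M i j * M k t - M i t * M k j)
    {z : ι → ℤ} (hz : ¬ (p : ℤ) ∣ fm M z z) (hzn : fm M z z = n)
    (hleast : ∀ y : ι → ℤ, ¬ (p : ℤ) ∣ fm M y y → (n : ℤ) ≤ fm M y y) (hlt : n < p ^ s) :
    ((p : ℤ) ^ s + 1) * cnt M f z ≤ κ * max ((p : ℤ) ^ s + 1) lN := by
  have hq : 0 < p ^ s := pow_pos hp.pos s
  have hn0 : 0 < n := by
    rcases Nat.eq_zero_or_pos n with h0 | h0
    · exfalso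
      apply hz
      rw [hzn, h0]
      exact dvd_zero _
    · exact h0
  obtain ⟨X, hle, hX, hmax⟩ := exists_maximal (bq M (p ^ s)) (p ^ s)
    (good_int hp hs hmin hz)
  have L := lev_res hq h hX hle
  have hM := mx_of_maximal (bq M (p ^ s)) (p ^ s) (bq_symm M h.sym (p ^ s)) hX hmax
  have hprim := prim_min hp h hX hle hzn hz hleast
  have hqQ : ((p ^ s : ℕ) : ℚ) ≠ 0 := by positivity
  have hZZ : (n : ℚ) = ((p ^ s : ℕ) : ℚ) * res (bq M (p ^ s)) X
      (⟨cv z, hle ⟨_, rfl⟩⟩ : X) (⟨cv z, hle ⟨_, rfl⟩⟩ : X) := by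
    rw [res_apply]
    change (n : ℚ) = ((p ^ s : ℕ) : ℚ) * bq M (p ^ s) (cv z) (cv z)
    rw [bq_cv, hzn]
    field_simp
    push_cast
    rfl
  have hne : res (bq M (p ^ s)) X (⟨cv z, hle ⟨_, rfl⟩⟩ : X) (⟨cv z, hle ⟨_, rfl⟩⟩ : X) ≠ 0 := by
    intro h0
    rw [h0, mul_zero] at hZZ
    have : n = 0 := by exact_mod_cast hZZ
    omega
  have hκQ : (0 : ℚ) < (κ : ℚ) / ((p ^ s : ℕ) : ℚ) := by
    have : (0 : ℚ) < κ := by exact_mod_cast hκ
    positivity
  have h1 := top' (Nat.mul_pos hq (pow_pos hp.pos d)) hκQ L hM (fr_res h hle) hne hZZ hn0 hlt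
    hprim
  have h2 : (Finset.univ.filter (fun r : Q => res (bq M (p ^ s)) X
      (⟨cv (f r), hle ⟨_, rfl⟩⟩ : X) (⟨cv z, hle ⟨_, rfl⟩⟩ : X) ≠ 0)).card =
      (Finset.univ.filter (fun r => fm M (f r) z ≠ 0)).card := by
    congr 1
    apply Finset.filter_congr
    intro r _
    rw [res_apply]
    change bq M (p ^ s) (cv (f r)) (cv z) ≠ 0 ↔ _
    rw [bq_cv]
    constructor
    · intro h3 h4
      apply h3
      rw [h4]
      simp
    · intro h3
      exact div_ne_zero (by exact_mod_cast h3) hqQ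
  rw [h2] at h1
  have h3 : ((p : ℤ) ^ s + 1) * cnt M f z ≤ κ * max ((p : ℤ) ^ s + 1) lN := by
    unfold cnt
    have e1 : (0 : ℚ) < ((p ^ s : ℕ) : ℚ) + 1 := by positivity
    have e2 := mul_le_mul_of_nonneg_left h1 e1.le
    have e3 : (((p ^ s : ℕ) : ℚ) + 1) * ((κ : ℚ) / ((p ^ s : ℕ) : ℚ) *
        (((p ^ s : ℕ) : ℚ) / (((p ^ s : ℕ) : ℚ) + 1) * max (((p ^ s : ℕ) : ℚ) + 1) lN)) =
        κ * max (((p ^ s : ℕ) : ℚ) + 1) lN := by
      field_simp
    rw [e3] at e2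
    have e4 : (((p ^ s : ℕ) : ℤ) + 1) *
        ((Finset.univ.filter (fun r => fm M (f r) z ≠ 0)).card : ℤ) ≤
        κ * max (((p ^ s : ℕ) : ℤ) + 1) lN := by exact_mod_cast e2
    push_cast at e4 ⊢
    exact e4
  exact h3

open Classical in
/-- **The counting theorem.** -/
theorem lat_all {p s d lN : ℕ} (hp : p.Prime) (hs : 1 ≤ s) (hκ : 0 < κ)
    (h : FrD M f ((p ^ d : ℕ) : ℤ) κ (lN : ℤ))
    (hmin : ∀ i j k t, ((p ^ s : ℕ) : ℤ) ∣ M i j * M k t - M i t * M k j)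
    (hex : ∃ z : ι → ℤ, ¬ (p : ℤ) ∣ fm M z z) {N N' : ℤ}
    (hN : ∀ z : ι → ℤ, ¬ (p : ℤ) ∣ fm M z z → N ≤ cnt M f z)
    (hN' : ∀ z : ι → ℤ, ¬ (p : ℤ) ∣ fm M z z →
      N' ≤ ((Finset.univ.filter (fun r => ¬ (p : ℤ) ∣ fm M (f r) z)).card : ℤ)) :
    ((p : ℤ) ^ min s 2 * N + ((p : ℤ) ^ s + 1 - (p : ℤ) ^ min s 2) * N' ≤
        κ * max ((p : ℤ) ^ s + 1) lN ∧
      (p : ℤ) ^ s * N + N' ≤ κ * max ((p : ℤ) ^ s + 1) (lN + (p : ℤ) ^ (s - 2) - 1) ∧
      (p : ℤ) ^ s * N ≤ κ * max ((p : ℤ) ^ s) (lN + (p : ℤ) ^ (s - 2) - 1)) ∧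
      ((∃ z : ι → ℤ, ¬ (p : ℤ) ∣ fm M z z ∧ fm M z z < (p : ℤ) ^ s) →
        ((p : ℤ) ^ s + 1) * N ≤ κ * max ((p : ℤ) ^ s + 1) lN) := by
  have hp1 : (1 : ℤ) ≤ p := by exact_mod_cast hp.one_lt.le
  have hq : 0 < p ^ s := pow_pos hp.pos s
  have hqZ : (0 : ℤ) < (p : ℤ) ^ s := by positivity
  have hone : (1 : ℤ) ≤ (p : ℤ) ^ (s - 2) := one_le_pow₀ hp1
  refine ⟨⟨(lat_q hp hs hκ h hmin hex hN hN').1, ?_⟩, ?_⟩
  · -- the minimal vector
    have hexn : ∃ n : ℕ, ∃ z : ι → ℤ, ¬ (p : ℤ) ∣ fm M z z ∧ fm M z z = n := by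
      obtain ⟨z, hz⟩ := hex
      exact ⟨(fm M z z).toNat, z, hz, (Int.toNat_of_nonneg (h.nonneg z)).symm⟩
    set n := Nat.find hexn with hndef
    obtain ⟨z, hz, hzn⟩ := Nat.find_spec hexn
    rw [← hndef] at hzn
    have hleast : ∀ y : ι → ℤ, ¬ (p : ℤ) ∣ fm M y y → (n : ℤ) ≤ fm M y y := by
      intro y hy
      have h1 : n ≤ (fm M y y).toNat :=
        Nat.find_min' hexn ⟨y, hy, (Int.toNat_of_nonneg (h.nonneg y)).symm⟩
      have h2 := Int.toNat_of_nonneg (h.nonneg y)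
      omega
    have hNz := hN z hz
    have hN'z := hN' z hz
    have hcnt' : ((Finset.univ.filter (fun r => ¬ (p : ℤ) ∣ fm M (f r) z)).card : ℤ) ≤
        cnt M f z := by
      unfold cnt
      have : (Finset.univ.filter (fun r => ¬ (p : ℤ) ∣ fm M (f r) z)).card ≤
          (Finset.univ.filter (fun r => fm M (f r) z ≠ 0)).card := by
        apply Finset.card_le_card
        intro r hr
        rw [Finset.mem_filter] at hr ⊢
        refine ⟨hr.1, fun h0 => hr.2 ?_⟩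
        rw [h0]
        exact dvd_zero _
      exact_mod_cast this
    have hcnt0 : 0 ≤ cnt M f z := by
      unfold cnt
      positivity
    by_cases hlt : n < p ^ s
    · have h3 := lat_small hp hs hκ h hmin hz hzn hleast hlt
      have hmono : κ * max ((p : ℤ) ^ s + 1) lN ≤
          κ * max ((p : ℤ) ^ s + 1) (lN + (p : ℤ) ^ (s - 2) - 1) := by
        apply mul_le_mul_of_nonneg_left _ hκ.le
        exact max_le_max le_rfl (by linarith)
      have h4 := mul_le_mul_of_nonneg_left hNz hqZ.le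
      constructor
      · calc (p : ℤ) ^ s * N + N' ≤ (p : ℤ) ^ s * cnt M f z + cnt M f z := by linarith
          _ = ((p : ℤ) ^ s + 1) * cnt M f z := by ring
          _ ≤ _ := h3.trans hmono
      · set q0 : ℤ := (p : ℤ) ^ s + 1 with hq0
        have h5 : 0 < q0 := by linarith
        have h6 : q0 * ((p : ℤ) ^ s * N) ≤
            q0 * (κ * max ((p : ℤ) ^ s) (lN + (p : ℤ) ^ (s - 2) - 1)) := by
          calc q0 * ((p : ℤ) ^ s * N) ≤ q0 * ((p : ℤ) ^ s * cnt M f z) :=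
                mul_le_mul_of_nonneg_left h4 h5.le
            _ = (p : ℤ) ^ s * (q0 * cnt M f z) := by ring
            _ ≤ (p : ℤ) ^ s * (κ * max q0 lN) := mul_le_mul_of_nonneg_left h3 hqZ.le
            _ = κ * ((p : ℤ) ^ s * max q0 lN) := by ring
            _ ≤ κ * (q0 * max ((p : ℤ) ^ s) (lN + (p : ℤ) ^ (s - 2) - 1)) := by
                apply mul_le_mul_of_nonneg_left _ hκ.le
                rcases le_total (lN : ℤ) q0 with h7 | h7
                · rw [max_eq_left h7, mul_comm]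
                  exact mul_le_mul_of_nonneg_left (le_max_left _ _) h5.le
                · rw [max_eq_right h7]
                  calc (p : ℤ) ^ s * (lN : ℤ) ≤ q0 * lN :=
                        mul_le_mul_of_nonneg_right (by linarith) (by positivity)
                    _ ≤ q0 * max ((p : ℤ) ^ s) (lN + (p : ℤ) ^ (s - 2) - 1) :=
                        mul_le_mul_of_nonneg_left ((by linarith :
                          (lN : ℤ) ≤ lN + (p : ℤ) ^ (s - 2) - 1).trans (le_max_right _ _)) h5.le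
            _ = q0 * (κ * max ((p : ℤ) ^ s) (lN + (p : ℤ) ^ (s - 2) - 1)) := by ring
        exact le_of_mul_le_mul_left h6 h5
    · push Not at hlt
      have hne : n ≠ p ^ s := by
        intro h0
        apply hz
        rw [hzn, h0]
        push_cast
        exact dvd_pow_self _ (by omega)
      have hlt' : p ^ s + 1 ≤ n := by omega
      have hbig : ∀ y : ι → ℤ, ¬ (p : ℤ) ∣ fm M y y → ((p ^ s : ℕ) : ℤ) + 1 ≤ fm M y y := by
        intro y hy
        have h1 : (((p ^ s + 1 : ℕ)) : ℤ) ≤ n := by exact_mod_cast hlt'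
        push_cast at h1 ⊢
        exact h1.trans (hleast y hy)
      have hlow := lat_low hp hκ hs h hmin hz hbig
      push_cast at hlow
      have h4 := mul_le_mul_of_nonneg_left hNz hqZ.le
      constructor
      · calc (p : ℤ) ^ s * N + N' ≤ (p : ℤ) ^ s * cnt M f z +
              ((Finset.univ.filter (fun r => ¬ (p : ℤ) ∣ fm M (f r) z)).card : ℤ) := by linarith
          _ ≤ κ * (lN + (p : ℤ) ^ (s - 2) - 1) := hlow
          _ ≤ _ := mul_le_mul_of_nonneg_left (le_max_right _ _) hκ.le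
      · have e6 : (0 : ℤ) ≤ ((Finset.univ.filter
            (fun r => ¬ (p : ℤ) ∣ fm M (f r) z)).card : ℤ) := by positivity
        calc (p : ℤ) ^ s * N ≤ κ * (lN + (p : ℤ) ^ (s - 2) - 1) := by linarith
          _ ≤ _ := mul_le_mul_of_nonneg_left (le_max_right _ _) hκ.le
  · rintro ⟨z₀, hz₀, hz₀q⟩
    have hexn : ∃ n : ℕ, ∃ z : ι → ℤ, ¬ (p : ℤ) ∣ fm M z z ∧ fm M z z = n := by
      obtain ⟨z, hz⟩ := hex
      exact ⟨(fm M z z).toNat, z, hz, (Int.toNat_of_nonneg (h.nonneg z)).symm⟩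
    set n := Nat.find hexn with hndef
    obtain ⟨z, hz, hzn⟩ := Nat.find_spec hexn
    rw [← hndef] at hzn
    have hleast : ∀ y : ι → ℤ, ¬ (p : ℤ) ∣ fm M y y → (n : ℤ) ≤ fm M y y := by
      intro y hy
      have h1 : n ≤ (fm M y y).toNat :=
        Nat.find_min' hexn ⟨y, hy, (Int.toNat_of_nonneg (h.nonneg y)).symm⟩
      have h2 := Int.toNat_of_nonneg (h.nonneg y)
      omega
    have hlt : n < p ^ s := by
      have h1 := (hleast z₀ hz₀).trans_lt hz₀q
      exact_mod_cast h1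
    have h3 := lat_small hp hs hκ h hmin hz hzn hleast hlt
    have h4 := hN z hz
    calc ((p : ℤ) ^ s + 1) * N ≤ ((p : ℤ) ^ s + 1) * cnt M f z :=
          mul_le_mul_of_nonneg_left h4 (by linarith)
      _ ≤ _ := h3

end Pool.Agent.Zk65.SE
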