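import Mathlib
import Pool.Agent.Zk65.TB7

/-!
The counting theorem for integral matrices modulo two, with products of even vectors divisible by
four.
-/

set_option autoImplicit false

open scoped BigOperators

namespace Pool.Agent.Zk65.TB

variable {ι Q : Type*} [Fintype ι] [Fintype Q] {M : ι → ι → ℤ} {f : Q → ι → ℤ} {q κ l : ℤ}

lemma fm_cast {K : Type*} [Field K] (u s : ι → K) (hred : ∀ i j, (M i j : K) = u i * s j)
    (x y : ι → ℤ) : ((fm M x y : ℤ) : K) = (∑ i, (x i : K) * u i) * (∑ j, (y j : K) * s j) := by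
  unfold fm
  rw [Finset.sum_mul_sum]
  push_cast
  refine Finset.sum_congr rfl fun i _ => Finset.sum_congr rfl fun j _ => ?_
  rw [hred]
  ring

/-- **The counting theorem.** -/
theorem lat (h : FrD M f q κ l) {K : Type*} [Field K] [CharP K 2] (u s : ι → K)
    (hred : ∀ i j, (M i j : K) = u i * s j)
    (h4 : ∀ x y : ι → ℤ, ∑ i, (x i : K) * u i = 0 → ∑ i, (y i : K) * u i = 0 →
      (4 : ℤ) ∣ fm M x y)
    (hex : ∃ z : ι → ℤ, (∑ i, (z i : K) * u i) * (∑ j, (z j : K) * s j) ≠ 0)
    {N N' : ℤ}
    (hN : ∀ z : ι → ℤ, (∑ i, (z i : K) * u i) * (∑ j, (z j : K) * s j) ≠ 0 → N ≤ cnt M f z)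
    (hN' : ∀ z : ι → ℤ, (∑ i, (z i : K) * u i) * (∑ j, (z j : K) * s j) ≠ 0 →
      N' ≤ ((Finset.univ.filter (fun r => ¬ (2 : ℤ) ∣ fm M (f r) z)).card : ℤ)) :
    4 * N ≤ κ * max 4 l ∧ 4 * N + N' ≤ κ * max 5 l := by
  classical
  have hκ := h.κpos
  set U : (ι → ℤ) → K := fun x => ∑ i, (x i : K) * u i with hU
  set S : (ι → ℤ) → K := fun x => ∑ i, (x i : K) * s i with hS
  have hc : ∀ x y, ((fm M x y : ℤ) : K) = U x * S y := fm_cast u s hred
  have h2 : ∀ n : ℤ, ((n : ℤ) : K) = 0 ↔ (2 : ℤ) ∣ n := by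
    intro n
    have := CharP.intCast_eq_zero_iff K 2 n
    simpa using this
  have hcomm : ∀ x y, U x * S y = U y * S x := by
    intro x y
    rw [← hc, ← hc, fm_symm h.sym]
  obtain ⟨z₀, hz₀⟩ := hex
  change U z₀ * S z₀ ≠ 0 at hz₀
  have hUz₀ : U z₀ ≠ 0 := left_ne_zero_of_mul hz₀
  have hSz₀ : S z₀ ≠ 0 := right_ne_zero_of_mul hz₀
  have hSU : ∀ x, U x ≠ 0 → S x ≠ 0 := by
    intro x hx h0
    have h1 := hcomm x z₀
    rw [h0, mul_zero] at h1
    exact mul_ne_zero hx hSz₀ h1
  have hodd : ∀ x z, U z ≠ 0 → (U x ≠ 0 ↔ ¬ (2 : ℤ) ∣ fm M x z) := by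
    intro x z hz
    rw [← h2, hc]
    constructor
    · intro hx
      exact mul_ne_zero hx (hSU z hz)
    · intro hx
      exact left_ne_zero_of_mul hx
  have hone : ∀ n : ℤ, ((n : ℤ) : K) ≠ 0 → ((n : ℤ) : K) = 1 := by
    intro n hn
    rw [Ne, h2] at hn
    obtain ⟨c, hc⟩ : (2 : ℤ) ∣ n - 1 := by omega
    have h3 : (((n - 1 : ℤ)) : K) = 0 := by
      rw [h2]
      exact ⟨c, hc⟩
    push_cast at h3
    exact sub_eq_zero.mp h3
  have hUeq : ∀ x z, U x ≠ 0 → U z ≠ 0 → U x = U z := by
    intro x z hx hz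
    have e1 : U x * S z₀ = 1 := by
      rw [← hc]
      apply hone
      rw [hc]
      exact mul_ne_zero hx hSz₀
    have e2 : U z * S z₀ = 1 := by
      rw [← hc]
      apply hone
      rw [hc]
      exact mul_ne_zero hz hSz₀
    exact mul_right_cancel₀ hSz₀ (e1.trans e2.symm)
  have hUlin : ∀ (a b : ℤ) (x y : ι → ℤ), U (fun i => a * x i + b * y i) = a * U x + b * U y := by
    intro a b x y
    simp only [hU]
    rw [Finset.mul_sum, Finset.mul_sum, ← Finset.sum_add_distrib]
    refine Finset.sum_congr rfl fun i _ => ?_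
    push_cast
    ring
  have hunits : ∀ z, U z ≠ 0 → N' ≤ cnt M f z := by
    intro z hz
    refine (hN' z (mul_ne_zero hz (hSU z hz))).trans ?_
    unfold cnt
    have : (Finset.univ.filter (fun r => ¬ (2 : ℤ) ∣ fm M (f r) z)).card ≤
        (Finset.univ.filter (fun r => fm M (f r) z ≠ 0)).card := by
      apply Finset.card_le_card
      intro r hr
      rw [Finset.mem_filter] at hr ⊢
      refine ⟨hr.1, fun h0 => hr.2 ?_⟩
      rw [h0]
      exact dvd_zero _
    exact_mod_cast this
  by_cases h1 : ∃ z, U z ≠ 0 ∧ fm M z z = 1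
  · obtain ⟨z, hz, hz1⟩ := h1
    have e1 := case_one h hz1
    have e2 := hN z (mul_ne_zero hz (hSU z hz))
    have e3 := hunits z hz
    have e4 : κ * 4 ≤ κ * max 4 l := mul_le_mul_of_nonneg_left (le_max_left _ _) hκ
    have e5 : κ * 5 ≤ κ * max 5 l := mul_le_mul_of_nonneg_left (le_max_left _ _) hκ
    exact ⟨by linarith, by linarith⟩
  · by_cases h3 : ∃ z, U z ≠ 0 ∧ fm M z z = 3
    · obtain ⟨z, hz, hz3⟩ := h3
      have hG : ∀ x y, ∃ g : ℤ, 4 * g = 3 * fm M x y - fm M x z * fm M y z := by
        have key : ∀ x y, U x = 0 → U y = 0 →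
            ∃ g : ℤ, 4 * g = 3 * fm M x y - fm M x z * fm M y z := by
          intro x y hx hy
          obtain ⟨a, ha⟩ := h4 x y hx hy
          have hx' : (2 : ℤ) ∣ fm M x z := by
            by_contra hcon
            exact (hodd x z hz).mpr hcon hx
          have hy' : (2 : ℤ) ∣ fm M y z := by
            by_contra hcon
            exact (hodd y z hz).mpr hcon hy
          obtain ⟨b, hb⟩ := hx'
          obtain ⟨c, hc⟩ := hy'
          refine ⟨3 * a - b * c, ?_⟩
          rw [ha, hb, hc]
          ring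
        have hdec : ∀ x, ∃ (e : ℤ) (x' : ι → ℤ), U x' = 0 ∧ x = fun i => 1 * x' i + e * z i := by
          intro x
          by_cases hx : U x = 0
          · exact ⟨0, x, hx, by funext i; ring⟩
          · refine ⟨1, fun i => 1 * x i + (-1) * z i, ?_, by funext i; ring⟩
            rw [hUlin, hUeq x z hx hz]
            push_cast
            ring
        intro x y
        obtain ⟨e, x', hx', rfl⟩ := hdec x
        obtain ⟨e', y', hy', rfl⟩ := hdec y
        obtain ⟨g, hg⟩ := key x' y' hx' hy'
        refine ⟨g, ?_⟩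
        rw [hg, fm_comb_left, fm_comb_right h.sym, fm_comb_right h.sym, fm_comb_left, fm_comb_left,
          hz3, fm_symm h.sym z y']
        ring
      choose G hG using hG
      have e1 := case_three h hz3 hG
      have e2 := hN z (mul_ne_zero hz (hSU z hz))
      have e3 := hunits z hz
      refine ⟨?_, by linarith⟩
      rcases le_total l 5 with h5 | h5
      · rw [max_eq_left h5] at e1
        have e4 : κ * 4 ≤ κ * max 4 l := mul_le_mul_of_nonneg_left (le_max_left _ _) hκ
        linarith
      · rw [max_eq_right h5] at e1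
        have e4 : κ * l ≤ κ * max 4 l := mul_le_mul_of_nonneg_left (le_max_right _ _) hκ
        have e5 : 0 ≤ κ * l := mul_nonneg hκ (by linarith)
        linarith
    · -- all odd norms are at least five
      push Not at h1 h3
      have h5 : ∀ x, U x ≠ 0 → 5 ≤ fm M x x := by
        intro x hx
        have e1 := h1 x hx
        have e2 := h3 x hx
        have e3 := h.nonneg x
        have e4 := (hodd x x hx).mp hx
        omega
      have hsum : 4 * N + N' ≤ κ * l := by
        have e1 := hN z₀ hz₀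
        have e2 := hN' z₀ hz₀
        have e3 : 4 * cnt M f z₀ +
            ((Finset.univ.filter (fun r => ¬ (2 : ℤ) ∣ fm M (f r) z₀)).card : ℤ) ≤ κ * l := by
          rw [← h.trace]
          have e4 : ((Finset.univ.filter (fun r => ¬ (2 : ℤ) ∣ fm M (f r) z₀)).card : ℤ) =
              ∑ r, (if ¬ (2 : ℤ) ∣ fm M (f r) z₀ then 1 else 0) := by
            rw [Finset.sum_boole]
          have e5 : cnt M f z₀ = ∑ r, (if fm M (f r) z₀ ≠ 0 then 1 else 0) := by
            unfold cnt
            rw [Finset.sum_boole]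
          rw [e4, e5, Finset.mul_sum, ← Finset.sum_add_distrib]
          refine Finset.sum_le_sum fun r _ => ?_
          have e6 := h.nonneg (f r)
          by_cases h6 : U (f r) = 0
          · have h7 : (2 : ℤ) ∣ fm M (f r) z₀ := by
              by_contra hcon
              exact (hodd (f r) z₀ hUz₀).mpr hcon h6
            rw [if_neg (not_not.mpr h7)]
            by_cases h8 : fm M (f r) z₀ ≠ 0
            · rw [if_pos h8]
              have h9 := h.cs (f r) z₀ h8
              obtain ⟨c, hc⟩ := h4 (f r) (f r) h6 h6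
              omega
            · rw [if_neg h8]
              omega
          · have h7 := h5 (f r) h6
            split_ifs <;> omega
        linarith
      have e4 : κ * l ≤ κ * max 4 l := mul_le_mul_of_nonneg_left (le_max_right _ _) hκ
      have e5 : κ * l ≤ κ * max 5 l := mul_le_mul_of_nonneg_left (le_max_right _ _) hκ
      refine ⟨?_, by linarith⟩
      -- the first inequality
      have e6 : (0 : ℤ) ≤ ((Finset.univ.filter
          (fun r => ¬ (2 : ℤ) ∣ fm M (f r) z₀)).card : ℤ) := by positivity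
      have e7 : 4 * cnt M f z₀ ≤ κ * l := by
        rw [← h.trace]
        refine cnt_le z₀ 4 _ (fun r => h.nonneg (f r)) ?_
        intro r hr
        by_cases h6 : U (f r) = 0
        · have h9 := h.cs (f r) z₀ hr
          obtain ⟨c, hc⟩ := h4 (f r) (f r) h6 h6
          omega
        · have h7 := h5 (f r) h6
          omega
      have e8 := hN z₀ hz₀
      linarith

end Pool.Agent.Zk65.TB
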