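import Mathlib
import Pool.Agent.N20.Sub5

/-!
Values of characters at `p`-regular elements lie in rings in which `p` is unramified.
-/

set_option autoImplicit false
set_option linter.style.haveILetI false
set_option linter.unusedSectionVars false

open scoped BigOperators Classical
open Pool.Agent.Helper884 Pool.Agent.H254R3.IN Pool.Agent.N20

noncomputable section

namespace Pool.Agent.Zk65.TB

/-- the ring generated by the `m`-th roots of unity -/
def Rm (m : ℕ) : Subring ℂ := Subring.closure {z : ℂ | z ^ m = 1}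

lemma Rm_frob {p : ℕ} [hp : Fact p.Prime] {m f : ℕ} (hf : p ^ f ≡ 1 [MOD m]) (z : ℂ)
    (hz : z ∈ Rm m) : ∃ w : Rm m, (⟨z, hz⟩ : Rm m) ^ p ^ f = ⟨z, hz⟩ + p * w := by
  have hneg : ∃ w : Rm m, (-1 : Rm m) ^ p ^ f = -1 + p * w := by
    rcases hp.out.eq_two_or_odd' with h2 | hodd
    · rcases f with _ | f
      · exact ⟨0, by simp⟩
      · refine ⟨1, ?_⟩
        rw [Even.neg_one_pow]
        · rw [h2]; push_cast; ring
        · rw [h2, pow_succ]; exact even_two.mul_left _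
    · exact ⟨0, by rw [(hodd.pow).neg_one_pow]; ring⟩
  have hmul : ∀ a b : Rm m, (∃ w : Rm m, a ^ p ^ f = a + p * w) →
      (∃ w : Rm m, b ^ p ^ f = b + p * w) → ∃ w : Rm m, (a * b) ^ p ^ f = a * b + p * w := by
    rintro a b ⟨w, hw⟩ ⟨w', hw'⟩
    refine ⟨a * w' + b * w + p * (w * w'), ?_⟩
    rw [mul_pow, hw, hw']
    ring
  induction hz using Subring.closure_induction with
  | mem x hx =>
    refine ⟨0, Subtype.ext ?_⟩
    change x ^ p ^ f = x + ((p : Rm m) : ℂ) * ((0 : Rm m) : ℂ)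
    have h1 : 1 ≤ p ^ f := Nat.one_le_pow _ _ hp.out.pos
    obtain ⟨c, hc⟩ : ∃ c, p ^ f = 1 + m * c := by
      obtain ⟨c, hc⟩ := (Nat.modEq_iff_dvd' h1).mp hf.symm
      exact ⟨c, by omega⟩
    have hx' : x ^ m = 1 := hx
    rw [hc, pow_add, pow_mul, hx', one_pow, pow_one]
    simp
  | zero =>
    refine ⟨0, Subtype.ext ?_⟩
    change (0 : ℂ) ^ p ^ f = 0 + ((p : Rm m) : ℂ) * ((0 : Rm m) : ℂ)
    rw [zero_pow (pow_ne_zero _ hp.out.ne_zero)]
    simp
  | one =>
    refine ⟨0, Subtype.ext ?_⟩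
    change (1 : ℂ) ^ p ^ f = 1 + ((p : Rm m) : ℂ) * ((0 : Rm m) : ℂ)
    simp
  | add x y hx hy ihx ihy =>
    obtain ⟨w, hw⟩ := ihx
    obtain ⟨w', hw'⟩ := ihy
    obtain ⟨r, hr⟩ := exists_add_pow_prime_pow_eq hp.out (⟨x, hx⟩ : Rm m) ⟨y, hy⟩ f
    refine ⟨w + w' + ⟨x, hx⟩ * ⟨y, hy⟩ * r, ?_⟩
    have e : (⟨x + y, Subring.add_mem _ hx hy⟩ : Rm m) = ⟨x, hx⟩ + ⟨y, hy⟩ := rfl
    rw [e, hr, hw, hw']
    ring
  | neg x hx ihx =>
    have e : (⟨-x, Subring.neg_mem _ hx⟩ : Rm m) = (-1) * ⟨x, hx⟩ := by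
      apply Subtype.ext
      change -x = ((-1 : Rm m) : ℂ) * x
      simp
    rw [e]
    exact hmul _ _ hneg ihx
  | mul x y hx hy ihx ihy => exact hmul ⟨x, hx⟩ ⟨y, hy⟩ ihx ihy

lemma Rm_le {O : ValuationSubring ℂ} {m : ℕ} (hm : m ≠ 0) {z : ℂ} (hz : z ∈ Rm m) : z ∈ O := by
  have h1 : Rm m ≤ O.toSubring := by
    unfold Rm
    rw [Subring.closure_le]
    intro x hx
    exact Pool.Agent.Y62.root_mem hm hx
  exact h1 hz

/-- **`p` is unramified.** -/
lemma unram {O : ValuationSubring ℂ} {p : ℕ} [hp : Fact p.Prime] (hpO : (p : ℂ) ∈ O.nonunits)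
    {m : ℕ} (hm0 : m ≠ 0) (hm : ¬ p ∣ m) (a : ℕ) :
    ∀ z ∈ Rm m, z / (p : ℂ) ^ a ∈ O.nonunits → z / (p : ℂ) ^ (a + 1) ∈ O := by
  have hp0 : (p : ℂ) ≠ 0 := by exact_mod_cast hp.out.ne_zero
  have hcop : Nat.Coprime p m := (Nat.Prime.coprime_iff_not_dvd hp.out).mpr hm
  set f := Nat.totient m with hf
  have hf0 : 0 < f := Nat.totient_pos.mpr (Nat.pos_of_ne_zero hm0)
  have hmod : p ^ f ≡ 1 [MOD m] := Nat.ModEq.pow_totient hcop
  have hN : 1 < p ^ f := Nat.one_lt_pow hf0.ne' hp.out.one_lt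
  -- the basic step
  have step : ∀ z ∈ Rm m, z ∈ O.nonunits → ∃ w ∈ Rm m, ∃ e : ℂ, e ∈ O ∧ e⁻¹ ∈ O ∧ e ≠ 0 ∧
      z * e = p * w := by
    intro z hz hzn
    obtain ⟨w, hw⟩ := Rm_frob hmod z hz
    have hw' : z ^ p ^ f = z + p * (w : ℂ) := by
      have := congrArg (fun q : Rm m => (q : ℂ)) hw
      simpa using this
    have hzO := nonunits_mem hzn
    refine ⟨w, w.2, z ^ (p ^ f - 1) - 1, ?_⟩
    have hpowm : z ^ (p ^ f - 1) ∈ O := pow_mem hzO _
    have hered : red O (z ^ (p ^ f - 1) - 1) ≠ 0 := by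
      rw [red_sub hpowm O.one_mem, Pool.Agent.Y62.red_pow hzO, red_eq_zero hzn, red_one,
        zero_pow (by omega)]
      simp
    obtain ⟨h1, h2, h3⟩ := inv_mem_of_red_ne hered
    refine ⟨h1, h2, h3, ?_⟩
    have h4 : z * z ^ (p ^ f - 1) = z ^ p ^ f := by
      rw [← pow_succ']
      congr 1
      omega
    rw [mul_sub, h4, hw']
    ring
  induction a with
  | zero =>
    intro z hz h
    rw [pow_zero, div_one] at h
    obtain ⟨w, hw, e, h1, h2, h3, h4⟩ := step z hz h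
    have h5 : z / (p : ℂ) ^ (0 + 1) = w * e⁻¹ := by
      rw [zero_add, pow_one, div_eq_iff hp0]
      field_simp
      rw [h4]
      ring
    rw [h5]
    exact O.mul_mem _ _ (Rm_le hm0 hw) h2
  | succ a ih =>
    intro z hz h
    have hpm : (p : ℂ) ^ (a + 1) ∈ O := pow_mem (natCast_mem' p) _
    have hzn : z ∈ O.nonunits := by
      have hzO : z ∈ O := by
        have h1 : z = z / (p : ℂ) ^ (a + 1) * (p : ℂ) ^ (a + 1) := by field_simp
        rw [h1]
        exact O.mul_mem _ _ (nonunits_mem h) hpm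
      rw [← red_eq_zero_iff hzO]
      have h1 : z = z / (p : ℂ) ^ (a + 1) * (p : ℂ) ^ (a + 1) := by field_simp
      rw [h1, red_mul (nonunits_mem h) hpm, red_eq_zero h, zero_mul]
    obtain ⟨w, hw, e, h1, h2, h3, h4⟩ := step z hz hzn
    have h5 : w / (p : ℂ) ^ a = z / (p : ℂ) ^ (a + 1) * e := by
      rw [pow_succ]
      field_simp
      rw [h4, mul_comm]
    have h6 : w / (p : ℂ) ^ a ∈ O.nonunits := by
      rw [h5, ← red_eq_zero_iff (O.mul_mem _ _ (nonunits_mem h) h1),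
        red_mul (nonunits_mem h) h1, red_eq_zero h, zero_mul]
    have h7 := ih w hw h6
    have h8 : z / (p : ℂ) ^ (a + 1 + 1) = w / (p : ℂ) ^ (a + 1) * e⁻¹ := by
      rw [pow_succ (p : ℂ) (a + 1)]
      field_simp
      rw [h4]
    rw [h8]
    exact O.mul_mem _ _ h7 h2

lemma val_Rm {G : Type} [Group G] [Finite G] {χ : G → ℂ} (h : IsIrr χ) {g : G} {m : ℕ}
    (hg : g ^ m = 1) : χ g ∈ Rm m := by
  obtain ⟨V, _, _, _, ρ, hr, rfl⟩ := h
  unfold Representation.character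
  rw [Module.End.trace_eq_sum_roots_charpoly_of_splits (IsAlgClosed.splits _)]
  have key : ∀ μ ∈ (LinearMap.charpoly (ρ g)).roots, μ ∈ Rm m := by
    intro μ hμ
    have h1 : (LinearMap.charpoly (ρ g)).IsRoot μ := (Polynomial.mem_roots'.mp hμ).2
    have h2 := (Module.End.hasEigenvalue_iff_isRoot_charpoly (ρ g) μ).mpr h1
    obtain ⟨v, hv⟩ := h2.exists_hasEigenvector
    have h3 : ∀ n : ℕ, ((ρ g) ^ n) v = μ ^ n • v := fun n => by
      induction n with
      | zero => simp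
      | succ n ih =>
        rw [pow_succ', Module.End.mul_apply, ih, map_smul, hv.apply_eq_smul, smul_smul, pow_succ]
    have h4 := h3 m
    rw [← map_pow, hg, map_one, Module.End.one_apply] at h4
    have h5 : μ ^ m = 1 := by
      have h6 : (μ ^ m - 1) • v = 0 := by
        rw [sub_smul, one_smul, ← h4, sub_self]
      rcases smul_eq_zero.mp h6 with h7 | h7
      · exact sub_eq_zero.mp h7
      · exact absurd h7 hv.2
    exact Subring.subset_closure h5
  generalize (LinearMap.charpoly (ρ g)).roots = s at key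
  induction s using Multiset.induction_on with
  | empty => simp
  | cons a s ih =>
    rw [Multiset.sum_cons]
    exact (Rm m).add_mem (key a (Multiset.mem_cons_self a s))
      (ih (fun μ hμ => key μ (Multiset.mem_cons_of_mem hμ)))

end Pool.Agent.Zk65.TB
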