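import Mathlib
import Pool.Agent.Zk65.TB1

/-!
The Brauer map with respect to a `p`-subgroup and blocks of its centralizer.
-/

set_option autoImplicit false
set_option linter.style.haveILetI false
set_option linter.unusedSectionVars false

open scoped BigOperators Classical
open Pool.Agent.Helper884 Pool.Agent.H254R3.IN Pool.Agent.N20

noncomputable section

namespace Pool.Agent.Zk65.TB

variable {G : Type} [Group G] [Fintype G] {O : ValuationSubring ℂ}

/-- the centralizer of a subgroup -/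
abbrev CR (R : Subgroup G) : Subgroup G := Subgroup.centralizer (R : Set G)

lemma mem_CR {R : Subgroup G} {g : G} : g ∈ CR R ↔ ∀ r ∈ R, r * g = g * r := by
  rw [Subgroup.mem_centralizer_iff]
  rfl

lemma fixed_sum {p : ℕ} [hp : Fact p.Prime] (hpO : (p : ℂ) ∈ O.nonunits) {R : Subgroup G}
    (hR : IsPGroup p R) (F : G → RF O) (hF : ∀ r ∈ R, ∀ x, F (r * x * r⁻¹) = F x) :
    ∑ x, F x = ∑ c : CR R, F c := by
  haveI := charP_RF hpO
  letI : MulAction R G := MulAction.compHom G ((MulAut.conj : G →* MulAut G).comp R.subtype)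
  have h3 := sum_fixed hR (X := G) (F := RF O)
    (fun a => by rw [← Nat.cast_smul_eq_nsmul (RF O), CharP.cast_eq_zero, zero_smul]) F (by
      intro d k
      have e1 : d • k = (d : G) * k * (d : G)⁻¹ := rfl
      rw [e1]
      exact hF d d.2 k)
  rw [h3]
  refine Finset.sum_subtype _ (fun x => ?_) F
  simp only [Finset.mem_filter, Finset.mem_univ, true_and, mem_CR]
  constructor
  · intro h r hr
    have h5 : r * x * r⁻¹ = x := h ⟨r, hr⟩
    have h6 := congrArg (· * r) h5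
    simpa [mul_assoc] using h6
  · intro h d
    change (d : G) * x * (d : G)⁻¹ = x
    rw [h d d.2, mul_inv_cancel_right]

lemma Om_mem {χ : G → ℂ} (hχ : IsIrr χ) {f : G → ℂ} (hf : IsCl f) (hfO : ∀ g, f g ∈ O) :
    Om f χ ∈ O := by
  have h1 : Om f χ = ∑ K : ConjClasses G, f (rep K) * omega χ (rep K) := by
    unfold Om
    rw [sum_classes, Finset.sum_div]
    refine Finset.sum_congr rfl fun K _ => ?_
    have h2 : ∀ g ∈ Finset.univ.filter (fun g => IsConj (rep K) g),
        f g * χ g = f (rep K) * χ (rep K) := by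
      intro g hg
      have hc := (Finset.mem_filter.mp hg).2
      rw [hf.isConj hc, hχ.isConj hc]
    rw [Finset.sum_congr rfl h2, Finset.sum_const, nsmul_eq_mul]
    have h3 : (Finset.univ.filter (fun g => IsConj (rep K) g)).card =
        Nat.card {y : G // IsConj (rep K) y} := by
      rw [Nat.card_eq_fintype_card, Fintype.card_subtype]
    rw [h3]
    unfold omega
    ring
  rw [h1]
  exact sum_mem fun K _ => O.mul_mem _ _ (hfO _) (hχ.omega_mem O _)

lemma red_Om_congr {χ : G → ℂ} (hχ : IsIrr χ) {f h : G → ℂ} (hf : IsCl f) (hh : IsCl h)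
    (hfO : ∀ g, f g ∈ O) (hhO : ∀ g, h g ∈ O) (H : ∀ g, red O (f g) = red O (h g)) :
    red O (Om f χ) = red O (Om h χ) := by
  rw [Pool.Agent.N20.red_Om hχ hf hfO, Pool.Agent.N20.red_Om hχ hh hhO]
  exact Finset.sum_congr rfl fun K _ => by rw [H]

lemma red_Om_block {B : Set (G → ℂ)} (hB : IsBlock O B) {χ ψ : G → ℂ} (hχ : χ ∈ B) (hψ : ψ ∈ B)
    {f : G → ℂ} (hf : IsCl f) (hfO : ∀ g, f g ∈ O) : red O (Om f χ) = red O (Om f ψ) := by
  rw [Pool.Agent.N20.red_Om (hB.irr χ hχ) hf hfO, Pool.Agent.N20.red_Om (hB.irr ψ hψ) hf hfO]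
  exact Finset.sum_congr rfl fun K _ => by rw [hB.red_eq hχ hψ]

lemma res_cl' {R : Subgroup G} {f : G → ℂ} (hf : IsCl f) : IsCl (fun x : CR R => f x) := by
  intro g y
  exact hf (g : G) (y : G)

section br

variable {p : ℕ} [hp : Fact p.Prime] (hpO : (p : ℂ) ∈ O.nonunits) {R : Subgroup G}
  (hR : IsPGroup p R)

include hpO hR in
lemma conv_res {f h : G → ℂ} (hf : IsCl f) (hh : IsCl h) (hfO : ∀ g, f g ∈ O)
    (hhO : ∀ g, h g ∈ O) (c : CR R) :
    red O (conv f h c) = red O (conv (fun x : CR R => f x) (fun x : CR R => h x) c) := by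
  unfold conv
  rw [red_sum _ _ (fun x _ => O.mul_mem _ _ (hfO x) (hhO _)),
    red_sum _ _ (fun x _ => O.mul_mem _ _ (hfO _) (hhO _))]
  refine fixed_sum hpO hR (fun x => red O (f x * h (x⁻¹ * (c : G)))) ?_
  intro r hr x
  have e1 : (r * x * r⁻¹)⁻¹ * (c : G) = r * (x⁻¹ * (c : G)) * r⁻¹ := by
    have h1 : r⁻¹ * (c : G) = c * r⁻¹ := mem_CR.mp c.2 r⁻¹ (R.inv_mem hr)
    calc (r * x * r⁻¹)⁻¹ * (c : G) = r * x⁻¹ * (r⁻¹ * (c : G)) := by group
      _ = _ := by rw [h1]; group
  rw [hf, e1, hh]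

/-- the central character of `R`-invariants given by a character of the centralizer -/
def lam (O : ValuationSubring ℂ) (R : Subgroup G) (θ : CR R → ℂ) (f : G → ℂ) : RF O :=
  red O (Om (fun x : CR R => f x) θ)

include hpO hR in
lemma lam_conv {θ : CR R → ℂ} (hθ : IsIrr θ) {f h : G → ℂ} (hf : IsCl f) (hh : IsCl h)
    (hfO : ∀ g, f g ∈ O) (hhO : ∀ g, h g ∈ O) :
    lam O R θ (conv f h) = lam O R θ f * lam O R θ h := by
  unfold lam
  rw [← red_mul (Om_mem hθ (res_cl' hf) (fun g => hfO g)) (Om_mem hθ (res_cl' hh) (fun g => hhO g)),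
    ← Om_conv hθ (res_cl' hf) (res_cl' hh)]
  exact red_Om_congr hθ (res_cl' (hf.conv hh)) ((res_cl' hf).conv (res_cl' hh))
    (fun g => conv_mem hfO hhO _)
    (fun g => conv_mem (f := fun x : CR R => f x) (h := fun x : CR R => h x) (fun x => hfO x)
      (fun x => hhO x) g)
    (fun g => conv_res hpO hR hf hh hfO hhO g)

lemma lam_dl {θ : CR R → ℂ} (hθ : IsIrr θ) : lam O R θ dl = 1 := by
  unfold lam
  have h1 : (fun x : CR R => (dl (x : G) : ℂ)) = dl := by
    funext x
    unfold dl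
    by_cases h : x = 1
    · rw [if_pos h, if_pos (by rw [h]; rfl)]
    · have h2 : ¬ (x : G) = 1 := fun h' => h (Subtype.ext h')
      rw [if_neg h, if_neg h2]
  rw [h1, Om_dl hθ, red_one]

lemma lam_sub {θ : CR R → ℂ} (hθ : IsIrr θ) {f h : G → ℂ} (hf : IsCl f) (hh : IsCl h)
    (hfO : ∀ g, f g ∈ O) (hhO : ∀ g, h g ∈ O) :
    lam O R θ (fun g => f g - h g) = lam O R θ f - lam O R θ h := by
  unfold lam
  rw [← red_sub (Om_mem hθ (res_cl' hf) (fun g => hfO g))
    (Om_mem hθ (res_cl' hh) (fun g => hhO g)), ← Om_sub]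

lemma lam_smul {θ : CR R → ℂ} (hθ : IsIrr θ) {f : G → ℂ} (hf : IsCl f)
    (hfO : ∀ g, f g ∈ O) {c : ℂ} (hc : c ∈ O) :
    lam O R θ (fun g => c * f g) = red O c * lam O R θ f := by
  unfold lam
  rw [← red_mul hc (Om_mem hθ (res_cl' hf) (fun g => hfO g)), ← Om_smul]

include hpO hR in
/-- **The central character is that of the block.** -/
theorem lam_eq {b : Set (G → ℂ)} (hb : IsBlock O b) {θ : CR R → ℂ} (hθ : IsIrr θ)
    (hne : lam O R θ (blockCoeff b) ≠ 0) {χ : G → ℂ} (hχ : χ ∈ b) {f : G → ℂ} (hf : IsCl f)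
    (hfO : ∀ g, f g ∈ O) : lam O R θ f = red O (Om f χ) := by
  have hχi := hb.irr χ hχ
  set c := Om f χ with hc
  have hcO : c ∈ O := Om_mem hχi hf hfO
  have hcdl : IsCl (fun g : G => c * dl g) := fun g y => by
    change c * dl (y * g * y⁻¹) = c * dl g
    rw [dl_cl g y]
  have hcdlO : ∀ g : G, c * dl g ∈ O := fun g => O.mul_mem _ _ hcO (dl_mem O g)
  set f' : G → ℂ := fun g => f g - c * dl g with hf'
  have hf'c : IsCl f' := fun g y => by
    change f (y * g * y⁻¹) - c * dl (y * g * y⁻¹) = f g - c * dl g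
    rw [hf g y, dl_cl g y]
  have hf'O : ∀ g, f' g ∈ O := fun g => sub_mem' (hfO g) (hcdlO g)
  have hlamf' : lam O R θ f' = lam O R θ f - red O c := by
    rw [hf', lam_sub hθ hf hcdl hfO hcdlO, lam_smul hθ dl_cl (dl_mem O) hcO, lam_dl hθ, mul_one]
  have hOmf' : ∀ ψ ∈ b, red O (Om f' ψ) = 0 := by
    intro ψ hψ
    have hψi := hb.irr ψ hψ
    rw [hf', Om_sub, Om_smul, Om_dl hψi, mul_one, red_sub (Om_mem hψi hf hfO) hcO, hc,
      red_Om_block hb hψ hχ hf hfO, sub_self]
  have key : ∀ T : Finset (G → ℂ), (∀ ψ ∈ T, ψ ∈ b) → ∃ h : G → ℂ, IsCl h ∧ (∀ g, h g ∈ O) ∧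
      (∀ ψ ∈ T, Om h ψ = 0) ∧ lam O R θ h = lam O R θ f' ^ T.card := by
    intro T
    induction T using Finset.induction_on with
    | empty =>
      intro _
      exact ⟨dl, dl_cl, dl_mem O, by simp, by rw [lam_dl hθ]; simp⟩
    | insert a s ha ih =>
      intro hT
      obtain ⟨h, h1, h2, h3, h4⟩ := ih fun ψ hψ => hT ψ (Finset.mem_insert_of_mem hψ)
      have hab := hT a (Finset.mem_insert_self a s)
      have hai := hb.irr a hab
      set c' := Om f' a with hc'
      have hc'O : c' ∈ O := Om_mem hai hf'c hf'O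
      have hd : IsCl (fun g : G => c' * dl g) := fun g y => by
        change c' * dl (y * g * y⁻¹) = c' * dl g
        rw [dl_cl g y]
      have hdO : ∀ g : G, c' * dl g ∈ O := fun g => O.mul_mem _ _ hc'O (dl_mem O g)
      set f'' : G → ℂ := fun g => f' g - c' * dl g with hf''
      have hf''c : IsCl f'' := fun g y => by
        change f' (y * g * y⁻¹) - c' * dl (y * g * y⁻¹) = f' g - c' * dl g
        rw [hf'c g y, dl_cl g y]
      have hf''O : ∀ g, f'' g ∈ O := fun g => sub_mem' (hf'O g) (hdO g)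
      refine ⟨conv h f'', h1.conv hf''c, conv_mem h2 hf''O, ?_, ?_⟩
      · intro ψ hψ
        have hψb := hT ψ hψ
        have hψi := hb.irr ψ hψb
        rw [Om_conv hψi h1 hf''c, hf'', Om_sub, Om_smul, Om_dl hψi]
        rcases Finset.mem_insert.mp hψ with rfl | hψ'
        · rw [mul_one, sub_self, mul_zero]
        · rw [h3 ψ hψ', zero_mul]
      · rw [lam_conv hpO hR hθ h1 hf''c h2 hf''O, h4, Finset.card_insert_of_notMem ha, pow_succ]
        congr 1
        rw [hf'', lam_sub hθ hf'c hd hf'O hdO, lam_smul hθ dl_cl (dl_mem O) hc'O, hc',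
          hOmf' a hab, zero_mul, sub_zero]
  obtain ⟨h, h1, h2, h3, h4⟩ := key (XB b) (fun ψ hψ => (mem_XB hb.irr).mp hψ)
  have h5 : conv h (blockCoeff b) = fun _ => 0 := by
    apply eq_of_Om (h1.conv (blockCoeff_cl hb.irr)) (fun _ _ => rfl)
    intro ψ hψ
    rw [Om_conv hψ h1 (blockCoeff_cl hb.irr), Om_blockCoeff hb.irr hψ]
    have h6 : Om (fun _ : G => (0 : ℂ)) ψ = 0 := by
      unfold Om
      simp
    rw [h6]
    split_ifs with h7
    · rw [h3 ψ ((mem_XB hb.irr).mpr h7), zero_mul]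
    · rw [mul_zero]
  have h6 := lam_conv hpO hR hθ h1 (blockCoeff_cl hb.irr) h2 (blockCoeff_mem hb)
  rw [h5] at h6
  have h7 : lam O R θ (fun _ : G => (0 : ℂ)) = 0 := by
    unfold lam Om
    simp [red_zero]
  rw [h7, h4] at h6
  have h8 := (mul_eq_zero.mp h6.symm).resolve_right hne
  have h9 : lam O R θ f' = 0 := by by_contra hne0; exact pow_ne_zero _ hne0 h8
  rw [hlamf'] at h9
  exact sub_eq_zero.mp h9

end br

end Pool.Agent.Zk65.TB
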