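import Mathlib
import Pool.Agent.Zk65.TB2

/-!
Restriction of a block to the centralizer of a `p`-subgroup.
-/

set_option autoImplicit false
set_option linter.style.haveILetI false
set_option linter.unusedSectionVars false

open scoped BigOperators Classical
open Pool.Agent.Helper884 Pool.Agent.H254R3.IN Pool.Agent.N20

noncomputable section

namespace Pool.Agent.Zk65.TB

variable {G : Type} [Group G] [Fintype G] {O : ValuationSubring ℂ}

/-- multiplicities in the restriction to the centralizer -/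
def mr (R : Subgroup G) (χ : G → ℂ) (θ : CR R → ℂ) : ℂ := IC.B (fun h : CR R => χ h) θ

lemma mr_int (R : Subgroup G) {χ : G → ℂ} (hχ : IsIrr χ) {θ : CR R → ℂ} (hθ : IsIrr θ) :
    ∃ n : ℤ, (n : ℂ) = mr R χ θ := by
  obtain ⟨n, hn⟩ := Pool.Agent.R389.Virt.pr_int' ((virt_of_irr hχ).comp (CR R).subtype)
    (virt_of_irr hθ)
  refine ⟨n, ?_⟩
  rw [← hn, Pool.Agent.W446.AS.pr_eq]
  rfl

lemma val_mr (R : Subgroup G) {χ : G → ℂ} (hχ : IsIrr χ) (h : CR R) :
    χ h = ∑ θ ∈ IC.Irr (CR R), mr R χ θ * θ h := by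
  have hcl : IsCl χ := fun g y => hχ.conj g y
  have h1 := congrFun (IC.expand (fun h : CR R => χ h) (res_cl' hcl)) h
  simp only [Finset.sum_apply, Pi.smul_apply, smul_eq_mul] at h1
  exact h1

lemma mr_mem (R : Subgroup G) {χ : G → ℂ} (hχ : IsIrr χ) {θ : CR R → ℂ} (hθ : IsIrr θ) :
    mr R χ θ ∈ O := by
  obtain ⟨n, hn⟩ := mr_int R hχ hθ
  rw [← hn]
  exact intCast_mem' n

section br

variable {p : ℕ} [hp : Fact p.Prime] (hpO : (p : ℂ) ∈ O.nonunits) {R : Subgroup G}
  (hR : IsPGroup p R)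

include hpO hR in
/-- the value on an element of the centralizer modulo the maximal ideal -/
lemma res_expand {b : Set (G → ℂ)} (hb : IsBlock O b) {χ : G → ℂ} (hχ : χ ∈ b) (g : CR R) :
    red O (χ g) = ∑ θ ∈ IC.Irr (CR R), red O (mr R χ θ) * (lam O R θ (blockCoeff b) *
      red O (θ g)) := by
  have hχi := hb.irr χ hχ
  have hcl := blockCoeff_cl hb.irr
  have hbO := blockCoeff_mem hb
  have h1 : χ (g : G) = ∑ y, blockCoeff b y * χ ((g : G) * y) := by
    rw [sum_mul_char hχi hcl, Om_blockCoeff hb.irr hχi, if_pos hχ, one_mul]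
  have hm : ∀ y : G, blockCoeff b y * χ ((g : G) * y) ∈ O :=
    fun y => O.mul_mem _ _ (hbO y) (hχi.val_mem O _)
  rw [h1, red_sum _ _ (fun y _ => hm y),
    fixed_sum hpO hR (fun y => red O (blockCoeff b y * χ ((g : G) * y))) (by
      intro r hr x
      have e1 : (g : G) * (r * x * r⁻¹) = r * ((g : G) * x) * r⁻¹ := by
        have h2 : r * (g : G) = g * r := mem_CR.mp g.2 r hr
        calc (g : G) * (r * x * r⁻¹) = ((g : G) * r) * x * r⁻¹ := by group
          _ = _ := by rw [← h2]; group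
      rw [hcl, e1, hχi.conj]), ← red_sum _ _ (fun y _ => hm _)]
  have hcl' : IsCl (fun x : CR R => blockCoeff b x) := res_cl' hcl
  have h2 : ∑ c : CR R, blockCoeff b (c : G) * χ ((g : G) * (c : G)) =
      ∑ θ ∈ IC.Irr (CR R), mr R χ θ * (Om (fun x : CR R => blockCoeff b x) θ * θ g) := by
    have h3 : ∀ c : CR R, blockCoeff b (c : G) * χ ((g : G) * (c : G)) =
        ∑ θ ∈ IC.Irr (CR R), mr R χ θ * (blockCoeff b (c : G) * θ (g * c)) := by
      intro c
      have h4 := val_mr R hχi (g * c)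
      have e2 : ((g * c : CR R) : G) = (g : G) * (c : G) := rfl
      rw [e2] at h4
      rw [h4, Finset.mul_sum]
      exact Finset.sum_congr rfl fun θ _ => by ring
    rw [Finset.sum_congr rfl (fun c _ => h3 c), Finset.sum_comm]
    refine Finset.sum_congr rfl fun θ hθ => ?_
    rw [← Finset.mul_sum]
    congr 1
    exact sum_mul_char (mem_Irr.mp hθ) hcl' g
  rw [h2, red_sum]
  · refine Finset.sum_congr rfl fun θ hθ => ?_
    have hθi := mem_Irr.mp hθ
    have hOm := Om_mem hθi hcl' (fun x => hbO (x : G))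
    rw [red_mul (mr_mem R hχi hθi) (O.mul_mem _ _ hOm (hθi.val_mem O _)),
      red_mul hOm (hθi.val_mem O _)]
    rfl
  · intro θ hθ
    have hθi := mem_Irr.mp hθ
    exact O.mul_mem _ _ (mr_mem R hχi hθi)
      (O.mul_mem _ _ (Om_mem hθi hcl' (fun x => hbO (x : G))) (hθi.val_mem O _))

include hpO hR in
/-- the central characters of the block are induced -/
lemma induced {b : Set (G → ℂ)} (hb : IsBlock O b) {θ : CR R → ℂ} (hθ : IsIrr θ)
    (hne : lam O R θ (blockCoeff b) ≠ 0) {χ : G → ℂ} (hχ : χ ∈ b) (x : G) :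
    red O (omega χ x) = ∑ L : ConjClasses (CR R),
      if IsConj x ((rep L : CR R) : G) then red O (omega θ (rep L)) else 0 := by
  have hχi := hb.irr χ hχ
  rw [← Om_ind hχi x, ← lam_eq hpO hR hb hθ hne hχ (ind_cl x) (ind_mem O x)]
  unfold lam
  rw [Pool.Agent.N20.red_Om hθ (res_cl' (ind_cl x)) (fun g => ind_mem O x g)]
  refine Finset.sum_congr rfl fun L _ => ?_
  unfold ind
  split_ifs with h
  · rw [red_one, one_mul]
  · rw [red_zero, zero_mul]

/-- the invariant `cc` depends on the block only -/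
lemma ccG_block {D : Subgroup G} {B : Set (G → ℂ)} (hB : IsBlock O B) {χ ψ : G → ℂ} (hχ : χ ∈ B)
    (hψ : ψ ∈ B) : ccG O p D χ = ccG O p D ψ := by
  unfold ccG
  refine Finset.sum_congr rfl fun K _ => ?_
  rw [hB.red_eq hχ hψ, hB.red_eq hχ hψ]

include hpO hR in
/-- **Transfer of the heights.** -/
lemma alpha_transfer {b : Set (G → ℂ)} (hb : IsBlock O b) {D : Subgroup G}
    (hD : IsDefectGroup p O b D) {β : Set (CR R → ℂ)} (hβ : IsBlock O β) {Δ : Subgroup (CR R)}
    (hΔ : IsDefectGroup p O β Δ) {θ : CR R → ℂ} (hθ : θ ∈ β)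
    (hne : lam O R θ (blockCoeff b) ≠ 0) {χ₀ χ : G → ℂ} (hχ₀ : χ₀ ∈ b) (hχ : χ ∈ b) :
    (∑ η ∈ XB β, red O (mr R χ η) * red O (uu Δ η)) * ccG O p Δ θ =
      red O (uu D χ) * ccG O p D χ₀ := by
  have hχi := hb.irr χ hχ
  have hθi := hβ.irr θ hθ
  rw [← sr_eq hpO hb hD hχ₀ hχ]
  have hclχ : IsCl χ := fun g y => hχi.conj g y
  set F : G → RF O := fun y => if p ∣ orderOf y then 0 else red O (χ y⁻¹) with hF
  have hFc : ∀ x y, IsConj x y → F x = F y := by
    intro x y hxy
    obtain ⟨c, rfl⟩ := isConj_iff.mp hxy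
    simp only [hF]
    have e : (c * x * c⁻¹)⁻¹ = c * x⁻¹ * c⁻¹ := by group
    rw [orderOf_conj', e, hχi.conj]
  have h1 : sr p O χ₀ χ = ∑ L : ConjClasses (CR R), red O (omega θ (rep L)) *
      F ((rep L : CR R) : G) := by
    rw [sum_regroup (fun L : ConjClasses (CR R) => red O (omega θ (rep L))) F hFc]
    unfold sr
    refine Finset.sum_congr rfl fun K _ => ?_
    rw [← induced hpO hR hb hθi hne hχ₀ (rep K)]
    simp only [hF]
    split_ifs
    · rw [zero_mul]
    · rw [mul_comm]
  have h2 : ∀ L : ConjClasses (CR R), red O (omega θ (rep L)) * F ((rep L : CR R) : G) =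
      ∑ η ∈ IC.Irr (CR R), red O (mr R χ η) * (if p ∣ orderOf (rep L) then 0 else
        red O (omega θ (rep L)) * red O (η (rep L)⁻¹)) := by
    intro L
    simp only [hF]
    rw [Subgroup.orderOf_coe]
    split_ifs with h
    · simp
    · have e : (((rep L : CR R) : G))⁻¹ = (((rep L)⁻¹ : CR R) : G) := rfl
      rw [e, val_mr R hχi, red_sum, Finset.mul_sum]
      · refine Finset.sum_congr rfl fun η hη => ?_
        have hηi := mem_Irr.mp hη
        rw [red_mul (mr_mem R hχi hηi) (hηi.val_mem O _)]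
        ring
      · intro η hη
        have hηi := mem_Irr.mp hη
        exact O.mul_mem _ _ (mr_mem R hχi hηi) (hηi.val_mem O _)
  rw [h1, Finset.sum_congr rfl (fun L _ => h2 L), Finset.sum_comm]
  have h3 : ∀ η ∈ IC.Irr (CR R), ∑ L : ConjClasses (CR R), red O (mr R χ η) *
      (if p ∣ orderOf (rep L) then 0 else red O (omega θ (rep L)) * red O (η (rep L)⁻¹)) =
      if η ∈ β then red O (mr R χ η) * red O (uu Δ η) * ccG O p Δ θ else 0 := by
    intro η hη
    have hηi := mem_Irr.mp hη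
    rw [← Finset.mul_sum]
    change red O (mr R χ η) * sr p O θ η = _
    split_ifs with hηβ
    · rw [sr_eq hpO hβ hΔ hθ hηβ]
      ring
    · have h4 := card_mul_B (p := p) Δ hθi (fun g y => hηi.conj g y : IsCl η)
      rw [blk_orth hpO hβ hθ hηi hηβ, mul_zero] at h4
      have h5 := (mul_eq_zero.mp h4.symm).resolve_left (uu_ne hθi)
      rw [← red_SS hθi hηi, h5, red_zero, mul_zero]
  rw [Finset.sum_congr rfl h3, ← Finset.sum_filter, Finset.sum_mul]

end br

section defect

variable {p : ℕ} [hp : Fact p.Prime] (hpO : (p : ℂ) ∈ O.nonunits) {R : Subgroup G}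
  (hR : IsPGroup p R)

/-- the product of a subgroup of the centralizer of `R` with `R` -/
lemma card_prod_dvd {R K : Subgroup G} (hRK : R ≤ K) :
    Nat.card (K ⊓ CR R : Subgroup G) * Nat.card R ∣
      Nat.card K * Nat.card (R ⊓ CR R : Subgroup G) := by
  set A : Subgroup G := K ⊓ CR R with hA
  have hcomm : ∀ (a : A) (r : R), Commute (A.subtype a) (R.subtype r) := by
    intro a r
    exact (mem_CR.mp a.2.2 r r.2).symm
  set φ : A × R →* G := MonoidHom.noncommCoprod A.subtype R.subtype hcomm with hφ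
  have hval : ∀ a r, φ (a, r) = (a : G) * (r : G) := fun a r => rfl
  have h1 : Nat.card φ.ker * Nat.card φ.range = Nat.card A * Nat.card R := by
    rw [← Subgroup.index_ker, Subgroup.card_mul_index, Nat.card_prod]
  have h2 : φ.range ≤ K := by
    rintro _ ⟨⟨a, r⟩, rfl⟩
    rw [hval]
    exact K.mul_mem a.2.1 (hRK r.2)
  have h3 : Nat.card φ.ker = Nat.card (R ⊓ CR R : Subgroup G) := by
    refine Nat.card_congr
      { toFun := fun k => ⟨(k.1.2 : G), k.1.2.2, by
          have h4 : (k.1.1 : G) * (k.1.2 : G) = 1 := k.2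
          have h5 : (k.1.2 : G) = (k.1.1 : G)⁻¹ := eq_inv_of_mul_eq_one_right h4
          rw [h5]
          exact (CR R).inv_mem k.1.1.2.2⟩
        invFun := fun z => ⟨(⟨(z : G)⁻¹, K.inv_mem (hRK z.2.1), (CR R).inv_mem z.2.2⟩,
          ⟨(z : G), z.2.1⟩), by
            rw [MonoidHom.mem_ker, hval]
            exact inv_mul_cancel _⟩
        left_inv := ?_
        right_inv := fun z => rfl }
    rintro ⟨⟨a, r⟩, hk⟩
    have h4 : (a : G) * (r : G) = 1 := hk
    apply Subtype.ext
    refine Prod.ext ?_ rfl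
    apply Subtype.ext
    exact (eq_inv_of_mul_eq_one_left h4).symm
  rw [← h1, h3, mul_comm]
  exact Nat.mul_dvd_mul_right (Subgroup.card_dvd_of_le h2) _

include hpO hR in
/-- **The defect groups of the blocks of the centralizer.** -/
lemma defect_le {b : Set (G → ℂ)} (hb : IsBlock O b) {D : Subgroup G}
    (hD : IsDefectGroup p O b D) {β : Set (CR R → ℂ)} (hβ : IsBlock O β) {Δ : Subgroup (CR R)}
    (hΔ : IsDefectGroup p O β Δ) {θ : CR R → ℂ} (hθ : θ ∈ β)
    (hne : lam O R θ (blockCoeff b) ≠ 0) :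
    Nat.card Δ * Nat.card R ≤ Nat.card D * Nat.card (R ⊓ CR R : Subgroup G) := by
  obtain ⟨χ, hχ⟩ := hb.nonempty
  have hχi := hb.irr χ hχ
  have hθi := hβ.irr θ hθ
  have hΔp := Pool.Agent.N20.defect_pgroup hΔ
  obtain ⟨x, ⟨P, rfl⟩, hω, -⟩ := hD
  have h1 : red O (omega χ x) ≠ 0 :=
    fun h => hω χ hχ ((red_eq_zero_iff (hχi.omega_mem O x)).mp h)
  rw [induced hpO hR hb hθi hne hχ x] at h1
  obtain ⟨L, -, hL⟩ := Finset.exists_ne_zero_of_sum_ne_zero h1
  have hconj : IsConj x ((rep L : CR R) : G) := by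
    by_contra h
    rw [if_neg h] at hL
    exact hL rfl
  rw [if_pos hconj] at hL
  obtain ⟨c, hc⟩ := lam_ne hpO hβ hΔ hθ hL
  have h2 : Nat.card Δ ∣ Nat.card (Subgroup.centralizer ({rep L} : Set (CR R))) :=
    card_dvd_of_conj hc
  set l : G := ((rep L : CR R) : G) with hl
  set K : Subgroup G := Subgroup.centralizer ({l} : Set G) with hK
  have hKm : ∀ g, g ∈ K ↔ l * g = g * l := by
    intro g
    rw [hK, Subgroup.mem_centralizer_iff]
    simp only [Set.mem_singleton_iff, forall_eq]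
  have hRK : R ≤ K := by
    intro r hr
    rw [hKm]
    exact (mem_CR.mp (rep L : CR R).2 r hr).symm
  have h3 : Nat.card (Subgroup.centralizer ({rep L} : Set (CR R))) =
      Nat.card (K ⊓ CR R : Subgroup G) := by
    refine Nat.card_congr
      { toFun := fun k => ⟨((k : CR R) : G), Subgroup.mem_inf.mpr ⟨(hKm _).mpr
          (congrArg Subtype.val (Subgroup.mem_centralizer_iff.mp k.2 _ (Set.mem_singleton _))),
          (k : CR R).2⟩⟩
        invFun := fun z => ⟨⟨(z : G), z.2.2⟩, by
          rw [Subgroup.mem_centralizer_iff]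
          simp only [Set.mem_singleton_iff, forall_eq]
          exact Subtype.ext ((hKm _).mp z.2.1)⟩
        left_inv := fun k => rfl
        right_inv := fun z => rfl }
  have h4 : Nat.card Δ * Nat.card R ∣ Nat.card K * Nat.card (R ⊓ CR R : Subgroup G) := by
    rw [h3] at h2
    exact (Nat.mul_dvd_mul_right h2 _).trans (card_prod_dvd hRK)
  have h5 : Nat.card K = Nat.card (Subgroup.centralizer ({x} : Set G)) :=
    (card_centralizer_congr hconj).symm
  have h6 : Nat.card P * (P : Subgroup (Subgroup.centralizer ({x} : Set G))).index =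
      Nat.card (Subgroup.centralizer ({x} : Set G)) := Subgroup.card_mul_index _
  have h7 : ¬ p ∣ (P : Subgroup (Subgroup.centralizer ({x} : Set G))).index := P.not_dvd_index
  have h8 : Nat.card ((P : Subgroup (Subgroup.centralizer ({x} : Set G))).map
      (Subgroup.centralizer ({x} : Set G)).subtype) = Nat.card P :=
    (Nat.card_congr ((P : Subgroup (Subgroup.centralizer ({x} : Set G))).equivMapOfInjective _
      (Subgroup.centralizer ({x} : Set G)).subtype_injective).toEquiv).symm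
  rw [h8]
  apply Nat.le_of_dvd (Nat.mul_pos Nat.card_pos Nat.card_pos)
  obtain ⟨i, hi⟩ := IsPGroup.iff_card.mp hΔp
  obtain ⟨j, hj⟩ := IsPGroup.iff_card.mp hR
  have hcop : Nat.Coprime (Nat.card Δ * Nat.card R)
      (P : Subgroup (Subgroup.centralizer ({x} : Set G))).index := by
    rw [hi, hj, ← pow_add]
    exact Nat.Coprime.pow_left _ ((Nat.Prime.coprime_iff_not_dvd hp.out).mpr h7)
  apply hcop.dvd_of_dvd_mul_left
  rw [h5, ← h6] at h4
  have e : (P : Subgroup (Subgroup.centralizer ({x} : Set G))).index *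
      (Nat.card P * Nat.card (R ⊓ CR R : Subgroup G)) =
      Nat.card P * (P : Subgroup (Subgroup.centralizer ({x} : Set G))).index *
        Nat.card (R ⊓ CR R : Subgroup G) := by ring
  rw [e]
  exact h4

end defect

end Pool.Agent.Zk65.TB
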