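import Mathlib
import Pool.Agent.Zk65.TB3

/-!
Values of combinations of height one at elements with large centralizers; small defect groups.
-/

set_option autoImplicit false
set_option linter.style.haveILetI false
set_option linter.unusedSectionVars false

open scoped BigOperators Classical
open Pool.Agent.Helper884 Pool.Agent.H254R3.IN Pool.Agent.N20

noncomputable section

namespace Pool.Agent.Zk65.TB

variable {G : Type} [Group G] [Fintype G] {O : ValuationSubring ℂ}

/-- integral combinations of characters of a block -/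
def cb (B : Set (G → ℂ)) (x : (G → ℂ) → ℤ) (g : G) : ℂ := ∑ χ ∈ XB B, (x χ : ℂ) * χ g

/-- the `p`-part of the degree of a combination, relative to the defect -/
def al (O : ValuationSubring ℂ) (D : Subgroup G) (B : Set (G → ℂ)) (x : (G → ℂ) → ℤ) : RF O :=
  ∑ χ ∈ XB B, (x χ : RF O) * red O (uu D χ)

lemma cb_mem {B : Set (G → ℂ)} (hB : IsBlock O B) (x : (G → ℂ) → ℤ) (g : G) : cb B x g ∈ O := by
  refine sum_mem fun χ hχ => O.mul_mem _ _ (intCast_mem' _) ?_
  exact (hB.irr χ ((mem_XB hB.irr).mp hχ)).val_mem O g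

section pp

variable {p : ℕ} [hp : Fact p.Prime] (hpO : (p : ℂ) ∈ O.nonunits)

lemma nn_ne (D : Subgroup G) (g : G) : nn D g ≠ 0 := by
  unfold nn
  have h1 : (Nat.card (Subgroup.centralizer ({g} : Set G)) : ℂ) ≠ 0 := by
    exact_mod_cast Nat.card_pos.ne'
  have h2 : (Nat.card D : ℂ) ≠ 0 := by exact_mod_cast Nat.card_pos.ne'
  exact div_ne_zero h1 h2

include hpO in
lemma div_case {B : Set (G → ℂ)} (hB : IsBlock O B) {D : Subgroup G}
    (hD : IsDefectGroup p O B D) {x : (G → ℂ) → ℤ} (hx : al O D B x = 0) (g : G) :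
    cb B x g / nn D g ∈ O.nonunits := by
  have hmem : ∀ χ ∈ XB B, uu D χ ∈ O ∧ omega χ g ∈ O := by
    intro χ hχ
    have hχB := (mem_XB hB.irr).mp hχ
    exact ⟨Pool.Agent.N20.uu_mem hpO hB hD hχB, (hB.irr χ hχB).omega_mem O g⟩
  have h1 : cb B x g / nn D g = ∑ χ ∈ XB B, (x χ : ℂ) * (uu D χ * omega χ g) := by
    rw [div_eq_iff (nn_ne D g)]
    unfold cb
    rw [Finset.sum_mul]
    refine Finset.sum_congr rfl fun χ hχ => ?_
    rw [val_nn D (hB.irr χ ((mem_XB hB.irr).mp hχ)) g]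
    ring
  have hm : ∀ χ ∈ XB B, (x χ : ℂ) * (uu D χ * omega χ g) ∈ O := fun χ hχ =>
    O.mul_mem _ _ (intCast_mem' _) (O.mul_mem _ _ (hmem χ hχ).1 (hmem χ hχ).2)
  rw [h1, ← red_eq_zero_iff (sum_mem hm), red_sum _ _ hm]
  obtain ⟨χ₀, hχ₀⟩ := hB.nonempty
  have h2 : ∀ χ ∈ XB B, red O ((x χ : ℂ) * (uu D χ * omega χ g)) =
      (x χ : RF O) * red O (uu D χ) * red O (omega χ₀ g) := by
    intro χ hχ
    rw [red_mul (intCast_mem' _) (O.mul_mem _ _ (hmem χ hχ).1 (hmem χ hχ).2), red_intCast,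
      red_mul (hmem χ hχ).1 (hmem χ hχ).2, hB.red_eq ((mem_XB hB.irr).mp hχ) hχ₀]
    ring
  rw [Finset.sum_congr rfl h2, ← Finset.sum_mul]
  change al O D B x * _ = 0
  rw [hx, zero_mul]

include hpO in
lemma div_case' {B : Set (G → ℂ)} (hB : IsBlock O B) {D : Subgroup G}
    (hD : IsDefectGroup p O B D) {x : (G → ℂ) → ℤ} (hx : al O D B x = 0) {g : G}
    (hdvd : Nat.card D ∣ Nat.card (Subgroup.centralizer ({g} : Set G))) :
    red O (cb B x g) = 0 := by
  have h1 := div_case hpO hB hD hx g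
  have h2 : cb B x g = cb B x g / nn D g * nn D g := by
    field_simp [nn_ne D g]
  rw [h2, red_mul (nonunits_mem h1) (nn_mem hdvd), red_eq_zero h1, zero_mul]

/-- defect groups exist -/
lemma exists_defect {B : Set (G → ℂ)} (hB : IsBlock O B) :
    ∃ D : Subgroup G, IsDefectGroup p O B D := by
  obtain ⟨χ, hχ⟩ := hB.nonempty
  have hχi := hB.irr χ hχ
  have h1 := Pool.Agent.N20.red_Om (O := O) hχi (blockCoeff_cl hB.irr) (blockCoeff_mem hB)
  rw [Om_blockCoeff hB.irr hχi, if_pos hχ, red_one] at h1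
  obtain ⟨K, -, hK⟩ := Finset.exists_ne_zero_of_sum_ne_zero (h1 ▸ one_ne_zero)
  let P : Sylow p (Subgroup.centralizer ({rep K} : Set G)) := default
  refine ⟨_, rep K, ⟨P, rfl⟩, ?_, ?_⟩
  · intro ψ hψ h
    apply right_ne_zero_of_mul hK
    rw [← hB.red_eq hψ hχ, red_eq_zero h]
  · intro h
    exact left_ne_zero_of_mul hK (red_eq_zero h)

end pp

section base

/-- the norm of a combination of two characters on the `p`-regular elements -/
lemma norm_comb {p : ℕ} (D : Subgroup G) {η ψ : G → ℂ} (hη : IsIrr η) (hψ : IsIrr ψ)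
    {a c d : ℤ} (ha : (a : ℂ) = (Nat.card D : ℂ) * IC.B (cut p η) η)
    (hc : (c : ℂ) = (Nat.card D : ℂ) * IC.B (cut p η) ψ)
    (hd : (d : ℂ) = (Nat.card D : ℂ) * IC.B (cut p ψ) ψ) (m : ℤ) :
    (Nat.card D : ℝ) * ∑ h ∈ Finset.univ.filter (fun h : G => ¬ p ∣ orderOf h),
      ‖η h - m * ψ h‖ ^ 2 = (Nat.card G : ℝ) * (a - 2 * m * c + m ^ 2 * d) := by
  have hG0 : (Nat.card G : ℂ) ≠ 0 := by exact_mod_cast Nat.card_pos.ne'
  apply Complex.ofReal_injective
  push_cast
  have h1 : ∀ h : G, ((‖η h - m * ψ h‖ : ℂ)) ^ 2 =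
      η h * η h⁻¹ - m * (η h * ψ h⁻¹) - m * (ψ h * η h⁻¹) + m ^ 2 * (ψ h * ψ h⁻¹) := by
    intro h
    rw [← Complex.mul_conj', map_sub, map_mul, map_intCast,
      (Pool.Agent.Y62.conj_char hη h).symm, (Pool.Agent.Y62.conj_char hψ h).symm]
    ring
  have h2 : ∀ f k : G → ℂ, ∑ h ∈ Finset.univ.filter (fun h : G => ¬ p ∣ orderOf h), f h * k h⁻¹ =
      (Nat.card G : ℂ) * IC.B (cut p f) k := by
    intro f k
    unfold IC.B
    rw [← mul_assoc, mul_inv_cancel₀ hG0, one_mul, Finset.sum_filter]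
    refine Finset.sum_congr rfl fun h _ => ?_
    unfold cut
    by_cases hh : p ∣ orderOf h
    · rw [if_neg (not_not.mpr hh), if_pos hh, zero_mul]
    · rw [if_pos hh, if_neg hh]
  simp only [h1, Finset.sum_add_distrib, Finset.sum_sub_distrib, ← Finset.mul_sum, h2]
  rw [B_cut_comm ψ η, ha, hc, hd]
  ring

variable (hpO : ((2 : ℕ) : ℂ) ∈ O.nonunits)

lemma norm_central {χ : G → ℂ} (hχ : IsIrr χ) {z : G} (hz : z ∈ Subgroup.center G) (h : G) :
    ‖χ (z * h)‖ = ‖χ h‖ := by
  obtain ⟨V, _, _, _, ρ, hr, rfl⟩ := hχ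
  haveI := irr_nontrivial ρ hr
  obtain ⟨c, hc⟩ := schur ρ hr (ρ z) (by
    intro g v
    rw [← Module.End.mul_apply, ← Module.End.mul_apply, ← map_mul, ← map_mul,
      Subgroup.mem_center_iff.mp hz g])
  have hpow : ∀ t : ℕ, ρ (z ^ t) = c ^ t • (LinearMap.id : V →ₗ[ℂ] V) := by
    intro t
    induction t with
    | zero => simp; rfl
    | succ t ih =>
      rw [pow_succ, map_mul, ih, hc, pow_succ]
      ext v
      simp [smul_smul, mul_comm]
  have hc1 : c ^ orderOf z = 1 := by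
    have h1 := hpow (orderOf z)
    rw [pow_orderOf_eq_one, map_one] at h1
    apply scalar_inj (V := V)
    rw [← h1, one_smul]
    rfl
  have hcn : ‖c‖ = 1 := Complex.norm_eq_one_of_pow_eq_one hc1 (orderOf_pos z).ne'
  have h2 : ρ.character (z * h) = c * ρ.character h := by
    change LinearMap.trace ℂ V (ρ (z * h)) = c * LinearMap.trace ℂ V (ρ h)
    rw [map_mul, hc]
    have h3 : (c • (LinearMap.id : V →ₗ[ℂ] V)) * ρ h = c • ρ h := by
      ext v
      simp
    rw [h3, map_smul, smul_eq_mul]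
  rw [h2, norm_mul, hcn, one_mul]

/-- the norm on the regular elements is small if the centre is large -/
lemma norm_le_center {p : ℕ} [hp : Fact p.Prime] {χ : G → ℂ} (hχ : IsIrr χ) {Z : Subgroup G}
    (hZ : Z ≤ Subgroup.center G) (hZp : IsPGroup p Z) :
    (Nat.card Z : ℝ) * ∑ h ∈ Finset.univ.filter (fun h : G => ¬ p ∣ orderOf h), ‖χ h‖ ^ 2 ≤
      (Nat.card G : ℝ) := by
  have h1 : ∑ g : G, ‖χ g‖ ^ 2 = (Nat.card G : ℝ) := by
    have h2 := irr_orth hχ hχ
    rw [if_pos rfl] at h2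
    have hG0 : (Nat.card G : ℂ) ≠ 0 := by exact_mod_cast Nat.card_pos.ne'
    apply Complex.ofReal_injective
    push_cast
    have h3 : ∑ g : G, χ g * χ g⁻¹ = (Nat.card G : ℂ) := by
      field_simp at h2
      exact h2
    rw [← h3]
    refine Finset.sum_congr rfl fun g _ => ?_
    rw [← Complex.mul_conj', (Pool.Agent.Y62.conj_char hχ g).symm]
  obtain ⟨e, e', e1, e2, -, -, e5⟩ := IC.exists_exps p G
  set Rg := Finset.univ.filter (fun h : G => ¬ p ∣ orderOf h) with hRg
  have hpart : ∀ (z : Z) (h : G), h ∈ Rg → ((z : G) * h) ^ e' = z := by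
    intro z h hh
    have hh' : ¬ p ∣ orderOf h := (Finset.mem_filter.mp hh).2
    have hcomm : Commute (z : G) h := (Subgroup.mem_center_iff.mp (hZ z.2) h).symm
    rw [hcomm.mul_pow]
    have hzo : ∃ k, orderOf (z : G) = p ^ k := by
      obtain ⟨k, hk⟩ := IsPGroup.iff_orderOf.mp hZp z
      exact ⟨k, by rw [← hk, Subgroup.orderOf_coe]⟩
    have a1 : (z : G) ^ e' = z := by
      have := e5 (z : G)
      rwa [e2 (z : G) hzo, one_mul] at this
    have a2 : h ^ e' = 1 := by
      have := e5 h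
      rw [e1 h hh'] at this
      exact mul_eq_left.mp this
    rw [a1, a2, mul_one]
  have hinj : Set.InjOn (fun q : Z × G => (q.1 : G) * q.2)
      ((Finset.univ ×ˢ Rg : Finset (Z × G)) : Set (Z × G)) := by
    rintro ⟨z, h⟩ h3 ⟨z', h'⟩ h4 heq
    simp only [Finset.coe_product, Set.mem_prod, Finset.mem_coe] at h3 h4
    dsimp only at heq
    have h5 := hpart z h h3.2
    have h6 := hpart z' h' h4.2
    rw [heq, h6] at h5
    have hz : z' = z := Subtype.ext h5
    subst hz
    have hh : h = h' := mul_left_cancel heq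
    rw [hh]
  calc (Nat.card Z : ℝ) * ∑ h ∈ Rg, ‖χ h‖ ^ 2
      = ∑ q ∈ (Finset.univ ×ˢ Rg : Finset (Z × G)), ‖χ ((q.1 : G) * q.2)‖ ^ 2 := by
        rw [Finset.sum_product]
        have h7 : ∀ z : Z, ∑ h ∈ Rg, ‖χ ((z : G) * h)‖ ^ 2 = ∑ h ∈ Rg, ‖χ h‖ ^ 2 :=
          fun z => Finset.sum_congr rfl fun h _ => by rw [norm_central hχ (hZ z.2)]
        dsimp only
        rw [Finset.sum_congr rfl (fun z _ => h7 z), Finset.sum_const, nsmul_eq_mul,
          Finset.card_univ, Nat.card_eq_fintype_card]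
    _ = ∑ g ∈ (Finset.univ ×ˢ Rg : Finset (Z × G)).image (fun q : Z × G => (q.1 : G) * q.2),
          ‖χ g‖ ^ 2 := (Finset.sum_image (f := fun g => ‖χ g‖ ^ 2) hinj).symm
    _ ≤ ∑ g : G, ‖χ g‖ ^ 2 :=
        Finset.sum_le_sum_of_subset_of_nonneg (Finset.subset_univ _) (fun _ _ _ => by positivity)
    _ = _ := h1

include hpO in
/-- **Blocks whose defect groups contain a central subgroup of index two.** -/
theorem base_case {B : Set (G → ℂ)} (hB : IsBlock O B) {D : Subgroup G}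
    (hD : IsDefectGroup 2 O B D) {Z : Subgroup G} (hZ : Z ≤ Subgroup.center G)
    (hZp : IsPGroup 2 Z) (hcard : Nat.card D = 2 * Nat.card Z) {x : (G → ℂ) → ℤ}
    (hx : al O D B x = 0) {g : G} (hg : ¬ 2 ∣ orderOf g) : red O (cb B x g) = 0 := by
  haveI : Fact (Nat.Prime 2) := ⟨Nat.prime_two⟩
  haveI : CharP (RF O) 2 := charP_RF hpO
  have hDR : (0 : ℝ) < Nat.card D := by exact_mod_cast Nat.card_pos
  have hZR : (0 : ℝ) < Nat.card Z := by exact_mod_cast Nat.card_pos
  have hGR : (0 : ℝ) < Nat.card G := by exact_mod_cast Nat.card_pos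
  have hmem : ∀ χ ∈ XB B, χ ∈ B := fun χ hχ => (mem_XB hB.irr).mp hχ
  obtain ⟨ψ, hψ, hψu⟩ := exists_uu_ne hpO hB hD
  have hψi := hB.irr ψ hψ
  have hcc := cc_ne hpO hB hD hψ
  -- the reductions of the contributions
  have hred : ∀ χ ∈ B, ∀ φ ∈ B, red O ((Nat.card D : ℂ) * IC.B (cut 2 χ) φ) =
      red O (uu D χ) * (red O (uu D φ) * ccG O 2 D ψ) := by
    intro χ hχ φ hφ
    have hχi := hB.irr χ hχ
    have hφi := hB.irr φ hφ
    rw [card_mul_B D hχi (fun g y => hφi.conj g y),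
      red_mul (Pool.Agent.N20.uu_mem hpO hB hD hχ) (SS_mem hχi hφi), red_SS hχi hφi,
      sr_eq hpO hB hD hχ hφ, ccG_block hB hχ hψ]
  -- the norms are at most two
  have hle2 : ∀ χ ∈ B, ∀ a : ℤ, (a : ℂ) = (Nat.card D : ℂ) * IC.B (cut 2 χ) χ → a ≤ 2 := by
    intro χ hχ a ha
    have hχi := hB.irr χ hχ
    have h1 := norm_comb (p := 2) D hχi hχi ha ha ha 0
    simp only [Int.cast_zero, zero_mul, sub_zero, mul_zero, zero_pow (two_ne_zero), add_zero] at h1
    have h2 := norm_le_center hχi hZ hZp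
    set s := ∑ h ∈ Finset.univ.filter (fun h : G => ¬ 2 ∣ orderOf h), ‖χ h‖ ^ 2
    have h3 : (Nat.card D : ℝ) = 2 * Nat.card Z := by exact_mod_cast hcard
    rw [h3] at h1
    have h4 : (Nat.card G : ℝ) * a ≤ Nat.card G * 2 := by
      rw [← h1]
      nlinarith
    have h5 : (a : ℝ) ≤ 2 := le_of_mul_le_mul_left h4 hGR
    exact_mod_cast h5
  obtain ⟨d, hd⟩ := contr_int hpO hB hD hψ hψ
  -- the height zero character has norm one
  have hredd : ((d : ℤ) : RF O) ≠ 0 := by
    rw [← red_intCast, hd, hred ψ hψ ψ hψ]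
    exact mul_ne_zero hψu (mul_ne_zero hψu hcc)
  have hd1 : d = 1 := by
    have h1 := hle2 ψ hψ d hd
    have h2 := norm_comb (p := 2) D hψi hψi hd hd hd 0
    simp only [Int.cast_zero, zero_mul, sub_zero, mul_zero, zero_pow (two_ne_zero), add_zero] at h2
    have h3 : (0 : ℝ) ≤ d := by
      by_contra hneg
      push Not at hneg
      have h4 : (Nat.card G : ℝ) * d < 0 := mul_neg_of_pos_of_neg hGR hneg
      rw [← h2] at h4
      have h5 : 0 ≤ (Nat.card D : ℝ) *
          ∑ h ∈ Finset.univ.filter (fun h : G => ¬ 2 ∣ orderOf h), ‖ψ h‖ ^ 2 :=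
        mul_nonneg hDR.le (Finset.sum_nonneg fun _ _ => by positivity)
      linarith
    have h4 : (0 : ℤ) ≤ d := by exact_mod_cast h3
    have h5 : d ≠ 0 := by
      rintro rfl
      exact hredd (by simp)
    have h6 : d ≠ 2 := by
      rintro rfl
      apply hredd
      have := CharP.cast_eq_zero (RF O) 2
      exact_mod_cast this
    omega
  subst hd1
  -- the other characters
  choose! c hc using fun (η : G → ℂ) (hη : η ∈ B) => contr_int hpO hB hD hη hψ
  choose! a ha using fun (η : G → ℂ) (hη : η ∈ B) => contr_int hpO hB hD hη hη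
  have hredc : ∀ η ∈ B, ((c η : ℤ) : RF O) = red O (uu D η) * (red O (uu D ψ) * ccG O 2 D ψ) := by
    intro η hη
    rw [← red_intCast, hc η hη, hred η hη ψ hψ]
  have hval : ∀ η ∈ B, ∀ h : G, ¬ 2 ∣ orderOf h → η h = c η * ψ h := by
    intro η hη
    have hηi := hB.irr η hη
    have hcne : c η ≠ 0 := by
      intro h0
      have h1 := hc η hη
      rw [h0, Int.cast_zero, card_mul_B D hηi (fun g y => hψi.conj g y)] at h1
      have h2 := (mul_eq_zero.mp h1.symm).resolve_left (uu_ne hηi)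
      have h3 := congrArg (red O) h2
      rw [red_SS hηi hψi, sr_eq hpO hB hD hη hψ, red_zero, ccG_block hB hη hψ] at h3
      exact (mul_ne_zero hψu hcc) h3
    have h1 := norm_comb (p := 2) D hηi hψi (ha η hη) (hc η hη) hd (c η)
    have h2 : 0 ≤ (Nat.card D : ℝ) *
        ∑ h ∈ Finset.univ.filter (fun h : G => ¬ 2 ∣ orderOf h), ‖η h - c η * ψ h‖ ^ 2 :=
      mul_nonneg hDR.le (Finset.sum_nonneg fun _ _ => by positivity)
    have h3 : (0 : ℝ) ≤ (a η : ℝ) - 2 * c η * c η + c η ^ 2 * (1 : ℤ) := by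
      rw [h1] at h2
      exact nonneg_of_mul_nonneg_right h2 hGR
    have h4 : c η ^ 2 ≤ a η := by
      have h5 : (0 : ℝ) ≤ ((a η - c η ^ 2 : ℤ) : ℝ) := by
        push_cast
        push_cast at h3
        linarith
      have h6 : (0 : ℤ) ≤ a η - c η ^ 2 := by exact_mod_cast h5
      linarith
    have h5 := hle2 η hη (a η) (ha η hη)
    have h6 : 1 ≤ c η ^ 2 := by
      have : 0 < c η ^ 2 := by positivity
      omega
    have h7 : c η ^ 2 = 1 := by
      have h8 : c η ^ 2 ≤ 2 := h4.trans h5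
      have h9 : c η ≤ 1 := by nlinarith
      have h10 : -1 ≤ c η := by nlinarith
      have h11 : c η = 1 ∨ c η = -1 := by omega
      rcases h11 with h | h <;> rw [h] <;> norm_num
    have h8 : a η = 1 := by
      have h9 : a η ≠ 2 := by
        intro h2'
        have h10 : ((a η : ℤ) : RF O) = red O (uu D η) * (red O (uu D η) * ccG O 2 D ψ) := by
          rw [← red_intCast, ha η hη, hred η hη η hη]
        rw [h2'] at h10
        have h11 : (((2 : ℤ)) : RF O) = 0 := by
          have := CharP.cast_eq_zero (RF O) 2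
          exact_mod_cast this
        rw [h11] at h10
        have h12 : red O (uu D η) = 0 := by
          by_contra hne
          exact (mul_ne_zero hne (mul_ne_zero hne hcc)) h10.symm
        have h13 := hredc η hη
        rw [h12, zero_mul] at h13
        have h14 : (((c η ^ 2 : ℤ)) : RF O) = 0 := by
          push_cast
          rw [h13]
          simp
        rw [h7] at h14
        simp at h14
      omega
    have h9 : (a η : ℝ) - 2 * c η * c η + c η ^ 2 * (1 : ℤ) = 0 := by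
      have h10 : ((a η - 2 * c η * c η + c η ^ 2 * 1 : ℤ) : ℝ) = 0 := by
        rw [h8]
        have : (1 - 2 * c η * c η + c η ^ 2 * 1 : ℤ) = 0 := by nlinarith
        rw [this]
        simp
      push_cast at h10
      push_cast
      exact h10
    rw [h9, mul_zero] at h1
    have h10 := (mul_eq_zero.mp h1).resolve_left hDR.ne'
    rw [Finset.sum_eq_zero_iff_of_nonneg (fun _ _ => by positivity)] at h10
    intro h hh
    have h11 := h10 h (Finset.mem_filter.mpr ⟨Finset.mem_univ _, hh⟩)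
    have h12 : ‖η h - c η * ψ h‖ = 0 := by
      by_contra hne
      exact (pow_ne_zero 2 hne) h11
    exact sub_eq_zero.mp (norm_eq_zero.mp h12)
  -- conclusion
  have h1 : cb B x g = ((∑ χ ∈ XB B, x χ * c χ : ℤ) : ℂ) * ψ g := by
    unfold cb
    push_cast
    rw [Finset.sum_mul]
    refine Finset.sum_congr rfl fun χ hχ => ?_
    rw [hval χ (hmem χ hχ) g hg]
    ring
  have h2 : (((∑ χ ∈ XB B, x χ * c χ : ℤ)) : RF O) = 0 := by
    push_cast
    have h3 : ∀ χ ∈ XB B, (x χ : RF O) * (c χ : RF O) =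
        (x χ : RF O) * red O (uu D χ) * (red O (uu D ψ) * ccG O 2 D ψ) := by
      intro χ hχ
      rw [hredc χ (hmem χ hχ)]
      ring
    rw [Finset.sum_congr rfl h3, ← Finset.sum_mul]
    change al O D B x * _ = 0
    rw [hx, zero_mul]
  rw [h1, red_mul (intCast_mem' _) (hψi.val_mem O g), red_intCast, h2, zero_mul]

end base

end Pool.Agent.Zk65.TB
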