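import Mathlib
import Pool.Agent.Zk65.TB4

/-!
Elements whose centralizers contain a subgroup of index two in a defect group (up to order).
-/

set_option autoImplicit false
set_option linter.style.haveILetI false
set_option linter.unusedSectionVars false

open scoped BigOperators Classical
open Pool.Agent.Helper884 Pool.Agent.H254R3.IN Pool.Agent.N20

noncomputable section

namespace Pool.Agent.Zk65.TB

variable {G : Type} [Group G] [Fintype G] {O : ValuationSubring ℂ}

/-- the block of a character -/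
def bk (O : ValuationSubring ℂ) {H : Type} [Group H] (θ : H → ℂ) : Set (H → ℂ) :=
  {χ | IsIrr χ ∧ ∀ x : H, omega χ x - omega θ x ∈ O.nonunits}

lemma bk_block {θ : G → ℂ} (h : IsIrr θ) : IsBlock O (bk O θ) := ⟨θ, h, rfl⟩

lemma mem_bk_iff {χ θ : G → ℂ} (hχ : IsIrr χ) (hθ : IsIrr θ) :
    χ ∈ bk O θ ↔ ∀ x, red O (omega χ x) = red O (omega θ x) := by
  constructor
  · rintro ⟨-, h⟩ x
    exact (red_eq_iff (hχ.omega_mem O x) (hθ.omega_mem O x)).mpr (h x)
  · intro h
    exact ⟨hχ, fun x => (red_eq_iff (hχ.omega_mem O x) (hθ.omega_mem O x)).mp (h x)⟩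

lemma bk_self {θ : G → ℂ} (hθ : IsIrr θ) : θ ∈ bk O θ := (mem_bk_iff hθ hθ).mpr fun _ => rfl

lemma bk_eq {χ θ : G → ℂ} (hχ : IsIrr χ) (hθ : IsIrr θ) (h : χ ∈ bk O θ) : bk O χ = bk O θ := by
  have h1 := (mem_bk_iff hχ hθ).mp h
  ext φ
  constructor
  · intro hφ
    have hφi := hφ.1
    exact (mem_bk_iff hφi hθ).mpr fun x => ((mem_bk_iff hφi hχ).mp hφ x).trans (h1 x)
  · intro hφ
    have hφi := hφ.1
    exact (mem_bk_iff hφi hχ).mpr fun x => ((mem_bk_iff hφi hθ).mp hφ x).trans (h1 x).symm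

/-- a sum over all characters vanishes if it vanishes on every block -/
lemma sum_blocks {A : Type*} [AddCommMonoid A] (F : (G → ℂ) → A)
    (h : ∀ θ : G → ℂ, IsIrr θ → ∑ η ∈ XB (bk O θ), F η = 0) : ∑ η ∈ IC.Irr G, F η = 0 := by
  rw [← Finset.sum_fiberwise_of_maps_to (s := IC.Irr G) (t := (IC.Irr G).image (bk O))
    (g := bk O) (fun x hx => Finset.mem_image_of_mem _ hx)]
  refine Finset.sum_eq_zero fun β hβ => ?_
  obtain ⟨θ, hθ, rfl⟩ := Finset.mem_image.mp hβ
  have hθi := mem_Irr.mp hθ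
  rw [← h θ hθi]
  refine Finset.sum_congr ?_ fun _ _ => rfl
  unfold XB
  refine Finset.filter_congr fun η hη => ?_
  have hηi := mem_Irr.mp hη
  constructor
  · intro h1
    rw [← h1]
    exact bk_self hηi
  · intro h1
    exact bk_eq hηi hθi h1

/-- **Values of combinations of positive height.** -/
theorem half_case (hpO : ((2 : ℕ) : ℂ) ∈ O.nonunits) {b : Set (G → ℂ)} (hb : IsBlock O b)
    {D : Subgroup G} (hD : IsDefectGroup 2 O b D) {x : (G → ℂ) → ℤ} (hx : al O D b x = 0)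
    {R : Subgroup G} (hR : IsPGroup 2 R) (g : CR R) (hg : ¬ 2 ∣ orderOf (g : G))
    (hcard : Nat.card D = 2 * Nat.card R) : red O (cb b x (g : G)) = 0 := by
  haveI : Fact (Nat.Prime 2) := ⟨Nat.prime_two⟩
  have hmem : ∀ χ ∈ XB b, χ ∈ b := fun χ hχ => (mem_XB hb.irr).mp hχ
  choose! n hn using fun (χ : G → ℂ) (θ : CR R → ℂ) (h : IsIrr χ ∧ IsIrr θ) =>
    mr_int R h.1 h.2
  set y : (CR R → ℂ) → ℤ := fun θ => ∑ χ ∈ XB b, x χ * n χ θ with hy
  have h1 : red O (cb b x (g : G)) = ∑ θ ∈ IC.Irr (CR R),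
      (y θ : RF O) * (lam O R θ (blockCoeff b) * red O (θ g)) := by
    unfold cb
    rw [red_sum _ _ (fun χ hχ => O.mul_mem _ _ (intCast_mem' _)
      ((hb.irr χ (hmem χ hχ)).val_mem O _))]
    have h2 : ∀ χ ∈ XB b, red O ((x χ : ℂ) * χ (g : G)) = ∑ θ ∈ IC.Irr (CR R),
        ((x χ * n χ θ : ℤ) : RF O) * (lam O R θ (blockCoeff b) * red O (θ g)) := by
      intro χ hχ
      have hχb := hmem χ hχ
      rw [red_mul (intCast_mem' _) ((hb.irr χ hχb).val_mem O _), red_intCast,
        res_expand hpO hR hb hχb g, Finset.mul_sum]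
      refine Finset.sum_congr rfl fun θ hθ => ?_
      rw [← hn χ θ ⟨hb.irr χ hχb, mem_Irr.mp hθ⟩, red_intCast]
      push_cast
      ring
    rw [Finset.sum_congr rfl h2, Finset.sum_comm]
    refine Finset.sum_congr rfl fun θ _ => ?_
    rw [← Finset.sum_mul, hy]
    push_cast
    rfl
  rw [h1]
  apply sum_blocks (O := O)
  intro θ hθ
  set β := bk O θ with hβdef
  have hβ : IsBlock O β := bk_block hθ
  have hθβ : θ ∈ β := bk_self hθ
  have hlam : ∀ η ∈ XB β, lam O R η (blockCoeff b) = lam O R θ (blockCoeff b) := fun η hη =>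
    red_Om_block hβ ((mem_XB hβ.irr).mp hη) hθβ (res_cl' (blockCoeff_cl hb.irr))
      (fun g => blockCoeff_mem hb g)
  rw [Finset.sum_congr rfl (g := fun η => lam O R θ (blockCoeff b) *
    red O ((y η : ℂ) * η g)) (fun η hη => by
      rw [hlam η hη, red_mul (intCast_mem' _)
        ((hβ.irr η ((mem_XB hβ.irr).mp hη)).val_mem O _), red_intCast]
      ring), ← Finset.mul_sum, ← red_sum _ _ (fun η hη => O.mul_mem _ _ (intCast_mem' _)
        ((hβ.irr η ((mem_XB hβ.irr).mp hη)).val_mem O _))]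
  by_cases hne : lam O R θ (blockCoeff b) = 0
  · rw [hne, zero_mul]
  change lam O R θ (blockCoeff b) * red O (cb β y g) = 0
  obtain ⟨Δ, hΔ⟩ := exists_defect (p := 2) hβ
  obtain ⟨χ₀, hχ₀⟩ := hb.nonempty
  -- the height of the restricted combination
  have hal : al O Δ β y = 0 := by
    have h2 : al O Δ β y * ccG O 2 Δ θ = al O D b x * ccG O 2 D χ₀ := by
      have h3 : ∀ χ ∈ XB b, (x χ : RF O) * ((∑ η ∈ XB β, red O (mr R χ η) * red O (uu Δ η)) *
          ccG O 2 Δ θ) = (x χ : RF O) * (red O (uu D χ) * ccG O 2 D χ₀) := by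
        intro χ hχ
        rw [alpha_transfer hpO hR hb hD hβ hΔ hθβ hne hχ₀ (hmem χ hχ)]
      have h4 := Finset.sum_congr rfl h3
      have h5 : ∑ χ ∈ XB b, (x χ : RF O) * (red O (uu D χ) * ccG O 2 D χ₀) =
          al O D b x * ccG O 2 D χ₀ := by
        unfold al
        rw [Finset.sum_mul]
        exact Finset.sum_congr rfl fun χ _ => by ring
      rw [← h5, ← h4]
      unfold al
      rw [Finset.sum_mul]
      have h6 : ∀ η ∈ XB β, (y η : RF O) * red O (uu Δ η) * ccG O 2 Δ θ =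
          ∑ χ ∈ XB b, (x χ : RF O) * (red O (mr R χ η) * red O (uu Δ η) * ccG O 2 Δ θ) := by
        intro η hη
        have hηi := hβ.irr η ((mem_XB hβ.irr).mp hη)
        rw [hy]
        push_cast
        rw [Finset.sum_mul, Finset.sum_mul]
        refine Finset.sum_congr rfl fun χ hχ => ?_
        rw [← hn χ η ⟨hb.irr χ (hmem χ hχ), hηi⟩, red_intCast]
        ring
      rw [Finset.sum_congr rfl h6, Finset.sum_comm]
      refine Finset.sum_congr rfl fun χ _ => ?_
      rw [← Finset.mul_sum, Finset.sum_mul]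
    rw [hx, zero_mul] at h2
    exact (mul_eq_zero.mp h2).resolve_right (cc_ne hpO hβ hΔ hθβ)
  -- the central subgroup
  set Z : Subgroup (CR R) := (R ⊓ CR R).subgroupOf (CR R) with hZ
  have hZc : Z ≤ Subgroup.center (CR R) := by
    intro z hz
    rw [Subgroup.mem_center_iff]
    intro c
    have hz' : (z : G) ∈ R ⊓ CR R := hz
    exact Subtype.ext (mem_CR.mp c.2 z hz'.1).symm
  have hZcard : Nat.card Z = Nat.card (R ⊓ CR R : Subgroup G) :=
    Nat.card_congr (Subgroup.subgroupOfEquivOfLe inf_le_right).toEquiv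
  have hZp : IsPGroup 2 Z := by
    have h2 : IsPGroup 2 (R ⊓ CR R : Subgroup G) := hR.to_le inf_le_left
    obtain ⟨j, hj⟩ := IsPGroup.iff_card.mp h2
    exact IsPGroup.of_card (hZcard.trans hj)
  have hΔp := Pool.Agent.N20.defect_pgroup hΔ
  obtain ⟨i, hi⟩ := IsPGroup.iff_card.mp hΔp
  obtain ⟨j, hj⟩ := IsPGroup.iff_card.mp hZp
  have hle := defect_le hpO hR hb hD hβ hΔ hθβ hne
  rw [← hZcard, hcard, hi, hj] at hle
  have hR0 : 0 < Nat.card R := Nat.card_pos
  have hle2 : 2 ^ i ≤ 2 ^ (j + 1) := by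
    rw [pow_succ]
    have h3 : 2 ^ i * Nat.card R ≤ (2 ^ j * 2) * Nat.card R := by
      calc 2 ^ i * Nat.card R ≤ 2 * Nat.card R * 2 ^ j := hle
        _ = _ := by ring
    exact Nat.le_of_mul_le_mul_right h3 hR0
  have hij : i ≤ j + 1 := (Nat.pow_le_pow_iff_right (by norm_num)).mp hle2
  have hg' : ¬ 2 ∣ orderOf g := by rwa [← Subgroup.orderOf_coe]
  rcases Nat.lt_or_ge j i with hlt | hge
  · have hij' : i = j + 1 := by omega
    rw [base_case hpO hβ hΔ hZc hZp (by rw [hi, hj, hij', pow_succ, mul_comm]) hal hg', mul_zero]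
  · have hdvd : Nat.card Δ ∣ Nat.card (Subgroup.centralizer ({g} : Set (CR R))) := by
      have h2 : Nat.card Δ ∣ Nat.card Z := by
        rw [hi, hj]
        exact pow_dvd_pow 2 hge
      refine h2.trans (Subgroup.card_dvd_of_le ?_)
      intro z hz
      rw [Subgroup.mem_centralizer_iff]
      simp only [Set.mem_singleton_iff, forall_eq]
      exact Subgroup.mem_center_iff.mp (hZc hz) g
    rw [div_case' hpO hβ hΔ hal hdvd, mul_zero]

end Pool.Agent.Zk65.TB
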