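import Mathlib
import Pool.Agent.Zk65.TB5

/-!
The contributions of combinations of positive height are divisible by four.
-/

set_option autoImplicit false
set_option linter.style.haveILetI false
set_option linter.unusedSectionVars false

open scoped BigOperators Classical
open Pool.Agent.Helper884 Pool.Agent.H254R3.IN Pool.Agent.N20

noncomputable section

namespace Pool.Agent.Zk65.TB

variable {G : Type} [Group G] [Fintype G] {O : ValuationSubring ℂ}

lemma cb_Rm {B : Set (G → ℂ)} (hB : IsBlock O B) (x : (G → ℂ) → ℤ) {g : G} {m : ℕ}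
    (hg : g ^ m = 1) : cb B x g ∈ Rm m := by
  unfold cb
  refine sum_mem fun χ hχ => (Rm m).mul_mem (intCast_mem _ _) ?_
  exact val_Rm (hB.irr χ ((mem_XB hB.irr).mp hχ)) hg

/-- one term of the contribution -/
lemma term_mem (hpO : ((2 : ℕ) : ℂ) ∈ O.nonunits) {b : Set (G → ℂ)} (hb : IsBlock O b)
    {D : Subgroup G} (hD : IsDefectGroup 2 O b D) {x y : (G → ℂ) → ℤ} (hx : al O D b x = 0)
    (hy : al O D b y = 0) {g : G} (hg : ¬ 2 ∣ orderOf g) :
    (nn D g)⁻¹ * (cb b x g * cb b y g⁻¹) / 4 ∈ O := by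
  haveI : Fact (Nat.Prime 2) := ⟨Nat.prime_two⟩
  have hm0 : orderOf g ≠ 0 := (orderOf_pos g).ne'
  have hxR : cb b x g ∈ Rm (orderOf g) := cb_Rm hb x (pow_orderOf_eq_one g)
  have hyR : cb b y g⁻¹ ∈ Rm (orderOf g) :=
    cb_Rm hb y (by rw [inv_pow, pow_orderOf_eq_one, inv_one])
  obtain ⟨d, hd⟩ := IsPGroup.iff_card.mp (Pool.Agent.N20.defect_pgroup hD)
  set C := Subgroup.centralizer ({g} : Set G) with hC
  let P : Sylow 2 C := default
  have hPidx : ¬ 2 ∣ (P : Subgroup C).index := P.not_dvd_index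
  obtain ⟨a, ha⟩ := IsPGroup.iff_card.mp P.isPGroup'
  have hCcard : Nat.card C = 2 ^ a * (P : Subgroup C).index := by
    rw [← ha, Subgroup.card_mul_index]
  set c' := (P : Subgroup C).index with hc'
  have hc'0 : (c' : ℂ) ≠ 0 := by
    exact_mod_cast (Subgroup.index_ne_zero_of_finite (H := (P : Subgroup C)))
  have hinv : (c' : ℂ)⁻¹ ∈ O := nat_inv_mem hpO hPidx
  have h20 : (2 : ℂ) ≠ 0 := two_ne_zero
  have h2m : ∀ j : ℕ, (2 : ℂ) ^ j ∈ O := fun j => by
    have := pow_mem (natCast_mem' (O := O) 2) j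
    exact_mod_cast this
  have hnn : nn D g = (2 : ℂ) ^ a * c' / (2 : ℂ) ^ d := by
    unfold nn
    rw [← hC, hCcard, hd]
    push_cast
    rfl
  have hnninv : nn D g⁻¹ = nn D g := nn_inv D g
  have hcm : (c' : ℂ) ∈ O := natCast_mem' c'
  rcases Nat.lt_trichotomy (a + 1) d with h1 | h1 | h1
  · -- small centralizer
    obtain ⟨e, he⟩ := Nat.exists_eq_add_of_lt h1
    have h2 : (nn D g)⁻¹ * (cb b x g * cb b y g⁻¹) / 4 =
        (2 : ℂ) ^ e * (c' : ℂ)⁻¹ * (cb b x g * cb b y g⁻¹) := by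
      rw [hnn, he]
      have e1 : (2 : ℂ) ^ (a + 1 + e + 1) = (2 : ℂ) ^ a * (2 : ℂ) ^ e * 4 := by ring
      rw [e1]
      field_simp
    rw [h2]
    exact O.mul_mem _ _ (O.mul_mem _ _ (h2m e) hinv)
      (O.mul_mem _ _ (cb_mem hb x g) (cb_mem hb y _))
  · -- index two
    have hcard : Nat.card D = 2 * Nat.card ((P : Subgroup C).map C.subtype) := by
      have h3 : Nat.card ((P : Subgroup C).map C.subtype) = Nat.card P :=
        (Nat.card_congr ((P : Subgroup C).equivMapOfInjective _ C.subtype_injective).toEquiv).symm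
      rw [h3, ha, hd, ← h1, pow_succ, mul_comm]
    have hRp : IsPGroup 2 ((P : Subgroup C).map C.subtype) := P.isPGroup'.map _
    have hgC : g ∈ CR ((P : Subgroup C).map C.subtype) := by
      rw [mem_CR]
      intro r hr
      obtain ⟨c, -, rfl⟩ := Subgroup.mem_map.mp hr
      exact (Subgroup.mem_centralizer_iff.mp c.2 g (Set.mem_singleton g)).symm
    have h2 := half_case hpO hb hD hx hRp ⟨g, hgC⟩ hg hcard
    have h3 : cb b x g ∈ O.nonunits := (red_eq_zero_iff (cb_mem hb x g)).mp h2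
    have h4 := unram hpO hm0 hg 0 _ hxR (by rw [pow_zero, div_one]; exact h3)
    rw [zero_add, pow_one] at h4
    have h5 : (nn D g)⁻¹ * (cb b x g * cb b y g⁻¹) / 4 =
        (c' : ℂ)⁻¹ * (cb b x g / ((2 : ℕ) : ℂ) * cb b y g⁻¹) := by
      rw [hnn, ← h1]
      have e1 : (2 : ℂ) ^ (a + 1) = (2 : ℂ) ^ a * 2 := by ring
      rw [e1]
      push_cast
      field_simp
      ring
    rw [h5]
    exact O.mul_mem _ _ hinv (O.mul_mem _ _ h4 (cb_mem hb y _))
  · -- large centralizer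
    obtain ⟨e, he⟩ := Nat.exists_eq_add_of_le (Nat.lt_succ_iff.mp h1)
    have hq : nn D g = (2 : ℂ) ^ e * c' := by
      rw [hnn, he]
      field_simp
      ring
    have key : ∀ (w : (G → ℂ) → ℤ) (k : G), al O D b w = 0 → cb b w k ∈ Rm (orderOf g) →
        nn D k = nn D g → cb b w k / (2 : ℂ) ^ (e + 1) ∈ O := by
      intro w k hw hwR hk
      have h2 := div_case hpO hb hD hw k
      rw [hk, hq] at h2
      have h3 : cb b w k / ((2 : ℕ) : ℂ) ^ e ∈ O.nonunits := by
        have h4 : cb b w k / ((2 : ℕ) : ℂ) ^ e = cb b w k / ((2 : ℂ) ^ e * c') * c' := by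
          push_cast
          field_simp
        rw [h4, ← red_eq_zero_iff (O.mul_mem _ _ (nonunits_mem h2) hcm),
          red_mul (nonunits_mem h2) hcm, red_eq_zero h2, zero_mul]
      have h4 := unram hpO hm0 hg e _ hwR h3
      push_cast at h4
      exact h4
    have h2 := key x g hx hxR rfl
    have h3 := key y g⁻¹ hy hyR hnninv
    have h4 : (nn D g)⁻¹ * (cb b x g * cb b y g⁻¹) / 4 = (2 : ℂ) ^ e * (c' : ℂ)⁻¹ *
        (cb b x g / (2 : ℂ) ^ (e + 1) * (cb b y g⁻¹ / (2 : ℂ) ^ (e + 1))) := by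
      rw [hq]
      have e1 : (2 : ℂ) ^ (e + 1) = (2 : ℂ) ^ e * 2 := by ring
      rw [e1]
      field_simp
      ring
    rw [h4]
    exact O.mul_mem _ _ (O.mul_mem _ _ (h2m e) hinv) (O.mul_mem _ _ h2 h3)

lemma cb_cl {B : Set (G → ℂ)} (hB : IsBlock O B) (x : (G → ℂ) → ℤ) : IsCl (cb B x) := by
  intro g y
  unfold cb
  refine Finset.sum_congr rfl fun χ hχ => ?_
  rw [(hB.irr χ ((mem_XB hB.irr).mp hχ)).conj]

/-- **Divisibility by four.** -/
theorem four_dvd (hpO : ((2 : ℕ) : ℂ) ∈ O.nonunits) {b : Set (G → ℂ)} (hb : IsBlock O b)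
    {D : Subgroup G} (hD : IsDefectGroup 2 O b D) {x y : (G → ℂ) → ℤ} (hx : al O D b x = 0)
    (hy : al O D b y = 0) {N : ℤ}
    (hN : (N : ℂ) = ∑ χ ∈ XB b, ∑ ψ ∈ XB b, (x χ : ℂ) * y ψ *
      ((Nat.card D : ℂ) * IC.B (cut 2 χ) ψ)) : (4 : ℤ) ∣ N := by
  haveI : Fact (Nat.Prime 2) := ⟨Nat.prime_two⟩
  have hG0 : (Nat.card G : ℂ) ≠ 0 := by exact_mod_cast Nat.card_pos.ne'
  have hD0 : (Nat.card D : ℂ) ≠ 0 := by exact_mod_cast Nat.card_pos.ne'
  set f : G → ℂ := fun g => if 2 ∣ orderOf g then 0 else cb b x g * cb b y g⁻¹ with hf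
  have hfc : IsCl f := by
    intro g z
    simp only [hf]
    have e : (z * g * z⁻¹)⁻¹ = z * g⁻¹ * z⁻¹ := by group
    rw [orderOf_conj', e, cb_cl hb x, cb_cl hb y]
  have h1 : (N : ℂ) = (Nat.card D : ℂ) / Nat.card G * ∑ g : G, f g := by
    have h2 : ∀ g : G, f g = ∑ χ ∈ XB b, ∑ ψ ∈ XB b, (x χ : ℂ) * y ψ * (cut 2 χ g * ψ g⁻¹) := by
      intro g
      simp only [hf]
      unfold cut cb
      split_ifs with h
      · simp
      · rw [Finset.sum_mul_sum]
        refine Finset.sum_congr rfl fun χ _ => ?_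
        refine Finset.sum_congr rfl fun ψ _ => ?_
        ring
    have h3 : ∑ g : G, f g = ∑ χ ∈ XB b, ∑ ψ ∈ XB b, (x χ : ℂ) * y ψ *
        ∑ g : G, cut 2 χ g * ψ g⁻¹ := by
      rw [Finset.sum_congr rfl (fun g _ => h2 g), Finset.sum_comm]
      refine Finset.sum_congr rfl fun χ _ => ?_
      rw [Finset.sum_comm]
      refine Finset.sum_congr rfl fun ψ _ => ?_
      rw [← Finset.mul_sum]
    rw [hN, h3, Finset.mul_sum]
    refine Finset.sum_congr rfl fun χ _ => ?_
    rw [Finset.mul_sum]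
    refine Finset.sum_congr rfl fun ψ _ => ?_
    unfold IC.B
    field_simp
  have h2 : (N : ℂ) / 4 = ∑ K : ConjClasses G, if 2 ∣ orderOf (rep K) then 0 else
      (nn D (rep K))⁻¹ * (cb b x (rep K) * cb b y (rep K)⁻¹) / 4 := by
    rw [h1, sum_classes, Finset.mul_sum, Finset.sum_div]
    refine Finset.sum_congr rfl fun K _ => ?_
    have h3 : ∀ g ∈ Finset.univ.filter (fun g => IsConj (rep K) g), f g = f (rep K) := by
      intro g hg
      exact (hfc.isConj (Finset.mem_filter.mp hg).2).symm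
    rw [Finset.sum_congr rfl h3, Finset.sum_const, nsmul_eq_mul]
    have h4 : ((Finset.univ.filter (fun g : G => IsConj (rep K) g)).card : ℂ) =
        (Nat.card {y : G // IsConj (rep K) y} : ℂ) := by
      rw [Nat.card_eq_fintype_card, Fintype.card_subtype]
    have h5 := card_class_mul (rep K)
    have h6 : (Nat.card {y : G // IsConj (rep K) y} : ℂ) *
        (Nat.card (Subgroup.centralizer ({rep K} : Set G)) : ℂ) = Nat.card G := by
      exact_mod_cast h5
    have h7 : (Nat.card (Subgroup.centralizer ({rep K} : Set G)) : ℂ) ≠ 0 := by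
      exact_mod_cast Nat.card_pos.ne'
    rw [h4]
    simp only [hf]
    split_ifs with h
    · simp
    · unfold nn
      rw [← h6]
      have h8 : (Nat.card {y : G // IsConj (rep K) y} : ℂ) ≠ 0 := by
        exact_mod_cast (card_class_pos (rep K)).ne'
      field_simp
  have h3 : (N : ℂ) / 4 ∈ O := by
    rw [h2]
    refine sum_mem fun K _ => ?_
    split_ifs with h
    · exact O.zero_mem
    · exact term_mem hpO hb hD hx hy h
  have h4 : ((N.natAbs : ℕ) : ℂ) / ((2 : ℕ) : ℂ) ^ 2 ∈ O := by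
    have e4 : (((2 : ℕ) : ℂ)) ^ 2 = 4 := by norm_num
    rw [e4]
    rcases Int.natAbs_eq N with h6 | h6
    · have h7 : ((N.natAbs : ℕ) : ℂ) = (N : ℂ) := by
        have h8 : ((N.natAbs : ℕ) : ℤ) = N := by omega
        rw [← Int.cast_natCast, h8]
      rw [h7]
      exact h3
    · have h7 : ((N.natAbs : ℕ) : ℂ) = -(N : ℂ) := by
        have h8 : ((N.natAbs : ℕ) : ℤ) = -N := by omega
        rw [← Int.cast_natCast, h8, Int.cast_neg]
      rw [h7, neg_div]
      exact O.neg_mem _ h3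
  have h5 := dvd_of_div_mem hpO h4
  exact Int.natCast_dvd.mpr h5

end Pool.Agent.Zk65.TB
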