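import Mathlib
import Pool.Agent.N20.Sub5
import Pool.Agent.Zk65.TB6
import Pool.Agent.Zk65.TB8

/-!
The bounds for subsections of 2-blocks.
-/

set_option autoImplicit false
set_option linter.style.haveILetI false
set_option linter.unusedSectionVars false

open scoped BigOperators Classical
open Pool.Agent.Helper884 Pool.Agent.H254R3.IN Pool.Agent.N20

noncomputable section

namespace Pool.Agent.Zk65.TB

variable {G : Type} [Group G] [Fintype G]

lemma root_mem {O : ValuationSubring ℂ} {z : ℂ} {m : ℕ} (hm : m ≠ 0) (h : z ^ m = 1) :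
    z ∈ O := by
  by_contra hz
  have h1 : z⁻¹ ∈ O := (O.mem_or_inv_mem z).resolve_left hz
  have h2 : z = z⁻¹ ^ (m - 1) := by
    have hz0 : z ≠ 0 := by
      rintro rfl
      rw [zero_pow hm] at h
      exact zero_ne_one h
    have h3 : z⁻¹ ^ m = 1 := by rw [inv_pow, h, inv_one]
    have h4 : z⁻¹ ^ (m - 1) * z⁻¹ = 1 := by
      rw [← pow_succ, Nat.sub_add_cancel (Nat.pos_of_ne_zero hm), h3]
    calc z = 1 * z := (one_mul z).symm
      _ = z⁻¹ ^ (m - 1) * z⁻¹ * z := by rw [h4]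
      _ = z⁻¹ ^ (m - 1) := by rw [mul_assoc, inv_mul_cancel₀ hz0, mul_one]
  exact hz (h2 ▸ pow_mem h1 _)

/-- odd differences -/
theorem pair_count_odd {k : ℕ} {O : ValuationSubring ℂ} (hpO : ((2 : ℕ) : ℂ) ∈ O.nonunits)
    (m : ZMod (2 ^ (k + 1)) → ℤ) (h : red O (∑ i, ch 2 k i * m i) ≠ 0) :
    2 ≤ (Finset.univ.filter (fun q : ZMod (2 ^ (k + 1)) × ZMod (2 ^ (k + 1)) =>
      RR 2 k q.1 q.2 ∧ ¬ (2 : ℤ) ∣ m q.1 - m q.2)).card := by
  haveI : Fact (Nat.Prime 2) := ⟨Nat.prime_two⟩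
  haveI := charP_RF hpO
  set w : ZMod (2 ^ (k + 1)) := ((2 ^ k : ℕ) : ZMod (2 ^ (k + 1))) with hw
  have hpw : ((2 : ℕ) : ZMod (2 ^ (k + 1))) * w = 0 := by
    rw [hw, ← Nat.cast_mul, ← pow_succ', ZMod.natCast_self]
  have hw0 : w ≠ 0 := by
    rw [hw, Ne, ZMod.natCast_eq_zero_iff]
    intro hdvd
    have := Nat.le_of_dvd (pow_pos (by norm_num) k) hdvd
    have h2 : 2 ^ k < 2 ^ (k + 1) := Nat.pow_lt_pow_right (by norm_num) (Nat.lt_succ_self k)
    omega
  have hroot : ∀ i : ZMod (2 ^ (k + 1)), ch 2 k i ^ 2 ^ (k + 1) = 1 := by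
    intro i
    rw [← AddChar.map_nsmul_eq_pow, nsmul_eq_mul, ZMod.natCast_self, zero_mul,
      AddChar.map_zero_eq_one]
  have h1 : red O (∑ i, ch 2 k i * m i) = ((∑ i, m i : ℤ) : RF O) := by
    rw [red_sum _ _ (fun i _ => O.mul_mem _ _ (root_mem (by positivity) (hroot i))
      (intCast_mem' _))]
    push_cast
    refine Finset.sum_congr rfl fun i _ => ?_
    rw [red_mul (root_mem (by positivity) (hroot i)) (intCast_mem' _), red_intCast,
      Pool.Agent.Y62.red_root hpO (hroot i), one_mul]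
  have hpar : ¬ (2 : ℤ) ∣ ∑ i, m i := by
    intro hdvd
    apply h
    rw [h1]
    have := (CharP.intCast_eq_zero_iff (RF O) 2 (∑ i, m i)).mpr (by exact_mod_cast hdvd)
    exact this
  obtain ⟨i, hi⟩ : ∃ i, ¬ (2 : ℤ) ∣ m i - m (i + w) := by
    by_contra hcon
    push Not at hcon
    apply hpar
    -- pair up the arguments
    have hsub : ∀ i ∈ (Finset.univ : Finset (ZMod (2 ^ (k + 1)))), (m i : ZMod 2) + m (i + w) = 0 := by
      intro i _
      obtain ⟨c, hc⟩ := hcon i
      have h3 : m i + m (i + w) = 2 * (c + m (i + w)) := by linarith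
      have h4 : ((m i + m (i + w) : ℤ) : ZMod 2) = 0 := by
        rw [ZMod.intCast_zmod_eq_zero_iff_dvd]
        exact ⟨_, by exact_mod_cast h3⟩
      exact_mod_cast h4
    have h5 : ((∑ i, m i : ℤ) : ZMod 2) = 0 := by
      push_cast
      refine Finset.sum_involution (fun i _ => i + w) hsub ?_ (fun i _ => Finset.mem_univ _) ?_
      · intro i _ _ h6
        exact hw0 (by simpa using h6)
      · intro i _
        have h7 : w + w = 0 := by
          have := hpw
          push_cast at this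
          rw [← two_mul]
          exact this
        rw [add_assoc, h7, add_zero]
    rw [ZMod.intCast_zmod_eq_zero_iff_dvd] at h5
    exact_mod_cast h5
  have hR1 : RR 2 k i (i + w) := by
    unfold RR
    have : i - (i + w) = -w := by ring
    rw [this, mul_neg, hpw, neg_zero]
  have hsub : ({(i, i + w), (i + w, i)} : Finset (ZMod (2 ^ (k + 1)) × ZMod (2 ^ (k + 1)))) ⊆
      Finset.univ.filter (fun q => RR 2 k q.1 q.2 ∧ ¬ (2 : ℤ) ∣ m q.1 - m q.2) := by
    intro q hq
    rw [Finset.mem_insert, Finset.mem_singleton] at hq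
    rw [Finset.mem_filter]
    refine ⟨Finset.mem_univ _, ?_⟩
    rcases hq with rfl | rfl
    · exact ⟨hR1, hi⟩
    · refine ⟨RR_symm hR1, ?_⟩
      intro hd
      apply hi
      obtain ⟨c, hc⟩ := hd
      exact ⟨-c, by simp only at hc; linarith⟩
  have hcard : ({(i, i + w), (i + w, i)} :
      Finset (ZMod (2 ^ (k + 1)) × ZMod (2 ^ (k + 1)))).card = 2 := by
    rw [Finset.card_pair]
    intro h0
    have h6 := (Prod.mk.inj h0).1
    exact hw0 (by simpa using h6.symm)
  exact hcard.symm.le.trans (Finset.card_le_card hsub)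

/-- The counting theorem on the section of a `2`-element. -/
theorem sub_count2 {O : ValuationSubring ℂ} (hpO : ((2 : ℕ) : ℂ) ∈ O.nonunits) {u : G} {k : ℕ}
    (hu : orderOf u = 2 ^ k) {b : Set (CC u → ℂ)} (hb : IsBlock O b) {D' : Subgroup (CC u)}
    (hD' : IsDefectGroup 2 O b D') (S S' : Set (G → ℂ)) (hS : ∀ χ ∈ S, IsIrr χ)
    (hS' : ∀ χ ∈ S', IsIrr χ)
    (hnz : ∀ z : {θ // θ ∈ XB b} → ℤ, (∑ θ, (z θ : RF O) * red O (uu D' (θ : CC u → ℂ))) ≠ 0 →
      ∀ χ ∈ S, ∑ θ : {θ // θ ∈ XB b}, (z θ : ℂ) * ((Nat.card D' : ℂ) * JJ 2 u 1 θ χ) ≠ 0)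
    (hun : ∀ z : {θ // θ ∈ XB b} → ℤ, (∑ θ, (z θ : RF O) * red O (uu D' (θ : CC u → ℂ))) ≠ 0 →
      ∀ χ ∈ S', red O (∑ θ : {θ // θ ∈ XB b}, (z θ : ℂ) * ((Nat.card D' : ℂ) * JJ 2 u 1 θ χ)) ≠ 0) :
    4 * Nat.card S ≤ Nat.card D' * max 4 (lB 2 b) ∧
      4 * Nat.card S + Nat.card S' ≤ Nat.card D' * max 5 (lB 2 b) := by
  have hp : Nat.Prime 2 := Nat.prime_two
  haveI : Fact (Nat.Prime 2) := ⟨hp⟩
  haveI := charP_RF hpO
  obtain ⟨d, hd⟩ := IsPGroup.iff_card.mp (Pool.Agent.N20.defect_pgroup hD')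
  have hD0 : (Nat.card D' : ℂ) ≠ 0 := by exact_mod_cast Nat.card_pos.ne'
  have hDp : (Nat.card D' : ℂ) = ((2 : ℕ) : ℂ) ^ d := by rw [hd]; push_cast; rfl
  have hmem : ∀ θ : {θ // θ ∈ XB b}, (θ : CC u → ℂ) ∈ b := fun θ => (mem_XB hb.irr).mp θ.2
  have hirr : ∀ θ : {θ // θ ∈ XB b}, IsIrr (θ : CC u → ℂ) := fun θ => hb.irr _ (hmem θ)
  choose M hM using fun θ η : {θ // θ ∈ XB b} => contr_int hpO hb hD' (hmem θ) (hmem η)
  have hsym : ∀ θ η : {θ // θ ∈ XB b}, M θ η = M η θ := by
    intro θ η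
    have : (M θ η : ℂ) = M η θ := by
      rw [hM, hM, B_cut_comm]
    exact_mod_cast this
  have hsq : ∀ θ η, ∑ φ, M θ φ * M φ η = (Nat.card D' : ℤ) * M θ η := by
    intro θ η
    have : ((∑ φ, M θ φ * M φ η : ℤ) : ℂ) = (((Nat.card D' : ℤ) * M θ η : ℤ) : ℂ) := by
      have h1 := B_cut_idem hpO hb (χ := θ) (ψ := η) (hmem θ)
      rw [← Finset.sum_coe_sort (XB b)
        (fun φ : CC u → ℂ => IC.B (cut 2 (θ : CC u → ℂ)) φ * IC.B (cut 2 φ) η)] at h1
      push_cast
      simp only [hM]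
      rw [← h1, Finset.mul_sum, Finset.mul_sum]
      refine Finset.sum_congr rfl fun φ _ => ?_
      ring
    exact_mod_cast this
  have htr : ∑ θ, M θ θ = (Nat.card D' : ℤ) * (lB 2 b : ℤ) := by
    have : ((∑ θ, M θ θ : ℤ) : ℂ) = (((Nat.card D' : ℤ) * (lB 2 b : ℤ) : ℤ) : ℂ) := by
      push_cast
      simp only [hM]
      rw [← trace_eq hpO hb, ← Finset.mul_sum,
        ← Finset.sum_coe_sort (XB b) (fun φ : CC u → ℂ => IC.B (cut 2 φ) φ)]
    exact_mod_cast this
  obtain ⟨θ₀, hθ₀, hθ₀ne⟩ := exists_uu_ne hpO hb hD'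
  have hredM : ∀ θ η, ((M θ η : ℤ) : RF O) = red O (uu D' (θ : CC u → ℂ)) * sr 2 O θ₀ η := by
    intro θ η
    rw [← red_intCast, hM, card_mul_B D' (hirr θ) (fun g y => (hirr η).conj g y),
      red_mul (Pool.Agent.N20.uu_mem hpO hb hD' (hmem θ)) (SS_mem (hirr θ) (hirr η)),
      red_SS (hirr θ) (hirr η), sr_block hb (hmem θ) hθ₀]
  -- divisibility by four
  have h4 : ∀ x y : {θ // θ ∈ XB b} → ℤ,
      ∑ i : {θ // θ ∈ XB b}, (x i : RF O) * red O (uu D' (i : CC u → ℂ)) = 0 →
      ∑ i : {θ // θ ∈ XB b}, (y i : RF O) * red O (uu D' (i : CC u → ℂ)) = 0 →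
      (4 : ℤ) ∣ fm M x y := by
    intro x y hx hy
    set x' : (CC u → ℂ) → ℤ := fun θ => if h : θ ∈ XB b then x ⟨θ, h⟩ else 0 with hx'
    set y' : (CC u → ℂ) → ℤ := fun θ => if h : θ ∈ XB b then y ⟨θ, h⟩ else 0 with hy'
    have ex : ∀ θ : {θ // θ ∈ XB b}, x' θ = x θ := fun θ => by
      simp only [hx']
      rw [dif_pos θ.2]
    have ey : ∀ θ : {θ // θ ∈ XB b}, y' θ = y θ := fun θ => by
      simp only [hy']
      rw [dif_pos θ.2]
    refine four_dvd hpO hb hD' (x := x') (y := y') ?_ ?_ ?_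
    · unfold al
      rw [← Finset.sum_coe_sort (XB b), ← hx]
      exact Finset.sum_congr rfl fun θ _ => by rw [ex]
    · unfold al
      rw [← Finset.sum_coe_sort (XB b), ← hy]
      exact Finset.sum_congr rfl fun θ _ => by rw [ey]
    · unfold fm
      push_cast
      rw [← Finset.sum_coe_sort (XB b)]
      refine Finset.sum_congr rfl fun θ _ => ?_
      rw [← Finset.sum_coe_sort (XB b)]
      refine Finset.sum_congr rfl fun η _ => ?_
      rw [ex, ey, hM]
  have hX : ∀ χ : {χ // χ ∈ IC.Irr G}, IsIrr (χ : G → ℂ) := fun χ => mem_Irr.mp χ.2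
  choose n hn using fun (χ : {χ // χ ∈ IC.Irr G}) (η : {θ // θ ∈ XB b}) =>
    mm_int u (hX χ) (hirr η)
  have K1 : ∀ (t : ℕ) (θ : {θ // θ ∈ XB b}) (χ : {χ // χ ∈ IC.Irr G}),
      (Nat.card D' : ℂ) * JJ 2 u t θ χ = ∑ η : {θ // θ ∈ XB b},
        (M θ η : ℂ) * n χ η * cu u (η : CC u → ℂ) ^ t := by
    intro t θ χ
    rw [JJ_eq hpO u hb (hmem θ) (hX χ) t, Finset.mul_sum,
      ← Finset.sum_coe_sort (XB b) (fun η : CC u → ℂ =>
        (Nat.card D' : ℂ) * (mm u χ η * cu u η ^ t * IC.B (cut 2 (θ : CC u → ℂ)) η))]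
    refine Finset.sum_congr rfl fun η _ => ?_
    rw [hM, hn]
    ring
  have K2 : ∀ (t : ℕ), Nat.Coprime t 2 → ∀ θ θ' : {θ // θ ∈ XB b},
      ∑ χ : {χ // χ ∈ IC.Irr G}, (starRingEnd ℂ) ((Nat.card D' : ℂ) * JJ 2 u t θ χ) *
        ((Nat.card D' : ℂ) * JJ 2 u t θ' χ) = (Nat.card D' : ℂ) * M θ θ' := by
    intro t ht θ θ'
    have h1 := sec_frame hu ht (a := (θ : CC u → ℂ)) (a' := (θ' : CC u → ℂ))
      (fun s => (Pool.Agent.Y62.conj_char (hirr θ) s).symm) (fun g y => (hirr θ').conj g y)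
      (fun s => (Pool.Agent.Y62.conj_char (hirr θ') s).symm)
    rw [← Finset.sum_coe_sort (IC.Irr G) (fun χ : G → ℂ =>
      (starRingEnd ℂ) (JJ 2 u t (θ : CC u → ℂ) χ) * JJ 2 u t (θ' : CC u → ℂ) χ)] at h1
    rw [hM, ← h1, Finset.mul_sum, Finset.mul_sum]
    refine Finset.sum_congr rfl fun χ _ => ?_
    rw [map_mul, Complex.conj_natCast]
    ring
  have hcard : ∀ T : Set (G → ℂ), (∀ χ ∈ T, IsIrr χ) → Nat.card T = (Finset.univ.filter
      (fun χ : {χ // χ ∈ IC.Irr G} => (χ : G → ℂ) ∈ T)).card := by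
    intro T hT
    rw [← Fintype.card_subtype, ← Nat.card_eq_fintype_card]
    refine Nat.card_congr ?_
    exact
      { toFun := fun χ => ⟨⟨χ, mem_Irr.mpr (hT χ χ.2)⟩, χ.2⟩
        invFun := fun χ => ⟨χ.1, χ.2⟩
        left_inv := fun _ => rfl
        right_inv := fun _ => rfl }
  have hex : ∃ z : {θ // θ ∈ XB b} → ℤ,
      (∑ θ, (z θ : RF O) * red O (uu D' (θ : CC u → ℂ))) *
        (∑ η, (z η : RF O) * sr 2 O θ₀ η) ≠ 0 := by
    refine ⟨fun θ => if (θ : CC u → ℂ) = θ₀ then 1 else 0, ?_⟩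
    have h1 : ∀ w : (CC u → ℂ) → RF O, ∑ θ : {θ // θ ∈ XB b},
        (((if (θ : CC u → ℂ) = θ₀ then 1 else 0 : ℤ)) : RF O) * w θ = w θ₀ := by
      intro w
      rw [Finset.sum_eq_single (⟨θ₀, (mem_XB hb.irr).mpr hθ₀⟩ : {θ // θ ∈ XB b})]
      · simp
      · intro θ _ hne
        rw [if_neg]
        · simp
        · intro h
          exact hne (Subtype.ext h)
      · intro h
        exact absurd (Finset.mem_univ _) h
    rw [h1 (fun θ => red O (uu D' θ)), h1 (fun η => sr 2 O θ₀ η), sr_eq hpO hb hD' hθ₀ hθ₀]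
    have h5 : ccG O 2 D' θ₀ ≠ 0 := by
      intro h
      have := rho_mul_cc hpO hb hD' hθ₀
      rw [h, mul_zero] at this
      exact zero_ne_one this
    exact mul_ne_zero hθ₀ne (mul_ne_zero hθ₀ne h5)
  have hcardpos : (0 : ℤ) < Nat.card D' := by exact_mod_cast Nat.card_pos
  rcases k with _ | k
  · -- `u = 1`
    have hcu : ∀ η : {θ // θ ∈ XB b}, cu u (η : CC u → ℂ) ^ 1 = 1 := by
      intro η
      have := cu_pow u (hirr η)
      rwa [hu, pow_zero] at this
    have K1' : ∀ (θ : {θ // θ ∈ XB b}) (χ : {χ // χ ∈ IC.Irr G}),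
        (Nat.card D' : ℂ) * JJ 2 u 1 θ χ = ((∑ η, M θ η * n χ η : ℤ) : ℂ) := by
      intro θ χ
      rw [K1]
      push_cast
      refine Finset.sum_congr rfl fun η _ => ?_
      rw [hcu, mul_one]
    have hfr : FrD M (fun (χ : {χ // χ ∈ IC.Irr G}) η => n χ η) (Nat.card D' : ℤ)
        (Nat.card D' : ℤ) (lB 2 b : ℤ) := by
      refine ⟨hsym, hsq, htr, ?_, hcardpos, hcardpos.le, by positivity⟩
      intro θ θ'
      have h1 := K2 1 (Nat.coprime_one_left 2) θ θ'
      simp only [K1', map_intCast] at h1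
      exact_mod_cast h1
    have hval : ∀ (z : {θ // θ ∈ XB b} → ℤ) (χ : {χ // χ ∈ IC.Irr G}),
        ((fm M (fun η => n χ η) z : ℤ) : ℂ) =
          ∑ θ : {θ // θ ∈ XB b}, (z θ : ℂ) * ((Nat.card D' : ℂ) * JJ 2 u 1 θ χ) := by
      intro z χ
      rw [fm_symm hsym, fm_eq]
      push_cast
      refine Finset.sum_congr rfl fun θ _ => ?_
      rw [K1']
      push_cast
      rfl
    have main := lat hfr (K := RF O) (fun θ => red O (uu D' (θ : CC u → ℂ)))
      (fun η => sr 2 O θ₀ η) hredM h4 hex (N := (Nat.card S : ℤ)) (N' := (Nat.card S' : ℤ)) ?_ ?_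
    · have e1 := main.1
      have e2 := main.2
      constructor
      · exact_mod_cast e1
      · exact_mod_cast e2
    · intro z hz
      unfold cnt
      rw [hcard S hS]
      have : (Finset.univ.filter
          (fun χ : {χ // χ ∈ IC.Irr G} => (χ : G → ℂ) ∈ S)).card ≤
          (Finset.univ.filter (fun r : {χ // χ ∈ IC.Irr G} =>
            fm M (fun η => n r η) z ≠ 0)).card := by
        apply Finset.card_le_card
        intro χ hχ
        rw [Finset.mem_filter] at hχ ⊢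
        refine ⟨Finset.mem_univ _, ?_⟩
        intro h0
        apply hnz z (left_ne_zero_of_mul hz) χ hχ.2
        rw [← hval, h0, Int.cast_zero]
      exact_mod_cast this
    · intro z hz
      rw [hcard S' hS']
      have : (Finset.univ.filter
          (fun χ : {χ // χ ∈ IC.Irr G} => (χ : G → ℂ) ∈ S')).card ≤
          (Finset.univ.filter (fun r : {χ // χ ∈ IC.Irr G} =>
            ¬ (2 : ℤ) ∣ fm M (fun η => n r η) z)).card := by
        apply Finset.card_le_card
        intro χ hχ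
        rw [Finset.mem_filter] at hχ ⊢
        refine ⟨Finset.mem_univ _, ?_⟩
        intro h0
        apply hun z (left_ne_zero_of_mul hz) χ hχ.2
        rw [← hval, red_intCast]
        exact (CharP.intCast_eq_zero_iff (RF O) 2 _).mpr (by exact_mod_cast h0)
      exact_mod_cast this
  · haveI : NeZero (2 ^ (k + 1)) := ⟨pow_ne_zero _ (by norm_num)⟩
    have hcu : ∀ η : {θ // θ ∈ XB b}, ∃ j, ch 2 k j = cu u (η : CC u → ℂ) := by
      intro η
      apply exists_jj
      rw [← hu]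
      exact cu_pow u (hirr η)
    choose jj hjj using hcu
    set m : {χ // χ ∈ IC.Irr G} → {θ // θ ∈ XB b} → ZMod (2 ^ (k + 1)) → ℤ :=
      fun χ θ i => ∑ η, M θ η * (if jj η = i then n χ η else 0) with hm
    have K4 : ∀ (t : ZMod (2 ^ (k + 1))) (θ : {θ // θ ∈ XB b}) (χ : {χ // χ ∈ IC.Irr G}),
        ∑ i, ch 2 k (t * i) * m χ θ i = (Nat.card D' : ℂ) * JJ 2 u t.val θ χ := by
      intro t θ χ
      rw [K1]
      simp only [hm]
      push_cast
      simp only [Finset.mul_sum]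
      rw [Finset.sum_comm]
      refine Finset.sum_congr rfl fun η _ => ?_
      rw [Finset.sum_eq_single (jj η)]
      · rw [if_pos rfl, ← hjj, ← AddChar.map_nsmul_eq_pow, nsmul_eq_mul, ZMod.natCast_zmod_val]
        ring
      · intro i _ hi
        rw [if_neg (Ne.symm hi)]
        ring
      · intro h
        exact absurd (Finset.mem_univ _) h
    set f : {χ // χ ∈ IC.Irr G} × ZMod (2 ^ (k + 1)) × ZMod (2 ^ (k + 1)) →
        {θ // θ ∈ XB b} → ℤ := fun q η => if RR 2 k q.2.1 q.2.2 then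
          (if jj η = q.2.1 then n q.1 η else 0) - (if jj η = q.2.2 then n q.1 η else 0) else 0
      with hf
    have hfM : ∀ (θ : {θ // θ ∈ XB b}) q, ∑ η, M θ η * f q η =
        if RR 2 k q.2.1 q.2.2 then m q.1 θ q.2.1 - m q.1 θ q.2.2 else 0 := by
      intro θ q
      simp only [hf, hm]
      split_ifs with h
      · rw [← Finset.sum_sub_distrib]
        refine Finset.sum_congr rfl fun η _ => ?_
        ring
      · simp
    have hval1 : (1 : ZMod (2 ^ (k + 1))).val = 1 := by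
      haveI : Fact (1 < 2 ^ (k + 1)) := ⟨Nat.one_lt_pow (Nat.succ_ne_zero k) (by norm_num)⟩
      exact ZMod.val_one _
    have hfr : FrD M f (Nat.card D' : ℤ) (2 * (Nat.card D' : ℤ)) (lB 2 b : ℤ) := by
      refine ⟨hsym, hsq, htr, ?_, hcardpos, by linarith, by positivity⟩
      intro θ θ'
      simp only [hfM]
      have h1 := int_frame (fun χ i => m χ θ i) (fun χ i => m χ θ' i)
        ((Nat.card D' : ℤ) * M θ θ') (by
        intro t ht
        simp only [K4]
        have ht' : Nat.Coprime t.val 2 := by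
          rw [mem_NT] at ht
          exact ((Nat.Prime.coprime_iff_not_dvd hp).mpr ht).symm
        rw [K2 t.val ht' θ θ']
        push_cast
        rfl)
      rw [Fintype.sum_prod_type]
      simp only [Fintype.sum_prod_type]
      have h2 : ∀ (χ : {χ // χ ∈ IC.Irr G}) (i j : ZMod (2 ^ (k + 1))),
          (if RR 2 k i j then m χ θ i - m χ θ j else 0) *
            (if RR 2 k i j then m χ θ' i - m χ θ' j else 0) =
          if RR 2 k i j then (m χ θ i - m χ θ j) * (m χ θ' i - m χ θ' j) else 0 := by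
        intro χ i j
        split_ifs <;> ring
      simp only [h2]
      rw [h1]
      push_cast
      ring
    -- the values of the frame
    have hdd : ∀ (z : {θ // θ ∈ XB b} → ℤ) q, fm M (f q) z =
        if RR 2 k q.2.1 q.2.2 then (∑ θ, z θ * m q.1 θ q.2.1) - ∑ θ, z θ * m q.1 θ q.2.2
          else 0 := by
      intro z q
      rw [fm_symm hsym, fm_eq]
      simp only [hfM]
      split_ifs with h
      · rw [← Finset.sum_sub_distrib]
        refine Finset.sum_congr rfl fun j _ => ?_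
        ring
      · simp
    have hJ : ∀ (z : {θ // θ ∈ XB b} → ℤ) (χ : {χ // χ ∈ IC.Irr G}),
        ∑ θ : {θ // θ ∈ XB b}, (z θ : ℂ) * ((Nat.card D' : ℂ) * JJ 2 u 1 θ χ) =
          ∑ i, ch 2 k i * ((∑ θ, z θ * m χ θ i : ℤ) : ℂ) := by
      intro z χ
      have h4 : ∀ θ : {θ // θ ∈ XB b}, (Nat.card D' : ℂ) * JJ 2 u 1 θ χ =
          ∑ i, ch 2 k i * m χ θ i := by
        intro θ
        have := K4 1 θ χ
        rw [hval1] at this
        rw [← this]
        simp only [one_mul]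
      simp only [h4]
      push_cast
      simp only [Finset.mul_sum]
      rw [Finset.sum_comm]
      refine Finset.sum_congr rfl fun i _ => Finset.sum_congr rfl fun θ _ => ?_
      ring
    have hfib : ∀ (T : Set (G → ℂ)) (hT : ∀ χ ∈ T, IsIrr χ)
        (P : {χ // χ ∈ IC.Irr G} × ZMod (2 ^ (k + 1)) × ZMod (2 ^ (k + 1)) → Prop),
        (∀ χ : {χ // χ ∈ IC.Irr G}, (χ : G → ℂ) ∈ T → 2 ≤
          (Finset.univ.filter (fun q : ZMod (2 ^ (k + 1)) × ZMod (2 ^ (k + 1)) =>
            P (χ, q))).card) →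
        2 * Nat.card T ≤ (Finset.univ.filter (fun q => P q)).card := by
      intro T hT P hP
      calc 2 * Nat.card T
          = ∑ χ ∈ Finset.univ.filter (fun χ : {χ // χ ∈ IC.Irr G} => (χ : G → ℂ) ∈ T), 2 := by
            rw [Finset.sum_const, hcard T hT, smul_eq_mul, mul_comm]
        _ ≤ ∑ χ ∈ Finset.univ.filter (fun χ : {χ // χ ∈ IC.Irr G} => (χ : G → ℂ) ∈ T),
            (Finset.univ.filter (fun q : ZMod (2 ^ (k + 1)) × ZMod (2 ^ (k + 1)) =>
              P (χ, q))).card :=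
            Finset.sum_le_sum fun χ hχ => hP χ (Finset.mem_filter.mp hχ).2
        _ ≤ ∑ χ : {χ // χ ∈ IC.Irr G},
            (Finset.univ.filter (fun q : ZMod (2 ^ (k + 1)) × ZMod (2 ^ (k + 1)) =>
              P (χ, q))).card :=
            Finset.sum_le_sum_of_subset (Finset.subset_univ _)
        _ = _ := by
            simp only [Finset.card_filter]
            rw [Fintype.sum_prod_type]
    have main := lat hfr (K := RF O) (fun θ => red O (uu D' (θ : CC u → ℂ)))
      (fun η => sr 2 O θ₀ η) hredM h4 hex (N := 2 * (Nat.card S : ℤ))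
      (N' := 2 * (Nat.card S' : ℤ)) ?_ ?_
    · have e1 := main.1
      have e2 := main.2
      constructor
      · have : (4 : ℤ) * Nat.card S ≤ Nat.card D' * max 4 (lB 2 b : ℤ) := by linarith
        exact_mod_cast this
      · have : (4 : ℤ) * Nat.card S + Nat.card S' ≤ Nat.card D' * max 5 (lB 2 b : ℤ) := by
          linarith
        exact_mod_cast this
    · intro z hz
      unfold cnt
      have := hfib S hS (fun q => fm M (f q) z ≠ 0) (by
        intro χ hχ
        have h3 := hnz z (left_ne_zero_of_mul hz) χ hχ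
        rw [hJ] at h3
        have h5 := pair_count (p := 2) _ h3
        have h6 : 2 ≤ (Finset.univ.filter (fun q : ZMod (2 ^ (k + 1)) × ZMod (2 ^ (k + 1)) =>
            fm M (f (χ, q)) z ≠ 0)).card := by
          refine le_trans (by norm_num) (h5.trans (Finset.card_le_card ?_))
          intro q hq
          have hq' := (Finset.mem_filter.mp hq).2
          refine Finset.mem_filter.mpr ⟨Finset.mem_univ _, ?_⟩
          show fm M (f (χ, q)) z ≠ 0
          rw [hdd]
          simp only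
          rw [if_pos hq'.1]
          exact sub_ne_zero.mpr hq'.2
        convert h6)
      exact_mod_cast this
    · intro z hz
      have := hfib S' hS' (fun q => ¬ (2 : ℤ) ∣ fm M (f q) z) (by
        intro χ hχ
        have h3 := hun z (left_ne_zero_of_mul hz) χ hχ
        rw [hJ] at h3
        have h5 := pair_count_odd hpO _ h3
        have h6 : 2 ≤ (Finset.univ.filter (fun q : ZMod (2 ^ (k + 1)) × ZMod (2 ^ (k + 1)) =>
            ¬ (2 : ℤ) ∣ fm M (f (χ, q)) z)).card := by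
          refine h5.trans (Finset.card_le_card ?_)
          intro q hq
          have hq' := (Finset.mem_filter.mp hq).2
          refine Finset.mem_filter.mpr ⟨Finset.mem_univ _, ?_⟩
          show ¬ (2 : ℤ) ∣ fm M (f (χ, q)) z
          rw [hdd]
          simp only
          rw [if_pos hq'.1]
          exact hq'.2
        convert h6)
      exact_mod_cast this

end Pool.Agent.Zk65.TB
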