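import Mathlib
import Pool.Agent.N20.Sub5
import Pool.Agent.Zk65.SE12
import Pool.Agent.Zk65.TB8
import Pool.Agent.Zk65.TB9

/-!
The counting theorem on the section of a `p`-element, for blocks with given second elementary
divisor.
-/

set_option autoImplicit false
set_option linter.style.haveILetI false
set_option linter.unusedSectionVars false

open scoped BigOperators Classical
open Pool.Agent.Helper884 Pool.Agent.H254R3.IN Pool.Agent.N20 Pool.Agent.Zk65.TB

noncomputable section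

namespace Pool.Agent.Zk65.SE

variable {G : Type} [Group G] [Fintype G]

/-- differences prime to `p` -/
theorem pair_count_unit {p k : ℕ} [hp : Fact p.Prime] {O : ValuationSubring ℂ}
    (hpO : (p : ℂ) ∈ O.nonunits) (m : ZMod (p ^ (k + 1)) → ℤ)
    (h : red O (∑ i, ch p k i * m i) ≠ 0) :
    2 * (p - 1) ≤ (Finset.univ.filter (fun q : ZMod (p ^ (k + 1)) × ZMod (p ^ (k + 1)) =>
      RR p k q.1 q.2 ∧ ¬ (p : ℤ) ∣ m q.1 - m q.2)).card := by
  haveI := charP_RF hpO
  have hp0 : p ^ (k + 1) ≠ 0 := pow_ne_zero _ hp.out.ne_zero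
  have hroot : ∀ i : ZMod (p ^ (k + 1)), ch p k i ^ p ^ (k + 1) = 1 := by
    intro i
    rw [← AddChar.map_nsmul_eq_pow, nsmul_eq_mul, ZMod.natCast_self, zero_mul,
      AddChar.map_zero_eq_one]
  have h1 : red O (∑ i, ch p k i * m i) = ((∑ i, m i : ℤ) : RF O) := by
    rw [red_sum _ _ (fun i _ => O.mul_mem _ _ (TB.root_mem hp0 (hroot i)) (intCast_mem' _))]
    push_cast
    refine Finset.sum_congr rfl fun i _ => ?_
    rw [red_mul (TB.root_mem hp0 (hroot i)) (intCast_mem' _), red_intCast,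
      Pool.Agent.Y62.red_root hpO (hroot i), one_mul]
  have hpar : ¬ (p : ℤ) ∣ ∑ i, m i := by
    intro hdvd
    apply h
    rw [h1]
    exact (CharP.intCast_eq_zero_iff (RF O) p (∑ i, m i)).mpr hdvd
  obtain ⟨i₀, j₀, hR, hi⟩ : ∃ i j, RR p k i j ∧ ¬ (p : ℤ) ∣ m i - m j := by
    by_contra hcon
    push Not at hcon
    apply hpar
    rw [← Finset.sum_fiberwise_of_maps_to (s := Finset.univ) (t := Finset.univ)
      (g := fun i : ZMod (p ^ (k + 1)) => (p : ZMod (p ^ (k + 1))) * i)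
      (fun x _ => Finset.mem_univ _)]
    refine Finset.dvd_sum fun y _ => ?_
    by_cases hy : ∃ i₁, (p : ZMod (p ^ (k + 1))) * i₁ = y
    · obtain ⟨i₁, hi₁⟩ := hy
      have h2 : ∀ i ∈ Finset.univ.filter
          (fun i : ZMod (p ^ (k + 1)) => (p : ZMod (p ^ (k + 1))) * i = y),
          (p : ℤ) ∣ m i - m i₁ := by
        intro i hi
        apply hcon
        unfold RR
        rw [mul_sub, (Finset.mem_filter.mp hi).2, hi₁, sub_self]
      have h3 : (Finset.univ.filter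
          (fun i : ZMod (p ^ (k + 1)) => (p : ZMod (p ^ (k + 1))) * i = y)) =
          Finset.univ.filter (fun j : ZMod (p ^ (k + 1)) => RR p k i₁ j) := by
        apply Finset.filter_congr
        intro i _
        unfold RR
        rw [mul_sub, hi₁, sub_eq_zero, eq_comm]
      have h4 := card_coset (p := p) (k := k) i₁
      have h5 : ∑ i ∈ Finset.univ.filter
          (fun i : ZMod (p ^ (k + 1)) => (p : ZMod (p ^ (k + 1))) * i = y), m i =
          ∑ i ∈ Finset.univ.filter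
          (fun i : ZMod (p ^ (k + 1)) => (p : ZMod (p ^ (k + 1))) * i = y), (m i - m i₁) +
          p * m i₁ := by
        rw [Finset.sum_sub_distrib, Finset.sum_const, h3, h4, nsmul_eq_mul]
        ring
      rw [h5]
      exact dvd_add (Finset.dvd_sum h2) (dvd_mul_right _ _)
    · rw [Finset.sum_eq_zero]
      · exact dvd_zero _
      · intro i hi
        exact absurd ⟨i, (Finset.mem_filter.mp hi).2⟩ hy
  set C := Finset.univ.filter (fun j : ZMod (p ^ (k + 1)) => RR p k i₀ j) with hC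
  have hCcard : C.card = p := card_coset i₀
  set E₀ := C.filter (fun j => (p : ℤ) ∣ m j - m i₀) with hE₀
  set E₁ := C.filter (fun j => ¬ (p : ℤ) ∣ m j - m i₀) with hE₁
  have hsum : E₀.card + E₁.card = p :=
    (Finset.card_filter_add_card_filter_not _).trans hCcard
  have h0 : 0 < E₀.card := by
    apply Finset.card_pos.mpr
    refine ⟨i₀, ?_⟩
    rw [hE₀, Finset.mem_filter, hC, Finset.mem_filter, sub_self]
    refine ⟨⟨Finset.mem_univ _, ?_⟩, dvd_zero _⟩
    unfold RR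
    rw [sub_self, mul_zero]
  have h1' : 0 < E₁.card := by
    apply Finset.card_pos.mpr
    refine ⟨j₀, ?_⟩
    rw [hE₁, Finset.mem_filter, hC, Finset.mem_filter]
    refine ⟨⟨Finset.mem_univ _, hR⟩, fun h2 => hi ?_⟩
    rw [← neg_sub]
    exact dvd_neg.mpr h2
  have hmul : p - 1 ≤ E₀.card * E₁.card := by
    obtain ⟨a, ha⟩ := Nat.exists_eq_add_of_lt h0
    obtain ⟨b, hb⟩ := Nat.exists_eq_add_of_lt h1'
    rw [ha, hb] at hsum ⊢
    have : p - 1 = a + b + 1 := by omega
    rw [this]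
    nlinarith [Nat.zero_le (a * b)]
  have hdisj : Disjoint (E₀ ×ˢ E₁) (E₁ ×ˢ E₀) := by
    rw [Finset.disjoint_left]
    rintro ⟨a, b⟩ h2 h3
    rw [Finset.mem_product] at h2 h3
    exact (Finset.mem_filter.mp h3.1).2 (Finset.mem_filter.mp h2.1).2
  have hsub : (E₀ ×ˢ E₁) ∪ (E₁ ×ˢ E₀) ⊆
      Finset.univ.filter (fun q : ZMod (p ^ (k + 1)) × ZMod (p ^ (k + 1)) =>
        RR p k q.1 q.2 ∧ ¬ (p : ℤ) ∣ m q.1 - m q.2) := by
    rintro ⟨a, b⟩ h2
    rw [Finset.mem_filter]
    refine ⟨Finset.mem_univ _, ?_⟩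
    rcases Finset.mem_union.mp h2 with h2 | h2
    · obtain ⟨ha, hb⟩ := Finset.mem_product.mp h2
      obtain ⟨ha1, ha2⟩ := Finset.mem_filter.mp ha
      obtain ⟨hb1, hb2⟩ := Finset.mem_filter.mp hb
      refine ⟨RR_trans (RR_symm (Finset.mem_filter.mp ha1).2) (Finset.mem_filter.mp hb1).2, ?_⟩
      intro h3
      apply hb2
      have h4 := dvd_sub ha2 h3
      have h5 : m a - m i₀ - (m a - m b) = m b - m i₀ := by ring
      rwa [h5] at h4
    · obtain ⟨ha, hb⟩ := Finset.mem_product.mp h2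
      obtain ⟨ha1, ha2⟩ := Finset.mem_filter.mp ha
      obtain ⟨hb1, hb2⟩ := Finset.mem_filter.mp hb
      refine ⟨RR_trans (RR_symm (Finset.mem_filter.mp ha1).2) (Finset.mem_filter.mp hb1).2, ?_⟩
      intro h3
      apply ha2
      have h4 := dvd_add hb2 h3
      have h5 : m b - m i₀ + (m a - m b) = m a - m i₀ := by ring
      rwa [h5] at h4
  calc 2 * (p - 1) ≤ E₀.card * E₁.card + E₁.card * E₀.card := by
        rw [mul_comm E₁.card E₀.card]
        omega
    _ = ((E₀ ×ˢ E₁) ∪ (E₁ ×ˢ E₀)).card := by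
        rw [Finset.card_union_of_disjoint hdisj, Finset.card_product, Finset.card_product]
    _ ≤ _ := Finset.card_le_card hsub

/-- the minors of order two of the matrix of the contributions, multiplied by the order of the
defect group, are divisible by `q` -/
def MinorsDvd {H : Type} [Group H] [Fintype H] (p : ℕ) (b : Set (H → ℂ)) (D' : Subgroup H)
    (q : ℕ) : Prop :=
  ∀ θ ∈ b, ∀ θ' ∈ b, ∀ η ∈ b, ∀ η' ∈ b, ∃ c : ℤ, (Nat.card D' : ℂ) ^ 2 *
    (IC.B (cut p θ) η * IC.B (cut p θ') η' - IC.B (cut p θ) η' * IC.B (cut p θ') η) = q * c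

/-- The counting theorem on the section of a `p`-element. -/
theorem sub_count_q {p : ℕ} (hp : p.Prime) {O : ValuationSubring ℂ}
    (hpO : (p : ℂ) ∈ O.nonunits) {u : G} {k : ℕ}
    (hu : orderOf u = p ^ k) {b : Set (CC u → ℂ)} (hb : IsBlock O b) {D' : Subgroup (CC u)}
    (hD' : IsDefectGroup p O b D') {s : ℕ} (hs : 1 ≤ s) (hq : MinorsDvd p b D' (p ^ s))
    (S S' : Set (G → ℂ)) (hS : ∀ χ ∈ S, IsIrr χ) (hS' : ∀ χ ∈ S', IsIrr χ)
    (hnz : ∀ z : {θ // θ ∈ XB b} → ℤ, (∑ θ, (z θ : RF O) * red O (uu D' (θ : CC u → ℂ))) ≠ 0 →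
      ∀ χ ∈ S, ∑ θ : {θ // θ ∈ XB b}, (z θ : ℂ) * ((Nat.card D' : ℂ) * JJ p u 1 θ χ) ≠ 0)
    (hun : ∀ z : {θ // θ ∈ XB b} → ℤ, (∑ θ, (z θ : RF O) * red O (uu D' (θ : CC u → ℂ))) ≠ 0 →
      ∀ χ ∈ S', red O (∑ θ : {θ // θ ∈ XB b}, (z θ : ℂ) * ((Nat.card D' : ℂ) * JJ p u 1 θ χ)) ≠ 0) :
    ((p : ℤ) ^ min s 2 * Nat.card S + ((p : ℤ) ^ s + 1 - (p : ℤ) ^ min s 2) * Nat.card S' ≤
        Nat.card D' * max ((p : ℤ) ^ s + 1) (lB p b) ∧
      (p : ℤ) ^ s * Nat.card S + Nat.card S' ≤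
        Nat.card D' * max ((p : ℤ) ^ s + 1) (lB p b + (p : ℤ) ^ (s - 2) - 1) ∧
      (p : ℤ) ^ s * Nat.card S ≤
        Nat.card D' * max ((p : ℤ) ^ s) (lB p b + (p : ℤ) ^ (s - 2) - 1)) ∧
      ((∃ θ ∈ b, red O (uu D' θ) ≠ 0 ∧ ∃ m : ℤ,
          (m : ℂ) = Nat.card D' * IC.B (cut p θ) θ ∧ m < (p : ℤ) ^ s) →
        ((p : ℤ) ^ s + 1) * Nat.card S ≤ Nat.card D' * max ((p : ℤ) ^ s + 1) (lB p b)) := by
  haveI : Fact (Nat.Prime p) := ⟨hp⟩
  haveI := charP_RF hpO
  obtain ⟨d, hd⟩ := IsPGroup.iff_card.mp (Pool.Agent.N20.defect_pgroup hD')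
  have hD0 : (Nat.card D' : ℂ) ≠ 0 := by exact_mod_cast Nat.card_pos.ne'
  have hDp : (Nat.card D' : ℂ) = (p : ℂ) ^ d := by rw [hd]; push_cast; rfl
  have hmem : ∀ θ : {θ // θ ∈ XB b}, (θ : CC u → ℂ) ∈ b := fun θ => (mem_XB hb.irr).mp θ.2
  have hirr : ∀ θ : {θ // θ ∈ XB b}, IsIrr (θ : CC u → ℂ) := fun θ => hb.irr _ (hmem θ)
  choose M hM using fun θ η : {θ // θ ∈ XB b} => contr_int hpO hb hD' (hmem θ) (hmem η)
  have hsym : ∀ θ η : {θ // θ ∈ XB b}, M θ η = M η θ := by
    intro θ η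
    have : (M θ η : ℂ) = M η θ := by
      rw [hM, hM, B_cut_comm]
    exact_mod_cast this
  have hsq : ∀ θ η, ∑ φ, M θ φ * M φ η = (Nat.card D' : ℤ) * M θ η := by
    intro θ η
    have : ((∑ φ, M θ φ * M φ η : ℤ) : ℂ) = (((Nat.card D' : ℤ) * M θ η : ℤ) : ℂ) := by
      have h1 := B_cut_idem hpO hb (χ := θ) (ψ := η) (hmem θ)
      rw [← Finset.sum_coe_sort (XB b)
        (fun φ : CC u → ℂ => IC.B (cut p (θ : CC u → ℂ)) φ * IC.B (cut p φ) η)] at h1
      push_cast
      simp only [hM]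
      rw [← h1, Finset.mul_sum, Finset.mul_sum]
      refine Finset.sum_congr rfl fun φ _ => ?_
      ring
    exact_mod_cast this
  have htr : ∑ θ, M θ θ = (Nat.card D' : ℤ) * (lB p b : ℤ) := by
    have : ((∑ θ, M θ θ : ℤ) : ℂ) = (((Nat.card D' : ℤ) * (lB p b : ℤ) : ℤ) : ℂ) := by
      push_cast
      simp only [hM]
      rw [← trace_eq hpO hb, ← Finset.mul_sum,
        ← Finset.sum_coe_sort (XB b) (fun φ : CC u → ℂ => IC.B (cut p φ) φ)]
    exact_mod_cast this
  obtain ⟨θ₀, hθ₀, hθ₀ne⟩ := exists_uu_ne hpO hb hD'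
  have hredM : ∀ θ η, ((M θ η : ℤ) : RF O) = red O (uu D' (θ : CC u → ℂ)) * sr p O θ₀ η := by
    intro θ η
    rw [← red_intCast, hM, card_mul_B D' (hirr θ) (fun g y => (hirr η).conj g y),
      red_mul (Pool.Agent.N20.uu_mem hpO hb hD' (hmem θ)) (SS_mem (hirr θ) (hirr η)),
      red_SS (hirr θ) (hirr η), sr_block hb (hmem θ) hθ₀]
  have hminor : ∀ i j k t : {θ // θ ∈ XB b},
      ((p ^ s : ℕ) : ℤ) ∣ M i j * M k t - M i t * M k j := by
    intro i j k t
    obtain ⟨c, hc⟩ := hq i (hmem i) k (hmem k) j (hmem j) t (hmem t)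
    refine ⟨c, ?_⟩
    have : ((M i j * M k t - M i t * M k j : ℤ) : ℂ) = (((p ^ s : ℕ) * c : ℤ) : ℂ) := by
      push_cast
      rw [hM, hM, hM, hM]
      push_cast at hc
      rw [← hc]
      ring
    exact_mod_cast this
  have hunit : ∀ z : {θ // θ ∈ XB b} → ℤ, ¬ (p : ℤ) ∣ fm M z z →
      (∑ θ, (z θ : RF O) * red O (uu D' (θ : CC u → ℂ))) ≠ 0 := by
    intro z hz h0
    apply hz
    have h1 := fm_cast (M := M) (fun θ => red O (uu D' (θ : CC u → ℂ))) (fun η => sr p O θ₀ η)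
      hredM z z
    rw [h0, zero_mul] at h1
    exact (CharP.intCast_eq_zero_iff (RF O) p _).mp h1
  have hX : ∀ χ : {χ // χ ∈ IC.Irr G}, IsIrr (χ : G → ℂ) := fun χ => mem_Irr.mp χ.2
  choose n hn using fun (χ : {χ // χ ∈ IC.Irr G}) (η : {θ // θ ∈ XB b}) =>
    mm_int u (hX χ) (hirr η)
  have K1 : ∀ (t : ℕ) (θ : {θ // θ ∈ XB b}) (χ : {χ // χ ∈ IC.Irr G}),
      (Nat.card D' : ℂ) * JJ p u t θ χ = ∑ η : {θ // θ ∈ XB b},
        (M θ η : ℂ) * n χ η * cu u (η : CC u → ℂ) ^ t := by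
    intro t θ χ
    rw [JJ_eq hpO u hb (hmem θ) (hX χ) t, Finset.mul_sum,
      ← Finset.sum_coe_sort (XB b) (fun η : CC u → ℂ =>
        (Nat.card D' : ℂ) * (mm u χ η * cu u η ^ t * IC.B (cut p (θ : CC u → ℂ)) η))]
    refine Finset.sum_congr rfl fun η _ => ?_
    rw [hM, hn]
    ring
  have K2 : ∀ (t : ℕ), Nat.Coprime t p → ∀ θ θ' : {θ // θ ∈ XB b},
      ∑ χ : {χ // χ ∈ IC.Irr G}, (starRingEnd ℂ) ((Nat.card D' : ℂ) * JJ p u t θ χ) *
        ((Nat.card D' : ℂ) * JJ p u t θ' χ) = (Nat.card D' : ℂ) * M θ θ' := by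
    intro t ht θ θ'
    have h1 := sec_frame hu ht (a := (θ : CC u → ℂ)) (a' := (θ' : CC u → ℂ))
      (fun s => (Pool.Agent.Y62.conj_char (hirr θ) s).symm) (fun g y => (hirr θ').conj g y)
      (fun s => (Pool.Agent.Y62.conj_char (hirr θ') s).symm)
    rw [← Finset.sum_coe_sort (IC.Irr G) (fun χ : G → ℂ =>
      (starRingEnd ℂ) (JJ p u t (θ : CC u → ℂ) χ) * JJ p u t (θ' : CC u → ℂ) χ)] at h1
    rw [hM, ← h1, Finset.mul_sum, Finset.mul_sum]
    refine Finset.sum_congr rfl fun χ _ => ?_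
    rw [map_mul, Complex.conj_natCast]
    ring
  have hcard : ∀ T : Set (G → ℂ), (∀ χ ∈ T, IsIrr χ) → Nat.card T = (Finset.univ.filter
      (fun χ : {χ // χ ∈ IC.Irr G} => (χ : G → ℂ) ∈ T)).card := by
    intro T hT
    rw [← Fintype.card_subtype, ← Nat.card_eq_fintype_card]
    refine Nat.card_congr ?_
    exact
      { toFun := fun χ => ⟨⟨χ, mem_Irr.mpr (hT χ χ.2)⟩, χ.2⟩
        invFun := fun χ => ⟨χ.1, χ.2⟩
        left_inv := fun _ => rfl
        right_inv := fun _ => rfl }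
  have hex : ∃ z : {θ // θ ∈ XB b} → ℤ,
      (∑ θ, (z θ : RF O) * red O (uu D' (θ : CC u → ℂ))) *
        (∑ η, (z η : RF O) * sr p O θ₀ η) ≠ 0 := by
    refine ⟨fun θ => if (θ : CC u → ℂ) = θ₀ then 1 else 0, ?_⟩
    have h1 : ∀ w : (CC u → ℂ) → RF O, ∑ θ : {θ // θ ∈ XB b},
        (((if (θ : CC u → ℂ) = θ₀ then 1 else 0 : ℤ)) : RF O) * w θ = w θ₀ := by
      intro w
      rw [Finset.sum_eq_single (⟨θ₀, (mem_XB hb.irr).mpr hθ₀⟩ : {θ // θ ∈ XB b})]
      · simp
      · intro θ _ hne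
        rw [if_neg]
        · simp
        · intro h
          exact hne (Subtype.ext h)
      · intro h
        exact absurd (Finset.mem_univ _) h
    rw [h1 (fun θ => red O (uu D' θ)), h1 (fun η => sr p O θ₀ η), sr_eq hpO hb hD' hθ₀ hθ₀]
    have h5 : ccG O p D' θ₀ ≠ 0 := by
      intro h
      have := rho_mul_cc hpO hb hD' hθ₀
      rw [h, mul_zero] at this
      exact zero_ne_one this
    exact mul_ne_zero hθ₀ne (mul_ne_zero hθ₀ne h5)
  have hcardpos : (0 : ℤ) < Nat.card D' := by exact_mod_cast Nat.card_pos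
  have hexz : ∃ z : {θ // θ ∈ XB b} → ℤ, ¬ (p : ℤ) ∣ fm M z z := by
    obtain ⟨z, hz⟩ := hex
    refine ⟨z, fun h0 => hz ?_⟩
    rw [← fm_cast (M := M) (fun θ => red O (uu D' (θ : CC u → ℂ))) (fun η => sr p O θ₀ η)
      hredM z z]
    exact (CharP.intCast_eq_zero_iff (RF O) p _).mpr h0
  have hdZ : ((p ^ d : ℕ) : ℤ) = (Nat.card D' : ℤ) := by rw [hd]
  have hsmall : (∃ θ ∈ b, red O (uu D' θ) ≠ 0 ∧ ∃ m : ℤ,
      (m : ℂ) = Nat.card D' * IC.B (cut p θ) θ ∧ m < (p : ℤ) ^ s) →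
      ∃ z : {θ // θ ∈ XB b} → ℤ, ¬ (p : ℤ) ∣ fm M z z ∧ fm M z z < (p : ℤ) ^ s := by
    rintro ⟨θ₁, hθ₁, hne₁, m, hm, hlt⟩
    set t₁ : {θ // θ ∈ XB b} := ⟨θ₁, (mem_XB hb.irr).mpr hθ₁⟩ with ht₁
    have e1 : fm M (fun θ => if θ = t₁ then 1 else 0) (fun θ => if θ = t₁ then 1 else 0) =
        M t₁ t₁ := by
      unfold fm
      simp
    have e2 : M t₁ t₁ = m := by
      have e3 : (M t₁ t₁ : ℂ) = (m : ℂ) := by rw [hM, hm]
      exact_mod_cast e3
    refine ⟨fun θ => if θ = t₁ then 1 else 0, ?_, ?_⟩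
    · rw [e1]
      intro h0
      have h1 : ((M t₁ t₁ : ℤ) : RF O) = 0 := (CharP.intCast_eq_zero_iff (RF O) p _).mpr h0
      rw [hredM, sr_eq hpO hb hD' hθ₀ hθ₁] at h1
      have h5 : ccG O p D' θ₀ ≠ 0 := by
        intro h
        have := rho_mul_cc hpO hb hD' hθ₀
        rw [h, mul_zero] at this
        exact zero_ne_one this
      exact (mul_ne_zero hne₁ (mul_ne_zero hne₁ h5)) h1
    · rw [e1, e2]
      exact hlt
  rcases k with _ | k
  · -- `u = 1`
    have hcu : ∀ η : {θ // θ ∈ XB b}, cu u (η : CC u → ℂ) ^ 1 = 1 := by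
      intro η
      have := cu_pow u (hirr η)
      rwa [hu, pow_zero] at this
    have K1' : ∀ (θ : {θ // θ ∈ XB b}) (χ : {χ // χ ∈ IC.Irr G}),
        (Nat.card D' : ℂ) * JJ p u 1 θ χ = ((∑ η, M θ η * n χ η : ℤ) : ℂ) := by
      intro θ χ
      rw [K1]
      push_cast
      refine Finset.sum_congr rfl fun η _ => ?_
      rw [hcu, mul_one]
    have hfr : FrD M (fun (χ : {χ // χ ∈ IC.Irr G}) η => n χ η) (Nat.card D' : ℤ)
        (Nat.card D' : ℤ) (lB p b : ℤ) := by
      refine ⟨hsym, hsq, htr, ?_, hcardpos, hcardpos.le, by positivity⟩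
      intro θ θ'
      have h1 := K2 1 (Nat.coprime_one_left p) θ θ'
      simp only [K1', map_intCast] at h1
      exact_mod_cast h1
    have hval : ∀ (z : {θ // θ ∈ XB b} → ℤ) (χ : {χ // χ ∈ IC.Irr G}),
        ((fm M (fun η => n χ η) z : ℤ) : ℂ) =
          ∑ θ : {θ // θ ∈ XB b}, (z θ : ℂ) * ((Nat.card D' : ℂ) * JJ p u 1 θ χ) := by
      intro z χ
      rw [fm_symm hsym, fm_eq]
      push_cast
      refine Finset.sum_congr rfl fun θ _ => ?_
      rw [K1']
      push_cast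
      rfl
    rw [← hdZ] at hfr
    have main := lat_all hp hs (by rw [hdZ]; exact hcardpos) hfr hminor hexz
      (N := (Nat.card S : ℤ)) (N' := (Nat.card S' : ℤ)) ?_ ?_
    · rw [hdZ] at main
      exact ⟨main.1, fun h => main.2 (hsmall h)⟩
    · intro z hz
      unfold cnt
      rw [hcard S hS]
      have : (Finset.univ.filter
          (fun χ : {χ // χ ∈ IC.Irr G} => (χ : G → ℂ) ∈ S)).card ≤
          (Finset.univ.filter (fun r : {χ // χ ∈ IC.Irr G} =>
            fm M (fun η => n r η) z ≠ 0)).card := by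
        apply Finset.card_le_card
        intro χ hχ
        rw [Finset.mem_filter] at hχ ⊢
        refine ⟨Finset.mem_univ _, ?_⟩
        intro h0
        apply hnz z (hunit z hz) χ hχ.2
        rw [← hval, h0, Int.cast_zero]
      exact_mod_cast this
    · intro z hz
      rw [hcard S' hS']
      have : (Finset.univ.filter
          (fun χ : {χ // χ ∈ IC.Irr G} => (χ : G → ℂ) ∈ S')).card ≤
          (Finset.univ.filter (fun r : {χ // χ ∈ IC.Irr G} =>
            ¬ (p : ℤ) ∣ fm M (fun η => n r η) z)).card := by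
        apply Finset.card_le_card
        intro χ hχ
        rw [Finset.mem_filter] at hχ ⊢
        refine ⟨Finset.mem_univ _, ?_⟩
        intro h0
        apply hun z (hunit z hz) χ hχ.2
        rw [← hval, red_intCast]
        exact (CharP.intCast_eq_zero_iff (RF O) p _).mpr h0
      exact_mod_cast this
  · haveI : NeZero (p ^ (k + 1)) := ⟨pow_ne_zero _ hp.ne_zero⟩
    have hcu : ∀ η : {θ // θ ∈ XB b}, ∃ j, ch p k j = cu u (η : CC u → ℂ) := by
      intro η
      apply exists_jj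
      rw [← hu]
      exact cu_pow u (hirr η)
    choose jj hjj using hcu
    set m : {χ // χ ∈ IC.Irr G} → {θ // θ ∈ XB b} → ZMod (p ^ (k + 1)) → ℤ :=
      fun χ θ i => ∑ η, M θ η * (if jj η = i then n χ η else 0) with hm
    have K4 : ∀ (t : ZMod (p ^ (k + 1))) (θ : {θ // θ ∈ XB b}) (χ : {χ // χ ∈ IC.Irr G}),
        ∑ i, ch p k (t * i) * m χ θ i = (Nat.card D' : ℂ) * JJ p u t.val θ χ := by
      intro t θ χ
      rw [K1]
      simp only [hm]
      push_cast
      simp only [Finset.mul_sum]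
      rw [Finset.sum_comm]
      refine Finset.sum_congr rfl fun η _ => ?_
      rw [Finset.sum_eq_single (jj η)]
      · rw [if_pos rfl, ← hjj, ← AddChar.map_nsmul_eq_pow, nsmul_eq_mul, ZMod.natCast_zmod_val]
        ring
      · intro i _ hi
        rw [if_neg (Ne.symm hi)]
        ring
      · intro h
        exact absurd (Finset.mem_univ _) h
    set f : {χ // χ ∈ IC.Irr G} × ZMod (p ^ (k + 1)) × ZMod (p ^ (k + 1)) →
        {θ // θ ∈ XB b} → ℤ := fun q η => if RR p k q.2.1 q.2.2 then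
          (if jj η = q.2.1 then n q.1 η else 0) - (if jj η = q.2.2 then n q.1 η else 0) else 0
      with hf
    have hfM : ∀ (θ : {θ // θ ∈ XB b}) q, ∑ η, M θ η * f q η =
        if RR p k q.2.1 q.2.2 then m q.1 θ q.2.1 - m q.1 θ q.2.2 else 0 := by
      intro θ q
      simp only [hf, hm]
      split_ifs with h
      · rw [← Finset.sum_sub_distrib]
        refine Finset.sum_congr rfl fun η _ => ?_
        ring
      · simp
    have hval1 : (1 : ZMod (p ^ (k + 1))).val = 1 := by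
      haveI : Fact (1 < p ^ (k + 1)) := ⟨Nat.one_lt_pow (Nat.succ_ne_zero k) hp.one_lt⟩
      exact ZMod.val_one _
    have hp2 : (0 : ℤ) < 2 * ((p : ℤ) - 1) := by
      have : (1 : ℤ) < p := by exact_mod_cast hp.one_lt
      linarith
    have hfr : FrD M f (Nat.card D' : ℤ) (2 * ((p : ℤ) - 1) * (Nat.card D' : ℤ))
        (lB p b : ℤ) := by
      refine ⟨hsym, hsq, htr, ?_, hcardpos, (mul_pos hp2 hcardpos).le, by positivity⟩
      intro θ θ'
      simp only [hfM]
      have h1 := int_frame (fun χ i => m χ θ i) (fun χ i => m χ θ' i)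
        ((Nat.card D' : ℤ) * M θ θ') (by
        intro t ht
        simp only [K4]
        have ht' : Nat.Coprime t.val p := by
          rw [mem_NT] at ht
          exact ((Nat.Prime.coprime_iff_not_dvd hp).mpr ht).symm
        rw [K2 t.val ht' θ θ']
        push_cast
        rfl)
      rw [Fintype.sum_prod_type]
      simp only [Fintype.sum_prod_type]
      have h2 : ∀ (χ : {χ // χ ∈ IC.Irr G}) (i j : ZMod (p ^ (k + 1))),
          (if RR p k i j then m χ θ i - m χ θ j else 0) *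
            (if RR p k i j then m χ θ' i - m χ θ' j else 0) =
          if RR p k i j then (m χ θ i - m χ θ j) * (m χ θ' i - m χ θ' j) else 0 := by
        intro χ i j
        split_ifs <;> ring
      simp only [h2]
      rw [h1]
      ring
    -- the values of the frame
    have hdd : ∀ (z : {θ // θ ∈ XB b} → ℤ) q, fm M (f q) z =
        if RR p k q.2.1 q.2.2 then (∑ θ, z θ * m q.1 θ q.2.1) - ∑ θ, z θ * m q.1 θ q.2.2
          else 0 := by
      intro z q
      rw [fm_symm hsym, fm_eq]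
      simp only [hfM]
      split_ifs with h
      · rw [← Finset.sum_sub_distrib]
        refine Finset.sum_congr rfl fun j _ => ?_
        ring
      · simp
    have hJ : ∀ (z : {θ // θ ∈ XB b} → ℤ) (χ : {χ // χ ∈ IC.Irr G}),
        ∑ θ : {θ // θ ∈ XB b}, (z θ : ℂ) * ((Nat.card D' : ℂ) * JJ p u 1 θ χ) =
          ∑ i, ch p k i * ((∑ θ, z θ * m χ θ i : ℤ) : ℂ) := by
      intro z χ
      have h4 : ∀ θ : {θ // θ ∈ XB b}, (Nat.card D' : ℂ) * JJ p u 1 θ χ =
          ∑ i, ch p k i * m χ θ i := by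
        intro θ
        have := K4 1 θ χ
        rw [hval1] at this
        rw [← this]
        simp only [one_mul]
      simp only [h4]
      push_cast
      simp only [Finset.mul_sum]
      rw [Finset.sum_comm]
      refine Finset.sum_congr rfl fun i _ => Finset.sum_congr rfl fun θ _ => ?_
      ring
    have hfib : ∀ (T : Set (G → ℂ)) (hT : ∀ χ ∈ T, IsIrr χ)
        (P : {χ // χ ∈ IC.Irr G} × ZMod (p ^ (k + 1)) × ZMod (p ^ (k + 1)) → Prop),
        (∀ χ : {χ // χ ∈ IC.Irr G}, (χ : G → ℂ) ∈ T → 2 * (p - 1) ≤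
          (Finset.univ.filter (fun q : ZMod (p ^ (k + 1)) × ZMod (p ^ (k + 1)) =>
            P (χ, q))).card) →
        2 * (p - 1) * Nat.card T ≤ (Finset.univ.filter (fun q => P q)).card := by
      intro T hT P hP
      calc 2 * (p - 1) * Nat.card T
          = ∑ χ ∈ Finset.univ.filter (fun χ : {χ // χ ∈ IC.Irr G} => (χ : G → ℂ) ∈ T),
              2 * (p - 1) := by
            rw [Finset.sum_const, hcard T hT, smul_eq_mul, mul_comm]
        _ ≤ ∑ χ ∈ Finset.univ.filter (fun χ : {χ // χ ∈ IC.Irr G} => (χ : G → ℂ) ∈ T),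
            (Finset.univ.filter (fun q : ZMod (p ^ (k + 1)) × ZMod (p ^ (k + 1)) =>
              P (χ, q))).card :=
            Finset.sum_le_sum fun χ hχ => hP χ (Finset.mem_filter.mp hχ).2
        _ ≤ ∑ χ : {χ // χ ∈ IC.Irr G},
            (Finset.univ.filter (fun q : ZMod (p ^ (k + 1)) × ZMod (p ^ (k + 1)) =>
              P (χ, q))).card :=
            Finset.sum_le_sum_of_subset (Finset.subset_univ _)
        _ = _ := by
            simp only [Finset.card_filter]
            rw [Fintype.sum_prod_type]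
    have hcast : ∀ (n m : ℕ), 2 * (p - 1) * n ≤ m → 2 * ((p : ℤ) - 1) * (n : ℤ) ≤ (m : ℤ) := by
      intro n m hnm
      have e1 : ((2 * (p - 1) * n : ℕ) : ℤ) ≤ (m : ℤ) := by exact_mod_cast hnm
      rw [Nat.cast_mul, Nat.cast_mul, Nat.cast_sub hp.one_lt.le] at e1
      simpa using e1
    rw [← hdZ] at hfr
    have main := lat_all hp hs (by rw [hdZ]; exact mul_pos hp2 hcardpos) hfr hminor hexz
      (N := 2 * ((p : ℤ) - 1) * (Nat.card S : ℤ))
      (N' := 2 * ((p : ℤ) - 1) * (Nat.card S' : ℤ)) ?_ ?_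
    · rw [hdZ] at main
      obtain ⟨⟨e1, e2, e3⟩, e4⟩ := main
      refine ⟨⟨?_, ?_, ?_⟩, fun h => ?_⟩
      · refine le_of_mul_le_mul_left ?_ hp2
        calc _ = (p : ℤ) ^ min s 2 * (2 * ((p : ℤ) - 1) * (Nat.card S : ℤ)) +
              ((p : ℤ) ^ s + 1 - (p : ℤ) ^ min s 2) *
                (2 * ((p : ℤ) - 1) * (Nat.card S' : ℤ)) := by ring
          _ ≤ _ := e1
          _ = _ := by ring
      · refine le_of_mul_le_mul_left ?_ hp2
        calc _ = (p : ℤ) ^ s * (2 * ((p : ℤ) - 1) * (Nat.card S : ℤ)) +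
                (2 * ((p : ℤ) - 1) * (Nat.card S' : ℤ)) := by ring
          _ ≤ _ := e2
          _ = _ := by ring
      · refine le_of_mul_le_mul_left ?_ hp2
        calc _ = (p : ℤ) ^ s * (2 * ((p : ℤ) - 1) * (Nat.card S : ℤ)) := by ring
          _ ≤ _ := e3
          _ = _ := by ring
      · refine le_of_mul_le_mul_left ?_ hp2
        calc _ = ((p : ℤ) ^ s + 1) * (2 * ((p : ℤ) - 1) * (Nat.card S : ℤ)) := by ring
          _ ≤ _ := e4 (hsmall h)
          _ = _ := by ring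
    · intro z hz
      unfold cnt
      have := hfib S hS (fun q => fm M (f q) z ≠ 0) (by
        intro χ hχ
        have h3 := hnz z (hunit z hz) χ hχ
        rw [hJ] at h3
        have h5 := pair_count _ h3
        have h6 : 2 * (p - 1) ≤ (Finset.univ.filter (fun q : ZMod (p ^ (k + 1)) × ZMod (p ^ (k + 1)) =>
            fm M (f (χ, q)) z ≠ 0)).card := by
          refine h5.trans (Finset.card_le_card ?_)
          intro q hq
          have hq' := (Finset.mem_filter.mp hq).2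
          refine Finset.mem_filter.mpr ⟨Finset.mem_univ _, ?_⟩
          show fm M (f (χ, q)) z ≠ 0
          rw [hdd]
          simp only
          rw [if_pos hq'.1]
          exact sub_ne_zero.mpr hq'.2
        convert h6)
      have h7 := hcast _ _ this
      convert h7
    · intro z hz
      have := hfib S' hS' (fun q => ¬ (p : ℤ) ∣ fm M (f q) z) (by
        intro χ hχ
        have h3 := hun z (hunit z hz) χ hχ
        rw [hJ] at h3
        have h5 := pair_count_unit hpO _ h3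
        have h6 : 2 * (p - 1) ≤ (Finset.univ.filter (fun q : ZMod (p ^ (k + 1)) × ZMod (p ^ (k + 1)) =>
            ¬ (p : ℤ) ∣ fm M (f (χ, q)) z)).card := by
          refine h5.trans (Finset.card_le_card ?_)
          intro q hq
          have hq' := (Finset.mem_filter.mp hq).2
          refine Finset.mem_filter.mpr ⟨Finset.mem_univ _, ?_⟩
          show ¬ (p : ℤ) ∣ fm M (f (χ, q)) z
          rw [hdd]
          simp only
          rw [if_pos hq'.1]
          exact hq'.2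
        convert h6)
      have h7 := hcast _ _ this
      convert h7

end Pool.Agent.Zk65.SE
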