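import Mathlib
import Pool.Agent.Zk65.SE6

/-!
Brauer's inequality for subsections whose second elementary divisor is small.
-/

set_option autoImplicit false
set_option linter.style.haveILetI false
set_option linter.unusedSectionVars false

open scoped BigOperators Classical
open Pool.Agent.Helper884 Pool.Agent.H254R3.IN Pool.Agent.N20

noncomputable section

namespace Pool.Agent.Zk65.SE

variable {G : Type} [Group G] [Fintype G] {O : ValuationSubring ℂ}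

lemma hz_unit {p : ℕ} (hp : p.Prime) (hpO : (p : ℂ) ∈ O.nonunits) {D : Subgroup G}
    {B : Set (G → ℂ)}
    (hB : IsBlock O B) (hD : IsDefectGroup p O B D) {u : G} {k : ℕ} (hu : orderOf u = p ^ k)
    {b : Set (CC u → ℂ)} (hb : IsBlock O b) {D' : Subgroup (CC u)}
    (hD' : IsDefectGroup p O b D') (hbB : Induces O B (CC u) b)
    (z : {θ // θ ∈ XB b} → ℤ) (hz : (∑ θ, (z θ : RF O) * red O (uu D' (θ : CC u → ℂ))) ≠ 0)
    {χ : G → ℂ} (hχ : χ ∈ B) (hh : HeightZero p D χ) :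
    red O (∑ θ : {θ // θ ∈ XB b}, (z θ : ℂ) * ((Nat.card D' : ℂ) * JJ p u 1 θ χ)) ≠ 0 := by
  haveI : Fact (Nat.Prime p) := ⟨hp⟩
  have hmem : ∀ θ : {θ // θ ∈ XB b}, (θ : CC u → ℂ) ∈ b := fun θ => (mem_XB hb.irr).mp θ.2
  have hirr : ∀ θ : {θ // θ ∈ XB b}, IsIrr (θ : CC u → ℂ) := fun θ => hb.irr _ (hmem θ)
  have hX := hB.irr χ hχ
  have hm : ∀ θ : {θ // θ ∈ XB b}, uu D' (θ : CC u → ℂ) * TH p u χ θ ∈ O :=
    fun θ => O.mul_mem _ _ (Pool.Agent.N20.uu_mem hpO hb hD' (hmem θ)) (TH_mem hX (hirr θ))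
  have h4 : ∀ θ : {θ // θ ∈ XB b}, (z θ : ℂ) * ((Nat.card D' : ℂ) * JJ p u 1 θ χ) =
      (z θ : ℂ) * (uu D' (θ : CC u → ℂ) * TH p u χ θ) := by
    intro θ
    rw [card_JJ2 D' hX (hirr θ)]
  have h5 : red O (∑ θ : {θ // θ ∈ XB b}, (z θ : ℂ) * ((Nat.card D' : ℂ) * JJ p u 1 θ χ)) =
      (∑ θ, (z θ : RF O) * red O (uu D' (θ : CC u → ℂ))) * sr p O χ χ := by
    rw [Finset.sum_congr rfl (fun θ _ => h4 θ),
      red_sum _ _ (fun θ _ => O.mul_mem _ _ (intCast_mem' _) (hm θ)), Finset.sum_mul]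
    refine Finset.sum_congr rfl fun θ _ => ?_
    rw [red_mul (intCast_mem' _) (hm θ), red_intCast,
      red_mul (Pool.Agent.N20.uu_mem hpO hb hD' (hmem θ)) (TH_mem hX (hirr θ)),
      red_TH hpO hB hu hb hbB hχ (hmem θ)]
    ring
  rw [h5]
  refine mul_ne_zero hz ?_
  rw [sr_eq hpO hB hD hχ hχ]
  exact mul_ne_zero (uu_unit hpO hX hh) (cc_ne hpO hB hD hχ)

/-- the contribution of a character to itself -/
lemma self_le {p : ℕ} {θ : G → ℂ} (hθ : IsIrr θ) {D : Subgroup G} {m : ℤ}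
    (hm : (m : ℂ) = Nat.card D * IC.B (cut p θ) θ) : m ≤ Nat.card D := by
  have hG0 : (0 : ℝ) < Nat.card G := by exact_mod_cast Nat.card_pos
  have h1 : IC.B (cut p θ) θ = (((Nat.card G : ℝ)⁻¹ *
      ∑ g : G, (if p ∣ orderOf g then 0 else ‖θ g‖ ^ 2) : ℝ) : ℂ) := by
    unfold IC.B
    push_cast
    congr 1
    refine Finset.sum_congr rfl fun g _ => ?_
    unfold cut
    split_ifs with h
    · simp
    · rw [Pool.Agent.Y62.conj_char hθ, Complex.mul_conj']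
      push_cast
      rfl
  have h2 : (1 : ℂ) = (((Nat.card G : ℝ)⁻¹ * ∑ g : G, ‖θ g‖ ^ 2 : ℝ) : ℂ) := by
    have h3 := IC.B_irr hθ hθ
    rw [if_pos rfl] at h3
    rw [← h3]
    unfold IC.B
    push_cast
    congr 1
    refine Finset.sum_congr rfl fun g _ => ?_
    rw [Pool.Agent.Y62.conj_char hθ, Complex.mul_conj']
  have h3 : (1 : ℝ) = (Nat.card G : ℝ)⁻¹ * ∑ g : G, ‖θ g‖ ^ 2 := by exact_mod_cast h2
  have h4 : (Nat.card G : ℝ)⁻¹ * ∑ g : G, (if p ∣ orderOf g then 0 else ‖θ g‖ ^ 2) ≤ 1 := by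
    rw [h3]
    apply mul_le_mul_of_nonneg_left _ (inv_nonneg.mpr hG0.le)
    refine Finset.sum_le_sum fun g _ => ?_
    split_ifs
    · positivity
    · exact le_rfl
  have h5 : (m : ℝ) = Nat.card D * ((Nat.card G : ℝ)⁻¹ *
      ∑ g : G, (if p ∣ orderOf g then 0 else ‖θ g‖ ^ 2)) := by
    rw [h1] at hm
    exact_mod_cast hm
  have h6 : (m : ℝ) ≤ Nat.card D := by
    rw [h5]
    calc _ ≤ (Nat.card D : ℝ) * 1 := mul_le_mul_of_nonneg_left h4 (by positivity)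
      _ = _ := mul_one _
  exact_mod_cast h6

/-- **Major subsections.** -/
theorem major_q {p : ℕ} (hp : p.Prime) (hpO : (p : ℂ) ∈ O.nonunits) {D : Subgroup G}
    {B : Set (G → ℂ)}
    (hB : IsBlock O B) (hD : IsDefectGroup p O B D) {u : G} {k : ℕ} (hu : orderOf u = p ^ k)
    {b : Set (CC u → ℂ)} (hb : IsBlock O b) {D' : Subgroup (CC u)}
    (hD' : IsDefectGroup p O b D') (hcard : Nat.card D' = Nat.card D)
    (hbB : Induces O B (CC u) b) {s : ℕ} (hs : 1 ≤ s) (hq : MinorsDvd p b D' (p ^ s)) :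
    ((p : ℤ) ^ min s 2 * Nat.card B + ((p : ℤ) ^ s + 1 - (p : ℤ) ^ min s 2) *
        Nat.card {χ : G → ℂ // χ ∈ B ∧ HeightZero p D χ} ≤
        Nat.card D * max ((p : ℤ) ^ s + 1) (lB p b) ∧
      (p : ℤ) ^ s * Nat.card B + Nat.card {χ : G → ℂ // χ ∈ B ∧ HeightZero p D χ} ≤
        Nat.card D * max ((p : ℤ) ^ s + 1) (lB p b + (p : ℤ) ^ (s - 2) - 1) ∧
      (p : ℤ) ^ s * Nat.card B ≤
        Nat.card D * max ((p : ℤ) ^ s) (lB p b + (p : ℤ) ^ (s - 2) - 1)) ∧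
      ((∃ θ ∈ b, red O (uu D' θ) ≠ 0 ∧ ∃ m : ℤ,
          (m : ℂ) = Nat.card D' * IC.B (cut p θ) θ ∧ m < (p : ℤ) ^ s) →
        ((p : ℤ) ^ s + 1) * Nat.card B ≤ Nat.card D * max ((p : ℤ) ^ s + 1) (lB p b)) := by
  haveI : Fact (Nat.Prime p) := ⟨hp⟩
  have hmem : ∀ θ : {θ // θ ∈ XB b}, (θ : CC u → ℂ) ∈ b := fun θ => (mem_XB hb.irr).mp θ.2
  have hirr : ∀ θ : {θ // θ ∈ XB b}, IsIrr (θ : CC u → ℂ) := fun θ => hb.irr _ (hmem θ)
  rw [← hcard]
  refine sub_count_q hp hpO hu hb hD' hs hq B {χ | χ ∈ B ∧ HeightZero p D χ} hB.irr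
    (fun χ hχ => hB.irr χ hχ.1) ?_ ?_
  · intro z hz χ hχ h0
    rw [hcard] at h0
    have hX := hB.irr χ hχ
    have h1 : uu D χ * ∑ θ : {θ // θ ∈ XB b}, (z θ : ℂ) * TG p u χ θ = 0 := by
      rw [← h0, Finset.mul_sum]
      refine Finset.sum_congr rfl fun θ _ => ?_
      rw [card_JJ hu D hX (hirr θ)]
      ring
    have h2 := (mul_eq_zero.mp h1).resolve_left (uu_ne hX)
    have h3 := congrArg (red O) h2
    rw [red_zero, red_sum _ _ (fun θ _ => O.mul_mem _ _ (intCast_mem' _)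
      (TG_mem hX (hirr θ)))] at h3
    have h4 : (∑ θ, (z θ : RF O) * red O (uu D' (θ : CC u → ℂ))) * ccG O p D χ = 0 := by
      rw [← h3, Finset.sum_mul]
      refine Finset.sum_congr rfl fun θ _ => ?_
      rw [red_mul (intCast_mem' _) (TG_mem hX (hirr θ)), red_intCast,
        red_TG hpO hB hD hu hb hD' hcard hbB hχ (hmem θ)]
      ring
    exact (mul_ne_zero hz (cc_ne hpO hB hD hχ)) h4
  · rintro z hz χ ⟨hχ, hh⟩
    exact hz_unit hp hpO hB hD hu hb hD' hbB z hz hχ hh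

/-- **Characters of height zero.** -/
theorem height_q {p : ℕ} (hp : p.Prime) (hpO : (p : ℂ) ∈ O.nonunits) {D : Subgroup G}
    {B : Set (G → ℂ)}
    (hB : IsBlock O B) (hD : IsDefectGroup p O B D) {u : G} {k : ℕ} (hu : orderOf u = p ^ k)
    {b : Set (CC u → ℂ)} (hb : IsBlock O b) {D' : Subgroup (CC u)}
    (hD' : IsDefectGroup p O b D') (hbB : Induces O B (CC u) b)
    {s : ℕ} (hs : 1 ≤ s) (hq : MinorsDvd p b D' (p ^ s)) :
    ((p : ℤ) ^ s + 1) * Nat.card {χ : G → ℂ // χ ∈ B ∧ HeightZero p D χ} ≤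
      Nat.card D' * max ((p : ℤ) ^ s + 1) (lB p b) := by
  have h1 := (sub_count_q hp hpO hu hb hD' hs hq {χ | χ ∈ B ∧ HeightZero p D χ}
    {χ | χ ∈ B ∧ HeightZero p D χ} (fun χ hχ => hB.irr χ hχ.1) (fun χ hχ => hB.irr χ hχ.1)
    (fun z hz χ hχ h0 => hz_unit hp hpO hB hD hu hb hD' hbB z hz hχ.1 hχ.2 (by rw [h0, red_zero]))
    (fun z hz χ hχ => hz_unit hp hpO hB hD hu hb hD' hbB z hz hχ.1 hχ.2)).1.1
  have h2 : Nat.card {χ : G → ℂ // χ ∈ B ∧ HeightZero p D χ} =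
      Nat.card ({χ | χ ∈ B ∧ HeightZero p D χ} : Set (G → ℂ)) := rfl
  rw [h2]
  linarith

/-- if `q` is the order of the defect group then there is a short vector of height zero -/
lemma exists_small {p : ℕ} (hp : p.Prime) (hpO : (p : ℂ) ∈ O.nonunits)
    {b : Set (G → ℂ)} (hb : IsBlock O b) {D' : Subgroup G}
    (hD' : IsDefectGroup p O b D') {s : ℕ} (hs : 1 ≤ s) (hcard : Nat.card D' = p ^ s) :
    ∃ θ ∈ b, red O (uu D' θ) ≠ 0 ∧ ∃ m : ℤ,
      (m : ℂ) = Nat.card D' * IC.B (cut p θ) θ ∧ m < (p : ℤ) ^ s := by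
  haveI : Fact (Nat.Prime p) := ⟨hp⟩
  haveI := charP_RF hpO
  obtain ⟨θ₀, hθ₀, hne⟩ := exists_uu_ne hpO hb hD'
  obtain ⟨m, hm⟩ := contr_int hpO hb hD' hθ₀ hθ₀
  have hirr := hb.irr θ₀ hθ₀
  refine ⟨θ₀, hθ₀, hne, m, hm, ?_⟩
  have h1 : m ≤ (p : ℤ) ^ s := by
    have := self_le hirr hm
    rw [hcard] at this
    push_cast at this
    exact this
  refine lt_of_le_of_ne h1 ?_
  intro h2
  have h3 : ((m : ℤ) : RF O) = red O (uu D' θ₀) * sr p O θ₀ θ₀ := by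
    rw [← red_intCast, hm, card_mul_B D' hirr (fun g y => hirr.conj g y),
      red_mul (Pool.Agent.N20.uu_mem hpO hb hD' hθ₀) (SS_mem hirr hirr), red_SS hirr hirr]
  have h4 : ((m : ℤ) : RF O) = 0 := by
    apply (CharP.intCast_eq_zero_iff (RF O) p _).mpr
    rw [h2]
    exact dvd_pow_self _ (by omega)
  rw [h4, sr_eq hpO hb hD' hθ₀ hθ₀] at h3
  exact (mul_ne_zero hne (mul_ne_zero hne (cc_ne hpO hb hD' hθ₀))) h3.symm

end Pool.Agent.Zk65.SE
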