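import Mathlib
import Pool.Agent.Zk65.SE7
import Pool.Agent.Zk65.TB6

/-!
The minors of the contribution matrix and the orders of the centralizers of `p`-regular elements.
-/

set_option autoImplicit false
set_option linter.style.haveILetI false
set_option linter.unusedSectionVars false

open scoped BigOperators Classical
open Pool.Agent.Helper884 Pool.Agent.H254R3.IN Pool.Agent.N20 Pool.Agent.Zk65.TB

noncomputable section

namespace Pool.Agent.Zk65.SE

variable {G : Type} [Group G] [Fintype G] {O : ValuationSubring ℂ}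

/-- averages of a character over cosets of a `p`-subgroup of a centralizer -/
lemma avg_mem {g : G} (P : Subgroup (CC g)) {χ : G → ℂ} (hχ : IsIrr χ) :
    (Nat.card P : ℂ)⁻¹ * ∑ y : P, χ (g * ((y : CC g) : G)) ∈ O := by
  have h1 : ∀ y : P, χ (g * ((y : CC g) : G)) =
      ∑ θ ∈ IC.Irr (CC g), mm g χ θ * cu g θ ^ 1 * θ y := by
    intro y
    have := val_section g hχ 1 (y : CC g)
    rwa [pow_one] at this
  rw [Finset.sum_congr rfl (fun y _ => h1 y), Finset.sum_comm, Finset.mul_sum]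
  refine sum_mem fun θ hθ => ?_
  have hθi := mem_Irr.mp hθ
  obtain ⟨n, hn⟩ := mm_int g hχ hθi
  obtain ⟨m, hm⟩ := IC.mult_nat' P 1 hθi
  have h2 : (Nat.card P : ℂ)⁻¹ * ∑ y : P, mm g χ θ * cu g θ ^ 1 * θ y =
      (n : ℂ) * cu g θ ^ 1 * m := by
    rw [← Finset.mul_sum, ← hn, ← hm]
    have h3 : ∑ c : P, (((1 : P →* ℂˣ) c : ℂˣ) : ℂ) * θ ((c : CC g)⁻¹) = ∑ y : P, θ y := by
      refine Fintype.sum_equiv (Equiv.inv P) _ _ fun y => ?_
      simp
    rw [h3]
    ring
  rw [h2]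
  have h4 : cu g θ ^ 1 ∈ O := by
    apply TB.root_mem (orderOf_pos g).ne'
    rw [pow_one, cu_pow g hθi]
  exact O.mul_mem _ _ (O.mul_mem _ _ (intCast_mem' _) h4) (natCast_mem' m)

lemma cut_cb (p : ℕ) (b : Set (G → ℂ)) (x : (G → ℂ) → ℤ) (g : G) :
    cut p (cb b x) g = ∑ θ ∈ XB b, (x θ : ℂ) * cut p θ g := by
  unfold cut cb
  split_ifs with h
  · simp
  · rfl

lemma B_cut_cb (p : ℕ) (b : Set (G → ℂ)) (x : (G → ℂ) → ℤ) (ψ : G → ℂ) :
    IC.B (cut p (cb b x)) ψ = ∑ θ ∈ XB b, (x θ : ℂ) * IC.B (cut p θ) ψ := by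
  unfold IC.B
  have h1 : ∀ g : G, cut p (cb b x) g * ψ g⁻¹ =
      ∑ θ ∈ XB b, (x θ : ℂ) * (cut p θ g * ψ g⁻¹) := by
    intro g
    rw [cut_cb, Finset.sum_mul]
    refine Finset.sum_congr rfl fun θ _ => ?_
    ring
  rw [Finset.sum_congr rfl (fun g _ => h1 g), Finset.sum_comm, Finset.mul_sum]
  refine Finset.sum_congr rfl fun θ _ => ?_
  rw [← Finset.mul_sum]
  ring

section pp

variable {p : ℕ} [hp : Fact p.Prime] (hpO : (p : ℂ) ∈ O.nonunits)

include hpO

/-- **Values of combinations whose contributions are divisible by `p ^ i`.** -/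
lemma key_val {b : Set (G → ℂ)} (hb : IsBlock O b) (D : Subgroup G) {x : (G → ℂ) → ℤ} {i : ℕ}
    (hx : ∀ χ ∈ b, ∃ m : ℤ, (Nat.card D : ℂ) * IC.B (cut p (cb b x)) χ = (p : ℂ) ^ i * m)
    {g : G} (hg : ¬ p ∣ orderOf g) (P : Subgroup (CC g)) (hP : IsPGroup p P) :
    (Nat.card D : ℂ) / Nat.card P * cb b x g / (p : ℂ) ^ i ∈ O := by
  have hp0 : (p : ℂ) ≠ 0 := by exact_mod_cast hp.out.ne_zero
  have hP0 : (Nat.card P : ℂ) ≠ 0 := by exact_mod_cast Nat.card_pos.ne'
  -- the expansion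
  have h1 : ∀ h : G, cut p (cb b x) h = ∑ χ ∈ IC.Irr G, IC.B (cut p (cb b x)) χ * χ h := by
    intro h
    have h2 := congrFun (IC.expand (cut p (cb b x)) (cut_cl (cb_cl hb x))) h
    simpa [Finset.sum_apply, Pi.smul_apply, smul_eq_mul] using h2
  have h2 : ∑ y : P, cut p (cb b x) (g * ((y : CC g) : G)) = cb b x g := by
    rw [Finset.sum_eq_single (1 : P)]
    · unfold cut
      simp [hg]
    · intro y _ hy
      have h3 : Commute g ((y : CC g) : G) := mem_CC.mp (y : CC g).2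
      obtain ⟨j, hj⟩ := (IsPGroup.iff_orderOf.mp hP) y
      have h4 : orderOf ((y : CC g) : G) = p ^ j := by
        rw [Subgroup.orderOf_coe, Subgroup.orderOf_coe, hj]
      have hj0 : j ≠ 0 := by
        rintro rfl
        apply hy
        rw [pow_zero, orderOf_eq_one_iff] at hj
        exact hj
      have hcop : Nat.Coprime (orderOf g) (orderOf ((y : CC g) : G)) := by
        rw [h4]
        exact Nat.Coprime.pow_right j ((Nat.Prime.coprime_iff_not_dvd hp.out).mpr hg).symm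
      have h5 := h3.orderOf_mul_eq_mul_orderOf_of_coprime hcop
      unfold cut
      rw [if_pos]
      rw [h5, h4]
      exact Dvd.dvd.mul_left (dvd_pow_self p hj0) _
    · intro h
      exact absurd (Finset.mem_univ _) h
  have h3 : (Nat.card D : ℂ) / Nat.card P * cb b x g / (p : ℂ) ^ i =
      ∑ χ ∈ IC.Irr G, ((Nat.card D : ℂ) * IC.B (cut p (cb b x)) χ / (p : ℂ) ^ i) *
        ((Nat.card P : ℂ)⁻¹ * ∑ y : P, χ (g * ((y : CC g) : G))) := by
    rw [← h2, Finset.sum_congr rfl (fun (y : P) _ => h1 (g * ((y : CC g) : G))),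
      Finset.sum_comm, Finset.mul_sum, Finset.sum_div]
    refine Finset.sum_congr rfl fun χ _ => ?_
    rw [← Finset.mul_sum]
    field_simp
  rw [h3]
  refine sum_mem fun χ hχ => O.mul_mem _ _ ?_ (avg_mem P (mem_Irr.mp hχ))
  by_cases hb' : χ ∈ b
  · obtain ⟨m, hm⟩ := hx χ hb'
    rw [hm, mul_div_assoc, mul_comm, div_mul_cancel₀ _ (pow_ne_zero _ hp0)]
    exact intCast_mem' m
  · have h4 : IC.B (cut p (cb b x)) χ = 0 := by
      rw [B_cut_cb]
      refine Finset.sum_eq_zero fun θ hθ => ?_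
      rw [blk_orth hpO hb ((mem_XB hb.irr).mp hθ) (mem_Irr.mp hχ) hb', mul_zero]
    rw [h4, mul_zero, zero_div]
    exact O.zero_mem

omit hp hpO in
lemma alg_id {P A I Dd E c x y : ℂ} (hP : P ≠ 0) (hA : A ≠ 0) (hI : I ≠ 0) (hD : Dd ≠ 0)
    (hc : c ≠ 0) (e1 : A * I = Dd * E * P) :
    (A * c / Dd)⁻¹ * (x * y) / (I * P) = E * c⁻¹ * ((Dd / A * x / I) * (Dd / A * y / I)) := by
  have hE : E = A * I / (Dd * P) := by
    rw [e1]
    field_simp
  rw [hE]
  field_simp

/-- one term of the product -/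
lemma term_step {b : Set (G → ℂ)} (hb : IsBlock O b) {D : Subgroup G} {d : ℕ}
    (hd : Nat.card D = p ^ d) {x y : (G → ℂ) → ℤ} {i : ℕ}
    (hx : ∀ χ ∈ b, ∃ m : ℤ, (Nat.card D : ℂ) * IC.B (cut p (cb b x)) χ = (p : ℂ) ^ i * m)
    (hy : ∀ χ ∈ b, ∃ m : ℤ, (Nat.card D : ℂ) * IC.B (cut p (cb b y)) χ = (p : ℂ) ^ i * m)
    {g : G} (hg : ¬ p ∣ orderOf g)
    (hne : (Nat.card (Subgroup.centralizer ({g} : Set G))).factorization p + i ≠ d) :
    (nn D g)⁻¹ * (cb b x g * cb b y g⁻¹) / (p : ℂ) ^ (i + 1) ∈ O := by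
  have hp0 : (p : ℂ) ≠ 0 := by exact_mod_cast hp.out.ne_zero
  set C := Subgroup.centralizer ({g} : Set G) with hC
  let P : Sylow p C := default
  have hPidx : ¬ p ∣ (P : Subgroup C).index := P.not_dvd_index
  obtain ⟨a, ha⟩ := IsPGroup.iff_card.mp P.isPGroup'
  have hCcard : Nat.card C = p ^ a * (P : Subgroup C).index := by
    rw [← ha, Subgroup.card_mul_index]
  have hidx0 : (P : Subgroup C).index ≠ 0 := Subgroup.index_ne_zero_of_finite
  have hfac : (Nat.card C).factorization p = a := by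
    rw [hCcard, Nat.factorization_mul (pow_ne_zero _ hp.out.ne_zero) hidx0,
      hp.out.factorization_pow, Finsupp.add_apply, Finsupp.single_eq_same,
      Nat.factorization_eq_zero_of_not_dvd hPidx, add_zero]
  rw [hfac] at hne
  set c' := (P : Subgroup C).index with hc'
  have hc'0 : (c' : ℂ) ≠ 0 := by exact_mod_cast hidx0
  have hinv : (c' : ℂ)⁻¹ ∈ O := nat_inv_mem hpO hPidx
  have hpm : ∀ j : ℕ, (p : ℂ) ^ j ∈ O := fun j => pow_mem (natCast_mem' p) j
  have hnn : nn D g = (p : ℂ) ^ a * c' / (p : ℂ) ^ d := by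
    unfold nn
    rw [← hC, hCcard, hd]
    push_cast
    rfl
  rcases Nat.lt_or_ge (a + i) d with h1 | h1
  · -- small centralizer
    obtain ⟨e, he⟩ := Nat.exists_eq_add_of_lt h1
    have h2 : (nn D g)⁻¹ * (cb b x g * cb b y g⁻¹) / (p : ℂ) ^ (i + 1) =
        (p : ℂ) ^ e * (c' : ℂ)⁻¹ * (cb b x g * cb b y g⁻¹) := by
      rw [hnn, he]
      field_simp
      ring
    rw [h2]
    exact O.mul_mem _ _ (O.mul_mem _ _ (hpm e) hinv)
      (O.mul_mem _ _ (cb_mem hb x g) (cb_mem hb y _))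
  · -- large centralizer
    have h1' : d < a + i := lt_of_le_of_ne h1 (Ne.symm hne)
    obtain ⟨e, he⟩ := Nat.exists_eq_add_of_lt h1'
    have hPcard : (Nat.card (P : Subgroup C) : ℂ) = (p : ℂ) ^ a := by
      have : Nat.card (P : Subgroup C) = p ^ a := ha
      rw [this]
      push_cast
      rfl
    have hDc : (Nat.card D : ℂ) = (p : ℂ) ^ d := by
      rw [hd]
      push_cast
      rfl
    have h3 := key_val hpO hb D hx hg (P : Subgroup C) P.isPGroup'
    rw [hPcard, hDc] at h3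
    have h4 : (p : ℂ) ^ d / (p : ℂ) ^ a * cb b y g⁻¹ / (p : ℂ) ^ i ∈ O := by
      have hCinv : Subgroup.centralizer ({g⁻¹} : Set G) = C := by
        rw [hC]
        ext t
        rw [Subgroup.mem_centralizer_iff, Subgroup.mem_centralizer_iff]
        simp only [Set.mem_singleton_iff, forall_eq]
        constructor
        · intro h
          have h' : Commute g⁻¹ t := h
          exact (Commute.inv_left_iff.mp h')
        · intro h
          have h' : Commute g t := h
          exact h'.inv_left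
      let P' : Sylow p (CC g⁻¹) := default
      obtain ⟨a', ha'⟩ := IsPGroup.iff_card.mp P'.isPGroup'
      have haa : a' = a := by
        have e1 : Nat.card (CC g⁻¹) = Nat.card C := by
          show Nat.card (Subgroup.centralizer ({g⁻¹} : Set G)) = _
          rw [hCinv]
        have e2 : (Nat.card (CC g⁻¹)).factorization p = a' := by
          have hidx : ¬ p ∣ (P' : Subgroup (CC g⁻¹)).index := P'.not_dvd_index
          have e3 : Nat.card (CC g⁻¹) = p ^ a' * (P' : Subgroup (CC g⁻¹)).index := by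
            rw [← ha', Subgroup.card_mul_index]
          rw [e3, Nat.factorization_mul (pow_ne_zero _ hp.out.ne_zero)
            Subgroup.index_ne_zero_of_finite,
            hp.out.factorization_pow, Finsupp.add_apply, Finsupp.single_eq_same,
            Nat.factorization_eq_zero_of_not_dvd hidx, add_zero]
        rw [← e2, e1, hfac]
      have h5 := key_val hpO hb D hy (g := g⁻¹) (by rwa [orderOf_inv])
        (P' : Subgroup (CC g⁻¹)) P'.isPGroup'
      have h6 : (Nat.card (P' : Subgroup (CC g⁻¹)) : ℂ) = (p : ℂ) ^ a := by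
        have : Nat.card (P' : Subgroup (CC g⁻¹)) = p ^ a := by rw [← haa]; exact ha'
        rw [this]
        push_cast
        rfl
      rw [h6, hDc] at h5
      exact h5
    have h5 : (nn D g)⁻¹ * (cb b x g * cb b y g⁻¹) / (p : ℂ) ^ (i + 1) =
        (p : ℂ) ^ e * (c' : ℂ)⁻¹ * (((p : ℂ) ^ d / (p : ℂ) ^ a * cb b x g / (p : ℂ) ^ i) *
          ((p : ℂ) ^ d / (p : ℂ) ^ a * cb b y g⁻¹ / (p : ℂ) ^ i)) := by
      have e1 : (p : ℂ) ^ a * (p : ℂ) ^ i = (p : ℂ) ^ d * (p : ℂ) ^ e * p := by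
        rw [← pow_add, he]
        ring
      rw [hnn, pow_succ (p : ℂ) i]
      exact alg_id hp0 (pow_ne_zero _ hp0) (pow_ne_zero _ hp0) (pow_ne_zero _ hp0) hc'0 e1
    rw [h5]
    exact O.mul_mem _ _ (O.mul_mem _ _ (hpm e) hinv) (O.mul_mem _ _ h3 h4)

end pp

end Pool.Agent.Zk65.SE
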