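import Mathlib
import Pool.Agent.Zk65.SE13

/-!
The minors of the contribution matrix: the induction.
-/

set_option autoImplicit false
set_option linter.style.haveILetI false
set_option linter.unusedSectionVars false

open scoped BigOperators Classical
open Pool.Agent.Helper884 Pool.Agent.H254R3.IN Pool.Agent.N20 Pool.Agent.Zk65.TB

noncomputable section

namespace Pool.Agent.Zk65.SE

variable {G : Type} [Group G] [Fintype G] {O : ValuationSubring ℂ}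

lemma int_dvd_of_div {p : ℕ} [hp : Fact p.Prime] (hpO : (p : ℂ) ∈ O.nonunits) {N : ℤ} {j : ℕ}
    (h : (N : ℂ) / (p : ℂ) ^ j ∈ O) : ((p ^ j : ℕ) : ℤ) ∣ N := by
  have h4 : ((N.natAbs : ℕ) : ℂ) / (p : ℂ) ^ j ∈ O := by
    rcases Int.natAbs_eq N with h6 | h6
    · have h7 : ((N.natAbs : ℕ) : ℂ) = (N : ℂ) := by
        have h8 : ((N.natAbs : ℕ) : ℤ) = N := by omega
        rw [← Int.cast_natCast, h8]
      rw [h7]
      exact h
    · have h7 : ((N.natAbs : ℕ) : ℂ) = -(N : ℂ) := by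
        have h8 : ((N.natAbs : ℕ) : ℤ) = -N := by omega
        rw [← Int.cast_natCast, h8, Int.cast_neg]
      rw [h7, neg_div]
      exact O.neg_mem _ h
  exact Int.natCast_dvd.mpr (dvd_of_div_mem hpO h4)

section pp

variable {p : ℕ} [hp : Fact p.Prime] (hpO : (p : ℂ) ∈ O.nonunits)

include hpO

/-- the product of two combinations -/
theorem pair_step {b : Set (G → ℂ)} (hb : IsBlock O b) {D : Subgroup G} {d : ℕ}
    (hd : Nat.card D = p ^ d) {x y : (G → ℂ) → ℤ} {i : ℕ}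
    (hx : ∀ χ ∈ b, ∃ m : ℤ, (Nat.card D : ℂ) * IC.B (cut p (cb b x)) χ = (p : ℂ) ^ i * m)
    (hy : ∀ χ ∈ b, ∃ m : ℤ, (Nat.card D : ℂ) * IC.B (cut p (cb b y)) χ = (p : ℂ) ^ i * m)
    (hne : ∀ g : G, ¬ p ∣ orderOf g →
      (Nat.card (Subgroup.centralizer ({g} : Set G))).factorization p + i ≠ d) {N : ℤ}
    (hN : (N : ℂ) = (Nat.card D : ℂ) * IC.B (cut p (cb b x)) (cb b y)) :
    ((p ^ (i + 1) : ℕ) : ℤ) ∣ N := by
  have hG0 : (Nat.card G : ℂ) ≠ 0 := by exact_mod_cast Nat.card_pos.ne'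
  have hD0 : (Nat.card D : ℂ) ≠ 0 := by exact_mod_cast Nat.card_pos.ne'
  set f : G → ℂ := fun g => if p ∣ orderOf g then 0 else cb b x g * cb b y g⁻¹ with hf
  have hfc : IsCl f := by
    intro g z
    simp only [hf]
    have e : (z * g * z⁻¹)⁻¹ = z * g⁻¹ * z⁻¹ := by group
    rw [orderOf_conj', e, cb_cl hb x, cb_cl hb y]
  have h1 : (N : ℂ) = (Nat.card D : ℂ) / Nat.card G * ∑ g : G, f g := by
    rw [hN]
    unfold IC.B
    rw [← mul_assoc, div_eq_mul_inv]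
    congr 1
    refine Finset.sum_congr rfl fun g _ => ?_
    simp only [hf]
    unfold cut
    split_ifs
    · rw [zero_mul]
    · rfl
  have h2 : (N : ℂ) / (p : ℂ) ^ (i + 1) = ∑ K : ConjClasses G,
      if p ∣ orderOf (rep K) then 0 else
        (nn D (rep K))⁻¹ * (cb b x (rep K) * cb b y (rep K)⁻¹) / (p : ℂ) ^ (i + 1) := by
    rw [h1, sum_classes, Finset.mul_sum, Finset.sum_div]
    refine Finset.sum_congr rfl fun K _ => ?_
    have h3 : ∀ g ∈ Finset.univ.filter (fun g => IsConj (rep K) g), f g = f (rep K) := by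
      intro g hg
      exact (hfc.isConj (Finset.mem_filter.mp hg).2).symm
    rw [Finset.sum_congr rfl h3, Finset.sum_const, nsmul_eq_mul]
    have h4 : ((Finset.univ.filter (fun g : G => IsConj (rep K) g)).card : ℂ) =
        (Nat.card {y : G // IsConj (rep K) y} : ℂ) := by
      rw [Nat.card_eq_fintype_card, Fintype.card_subtype]
    have h5 := card_class_mul (rep K)
    have h6 : (Nat.card {y : G // IsConj (rep K) y} : ℂ) *
        (Nat.card (Subgroup.centralizer ({rep K} : Set G)) : ℂ) = Nat.card G := by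
      exact_mod_cast h5
    have h7 : (Nat.card (Subgroup.centralizer ({rep K} : Set G)) : ℂ) ≠ 0 := by
      exact_mod_cast Nat.card_pos.ne'
    rw [h4]
    simp only [hf]
    split_ifs with h
    · simp
    · unfold nn
      rw [← h6]
      have h8 : (Nat.card {y : G // IsConj (rep K) y} : ℂ) ≠ 0 := by
        exact_mod_cast (card_class_pos (rep K)).ne'
      field_simp
  apply int_dvd_of_div hpO
  rw [h2]
  refine sum_mem fun K _ => ?_
  split_ifs with h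
  · exact O.zero_mem
  · exact term_step hpO hb hd hx hy h (hne _ h)

omit hpO hp in
lemma cb_pair {b : Set (G → ℂ)} (hb : IsBlock O b) {θ θ₀ : G → ℂ} (hθ : θ ∈ b) (hθ₀ : θ₀ ∈ b)
    (n m : ℤ) (g : G) :
    cb b (fun χ => n * (if χ = θ then 1 else 0) - m * (if χ = θ₀ then 1 else 0)) g =
      n * θ g - m * θ₀ g := by
  unfold cb
  have h1 : ∀ χ : G → ℂ, ((n * (if χ = θ then 1 else 0) - m * (if χ = θ₀ then 1 else 0) : ℤ) : ℂ) *
      χ g = (if χ = θ then (n : ℂ) * θ g else 0) - (if χ = θ₀ then (m : ℂ) * θ₀ g else 0) := by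
    intro χ
    by_cases h2 : χ = θ
    · by_cases h3 : χ = θ₀
      · subst h2
        subst h3
        simp
        ring
      · subst h2
        simp [h3]
    · by_cases h3 : χ = θ₀
      · subst h3
        simp [h2]
      · simp [h2, h3]
  rw [Finset.sum_congr rfl (fun χ _ => h1 χ), Finset.sum_sub_distrib, Finset.sum_ite_eq',
    Finset.sum_ite_eq', if_pos ((mem_XB hb.irr).mpr hθ), if_pos ((mem_XB hb.irr).mpr hθ₀)]

/-- **The step of the induction.** -/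
theorem minors_step {b : Set (G → ℂ)} (hb : IsBlock O b) {D : Subgroup G}
    (hD : IsDefectGroup p O b D) {d : ℕ} (hd : Nat.card D = p ^ d) {i : ℕ} (hi : 1 ≤ i)
    (hne : ∀ g : G, ¬ p ∣ orderOf g →
      (Nat.card (Subgroup.centralizer ({g} : Set G))).factorization p + i ≠ d)
    (hq : MinorsDvd p b D (p ^ i)) : MinorsDvd p b D (p ^ (i + 1)) := by
  haveI := charP_RF hpO
  choose! M hM using fun (θ : G → ℂ) (hθ : θ ∈ b) (η : G → ℂ) (hη : η ∈ b) =>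
    contr_int hpO hb hD hθ hη
  obtain ⟨θ₀, hθ₀, hθ₀ne⟩ := exists_uu_ne hpO hb hD
  have hirr := hb.irr
  set n : ℤ := M θ₀ θ₀ with hn
  have hnp : ¬ (p : ℤ) ∣ n := by
    intro h0
    have h1 : ((n : ℤ) : RF O) = 0 := (CharP.intCast_eq_zero_iff (RF O) p _).mpr h0
    have h2 : ((n : ℤ) : RF O) = red O (uu D θ₀) * sr p O θ₀ θ₀ := by
      rw [← red_intCast, hn, hM θ₀ hθ₀ θ₀ hθ₀,
        card_mul_B D (hirr _ hθ₀) (fun g y => (hirr _ hθ₀).conj g y),
        red_mul (Pool.Agent.N20.uu_mem hpO hb hD hθ₀) (SS_mem (hirr _ hθ₀) (hirr _ hθ₀)),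
        red_SS (hirr _ hθ₀) (hirr _ hθ₀)]
    rw [h1, sr_eq hpO hb hD hθ₀ hθ₀] at h2
    exact (mul_ne_zero hθ₀ne (mul_ne_zero hθ₀ne (cc_ne hpO hb hD hθ₀))) h2.symm
  have hsym : ∀ θ ∈ b, ∀ η ∈ b, M θ η = M η θ := by
    intro θ hθ η hη
    have : (M θ η : ℂ) = M η θ := by
      rw [hM θ hθ η hη, hM η hη θ hθ, B_cut_comm]
    exact_mod_cast this
  have hmin : ∀ i' ∈ b, ∀ k ∈ b, ∀ j ∈ b, ∀ t ∈ b,
      ((p ^ i : ℕ) : ℤ) ∣ M i' j * M k t - M i' t * M k j := by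
    intro i' hi' k hk j hj t ht
    obtain ⟨c, hc⟩ := hq i' hi' k hk j hj t ht
    refine ⟨c, ?_⟩
    have : ((M i' j * M k t - M i' t * M k j : ℤ) : ℂ) = (((p ^ i : ℕ) * c : ℤ) : ℂ) := by
      push_cast
      rw [hM i' hi' j hj, hM k hk t ht, hM i' hi' t ht, hM k hk j hj]
      push_cast at hc
      rw [← hc]
      ring
    exact_mod_cast this
  -- the combinations
  set x : (G → ℂ) → (G → ℂ) → ℤ := fun θ χ =>
    n * (if χ = θ then 1 else 0) - M θ θ₀ * (if χ = θ₀ then 1 else 0) with hx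
  have hcb : ∀ θ ∈ b, ∀ g, cb b (x θ) g = n * θ g - M θ θ₀ * θ₀ g := fun θ hθ g =>
    cb_pair hb hθ hθ₀ n (M θ θ₀) g
  have hB1 : ∀ θ ∈ b, ∀ ψ : G → ℂ, IC.B (cut p (cb b (x θ))) ψ =
      n * IC.B (cut p θ) ψ - M θ θ₀ * IC.B (cut p θ₀) ψ := by
    intro θ hθ ψ
    unfold IC.B
    have e1 : ∀ g ∈ (Finset.univ : Finset G), cut p (cb b (x θ)) g * ψ g⁻¹ =
        (n : ℂ) * (cut p θ g * ψ g⁻¹) - (M θ θ₀ : ℂ) * (cut p θ₀ g * ψ g⁻¹) := by
      intro g _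
      unfold cut
      rw [hcb θ hθ]
      split_ifs
      · ring
      · ring
    rw [Finset.sum_congr rfl e1, Finset.sum_sub_distrib, ← Finset.mul_sum, ← Finset.mul_sum]
    ring
  have hB2 : ∀ η ∈ b, ∀ f : G → ℂ, IC.B f (cb b (x η)) =
      n * IC.B f η - M η θ₀ * IC.B f θ₀ := by
    intro η hη f
    unfold IC.B
    have e1 : ∀ g ∈ (Finset.univ : Finset G), f g * cb b (x η) g⁻¹ =
        (n : ℂ) * (f g * η g⁻¹) - (M η θ₀ : ℂ) * (f g * θ₀ g⁻¹) := by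
      intro g _
      rw [hcb η hη]
      ring
    rw [Finset.sum_congr rfl e1, Finset.sum_sub_distrib, ← Finset.mul_sum, ← Finset.mul_sum]
    ring
  have hlev : ∀ θ ∈ b, ∀ χ ∈ b, ∃ m : ℤ,
      (Nat.card D : ℂ) * IC.B (cut p (cb b (x θ))) χ = (p : ℂ) ^ i * m := by
    intro θ hθ χ hχ
    obtain ⟨m, hm⟩ := hmin θ₀ hθ₀ θ hθ θ₀ hθ₀ χ hχ
    refine ⟨m, ?_⟩
    rw [hB1 θ hθ, mul_sub, mul_left_comm, mul_left_comm (Nat.card D : ℂ) ((M θ θ₀ : ℤ) : ℂ),
      ← hM θ hθ χ hχ, ← hM θ₀ hθ₀ χ hχ]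
    have h1 : ((M θ₀ θ₀ * M θ χ - M θ₀ χ * M θ θ₀ : ℤ) : ℂ) = (((p ^ i : ℕ) : ℤ) * m : ℤ) := by
      rw [hm]
    push_cast at h1
    rw [hn, ← h1]
    ring
  have hkey : ∀ θ ∈ b, ∀ η ∈ b, ((p ^ (i + 1) : ℕ) : ℤ) ∣ n * M θ η - M θ θ₀ * M θ₀ η := by
    intro θ hθ η hη
    have h1 := pair_step hpO hb hd (hlev θ hθ) (hlev η hη) hne
      (N := n * (n * M θ η - M θ θ₀ * M θ₀ η)) (by
        rw [hB1 θ hθ, hB2 η hη, hB2 η hη]
        have e1 := hM θ hθ η hη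
        have e2 := hM θ hθ θ₀ hθ₀
        have e3 := hM θ₀ hθ₀ η hη
        have e4 := hM θ₀ hθ₀ θ₀ hθ₀
        rw [← hn] at e4
        have e5 : ((M η θ₀ : ℤ) : ℂ) = M θ₀ η := by rw [hsym η hη θ₀ hθ₀]
        push_cast
        rw [e5]
        linear_combination (n : ℂ) ^ 2 * e1 - (n : ℂ) * (M θ₀ η) * e2 -
          (n : ℂ) * (M θ θ₀ : ℂ) * e3 + (M θ₀ η : ℂ) * (M θ θ₀ : ℂ) * e4)
    have hcop : IsCoprime ((p ^ (i + 1) : ℕ) : ℤ) n := by
      push_cast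
      apply IsCoprime.pow_left
      exact (Nat.prime_iff_prime_int.mp hp.out).irreducible.coprime_iff_not_dvd.mpr hnp
    exact hcop.dvd_of_dvd_mul_left h1
  intro θ hθ θ' hθ' η hη η' hη'
  obtain ⟨r1, h1⟩ := hkey θ hθ η hη
  obtain ⟨r2, h2⟩ := hkey θ' hθ' η' hη'
  obtain ⟨r3, h3⟩ := hkey θ hθ η' hη'
  obtain ⟨r4, h4⟩ := hkey θ' hθ' η hη
  have h5 : ((p ^ (i + 1) : ℕ) : ℤ) ∣ n ^ 2 * (M θ η * M θ' η' - M θ η' * M θ' η) := by
    set P : ℤ := ((p ^ (i + 1) : ℕ) : ℤ) with hP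
    have g1 : n * M θ η = M θ θ₀ * M θ₀ η + P * r1 := by linarith
    have g2 : n * M θ' η' = M θ' θ₀ * M θ₀ η' + P * r2 := by linarith
    have g3 : n * M θ η' = M θ θ₀ * M θ₀ η' + P * r3 := by linarith
    have g4 : n * M θ' η = M θ' θ₀ * M θ₀ η + P * r4 := by linarith
    have g5 : n ^ 2 * (M θ η * M θ' η' - M θ η' * M θ' η) =
        (n * M θ η) * (n * M θ' η') - (n * M θ η') * (n * M θ' η) := by ring
    rw [g5, g1, g2, g3, g4]
    refine ⟨M θ θ₀ * M θ₀ η * r2 + r1 * (M θ' θ₀ * M θ₀ η') + P * r1 * r2 -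
      (M θ θ₀ * M θ₀ η' * r4 + r3 * (M θ' θ₀ * M θ₀ η) + P * r3 * r4), ?_⟩
    ring
  have hcop : IsCoprime ((p ^ (i + 1) : ℕ) : ℤ) (n ^ 2) := by
    push_cast
    apply IsCoprime.pow
    exact (Nat.prime_iff_prime_int.mp hp.out).irreducible.coprime_iff_not_dvd.mpr hnp
  obtain ⟨c, hc⟩ := hcop.dvd_of_dvd_mul_left h5
  refine ⟨c, ?_⟩
  have h6 : ((M θ η * M θ' η' - M θ η' * M θ' η : ℤ) : ℂ) =
      ((((p ^ (i + 1) : ℕ) : ℤ) * c : ℤ) : ℂ) := by rw [hc]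
  push_cast at h6 ⊢
  rw [hM θ hθ η hη, hM θ' hθ' η' hη', hM θ hθ η' hη', hM θ' hθ' η hη] at h6
  rw [← h6]
  ring

/-- the beginning of the induction -/
theorem minors_one {b : Set (G → ℂ)} (hb : IsBlock O b) {D : Subgroup G}
    (hD : IsDefectGroup p O b D) : MinorsDvd p b D (p ^ 1) := by
  haveI := charP_RF hpO
  choose! M hM using fun (θ : G → ℂ) (hθ : θ ∈ b) (η : G → ℂ) (hη : η ∈ b) =>
    contr_int hpO hb hD hθ hη
  obtain ⟨θ₀, hθ₀, hθ₀ne⟩ := exists_uu_ne hpO hb hD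
  have hirr := hb.irr
  have hredM : ∀ θ ∈ b, ∀ η ∈ b, ((M θ η : ℤ) : RF O) = red O (uu D θ) * sr p O θ₀ η := by
    intro θ hθ η hη
    rw [← red_intCast, hM θ hθ η hη, card_mul_B D (hirr θ hθ) (fun g y => (hirr η hη).conj g y),
      red_mul (Pool.Agent.N20.uu_mem hpO hb hD hθ) (SS_mem (hirr θ hθ) (hirr η hη)),
      red_SS (hirr θ hθ) (hirr η hη), sr_block hb hθ hθ₀]
  intro θ hθ θ' hθ' η hη η' hη'
  have h1 : (p : ℤ) ∣ M θ η * M θ' η' - M θ η' * M θ' η := by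
    apply (CharP.intCast_eq_zero_iff (RF O) p _).mp
    push_cast
    rw [hredM θ hθ η hη, hredM θ' hθ' η' hη', hredM θ hθ η' hη', hredM θ' hθ' η hη]
    ring
  obtain ⟨c, hc⟩ := h1
  refine ⟨c, ?_⟩
  have h6 : ((M θ η * M θ' η' - M θ η' * M θ' η : ℤ) : ℂ) = (((p : ℤ) * c : ℤ) : ℂ) := by rw [hc]
  push_cast at h6 ⊢
  rw [hM θ hθ η hη, hM θ' hθ' η' hη', hM θ hθ η' hη', hM θ' hθ' η hη] at h6
  rw [pow_one, ← h6]
  ring

/-- **The minors and the centralizers of `p`-regular elements.** -/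
theorem minors_of_classes {b : Set (G → ℂ)} (hb : IsBlock O b) {D : Subgroup G}
    (hD : IsDefectGroup p O b D) {s : ℕ} (hs : 1 ≤ s)
    (hcl : ∀ g : G, ¬ p ∣ orderOf g → ∀ i, 1 ≤ i → i < s →
      (Nat.card (Subgroup.centralizer ({g} : Set G))).factorization p + i ≠
        (Nat.card D).factorization p) : MinorsDvd p b D (p ^ s) := by
  obtain ⟨d, hd⟩ := IsPGroup.iff_card.mp (Pool.Agent.N20.defect_pgroup hD)
  have hfd : (Nat.card D).factorization p = d := by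
    rw [hd, hp.out.factorization_pow, Finsupp.single_eq_same]
  rw [hfd] at hcl
  induction s with
  | zero => omega
  | succ s ih =>
    rcases Nat.eq_zero_or_pos s with h0 | h0
    · subst h0
      exact minors_one hpO hb hD
    · exact minors_step hpO hb hD hd h0 (fun g hg => hcl g hg s h0 (Nat.lt_succ_self s))
        (ih h0 (fun g hg i hi hi' => hcl g hg i hi (hi'.trans (Nat.lt_succ_self s))))

end pp

end Pool.Agent.Zk65.SE
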