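import Mathlib
import Pool.Agent.Zk65.SE14
import Pool.Agent.Zk65.TB5

/-!
Blocks with one irreducible Brauer character, and the values of combinations on elements whose
centralizers have local blocks with one irreducible Brauer character.
-/

set_option autoImplicit false
set_option linter.style.haveILetI false
set_option linter.unusedSectionVars false

open scoped BigOperators Classical
open Pool.Agent.Helper884 Pool.Agent.H254R3.IN Pool.Agent.N20 Pool.Agent.Zk65.TB

noncomputable section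

namespace Pool.Agent.Zk65.SE

variable {G : Type} [Group G] [Fintype G] {O : ValuationSubring ℂ}

/-- blocks with one irreducible Brauer character -/
lemma lB_one {p : ℕ} [hp : Fact p.Prime] {B : Set (G → ℂ)} (hB : ∀ χ ∈ B, IsIrr χ)
    (h1 : lB p B = 1) {η ψ : G → ℂ} (hη : η ∈ B) (hψ : ψ ∈ B) :
    ∃ c : ℂ, ∀ g : G, ¬ p ∣ orderOf g → η g = c * ψ g := by
  unfold lB at h1
  set S := Submodule.span ℂ
    ((fun χ : G → ℂ => fun g : {g : G // ¬ p ∣ orderOf g} => χ g) '' B) with hS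
  let v : S := ⟨fun g => ψ g, Submodule.subset_span ⟨ψ, hψ, rfl⟩⟩
  let w : S := ⟨fun g => η g, Submodule.subset_span ⟨η, hη, rfl⟩⟩
  have h1' : ¬ p ∣ orderOf (1 : G) := by
    rw [orderOf_one, Nat.dvd_one]
    exact hp.out.ne_one
  have hv : v ≠ 0 := by
    intro h0
    have h2 := congrArg (fun s : S => (s : {g : G // ¬ p ∣ orderOf g} → ℂ) ⟨1, h1'⟩) h0
    exact (hB ψ hψ).one_ne h2
  obtain ⟨c, hc⟩ := exists_smul_eq_of_finrank_eq_one h1 hv w
  refine ⟨c, fun g hg => ?_⟩
  have h2 := congrArg (fun s : S => (s : {g : G // ¬ p ∣ orderOf g} → ℂ) ⟨g, hg⟩) hc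
  exact h2.symm

section pp

variable {p : ℕ} [hp : Fact p.Prime] (hpO : (p : ℂ) ∈ O.nonunits)

include hpO in
/-- the reduction of the contributions -/
lemma red_contr {B : Set (G → ℂ)} (hB : IsBlock O B) {D : Subgroup G}
    (hD : IsDefectGroup p O B D) {χ φ : G → ℂ} (hχ : χ ∈ B) (hφ : φ ∈ B) :
    red O ((Nat.card D : ℂ) * IC.B (cut p χ) φ) =
      red O (uu D χ) * (red O (uu D φ) * ccG O p D φ) := by
  have hχi := hB.irr χ hχ
  have hφi := hB.irr φ hφ
  rw [card_mul_B D hχi (fun g y => hφi.conj g y),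
    red_mul (Pool.Agent.N20.uu_mem hpO hB hD hχ) (SS_mem hχi hφi), red_SS hχi hφi,
    sr_eq hpO hB hD hχ hφ, ccG_block hB hχ hφ]

include hpO in
/-- **Values of combinations of positive height in blocks with one Brauer character.** -/
theorem one_case {B : Set (G → ℂ)} (hB : IsBlock O B) {D : Subgroup G}
    (hD : IsDefectGroup p O B D) (h1 : lB p B = 1) {x : (G → ℂ) → ℤ}
    (hx : al O D B x = 0) {g : G} (hg : ¬ p ∣ orderOf g) : red O (cb B x g) = 0 := by
  haveI := charP_RF hpO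
  have hmem : ∀ χ ∈ XB B, χ ∈ B := fun χ hχ => (mem_XB hB.irr).mp hχ
  obtain ⟨ψ, hψ, hψu⟩ := exists_uu_ne hpO hB hD
  have hψi := hB.irr ψ hψ
  have hcc := cc_ne hpO hB hD hψ
  choose! c hc using fun (η : G → ℂ) (hη : η ∈ B) => lB_one (p := p) hB.irr h1 hη hψ
  choose! m hm using fun (η : G → ℂ) (hη : η ∈ B) => contr_int hpO hB hD hη hψ
  have hcm : ∀ η ∈ B, (m η : ℂ) = c η * m ψ := by
    intro η hη
    rw [hm η hη, hm ψ hψ]
    have h2 : IC.B (cut p η) ψ = c η * IC.B (cut p ψ) ψ := by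
      unfold IC.B
      have e : ∀ h ∈ (Finset.univ : Finset G), cut p η h * ψ h⁻¹ =
          c η * (cut p ψ h * ψ h⁻¹) := by
        intro h _
        unfold cut
        split_ifs with h3
        · simp
        · rw [hc η hη h h3]
          ring
      rw [Finset.sum_congr rfl e, ← Finset.mul_sum]
      ring
    rw [h2]
    ring
  have hmu : ((m ψ : ℤ) : RF O) ≠ 0 := by
    rw [← red_intCast, hm ψ hψ, red_contr hpO hB hD hψ hψ]
    exact mul_ne_zero hψu (mul_ne_zero hψu hcc)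
  have h2 : cb B x g * (m ψ : ℂ) = ((∑ χ ∈ XB B, x χ * m χ : ℤ) : ℂ) * ψ g := by
    unfold cb
    push_cast
    rw [Finset.sum_mul, Finset.sum_mul]
    refine Finset.sum_congr rfl fun χ hχ => ?_
    rw [hc χ (hmem χ hχ) g hg, hcm χ (hmem χ hχ)]
    ring
  have h3 : (((∑ χ ∈ XB B, x χ * m χ : ℤ)) : RF O) = 0 := by
    push_cast
    have h3 : ∀ χ ∈ XB B, (x χ : RF O) * (m χ : RF O) =
        (x χ : RF O) * red O (uu D χ) * (red O (uu D ψ) * ccG O p D ψ) := by
      intro χ hχ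
      rw [← red_intCast, ← red_intCast (n := m χ), hm χ (hmem χ hχ),
        red_contr hpO hB hD (hmem χ hχ) hψ]
      ring
    rw [Finset.sum_congr rfl h3, ← Finset.sum_mul]
    change al O D B x * _ = 0
    rw [hx, zero_mul]
  have h4 := congrArg (red O) h2
  rw [red_mul (cb_mem hB x g) (intCast_mem' _), red_mul (intCast_mem' _) (hψi.val_mem O g),
    red_intCast, red_intCast, h3, zero_mul] at h4
  exact (mul_eq_zero.mp h4).resolve_right hmu

include hpO in
/-- **Values of combinations of positive height.** -/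
theorem local_case {b : Set (G → ℂ)} (hb : IsBlock O b)
    {D : Subgroup G} (hD : IsDefectGroup p O b D) {x : (G → ℂ) → ℤ} (hx : al O D b x = 0)
    {R : Subgroup G} (hR : IsPGroup p R) (g : CR R) (hg : ¬ p ∣ orderOf (g : G))
    (hone : ∀ θ : CR R → ℂ, IsIrr θ → lam O R θ (blockCoeff b) ≠ 0 → lB p (bk O θ) = 1) :
    red O (cb b x (g : G)) = 0 := by
  have hmem : ∀ χ ∈ XB b, χ ∈ b := fun χ hχ => (mem_XB hb.irr).mp hχ
  choose! n hn using fun (χ : G → ℂ) (θ : CR R → ℂ) (h : IsIrr χ ∧ IsIrr θ) =>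
    mr_int R h.1 h.2
  set y : (CR R → ℂ) → ℤ := fun θ => ∑ χ ∈ XB b, x χ * n χ θ with hy
  have h1 : red O (cb b x (g : G)) = ∑ θ ∈ IC.Irr (CR R),
      (y θ : RF O) * (lam O R θ (blockCoeff b) * red O (θ g)) := by
    unfold cb
    rw [red_sum _ _ (fun χ hχ => O.mul_mem _ _ (intCast_mem' _)
      ((hb.irr χ (hmem χ hχ)).val_mem O _))]
    have h2 : ∀ χ ∈ XB b, red O ((x χ : ℂ) * χ (g : G)) = ∑ θ ∈ IC.Irr (CR R),
        ((x χ * n χ θ : ℤ) : RF O) * (lam O R θ (blockCoeff b) * red O (θ g)) := by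
      intro χ hχ
      have hχb := hmem χ hχ
      rw [red_mul (intCast_mem' _) ((hb.irr χ hχb).val_mem O _), red_intCast,
        res_expand hpO hR hb hχb g, Finset.mul_sum]
      refine Finset.sum_congr rfl fun θ hθ => ?_
      rw [← hn χ θ ⟨hb.irr χ hχb, mem_Irr.mp hθ⟩, red_intCast]
      push_cast
      ring
    rw [Finset.sum_congr rfl h2, Finset.sum_comm]
    refine Finset.sum_congr rfl fun θ _ => ?_
    rw [← Finset.sum_mul, hy]
    push_cast
    rfl
  rw [h1]
  apply sum_blocks (O := O)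
  intro θ hθ
  set β := bk O θ with hβdef
  have hβ : IsBlock O β := bk_block hθ
  have hθβ : θ ∈ β := bk_self hθ
  have hlam : ∀ η ∈ XB β, lam O R η (blockCoeff b) = lam O R θ (blockCoeff b) := fun η hη =>
    red_Om_block hβ ((mem_XB hβ.irr).mp hη) hθβ (res_cl' (blockCoeff_cl hb.irr))
      (fun g => blockCoeff_mem hb g)
  rw [Finset.sum_congr rfl (g := fun η => lam O R θ (blockCoeff b) *
    red O ((y η : ℂ) * η g)) (fun η hη => by
      rw [hlam η hη, red_mul (intCast_mem' _)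
        ((hβ.irr η ((mem_XB hβ.irr).mp hη)).val_mem O _), red_intCast]
      ring), ← Finset.mul_sum, ← red_sum _ _ (fun η hη => O.mul_mem _ _ (intCast_mem' _)
        ((hβ.irr η ((mem_XB hβ.irr).mp hη)).val_mem O _))]
  by_cases hne : lam O R θ (blockCoeff b) = 0
  · rw [hne, zero_mul]
  change lam O R θ (blockCoeff b) * red O (cb β y g) = 0
  obtain ⟨Δ, hΔ⟩ := exists_defect (p := p) hβ
  obtain ⟨χ₀, hχ₀⟩ := hb.nonempty
  -- the height of the restricted combination
  have hal : al O Δ β y = 0 := by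
    have h2 : al O Δ β y * ccG O p Δ θ = al O D b x * ccG O p D χ₀ := by
      have h3 : ∀ χ ∈ XB b, (x χ : RF O) * ((∑ η ∈ XB β, red O (mr R χ η) * red O (uu Δ η)) *
          ccG O p Δ θ) = (x χ : RF O) * (red O (uu D χ) * ccG O p D χ₀) := by
        intro χ hχ
        rw [alpha_transfer hpO hR hb hD hβ hΔ hθβ hne hχ₀ (hmem χ hχ)]
      have h4 := Finset.sum_congr rfl h3
      have h5 : ∑ χ ∈ XB b, (x χ : RF O) * (red O (uu D χ) * ccG O p D χ₀) =
          al O D b x * ccG O p D χ₀ := by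
        unfold al
        rw [Finset.sum_mul]
        exact Finset.sum_congr rfl fun χ _ => by ring
      rw [← h5, ← h4]
      unfold al
      rw [Finset.sum_mul]
      have h6 : ∀ η ∈ XB β, (y η : RF O) * red O (uu Δ η) * ccG O p Δ θ =
          ∑ χ ∈ XB b, (x χ : RF O) * (red O (mr R χ η) * red O (uu Δ η) * ccG O p Δ θ) := by
        intro η hη
        have hηi := hβ.irr η ((mem_XB hβ.irr).mp hη)
        rw [hy]
        push_cast
        rw [Finset.sum_mul, Finset.sum_mul]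
        refine Finset.sum_congr rfl fun χ hχ => ?_
        rw [← hn χ η ⟨hb.irr χ (hmem χ hχ), hηi⟩, red_intCast]
        ring
      rw [Finset.sum_congr rfl h6, Finset.sum_comm]
      refine Finset.sum_congr rfl fun χ _ => ?_
      rw [← Finset.mul_sum, Finset.sum_mul]
    rw [hx, zero_mul] at h2
    exact (mul_eq_zero.mp h2).resolve_right (cc_ne hpO hβ hΔ hθβ)
  have hg' : ¬ p ∣ orderOf g := by rwa [← Subgroup.orderOf_coe]
  rw [one_case hpO hβ hΔ (hone θ hθ hne) hal hg', mul_zero]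

include hpO in
/-- combinations with divisible contributions have positive height -/
lemma al_zero {b : Set (G → ℂ)} (hb : IsBlock O b) {D : Subgroup G}
    (hD : IsDefectGroup p O b D) {x : (G → ℂ) → ℤ} {i : ℕ} (hi : 1 ≤ i)
    (hx : ∀ χ ∈ b, ∃ m : ℤ, (Nat.card D : ℂ) * IC.B (cut p (cb b x)) χ = (p : ℂ) ^ i * m) :
    al O D b x = 0 := by
  haveI := charP_RF hpO
  have hmem : ∀ χ ∈ XB b, χ ∈ b := fun χ hχ => (mem_XB hb.irr).mp hχ
  obtain ⟨ψ, hψ, hψu⟩ := exists_uu_ne hpO hb hD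
  have hcc := cc_ne hpO hb hD hψ
  obtain ⟨m, hm⟩ := hx ψ hψ
  have h1 : (Nat.card D : ℂ) * IC.B (cut p (cb b x)) ψ =
      ∑ θ ∈ XB b, (x θ : ℂ) * ((Nat.card D : ℂ) * IC.B (cut p θ) ψ) := by
    rw [B_cut_cb, Finset.mul_sum]
    refine Finset.sum_congr rfl fun θ _ => ?_
    ring
  have hMO : ∀ θ ∈ XB b, (Nat.card D : ℂ) * IC.B (cut p θ) ψ ∈ O := by
    intro θ hθ
    obtain ⟨c, hc⟩ := contr_int hpO hb hD (hmem θ hθ) hψ
    rw [← hc]
    exact intCast_mem' c
  have h2 : red O ((Nat.card D : ℂ) * IC.B (cut p (cb b x)) ψ) =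
      al O D b x * (red O (uu D ψ) * ccG O p D ψ) := by
    rw [h1, red_sum _ _ (fun θ hθ => O.mul_mem _ _ (intCast_mem' _) (hMO θ hθ))]
    unfold al
    rw [Finset.sum_mul]
    refine Finset.sum_congr rfl fun θ hθ => ?_
    rw [red_mul (intCast_mem' _) (hMO θ hθ), red_intCast, red_contr hpO hb hD (hmem θ hθ) hψ]
    ring
  have h3 : red O ((p : ℂ) ^ i * m) = 0 := by
    obtain ⟨j, rfl⟩ := Nat.exists_eq_add_of_le' hi
    have h4 : (p : ℂ) ^ (j + 1) * m = (p : ℂ) * ((p : ℂ) ^ j * m) := by ring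
    have h5 : (p : ℂ) ^ j * m ∈ O :=
      O.mul_mem _ _ (pow_mem (natCast_mem' p) j) (intCast_mem' m)
    rw [h4, red_mul (natCast_mem' p) h5, red_eq_zero hpO, zero_mul]
  rw [hm, h3] at h2
  exact (mul_eq_zero.mp h2.symm).resolve_right (mul_ne_zero hψu hcc)

end pp

end Pool.Agent.Zk65.SE
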