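import Mathlib
import Pool.Agent.Zk65.SE16

/-!
Blocks of groups with a central `p`-subgroup: the characters over a given linear character.
-/

set_option autoImplicit false
set_option linter.style.haveILetI false
set_option linter.unusedSectionVars false

open scoped BigOperators Classical
open Pool.Agent.Helper884 Pool.Agent.H254R3.IN Pool.Agent.N20 Pool.Agent.Zk65.TB

noncomputable section

namespace Pool.Agent.Zk65.SE

variable {G : Type} [Group G] [Fintype G] {O : ValuationSubring ℂ}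

/-- central elements act by scalars -/
lemma val_central {χ : G → ℂ} (hχ : IsIrr χ) {z : G} (hz : z ∈ Subgroup.center G) (h : G) :
    χ (z * h) = χ z / χ 1 * χ h := by
  have h1 : ∃ c : ℂ, ∀ h, χ (z * h) = c * χ h := by
    obtain ⟨V, _, _, _, ρ, hr, rfl⟩ := hχ
    haveI := irr_nontrivial ρ hr
    obtain ⟨c, hc⟩ := schur ρ hr (ρ z) (by
      intro g v
      rw [← Module.End.mul_apply, ← Module.End.mul_apply, ← map_mul, ← map_mul,
        Subgroup.mem_center_iff.mp hz g])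
    refine ⟨c, fun h => ?_⟩
    change LinearMap.trace ℂ V (ρ (z * h)) = c * LinearMap.trace ℂ V (ρ h)
    rw [map_mul, hc]
    have h3 : (c • (LinearMap.id : V →ₗ[ℂ] V)) * ρ h = c • ρ h := by
      ext v
      simp
    rw [h3, map_smul, smul_eq_mul]
  obtain ⟨c, hc⟩ := h1
  have h2 := hc 1
  rw [mul_one] at h2
  have h3 := hχ.one_ne
  rw [hc, h2, mul_div_cancel_right₀ _ h3]

/-- the central character on a central subgroup -/
def cen {Z : Subgroup G} (hZ : Z ≤ Subgroup.center G) {χ : G → ℂ} (hχ : IsIrr χ) : Z →* ℂ where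
  toFun z := χ (z : G) / χ 1
  map_one' := by
    change χ 1 / χ 1 = 1
    exact div_self hχ.one_ne
  map_mul' x y := by
    change χ ((x : G) * (y : G)) / χ 1 = _
    rw [val_central hχ (hZ x.2)]
    ring

/-- `χ` lies over the linear character `ζ` of `Z` -/
def Over {Z : Subgroup G} (ζ : Z →* ℂ) (χ : G → ℂ) : Prop := ∀ z : Z, χ (z : G) = ζ z * χ 1

lemma over_cen {Z : Subgroup G} (hZ : Z ≤ Subgroup.center G) {χ : G → ℂ} (hχ : IsIrr χ) :
    Over (cen hZ hχ) χ := fun z => (div_mul_cancel₀ _ hχ.one_ne).symm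

lemma over_iff {Z : Subgroup G} (hZ : Z ≤ Subgroup.center G) {χ : G → ℂ} (hχ : IsIrr χ)
    (ζ : Z →* ℂ) : Over ζ χ ↔ cen hZ hχ = ζ := by
  constructor
  · intro h
    ext z
    change χ (z : G) / χ 1 = ζ z
    rw [h z, mul_div_cancel_right₀ _ hχ.one_ne]
  · rintro rfl
    exact over_cen hZ hχ

/-- the sum over the centre -/
lemma cen_sum {Z : Subgroup G} (hZ : Z ≤ Subgroup.center G) {χ : G → ℂ} (hχ : IsIrr χ)
    (ζ : Z →* ℂ) : ∑ z : Z, ζ z * cen hZ hχ z⁻¹ = if Over ζ χ then (Nat.card Z : ℂ) else 0 := by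
  have hne : ∀ (f : Z →* ℂ) (z : Z), f z * f z⁻¹ = 1 := by
    intro f z
    rw [← map_mul, mul_inv_cancel, map_one]
  let f : Z →* ℂ :=
    { toFun := fun z => ζ z * cen hZ hχ z⁻¹
      map_one' := by simp
      map_mul' := fun x y => by
        have hc : ∀ a b : Z, a * b = b * a := fun a b =>
          Subtype.ext (Subgroup.mem_center_iff.mp (hZ b.2) a)
        rw [map_mul, mul_inv_rev, map_mul]
        ring }
  split_ifs with h
  · have h1 : ∀ z : Z, ζ z * cen hZ hχ z⁻¹ = 1 := by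
      intro z
      rw [← (over_iff hZ hχ ζ).mp h, hne]
    rw [Finset.sum_congr rfl (fun z _ => h1 z), Finset.sum_const, Finset.card_univ,
      Nat.card_eq_fintype_card, nsmul_eq_mul, mul_one]
  · apply sum_hom_units_eq_zero f
    intro h1
    apply h
    rw [over_iff hZ hχ]
    ext z
    have h2 : ζ z * cen hZ hχ z⁻¹ = 1 := DFunLike.congr_fun h1 z
    have h3 := hne (cen hZ hχ) z
    have h4 : cen hZ hχ z⁻¹ ≠ 0 := right_ne_zero_of_mul_eq_one h3
    exact mul_right_cancel₀ h4 (h3.trans h2.symm)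

/-- the characters of `B` over `ζ` -/
def XZ (B : Set (G → ℂ)) {Z : Subgroup G} (ζ : Z →* ℂ) : Finset (G → ℂ) :=
  (XB B).filter (fun χ => Over ζ χ)

section pp

variable {p : ℕ} [hp : Fact p.Prime] (hpO : (p : ℂ) ∈ O.nonunits)

include hpO

/-- **The projection onto the characters over a linear character of the centre.** -/
theorem proj_val {B : Set (G → ℂ)} (hB : IsBlock O B) {Z : Subgroup G}
    (hZ : Z ≤ Subgroup.center G) (hZp : IsPGroup p Z) (ζ : Z →* ℂ) {η : G → ℂ} (hη : η ∈ B)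
    {g : G} (hg : ¬ p ∣ orderOf g) :
    ∑ ψ ∈ XZ B ζ, IC.B (cut p η) ψ * ψ g = (Nat.card Z : ℂ)⁻¹ * η g := by
  have hηi := hB.irr η hη
  have hηc : IsCl η := fun g y => hηi.conj g y
  have hcutc : IsCl (cut p η) := cut_cl hηc
  have hZ0 : (Nat.card Z : ℂ) ≠ 0 := by exact_mod_cast Nat.card_pos.ne'
  have hcomm : ∀ (z : Z) (h : G), (z : G) * h = h * z := fun z h =>
    (Subgroup.mem_center_iff.mp (hZ z.2) h).symm
  set F : G → ℂ := fun y => (Nat.card Z : ℂ)⁻¹ * ∑ z : Z, ζ z * cut p η ((z : G)⁻¹ * y) with hF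
  have hFc : IsCl F := by
    intro g y
    simp only [hF]
    congr 1
    refine Finset.sum_congr rfl fun z _ => ?_
    have e : ((z : G)⁻¹) * (y * g * y⁻¹) = y * ((z : G)⁻¹ * g) * y⁻¹ := by
      have h1 := hcomm z⁻¹ y
      rw [Subgroup.coe_inv] at h1
      calc ((z : G)⁻¹) * (y * g * y⁻¹) = ((z : G)⁻¹ * y) * g * y⁻¹ := by group
        _ = (y * (z : G)⁻¹) * g * y⁻¹ := by rw [h1]
        _ = _ := by group
    rw [e, hcutc]
  have hBF : ∀ ψ ∈ IC.Irr G, IC.B F ψ = if Over ζ ψ then IC.B (cut p η) ψ else 0 := by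
    intro ψ hψ
    have hψi := mem_Irr.mp hψ
    have h1 : IC.B F ψ = (Nat.card Z : ℂ)⁻¹ * ∑ z : Z, ζ z * (cen hZ hψi z⁻¹ *
        IC.B (cut p η) ψ) := by
      unfold IC.B
      simp only [hF]
      have h2 : ∀ y : G, (Nat.card Z : ℂ)⁻¹ * (∑ z : Z, ζ z * cut p η ((z : G)⁻¹ * y)) * ψ y⁻¹ =
          ∑ z : Z, (Nat.card Z : ℂ)⁻¹ * (ζ z * (cut p η ((z : G)⁻¹ * y) * ψ y⁻¹)) := by
        intro y
        rw [Finset.mul_sum, Finset.sum_mul]
        refine Finset.sum_congr rfl fun z _ => ?_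
        ring
      rw [Finset.sum_congr rfl (fun y _ => h2 y), Finset.sum_comm, Finset.mul_sum,
        Finset.mul_sum]
      refine Finset.sum_congr rfl fun z _ => ?_
      have h3 : ∑ y : G, cut p η ((z : G)⁻¹ * y) * ψ y⁻¹ =
          cen hZ hψi z⁻¹ * ∑ h : G, cut p η h * ψ h⁻¹ := by
        rw [Finset.mul_sum]
        refine Fintype.sum_equiv (Equiv.mulLeft ((z : G)⁻¹)) _ _ fun y => ?_
        simp only [Equiv.coe_mulLeft]
        have e1 : y⁻¹ = ((z⁻¹ : Z) : G) * ((z : G)⁻¹ * y)⁻¹ := by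
          have h4 := hcomm z⁻¹ ((z : G)⁻¹ * y)⁻¹
          rw [h4, Subgroup.coe_inv]
          group
        have e2 : ψ y⁻¹ = cen hZ hψi z⁻¹ * ψ ((z : G)⁻¹ * y)⁻¹ := by
          conv_lhs => rw [e1]
          exact val_central hψi (hZ (z⁻¹).2) _
        rw [e2]
        ring
      rw [← Finset.mul_sum, ← Finset.mul_sum, h3]
      ring
    rw [h1]
    have h5 : ∑ z : Z, ζ z * (cen hZ hψi z⁻¹ * IC.B (cut p η) ψ) =
        (∑ z : Z, ζ z * cen hZ hψi z⁻¹) * IC.B (cut p η) ψ := by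
      rw [Finset.sum_mul]
      refine Finset.sum_congr rfl fun z _ => ?_
      ring
    rw [h5, cen_sum hZ hψi ζ]
    split_ifs
    · rw [← mul_assoc, inv_mul_cancel₀ hZ0, one_mul]
    · rw [zero_mul, mul_zero]
  have hFg : F g = (Nat.card Z : ℂ)⁻¹ * η g := by
    simp only [hF]
    congr 1
    rw [Finset.sum_eq_single (1 : Z)]
    · unfold cut
      simp [hg]
    · intro z _ hz
      have h3 : Commute ((z : G)⁻¹) g := by
        have := hcomm z⁻¹ g
        rw [Subgroup.coe_inv] at this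
        exact this
      obtain ⟨j, hj⟩ := (IsPGroup.iff_orderOf.mp hZp) z
      have h4 : orderOf ((z : G)⁻¹) = p ^ j := by
        rw [orderOf_inv, Subgroup.orderOf_coe, hj]
      have hj0 : j ≠ 0 := by
        rintro rfl
        apply hz
        rw [pow_zero, orderOf_eq_one_iff] at hj
        exact hj
      have hcop : Nat.Coprime (orderOf ((z : G)⁻¹)) (orderOf g) := by
        rw [h4]
        exact Nat.Coprime.pow_left j ((Nat.Prime.coprime_iff_not_dvd hp.out).mpr hg)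
      have h5 := h3.orderOf_mul_eq_mul_orderOf_of_coprime hcop
      unfold cut
      rw [if_pos, mul_zero]
      rw [h5, h4]
      exact Dvd.dvd.mul_right (dvd_pow_self p hj0) _
    · intro h
      exact absurd (Finset.mem_univ _) h
  have hexp := congrFun (IC.expand F hFc) g
  simp only [Finset.sum_apply, Pi.smul_apply, smul_eq_mul] at hexp
  rw [← hFg, hexp]
  have h6 : ∀ ψ ∈ IC.Irr G, IC.B F ψ * ψ g =
      if ψ ∈ B ∧ Over ζ ψ then IC.B (cut p η) ψ * ψ g else 0 := by
    intro ψ hψ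
    rw [hBF ψ hψ]
    by_cases h7 : ψ ∈ B
    · by_cases h8 : Over ζ ψ
      · rw [if_pos h8, if_pos ⟨h7, h8⟩]
      · rw [if_neg h8, if_neg (fun h : ψ ∈ B ∧ Over ζ ψ => h8 h.2), zero_mul]
    · rw [if_neg (fun h : ψ ∈ B ∧ Over ζ ψ => h7 h.1), blk_orth hpO hB hη (mem_Irr.mp hψ) h7]
      split_ifs <;> simp
  rw [Finset.sum_congr rfl h6, ← Finset.sum_filter]
  refine Finset.sum_congr ?_ fun _ _ => rfl
  ext ψ
  unfold XZ XB
  simp only [Finset.mem_filter]
  tauto

end pp

end Pool.Agent.Zk65.SE
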