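import Mathlib
import Pool.Agent.Zk65.SE17

/-!
Blocks whose defect groups are close to the centre have one irreducible Brauer character.
-/

set_option autoImplicit false
set_option linter.style.haveILetI false
set_option linter.unusedSectionVars false

open scoped BigOperators Classical
open Pool.Agent.Helper884 Pool.Agent.H254R3.IN Pool.Agent.N20 Pool.Agent.Zk65.TB

noncomputable section

namespace Pool.Agent.Zk65.SE

variable {G : Type} [Group G] [Fintype G] {O : ValuationSubring ℂ}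

/-- proportional restrictions -/
lemma lB_of_prop {p : ℕ} [hp : Fact p.Prime] {B : Set (G → ℂ)} {χ : G → ℂ} (hχ : χ ∈ B)
    (hχi : IsIrr χ)
    (h : ∀ η ∈ B, ∃ c : ℂ, ∀ g : G, ¬ p ∣ orderOf g → η g = c * χ g) : lB p B = 1 := by
  unfold lB
  have h1' : ¬ p ∣ orderOf (1 : G) := by
    rw [orderOf_one, Nat.dvd_one]
    exact hp.out.ne_one
  let v : {g : G // ¬ p ∣ orderOf g} → ℂ := fun g => χ g
  have hv : v ≠ 0 := by
    intro h0
    exact hχi.one_ne (congrFun h0 ⟨1, h1'⟩)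
  have hspan : Submodule.span ℂ
      ((fun χ : G → ℂ => fun g : {g : G // ¬ p ∣ orderOf g} => χ g) '' B) =
      Submodule.span ℂ {v} := by
    apply le_antisymm
    · rw [Submodule.span_le]
      rintro _ ⟨η, hη, rfl⟩
      obtain ⟨c, hc⟩ := h η hη
      rw [SetLike.mem_coe, Submodule.mem_span_singleton]
      refine ⟨c, ?_⟩
      funext g
      exact (hc g g.2).symm
    · rw [Submodule.span_le, Set.singleton_subset_iff]
      exact Submodule.subset_span ⟨χ, hχ, rfl⟩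
  rw [hspan, finrank_span_singleton hv]

section pp

variable {p : ℕ} [hp : Fact p.Prime] (hpO : (p : ℂ) ∈ O.nonunits)

include hpO

/-- the product formula for the contributions -/
theorem proj_M {B : Set (G → ℂ)} (hB : IsBlock O B) {Z : Subgroup G}
    (hZ : Z ≤ Subgroup.center G) (hZp : IsPGroup p Z) (ζ : Z →* ℂ) {η φ : G → ℂ} (hη : η ∈ B) :
    ∑ ψ ∈ XZ B ζ, IC.B (cut p η) ψ * IC.B (cut p ψ) φ =
      (Nat.card Z : ℂ)⁻¹ * IC.B (cut p η) φ := by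
  unfold IC.B
  have h1 : ∀ ψ : G → ℂ, (Nat.card G : ℂ)⁻¹ * (∑ x, cut p η x * ψ x⁻¹) *
      ((Nat.card G : ℂ)⁻¹ * ∑ x, cut p ψ x * φ x⁻¹) =
      ∑ x, (Nat.card G : ℂ)⁻¹ * (IC.B (cut p η) ψ * cut p ψ x * φ x⁻¹) := by
    intro ψ
    rw [← Finset.mul_sum, mul_left_comm]
    congr 1
    rw [Finset.mul_sum]
    refine Finset.sum_congr rfl fun x _ => ?_
    unfold IC.B
    ring
  rw [Finset.sum_congr rfl (fun ψ _ => h1 ψ), Finset.sum_comm, mul_left_comm, Finset.mul_sum,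
    Finset.mul_sum]
  refine Finset.sum_congr rfl fun x _ => ?_
  rw [← Finset.mul_sum, ← Finset.sum_mul]
  congr 1
  rw [← mul_assoc]
  congr 1
  unfold cut
  by_cases hx : p ∣ orderOf x
  · simp [hx]
  · simp only [hx, if_false]
    exact proj_val hpO hB hZ hZp ζ hη hx

/-- contributions of characters of height zero do not vanish -/
lemma M_ne {B : Set (G → ℂ)} (hB : IsBlock O B) {D : Subgroup G} (hD : IsDefectGroup p O B D)
    {χ η : G → ℂ} (hχ : χ ∈ B) (hu : red O (uu D χ) ≠ 0) (hη : η ∈ B) :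
    (Nat.card D : ℂ) * IC.B (cut p η) χ ≠ 0 := by
  have hηi := hB.irr η hη
  have hχi := hB.irr χ hχ
  intro h1
  rw [card_mul_B D hηi (fun g y => hχi.conj g y)] at h1
  have h2 := (mul_eq_zero.mp h1).resolve_left (uu_ne hηi)
  have h3 := congrArg (red O) h2
  rw [red_SS hηi hχi, sr_eq hpO hB hD hη hχ, red_zero, ccG_block hB hη hχ] at h3
  exact (mul_ne_zero hu (cc_ne hpO hB hD hχ)) h3

/-- the situation: integral contributions, a central subgroup of small index in the defect group -/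
structure Sit (O : ValuationSubring ℂ) (p : ℕ) (B : Set (G → ℂ)) (D Z : Subgroup G)
    (M : (G → ℂ) → (G → ℂ) → ℤ) (r : ℕ) : Prop where
  blk : IsBlock O B
  dg : IsDefectGroup p O B D
  cZ : Z ≤ Subgroup.center G
  pZ : IsPGroup p Z
  hM : ∀ θ ∈ B, ∀ η ∈ B, (M θ η : ℂ) = (Nat.card D : ℂ) * IC.B (cut p θ) η
  hr : Nat.card D = r * Nat.card Z

omit hpO in
lemma Sit.symm {B : Set (G → ℂ)} {D Z : Subgroup G} {M : (G → ℂ) → (G → ℂ) → ℤ} {r : ℕ}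
    (s : Sit O p B D Z M r) : ∀ θ ∈ B, ∀ η ∈ B, M θ η = M η θ := by
  intro θ hθ η hη
  have : (M θ η : ℂ) = M η θ := by
    rw [s.hM θ hθ η hη, s.hM η hη θ hθ, B_cut_comm]
  exact_mod_cast this

omit hp hpO in
lemma mem_XZ {B : Set (G → ℂ)} (hB : ∀ χ ∈ B, IsIrr χ) {Z : Subgroup G} {ζ : Z →* ℂ}
    {χ : G → ℂ} : χ ∈ XZ B ζ ↔ χ ∈ B ∧ Over ζ χ := by
  unfold XZ
  rw [Finset.mem_filter, mem_XB hB]

lemma Sit.val {B : Set (G → ℂ)} {D Z : Subgroup G} {M : (G → ℂ) → (G → ℂ) → ℤ} {r : ℕ}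
    (s : Sit O p B D Z M r) (ζ : Z →* ℂ) {η : G → ℂ} (hη : η ∈ B) {g : G}
    (hg : ¬ p ∣ orderOf g) : ∑ ψ ∈ XZ B ζ, (M η ψ : ℂ) * ψ g = r * η g := by
  have hZ0 : (Nat.card Z : ℂ) ≠ 0 := by exact_mod_cast Nat.card_pos.ne'
  have h1 := proj_val hpO s.blk s.cZ s.pZ ζ hη hg
  have h2 : ∑ ψ ∈ XZ B ζ, (M η ψ : ℂ) * ψ g =
      (Nat.card D : ℂ) * ∑ ψ ∈ XZ B ζ, IC.B (cut p η) ψ * ψ g := by
    rw [Finset.mul_sum]
    refine Finset.sum_congr rfl fun ψ hψ => ?_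
    rw [s.hM η hη ψ ((mem_XZ s.blk.irr).mp hψ).1]
    ring
  rw [h2, h1, s.hr]
  push_cast
  field_simp

lemma Sit.prod {B : Set (G → ℂ)} {D Z : Subgroup G} {M : (G → ℂ) → (G → ℂ) → ℤ} {r : ℕ}
    (s : Sit O p B D Z M r) (ζ : Z →* ℂ) {η φ : G → ℂ} (hη : η ∈ B) (hφ : φ ∈ B) :
    ∑ ψ ∈ XZ B ζ, M η ψ * M ψ φ = r * M η φ := by
  have hZ0 : (Nat.card Z : ℂ) ≠ 0 := by exact_mod_cast Nat.card_pos.ne'
  have h1 := proj_M hpO s.blk s.cZ s.pZ ζ (φ := φ) hη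
  have h2 : ((∑ ψ ∈ XZ B ζ, M η ψ * M ψ φ : ℤ) : ℂ) =
      (Nat.card D : ℂ) ^ 2 * ∑ ψ ∈ XZ B ζ, IC.B (cut p η) ψ * IC.B (cut p ψ) φ := by
    push_cast
    rw [Finset.mul_sum]
    refine Finset.sum_congr rfl fun ψ hψ => ?_
    have hψB := ((mem_XZ s.blk.irr).mp hψ).1
    rw [s.hM η hη ψ hψB, s.hM ψ hψB φ hφ]
    ring
  have h3 : ((∑ ψ ∈ XZ B ζ, M η ψ * M ψ φ : ℤ) : ℂ) = ((r * M η φ : ℤ) : ℂ) := by
    rw [h2, h1]
    push_cast
    rw [s.hM η hη φ hφ, s.hr]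
    push_cast
    field_simp
  exact_mod_cast h3

lemma Sit.ne {B : Set (G → ℂ)} {D Z : Subgroup G} {M : (G → ℂ) → (G → ℂ) → ℤ} {r : ℕ}
    (s : Sit O p B D Z M r) {χ η : G → ℂ} (hχ : χ ∈ B) (hu : red O (uu D χ) ≠ 0) (hη : η ∈ B) :
    M χ η ≠ 0 := by
  intro h0
  have h1 := M_ne hpO s.blk s.dg hχ hu hη
  rw [← s.hM η hη χ hχ, s.symm η hη χ hχ, h0] at h1
  exact h1 (by simp)

lemma Sit.unit {B : Set (G → ℂ)} {D Z : Subgroup G} {M : (G → ℂ) → (G → ℂ) → ℤ} {r : ℕ}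
    (s : Sit O p B D Z M r) {χ : G → ℂ} (hχ : χ ∈ B) (hu : red O (uu D χ) ≠ 0) :
    ¬ (p : ℤ) ∣ M χ χ := by
  haveI := charP_RF hpO
  intro h0
  have h1 : ((M χ χ : ℤ) : RF O) = 0 := (CharP.intCast_eq_zero_iff (RF O) p _).mpr h0
  rw [← red_intCast, s.hM χ hχ χ hχ, red_contr hpO s.blk s.dg hχ hχ] at h1
  exact (mul_ne_zero hu (mul_ne_zero hu (cc_ne hpO s.blk s.dg hχ))) h1

lemma Sit.dvd {B : Set (G → ℂ)} {D Z : Subgroup G} {M : (G → ℂ) → (G → ℂ) → ℤ} {r : ℕ}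
    (s : Sit O p B D Z M r) {χ η : G → ℂ} (hχ : χ ∈ B) (hu : red O (uu D χ) = 0) (hη : η ∈ B) :
    (p : ℤ) ∣ M χ η := by
  haveI := charP_RF hpO
  apply (CharP.intCast_eq_zero_iff (RF O) p _).mp
  rw [← red_intCast, s.hM χ hχ η hη, red_contr hpO s.blk s.dg hχ hη, hu, zero_mul]

lemma Sit.pos {B : Set (G → ℂ)} {D Z : Subgroup G} {M : (G → ℂ) → (G → ℂ) → ℤ} {r : ℕ}
    (s : Sit O p B D Z M r) {χ : G → ℂ} (hχ : χ ∈ B) : 0 ≤ M χ χ := by
  have hr0 : 0 < r := by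
    rcases Nat.eq_zero_or_pos r with h | h
    · exfalso
      have h1 := s.hr
      rw [h, zero_mul] at h1
      exact Nat.card_pos.ne' h1
    · exact h
  have h1 := s.prod hpO (cen s.cZ (s.blk.irr χ hχ)) hχ hχ
  have h2 : 0 ≤ (r : ℤ) * M χ χ := by
    rw [← h1]
    refine Finset.sum_nonneg fun ψ hψ => ?_
    rw [s.symm ψ ((mem_XZ s.blk.irr).mp hψ).1 χ hχ]
    exact mul_self_nonneg _
  have hr1 : (0 : ℤ) < r := by exact_mod_cast hr0
  exact nonneg_of_mul_nonneg_right h2 hr1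

/-- characters of height zero over a given linear character -/
lemma Sit.hz {B : Set (G → ℂ)} {D Z : Subgroup G} {M : (G → ℂ) → (G → ℂ) → ℤ} {r : ℕ}
    (s : Sit O p B D Z M r) (hr : r ∣ p) (ζ : Z →* ℂ) :
    ∃ χ ∈ XZ B ζ, red O (uu D χ) ≠ 0 := by
  obtain ⟨ψ, hψ, hψu⟩ := exists_uu_ne hpO s.blk s.dg
  by_contra hcon
  push Not at hcon
  have h1 := s.prod hpO ζ hψ hψ
  have h2 : (p : ℤ) ^ 2 ∣ ∑ φ ∈ XZ B ζ, M ψ φ * M φ ψ := by
    refine Finset.dvd_sum fun φ hφ => ?_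
    have hφB := ((mem_XZ s.blk.irr).mp hφ).1
    have h3 := s.dvd hpO hφB (hcon φ hφ) hψ
    rw [s.symm ψ hψ φ hφB, pow_two]
    exact mul_dvd_mul h3 h3
  rw [h1] at h2
  apply s.unit hpO hψ hψu
  obtain ⟨t, ht⟩ := hr
  have hp0 : (p : ℤ) ≠ 0 := by exact_mod_cast hp.out.ne_zero
  have h3 : (p : ℤ) ^ 2 ∣ (p : ℤ) * M ψ ψ := by
    have h4 : (p : ℤ) * M ψ ψ = t * (r * M ψ ψ) := by
      have : (p : ℤ) = r * t := by exact_mod_cast ht
      rw [this]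
      ring
    rw [h4]
    exact Dvd.dvd.mul_left h2 _
  rw [pow_two] at h3
  exact (mul_dvd_mul_iff_left hp0).mp h3

/-- **Many characters with the same restriction.** -/
theorem Sit.orbit {B : Set (G → ℂ)} {D Z : Subgroup G} {M : (G → ℂ) → (G → ℂ) → ℤ} {r : ℕ}
    (s : Sit O p B D Z M r) {ζ : Z →* ℂ} {χ : G → ℂ} (hχ : χ ∈ XZ B ζ)
    (hu : red O (uu D χ) ≠ 0) (S : Finset (G → ℂ)) (hS : S ⊆ XZ B ζ) (hcard : S.card = r)
    (hval : ∀ ψ ∈ S, ∀ g, ¬ p ∣ orderOf g → ψ g = χ g) : lB p B = 1 := by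
  have hχB := ((mem_XZ s.blk.irr).mp hχ).1
  have hr0 : 0 < r := by
    rcases Nat.eq_zero_or_pos r with h | h
    · exfalso
      have h1 := s.hr
      rw [h, zero_mul] at h1
      exact Nat.card_pos.ne' h1
    · exact h
  have hrZ : (0 : ℤ) < r := by exact_mod_cast hr0
  have hSM : ∀ ψ ∈ S, M χ ψ = M χ χ := by
    intro ψ hψ
    have hψB := ((mem_XZ s.blk.irr).mp (hS hψ)).1
    have h1 : (M χ ψ : ℂ) = M χ χ := by
      rw [s.hM χ hχB ψ hψB, s.hM χ hχB χ hχB]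
      congr 1
      unfold IC.B
      congr 1
      refine Finset.sum_congr rfl fun g _ => ?_
      unfold cut
      split_ifs with h
      · simp
      · rw [hval ψ hψ g⁻¹ (by rwa [orderOf_inv])]
    exact_mod_cast h1
  have hsum := s.prod hpO ζ hχB hχB
  have hsq : ∀ ψ ∈ XZ B ζ, M χ ψ * M ψ χ = M χ ψ ^ 2 := by
    intro ψ hψ
    rw [s.symm ψ ((mem_XZ s.blk.irr).mp hψ).1 χ hχB, pow_two]
  rw [Finset.sum_congr rfl hsq, ← Finset.sum_sdiff hS] at hsum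
  have h1 : ∑ ψ ∈ S, M χ ψ ^ 2 = r * M χ χ ^ 2 := by
    rw [Finset.sum_congr rfl (fun ψ hψ => by rw [hSM ψ hψ]), Finset.sum_const, hcard,
      nsmul_eq_mul]
  rw [h1] at hsum
  have h2 : 0 ≤ ∑ ψ ∈ XZ B ζ \ S, M χ ψ ^ 2 := Finset.sum_nonneg fun ψ _ => sq_nonneg _
  have hpos := s.pos hpO hχB
  have hne := s.ne hpO hχB hu hχB
  have h3 : M χ χ = 1 := by
    have h4 : (r : ℤ) * M χ χ ^ 2 ≤ r * M χ χ := by linarith
    have h5 : M χ χ ^ 2 ≤ M χ χ := le_of_mul_le_mul_left h4 hrZ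
    have h6 : M χ χ ≤ 1 := by
      by_contra h7
      push Not at h7
      nlinarith
    omega
  rw [h3] at hsum
  have h4 : ∑ ψ ∈ XZ B ζ \ S, M χ ψ ^ 2 = 0 := by linarith
  have h5 : XZ B ζ \ S = ∅ := by
    by_contra h6
    obtain ⟨ψ, hψ⟩ := Finset.nonempty_iff_ne_empty.mpr h6
    have h7 := (Finset.sum_eq_zero_iff_of_nonneg (fun ψ _ => sq_nonneg _)).mp h4 ψ hψ
    have hψB := ((mem_XZ s.blk.irr).mp (Finset.mem_sdiff.mp hψ).1).1
    exact s.ne hpO hχB hu hψB (pow_eq_zero_iff (two_ne_zero)|>.mp h7)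
  have h6 : XZ B ζ = S := by
    apply Finset.Subset.antisymm _ hS
    exact Finset.sdiff_eq_empty_iff_subset.mp h5
  refine lB_of_prop hχB (s.blk.irr χ hχB) ?_
  intro η hη
  have hr0' : (r : ℂ) ≠ 0 := by exact_mod_cast hr0.ne'
  refine ⟨(r : ℂ)⁻¹ * ∑ ψ ∈ S, (M η ψ : ℂ), fun g hg => ?_⟩
  have h7 := s.val hpO ζ hη hg
  rw [h6, Finset.sum_congr rfl (fun ψ hψ => by rw [hval ψ hψ g hg]), ← Finset.sum_mul] at h7
  rw [mul_assoc, h7, ← mul_assoc, inv_mul_cancel₀ hr0', one_mul]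

/-- central defect groups -/
theorem Sit.central {B : Set (G → ℂ)} {D Z : Subgroup G} {M : (G → ℂ) → (G → ℂ) → ℤ}
    (s : Sit O p B D Z M 1) : lB p B = 1 := by
  obtain ⟨ψ, hψ, hψu⟩ := exists_uu_ne hpO s.blk s.dg
  have hψX : ψ ∈ XZ B (cen s.cZ (s.blk.irr ψ hψ)) :=
    (mem_XZ s.blk.irr).mpr ⟨hψ, over_cen s.cZ (s.blk.irr ψ hψ)⟩
  refine s.orbit hpO hψX hψu {ψ} (Finset.singleton_subset_iff.mpr hψX) (Finset.card_singleton _) ?_
  intro φ hφ g _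
  rw [Finset.mem_singleton.mp hφ]

end pp

/-- **A central subgroup of index two.** -/
theorem Sit.two (hpO : ((2 : ℕ) : ℂ) ∈ O.nonunits) {B : Set (G → ℂ)} {D Z : Subgroup G}
    {M : (G → ℂ) → (G → ℂ) → ℤ} (s : Sit O 2 B D Z M 2) : lB 2 B = 1 := by
  haveI : Fact (Nat.Prime 2) := ⟨Nat.prime_two⟩
  obtain ⟨χ, hχB, hu⟩ := exists_uu_ne hpO s.blk s.dg
  set ζ := cen s.cZ (s.blk.irr χ hχB) with hζ
  have hχX : χ ∈ XZ B ζ := (mem_XZ s.blk.irr).mpr ⟨hχB, over_cen s.cZ (s.blk.irr χ hχB)⟩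
  have hsum := s.prod hpO ζ hχB hχB
  have hsq : ∀ ψ ∈ XZ B ζ, M χ ψ * M ψ χ = M χ ψ ^ 2 := by
    intro ψ hψ
    rw [s.symm ψ ((mem_XZ s.blk.irr).mp hψ).1 χ hχB, pow_two]
  rw [Finset.sum_congr rfl hsq, ← Finset.add_sum_erase _ _ hχX] at hsum
  have hpos := s.pos hpO hχB
  have hunit := s.unit hpO hχB hu
  have h2 : 0 ≤ ∑ ψ ∈ (XZ B ζ).erase χ, M χ ψ ^ 2 := Finset.sum_nonneg fun ψ _ => sq_nonneg _
  have h3 : M χ χ = 1 := by
    push_cast at hsum hunit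
    have h4 : M χ χ ≤ 2 := by
      by_contra h5
      push Not at h5
      nlinarith
    have h5 : M χ χ ≠ 0 := fun h => hunit (by rw [h]; exact dvd_zero _)
    have h6 : M χ χ ≠ 2 := fun h => hunit (by rw [h])
    omega
  rw [h3] at hsum
  have h4 : ∑ ψ ∈ (XZ B ζ).erase χ, M χ ψ ^ 2 = 1 := by
    push_cast at hsum
    linarith
  have hone : ∀ ψ ∈ (XZ B ζ).erase χ, 1 ≤ M χ ψ ^ 2 := by
    intro ψ hψ
    have hψB := ((mem_XZ s.blk.irr).mp (Finset.mem_of_mem_erase hψ)).1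
    have := s.ne hpO hχB hu hψB
    have h5 : 0 < M χ ψ ^ 2 := by positivity
    omega
  have hc : ((XZ B ζ).erase χ).card = 1 := by
    have h5 : (((XZ B ζ).erase χ).card : ℤ) ≤ 1 := by
      rw [← h4]
      calc (((XZ B ζ).erase χ).card : ℤ) = ∑ ψ ∈ (XZ B ζ).erase χ, 1 := by simp
        _ ≤ _ := Finset.sum_le_sum hone
    have h6 : ((XZ B ζ).erase χ).card ≠ 0 := by
      intro h7
      rw [Finset.card_eq_zero] at h7
      rw [h7] at h4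
      simp at h4
    omega
  obtain ⟨ψ, hψ⟩ := Finset.card_eq_one.mp hc
  rw [hψ, Finset.sum_singleton] at h4
  have hψm : ψ ∈ (XZ B ζ).erase χ := by rw [hψ]; exact Finset.mem_singleton_self _
  have hval : ∀ η ∈ B, ∀ g : G, ¬ 2 ∣ orderOf g →
      (M η χ : ℂ) * χ g + (M η ψ : ℂ) * ψ g = 2 * η g := by
    intro η hη g hg
    have h5 := s.val hpO ζ hη hg
    rw [← Finset.add_sum_erase _ _ hχX, hψ, Finset.sum_singleton] at h5
    exact_mod_cast h5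
  have hM2 : (M χ ψ : ℂ) ^ 2 = 1 := by exact_mod_cast h4
  have hψv : ∀ g : G, ¬ 2 ∣ orderOf g → ψ g = (M χ ψ : ℂ) * χ g := by
    intro g hg
    have h5 := hval χ hχB g hg
    rw [h3, Int.cast_one] at h5
    have h6 : (M χ ψ : ℂ) * ψ g = χ g := by linear_combination h5
    calc ψ g = (M χ ψ : ℂ) ^ 2 * ψ g := by rw [hM2, one_mul]
      _ = (M χ ψ : ℂ) * ((M χ ψ : ℂ) * ψ g) := by ring
      _ = _ := by rw [h6]
  refine lB_of_prop hχB (s.blk.irr χ hχB) ?_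
  intro η hη
  refine ⟨((M η χ : ℂ) + (M η ψ : ℂ) * (M χ ψ : ℂ)) / 2, fun g hg => ?_⟩
  have h5 := hval η hη g hg
  rw [hψv g hg] at h5
  linear_combination (-1 / 2 : ℂ) * h5

end Pool.Agent.Zk65.SE
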