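import Mathlib
import Pool.Agent.Helper606_LC.Aut
import Pool.Agent.Zk65.SE18

/-!
Blocks with a central subgroup of index `p` in the defect group over which the defect group does
not split have one irreducible Brauer character.
-/

set_option autoImplicit false
set_option linter.style.haveILetI false
set_option linter.unusedSectionVars false

open scoped BigOperators Classical
open Pool.Agent.Helper884 Pool.Agent.H254R3.IN Pool.Agent.N20 Pool.Agent.Zk65.TB

noncomputable section

namespace Pool.Agent.Zk65.SE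

variable {G : Type} [Group G] [Fintype G] {O : ValuationSubring ℂ}

/-- power twists of irreducible characters -/
lemma irr_twist {χ : G → ℂ} (hχ : IsIrr χ) {m : ℕ} (hm : Nat.Coprime m (Nat.card G)) :
    IsIrr (fun g => χ (g ^ m)) := by
  have hN : 0 < Nat.card G := Nat.card_pos
  obtain ⟨σ, hσ⟩ := Pool.Agent.Helper606_LC.exists_aut_pow hN (ZMod.unitOfCoprime m hm)
  have h1 : (fun g => χ (g ^ m)) = fun g => σ (χ g) := by
    funext g
    obtain ⟨V, _, _, _, ρ, hr, rfl⟩ := hχ
    have h2 := Pool.Agent.Helper606_LC.char_pow ρ hN hσ (g := g) pow_card_eq_one'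
    change ρ.character (g ^ m) = σ (ρ.character g)
    rw [h2]
    congr 1
    rw [ZMod.coe_unitOfCoprime, ZMod.val_natCast]
    exact pow_eq_pow_mod _ pow_card_eq_one'
  rw [h1]
  exact Pool.Agent.Q90.WR.irr_gal σ hχ

/-- the exponent of the twist -/
lemma exists_twist (p : ℕ) [hp : Fact p.Prime] (G : Type) [Group G] [Fintype G] :
    ∃ m : ℕ, Nat.Coprime m (Nat.card G) ∧ (∀ g : G, ¬ p ∣ orderOf g → g ^ m = g) ∧
      ∀ g : G, (∃ k, orderOf g = p ^ k) → g ^ m = g ^ (1 + p) := by
  obtain ⟨e, e', e1, e2, -, -, e5⟩ := IC.exists_exps p G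
  have a2 : ∀ h : G, ¬ p ∣ orderOf h → h ^ e' = 1 := by
    intro h hh
    have := e5 h
    rw [e1 h hh] at this
    exact mul_eq_left.mp this
  have hreg : ∀ g : G, ¬ p ∣ orderOf g → g ^ (1 + p * e') = g := by
    intro g hg
    rw [pow_add, pow_one, mul_comm p e', pow_mul, a2 g hg, one_pow, mul_one]
  refine ⟨1 + p * e', ?_, hreg, ?_⟩
  · rw [Nat.coprime_iff_gcd_eq_one]
    by_contra h
    obtain ⟨l, hl, hl2⟩ := Nat.exists_prime_and_dvd h
    have h1 := hl2.trans (Nat.gcd_dvd_left _ _)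
    have h2 := hl2.trans (Nat.gcd_dvd_right _ _)
    by_cases hlp : l = p
    · rw [hlp] at h1
      have h3 := (Nat.dvd_add_left (dvd_mul_right p e')).mp h1
      exact hp.out.ne_one (Nat.dvd_one.mp h3)
    · haveI : Fact l.Prime := ⟨hl⟩
      obtain ⟨x, hx⟩ := exists_prime_orderOf_dvd_card' l h2
      have h3 := hreg x (by
        rw [hx]
        intro h4
        exact hlp ((Nat.prime_dvd_prime_iff_eq hp.out hl).mp h4).symm)
      have h4 : x ^ (p * e') = 1 := by
        rw [pow_add, pow_one] at h3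
        exact mul_eq_left.mp h3
      have h5 := orderOf_dvd_of_pow_eq_one h4
      rw [hx] at h5
      have h6 := (Nat.dvd_add_left h5).mp h1
      exact hl.ne_one (Nat.dvd_one.mp h6)
  · intro g hg
    have a1 : g ^ e' = g := by
      have := e5 g
      rwa [e2 g hg, one_mul] at this
    rw [pow_add, pow_one, mul_comm p e', pow_mul, a1, pow_add, pow_one]

/-- a linear character of a central subgroup -/
lemma exists_lin {p : ℕ} [hp : Fact p.Prime] {Z : Subgroup G} (hZ : Z ≤ Subgroup.center G)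
    {w : Z} (hw : ∀ z : Z, z ^ p ≠ w) : ∃ ζ : Z →* ℂ, (∀ z, ζ z ^ p = 1) ∧ ζ w ≠ 1 := by
  letI : CommGroup Z :=
    { (inferInstance : Group Z) with
      mul_comm := fun a b => Subtype.ext (Subgroup.mem_center_iff.mp (hZ b.2) a) }
  let N : Subgroup Z := (powMonoidHom p : Z →* Z).range
  have ha : (QuotientGroup.mk w : Z ⧸ N) ≠ 1 := by
    intro h
    rw [QuotientGroup.eq_one_iff] at h
    obtain ⟨z, hz⟩ := h
    exact hw z hz
  haveI : Finite (Z ⧸ N) := inferInstance
  haveI : NeZero (Monoid.exponent (Z ⧸ N)) := ⟨Monoid.exponent_ne_zero_of_finite⟩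
  obtain ⟨φ, hφ⟩ := CommGroup.exists_apply_ne_one_of_hasEnoughRootsOfUnity (Z ⧸ N) ℂ ha
  refine ⟨(Units.coeHom ℂ).comp (φ.comp (QuotientGroup.mk' N)), ?_, ?_⟩
  · intro z
    have h1 : (QuotientGroup.mk' N z) ^ p = 1 := by
      rw [← map_pow]
      exact (QuotientGroup.eq_one_iff _).mpr ⟨z, rfl⟩
    change ((φ (QuotientGroup.mk' N z) : ℂˣ) : ℂ) ^ p = 1
    rw [← Units.val_pow_eq_pow_val, ← map_pow, h1, map_one, Units.val_one]
  · intro h
    apply hφ
    apply Units.ext
    exact h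

section pp

variable {p : ℕ} [hp : Fact p.Prime] (hpO : (p : ℂ) ∈ O.nonunits)

include hpO

/-- **Defect groups which do not split over a central subgroup of index `p`.** -/
theorem Sit.nonsplit {B : Set (G → ℂ)} {D Z : Subgroup G} {M : (G → ℂ) → (G → ℂ) → ℤ}
    (s : Sit O p B D Z M p) (hZD : Z ≤ D) (hns : ∀ d ∈ D, d ^ p = 1 → d ∈ Z) : lB p B = 1 := by
  have hp1 := hp.out.one_lt
  have hDp := Pool.Agent.N20.defect_pgroup s.dg
  -- an element outside the central subgroup
  obtain ⟨v, hvD, hvZ⟩ : ∃ v ∈ D, v ∉ Z := by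
    by_contra hcon
    push Not at hcon
    have h1 : Nat.card D ≤ Nat.card Z := Subgroup.card_le_of_le hcon
    rw [s.hr] at h1
    have h2 : 0 < Nat.card Z := Nat.card_pos
    nlinarith
  have hidx : (Z.subgroupOf D).index = p := by
    have h1 : Nat.card (Z.subgroupOf D) * (Z.subgroupOf D).index = Nat.card D :=
      Subgroup.card_mul_index _
    have h2 : Nat.card (Z.subgroupOf D) = Nat.card Z :=
      Nat.card_congr (Subgroup.subgroupOfEquivOfLe hZD).toEquiv
    rw [h2, s.hr, mul_comm p] at h1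
    exact Nat.eq_of_mul_eq_mul_left Nat.card_pos h1
  haveI hnorm : (Z.subgroupOf D).Normal := by
    constructor
    intro n hn g
    have h1 : (n : G) ∈ Z := hn
    change ((g * n * g⁻¹ : D) : G) ∈ Z
    have h2 : ((g * n * g⁻¹ : D) : G) = n := by
      have h3 : (g : G) * (n : G) = n * g := Subgroup.mem_center_iff.mp (s.cZ h1) g
      push_cast
      rw [h3]
      group
    rw [h2]
    exact h1
  have hvp : v ^ p ∈ Z := by
    have h1 := Subgroup.pow_index_mem (Z.subgroupOf D) (⟨v, hvD⟩ : D)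
    rw [hidx] at h1
    exact h1
  have hw : ∀ z : Z, z ^ p ≠ ⟨v ^ p, hvp⟩ := by
    intro z hz
    have h1 : (z : G) ^ p = v ^ p := congrArg Subtype.val hz
    have hc : Commute v ((z : G)⁻¹) := by
      have h2 : v * (z : G) = z * v := Subgroup.mem_center_iff.mp (s.cZ z.2) v
      exact (Commute.inv_right h2)
    have h2 : (v * (z : G)⁻¹) ^ p = 1 := by
      rw [hc.mul_pow, ← h1, inv_pow, mul_inv_cancel]
    have h3 := hns _ (D.mul_mem hvD (D.inv_mem (hZD z.2))) h2
    apply hvZ
    have h4 : v = v * (z : G)⁻¹ * z := by group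
    rw [h4]
    exact Z.mul_mem h3 z.2
  obtain ⟨ζ, hζp, hζw⟩ := exists_lin s.cZ hw
  set ω : ℂ := ζ ⟨v ^ p, hvp⟩ with hω
  have hωp : ω ^ p = 1 := hζp _
  obtain ⟨χ, hχ, hu⟩ := s.hz hpO dvd_rfl ζ
  obtain ⟨hχB, hχo⟩ := (mem_XZ s.blk.irr).mp hχ
  have hχi := s.blk.irr χ hχB
  obtain ⟨m, hm, hmreg, hmp⟩ := exists_twist p G
  -- the twist
  set τ : (G → ℂ) → (G → ℂ) := fun f g => f (g ^ m) with hτ
  have hvord : ∃ k, orderOf v = p ^ k := by
    obtain ⟨k, hk⟩ := IsPGroup.iff_orderOf.mp hDp ⟨v, hvD⟩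
    exact ⟨k, by rw [← hk]; exact (Subgroup.orderOf_mk v hvD).symm⟩
  have hstep : ∀ ψ ∈ XZ B ζ, (∀ g, ¬ p ∣ orderOf g → ψ g = χ g) →
      τ ψ ∈ XZ B ζ ∧ ∀ g, ¬ p ∣ orderOf g → τ ψ g = χ g := by
    intro ψ hψ hψv
    obtain ⟨hψB, hψo⟩ := (mem_XZ s.blk.irr).mp hψ
    have hψi := s.blk.irr ψ hψB
    have hreg : ∀ g, ¬ p ∣ orderOf g → τ ψ g = χ g := by
      intro g hg
      change ψ (g ^ m) = χ g
      rw [hmreg g hg, hψv g hg]
    refine ⟨(mem_XZ s.blk.irr).mpr ⟨?_, ?_⟩, hreg⟩
    · by_contra hcon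
      have h1 := blk_orth hpO s.blk hψB (irr_twist hψi hm) hcon
      have h2 : IC.B (cut p ψ) (fun g => ψ (g ^ m)) = IC.B (cut p χ) χ := by
        unfold IC.B
        congr 1
        refine Finset.sum_congr rfl fun g _ => ?_
        unfold cut
        split_ifs with h
        · simp
        · have h3 : ¬ p ∣ orderOf g⁻¹ := by rwa [orderOf_inv]
          have h4 := hreg g⁻¹ h3
          change ψ ((g⁻¹) ^ m) = χ g⁻¹ at h4
          change ψ g * ψ ((g⁻¹) ^ m) = χ g * χ g⁻¹
          rw [h4, hψv g h]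
      rw [h2] at h1
      have h3 := s.ne hpO hχB hu hχB
      apply h3
      have h4 : (M χ χ : ℂ) = 0 := by rw [s.hM χ hχB χ hχB, h1, mul_zero]
      exact_mod_cast h4
    · intro z
      obtain ⟨k, hk⟩ := IsPGroup.iff_orderOf.mp s.pZ z
      have h1 : (z : G) ^ m = (z : G) ^ (1 + p) :=
        hmp z ⟨k, by rw [← hk]; exact (Subgroup.orderOf_coe z)⟩
      change ψ ((z : G) ^ m) = ζ z * ψ (1 ^ m)
      rw [h1, one_pow]
      have h2 : (z : G) ^ (1 + p) = ((z ^ (1 + p) : Z) : G) := rfl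
      rw [h2, hψo, map_pow, pow_add, pow_one, hζp, mul_one]
  have hiter : ∀ j : ℕ, τ^[j] χ ∈ XZ B ζ ∧ ∀ g, ¬ p ∣ orderOf g → τ^[j] χ g = χ g := by
    intro j
    induction j with
    | zero => exact ⟨hχ, fun g _ => rfl⟩
    | succ j ih =>
      rw [Function.iterate_succ_apply']
      exact hstep _ ih.1 ih.2
  -- the values at `v h`
  obtain ⟨x, ⟨P, hP⟩, hωx, -⟩ := s.dg
  obtain ⟨e, e', -, -, e3, e4, e5⟩ := IC.exists_exps p G
  have hvx : Commute v x := by
    have h1 : v ∈ (P : Subgroup (Subgroup.centralizer ({x} : Set G))).map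
        (Subgroup.centralizer ({x} : Set G)).subtype := by rw [← hP]; exact hvD
    obtain ⟨c, -, rfl⟩ := Subgroup.mem_map.mp h1
    exact (Subgroup.mem_centralizer_iff.mp c.2 x (Set.mem_singleton x)).symm
  have hvh : Commute v (x ^ e) := hvx.pow_right e
  have hredx : red O (χ x) ≠ 0 := by
    have hcard : Nat.card D = Nat.card P := by
      rw [hP]
      exact (Nat.card_congr ((P : Subgroup (Subgroup.centralizer ({x} : Set
        G))).equivMapOfInjective _ (Subgroup.centralizer ({x} : Set G)).subtype_injective).toEquiv).symm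
    have h6 : Nat.card P * (P : Subgroup (Subgroup.centralizer ({x} : Set G))).index =
        Nat.card (Subgroup.centralizer ({x} : Set G)) := Subgroup.card_mul_index _
    have h7 : ¬ p ∣ (P : Subgroup (Subgroup.centralizer ({x} : Set G))).index := P.not_dvd_index
    have hnn : nn D x = ((P : Subgroup (Subgroup.centralizer ({x} : Set G))).index : ℂ) := by
      unfold nn
      have hD0 : (Nat.card P : ℂ) ≠ 0 := by exact_mod_cast Nat.card_pos.ne'
      rw [hcard, ← h6]
      push_cast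
      rw [mul_div_cancel_left₀ _ hD0]
    have h8 := val_nn D hχi x
    rw [hnn] at h8
    rw [h8, red_mul (O.mul_mem _ _ (Pool.Agent.N20.uu_mem hpO s.blk s.dg hχB)
      (hχi.omega_mem O x)) (natCast_mem' _),
      red_mul (Pool.Agent.N20.uu_mem hpO s.blk s.dg hχB) (hχi.omega_mem O x)]
    haveI := charP_RF hpO
    refine mul_ne_zero (mul_ne_zero hu ?_) ?_
    · intro h
      exact hωx χ hχB ((red_eq_zero_iff (hχi.omega_mem O x)).mp h)
    · rw [red_natCast]
      intro h
      exact h7 ((CharP.cast_eq_zero_iff (RF O) p _).mp h)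
  have hredh : red O (χ (x ^ e)) = red O (χ x) := by
    obtain ⟨k, hk⟩ := e4 x
    have h1 : Commute (x ^ e') (x ^ e) := (Commute.refl x).pow_pow e' e
    have h2 := Pool.Agent.Y62.val_red hpO hχi hk h1 1
    rw [pow_one, h1, e5] at h2
    exact h2.symm
  have hχy : χ (v * x ^ e) ≠ 0 := by
    obtain ⟨k, hk⟩ := hvord
    have h2 := Pool.Agent.Y62.val_red hpO hχi hk hvh 1
    rw [pow_one, hredh] at h2
    intro h0
    rw [h0, red_zero] at h2
    exact hredx h2.symm
  have hym : (v * x ^ e) ^ m = v ^ p * (v * x ^ e) := by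
    rw [hvh.mul_pow, hmreg _ (e3 x), hmp v hvord, pow_add, pow_one, ← mul_assoc]
    congr 1
    exact (Commute.refl v).pow_right p
  have hval : ∀ j : ℕ, τ^[j] χ (v * x ^ e) = ω ^ j * χ (v * x ^ e) := by
    intro j
    induction j with
    | zero => simp
    | succ j ih =>
      rw [Function.iterate_succ_apply']
      change τ^[j] χ ((v * x ^ e) ^ m) = _
      have hj := (hiter j).1
      obtain ⟨hjB, hjo⟩ := (mem_XZ s.blk.irr).mp hj
      have hji := s.blk.irr _ hjB
      rw [hym, val_central hji (s.cZ hvp), ih]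
      have h1 : τ^[j] χ (v ^ p) = ω * τ^[j] χ 1 := hjo ⟨v ^ p, hvp⟩
      rw [h1, mul_div_cancel_right₀ _ hji.one_ne, pow_succ]
      ring
  have hωprim : IsPrimitiveRoot ω p := by
    rw [IsPrimitiveRoot.iff_orderOf]
    exact orderOf_eq_prime hωp hζw
  have hinj : Set.InjOn (fun j : ℕ => τ^[j] χ) (Finset.range p : Set ℕ) := by
    intro i hi j hj hij
    have h1 := congrFun hij (v * x ^ e)
    simp only [hval] at h1
    have h2 := mul_right_cancel₀ hχy h1
    rw [Finset.coe_range, Set.mem_Iio] at hi hj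
    exact hωprim.pow_inj hi hj h2
  refine s.orbit hpO hχ hu ((Finset.range p).image fun j => τ^[j] χ) ?_ ?_ ?_
  · intro ψ hψ
    obtain ⟨j, -, rfl⟩ := Finset.mem_image.mp hψ
    exact (hiter j).1
  · rw [Finset.card_image_of_injOn hinj, Finset.card_range]
  · intro ψ hψ
    obtain ⟨j, -, rfl⟩ := Finset.mem_image.mp hψ
    exact (hiter j).2

end pp

end Pool.Agent.Zk65.SE
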