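import Mathlib
import Pool.Agent.Zk65.SE19

/-!
Defect groups of the blocks of the centralizer of a `p`-subgroup; the local criterion.
-/

set_option autoImplicit false
set_option linter.style.haveILetI false
set_option linter.unusedSectionVars false

open scoped BigOperators Classical
open Pool.Agent.Helper884 Pool.Agent.H254R3.IN Pool.Agent.N20 Pool.Agent.Zk65.TB

noncomputable section

namespace Pool.Agent.Zk65.SE

variable {G : Type} [Group G] [Fintype G] {O : ValuationSubring ℂ}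

section pp

variable {p : ℕ} [hp : Fact p.Prime] (hpO : (p : ℂ) ∈ O.nonunits)

include hpO

/-- classes with nonvanishing central character meet the centralizer of every `p`-subgroup which
centralizes an element of the support of the block idempotent -/
theorem lam_ne' {S : Subgroup G} (hSp : IsPGroup p S) {B : Set (G → ℂ)} (hB : IsBlock O B)
    {x₀ : G} (hDle : ∀ d ∈ S, d * x₀ = x₀ * d) (ha : blockCoeff B x₀ ∉ O.nonunits)
    {χ : G → ℂ} (hχ : χ ∈ B) {x : G} (hx : red O (omega χ x) ≠ 0) :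
    ∃ g : G, g * x * g⁻¹ ∈ Subgroup.centralizer (S : Set G) := by
  have hω : ∀ ψ ∈ B, omega ψ x ∉ O.nonunits := by
    intro ψ hψ h
    apply hx
    rw [hB.red_eq hχ hψ, red_eq_zero h]
  obtain ⟨y, hy1, hy2, hy3⟩ := exists_inverse hB.irr hω (XB B)
    (fun χ hχ => (mem_XB hB.irr).mp hχ)
  set w := conv y (blockCoeff B) with hw
  have hwcl : IsCl w := hy1.conv (blockCoeff_cl hB.irr)
  have hwO : ∀ g, w g ∈ O := conv_mem hy2 (blockCoeff_mem hB)
  have key : conv w (ind x) = blockCoeff B := by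
    apply eq_of_Om (hwcl.conv (ind_cl x)) (blockCoeff_cl hB.irr)
    intro ψ hψ
    rw [Om_conv hψ hwcl (ind_cl x), hw, Om_conv hψ hy1 (blockCoeff_cl hB.irr),
      Om_blockCoeff hB.irr hψ, Om_ind hψ]
    split_ifs with h
    · rw [mul_one, hy3 ψ ((mem_XB hB.irr).mpr h)]
    · rw [mul_zero, zero_mul]
  by_contra hcon
  push Not at hcon
  apply ha
  haveI := charP_RF hpO
  have h1 : blockCoeff B x₀ = ∑ k : G, w (x₀ * k⁻¹) * ind x k := by
    rw [← key]
    unfold conv
    refine Fintype.sum_equiv ((Equiv.inv G).trans (Equiv.mulRight x₀)) _ _ fun h => ?_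
    have e1 : ((Equiv.inv G).trans (Equiv.mulRight x₀)) h = h⁻¹ * x₀ := rfl
    rw [e1]
    congr 2
    group
  have hmem : ∀ k : G, w (x₀ * k⁻¹) * ind x k ∈ O := fun k => O.mul_mem _ _ (hwO _) (ind_mem O x k)
  have h2 : red O (blockCoeff B x₀) = ∑ k : G, red O (w (x₀ * k⁻¹) * ind x k) := by
    rw [h1, red_sum _ _ (fun k _ => hmem k)]
  letI : MulAction S G := MulAction.compHom G ((MulAut.conj : G →* MulAut G).comp S.subtype)
  have h3 := sum_fixed hSp (X := G) (F := RF O)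
    (fun a => by rw [← Nat.cast_smul_eq_nsmul (RF O), CharP.cast_eq_zero, zero_smul])
    (fun k => red O (w (x₀ * k⁻¹) * ind x k)) (by
      intro d k
      have e1 : d • k = (d : G) * k * (d : G)⁻¹ := rfl
      rw [e1, ind_cl x k d]
      congr 2
      have e2 : x₀ * ((d : G) * k * (d : G)⁻¹)⁻¹ = (d : G) * (x₀ * k⁻¹) * (d : G)⁻¹ := by
        have := hDle d d.2
        calc x₀ * ((d : G) * k * (d : G)⁻¹)⁻¹ = (x₀ * d) * k⁻¹ * (d : G)⁻¹ := by group
          _ = (d * x₀) * k⁻¹ * (d : G)⁻¹ := by rw [this]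
          _ = _ := by group
      rw [e2, hwcl])
  rw [h3, Finset.sum_eq_zero] at h2
  · exact (red_eq_zero_iff (blockCoeff_mem hB _)).mp h2
  · intro k hk
    simp only [Finset.mem_filter, Finset.mem_univ, true_and] at hk
    have h4 : k ∈ Subgroup.centralizer (S : Set G) := by
      rw [Subgroup.mem_centralizer_iff]
      intro d hd
      have h5 : d * k * d⁻¹ = k := hk ⟨d, hd⟩
      have h6 := congrArg (· * d) h5
      simpa [mul_assoc] using h6
    have h5 : ¬ IsConj x k := by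
      intro hc
      obtain ⟨c, hc⟩ := isConj_iff.mp hc
      exact hcon c (by rw [hc]; exact h4)
    rw [ind, if_neg h5, mul_zero, red_zero]

omit hpO in
/-- conjugation into a Sylow subgroup -/
lemma into_sylow {C : Type} [Group C] [Finite C] (P : Sylow p C) {S : Subgroup C}
    (hS : IsPGroup p S) : ∃ c : C, ∀ s ∈ S, c * s * c⁻¹ ∈ P := by
  obtain ⟨Q, hQ⟩ := hS.exists_le_sylow
  obtain ⟨c, hc⟩ := MulAction.exists_smul_eq C Q P
  refine ⟨c, fun s hs => ?_⟩
  rw [← hc]
  exact Subgroup.smul_mem_pointwise_smul _ (MulAut.conj c) _ (hQ hs)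

/-- **The product of a subgroup and a defect group of a block of its centralizer.** -/
theorem into_defect {b : Set (G → ℂ)} (hb : IsBlock O b) {D : Subgroup G}
    (hD : IsDefectGroup p O b D) {R : Subgroup G} (hR : IsPGroup p R) {θ : CR R → ℂ}
    (hθ : IsIrr θ) (hne : lam O R θ (blockCoeff b) ≠ 0) {Δ : Subgroup (CR R)}
    (hΔ : IsDefectGroup p O (bk O θ) Δ) :
    ∃ k : G, (∀ r ∈ R, k * r * k⁻¹ ∈ D) ∧ ∀ δ ∈ Δ, k * (δ : G) * k⁻¹ ∈ D := by
  have hβ : IsBlock O (bk O θ) := bk_block hθ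
  have hΔp := Pool.Agent.N20.defect_pgroup hΔ
  -- an element of the support
  have h1 : lam O R θ (blockCoeff b) = ∑ L : ConjClasses (CR R),
      red O (blockCoeff b ((rep L : CR R) : G)) * red O (omega θ (rep L)) :=
    Pool.Agent.N20.red_Om hθ (res_cl' (blockCoeff_cl hb.irr)) (fun g => blockCoeff_mem hb g)
  rw [h1] at hne
  obtain ⟨L, -, hL⟩ := Finset.exists_ne_zero_of_sum_ne_zero hne
  have hLb := left_ne_zero_of_mul hL
  have hLω := right_ne_zero_of_mul hL
  obtain ⟨c, hc⟩ := lam_ne hpO hβ hΔ (bk_self hθ) hLω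
  set l : CR R := c * rep L * c⁻¹ with hl
  have hlb : blockCoeff b (l : G) ∉ O.nonunits := by
    intro h
    apply hLb
    have h2 : blockCoeff b (l : G) = blockCoeff b ((rep L : CR R) : G) := by
      have h3 := blockCoeff_cl hb.irr ((rep L : CR R) : G) (c : G)
      rw [← h3]
      rfl
    rw [← h2, red_eq_zero h]
  have hcomm : ∀ (r : R) (δ : Δ), Commute (R.subtype r)
      (((CR R).subtype.comp Δ.subtype) δ) := by
    intro r δ
    exact mem_CR.mp (δ : CR R).2 r r.2
  set φ : R × Δ →* G := MonoidHom.noncommCoprod R.subtype ((CR R).subtype.comp Δ.subtype) hcomm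
    with hφ
  have hφv : ∀ r δ, φ (r, δ) = (r : G) * ((δ : CR R) : G) := fun r δ => rfl
  set S := φ.range with hS
  have hSp : IsPGroup p S := by
    obtain ⟨i, hi⟩ := IsPGroup.iff_card.mp hR
    obtain ⟨j, hj⟩ := IsPGroup.iff_card.mp hΔp
    have h2 : IsPGroup p (R × Δ) := by
      apply IsPGroup.of_card (n := i + j)
      rw [Nat.card_prod, hi, hj, pow_add]
    exact h2.of_surjective φ.rangeRestrict φ.rangeRestrict_surjective
  have hSl : ∀ d ∈ S, d * (l : G) = l * d := by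
    rintro _ ⟨⟨r, δ⟩, rfl⟩
    rw [hφv]
    have h2 : (r : G) * (l : G) = l * r := mem_CR.mp l.2 r r.2
    have h3 : ((δ : CR R) : G) * (l : G) = l * ((δ : CR R) : G) :=
      congrArg Subtype.val (Subgroup.mem_centralizer_iff.mp hc δ δ.2)
    rw [mul_assoc, h3, ← mul_assoc, h2, mul_assoc]
  obtain ⟨x₀, ⟨P, hP⟩, hωx, -⟩ := hD
  obtain ⟨χ, hχ⟩ := hb.nonempty
  have hx0 : red O (omega χ x₀) ≠ 0 := fun h =>
    hωx χ hχ ((red_eq_zero_iff ((hb.irr χ hχ).omega_mem O x₀)).mp h)
  obtain ⟨g, hg⟩ := lam_ne' hpO hSp hb hSl hlb hχ hx0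
  -- conjugate into the centralizer
  have hgS : ∀ s ∈ S, g⁻¹ * s * g ∈ Subgroup.centralizer ({x₀} : Set G) := by
    intro s hs
    have h2 : s * (g * x₀ * g⁻¹) = (g * x₀ * g⁻¹) * s :=
      Subgroup.mem_centralizer_iff.mp hg s hs
    rw [Subgroup.mem_centralizer_iff]
    simp only [Set.mem_singleton_iff, forall_eq]
    calc x₀ * (g⁻¹ * s * g) = g⁻¹ * ((g * x₀ * g⁻¹) * s) * g := by group
      _ = g⁻¹ * (s * (g * x₀ * g⁻¹)) * g := by rw [h2]
      _ = _ := by group
  let S' : Subgroup (Subgroup.centralizer ({x₀} : Set G)) :=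
    (S.map (MulAut.conj g⁻¹).toMonoidHom).subgroupOf (Subgroup.centralizer ({x₀} : Set G))
  have hS'p : IsPGroup p S' := by
    have h2 : IsPGroup p (S.map (MulAut.conj g⁻¹).toMonoidHom) := hSp.map _
    exact h2.comap_of_injective (Subgroup.centralizer ({x₀} : Set G)).subtype
      (Subgroup.subtype_injective _)
  obtain ⟨c', hc'⟩ := into_sylow P hS'p
  have hfin : ∀ s ∈ S, ((c' : G) * g⁻¹) * s * ((c' : G) * g⁻¹)⁻¹ ∈ D := by
    intro s hs
    have h2 : (⟨g⁻¹ * s * g, hgS s hs⟩ : Subgroup.centralizer ({x₀} : Set G)) ∈ S' := by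
      change g⁻¹ * s * g ∈ S.map (MulAut.conj g⁻¹).toMonoidHom
      exact ⟨s, hs, by simp⟩
    have h3 := hc' _ h2
    rw [hP]
    refine Subgroup.mem_map.mpr ⟨_, h3, ?_⟩
    change (c' : G) * (g⁻¹ * s * g) * (c' : G)⁻¹ = _
    group
  refine ⟨(c' : G) * g⁻¹, ?_, ?_⟩
  · intro r hr
    apply hfin
    exact ⟨(⟨r, hr⟩, 1), by rw [hφv]; simp⟩
  · intro δ hδ
    apply hfin
    exact ⟨(1, ⟨δ, hδ⟩), by rw [hφv]; simp⟩

end pp

end Pool.Agent.Zk65.SE
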