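import Mathlib
import Pool.Agent.Zk65.SE20

/-!
The local criterion for the second elementary divisor of the Cartan matrix.
-/

set_option autoImplicit false
set_option linter.style.haveILetI false
set_option linter.unusedSectionVars false

open scoped BigOperators Classical
open Pool.Agent.Helper884 Pool.Agent.H254R3.IN Pool.Agent.N20 Pool.Agent.Zk65.TB

noncomputable section

namespace Pool.Agent.Zk65.SE

variable {G : Type} [Group G] [Fintype G] {O : ValuationSubring ℂ}

/-- the structural condition on the defect group -/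
def LocCond (p : ℕ) (D : Subgroup G) (q : ℕ) : Prop :=
  ∀ R : Subgroup G, R ≤ D → Nat.card R < Nat.card D → Nat.card D < q * Nat.card R →
    Nat.card (D ⊓ CR R : Subgroup G) ∣ p * Nat.card (R ⊓ CR R : Subgroup G) ∧
      (p = 2 ∨ ∀ c ∈ D, c ∈ CR R → c ^ p = 1 → c ∈ R)

section pp

variable {p : ℕ} [hp : Fact p.Prime] (hpO : (p : ℂ) ∈ O.nonunits)

include hpO

/-- **Local blocks with one irreducible Brauer character.** -/
theorem one_of_loc {b : Set (G → ℂ)} (hb : IsBlock O b) {D : Subgroup G}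
    (hD : IsDefectGroup p O b D) {q : ℕ} (hloc : LocCond p D q) {R : Subgroup G}
    (hR : IsPGroup p R) (hR1 : Nat.card R < Nat.card D) (hR2 : Nat.card D < q * Nat.card R)
    {θ : CR R → ℂ} (hθ : IsIrr θ) (hne : lam O R θ (blockCoeff b) ≠ 0) :
    lB p (bk O θ) = 1 := by
  have hβ : IsBlock O (bk O θ) := bk_block hθ
  obtain ⟨Δ, hΔ⟩ := exists_defect (p := p) hβ
  obtain ⟨k, hkR, hkΔ⟩ := into_defect hpO hb hD hR hθ hne hΔ
  -- the central subgroup
  set Z : Subgroup (CR R) := (R ⊓ CR R).subgroupOf (CR R) with hZ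
  have hZc : Z ≤ Subgroup.center (CR R) := by
    intro z hz
    rw [Subgroup.mem_center_iff]
    intro c
    have hz' : (z : G) ∈ R ⊓ CR R := hz
    exact Subtype.ext (mem_CR.mp c.2 z hz'.1).symm
  have hZcard : Nat.card Z = Nat.card (R ⊓ CR R : Subgroup G) :=
    Nat.card_congr (Subgroup.subgroupOfEquivOfLe inf_le_right).toEquiv
  have hZp : IsPGroup p Z := by
    have h2 : IsPGroup p (R ⊓ CR R : Subgroup G) := hR.to_le inf_le_left
    obtain ⟨j, hj⟩ := IsPGroup.iff_card.mp h2
    exact IsPGroup.of_card (hZcard.trans hj)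
  have hZΔ : Z ≤ Δ := by
    obtain ⟨x, ⟨P, hP⟩, -, -⟩ := hΔ
    have hZC : Z ≤ Subgroup.centralizer ({x} : Set (CR R)) := by
      intro z hz
      rw [Subgroup.mem_centralizer_iff]
      simp only [Set.mem_singleton_iff, forall_eq]
      exact Subgroup.mem_center_iff.mp (hZc hz) x
    set Z' : Subgroup (Subgroup.centralizer ({x} : Set (CR R))) :=
      Z.subgroupOf (Subgroup.centralizer ({x} : Set (CR R))) with hZ'
    have hZ'p : IsPGroup p Z' := hZp.comap_of_injective
      (Subgroup.centralizer ({x} : Set (CR R))).subtype (Subgroup.subtype_injective _)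
    obtain ⟨c, hc⟩ := into_sylow P hZ'p
    intro z hz
    rw [hP]
    have h1 := hc ⟨z, hZC hz⟩ hz
    refine Subgroup.mem_map.mpr ⟨_, h1, ?_⟩
    change (c : CR R) * z * (c : CR R)⁻¹ = z
    have h2 : (c : CR R) * z = z * c := Subgroup.mem_center_iff.mp (hZc hz) c
    rw [h2]
    group
  -- the conjugate
  set R' : Subgroup G := R.map (MulAut.conj k).toMonoidHom with hR'
  have hR'm : ∀ g, g ∈ R' ↔ k⁻¹ * g * k ∈ R := by
    intro g
    rw [hR', Subgroup.mem_map]
    constructor
    · rintro ⟨r, hr, rfl⟩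
      have : k⁻¹ * ((MulAut.conj k).toMonoidHom r) * k = r := by
        change k⁻¹ * (k * r * k⁻¹) * k = r
        group
      rw [this]
      exact hr
    · intro h
      refine ⟨_, h, ?_⟩
      change k * (k⁻¹ * g * k) * k⁻¹ = g
      group
  have hR'D : R' ≤ D := by
    intro g hg
    have h1 := hkR _ ((hR'm g).mp hg)
    have h2 : k * (k⁻¹ * g * k) * k⁻¹ = g := by group
    rwa [h2] at h1
  have hcardR' : Nat.card R' = Nat.card R :=
    Subgroup.card_map_of_injective (MulAut.conj k).injective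
  have hCR' : ∀ g, g ∈ CR R' ↔ k⁻¹ * g * k ∈ CR R := by
    intro g
    rw [mem_CR, mem_CR]
    constructor
    · intro h r hr
      have h1 := h (k * r * k⁻¹) ((hR'm _).mpr (by
        have : k⁻¹ * (k * r * k⁻¹) * k = r := by group
        rwa [this]))
      calc r * (k⁻¹ * g * k) = k⁻¹ * ((k * r * k⁻¹) * g) * k := by group
        _ = k⁻¹ * (g * (k * r * k⁻¹)) * k := by rw [h1]
        _ = _ := by group
    · intro h r hr
      have h1 := h _ ((hR'm r).mp hr)
      calc r * g = k * ((k⁻¹ * r * k) * (k⁻¹ * g * k)) * k⁻¹ := by group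
        _ = k * ((k⁻¹ * g * k) * (k⁻¹ * r * k)) * k⁻¹ := by rw [h1]
        _ = _ := by group
  obtain ⟨hl1, hl2⟩ := hloc R' hR'D (by rw [hcardR']; exact hR1) (by rw [hcardR']; exact hR2)
  -- the orders
  have hk1 : ∀ z : G, k⁻¹ * (k * z * k⁻¹) * k = z := fun z => by group
  have hk2 : ∀ z : G, k * (k⁻¹ * z * k) * k⁻¹ = z := fun z => by group
  have hto : ∀ z ∈ (R ⊓ CR R : Subgroup G), k * z * k⁻¹ ∈ (R' ⊓ CR R' : Subgroup G) := by
    intro z hz
    exact ⟨(hR'm _).mpr (by rw [hk1]; exact hz.1), (hCR' _).mpr (by rw [hk1]; exact hz.2)⟩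
  have hZR' : Nat.card (R' ⊓ CR R' : Subgroup G) = Nat.card Z := by
    rw [hZcard]
    refine (Nat.card_congr
      { toFun := fun z => ⟨k * (z : G) * k⁻¹, hto z z.2⟩
        invFun := fun z => ⟨k⁻¹ * (z : G) * k, (hR'm _).mp z.2.1, (hCR' _).mp z.2.2⟩
        left_inv := fun z => Subtype.ext (hk1 z)
        right_inv := fun z => Subtype.ext (hk2 z) }).symm
  have hinC : ∀ δ ∈ Δ, k * (δ : G) * k⁻¹ ∈ CR R' := by
    intro δ _
    rw [hCR']
    have e : k⁻¹ * (k * (δ : G) * k⁻¹) * k = δ := by group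
    rw [e]
    exact δ.2
  have hΔdvd : Nat.card Δ ∣ p * Nat.card Z := by
    set f : Δ →* G := (MulAut.conj k).toMonoidHom.comp ((CR R).subtype.comp Δ.subtype) with hf
    have hfi : Function.Injective f := by
      intro a b hab
      have h1 : ((a : CR R) : G) = ((b : CR R) : G) := (MulAut.conj k).injective hab
      exact Subtype.ext (Subtype.ext h1)
    have h2 : f.range ≤ D ⊓ CR R' := by
      rintro _ ⟨δ, rfl⟩
      exact ⟨hkΔ δ δ.2, hinC δ δ.2⟩
    have h3 : Nat.card f.range = Nat.card Δ :=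
      (Nat.card_congr (MonoidHom.ofInjective hfi).toEquiv).symm
    rw [← h3, ← hZR']
    exact (Subgroup.card_dvd_of_le h2).trans hl1
  obtain ⟨M, hM⟩ : ∃ M : (CR R → ℂ) → (CR R → ℂ) → ℤ, ∀ θ' ∈ bk O θ, ∀ η ∈ bk O θ,
      (M θ' η : ℂ) = (Nat.card Δ : ℂ) * IC.B (cut p θ') η := by
    choose! M hM using fun (θ' : CR R → ℂ) (hθ' : θ' ∈ bk O θ) (η : CR R → ℂ)
      (hη : η ∈ bk O θ) => contr_int hpO hβ hΔ hθ' hη
    exact ⟨M, hM⟩
  obtain ⟨t, ht⟩ := Subgroup.card_dvd_of_le hZΔ
  have ht' : Nat.card Δ = t * Nat.card Z := by rw [ht, mul_comm]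
  have htp : t ∣ p := by
    rw [ht, mul_comm p] at hΔdvd
    exact Nat.dvd_of_mul_dvd_mul_left Nat.card_pos hΔdvd
  have hsit : ∀ r, t = r → Sit O p (bk O θ) Δ Z M r := by
    intro r hr
    exact ⟨hβ, hΔ, hZc, hZp, hM, by rw [← hr]; exact ht'⟩
  rcases (Nat.dvd_prime hp.out).mp htp with h1 | h1
  · exact (hsit 1 h1).central hpO
  · by_cases hp2 : p = 2
    · subst hp2
      exact (hsit 2 h1).two hpO
    · refine (hsit p h1).nonsplit hpO hZΔ ?_
      intro d hd hdp
      have hl3 := hl2.resolve_left hp2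
      have h2 := hl3 _ (hkΔ d hd) (hinC d hd) (by
        have e : (k * (d : G) * k⁻¹) ^ p = k * (d : G) ^ p * k⁻¹ := conj_pow
        have e2 : (d : G) ^ p = 1 := by
          have := congrArg Subtype.val hdp
          exact this
        rw [e, e2]
        group)
      have h3 := (hR'm _).mp h2
      have e : k⁻¹ * (k * (d : G) * k⁻¹) * k = d := by group
      rw [e] at h3
      exact ⟨h3, d.2⟩

/-- the block of `θ` induces `b` -/
theorem induces_of_lam {b : Set (G → ℂ)} (hb : IsBlock O b) {R : Subgroup G}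
    (hR : IsPGroup p R) {θ : CR R → ℂ} (hθ : IsIrr θ)
    (hne : lam O R θ (blockCoeff b) ≠ 0) : Induces O b (CR R) (bk O θ) := by
  have hβ : IsBlock O (bk O θ) := bk_block hθ
  intro χ hχ η hη x
  have hχi := hb.irr χ hχ
  have hηi := hβ.irr η hη
  have hne' : lam O R η (blockCoeff b) ≠ 0 := by
    have h1 : lam O R η (blockCoeff b) = lam O R θ (blockCoeff b) :=
      red_Om_block hβ hη (bk_self hθ) (res_cl' (blockCoeff_cl hb.irr))
        (fun g => blockCoeff_mem hb g)
    rw [h1]
    exact hne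
  have h1 := induced hpO hR hb hηi hne' hχ x
  have h2 : ∑ᶠ y : {y : CR R // IsConj x (y : G)}, η y / η 1 =
      ∑ L ∈ Finset.univ.filter (fun L : ConjClasses (CR R) => IsConj x ((rep L : CR R) : G)),
        omega η (rep L) := by
    rw [finsum_eq_sum_of_fintype]
    have h3 : ∑ y : {y : CR R // IsConj x (y : G)}, η y / η 1 =
        ∑ y ∈ Finset.univ.filter (fun y : CR R => IsConj x (y : G)), η y / η 1 := by
      rw [← Finset.sum_subtype (p := fun y : CR R => IsConj x (y : G))
        (Finset.univ.filter (fun y : CR R => IsConj x (y : G))) (by simp) (fun y => η y / η 1)]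
    rw [h3]
    exact sum_pred (fun y : CR R => IsConj x (y : G))
      (fun y z hyz => ⟨fun h => h.trans (conj_coe' hyz), fun h => h.trans (conj_coe' hyz).symm⟩) hηi
  rw [h2]
  have hm : ∑ L ∈ Finset.univ.filter (fun L : ConjClasses (CR R) =>
      IsConj x ((rep L : CR R) : G)), omega η (rep L) ∈ O :=
    sum_mem fun L _ => hηi.omega_mem O _
  rw [← red_eq_iff (hχi.omega_mem O x) hm, h1, red_sum _ _ (fun L _ => hηi.omega_mem O _),
    Finset.sum_filter]

/-- **The minors, from the blocks of the centralizers.** -/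
theorem minors_blocks {b : Set (G → ℂ)} (hb : IsBlock O b) {D : Subgroup G}
    (hD : IsDefectGroup p O b D) {s : ℕ} (hs : 1 ≤ s)
    (hcl : ∀ R : Subgroup G, IsPGroup p R → Nat.card R < Nat.card D →
      Nat.card D < p ^ s * Nat.card R → ∀ β : Set (CR R → ℂ), IsBlock O β →
        Induces O b (CR R) β → lB p β = 1) : MinorsDvd p b D (p ^ s) :=
  minors_local hpO hb hD hs fun R hR h1 h2 _ hθ hne =>
    hcl R hR h1 h2 _ (bk_block hθ) (induces_of_lam hpO hb hR hθ hne)

/-- **The minors, from the structure of the defect group.** -/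
theorem minors_structure {b : Set (G → ℂ)} (hb : IsBlock O b) {D : Subgroup G}
    (hD : IsDefectGroup p O b D) {s : ℕ} (hs : 1 ≤ s) (hloc : LocCond p D (p ^ s)) :
    MinorsDvd p b D (p ^ s) :=
  minors_local hpO hb hD hs fun _ hR h1 h2 _ hθ hne => one_of_loc hpO hb hD hloc hR h1 h2 hθ hne

end pp

end Pool.Agent.Zk65.SE
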