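import Mathlib
import Pool.Agent.Zk65.SE21

/-!
The structural condition, for abstract groups.
-/

set_option autoImplicit false
set_option linter.style.haveILetI false
set_option linter.unusedSectionVars false

open scoped BigOperators Classical
open Pool.Agent.Helper884 Pool.Agent.H254R3.IN Pool.Agent.N20 Pool.Agent.Zk65.TB

noncomputable section

namespace Pool.Agent.Zk65.SE

/-- every proper subgroup `R` of `P` of index less than `q` satisfies `|C_P(R) : Z(R)| ≤ p` and, for
odd `p`, contains all elements of order `p` of its centralizer -/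
def Cond (p q : ℕ) (P : Type) [Group P] : Prop :=
  ∀ R : Subgroup P, Nat.card R < Nat.card P → Nat.card P < q * Nat.card R →
    Nat.card (Subgroup.centralizer (R : Set P)) ∣
        p * Nat.card (R ⊓ Subgroup.centralizer (R : Set P) : Subgroup P) ∧
      (p = 2 ∨ ∀ c ∈ Subgroup.centralizer (R : Set P), c ^ p = 1 → c ∈ R)

lemma cond_mono {p q q' : ℕ} (h : q' ≤ q) {P : Type} [Group P] (hP : Cond p q P) :
    Cond p q' P := fun R h1 h2 => hP R h1 (h2.trans_le (Nat.mul_le_mul_right _ h))

lemma cond_equiv {p q : ℕ} {P P' : Type} [Group P] [Group P'] (e : P ≃* P')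
    (hP : Cond p q P) : Cond p q P' := by
  intro R' h1 h2
  set R : Subgroup P := R'.comap e.toMonoidHom with hR
  have hm : ∀ x, x ∈ R ↔ e x ∈ R' := fun x => Iff.rfl
  have hcomap : ∀ K : Subgroup P', Nat.card (K.comap e.toMonoidHom) = Nat.card K := by
    intro K
    refine Nat.card_congr
      { toFun := fun x => ⟨e (x : P), x.2⟩
        invFun := fun y => ⟨e.symm (y : P'), ?_⟩
        left_inv := fun x => Subtype.ext (e.symm_apply_apply _)
        right_inv := fun y => Subtype.ext (e.apply_symm_apply _) }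
    change e (e.symm (y : P')) ∈ K
    rw [e.apply_symm_apply]
    exact y.2
  have hcent : Subgroup.centralizer (R : Set P) =
      (Subgroup.centralizer (R' : Set P')).comap e.toMonoidHom := by
    ext x
    rw [Subgroup.mem_centralizer_iff, Subgroup.mem_comap, Subgroup.mem_centralizer_iff]
    constructor
    · intro h r' hr'
      have h3 := h (e.symm r') (by
        change e (e.symm r') ∈ R'
        rw [e.apply_symm_apply]
        exact hr')
      have h4 := congrArg e h3
      rw [map_mul, map_mul, e.apply_symm_apply] at h4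
      exact h4
    · intro h r hr
      apply e.injective
      rw [map_mul, map_mul]
      exact h (e r) hr
  have hcard : Nat.card P = Nat.card P' := Nat.card_congr e.toEquiv
  have hcR : Nat.card R = Nat.card R' := hcomap R'
  obtain ⟨h3, h4⟩ := hP R (by rw [hcR, hcard]; exact h1) (by rw [hcR, hcard]; exact h2)
  have hinf : (R ⊓ Subgroup.centralizer (R : Set P) : Subgroup P) =
      (R' ⊓ Subgroup.centralizer (R' : Set P') : Subgroup P').comap e.toMonoidHom := by
    rw [hcent, hR, Subgroup.comap_inf]
  rw [hinf, hcomap, hcent, hcomap] at h3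
  refine ⟨h3, h4.imp id ?_⟩
  intro h c hc hcp
  have h5 := h (e.symm c) (by
    rw [hcent]
    change e (e.symm c) ∈ Subgroup.centralizer (R' : Set P')
    rw [e.apply_symm_apply]
    exact hc) (by
    rw [← map_pow, hcp, map_one])
  have h6 : e (e.symm c) ∈ R' := h5
  rwa [e.apply_symm_apply] at h6

lemma locCond_of_cond {G : Type} [Group G] [Fintype G] {p q : ℕ} {D : Subgroup G}
    (h : Cond p q D) : LocCond p D q := by
  intro R hRD h1 h2
  set R₁ : Subgroup D := R.subgroupOf D with hR₁
  have hm : ∀ x : D, x ∈ R₁ ↔ (x : G) ∈ R := fun x => Iff.rfl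
  have hcent : ∀ x : D, x ∈ Subgroup.centralizer (R₁ : Set D) ↔ (x : G) ∈ CR R := by
    intro x
    rw [Subgroup.mem_centralizer_iff, mem_CR]
    constructor
    · intro h3 r hr
      exact congrArg Subtype.val (h3 ⟨r, hRD hr⟩ hr)
    · intro h3 r hr
      exact Subtype.ext (h3 r hr)
  have hcR : Nat.card R₁ = Nat.card R :=
    Nat.card_congr (Subgroup.subgroupOfEquivOfLe hRD).toEquiv
  have hc1 : Nat.card (Subgroup.centralizer (R₁ : Set D)) =
      Nat.card (D ⊓ CR R : Subgroup G) :=
    Nat.card_congr
      { toFun := fun x => ⟨((x : D) : G), x.1.2, (hcent x.1).mp x.2⟩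
        invFun := fun y => ⟨⟨(y : G), y.2.1⟩, (hcent ⟨(y : G), y.2.1⟩).mpr y.2.2⟩
        left_inv := fun _ => rfl
        right_inv := fun _ => rfl }
  have hc2 : Nat.card (R₁ ⊓ Subgroup.centralizer (R₁ : Set D) : Subgroup D) =
      Nat.card (R ⊓ CR R : Subgroup G) :=
    Nat.card_congr
      { toFun := fun x => ⟨((x : D) : G), x.2.1, (hcent x.1).mp x.2.2⟩
        invFun := fun y => ⟨⟨(y : G), hRD y.2.1⟩, y.2.1, (hcent ⟨(y : G), hRD y.2.1⟩).mpr y.2.2⟩
        left_inv := fun _ => rfl
        right_inv := fun _ => rfl }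
  obtain ⟨h3, h4⟩ := h R₁ (by rw [hcR]; exact h1) (by rw [hcR]; exact h2)
  rw [hc1, hc2] at h3
  refine ⟨h3, h4.imp id ?_⟩
  intro h5 c hcD hcR' hcp
  exact h5 ⟨c, hcD⟩ ((hcent _).mpr hcR') (Subtype.ext hcp)

/-- **Groups without direct factors of order `p`.** -/
theorem cond_sq {p : ℕ} [hp : Fact p.Prime] {P : Type} [Group P] [Finite P] (hPp : IsPGroup p P)
    (h : p = 2 ∨ ∀ (R : Type) [Group R], IsEmpty (P ≃* R × Multiplicative (ZMod p))) :
    Cond p (p ^ 2) P := by
  haveI := Fintype.ofFinite P
  intro R h1 h2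
  obtain ⟨d, hd⟩ := IsPGroup.iff_card.mp hPp
  obtain ⟨r, hr⟩ := IsPGroup.iff_card.mp (hPp.to_subgroup R)
  have hrd : d = r + 1 := by
    rw [hd, hr] at h1 h2
    have h3 := (Nat.pow_lt_pow_iff_right hp.out.one_lt).mp h1
    rw [← pow_add] at h2
    have h4 := (Nat.pow_lt_pow_iff_right hp.out.one_lt).mp h2
    omega
  have hcard : Nat.card P = p * Nat.card R := by
    rw [hd, hr, hrd, pow_succ, mul_comm]
  refine ⟨?_, ?_⟩
  · have h3 := card_prod_dvd (R := R) (K := ⊤) le_top
    rw [top_inf_eq, Subgroup.card_top, hcard] at h3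
    have h4 : p * Nat.card R * Nat.card (R ⊓ CR R : Subgroup P) =
        (p * Nat.card (R ⊓ CR R : Subgroup P)) * Nat.card R := by ring
    rw [h4] at h3
    exact Nat.dvd_of_mul_dvd_mul_right Nat.card_pos h3
  · refine h.imp id ?_
    intro hno c hc hcp
    by_contra hcR
    have hc1 : c ≠ 1 := by
      rintro rfl
      exact hcR R.one_mem
    have hord : orderOf c = p := orderOf_eq_prime hcp hc1
    have hcyc : Nat.card (Subgroup.zpowers c) = p := by rw [Nat.card_zpowers, hord]
    have hcomm : ∀ (a : R) (z : Subgroup.zpowers c),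
        Commute (R.subtype a) ((Subgroup.zpowers c).subtype z) := by
      rintro a ⟨z, hz⟩
      obtain ⟨m, rfl⟩ := Subgroup.mem_zpowers_iff.mp hz
      have h3 : Commute (a : P) c := Subgroup.mem_centralizer_iff.mp hc a a.2
      exact h3.zpow_right m
    set φ : R × Subgroup.zpowers c →* P :=
      MonoidHom.noncommCoprod R.subtype (Subgroup.zpowers c).subtype hcomm with hφ
    have hφv : ∀ a z, φ (a, z) = (a : P) * (z : P) := fun a z => rfl
    have hdisj : ∀ z ∈ Subgroup.zpowers c, z ∈ R → z = 1 := by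
      intro z hz hzR
      by_contra hz1
      apply hcR
      have h3 : Subgroup.zpowers (⟨z, hz⟩ : Subgroup.zpowers c) = ⊤ := by
        haveI : Fact (Nat.card (Subgroup.zpowers c)).Prime := ⟨by rw [hcyc]; exact hp.out⟩
        apply zpowers_eq_top_of_prime_card rfl
        intro h4
        exact hz1 (congrArg Subtype.val h4)
      have h4 : (⟨c, Subgroup.mem_zpowers c⟩ : Subgroup.zpowers c) ∈
          Subgroup.zpowers (⟨z, hz⟩ : Subgroup.zpowers c) := by
        rw [h3]
        exact Subgroup.mem_top _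
      obtain ⟨m, hm⟩ := Subgroup.mem_zpowers_iff.mp h4
      have h5 : z ^ m = c := congrArg Subtype.val hm
      rw [← h5]
      exact R.zpow_mem hzR m
    have hinj : Function.Injective φ := by
      rw [injective_iff_map_eq_one]
      rintro ⟨a, z⟩ haz
      rw [hφv] at haz
      have h3 : (z : P) = (a : P)⁻¹ := eq_inv_of_mul_eq_one_right haz
      have h4 : (z : P) = 1 := hdisj z z.2 (by rw [h3]; exact R.inv_mem a.2)
      have h5 : (a : P) = 1 := by rwa [h4, mul_one] at haz
      exact Prod.ext (Subtype.ext h5) (Subtype.ext h4)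
    have hbij : Function.Bijective φ := by
      rw [Nat.bijective_iff_injective_and_card]
      refine ⟨hinj, ?_⟩
      rw [Nat.card_prod, hcyc, hcard, mul_comm]
    have e1 : P ≃* R × Subgroup.zpowers c := (MulEquiv.ofBijective φ hbij).symm
    have e2 : Multiplicative (ZMod (Nat.card (Subgroup.zpowers c))) ≃* Subgroup.zpowers c :=
      zmodCyclicMulEquiv inferInstance
    rw [hcyc] at e2
    exact (hno R).false (e1.trans (MulEquiv.prodCongr (MulEquiv.refl R) e2.symm))

end Pool.Agent.Zk65.SE
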