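import Mathlib
import Pool.Agent.Zk65.SE22

/-!
Major subsections: existence, and their defect groups.
-/

set_option autoImplicit false
set_option linter.style.haveILetI false
set_option linter.unusedSectionVars false

open scoped BigOperators Classical
open Pool.Agent.Helper884 Pool.Agent.H254R3.IN Pool.Agent.N20 Pool.Agent.Zk65.TB

noncomputable section

namespace Pool.Agent.Zk65.SE

variable {G : Type} [Group G] [Fintype G] {O : ValuationSubring ℂ}

lemma block_eq {b : Set (G → ℂ)} (hb : IsBlock O b) {θ : G → ℂ} (hθ : θ ∈ b) : b = bk O θ := by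
  have hθi := hb.irr θ hθ
  obtain ⟨χ₀, hχ₀, rfl⟩ := hb
  exact (bk_eq hθi hχ₀ hθ).symm

/-- the central character of an inducing block does not vanish on the idempotent -/
lemma lam_of_induces {B : Set (G → ℂ)} (hB : IsBlock O B) {R : Subgroup G}
    {β : Set (CR R → ℂ)} (hβ : IsBlock O β) (h : Induces O B (CR R) β) {θ : CR R → ℂ}
    (hθ : θ ∈ β) : lam O R θ (blockCoeff B) ≠ 0 := by
  have hθi := hβ.irr θ hθ
  obtain ⟨χ, hχ⟩ := hB.nonempty
  have hχi := hB.irr χ hχ
  have h1 : lam O R θ (blockCoeff B) = ∑ L : ConjClasses (CR R),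
      red O (blockCoeff B ((rep L : CR R) : G)) * red O (omega θ (rep L)) :=
    Pool.Agent.N20.red_Om hθi (res_cl' (blockCoeff_cl hB.irr)) (fun g => blockCoeff_mem hB g)
  have h2 : ∀ L : ConjClasses (CR R),
      red O (blockCoeff B ((rep L : CR R) : G)) * red O (omega θ (rep L)) =
      red O (omega θ (rep L)) * (fun x : G => red O (blockCoeff B x)) ((rep L : CR R) : G) :=
    fun L => mul_comm _ _
  rw [h1, Finset.sum_congr rfl (fun L _ => h2 L),
    sum_regroup (fun L : ConjClasses (CR R) => red O (omega θ (rep L)))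
      (fun x : G => red O (blockCoeff B x)) (fun x y hxy => by
        rw [(blockCoeff_cl hB.irr).isConj hxy])]
  have h3 : ∑ C : ConjClasses G, (fun x : G => red O (blockCoeff B x)) (rep C) *
      (∑ L : ConjClasses (CR R), if IsConj (rep C) ((rep L : CR R) : G) then
        red O (omega θ (rep L)) else 0) = red O (Om (blockCoeff B) χ) := by
    rw [Pool.Agent.N20.red_Om hχi (blockCoeff_cl hB.irr) (blockCoeff_mem hB)]
    refine Finset.sum_congr rfl fun C _ => ?_
    rw [induced_sum' hχi hθi (h χ hχ θ hθ (rep C))]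
  rw [h3, Om_blockCoeff hB.irr hχi, if_pos hχ, red_one]
  exact one_ne_zero

section pp

variable {p : ℕ} [hp : Fact p.Prime] (hpO : (p : ℂ) ∈ O.nonunits)

include hpO

/-- values of characters of height zero on the defect class -/
lemma red_val_ne {B : Set (G → ℂ)} (hB : IsBlock O B) {x : G}
    {P : Sylow p (Subgroup.centralizer ({x} : Set G))} {D : Subgroup G}
    (hP : D = (P : Subgroup (Subgroup.centralizer ({x} : Set G))).map
        (Subgroup.centralizer ({x} : Set G)).subtype) (hD : IsDefectGroup p O B D)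
    (hωx : ∀ χ ∈ B, omega χ x ∉ O.nonunits) {χ : G → ℂ} (hχB : χ ∈ B)
    (hu : red O (uu D χ) ≠ 0) : red O (χ x) ≠ 0 := by
  have hχi := hB.irr χ hχB
  have hcard : Nat.card D = Nat.card P := by
    rw [hP]
    exact (Nat.card_congr ((P : Subgroup (Subgroup.centralizer ({x} : Set
      G))).equivMapOfInjective _ (Subgroup.centralizer ({x} : Set G)).subtype_injective).toEquiv).symm
  have h6 : Nat.card P * (P : Subgroup (Subgroup.centralizer ({x} : Set G))).index =
      Nat.card (Subgroup.centralizer ({x} : Set G)) := Subgroup.card_mul_index _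
  have h7 : ¬ p ∣ (P : Subgroup (Subgroup.centralizer ({x} : Set G))).index := P.not_dvd_index
  have hnn : nn D x = ((P : Subgroup (Subgroup.centralizer ({x} : Set G))).index : ℂ) := by
    unfold nn
    have hD0 : (Nat.card P : ℂ) ≠ 0 := by exact_mod_cast Nat.card_pos.ne'
    rw [hcard, ← h6]
    push_cast
    rw [mul_div_cancel_left₀ _ hD0]
  have h8 := val_nn D hχi x
  rw [hnn] at h8
  rw [h8, red_mul (O.mul_mem _ _ (Pool.Agent.N20.uu_mem hpO hB hD hχB)
    (hχi.omega_mem O x)) (natCast_mem' _),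
    red_mul (Pool.Agent.N20.uu_mem hpO hB hD hχB) (hχi.omega_mem O x)]
  haveI := charP_RF hpO
  refine mul_ne_zero (mul_ne_zero hu ?_) ?_
  · intro h
    exact hωx χ hχB ((red_eq_zero_iff (hχi.omega_mem O x)).mp h)
  · rw [red_natCast]
    intro h
    exact h7 ((CharP.cast_eq_zero_iff (RF O) p _).mp h)

/-- **Existence of major subsections.** -/
theorem exists_major {B : Set (G → ℂ)} (hB : IsBlock O B) {D : Subgroup G}
    (hD : IsDefectGroup p O B D) {u : G} (huD : u ∈ D) (huc : ∀ d ∈ D, u * d = d * u) :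
    ∃ b : Set (CC u → ℂ), IsBlock O b ∧ Induces O B (CC u) b ∧
      ∃ Q : Subgroup (CC u), IsDefectGroup p O b Q ∧ Nat.card Q = Nat.card D := by
  have hDp := Pool.Agent.N20.defect_pgroup hD
  set R : Subgroup G := Subgroup.zpowers u with hR
  have hRD : R ≤ D := by
    rw [hR, Subgroup.zpowers_le]
    exact huD
  have hRp : IsPGroup p R := hDp.to_le hRD
  have hCR : CR R = CC u := by
    ext g
    rw [mem_CR, mem_CC]
    constructor
    · intro h
      exact h u (Subgroup.mem_zpowers u)
    · intro h r hr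
      obtain ⟨m, rfl⟩ := Subgroup.mem_zpowers_iff.mp hr
      have : Commute u g := h
      exact this.zpow_left m
  have key : ∃ b : Set (CR R → ℂ), IsBlock O b ∧ Induces O B (CR R) b ∧
      ∃ Q : Subgroup (CR R), IsDefectGroup p O b Q ∧ Nat.card Q = Nat.card D := by
    obtain ⟨χ, hχ, hu⟩ := exists_uu_ne hpO hB hD
    have hD' := hD
    obtain ⟨x, ⟨P, hP⟩, hωx, -⟩ := hD
    have hDx : ∀ d ∈ D, d * x = x * d := by
      intro d hd
      rw [hP] at hd
      obtain ⟨c, -, rfl⟩ := Subgroup.mem_map.mp hd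
      exact (Subgroup.mem_centralizer_iff.mp c.2 x (Set.mem_singleton x)).symm
    have hxR : x ∈ CR R := mem_CR.mpr fun r hr => hDx r (hRD hr)
    have h1 := red_val_ne hpO hB hP hD' hωx hχ hu
    have h2 := res_expand hpO hRp hB hχ ⟨x, hxR⟩
    change red O (χ x) = _ at h2
    rw [h2] at h1
    obtain ⟨θ, hθ, hθne⟩ := Finset.exists_ne_zero_of_sum_ne_zero h1
    have hθi := mem_Irr.mp hθ
    have hne := left_ne_zero_of_mul (right_ne_zero_of_mul hθne)
    have hval := right_ne_zero_of_mul (right_ne_zero_of_mul hθne)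
    have hβ : IsBlock O (bk O θ) := bk_block hθi
    obtain ⟨Δ, hΔ⟩ := exists_defect (p := p) hβ
    refine ⟨bk O θ, hβ, induces_of_lam hpO hB hRp hθi hne, Δ, hΔ, ?_⟩
    have hRCR : (R ⊓ CR R : Subgroup G) = R := by
      apply inf_eq_left.mpr
      intro r hr
      rw [mem_CR]
      intro r' hr'
      obtain ⟨m, rfl⟩ := Subgroup.mem_zpowers_iff.mp hr
      obtain ⟨m', rfl⟩ := Subgroup.mem_zpowers_iff.mp hr'
      exact (Commute.refl u).zpow_zpow m' m
    have hle : Nat.card Δ ≤ Nat.card D := by
      have h3 := defect_le hpO hRp hB hD' hβ hΔ (bk_self hθi) hne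
      rw [hRCR] at h3
      exact Nat.le_of_mul_le_mul_right h3 Nat.card_pos
    apply le_antisymm hle
    by_contra hlt
    push Not at hlt
    -- the values vanish
    have hDdvd : Nat.card D ∣ Nat.card (Subgroup.centralizer ({(⟨x, hxR⟩ : CR R)} : Set (CR R))) := by
      have hDR : D ≤ CR R := by
        intro d hd
        rw [mem_CR]
        intro r hr
        obtain ⟨m, rfl⟩ := Subgroup.mem_zpowers_iff.mp hr
        have : Commute u d := huc d hd
        exact this.zpow_left m
      have h3 : Nat.card (D.subgroupOf (CR R)) = Nat.card D :=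
        Nat.card_congr (Subgroup.subgroupOfEquivOfLe hDR).toEquiv
      rw [← h3]
      apply Subgroup.card_dvd_of_le
      intro d hd
      rw [Subgroup.mem_centralizer_iff]
      simp only [Set.mem_singleton_iff, forall_eq]
      exact Subtype.ext (hDx (d : G) hd).symm
    obtain ⟨i, hi⟩ := IsPGroup.iff_card.mp (Pool.Agent.N20.defect_pgroup hΔ)
    obtain ⟨j, hj⟩ := IsPGroup.iff_card.mp hDp
    rw [hi, hj] at hlt
    have hij := (Nat.pow_lt_pow_iff_right hp.out.one_lt).mp hlt
    obtain ⟨c, hc⟩ := hDdvd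
    obtain ⟨e, rfl⟩ := Nat.exists_eq_add_of_lt hij
    have hnn : nn Δ (⟨x, hxR⟩ : CR R) = (p : ℂ) * ((p ^ e * c : ℕ) : ℂ) := by
      unfold nn
      have hp0 : (p : ℂ) ≠ 0 := by exact_mod_cast hp.out.ne_zero
      rw [hc, hi, hj]
      push_cast
      rw [div_eq_iff (pow_ne_zero _ hp0)]
      ring
    apply hval
    rw [val_nn Δ hθi, hnn, red_mul (O.mul_mem _ _ (Pool.Agent.N20.uu_mem hpO hβ hΔ
      (bk_self hθi)) (hθi.omega_mem O _)) (O.mul_mem _ _ (natCast_mem' _) (natCast_mem' _)),
      red_mul (natCast_mem' _) (natCast_mem' _), red_eq_zero hpO, zero_mul, mul_zero]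
  rw [hCR] at key
  exact key

/-- **Defect groups of major subsections.** -/
theorem defect_iso {B : Set (G → ℂ)} (hB : IsBlock O B) {D : Subgroup G}
    (hD : IsDefectGroup p O B D) {R : Subgroup G} (hR : IsPGroup p R) {H : Subgroup G}
    (hH : H = CR R) {b : Set (H → ℂ)} (hb : IsBlock O b) {Q : Subgroup H}
    (hQ : IsDefectGroup p O b Q) (hbB : Induces O B H b) (hcard : Nat.card Q = Nat.card D) :
    Nonempty (Q ≃* D) := by
  subst hH
  obtain ⟨θ, hθ⟩ := hb.nonempty
  have hθi := hb.irr θ hθ
  have hne := lam_of_induces hB hb hbB hθ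
  rw [block_eq hb hθ] at hQ
  obtain ⟨k, -, hk⟩ := into_defect hpO hB hD hR hθi hne hQ
  let f : Q →* D :=
    { toFun := fun δ => ⟨k * ((δ : CR R) : G) * k⁻¹, hk δ δ.2⟩
      map_one' := Subtype.ext (by simp)
      map_mul' := fun a b => Subtype.ext (by
        change k * (((a : CR R) : G) * ((b : CR R) : G)) * k⁻¹ =
          (k * ((a : CR R) : G) * k⁻¹) * (k * ((b : CR R) : G) * k⁻¹)
        group) }
  have hf : Function.Injective f := by
    intro a b hab
    have h1 : k * ((a : CR R) : G) * k⁻¹ = k * ((b : CR R) : G) * k⁻¹ :=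
      congrArg Subtype.val hab
    have h2 : ((a : CR R) : G) = ((b : CR R) : G) := mul_left_cancel (mul_right_cancel h1)
    exact Subtype.ext (Subtype.ext h2)
  have hbij : Function.Bijective f := by
    rw [Nat.bijective_iff_injective_and_card]
    exact ⟨hf, hcard⟩
  exact ⟨MulEquiv.ofBijective f hbij⟩

end pp

end Pool.Agent.Zk65.SE
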