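import Mathlib
import Pool.Agent.Zk65.SE23

/-!
Central cyclic subgroups of small index in the defect group.
-/

set_option autoImplicit false
set_option linter.style.haveILetI false
set_option linter.unusedSectionVars false

open scoped BigOperators Classical
open Pool.Agent.Helper884 Pool.Agent.H254R3.IN Pool.Agent.N20 Pool.Agent.Zk65.TB

noncomputable section

namespace Pool.Agent.Zk65.SE

variable {G : Type} [Group G] [Fintype G] {O : ValuationSubring ℂ}

/-- the characters of a block which has a small height zero contribution -/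
theorem self_count {p : ℕ} (hp : p.Prime) (hpO : (p : ℂ) ∈ O.nonunits) {b : Set (G → ℂ)}
    (hb : IsBlock O b) {D : Subgroup G} (hD : IsDefectGroup p O b D) {s : ℕ} (hs : 1 ≤ s)
    (hq : MinorsDvd p b D (p ^ s))
    (hsmall : ∃ θ ∈ b, red O (uu D θ) ≠ 0 ∧ ∃ m : ℤ,
      (m : ℂ) = Nat.card D * IC.B (cut p θ) θ ∧ m < (p : ℤ) ^ s) :
    ((p : ℤ) ^ s + 1) * Nat.card b ≤ Nat.card D * max ((p : ℤ) ^ s + 1) (lB p b) := by
  haveI : Fact (Nat.Prime p) := ⟨hp⟩
  haveI := charP_RF hpO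
  obtain ⟨d, hd⟩ := IsPGroup.iff_card.mp (Pool.Agent.N20.defect_pgroup hD)
  have hmem : ∀ θ : {θ // θ ∈ XB b}, (θ : G → ℂ) ∈ b := fun θ => (mem_XB hb.irr).mp θ.2
  have hirr : ∀ θ : {θ // θ ∈ XB b}, IsIrr (θ : G → ℂ) := fun θ => hb.irr _ (hmem θ)
  choose M hM using fun θ η : {θ // θ ∈ XB b} => contr_int hpO hb hD (hmem θ) (hmem η)
  have hsym : ∀ θ η : {θ // θ ∈ XB b}, M θ η = M η θ := by
    intro θ η
    have : (M θ η : ℂ) = M η θ := by
      rw [hM, hM, B_cut_comm]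
    exact_mod_cast this
  have hsq : ∀ θ η, ∑ φ, M θ φ * M φ η = (Nat.card D : ℤ) * M θ η := by
    intro θ η
    have : ((∑ φ, M θ φ * M φ η : ℤ) : ℂ) = (((Nat.card D : ℤ) * M θ η : ℤ) : ℂ) := by
      have h1 := B_cut_idem hpO hb (χ := θ) (ψ := η) (hmem θ)
      rw [← Finset.sum_coe_sort (XB b)
        (fun φ : G → ℂ => IC.B (cut p (θ : G → ℂ)) φ * IC.B (cut p φ) η)] at h1
      push_cast
      simp only [hM]
      rw [← h1, Finset.mul_sum, Finset.mul_sum]
      refine Finset.sum_congr rfl fun φ _ => ?_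
      ring
    exact_mod_cast this
  have htr : ∑ θ, M θ θ = (Nat.card D : ℤ) * (lB p b : ℤ) := by
    have : ((∑ θ, M θ θ : ℤ) : ℂ) = (((Nat.card D : ℤ) * (lB p b : ℤ) : ℤ) : ℂ) := by
      push_cast
      simp only [hM]
      rw [← trace_eq hpO hb, ← Finset.mul_sum,
        ← Finset.sum_coe_sort (XB b) (fun φ : G → ℂ => IC.B (cut p φ) φ)]
    exact_mod_cast this
  obtain ⟨θ₀, hθ₀, hθ₀ne⟩ := exists_uu_ne hpO hb hD
  have hredM : ∀ θ η, ((M θ η : ℤ) : RF O) = red O (uu D (θ : G → ℂ)) * sr p O θ₀ η := by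
    intro θ η
    rw [← red_intCast, hM, card_mul_B D (hirr θ) (fun g y => (hirr η).conj g y),
      red_mul (Pool.Agent.N20.uu_mem hpO hb hD (hmem θ)) (SS_mem (hirr θ) (hirr η)),
      red_SS (hirr θ) (hirr η), sr_block hb (hmem θ) hθ₀]
  have hminor : ∀ i j k t : {θ // θ ∈ XB b},
      ((p ^ s : ℕ) : ℤ) ∣ M i j * M k t - M i t * M k j := by
    intro i j k t
    obtain ⟨c, hc⟩ := hq i (hmem i) k (hmem k) j (hmem j) t (hmem t)
    refine ⟨c, ?_⟩
    have : ((M i j * M k t - M i t * M k j : ℤ) : ℂ) = (((p ^ s : ℕ) * c : ℤ) : ℂ) := by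
      push_cast
      rw [hM, hM, hM, hM]
      push_cast at hc
      rw [← hc]
      ring
    exact_mod_cast this
  have hunit : ∀ z : {θ // θ ∈ XB b} → ℤ, ¬ (p : ℤ) ∣ fm M z z →
      (∑ θ, (z θ : RF O) * red O (uu D (θ : G → ℂ))) ≠ 0 := by
    intro z hz h0
    apply hz
    have h1 := fm_cast (M := M) (fun θ => red O (uu D (θ : G → ℂ))) (fun η => sr p O θ₀ η)
      hredM z z
    rw [h0, zero_mul] at h1
    exact (CharP.intCast_eq_zero_iff (RF O) p _).mp h1
  have hcardpos : (0 : ℤ) < Nat.card D := by exact_mod_cast Nat.card_pos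
  have hdZ : ((p ^ d : ℕ) : ℤ) = (Nat.card D : ℤ) := by rw [hd]
  have hz : ∃ z : {θ // θ ∈ XB b} → ℤ, ¬ (p : ℤ) ∣ fm M z z ∧ fm M z z < (p : ℤ) ^ s := by
    obtain ⟨θ₁, hθ₁, hne₁, m, hm, hlt⟩ := hsmall
    set t₁ : {θ // θ ∈ XB b} := ⟨θ₁, (mem_XB hb.irr).mpr hθ₁⟩ with ht₁
    have e1 : fm M (fun θ => if θ = t₁ then 1 else 0) (fun θ => if θ = t₁ then 1 else 0) =
        M t₁ t₁ := by
      unfold fm
      simp
    have e2 : M t₁ t₁ = m := by
      have e3 : (M t₁ t₁ : ℂ) = (m : ℂ) := by rw [hM, hm]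
      exact_mod_cast e3
    refine ⟨fun θ => if θ = t₁ then 1 else 0, ?_, ?_⟩
    · rw [e1]
      intro h0
      have h1 : ((M t₁ t₁ : ℤ) : RF O) = 0 := (CharP.intCast_eq_zero_iff (RF O) p _).mpr h0
      rw [hredM, sr_eq hpO hb hD hθ₀ hθ₁] at h1
      have h5 := cc_ne hpO hb hD hθ₀
      exact (mul_ne_zero hne₁ (mul_ne_zero hne₁ h5)) h1
    · rw [e1, e2]
      exact hlt
  set f : {θ // θ ∈ XB b} → {θ // θ ∈ XB b} → ℤ := fun r k => if k = r then 1 else 0 with hf
  have hfr : FrD M f ((p ^ d : ℕ) : ℤ) (Nat.card D : ℤ) (lB p b : ℤ) := by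
    rw [hdZ]
    refine ⟨hsym, hsq, htr, ?_, hcardpos, hcardpos.le, by positivity⟩
    intro i j
    have h1 : ∀ r i, ∑ k, M i k * f r k = M i r := by
      intro r i
      simp [hf]
    simp only [h1]
    rw [← hsq i j]
    refine Finset.sum_congr rfl fun r _ => ?_
    rw [hsym j r]
  have hfm : ∀ r z, fm M (f r) z = ∑ j, z j * M r j := by
    intro r z
    rw [fm_eq]
    rw [Finset.sum_eq_single r]
    · simp only [hf, if_true, one_mul]
      refine Finset.sum_congr rfl fun j _ => ?_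
      ring
    · intro k _ hk
      simp [hf, hk]
    · intro h
      exact absurd (Finset.mem_univ _) h
  have hnv : ∀ z : {θ // θ ∈ XB b} → ℤ, ¬ (p : ℤ) ∣ fm M z z → ∀ r, fm M (f r) z ≠ 0 := by
    intro z hz' r h0
    rw [hfm] at h0
    have hu := hunit z hz'
    have h1 : uu D (r : G → ℂ) * ∑ j : {θ // θ ∈ XB b}, (z j : ℂ) * SS p (r : G → ℂ) j = 0 := by
      have h2 : ((∑ j, z j * M r j : ℤ) : ℂ) = 0 := by rw [h0]; simp
      push_cast at h2
      rw [Finset.mul_sum, ← h2]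
      refine Finset.sum_congr rfl fun j _ => ?_
      rw [hM, card_mul_B D (hirr r) (fun g y => (hirr j).conj g y)]
      ring
    have h2 := (mul_eq_zero.mp h1).resolve_left (uu_ne (hirr r))
    have h3 := congrArg (red O) h2
    rw [red_zero, red_sum _ _ (fun j _ => O.mul_mem _ _ (intCast_mem' _)
      (SS_mem (hirr r) (hirr j)))] at h3
    have h4 : (∑ θ, (z θ : RF O) * red O (uu D (θ : G → ℂ))) * ccG O p D (r : G → ℂ) = 0 := by
      rw [← h3, Finset.sum_mul]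
      refine Finset.sum_congr rfl fun j _ => ?_
      rw [red_mul (intCast_mem' _) (SS_mem (hirr r) (hirr j)), red_intCast,
        red_SS (hirr r) (hirr j), sr_eq hpO hb hD (hmem r) (hmem j)]
      ring
    exact (mul_ne_zero hu (cc_ne hpO hb hD (hmem r))) h4
  have hN : ∀ z : {θ // θ ∈ XB b} → ℤ, ¬ (p : ℤ) ∣ fm M z z →
      (Nat.card b : ℤ) ≤ cnt M f z := by
    intro z hz'
    have h1 : Finset.univ.filter (fun r => fm M (f r) z ≠ 0) = Finset.univ :=
      Finset.filter_true_of_mem fun r _ => hnv z hz' r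
    have h2 : Nat.card b = Fintype.card {θ // θ ∈ XB b} := by
      rw [← Nat.card_eq_fintype_card]
      refine Nat.card_congr ?_
      exact
        { toFun := fun χ => ⟨χ, (mem_XB hb.irr).mpr χ.2⟩
          invFun := fun χ => ⟨χ.1, (mem_XB hb.irr).mp χ.2⟩
          left_inv := fun _ => rfl
          right_inv := fun _ => rfl }
    unfold cnt
    rw [h1, h2, Finset.card_univ]
  have hexz : ∃ z : {θ // θ ∈ XB b} → ℤ, ¬ (p : ℤ) ∣ fm M z z := by
    obtain ⟨z, h1, -⟩ := hz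
    exact ⟨z, h1⟩
  exact (lat_all hp hs hcardpos hfr hminor hexz (N := (Nat.card b : ℤ)) (N' := 0) hN
    (fun z _ => by positivity)).2 hz

section pp

variable {p : ℕ} [hp : Fact p.Prime] (hpO : (p : ℂ) ∈ O.nonunits)

include hpO

/-- the contributions in the presence of a central subgroup -/
lemma contr_le {b : Set (G → ℂ)} (hb : IsBlock O b) {D Z : Subgroup G}
    (hZ : Z ≤ Subgroup.center G) (hZp : IsPGroup p Z) {θ : G → ℂ} (hθ : θ ∈ b) {m : ℤ}
    (hm : (m : ℂ) = Nat.card D * IC.B (cut p θ) θ) :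
    (Nat.card Z : ℤ) * m ≤ Nat.card D := by
  have hθi := hb.irr θ hθ
  have hGR : (0 : ℝ) < Nat.card G := by exact_mod_cast Nat.card_pos
  have hDR : (0 : ℝ) < Nat.card D := by exact_mod_cast Nat.card_pos
  have h1 := norm_comb (p := p) D hθi hθi hm hm hm 0
  simp only [Int.cast_zero, zero_mul, sub_zero, mul_zero, zero_pow (two_ne_zero), add_zero] at h1
  have h2 := norm_le_center hθi hZ hZp
  set S := ∑ h ∈ Finset.univ.filter (fun h : G => ¬ p ∣ orderOf h), ‖θ h‖ ^ 2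
  have h3 : (Nat.card G : ℝ) * ((Nat.card Z : ℝ) * m) ≤ Nat.card G * Nat.card D := by
    calc (Nat.card G : ℝ) * ((Nat.card Z : ℝ) * m) = Nat.card Z * (Nat.card G * m) := by ring
      _ = Nat.card Z * (Nat.card D * S) := by rw [← h1]
      _ = Nat.card D * (Nat.card Z * S) := by ring
      _ ≤ Nat.card D * Nat.card G := mul_le_mul_of_nonneg_left h2 hDR.le
      _ = _ := by ring
  have h4 : (Nat.card Z : ℝ) * m ≤ Nat.card D := le_of_mul_le_mul_left h3 hGR
  exact_mod_cast h4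

/-- **Blocks with a large central cyclic subgroup.** -/
theorem small_and_l {b : Set (G → ℂ)} (hb : IsBlock O b) {D : Subgroup G}
    (hD : IsDefectGroup p O b D) {Z : Subgroup G} (hZ : Z ≤ Subgroup.center G)
    (hZp : IsPGroup p Z) {s : ℕ} (hs : 1 ≤ s) (hq : MinorsDvd p b D (p ^ s))
    (hidx : Nat.card D ≤ p ^ s * Nat.card Z) :
    (∃ θ ∈ b, red O (uu D θ) ≠ 0 ∧ ∃ m : ℤ,
      (m : ℂ) = Nat.card D * IC.B (cut p θ) θ ∧ m < (p : ℤ) ^ s) ∧ lB p b ≤ p ^ s + 1 := by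
  haveI := charP_RF hpO
  have hZpos : (0 : ℤ) < Nat.card Z := by exact_mod_cast Nat.card_pos
  have hsm : ∃ θ ∈ b, red O (uu D θ) ≠ 0 ∧ ∃ m : ℤ,
      (m : ℂ) = Nat.card D * IC.B (cut p θ) θ ∧ m < (p : ℤ) ^ s := by
    obtain ⟨θ, hθ, hu⟩ := exists_uu_ne hpO hb hD
    obtain ⟨m, hm⟩ := contr_int hpO hb hD hθ hθ
    refine ⟨θ, hθ, hu, m, hm, ?_⟩
    have h1 := contr_le hpO hb hZ hZp hθ hm
    have h2 : (Nat.card Z : ℤ) * m ≤ Nat.card Z * (p : ℤ) ^ s := by
      refine h1.trans ?_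
      have h3 : (Nat.card D : ℤ) ≤ (p : ℤ) ^ s * Nat.card Z := by exact_mod_cast hidx
      linarith
    have h3 : m ≤ (p : ℤ) ^ s := le_of_mul_le_mul_left h2 hZpos
    refine lt_of_le_of_ne h3 ?_
    intro h4
    have h5 : ((m : ℤ) : RF O) = 0 := by
      rw [h4]
      obtain ⟨t, rfl⟩ := Nat.exists_eq_add_of_le' hs
      push_cast
      rw [pow_succ, CharP.cast_eq_zero, mul_zero]
    rw [← red_intCast, hm, red_contr hpO hb hD hθ hθ] at h5
    exact (mul_ne_zero hu (mul_ne_zero hu (cc_ne hpO hb hD hθ))) h5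
  refine ⟨hsm, ?_⟩
  have h1 := self_count hp.out hpO hb hD hs hq hsm
  by_contra hlt
  push Not at hlt
  have hlt' : (p : ℤ) ^ s + 1 < lB p b := by exact_mod_cast hlt
  rw [max_eq_right hlt'.le] at h1
  -- the trace
  choose! m hm using fun (θ : G → ℂ) (hθ : θ ∈ b) => contr_int hpO hb hD hθ hθ
  have htr : ∑ θ ∈ XB b, m θ = (Nat.card D : ℤ) * (lB p b : ℤ) := by
    have : ((∑ θ ∈ XB b, m θ : ℤ) : ℂ) = (((Nat.card D : ℤ) * (lB p b : ℤ) : ℤ) : ℂ) := by
      push_cast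
      rw [← trace_eq hpO hb, Finset.mul_sum]
      refine Finset.sum_congr rfl fun θ hθ => ?_
      rw [hm θ ((mem_XB hb.irr).mp hθ)]
    exact_mod_cast this
  have hcardb : Nat.card b = (XB b).card := by
    rw [← Fintype.card_coe, ← Nat.card_eq_fintype_card]
    refine Nat.card_congr ?_
    exact
      { toFun := fun χ => ⟨χ, (mem_XB hb.irr).mpr χ.2⟩
        invFun := fun χ => ⟨χ.1, (mem_XB hb.irr).mp χ.2⟩
        left_inv := fun _ => rfl
        right_inv := fun _ => rfl }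
  have h2 : (Nat.card Z : ℤ) * (Nat.card D * lB p b) ≤ Nat.card b * Nat.card D := by
    rw [← htr, Finset.mul_sum, hcardb]
    calc ∑ θ ∈ XB b, (Nat.card Z : ℤ) * m θ ≤ ∑ θ ∈ XB b, (Nat.card D : ℤ) :=
          Finset.sum_le_sum fun θ hθ =>
            contr_le hpO hb hZ hZp ((mem_XB hb.irr).mp hθ) (hm θ ((mem_XB hb.irr).mp hθ))
      _ = _ := by rw [Finset.sum_const, nsmul_eq_mul]
  have hDpos : (0 : ℤ) < Nat.card D := by exact_mod_cast Nat.card_pos
  have h3 : (Nat.card Z : ℤ) * lB p b ≤ Nat.card b := by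
    have h4 : (Nat.card D : ℤ) * (Nat.card Z * lB p b) ≤ Nat.card D * Nat.card b := by
      calc (Nat.card D : ℤ) * (Nat.card Z * lB p b) = Nat.card Z * (Nat.card D * lB p b) := by ring
        _ ≤ Nat.card b * Nat.card D := h2
        _ = _ := by ring
    exact le_of_mul_le_mul_left h4 hDpos
  have hqpos : (0 : ℤ) < (p : ℤ) ^ s := by
    have := hp.out.pos
    positivity
  have h5 : (Nat.card D : ℤ) ≤ (p : ℤ) ^ s * Nat.card Z := by exact_mod_cast hidx
  have hl : (0 : ℤ) < lB p b := by linarith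
  have h6 : ((p : ℤ) ^ s + 1) * (Nat.card Z * lB p b) ≤ ((p : ℤ) ^ s * Nat.card Z) * lB p b := by
    calc ((p : ℤ) ^ s + 1) * (Nat.card Z * lB p b) ≤ ((p : ℤ) ^ s + 1) * Nat.card b :=
          mul_le_mul_of_nonneg_left h3 (by linarith)
      _ ≤ Nat.card D * lB p b := h1
      _ ≤ _ := mul_le_mul_of_nonneg_right h5 hl.le
  nlinarith [mul_pos hZpos hl]

end pp

end Pool.Agent.Zk65.SE
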