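import Mathlib
import Pool.Agent.Zk65.SE24

/-!
The bounds for blocks whose defect groups satisfy the structural condition.
-/

set_option autoImplicit false
set_option linter.style.haveILetI false
set_option linter.unusedSectionVars false

open scoped BigOperators Classical
open Pool.Agent.Helper884 Pool.Agent.H254R3.IN Pool.Agent.N20 Pool.Agent.Zk65.TB

noncomputable section

namespace Pool.Agent.Zk65.SE

variable {G : Type} [Group G] [Fintype G] {O : ValuationSubring ℂ}

lemma zpowers_CC {p : ℕ} {u : G} {k : ℕ} (hu : orderOf u = p ^ k) :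
    IsPGroup p (Subgroup.zpowers u) ∧ CC u = CR (Subgroup.zpowers u) := by
  refine ⟨IsPGroup.of_card (n := k) (by rw [Nat.card_zpowers, hu]), ?_⟩
  ext g
  rw [mem_CR, mem_CC]
  constructor
  · intro h r hr
    obtain ⟨m, rfl⟩ := Subgroup.mem_zpowers_iff.mp hr
    have : Commute u g := h
    exact this.zpow_left m
  · intro h
    exact h u (Subgroup.mem_zpowers u)

/-- **Central cyclic subgroups of index at most `q`.** -/
theorem central_bound {p : ℕ} (hp : p.Prime) (hpO : (p : ℂ) ∈ O.nonunits)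
    {B : Set (G → ℂ)} (hB : IsBlock O B) {D : Subgroup G} (hD : IsDefectGroup p O B D)
    {s : ℕ} (hs : 1 ≤ s) (hc : Cond p (p ^ s) D) {z : G} (hzD : z ∈ D)
    (hz : ∀ d ∈ D, z * d = d * z) (hidx : Nat.card D ≤ p ^ s * orderOf z) :
    Nat.card B ≤ Nat.card D := by
  haveI : Fact (Nat.Prime p) := ⟨hp⟩
  obtain ⟨b, hb, hbB, Q, hQ, hcard⟩ := exists_major hpO hB hD hzD hz
  obtain ⟨k, hk⟩ := IsPGroup.iff_orderOf.mp (Pool.Agent.N20.defect_pgroup hD) ⟨z, hzD⟩
  have hk' : orderOf z = p ^ k := by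
    rw [← hk]
    exact (Subgroup.orderOf_mk z hzD).symm
  obtain ⟨hRp, hCC⟩ := zpowers_CC hk'
  obtain ⟨e⟩ := defect_iso hpO hB hD hRp hCC hb hQ hbB hcard
  have hcQ : Cond p (p ^ s) Q := cond_equiv e.symm hc
  have hmin := minors_structure hpO hb hQ hs (locCond_of_cond hcQ)
  -- the central subgroup of the centralizer
  set Z : Subgroup (CC z) := Subgroup.zpowers (uc z) with hZ
  have hZc : Z ≤ Subgroup.center (CC z) := by
    rw [hZ, Subgroup.zpowers_le, Subgroup.mem_center_iff]
    intro g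
    exact (uc_comm z g).symm
  have hord : orderOf (uc z) = orderOf z := (Subgroup.orderOf_coe (uc z)).symm
  have hZcard : Nat.card Z = p ^ k := by rw [hZ, Nat.card_zpowers, hord, hk']
  have hZp : IsPGroup p Z := IsPGroup.of_card hZcard
  obtain ⟨hsm, hl⟩ := small_and_l hpO hb hQ hZc hZp hs hmin (by
    rw [hcard, hZcard, ← hk']
    exact hidx)
  have h1 := (major_q hp hpO hB hD hk' hb hQ hcard hbB hs hmin).2 hsm
  have hl' : (lB p b : ℤ) ≤ (p : ℤ) ^ s + 1 := by exact_mod_cast hl
  rw [max_eq_left hl'] at h1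
  have hpos : (0 : ℤ) < (p : ℤ) ^ s + 1 := by positivity
  have h2 : (Nat.card B : ℤ) ≤ Nat.card D := by
    rw [mul_comm (Nat.card D : ℤ)] at h1
    exact le_of_mul_le_mul_left h1 hpos
  exact_mod_cast h2

end Pool.Agent.Zk65.SE
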