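import Pool.Agent.Zk65.HZ5

/-!
The bounds for the number of characters of height zero.
-/

set_option autoImplicit false
set_option linter.style.haveILetI false
set_option linter.unusedSectionVars false

open scoped BigOperators Classical ComplexConjugate
open Pool.Agent.Helper884 Pool.Agent.H254R3.IN Pool.Agent.N20 Pool.Agent.Zk65.TB
open Pool.Agent.Zk65.SE Pool.Agent.Zk65.BF

noncomputable section

namespace Pool.Agent.Zk65.HZ

variable {G : Type} [Group G] [Fintype G]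

/-- Bessel's inequality for the contributions of several subsections -/
theorem bessel {O : ValuationSubring ℂ} {p : ℕ} [hp : Fact p.Prime] (hpO : (p : ℂ) ∈ O.nonunits)
    (S : Finset ((u : G) × Set (CC u → ℂ)))
    (hS : ∀ s ∈ S, (∃ k, orderOf s.1 = p ^ k) ∧ IsBlock O s.2)
    (hconj : ∀ s ∈ S, ∀ s' ∈ S, IsConj s.1 s'.1 → s.1 = s'.1) {t : ℕ} (ht : Nat.Coprime t p)
    {ψ : G → ℂ} (hψi : IsIrr ψ) :
    ∑ s ∈ S, ∑ χ ∈ IC.Irr G, ‖BF.mt p s.1 t s.2 ψ χ‖ ^ 2 ≤ 1 := by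
  have hψI : ψ ∈ IC.Irr G := mem_Irr.mpr hψi
  set c : ((u : G) × Set (CC u → ℂ)) → ℝ :=
    fun s => ∑ χ ∈ IC.Irr G, ‖BF.mt p s.1 t s.2 ψ χ‖ ^ 2 with hc
  have hc0 : ∀ s, 0 ≤ c s := fun s => Finset.sum_nonneg fun _ _ => by positivity
  have hcm : ∀ s ∈ S, BF.mt p s.1 t s.2 ψ ψ = (c s : ℂ) := by
    intro s hs
    obtain ⟨⟨k, hu⟩, hb⟩ := hS s hs
    exact norm_sum hpO hu ht hb hψi
  have horth : ∀ s ∈ S, ∀ s' ∈ S, s ≠ s' →
      ∑ χ ∈ IC.Irr G, (starRingEnd ℂ) (BF.mt p s.1 t s.2 ψ χ) * BF.mt p s'.1 t s'.2 ψ χ = 0 := by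
    intro s hs s' hs' hne
    obtain ⟨⟨k, hu⟩, hb⟩ := hS s hs
    obtain ⟨⟨k', hu'⟩, hb'⟩ := hS s' hs'
    by_cases hconj' : IsConj s.1 s'.1
    · have h1 := hconj s hs s' hs' hconj'
      obtain ⟨u, b⟩ := s
      obtain ⟨u', b'⟩ := s'
      dsimp only at h1
      subst h1
      refine mt_orth_block hpO hu ht hb hb' ?_
      intro h2
      apply hne
      change b = b' at h2
      rw [h2]
    · exact mt_orth_sec hu hu' ht hconj' hb hb'
  have h1 : ∑ χ ∈ IC.Irr G, ‖∑ s ∈ S, BF.mt p s.1 t s.2 ψ χ‖ ^ 2 = ∑ s ∈ S, c s := by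
    apply Complex.ofReal_injective
    push_cast
    have h2 : ∀ χ : G → ℂ, ((‖∑ s ∈ S, BF.mt p s.1 t s.2 ψ χ‖ : ℂ)) ^ 2 =
        ∑ s ∈ S, ∑ s' ∈ S, (starRingEnd ℂ) (BF.mt p s.1 t s.2 ψ χ) *
          BF.mt p s'.1 t s'.2 ψ χ := by
      intro χ
      rw [← Complex.mul_conj', mul_comm, map_sum, Finset.sum_mul_sum]
    simp only [h2]
    rw [Finset.sum_comm]
    refine Finset.sum_congr rfl fun s hs => ?_
    rw [Finset.sum_comm, Finset.sum_eq_single s]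
    · rw [hc]
      push_cast
      refine Finset.sum_congr rfl fun χ _ => ?_
      rw [mul_comm, Complex.mul_conj']
    · intro s' hs' hne
      exact horth s hs s' hs' (Ne.symm hne)
    · intro h
      exact absurd hs h
  have h2 : ‖∑ s ∈ S, BF.mt p s.1 t s.2 ψ ψ‖ ^ 2 ≤ ∑ s ∈ S, c s := by
    rw [← h1]
    exact Finset.single_le_sum (f := fun χ => ‖∑ s ∈ S, BF.mt p s.1 t s.2 ψ χ‖ ^ 2)
      (fun _ _ => by positivity) hψI
  have h3 : ∑ s ∈ S, BF.mt p s.1 t s.2 ψ ψ = ((∑ s ∈ S, c s : ℝ) : ℂ) := by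
    push_cast
    exact Finset.sum_congr rfl fun s hs => hcm s hs
  have h4 : 0 ≤ ∑ s ∈ S, c s := Finset.sum_nonneg fun s _ => hc0 s
  rw [h3, Complex.norm_real, Real.norm_eq_abs, sq_abs] at h2
  by_contra hcon
  push Not at hcon
  nlinarith

/-- the characters of height zero -/
def I0 (p : ℕ) (D : Subgroup G) (B : Set (G → ℂ)) : Finset {χ // χ ∈ IC.Irr G} :=
  Finset.univ.filter (fun χ => (χ : G → ℂ) ∈ B ∧ HeightZero p D (χ : G → ℂ))

/-- the characters of positive height -/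
def J0 (p : ℕ) (D : Subgroup G) (B : Set (G → ℂ)) : Finset {χ // χ ∈ IC.Irr G} :=
  Finset.univ.filter (fun χ => (χ : G → ℂ) ∈ B ∧ ¬ HeightZero p D (χ : G → ℂ))

lemma disj (p : ℕ) (D : Subgroup G) (B : Set (G → ℂ)) : Disjoint (I0 p D B) (J0 p D B) := by
  rw [Finset.disjoint_left]
  intro χ h1 h2
  exact (Finset.mem_filter.mp h2).2.2 (Finset.mem_filter.mp h1).2.2

lemma card_filter_irr {O : ValuationSubring ℂ} {B : Set (G → ℂ)} (hB : IsBlock O B)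
    (Q : (G → ℂ) → Prop) : (Finset.univ.filter
      (fun χ : {χ // χ ∈ IC.Irr G} => (χ : G → ℂ) ∈ B ∧ Q (χ : G → ℂ))).card =
      Nat.card {χ : G → ℂ // χ ∈ B ∧ Q χ} := by
  rw [← Fintype.card_subtype, ← Nat.card_eq_fintype_card]
  refine Nat.card_congr ?_
  exact
    { toFun := fun χ => ⟨χ.1, χ.2⟩
      invFun := fun χ => ⟨⟨χ, mem_Irr.mpr (hB.irr χ χ.2.1)⟩, χ.2⟩
      left_inv := fun _ => rfl
      right_inv := fun _ => rfl }

lemma card_I0 {O : ValuationSubring ℂ} {p : ℕ} {D : Subgroup G} {B : Set (G → ℂ)}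
    (hB : IsBlock O B) :
    (I0 p D B).card = Nat.card {χ : G → ℂ // χ ∈ B ∧ HeightZero p D χ} :=
  card_filter_irr hB (fun χ => HeightZero p D χ)

lemma card_J0 {O : ValuationSubring ℂ} {p : ℕ} {D : Subgroup G} {B : Set (G → ℂ)}
    (hB : IsBlock O B) :
    (I0 p D B).card + (J0 p D B).card = Nat.card B := by
  have h1 : (I0 p D B) ∪ (J0 p D B) = Finset.univ.filter
      (fun χ : {χ // χ ∈ IC.Irr G} => (χ : G → ℂ) ∈ B ∧ True) := by
    ext χ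
    unfold I0 J0
    simp only [Finset.mem_union, Finset.mem_filter, Finset.mem_univ, true_and, and_true]
    tauto
  rw [← Finset.card_union_of_disjoint (disj p D B), h1]
  have h2 : (Finset.univ.filter
      (fun χ : {χ // χ ∈ IC.Irr G} => (χ : G → ℂ) ∈ B ∧ True)).card =
      Nat.card {χ : G → ℂ // χ ∈ B ∧ True} := by
    convert card_filter_irr hB (fun _ => True)
  rw [h2]
  refine Nat.card_congr (Equiv.subtypeEquivRight fun χ => ?_)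
  simp

section

variable {p : ℕ} (hp : p.Prime) {O : ValuationSubring ℂ} (hpO : (p : ℂ) ∈ O.nonunits)
  {D : Subgroup G} {B : Set (G → ℂ)} (hB : IsBlock O B) (hD : IsDefectGroup p O B D)
  {u : G} {k : ℕ} (hu : orderOf u = p ^ k) {b : Set (CC u → ℂ)} (hb : IsBlock O b)
  {D' : Subgroup (CC u)} (hD' : IsDefectGroup p O b D') (hbB : Induces O B (CC u) b)

include hp hpO hB hD hu hb hD' hbB

/-- the inequality for one subsection in terms of the contributions -/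
theorem one_avg {q : ℕ} (hq2 : 2 ≤ q) (hq : MinorsDvd p b D' q) {r : ℕ} [NeZero (p ^ r)]
    (hr : orderOf u ∣ p ^ r) (σ₁ : Em (p ^ r)) (tt : Em (p ^ r) → ℕ)
    (htt : ∀ σ, Nat.Coprime (tt σ) p ∧ σ (zt (p ^ r)) = σ₁ (zt (p ^ r)) ^ tt σ) :
    Fintype.card (Em (p ^ r)) * (((q : ℝ) + 2) * ((I0 p D B).card : ℝ) ^ 2 -
      ((q : ℝ) - 2) * Nat.card D' * (I0 p D B).card +
      (if Nat.card D' = Nat.card D then 4 * ((I0 p D B).card : ℝ) * (J0 p D B).card else 0)) ≤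
      4 * (Nat.card D' : ℝ) ^ 2 * ∑ σ : Em (p ^ r), ∑ χ ∈ I0 p D B, ∑ ψ ∈ IC.Irr G,
        ‖BF.mt p u (tt σ) b (χ : G → ℂ) ψ‖ ^ 2 ∧
    Fintype.card (Em (p ^ r)) * (((q : ℝ) + 2) * ((I0 p D B).card : ℝ) ^ 2 -
      ((q : ℝ) - 2) * Nat.card D' * (I0 p D B).card +
      (if Nat.card D' = Nat.card D then 8 * ((I0 p D B).card : ℝ) * (J0 p D B).card else 0)) ≤
      Fintype.card (Em (p ^ r)) * (4 * (Nat.card D' : ℝ) ^ 2 * lB p b) := by
  haveI : Fact (Nat.Prime p) := ⟨hp⟩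
  obtain ⟨M, n, e, hsym, hsq, htr, hmin, hσ⟩ := data hp hpO hu hb hD' hr σ₁
  have hP : (0 : ℝ) < Nat.card D' := by exact_mod_cast Nat.card_pos
  have hPC : (Nat.card D' : ℂ) ≠ 0 := by exact_mod_cast Nat.card_pos.ne'
  have h1σ : σ₁ (zt (p ^ r)) = σ₁ (zt (p ^ r)) ^ 1 := (pow_one _).symm
  have hval1 := (hσ σ₁ 1 (Nat.coprime_one_left p) h1σ).2
  have hfr : ∀ σ : Em (p ^ r), ∀ θ θ',
      ∑ χ, conj (∑ η, (M θ η : ℂ) * (n χ η * σ (zt (p ^ r)) ^ e η)) *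
      (∑ η, (M θ' η : ℂ) * (n χ η * σ (zt (p ^ r)) ^ e η)) =
        ((Nat.card D' : ℝ) : ℂ) * M θ θ' :=
    fun σ => (hσ σ (tt σ) (htt σ).1 (htt σ).2).1
  have hnorm : ∀ (σ : Em (p ^ r)) (χ ψ : {χ // χ ∈ IC.Irr G}),
      ‖GG M (fun χ η => n χ η * σ (zt (p ^ r)) ^ e η) χ ψ‖ ^ 2 =
        (Nat.card D' : ℝ) ^ 2 * ‖BF.mt p u (tt σ) b (χ : G → ℂ) (ψ : G → ℂ)‖ ^ 2 := by
    intro σ χ ψ
    rw [(hσ σ (tt σ) (htt σ).1 (htt σ).2).2, norm_mul, mul_pow, Complex.norm_natCast,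
      RCLike.norm_conj]
  have hne0 : ∀ χ ∈ I0 p D B, ∀ ψ ∈ I0 p D B,
      GG M (fun χ η => n χ η * σ₁ (zt (p ^ r)) ^ e η) χ ψ ≠ 0 := by
    intro χ hχ ψ hψ
    obtain ⟨hχB, hχ0⟩ := (Finset.mem_filter.mp hχ).2
    obtain ⟨hψB, hψ0⟩ := (Finset.mem_filter.mp hψ).2
    rw [hval1]
    refine mul_ne_zero hPC ?_
    rw [Ne, map_eq_zero]
    exact mt_ne_zero hpO hB hD hu hb hD' hbB hχB hχ0 hψB hψ0
  have hne1 : Nat.card D' = Nat.card D → ∀ χ ∈ I0 p D B, ∀ ψ ∈ J0 p D B,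
      GG M (fun χ η => n χ η * σ₁ (zt (p ^ r)) ^ e η) χ ψ ≠ 0 := by
    intro hcard χ hχ ψ hψ
    obtain ⟨hχB, hχ0⟩ := (Finset.mem_filter.mp hχ).2
    obtain ⟨hψB, -⟩ := (Finset.mem_filter.mp hψ).2
    rw [hval1]
    refine mul_ne_zero hPC ?_
    rw [Ne, map_eq_zero]
    exact mt_ne_major hpO hB hD hu hb hD' hbB hcard hχB hχ0 hψB
  have main := galois_avg (N := p ^ r) (M := M) (n := n) (e := e) (P := (Nat.card D' : ℝ)) hP hq2
    hsym hfr (hmin q hq) (I₀ := I0 p D B) σ₁ hne0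
  -- the rows
  have hrow : Nat.card D' = Nat.card D → Fintype.card (Em (p ^ r)) *
      (((I0 p D B).card : ℝ) * (J0 p D B).card) ≤ ∑ σ : Em (p ^ r), ∑ χ ∈ I0 p D B,
        ∑ ψ ∈ J0 p D B, ‖GG M (fun χ η => n χ η * σ (zt (p ^ r)) ^ e η) χ ψ‖ ^ 2 := by
    intro hcard
    have e1 : ∑ σ : Em (p ^ r), ∑ χ ∈ I0 p D B,
        ∑ ψ ∈ J0 p D B, ‖GG M (fun χ η => n χ η * σ (zt (p ^ r)) ^ e η) χ ψ‖ ^ 2 =
        ∑ χ ∈ I0 p D B, ∑ ψ ∈ J0 p D B, ∑ σ : Em (p ^ r),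
          ‖GG M (fun χ η => n χ η * σ (zt (p ^ r)) ^ e η) χ ψ‖ ^ 2 := by
      rw [Finset.sum_comm]
      refine Finset.sum_congr rfl fun χ _ => ?_
      rw [Finset.sum_comm]
    rw [e1]
    calc Fintype.card (Em (p ^ r)) * (((I0 p D B).card : ℝ) * (J0 p D B).card)
        = ∑ χ ∈ I0 p D B, ∑ ψ ∈ J0 p D B, (Fintype.card (Em (p ^ r)) : ℝ) := by
          simp only [Finset.sum_const, nsmul_eq_mul]
          ring
      _ ≤ _ := Finset.sum_le_sum fun χ hχ => Finset.sum_le_sum fun ψ hψ =>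
          galois_row σ₁ (hne1 hcard χ hχ ψ hψ)
  constructor
  · have e1 : 4 * (Nat.card D' : ℝ) ^ 2 * ∑ σ : Em (p ^ r), ∑ χ ∈ I0 p D B, ∑ ψ ∈ IC.Irr G,
        ‖BF.mt p u (tt σ) b (χ : G → ℂ) ψ‖ ^ 2 = 4 * ∑ σ : Em (p ^ r), ∑ χ ∈ I0 p D B,
          ∑ ψ, ‖GG M (fun χ η => n χ η * σ (zt (p ^ r)) ^ e η) χ ψ‖ ^ 2 := by
      rw [mul_assoc]
      congr 1
      rw [Finset.mul_sum]
      refine Finset.sum_congr rfl fun σ _ => ?_
      rw [Finset.mul_sum]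
      refine Finset.sum_congr rfl fun χ _ => ?_
      rw [← Finset.sum_coe_sort (IC.Irr G) (fun ψ : G → ℂ =>
        ‖BF.mt p u (tt σ) b (χ : G → ℂ) ψ‖ ^ 2), Finset.mul_sum]
      refine Finset.sum_congr rfl fun ψ _ => ?_
      rw [hnorm]
    rw [e1]
    by_cases hcard : Nat.card D' = Nat.card D
    · rw [if_pos hcard]
      have h3 := hrow hcard
      have h4 : ∀ σ : Em (p ^ r), ∑ χ ∈ I0 p D B, ∑ ψ ∈ I0 p D B,
          ‖GG M (fun χ η => n χ η * σ (zt (p ^ r)) ^ e η) χ ψ‖ ^ 2 + ∑ χ ∈ I0 p D B,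
          ∑ ψ ∈ J0 p D B, ‖GG M (fun χ η => n χ η * σ (zt (p ^ r)) ^ e η) χ ψ‖ ^ 2 ≤
          ∑ χ ∈ I0 p D B, ∑ ψ, ‖GG M (fun χ η => n χ η * σ (zt (p ^ r)) ^ e η) χ ψ‖ ^ 2 := by
        intro σ
        rw [← Finset.sum_add_distrib]
        refine Finset.sum_le_sum fun χ _ => ?_
        rw [← Finset.sum_union (disj p D B)]
        exact Finset.sum_le_sum_of_subset_of_nonneg (Finset.subset_univ _)
          fun _ _ _ => sq_nonneg _
      have h5 := Finset.sum_le_sum fun σ (_ : σ ∈ (Finset.univ : Finset (Em (p ^ r)))) => h4 σ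
      rw [Finset.sum_add_distrib] at h5
      linarith
    · rw [if_neg hcard, add_zero]
      refine main.trans ?_
      refine mul_le_mul_of_nonneg_left ?_ (by norm_num)
      refine Finset.sum_le_sum fun σ _ => Finset.sum_le_sum fun χ _ => ?_
      exact Finset.sum_le_sum_of_subset_of_nonneg (Finset.subset_univ _)
        fun _ _ _ => sq_nonneg _
  · have h4 : ∀ σ : Em (p ^ r), ∑ χ ∈ I0 p D B, ∑ ψ ∈ I0 p D B,
        ‖GG M (fun χ η => n χ η * σ (zt (p ^ r)) ^ e η) χ ψ‖ ^ 2 + 2 * ∑ χ ∈ I0 p D B,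
        ∑ ψ ∈ J0 p D B, ‖GG M (fun χ η => n χ η * σ (zt (p ^ r)) ^ e η) χ ψ‖ ^ 2 ≤
        (Nat.card D' : ℝ) * ((Nat.card D' : ℝ) * lB p b) := by
      intro σ
      refine sum_sq_le hP (fun χ ψ => GG_herm hsym _ χ ψ) (fun χ ψ => GG_sq hsym _ (hfr σ) χ ψ)
        ?_ _ _ (disj p D B)
      have h := GG_tr hP.ne' hsym hsq htr _ (hfr σ)
      have h2 := congrArg Complex.re h
      rw [Complex.re_sum] at h2
      rw [h2, ← Complex.ofReal_mul, Complex.ofReal_re]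
    have h5 := Finset.sum_le_sum fun σ (_ : σ ∈ (Finset.univ : Finset (Em (p ^ r)))) => h4 σ
    rw [Finset.sum_add_distrib, ← Finset.mul_sum, Finset.sum_const, Finset.card_univ,
      nsmul_eq_mul] at h5
    by_cases hcard : Nat.card D' = Nat.card D
    · rw [if_pos hcard]
      have h3 := hrow hcard
      nlinarith [h3, h5, main]
    · rw [if_neg hcard, add_zero]
      have h6 : 0 ≤ ∑ σ : Em (p ^ r), ∑ χ ∈ I0 p D B,
          ∑ ψ ∈ J0 p D B, ‖GG M (fun χ η => n χ η * σ (zt (p ^ r)) ^ e η) χ ψ‖ ^ 2 :=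
        Finset.sum_nonneg fun _ _ => Finset.sum_nonneg fun _ _ =>
          Finset.sum_nonneg fun _ _ => sq_nonneg _
      nlinarith [h6, h5, main]

/-- **One subsection.** -/
theorem one_sub {q : ℕ} (hq2 : 2 ≤ q) (hq : MinorsDvd p b D' q) :
    ((q : ℝ) + 2) * ((I0 p D B).card : ℝ) ^ 2 +
      (if Nat.card D' = Nat.card D then 8 * ((I0 p D B).card : ℝ) * (J0 p D B).card else 0) ≤
      ((q : ℝ) - 2) * Nat.card D' * (I0 p D B).card + 4 * (Nat.card D' : ℝ) ^ 2 * lB p b := by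
  haveI : NeZero (p ^ k) := ⟨pow_ne_zero _ hp.ne_zero⟩
  obtain ⟨σ₁⟩ : Nonempty (Em (p ^ k)) := inferInstance
  choose tt htt using fun σ => exists_exp hp σ₁ σ
  have h1 := (one_avg hp hpO hB hD hu hb hD' hbB hq2 hq (dvd_of_eq hu) σ₁ tt htt).2
  have h2 : (0 : ℝ) < Fintype.card (Em (p ^ k)) := by exact_mod_cast Fintype.card_pos
  have h3 := le_of_mul_le_mul_left h1 h2
  linarith

end

/-- **Several subsections.** -/
theorem several_sub {p : ℕ} (hp : p.Prime) {O : ValuationSubring ℂ}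
    (hpO : (p : ℂ) ∈ O.nonunits) {D : Subgroup G} {B : Set (G → ℂ)} (hB : IsBlock O B)
    (hD : IsDefectGroup p O B D) (S : Finset ((u : G) × Set (CC u → ℂ)))
    (d q : ((u : G) × Set (CC u → ℂ)) → ℕ)
    (hS : ∀ s ∈ S, (∃ k, orderOf s.1 = p ^ k) ∧ IsBlock O s.2 ∧ Induces O B (CC s.1) s.2 ∧
      2 ≤ q s ∧ ∃ Q : Subgroup (CC s.1), IsDefectGroup p O s.2 Q ∧ Nat.card Q = d s ∧
        MinorsDvd p s.2 Q (q s))
    (hconj : ∀ s ∈ S, ∀ s' ∈ S, IsConj s.1 s'.1 → s.1 = s'.1) :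
    ∑ s ∈ S, (((q s : ℝ) + 2) * (I0 p D B).card - ((q s : ℝ) - 2) * d s +
      (if d s = Nat.card D then 4 * ((J0 p D B).card : ℝ) else 0)) / (d s : ℝ) ^ 2 ≤ 4 := by
  haveI : Fact (Nat.Prime p) := ⟨hp⟩
  obtain ⟨ψ, hψ, hψu⟩ := exists_uu_ne hpO hB hD
  have hψi := hB.irr ψ hψ
  have hψh : HeightZero p D ψ :=
    height_of_unit hpO hψi (Pool.Agent.N20.uu_mem hpO hB hD hψ) hψu
  have hKpos : 0 < (I0 p D B).card := by
    apply Finset.card_pos.mpr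
    exact ⟨⟨ψ, mem_Irr.mpr hψi⟩, Finset.mem_filter.mpr ⟨Finset.mem_univ _, hψ, hψh⟩⟩
  have hK0 : (0 : ℝ) < (I0 p D B).card := by exact_mod_cast hKpos
  set r := (Nat.card G).factorization p with hr
  haveI : NeZero (p ^ r) := ⟨pow_ne_zero _ hp.ne_zero⟩
  obtain ⟨σ₁⟩ : Nonempty (Em (p ^ r)) := inferInstance
  choose tt htt using fun σ => exists_exp hp σ₁ σ
  have hτ0 : (0 : ℝ) < Fintype.card (Em (p ^ r)) := by exact_mod_cast Fintype.card_pos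
  have hone : ∀ s ∈ S, Fintype.card (Em (p ^ r)) * ((I0 p D B).card : ℝ) *
      ((((q s : ℝ) + 2) * (I0 p D B).card - ((q s : ℝ) - 2) * d s +
      (if d s = Nat.card D then 4 * ((J0 p D B).card : ℝ) else 0)) / (d s : ℝ) ^ 2) ≤
      4 * ∑ σ : Em (p ^ r), ∑ χ ∈ I0 p D B, ∑ ψ ∈ IC.Irr G,
        ‖BF.mt p s.1 (tt σ) s.2 (χ : G → ℂ) ψ‖ ^ 2 := by
    intro s hs
    obtain ⟨⟨k, hu⟩, hb, hbB, hq2, Q, hQ, hcard, hq⟩ := hS s hs
    have hord : orderOf s.1 ∣ p ^ r := by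
      rw [hu]
      apply pow_dvd_pow
      have h1 : p ^ k ∣ Nat.card G := by
        rw [← hu]
        exact orderOf_dvd_natCard s.1
      exact (hp.pow_dvd_iff_le_factorization Nat.card_pos.ne').mp h1
    have h1 := (one_avg hp hpO hB hD hu hb hQ hbB hq2 hq hord σ₁ tt htt).1
    rw [hcard] at h1
    have hd0 : (0 : ℝ) < d s := by
      rw [← hcard]
      exact_mod_cast Nat.card_pos
    have h2 : Fintype.card (Em (p ^ r)) * ((I0 p D B).card : ℝ) *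
      ((((q s : ℝ) + 2) * (I0 p D B).card - ((q s : ℝ) - 2) * d s +
      (if d s = Nat.card D then 4 * ((J0 p D B).card : ℝ) else 0)) / (d s : ℝ) ^ 2) =
        (Fintype.card (Em (p ^ r)) * (((q s : ℝ) + 2) * ((I0 p D B).card : ℝ) ^ 2 -
      ((q s : ℝ) - 2) * d s * (I0 p D B).card +
      (if d s = Nat.card D then 4 * ((I0 p D B).card : ℝ) * (J0 p D B).card else 0))) /
        (d s : ℝ) ^ 2 := by
      split_ifs <;> ring
    rw [h2, div_le_iff₀ (by positivity)]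
    refine h1.trans (le_of_eq ?_)
    ring
  have hsum := Finset.sum_le_sum hone
  rw [← Finset.mul_sum, ← Finset.mul_sum] at hsum
  have e1 : ∑ s ∈ S, ∑ σ : Em (p ^ r), ∑ χ ∈ I0 p D B, ∑ ψ ∈ IC.Irr G,
        ‖BF.mt p s.1 (tt σ) s.2 (χ : G → ℂ) ψ‖ ^ 2 ≤
      Fintype.card (Em (p ^ r)) * ((I0 p D B).card : ℝ) := by
    calc ∑ s ∈ S, ∑ σ : Em (p ^ r), ∑ χ ∈ I0 p D B, ∑ ψ ∈ IC.Irr G,
        ‖BF.mt p s.1 (tt σ) s.2 (χ : G → ℂ) ψ‖ ^ 2
        = ∑ σ : Em (p ^ r), ∑ χ ∈ I0 p D B, ∑ s ∈ S, ∑ ψ ∈ IC.Irr G,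
        ‖BF.mt p s.1 (tt σ) s.2 (χ : G → ℂ) ψ‖ ^ 2 := by
          rw [Finset.sum_comm]
          refine Finset.sum_congr rfl fun σ _ => ?_
          rw [Finset.sum_comm]
      _ ≤ ∑ _σ : Em (p ^ r), ∑ _χ ∈ I0 p D B, (1 : ℝ) := by
          refine Finset.sum_le_sum fun σ _ => Finset.sum_le_sum fun χ _ => ?_
          exact bessel hpO S (fun s hs => ⟨(hS s hs).1, (hS s hs).2.1⟩) hconj (htt σ).1
            (mem_Irr.mp χ.2)
      _ = _ := by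
          simp only [Finset.sum_const, nsmul_eq_mul, mul_one, Finset.card_univ]
  have h2 : Fintype.card (Em (p ^ r)) * ((I0 p D B).card : ℝ) *
      ∑ s ∈ S, (((q s : ℝ) + 2) * (I0 p D B).card - ((q s : ℝ) - 2) * d s +
      (if d s = Nat.card D then 4 * ((J0 p D B).card : ℝ) else 0)) / (d s : ℝ) ^ 2 ≤
      Fintype.card (Em (p ^ r)) * ((I0 p D B).card : ℝ) * 4 := by
    refine hsum.trans ?_
    linarith
  exact le_of_mul_le_mul_left h2 (mul_pos hτ0 hK0)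

end Pool.Agent.Zk65.HZ
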