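import Mathlib
import Pool.Agent.N20.Sub5

/-!
Contributions of subsections with respect to a fixed character.
-/

set_option autoImplicit false
set_option linter.style.haveILetI false
set_option linter.unusedSectionVars false

open scoped BigOperators Classical
open Pool.Agent.Helper884 Pool.Agent.H254R3.IN Pool.Agent.N20

noncomputable section

namespace Pool.Agent.Zk65.BF

variable {G : Type} [Group G] [Fintype G]

/-- the contribution of the subsection `(u ^ t, b)` -/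
def mt (p : ℕ) (u : G) (t : ℕ) (b : Set (CC u → ℂ)) (ψ χ : G → ℂ) : ℂ :=
  ∑ θ ∈ XB b, (starRingEnd ℂ) (mm u ψ θ * cu u θ ^ t) * JJ p u t θ χ

section one

variable {O : ValuationSubring ℂ} {p : ℕ} [hp : Fact p.Prime] (hpO : (p : ℂ) ∈ O.nonunits)

/-- orthogonality for the same element -/
lemma JJ_orth {k : ℕ} {u : G} (hu : orderOf u = p ^ k) {t : ℕ} (ht : Nat.Coprime t p)
    {θ θ' : CC u → ℂ} (hθ : IsIrr θ) (hθ' : IsIrr θ') :
    ∑ χ ∈ IC.Irr G, (starRingEnd ℂ) (JJ p u t θ χ) * JJ p u t θ' χ = IC.B (cut p θ) θ' :=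
  sec_frame hu ht (fun s => (Pool.Agent.Y62.conj_char hθ s).symm) (fun g y => hθ'.conj g y)
    (fun s => (Pool.Agent.Y62.conj_char hθ' s).symm)

include hpO in
/-- the norm of the contributions -/
lemma mt_norm {k : ℕ} {u : G} (hu : orderOf u = p ^ k) {t : ℕ} (ht : Nat.Coprime t p)
    {b : Set (CC u → ℂ)} (hb : IsBlock O b) {ψ : G → ℂ} (hψ : IsIrr ψ) :
    ∑ χ ∈ IC.Irr G, (starRingEnd ℂ) (mt p u t b ψ χ) * mt p u t b ψ χ = mt p u t b ψ ψ := by
  have hirr : ∀ θ ∈ XB b, IsIrr θ := fun θ hθ => hb.irr _ ((mem_XB hb.irr).mp hθ)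
  have h1 : ∀ χ : G → ℂ, (starRingEnd ℂ) (mt p u t b ψ χ) * mt p u t b ψ χ =
      ∑ θ' ∈ XB b, ∑ θ ∈ XB b, (starRingEnd ℂ) (mm u ψ θ' * cu u θ' ^ t) *
        ((mm u ψ θ * cu u θ ^ t) * ((starRingEnd ℂ) (JJ p u t θ χ) * JJ p u t θ' χ)) := by
    intro χ
    unfold mt
    rw [map_sum, Finset.sum_mul_sum, Finset.sum_comm]
    refine Finset.sum_congr rfl fun θ' _ => Finset.sum_congr rfl fun θ _ => ?_
    rw [map_mul, Complex.conj_conj]
    ring
  simp only [h1]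
  rw [Finset.sum_comm]
  unfold mt
  refine Finset.sum_congr rfl fun θ' hθ' => ?_
  rw [Finset.sum_comm, JJ_eq hpO u hb ((mem_XB hb.irr).mp hθ') hψ t, Finset.mul_sum]
  refine Finset.sum_congr rfl fun θ hθ => ?_
  rw [← Finset.mul_sum, ← Finset.mul_sum, JJ_orth hu ht (hirr θ hθ) (hirr θ' hθ'), B_cut_comm]

include hpO in
/-- different blocks of the same centralizer -/
lemma mt_orth_block {k : ℕ} {u : G} (hu : orderOf u = p ^ k) {t : ℕ} (ht : Nat.Coprime t p)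
    {b b' : Set (CC u → ℂ)} (hb : IsBlock O b) (hb' : IsBlock O b') (hne : b ≠ b')
    {ψ ψ' : G → ℂ} :
    ∑ χ ∈ IC.Irr G, (starRingEnd ℂ) (mt p u t b ψ χ) * mt p u t b' ψ' χ = 0 := by
  have hirr : ∀ θ ∈ XB b, IsIrr θ := fun θ hθ => hb.irr _ ((mem_XB hb.irr).mp hθ)
  have hirr' : ∀ θ ∈ XB b', IsIrr θ := fun θ hθ => hb'.irr _ ((mem_XB hb'.irr).mp hθ)
  have hdis : ∀ θ' ∈ b', θ' ∉ b := by
    intro θ' h1 h2
    apply hne
    obtain ⟨χ₀, -, e0⟩ := hb
    obtain ⟨χ₁, -, e1⟩ := hb'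
    rw [e0] at h2
    rw [e1] at h1
    rw [e0, e1]
    ext χ
    constructor
    · rintro ⟨h3, h4⟩
      refine ⟨h3, fun x => ?_⟩
      have e : omega χ x - omega χ₁ x = ((omega χ x - omega χ₀ x) - (omega θ' x - omega χ₀ x)) +
          (omega θ' x - omega χ₁ x) := by ring
      rw [e]
      have a1 := h4 x
      have a2 := h2.2 x
      have a3 := h1.2 x
      have m1 := nonunits_mem a1
      have m2 := nonunits_mem a2
      have m3 := nonunits_mem a3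
      rw [← red_eq_zero_iff (O.add_mem _ _ (sub_mem' m1 m2) m3), red_add (sub_mem' m1 m2) m3,
        red_sub m1 m2, red_eq_zero a1, red_eq_zero a2, red_eq_zero a3]
      ring
    · rintro ⟨h3, h4⟩
      refine ⟨h3, fun x => ?_⟩
      have e : omega χ x - omega χ₀ x = ((omega χ x - omega χ₁ x) - (omega θ' x - omega χ₁ x)) +
          (omega θ' x - omega χ₀ x) := by ring
      rw [e]
      have a1 := h4 x
      have a2 := h1.2 x
      have a3 := h2.2 x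
      have m1 := nonunits_mem a1
      have m2 := nonunits_mem a2
      have m3 := nonunits_mem a3
      rw [← red_eq_zero_iff (O.add_mem _ _ (sub_mem' m1 m2) m3), red_add (sub_mem' m1 m2) m3,
        red_sub m1 m2, red_eq_zero a1, red_eq_zero a2, red_eq_zero a3]
      ring
  have h1 : ∀ χ : G → ℂ, (starRingEnd ℂ) (mt p u t b ψ χ) * mt p u t b' ψ' χ =
      ∑ θ' ∈ XB b', ∑ θ ∈ XB b, (starRingEnd ℂ) (mm u ψ' θ' * cu u θ' ^ t) *
        ((mm u ψ θ * cu u θ ^ t) * ((starRingEnd ℂ) (JJ p u t θ χ) * JJ p u t θ' χ)) := by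
    intro χ
    unfold mt
    rw [map_sum, Finset.sum_mul_sum, Finset.sum_comm]
    refine Finset.sum_congr rfl fun θ' _ => Finset.sum_congr rfl fun θ _ => ?_
    rw [map_mul, Complex.conj_conj]
    ring
  simp only [h1]
  rw [Finset.sum_comm]
  refine Finset.sum_eq_zero fun θ' hθ' => ?_
  rw [Finset.sum_comm]
  refine Finset.sum_eq_zero fun θ hθ => ?_
  rw [← Finset.mul_sum, ← Finset.mul_sum, JJ_orth hu ht (hirr θ hθ) (hirr' θ' hθ'),
    blk_orth hpO hb ((mem_XB hb.irr).mp hθ) (hirr' θ' hθ') (hdis θ' ((mem_XB hb'.irr).mp hθ'))]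
  ring

/-- powers prime to `p` of non-conjugate `p`-elements are not conjugate -/
lemma not_conj_pow {k k' : ℕ} {u u' : G} (hu : orderOf u = p ^ k) (hu' : orderOf u' = p ^ k')
    {t : ℕ} (ht : Nat.Coprime t p) (hc : ¬ IsConj u u') : ¬ IsConj (u ^ t) (u' ^ t) := by
  intro h
  apply hc
  obtain ⟨c, hc'⟩ := isConj_iff.mp h
  have h1 : Nat.Coprime t (p ^ (k + k')) := Nat.Coprime.pow_right _ ht
  obtain ⟨m, hm⟩ : ∃ m : ℕ, t * m ≡ 1 [MOD p ^ (k + k')] := by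
    have h2 := Nat.exists_mul_mod_eq_one_of_coprime (k := p ^ (k + k')) (n := t)
    by_cases hone : 1 < p ^ (k + k')
    · obtain ⟨m, -, h3⟩ := h2 h1 hone
      exact ⟨m, by rw [Nat.ModEq, h3, Nat.mod_eq_of_lt hone]⟩
    · have h4 : p ^ (k + k') = 1 := by
        have := Nat.pos_of_ne_zero (pow_ne_zero (k + k') hp.out.ne_zero)
        omega
      exact ⟨0, by rw [h4]; exact Nat.modEq_one⟩
  have hpow : ∀ v : G, orderOf v ∣ p ^ (k + k') → (v ^ t) ^ m = v := by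
    intro v hv
    rw [← pow_mul]
    have := (pow_eq_pow_iff_modEq (x := v)).mpr (hm.of_dvd hv)
    rwa [pow_one] at this
  rw [isConj_iff]
  refine ⟨c, ?_⟩
  have h5 : c * (u ^ t) ^ m * c⁻¹ = (u' ^ t) ^ m := by
    rw [← hc', conj_pow]
  rw [hpow u (by rw [hu]; exact pow_dvd_pow _ (Nat.le_add_right _ _)),
    hpow u' (by rw [hu']; exact pow_dvd_pow _ (Nat.le_add_left _ _))] at h5
  exact h5

/-- non-conjugate elements -/
lemma JJ_orth_sec {k k' : ℕ} {u u' : G} (hu : orderOf u = p ^ k) (hu' : orderOf u' = p ^ k')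
    {t : ℕ} (ht : Nat.Coprime t p) (hc : ¬ IsConj u u') {θ : CC u → ℂ} {θ' : CC u' → ℂ}
    (hθ : IsIrr θ) (hθ' : IsIrr θ') :
    ∑ χ ∈ IC.Irr G, (starRingEnd ℂ) (JJ p u t θ χ) * JJ p u' t θ' χ = 0 := by
  have hord : ∀ {v : G} {j : ℕ}, orderOf v = p ^ j → ∃ k', orderOf (v ^ t) = p ^ k' := by
    intro v j hv
    have h1 : orderOf (v ^ t) ∣ p ^ j := by rw [← hv]; exact orderOf_pow_dvd t
    obtain ⟨k', -, h2⟩ := (Nat.dvd_prime_pow hp.out).mp h1
    exact ⟨k', h2⟩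
  obtain ⟨i, hi⟩ := hord hu
  obtain ⟨i', hi'⟩ := hord hu'
  have hS : ∀ (v : G) (a : CC v → ℂ), Pool.Agent.Y62.Supp p (v ^ t) (ex p v a) := by
    intro v a s hs
    by_cases h : s ∈ CC v
    · refine ⟨?_, ?_⟩
      · have h1 : Commute v s := mem_CC.mp h
        exact h1.pow_left t
      · intro hdvd
        apply hs
        rw [ex, dif_pos h, cut, if_pos (by rwa [Subgroup.orderOf_mk])]
    · exact absurd (by rw [ex, dif_neg h]) hs
  have h1 := Pool.Agent.Y62.sec_orth hi hi' (hS u θ) (hS u' θ')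
  have hav : ∀ (v : G) (c : CC v → ℂ), (∀ s, (starRingEnd ℂ) (c s) = c s⁻¹) → ∀ χ,
      Pool.Agent.Y62.av (v ^ t) (ex p v c) χ =
        (Nat.card (CC v) : ℂ) * (starRingEnd ℂ) (JJ p v t c χ) := by
    intro v c hc χ
    have hH0 : (Nat.card (CC v) : ℂ) ≠ 0 := by exact_mod_cast Nat.card_pos.ne'
    unfold Pool.Agent.Y62.av JJ
    rw [sum_ex p v c (fun s => (starRingEnd ℂ) (χ (v ^ t * s))), map_mul, map_inv₀,
      Complex.conj_natCast, ← mul_assoc, mul_inv_cancel₀ hH0, one_mul, map_sum]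
    refine Finset.sum_congr rfl fun s _ => ?_
    rw [map_mul, cut_conj hc, inv_inv]
  have hθc : ∀ s, (starRingEnd ℂ) (θ s) = θ s⁻¹ :=
    fun s => (Pool.Agent.Y62.conj_char hθ s).symm
  have hθc' : ∀ s, (starRingEnd ℂ) (θ' s) = θ' s⁻¹ :=
    fun s => (Pool.Agent.Y62.conj_char hθ' s).symm
  have h2 : ∑ χ ∈ IC.Irr G, Pool.Agent.Y62.av (u ^ t) (ex p u θ) χ *
      (starRingEnd ℂ) (Pool.Agent.Y62.av (u' ^ t) (ex p u' θ') χ) =
      (Nat.card (CC u) : ℂ) * (Nat.card (CC u') : ℂ) *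
        ∑ χ ∈ IC.Irr G, (starRingEnd ℂ) (JJ p u t θ χ) * JJ p u' t θ' χ := by
    rw [Finset.mul_sum]
    refine Finset.sum_congr rfl fun χ _ => ?_
    rw [hav u θ hθc, hav u' θ' hθc', map_mul, Complex.conj_natCast, Complex.conj_conj]
    ring
  rw [h2, Finset.filter_false_of_mem, Finset.sum_empty] at h1
  · have hH0 : (Nat.card (CC u) : ℂ) ≠ 0 := by exact_mod_cast Nat.card_pos.ne'
    have hH1 : (Nat.card (CC u') : ℂ) ≠ 0 := by exact_mod_cast Nat.card_pos.ne'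
    exact (mul_eq_zero.mp h1).resolve_left (mul_ne_zero hH0 hH1)
  · intro x _ hx
    apply not_conj_pow hu hu' ht hc
    rw [isConj_iff]
    exact ⟨x⁻¹, by rw [inv_inv]; exact hx⟩

lemma mt_orth_sec {k k' : ℕ} {u u' : G} (hu : orderOf u = p ^ k) (hu' : orderOf u' = p ^ k')
    {t : ℕ} (ht : Nat.Coprime t p) (hc : ¬ IsConj u u') {b : Set (CC u → ℂ)}
    {b' : Set (CC u' → ℂ)} (hb : IsBlock O b) (hb' : IsBlock O b') {ψ ψ' : G → ℂ} :
    ∑ χ ∈ IC.Irr G, (starRingEnd ℂ) (mt p u t b ψ χ) * mt p u' t b' ψ' χ = 0 := by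
  have hirr : ∀ θ ∈ XB b, IsIrr θ := fun θ hθ => hb.irr _ ((mem_XB hb.irr).mp hθ)
  have hirr' : ∀ θ ∈ XB b', IsIrr θ := fun θ hθ => hb'.irr _ ((mem_XB hb'.irr).mp hθ)
  have h1 : ∀ χ : G → ℂ, (starRingEnd ℂ) (mt p u t b ψ χ) * mt p u' t b' ψ' χ =
      ∑ θ' ∈ XB b', ∑ θ ∈ XB b, (starRingEnd ℂ) (mm u' ψ' θ' * cu u' θ' ^ t) *
        ((mm u ψ θ * cu u θ ^ t) * ((starRingEnd ℂ) (JJ p u t θ χ) * JJ p u' t θ' χ)) := by
    intro χ
    unfold mt
    rw [map_sum, Finset.sum_mul_sum, Finset.sum_comm]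
    refine Finset.sum_congr rfl fun θ' _ => Finset.sum_congr rfl fun θ _ => ?_
    rw [map_mul, Complex.conj_conj]
    ring
  simp only [h1]
  rw [Finset.sum_comm]
  refine Finset.sum_eq_zero fun θ' hθ' => ?_
  rw [Finset.sum_comm]
  refine Finset.sum_eq_zero fun θ hθ => ?_
  rw [← Finset.mul_sum, ← Finset.mul_sum,
    JJ_orth_sec hu hu' ht hc (hirr θ hθ) (hirr' θ' hθ')]
  ring

end one

end Pool.Agent.Zk65.BF
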