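import Mathlib
import Pool.Agent.Zk65.BF1

/-!
Integrality, nonvanishing and Galois averages of the contributions.
-/

set_option autoImplicit false
set_option linter.style.haveILetI false
set_option linter.unusedSectionVars false

open scoped BigOperators Classical
open Pool.Agent.Helper884 Pool.Agent.H254R3.IN Pool.Agent.N20

noncomputable section

namespace Pool.Agent.Zk65.BF

variable {G : Type} [Group G] [Fintype G]

section gal

variable {p k : ℕ} [hp : Fact p.Prime] [NeZero (p ^ (k + 1))]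

/-- the Galois average of the square of an algebraic integer -/
lemma gal_sum (a : ZMod (p ^ (k + 1)) → ℤ) :
    ∑ t ∈ Finset.univ.filter (fun t => t ∉ NT p k),
      (starRingEnd ℂ) (∑ i, ch p k (t * i) * a i) * (∑ i, ch p k (t * i) * a i) =
      (p : ℂ) ^ k * ((p : ℂ) * ∑ i, (a i : ℂ) * a i -
        ∑ i, ∑ j, (if RR p k i j then (a i : ℂ) * a j else 0)) := by
  have h2 : ∀ (t : ZMod (p ^ (k + 1))),
      (starRingEnd ℂ) (∑ i, ch p k (t * i) * a i) * (∑ i, ch p k (t * i) * a i) =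
      ∑ i, ∑ j, ch p k (t * (j - i)) * ((a i : ℂ) * a j) := by
    intro t
    rw [map_sum, Finset.sum_mul_sum]
    refine Finset.sum_congr rfl fun i _ => Finset.sum_congr rfl fun j _ => ?_
    rw [map_mul, map_intCast, ← AddChar.map_neg_eq_conj, mul_sub, sub_eq_add_neg,
      AddChar.map_add_eq_mul]
    ring
  simp only [h2]
  rw [Finset.sum_comm]
  have h4 : ∀ i, ∑ t ∈ Finset.univ.filter (fun t => t ∉ NT p k),
      ∑ j, ch p k (t * (j - i)) * ((a i : ℂ) * a j) =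
      (p : ℂ) ^ (k + 1) * ((a i : ℂ) * a i) -
        (p : ℂ) ^ k * ∑ j, (if RR p k i j then (a i : ℂ) * a j else 0) := by
    intro i
    rw [Finset.sum_comm]
    have h5 : ∀ j, ∑ t ∈ Finset.univ.filter (fun t => t ∉ NT p k),
        ch p k (t * (j - i)) * ((a i : ℂ) * a j) =
        (if j = i then (p : ℂ) ^ (k + 1) * ((a i : ℂ) * a j) else 0) -
        (p : ℂ) ^ k * (if RR p k i j then (a i : ℂ) * a j else 0) := by
      intro j
      rw [← Finset.sum_mul, sum_units]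
      simp only [sub_eq_zero]
      have h6 : (p : ZMod (p ^ (k + 1))) * (j - i) = 0 ↔ RR p k i j := by
        rw [RR_comm]
        rfl
      simp only [h6]
      split_ifs <;> ring
    rw [Finset.sum_congr rfl (fun j _ => h5 j), Finset.sum_sub_distrib, Finset.sum_ite_eq',
      if_pos (Finset.mem_univ _), ← Finset.mul_sum]
  rw [Finset.sum_congr rfl (fun i _ => h4 i), Finset.sum_sub_distrib, ← Finset.mul_sum,
    ← Finset.mul_sum, pow_succ]
  ring

/-- **The Galois average is at least one.** -/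
lemma gal_ge (a : ZMod (p ^ (k + 1)) → ℤ) (h : ∑ i, ch p k i * a i ≠ 0) :
    ((p ^ k * (p - 1) : ℕ) : ℝ) ≤ ∑ t ∈ Finset.univ.filter (fun t => t ∉ NT p k),
      ‖∑ i, ch p k (t * i) * a i‖ ^ 2 := by
  have h1 := gal_sum a
  have h2 := pairs_sum (p := p) (k := k) a a
  have h3 := pair_count a h
  have h4 : (2 * (p - 1) : ℕ) ≤ ∑ i, ∑ j, (if RR p k i j then (a i - a j) * (a i - a j) else 0) := by
    calc ((2 * (p - 1) : ℕ) : ℤ) ≤ ((Finset.univ.filter
          (fun q : ZMod (p ^ (k + 1)) × ZMod (p ^ (k + 1)) =>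
            RR p k q.1 q.2 ∧ a q.1 ≠ a q.2)).card : ℤ) := by exact_mod_cast h3
      _ = ∑ q : ZMod (p ^ (k + 1)) × ZMod (p ^ (k + 1)),
          (if RR p k q.1 q.2 ∧ a q.1 ≠ a q.2 then (1 : ℤ) else 0) := by
          rw [Finset.card_filter]
          push_cast
          rfl
      _ ≤ ∑ q : ZMod (p ^ (k + 1)) × ZMod (p ^ (k + 1)),
          (if RR p k q.1 q.2 then (a q.1 - a q.2) * (a q.1 - a q.2) else 0) := by
          refine Finset.sum_le_sum fun q _ => ?_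
          by_cases hR : RR p k q.1 q.2
          · rw [if_pos hR]
            split_ifs with h5
            · have h6 : 0 < (a q.1 - a q.2) * (a q.1 - a q.2) :=
                mul_self_pos.mpr (sub_ne_zero.mpr h5.2)
              omega
            · exact mul_self_nonneg _
          · rw [if_neg hR, if_neg (fun h => hR h.1)]
      _ = _ := by rw [Fintype.sum_prod_type]
  rw [h2] at h4
  have hp1 := hp.out.one_lt
  have h5 : ((p - 1 : ℕ) : ℤ) ≤ p * ∑ i, a i * a i - ∑ i, ∑ j, (if RR p k i j then a i * a j else 0) := by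
    push_cast [Nat.cast_mul] at h4 ⊢
    linarith
  have h6 : ((∑ t ∈ Finset.univ.filter (fun t => t ∉ NT p k),
      ‖∑ i, ch p k (t * i) * a i‖ ^ 2 : ℝ) : ℂ) = (((p : ℤ) ^ k * (p * ∑ i, a i * a i -
        ∑ i, ∑ j, (if RR p k i j then a i * a j else 0)) : ℤ) : ℂ) := by
    push_cast
    rw [← h1]
    refine Finset.sum_congr rfl fun t _ => ?_
    rw [mul_comm, Complex.mul_conj']
  have h7 : (∑ t ∈ Finset.univ.filter (fun t => t ∉ NT p k),
      ‖∑ i, ch p k (t * i) * a i‖ ^ 2 : ℝ) = (((p : ℤ) ^ k * (p * ∑ i, a i * a i -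
        ∑ i, ∑ j, (if RR p k i j then a i * a j else 0)) : ℤ) : ℝ) := by
    apply Complex.ofReal_injective
    rw [h6, Complex.ofReal_intCast]
  rw [h7]
  have h8 : ((p ^ k * (p - 1) : ℕ) : ℤ) ≤ (p : ℤ) ^ k * (p * ∑ i, a i * a i -
        ∑ i, ∑ j, (if RR p k i j then a i * a j else 0)) := by
    rw [Nat.cast_mul]
    push_cast
    push_cast at h5
    exact mul_le_mul_of_nonneg_left h5 (by positivity)
  exact_mod_cast h8

end gal

section nonvan

variable {O : ValuationSubring ℂ} {p k : ℕ} [hp : Fact p.Prime] (hpO : (p : ℂ) ∈ O.nonunits)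
  {D : Subgroup G} {B : Set (G → ℂ)} (hB : IsBlock O B) (hD : IsDefectGroup p O B D)
  {u : G} (hu : orderOf u = p ^ k) {b : Set (CC u → ℂ)} (hb : IsBlock O b)
  {D' : Subgroup (CC u)} (hD' : IsDefectGroup p O b D') (hbB : Induces O B (CC u) b)

include hpO in
lemma cu_red (hu : orderOf u = p ^ k) {θ : CC u → ℂ} (hθ : IsIrr θ) (t : ℕ) :
    cu u θ ^ t ∈ O ∧ red O (cu u θ ^ t) = 1 ∧ (starRingEnd ℂ) (cu u θ ^ t) ∈ O ∧
      red O ((starRingEnd ℂ) (cu u θ ^ t)) = 1 := by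
  have h1 : (cu u θ ^ t) ^ p ^ k = 1 := by
    rw [← pow_mul, mul_comm, pow_mul, ← hu, cu_pow u hθ, one_pow]
  have h2 : ((starRingEnd ℂ) (cu u θ ^ t)) ^ p ^ k = 1 := by
    rw [← map_pow, h1, map_one]
  exact ⟨Pool.Agent.Y62.root_mem (pow_ne_zero _ hp.out.ne_zero) h1,
    Pool.Agent.Y62.red_root hpO h1,
    Pool.Agent.Y62.root_mem (pow_ne_zero _ hp.out.ne_zero) h2,
    Pool.Agent.Y62.red_root hpO h2⟩

/-- the degree of the `b`-part of the restriction modulo the maximal ideal -/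
def ab (O : ValuationSubring ℂ) (D' : Subgroup (CC u)) (b : Set (CC u → ℂ)) (ψ : G → ℂ) : RF O :=
  ∑ θ ∈ XB b, red O (mm u ψ θ) * red O (uu D' θ)

include hb in
lemma mm_mem {ψ : G → ℂ} (hψ : IsIrr ψ) {θ : CC u → ℂ} (hθ : θ ∈ b) : mm u ψ θ ∈ O := by
  obtain ⟨n, hn⟩ := mm_int u hψ (hb.irr θ hθ)
  rw [← hn]
  exact intCast_mem' n

include hpO hB hD hu hb hD' hbB in
lemma ab_ne {ψ : G → ℂ} (hψ : ψ ∈ B) (hh : HeightZero p D ψ) : ab O D' b ψ ≠ 0 := by
  have hψi := hB.irr ψ hψ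
  obtain ⟨θ₀, hθ₀, hne⟩ := exists_uu_ne hpO hb hD'
  have hθ₀i := hb.irr θ₀ hθ₀
  -- the value of the pairing
  have h1 : red O ((Nat.card D' : ℂ) * JJ p u 1 θ₀ ψ) = red O (uu D' θ₀) * sr p O ψ ψ := by
    rw [card_JJ2 D' hψi hθ₀i, red_mul (Pool.Agent.N20.uu_mem hpO hb hD' hθ₀) (TH_mem hψi hθ₀i),
      red_TH hpO hB hu hb hbB hψ hθ₀]
  have h2 : (Nat.card D' : ℂ) * JJ p u 1 θ₀ ψ =
      ∑ η ∈ XB b, mm u ψ η * cu u η ^ 1 * ((Nat.card D' : ℂ) * IC.B (cut p θ₀) η) := by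
    rw [JJ_eq hpO u hb hθ₀ hψi 1, Finset.mul_sum]
    refine Finset.sum_congr rfl fun η _ => ?_
    ring
  have hmem : ∀ η ∈ XB b, (Nat.card D' : ℂ) * IC.B (cut p θ₀) η ∈ O := by
    intro η hη
    obtain ⟨c, hc⟩ := contr_int hpO hb hD' hθ₀ ((mem_XB hb.irr).mp hη)
    rw [← hc]
    exact intCast_mem' c
  have hsym : ∀ η ∈ XB b, red O ((Nat.card D' : ℂ) * IC.B (cut p θ₀) η) =
      red O (uu D' η) * sr p O θ₀ θ₀ := by
    intro η hη
    have hηb := (mem_XB hb.irr).mp hη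
    have hηi := hb.irr η hηb
    rw [B_cut_comm, card_mul_B D' hηi (fun g y => hθ₀i.conj g y),
      red_mul (Pool.Agent.N20.uu_mem hpO hb hD' hηb) (SS_mem hηi hθ₀i), red_SS hηi hθ₀i,
      sr_block hb hηb hθ₀]
  rw [h2, red_sum] at h1
  · intro h0
    have h3 : ∑ η ∈ XB b, red O (mm u ψ η * cu u η ^ 1 * ((Nat.card D' : ℂ) * IC.B (cut p θ₀) η)) =
        ab O D' b ψ * sr p O θ₀ θ₀ := by
      unfold ab
      rw [Finset.sum_mul]
      refine Finset.sum_congr rfl fun η hη => ?_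
      have hηb := (mem_XB hb.irr).mp hη
      have hc := cu_red hpO hu (hb.irr η hηb) 1
      have hm := mm_mem (O := O) hb hψi hηb
      rw [red_mul (O.mul_mem _ _ hm hc.1) (hmem η hη), red_mul hm hc.1, hc.2.1, hsym η hη]
      ring
    rw [h3, h0, zero_mul] at h1
    have h4 : sr p O ψ ψ ≠ 0 := by
      rw [sr_eq hpO hB hD hψ hψ]
      exact mul_ne_zero (uu_unit hpO hψi hh) (cc_ne hpO hB hD hψ)
    exact (mul_ne_zero hne h4) h1.symm
  · intro η hη
    have hηb := (mem_XB hb.irr).mp hη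
    have hc := cu_red hpO hu (hb.irr η hηb) 1
    exact O.mul_mem _ _ (O.mul_mem _ _ (mm_mem (O := O) hb hψi hηb) hc.1) (hmem η hη)

include hpO hB hD hu hb hD' hbB in
/-- nonvanishing for major subsections -/
lemma mt_ne_major (hcard : Nat.card D' = Nat.card D) {ψ : G → ℂ} (hψ : ψ ∈ B)
    (hh : HeightZero p D ψ) {χ : G → ℂ} (hχ : χ ∈ B) : mt p u 1 b ψ χ ≠ 0 := by
  have hψi := hB.irr ψ hψ
  have hχi := hB.irr χ hχ
  have hD0 : (Nat.card D : ℂ) ≠ 0 := by exact_mod_cast Nat.card_pos.ne'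
  intro h0
  have h1 : uu D χ * ∑ θ ∈ XB b, (starRingEnd ℂ) (mm u ψ θ * cu u θ ^ 1) * TG p u χ θ = 0 := by
    have h2 : uu D χ * ∑ θ ∈ XB b, (starRingEnd ℂ) (mm u ψ θ * cu u θ ^ 1) * TG p u χ θ =
        (Nat.card D : ℂ) * mt p u 1 b ψ χ := by
      unfold mt
      rw [Finset.mul_sum, Finset.mul_sum]
      refine Finset.sum_congr rfl fun θ hθ => ?_
      have h3 := card_JJ hu D hχi (hb.irr θ ((mem_XB hb.irr).mp hθ))
      calc uu D χ * ((starRingEnd ℂ) (mm u ψ θ * cu u θ ^ 1) * TG p u χ θ)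
          = (starRingEnd ℂ) (mm u ψ θ * cu u θ ^ 1) * (uu D χ * TG p u χ θ) := by ring
        _ = _ := by rw [← h3]; ring
    rw [h2, h0, mul_zero]
  have h2 := (mul_eq_zero.mp h1).resolve_left (uu_ne hχi)
  have h3 := congrArg (red O) h2
  have hterm : ∀ θ ∈ XB b, (starRingEnd ℂ) (mm u ψ θ * cu u θ ^ 1) * TG p u χ θ ∈ O ∧
      red O ((starRingEnd ℂ) (mm u ψ θ * cu u θ ^ 1) * TG p u χ θ) =
        red O (mm u ψ θ) * red O (uu D' θ) * ccG O p D χ := by
    intro θ hθ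
    have hθb := (mem_XB hb.irr).mp hθ
    have hθi := hb.irr θ hθb
    have hc := cu_red hpO hu hθi 1
    have hm := mm_mem (O := O) hb hψi hθb
    have hcm : (starRingEnd ℂ) (mm u ψ θ) = mm u ψ θ := by
      obtain ⟨n, hn⟩ := mm_int u hψi hθi
      rw [← hn, map_intCast]
    rw [map_mul, hcm]
    refine ⟨O.mul_mem _ _ (O.mul_mem _ _ hm hc.2.2.1) (TG_mem hχi hθi), ?_⟩
    rw [red_mul (O.mul_mem _ _ hm hc.2.2.1) (TG_mem hχi hθi), red_mul hm hc.2.2.1, hc.2.2.2,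
      red_TG hpO hB hD hu hb hD' hcard hbB hχ hθb]
    ring
  rw [red_zero, red_sum _ _ (fun θ hθ => (hterm θ hθ).1),
    Finset.sum_congr rfl (fun θ hθ => (hterm θ hθ).2), ← Finset.sum_mul] at h3
  exact (mul_ne_zero (ab_ne hpO hB hD hu hb hD' hbB hψ hh) (cc_ne hpO hB hD hχ)) h3

include hpO hB hD hu hb hD' hbB in
/-- nonvanishing for characters of height zero -/
lemma mt_ne_zero {ψ : G → ℂ} (hψ : ψ ∈ B)
    (hh : HeightZero p D ψ) {χ : G → ℂ} (hχ : χ ∈ B) (hh' : HeightZero p D χ) :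
    mt p u 1 b ψ χ ≠ 0 := by
  have hψi := hB.irr ψ hψ
  have hχi := hB.irr χ hχ
  intro h0
  have h1 : ∑ θ ∈ XB b, (starRingEnd ℂ) (mm u ψ θ * cu u θ ^ 1) * (uu D' θ * TH p u χ θ) = 0 := by
    have h2 : ∑ θ ∈ XB b, (starRingEnd ℂ) (mm u ψ θ * cu u θ ^ 1) * (uu D' θ * TH p u χ θ) =
        (Nat.card D' : ℂ) * mt p u 1 b ψ χ := by
      unfold mt
      rw [Finset.mul_sum]
      refine Finset.sum_congr rfl fun θ hθ => ?_
      rw [← card_JJ2 D' hχi (hb.irr θ ((mem_XB hb.irr).mp hθ))]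
      ring
    rw [h2, h0, mul_zero]
  have h3 := congrArg (red O) h1
  have hterm : ∀ θ ∈ XB b,
      (starRingEnd ℂ) (mm u ψ θ * cu u θ ^ 1) * (uu D' θ * TH p u χ θ) ∈ O ∧
      red O ((starRingEnd ℂ) (mm u ψ θ * cu u θ ^ 1) * (uu D' θ * TH p u χ θ)) =
        red O (mm u ψ θ) * red O (uu D' θ) * sr p O χ χ := by
    intro θ hθ
    have hθb := (mem_XB hb.irr).mp hθ
    have hθi := hb.irr θ hθb
    have hc := cu_red hpO hu hθi 1
    have hm := mm_mem (O := O) hb hψi hθb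
    have hcm : (starRingEnd ℂ) (mm u ψ θ) = mm u ψ θ := by
      obtain ⟨n, hn⟩ := mm_int u hψi hθi
      rw [← hn, map_intCast]
    have hut : uu D' θ * TH p u χ θ ∈ O :=
      O.mul_mem _ _ (Pool.Agent.N20.uu_mem hpO hb hD' hθb) (TH_mem hχi hθi)
    rw [map_mul, hcm]
    refine ⟨O.mul_mem _ _ (O.mul_mem _ _ hm hc.2.2.1) hut, ?_⟩
    rw [red_mul (O.mul_mem _ _ hm hc.2.2.1) hut, red_mul hm hc.2.2.1, hc.2.2.2,
      red_mul (Pool.Agent.N20.uu_mem hpO hb hD' hθb) (TH_mem hχi hθi), red_TH hpO hB hu hb hbB hχ hθb]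
    ring
  rw [red_zero, red_sum _ _ (fun θ hθ => (hterm θ hθ).1),
    Finset.sum_congr rfl (fun θ hθ => (hterm θ hθ).2), ← Finset.sum_mul] at h3
  have h6 : sr p O χ χ ≠ 0 := by
    rw [sr_eq hpO hB hD hχ hχ]
    exact mul_ne_zero (uu_unit hpO hχi hh') (cc_ne hpO hB hD hχ)
  exact (mul_ne_zero (ab_ne hpO hB hD hu hb hD' hbB hψ hh) h6) h3

include hpO hb hD' in
/-- the contributions are algebraic integers of level `p ^ (K + 1)` -/
lemma mt_int {K : ℕ} [NeZero (p ^ (K + 1))] (hK : orderOf u ∣ p ^ (K + 1)) {ψ χ : G → ℂ}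
    (hψ : IsIrr ψ) (hχ : IsIrr χ) : ∃ a : ZMod (p ^ (K + 1)) → ℤ, ∀ t : ZMod (p ^ (K + 1)),
      (Nat.card D' : ℂ) * mt p u t.val b ψ χ = ∑ i, ch p K (t * i) * a i := by
  have hmem : ∀ θ : {θ // θ ∈ XB b}, (θ : CC u → ℂ) ∈ b := fun θ => (mem_XB hb.irr).mp θ.2
  have hirr : ∀ θ : {θ // θ ∈ XB b}, IsIrr (θ : CC u → ℂ) := fun θ => hb.irr _ (hmem θ)
  choose M hM using fun θ η : {θ // θ ∈ XB b} => contr_int hpO hb hD' (hmem θ) (hmem η)
  choose n hn using fun (η : {θ // θ ∈ XB b}) => mm_int u hχ (hirr η)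
  choose n' hn' using fun (η : {θ // θ ∈ XB b}) => mm_int u hψ (hirr η)
  have hcu : ∀ η : {θ // θ ∈ XB b}, ∃ j, ch p K j = cu u (η : CC u → ℂ) := by
    intro η
    apply exists_jj
    obtain ⟨c, hc⟩ := hK
    rw [hc, pow_mul, cu_pow u (hirr η), one_pow]
  choose jj hjj using hcu
  have hpw : ∀ (t : ZMod (p ^ (K + 1))) (η : {θ // θ ∈ XB b}),
      cu u (η : CC u → ℂ) ^ t.val = ch p K (t * jj η) := by
    intro t η
    rw [← hjj, ← AddChar.map_nsmul_eq_pow, nsmul_eq_mul, ZMod.natCast_zmod_val]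
  refine ⟨fun i => ∑ θ : {θ // θ ∈ XB b}, ∑ η : {θ // θ ∈ XB b},
    if jj η - jj θ = i then n' θ * M θ η * n η else 0, ?_⟩
  intro t
  have h1 : (Nat.card D' : ℂ) * mt p u t.val b ψ χ = ∑ θ : {θ // θ ∈ XB b},
      ∑ η : {θ // θ ∈ XB b}, ch p K (t * (jj η - jj θ)) * ((n' θ * M θ η * n η : ℤ) : ℂ) := by
    unfold mt
    rw [Finset.mul_sum, ← Finset.sum_coe_sort (XB b) (fun θ : CC u → ℂ => (Nat.card D' : ℂ) *
      ((starRingEnd ℂ) (mm u ψ θ * cu u θ ^ t.val) * JJ p u t.val θ χ))]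
    refine Finset.sum_congr rfl fun θ _ => ?_
    rw [JJ_eq hpO u hb (hmem θ) hχ t.val,
      ← Finset.sum_coe_sort (XB b) (fun η : CC u → ℂ =>
        mm u χ η * cu u η ^ t.val * IC.B (cut p (θ : CC u → ℂ)) η), Finset.mul_sum,
      Finset.mul_sum]
    refine Finset.sum_congr rfl fun η _ => ?_
    rw [hpw, hpw, ← hn', ← hn, map_mul, map_intCast, ← AddChar.map_neg_eq_conj]
    have h2 : ch p K (t * (jj η - jj θ)) = ch p K (-(t * jj θ)) * ch p K (t * jj η) := by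
      rw [← AddChar.map_add_eq_mul]
      congr 1
      ring
    rw [h2]
    push_cast
    rw [hM]
    ring
  rw [h1]
  have h3 : ∀ (θ : {θ // θ ∈ XB b}), ∑ x, ∑ η : {θ // θ ∈ XB b}, ch p K (t * x) *
      (if jj η - jj θ = x then (n' θ : ℂ) * M θ η * n η else 0) = ∑ η : {θ // θ ∈ XB b},
        ch p K (t * (jj η - jj θ)) * ((n' θ * M θ η * n η : ℤ) : ℂ) := by
    intro θ
    rw [Finset.sum_comm]
    refine Finset.sum_congr rfl fun η _ => ?_
    rw [Finset.sum_eq_single (jj η - jj θ)]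
    · rw [if_pos rfl]
      push_cast
      rfl
    · intro i _ hi
      rw [if_neg (Ne.symm hi), mul_zero]
    · intro h
      exact absurd (Finset.mem_univ _) h
  rw [← Finset.sum_congr rfl (fun θ _ => h3 θ), Finset.sum_comm]
  refine Finset.sum_congr rfl fun i _ => ?_
  push_cast
  simp only [Finset.mul_sum]

end nonvan

end Pool.Agent.Zk65.BF
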