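import Mathlib
import Pool.Agent.Zk65.BF2

/-!
The inequality of Brauer and Feit for several subsections.
-/

set_option autoImplicit false
set_option linter.style.haveILetI false
set_option linter.unusedSectionVars false

open scoped BigOperators Classical
open Pool.Agent.Helper884 Pool.Agent.H254R3.IN Pool.Agent.N20

noncomputable section

namespace Pool.Agent.Zk65.BF

variable {G : Type} [Group G] [Fintype G]

lemma height_of_unit {O : ValuationSubring ℂ} {p : ℕ} [hp : Fact p.Prime]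
    (hpO : (p : ℂ) ∈ O.nonunits) {D : Subgroup G} {χ : G → ℂ} (hχ : IsIrr χ)
    (hO : uu D χ ∈ O) (h : red O (uu D χ) ≠ 0) : HeightZero p D χ := by
  haveI := charP_RF hpO
  obtain ⟨n, hn0, hn⟩ := hχ.deg
  refine ⟨n, hn.symm, ?_⟩
  have hD0 : Nat.card D ≠ 0 := Nat.card_pos.ne'
  have hG0 : Nat.card G ≠ 0 := Nat.card_pos.ne'
  have hp0 : (p : ℂ) ≠ 0 := by exact_mod_cast hp.out.ne_zero
  have h1 : n * Nat.card D = p ^ (n.factorization p + (Nat.card D).factorization p) *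
      (ordCompl[p] n * ordCompl[p] (Nat.card D)) := by
    have e1 := Nat.ordProj_mul_ordCompl_eq_self n p
    have e2 := Nat.ordProj_mul_ordCompl_eq_self (Nat.card D) p
    conv_lhs => rw [← e1, ← e2]
    rw [pow_add]
    ring
  have h2 : Nat.card G = p ^ (Nat.card G).factorization p * ordCompl[p] (Nat.card G) :=
    (Nat.ordProj_mul_ordCompl_eq_self _ p).symm
  have hx : ¬ p ∣ ordCompl[p] n * ordCompl[p] (Nat.card D) := by
    intro hdvd
    rcases hp.out.dvd_mul.mp hdvd with h | h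
    · exact Nat.not_dvd_ordCompl hp.out hn0.ne' h
    · exact Nat.not_dvd_ordCompl hp.out hD0 h
  have hy : ¬ p ∣ ordCompl[p] (Nat.card G) := Nat.not_dvd_ordCompl hp.out hG0
  generalize ordCompl[p] n * ordCompl[p] (Nat.card D) = X at h1 hx
  generalize ordCompl[p] (Nat.card G) = Y at h2 hy
  generalize n.factorization p + (Nat.card D).factorization p = v at h1 ⊢
  generalize (Nat.card G).factorization p = a at h2 ⊢
  have h3 : uu D χ * ((p : ℂ) ^ a * Y) = (p : ℂ) ^ v * X := by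
    have h4 : χ 1 * Nat.card D = (p : ℂ) ^ v * X := by
      rw [← hn]
      exact_mod_cast h1
    have h5 : (Nat.card G : ℂ) = (p : ℂ) ^ a * Y := by exact_mod_cast h2
    have h6 : (Nat.card G : ℂ) ≠ 0 := by exact_mod_cast hG0
    rw [← h4, ← h5]
    unfold uu
    field_simp
  have hredp : ∀ c : ℕ, red O ((p : ℂ) ^ (c + 1)) = 0 := by
    intro c
    have h7 : ((p : ℂ) ^ (c + 1)) = ((p ^ (c + 1) : ℕ) : ℂ) := by push_cast; rfl
    rw [h7, red_natCast, Nat.cast_pow, CharP.cast_eq_zero, zero_pow (Nat.succ_ne_zero c)]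
  have hpm : ∀ c : ℕ, (p : ℂ) ^ c ∈ O := fun c => pow_mem (natCast_mem' p) c
  rcases lt_trichotomy v a with hlt | heq | hgt
  · exfalso
    obtain ⟨c, rfl⟩ := Nat.exists_eq_add_of_lt hlt
    have h4 : uu D χ * (p : ℂ) ^ (c + 1) * Y = X := by
      have h5 : (p : ℂ) ^ v * (uu D χ * (p : ℂ) ^ (c + 1) * Y) = (p : ℂ) ^ v * X := by
        rw [← h3]
        ring
      exact mul_left_cancel₀ (pow_ne_zero _ hp0) h5
    have h5 := congrArg (red O) h4
    rw [red_mul (O.mul_mem _ _ hO (hpm _)) (natCast_mem' Y), red_mul hO (hpm _), hredp, mul_zero,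
      zero_mul, red_natCast] at h5
    exact hx ((CharP.cast_eq_zero_iff (RF O) p X).mp h5.symm)
  · exact heq
  · exfalso
    obtain ⟨c, rfl⟩ := Nat.exists_eq_add_of_lt hgt
    have h4 : uu D χ * Y = (p : ℂ) ^ (c + 1) * X := by
      have h5 : (p : ℂ) ^ a * (uu D χ * Y) = (p : ℂ) ^ a * ((p : ℂ) ^ (c + 1) * X) := by
        rw [show (p : ℂ) ^ a * (uu D χ * Y) = uu D χ * ((p : ℂ) ^ a * Y) by ring, h3]
        ring
      exact mul_left_cancel₀ (pow_ne_zero _ hp0) h5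
    have h5 := congrArg (red O) h4
    rw [red_mul hO (natCast_mem' Y), red_mul (hpm _) (natCast_mem' X), hredp, zero_mul,
      red_natCast] at h5
    rcases mul_eq_zero.mp h5 with h6 | h6
    · exact h h6
    · exact hy ((CharP.cast_eq_zero_iff (RF O) p Y).mp h6)

/-- the elementary inequality -/
lemma sum_sub_sq_le {ι : Type*} (S : Finset ι) (x : ι → ℝ) (h1 : ∑ s ∈ S, x s ≤ 1)
    (h0 : ∀ s ∈ S, 0 ≤ x s) (hr : 2 ≤ S.card) :
    ∑ s ∈ S, (x s - x s ^ 2) ≤ 1 - 1 / (S.card : ℝ) := by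
  have hrR : (2 : ℝ) ≤ S.card := by exact_mod_cast hr
  have h2 := sq_sum_le_card_mul_sum_sq (s := S) (f := x)
  have h3 : 0 ≤ ∑ s ∈ S, x s := Finset.sum_nonneg h0
  rw [Finset.sum_sub_distrib]
  set σ := ∑ s ∈ S, x s
  set τ := ∑ s ∈ S, x s ^ 2
  set r : ℝ := ((S.card : ℕ) : ℝ)
  have hr0 : 0 < r := by linarith
  have h4 : σ ^ 2 / r ≤ τ := by
    rw [div_le_iff₀ hr0]
    linarith
  have h5 : σ - σ ^ 2 / r ≤ 1 - 1 / r := by
    have h6 : (1 - 1 / r) - (σ - σ ^ 2 / r) = (1 - σ) * (r - 1 - σ) / r := by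
      field_simp
      ring
    have h7 : 0 ≤ (1 - σ) * (r - 1 - σ) / r := by
      apply div_nonneg _ hr0.le
      apply mul_nonneg <;> linarith
    linarith
  linarith

/-- `s = (u, b)` is a `B`-subsection and the defect groups of the block `b` of `C_G(u)` have
order `q` -/
def IsSub (p : ℕ) (O : ValuationSubring ℂ) {G : Type} [Group G] (B : Set (G → ℂ))
    (s : (u : G) × Set (Subgroup.centralizer ({u} : Set G) → ℂ)) (q : ℕ) : Prop :=
  (∃ k, orderOf s.1 = p ^ k) ∧ IsBlock O s.2 ∧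
    Induces O B (Subgroup.centralizer ({s.1} : Set G)) s.2 ∧
    ∃ Q : Subgroup (Subgroup.centralizer ({s.1} : Set G)),
      IsDefectGroup p O s.2 Q ∧ Nat.card Q = q

section main

variable {O : ValuationSubring ℂ} {p : ℕ} [hp : Fact p.Prime] (hpO : (p : ℂ) ∈ O.nonunits)
  {D : Subgroup G} {B : Set (G → ℂ)} (hB : IsBlock O B) (hD : IsDefectGroup p O B D)

/-- the characters counted by a subsection -/
def good (p : ℕ) (D : Subgroup G) (B : Set (G → ℂ)) (q : ℕ) : Finset (G → ℂ) :=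
  (IC.Irr G).filter (fun χ => χ ∈ B ∧ (q = Nat.card D ∨ HeightZero p D χ))

include hpO in
lemma norm_sum {k : ℕ} {u : G} (hu : orderOf u = p ^ k) {t : ℕ} (ht : Nat.Coprime t p)
    {b : Set (CC u → ℂ)} (hb : IsBlock O b) {ψ : G → ℂ} (hψ : IsIrr ψ) :
    mt p u t b ψ ψ = ((∑ χ ∈ IC.Irr G, ‖mt p u t b ψ χ‖ ^ 2 : ℝ) : ℂ) := by
  rw [← mt_norm hpO hu ht hb hψ]
  push_cast
  refine Finset.sum_congr rfl fun χ _ => ?_
  rw [mul_comm, Complex.mul_conj']

include hpO hB hD in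
/-- the average over the Galois conjugates -/
lemma avg_ge {K : ℕ} [NeZero (p ^ (K + 1))] (hK : (Nat.card G).factorization p ≤ K)
    {s : (u : G) × Set (CC u → ℂ)} {q : ℕ} (hs : IsSub p O B s q) {ψ : G → ℂ} (hψ : ψ ∈ B)
    (hψh : HeightZero p D ψ) (T : Finset (G → ℂ)) (hT : T ⊆ good p D B q) :
    (T.card : ℝ) * ((p ^ K * (p - 1) : ℕ) : ℝ) / (q : ℝ) ^ 2 ≤
      ∑ t ∈ Finset.univ.filter (fun t : ZMod (p ^ (K + 1)) => t ∉ NT p K),
        ∑ χ ∈ T, ‖mt p s.1 t.val s.2 ψ χ‖ ^ 2 := by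
  obtain ⟨⟨k, hu⟩, hb, hbB, Q, hQ, rfl⟩ := hs
  have hψi := hB.irr ψ hψ
  have hq0 : (0 : ℝ) < Nat.card Q := by exact_mod_cast Nat.card_pos
  have hord : orderOf s.1 ∣ p ^ (K + 1) := by
    rw [hu]
    apply pow_dvd_pow
    have h1 : p ^ k ∣ Nat.card G := by
      rw [← hu]
      exact orderOf_dvd_natCard s.1
    have := (hp.out.pow_dvd_iff_le_factorization Nat.card_pos.ne').mp h1
    omega
  have hval1 : (1 : ZMod (p ^ (K + 1))).val = 1 := by
    haveI : Fact (1 < p ^ (K + 1)) := ⟨Nat.one_lt_pow (Nat.succ_ne_zero K) hp.out.one_lt⟩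
    exact ZMod.val_one _
  rw [Finset.sum_comm]
  have h1 : ∀ χ ∈ T, ((p ^ K * (p - 1) : ℕ) : ℝ) / (Nat.card Q : ℝ) ^ 2 ≤
      ∑ t ∈ Finset.univ.filter (fun t : ZMod (p ^ (K + 1)) => t ∉ NT p K),
        ‖mt p s.1 t.val s.2 ψ χ‖ ^ 2 := by
    intro χ hχ
    obtain ⟨-, hχB, hχ2⟩ := Finset.mem_filter.mp (hT hχ)
    have hχi := hB.irr χ hχB
    obtain ⟨a, ha⟩ := mt_int hpO hb hQ hord hψi hχi
    have hne : mt p s.1 1 s.2 ψ χ ≠ 0 := by
      rcases hχ2 with h | h
      · exact mt_ne_major hpO hB hD hu hb hQ hbB h hψ hψh hχB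
      · exact mt_ne_zero hpO hB hD hu hb hQ hbB hψ hψh hχB h
    have h2 := gal_ge a (by
      have h3 := ha 1
      rw [hval1] at h3
      simp only [one_mul] at h3
      rw [← h3]
      exact mul_ne_zero (by exact_mod_cast Nat.card_pos.ne') hne)
    rw [div_le_iff₀ (by positivity), Finset.sum_mul]
    refine h2.trans (le_of_eq ?_)
    refine Finset.sum_congr rfl fun t _ => ?_
    rw [← ha t, norm_mul, mul_pow, Complex.norm_natCast]
    ring
  calc (T.card : ℝ) * ((p ^ K * (p - 1) : ℕ) : ℝ) / (Nat.card Q : ℝ) ^ 2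
      = ∑ χ ∈ T, ((p ^ K * (p - 1) : ℕ) : ℝ) / (Nat.card Q : ℝ) ^ 2 := by
        rw [Finset.sum_const, nsmul_eq_mul]
        ring
    _ ≤ _ := Finset.sum_le_sum h1

include hpO hB hD in
/-- **The inequality for several subsections.** -/
theorem several (S : Finset ((u : G) × Set (CC u → ℂ)))
    (q : ((u : G) × Set (CC u → ℂ)) → ℕ) (hS : ∀ s ∈ S, IsSub p O B s (q s))
    (hconj : ∀ s ∈ S, ∀ s' ∈ S, IsConj s.1 s'.1 → s.1 = s'.1) :
    (∑ s ∈ S, ((good p D B (q s)).card : ℝ) / (q s : ℝ) ^ 2 ≤ 1) ∧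
    (2 ≤ S.card → ∑ s ∈ S, (((good p D B (q s)).card : ℝ) - 1) / (q s : ℝ) ^ 2 ≤
      1 - 1 / (S.card : ℝ)) := by
  obtain ⟨ψ, hψ, hψu⟩ := exists_uu_ne hpO hB hD
  have hψi := hB.irr ψ hψ
  have hψh : HeightZero p D ψ :=
    height_of_unit hpO hψi (Pool.Agent.N20.uu_mem hpO hB hD hψ) hψu
  have hψI : ψ ∈ IC.Irr G := mem_Irr.mpr hψi
  set K := (Nat.card G).factorization p with hK
  haveI : NeZero (p ^ (K + 1)) := ⟨pow_ne_zero _ hp.out.ne_zero⟩
  set U : ℝ := ((p ^ K * (p - 1) : ℕ) : ℝ) with hU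
  have hU0 : 0 < U := by
    rw [hU]
    have h1 := hp.out.one_lt
    have h2 : 0 < p ^ K * (p - 1) := Nat.mul_pos (pow_pos hp.out.pos K) (by omega)
    exact_mod_cast h2
  set TT := Finset.univ.filter (fun t : ZMod (p ^ (K + 1)) => t ∉ NT p K) with hTT
  have hTTc : (TT.card : ℝ) = U := by
    rw [hTT, card_compl_NT, hU]
  have hcop : ∀ t ∈ TT, Nat.Coprime t.val p := by
    intro t ht
    have h1 := (Finset.mem_filter.mp ht).2
    rw [mem_NT] at h1
    exact ((Nat.Prime.coprime_iff_not_dvd hp.out).mpr h1).symm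
  -- the norms
  set c : ((u : G) × Set (CC u → ℂ)) → ZMod (p ^ (K + 1)) → ℝ :=
    fun s t => ∑ χ ∈ IC.Irr G, ‖mt p s.1 t.val s.2 ψ χ‖ ^ 2 with hc
  have hc0 : ∀ s t, 0 ≤ c s t := fun s t => Finset.sum_nonneg fun _ _ => by positivity
  have hcm : ∀ s ∈ S, ∀ t ∈ TT, mt p s.1 t.val s.2 ψ ψ = (c s t : ℂ) := by
    intro s hs t ht
    obtain ⟨⟨k, hu⟩, hb, -, -⟩ := hS s hs
    exact norm_sum hpO hu (hcop t ht) hb hψi
  -- the sum of the norms is at most one
  have hsum : ∀ t ∈ TT, ∑ s ∈ S, c s t ≤ 1 := by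
    intro t ht
    have horth : ∀ s ∈ S, ∀ s' ∈ S, s ≠ s' →
        ∑ χ ∈ IC.Irr G, (starRingEnd ℂ) (mt p s.1 t.val s.2 ψ χ) * mt p s'.1 t.val s'.2 ψ χ = 0 := by
      intro s hs s' hs' hne
      obtain ⟨⟨k, hu⟩, hb, -, -⟩ := hS s hs
      obtain ⟨⟨k', hu'⟩, hb', -, -⟩ := hS s' hs'
      by_cases hconj' : IsConj s.1 s'.1
      · have h1 := hconj s hs s' hs' hconj'
        obtain ⟨u, b⟩ := s
        obtain ⟨u', b'⟩ := s'
        dsimp only at h1
        subst h1
        refine mt_orth_block hpO hu (hcop t ht) hb hb' ?_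
        intro h2
        apply hne
        change b = b' at h2
        rw [h2]
      · exact mt_orth_sec hu hu' (hcop t ht) hconj' hb hb'
    have h1 : ∑ χ ∈ IC.Irr G, ‖∑ s ∈ S, mt p s.1 t.val s.2 ψ χ‖ ^ 2 = ∑ s ∈ S, c s t := by
      apply Complex.ofReal_injective
      push_cast
      have h2 : ∀ χ : G → ℂ, ((‖∑ s ∈ S, mt p s.1 t.val s.2 ψ χ‖ : ℂ)) ^ 2 =
          ∑ s ∈ S, ∑ s' ∈ S, (starRingEnd ℂ) (mt p s.1 t.val s.2 ψ χ) *
            mt p s'.1 t.val s'.2 ψ χ := by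
        intro χ
        rw [← Complex.mul_conj', mul_comm, map_sum, Finset.sum_mul_sum]
      simp only [h2]
      rw [Finset.sum_comm]
      refine Finset.sum_congr rfl fun s hs => ?_
      rw [Finset.sum_comm, Finset.sum_eq_single s]
      · rw [hc]
        push_cast
        refine Finset.sum_congr rfl fun χ _ => ?_
        rw [mul_comm, Complex.mul_conj']
      · intro s' hs' hne
        exact horth s hs s' hs' (Ne.symm hne)
      · intro h
        exact absurd hs h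
    have h2 : ‖∑ s ∈ S, mt p s.1 t.val s.2 ψ ψ‖ ^ 2 ≤ ∑ s ∈ S, c s t := by
      rw [← h1]
      exact Finset.single_le_sum (f := fun χ => ‖∑ s ∈ S, mt p s.1 t.val s.2 ψ χ‖ ^ 2)
        (fun _ _ => by positivity) hψI
    have h3 : ∑ s ∈ S, mt p s.1 t.val s.2 ψ ψ = ((∑ s ∈ S, c s t : ℝ) : ℂ) := by
      push_cast
      exact Finset.sum_congr rfl fun s hs => hcm s hs t ht
    have h4 : 0 ≤ ∑ s ∈ S, c s t := Finset.sum_nonneg fun s _ => hc0 s t
    rw [h3, Complex.norm_real, Real.norm_eq_abs, sq_abs] at h2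
    by_contra hcon
    push Not at hcon
    nlinarith
  have havg : ∀ s ∈ S, ∀ T : Finset (G → ℂ), T ⊆ good p D B (q s) →
      (T.card : ℝ) * U / (q s : ℝ) ^ 2 ≤ ∑ t ∈ TT, ∑ χ ∈ T, ‖mt p s.1 t.val s.2 ψ χ‖ ^ 2 :=
    fun s hs T hT => avg_ge hpO hB hD le_rfl (hS s hs) hψ hψh T hT
  have hgI : ∀ n : ℕ, good p D B n ⊆ IC.Irr G := fun n => Finset.filter_subset _ _
  constructor
  · have h1 : (∑ s ∈ S, ((good p D B (q s)).card : ℝ) / (q s : ℝ) ^ 2) * U ≤ 1 * U := by
      calc (∑ s ∈ S, ((good p D B (q s)).card : ℝ) / (q s : ℝ) ^ 2) * U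
          = ∑ s ∈ S, ((good p D B (q s)).card : ℝ) * U / (q s : ℝ) ^ 2 := by
            rw [Finset.sum_mul]
            exact Finset.sum_congr rfl fun s _ => by ring
        _ ≤ ∑ s ∈ S, ∑ t ∈ TT, c s t := by
            refine Finset.sum_le_sum fun s hs => (havg s hs _ subset_rfl).trans ?_
            refine Finset.sum_le_sum fun t _ => ?_
            exact Finset.sum_le_sum_of_subset_of_nonneg (hgI _) (fun _ _ _ => by positivity)
        _ = ∑ t ∈ TT, ∑ s ∈ S, c s t := Finset.sum_comm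
        _ ≤ ∑ t ∈ TT, (1 : ℝ) := Finset.sum_le_sum hsum
        _ = 1 * U := by rw [Finset.sum_const, nsmul_eq_mul, hTTc]; ring
    exact le_of_mul_le_mul_right h1 hU0
  · intro hr
    have h1 : (∑ s ∈ S, (((good p D B (q s)).card : ℝ) - 1) / (q s : ℝ) ^ 2) * U ≤
        (1 - 1 / (S.card : ℝ)) * U := by
      calc (∑ s ∈ S, (((good p D B (q s)).card : ℝ) - 1) / (q s : ℝ) ^ 2) * U
          = ∑ s ∈ S, (((good p D B (q s)).erase ψ).card : ℝ) * U / (q s : ℝ) ^ 2 := by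
            rw [Finset.sum_mul]
            refine Finset.sum_congr rfl fun s _ => ?_
            have h2 : ψ ∈ good p D B (q s) := Finset.mem_filter.mpr ⟨hψI, hψ, Or.inr hψh⟩
            have h3 : (((good p D B (q s)).erase ψ).card : ℝ) = ((good p D B (q s)).card : ℝ) - 1 := by
              rw [← Finset.card_erase_add_one h2]
              push_cast
              ring
            rw [h3]
            ring
        _ ≤ ∑ s ∈ S, ∑ t ∈ TT, (c s t - c s t ^ 2) := by
            refine Finset.sum_le_sum fun s hs =>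
              (havg s hs _ (Finset.erase_subset _ _)).trans ?_
            refine Finset.sum_le_sum fun t ht => ?_
            have h2 : c s t = ‖mt p s.1 t.val s.2 ψ ψ‖ ^ 2 +
                ∑ χ ∈ (IC.Irr G).erase ψ, ‖mt p s.1 t.val s.2 ψ χ‖ ^ 2 :=
              (Finset.add_sum_erase _ (fun χ => ‖mt p s.1 t.val s.2 ψ χ‖ ^ 2) hψI).symm
            have h3 : ‖mt p s.1 t.val s.2 ψ ψ‖ ^ 2 = c s t ^ 2 := by
              rw [hcm s hs t ht, Complex.norm_real, Real.norm_eq_abs, sq_abs]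
            have h4 : ∑ χ ∈ (good p D B (q s)).erase ψ, ‖mt p s.1 t.val s.2 ψ χ‖ ^ 2 ≤
                ∑ χ ∈ (IC.Irr G).erase ψ, ‖mt p s.1 t.val s.2 ψ χ‖ ^ 2 :=
              Finset.sum_le_sum_of_subset_of_nonneg (Finset.erase_subset_erase _ (hgI _))
                (fun _ _ _ => by positivity)
            rw [h3] at h2
            linarith
        _ = ∑ t ∈ TT, ∑ s ∈ S, (c s t - c s t ^ 2) := Finset.sum_comm
        _ ≤ ∑ t ∈ TT, (1 - 1 / (S.card : ℝ)) :=
            Finset.sum_le_sum fun t ht => sum_sub_sq_le S (fun s => c s t) (hsum t ht)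
              (fun s _ => hc0 s t) hr
        _ = (1 - 1 / (S.card : ℝ)) * U := by rw [Finset.sum_const, nsmul_eq_mul, hTTc]; ring
    exact le_of_mul_le_mul_right h1 hU0

include hB in
lemma good_major : (good p D B (Nat.card D)).card = Nat.card B := by
  have h1 : good p D B (Nat.card D) = XB B := by
    unfold good XB
    refine Finset.filter_congr fun χ _ => ?_
    simp
  rw [h1, ← Fintype.card_coe, ← Nat.card_eq_fintype_card]
  exact Nat.card_congr (Equiv.subtypeEquivRight fun χ => mem_XB hB.irr)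

include hB in
lemma good_minor {n : ℕ} (hn : n ≠ Nat.card D) :
    (good p D B n).card = Nat.card {χ : G → ℂ // χ ∈ B ∧ HeightZero p D χ} := by
  rw [← Fintype.card_coe, ← Nat.card_eq_fintype_card]
  refine Nat.card_congr (Equiv.subtypeEquivRight fun χ => ?_)
  unfold good
  rw [Finset.mem_filter]
  constructor
  · rintro ⟨-, h1, h2⟩
    exact ⟨h1, h2.resolve_left hn⟩
  · rintro ⟨h1, h2⟩
    exact ⟨mem_Irr.mpr (hB.irr χ h1), h1, Or.inr h2⟩

end main

end Pool.Agent.Zk65.BF
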