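import Mathlib

/-!
# Two non-isomorphic groups of order 189 whose direct powers have the same subgroups

`G` is the semidirect product of `C_9 × C_7` by `C_3`, a generator acting by
`(4, 2)`; `G'` is the semidirect product with the action `(7, 2)`, realised on the same set by
the word operation `x ∘ y = x y [y, x]^7`.
-/

set_option autoImplicit false

namespace Pool.Agent.Zk65.Schmidt

/-- the powers of 4 in `ZMod 9` -/
def u (i : ZMod 3) : ZMod 9 := 4 ^ i.val

/-- the powers of 2 in `ZMod 7` -/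
def v (i : ZMod 3) : ZMod 7 := 2 ^ i.val

lemma u_add : ∀ i j, u (i + j) = u i * u j := by decide
lemma v_add : ∀ i j, v (i + j) = v i * v j := by decide
lemma u_zero : u 0 = 1 := by decide
lemma v_zero : v 0 = 1 := by decide
lemma u_neg : ∀ i, u (-i) * u i = 1 := by decide
lemma v_neg : ∀ i, v (-i) * v i = 1 := by decide

/-- The group `(C_9 × C_7) ⋊ C_3` with the action `(4, 2)`. -/
@[ext] structure GG where
  a : ZMod 9
  b : ZMod 7
  i : ZMod 3

/-- The group `(C_9 × C_7) ⋊ C_3` with the action `(7, 2)`, in opposite coordinates on `C_9`. -/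
@[ext] structure HH where
  a : ZMod 9
  b : ZMod 7
  i : ZMod 3

namespace GG

instance : Mul GG := ⟨fun x y => ⟨x.a + u x.i * y.a, x.b + v x.i * y.b, x.i + y.i⟩⟩
instance : One GG := ⟨⟨0, 0, 0⟩⟩
instance : Inv GG := ⟨fun x => ⟨-(u (-x.i) * x.a), -(v (-x.i) * x.b), -x.i⟩⟩

@[simp] lemma mul_a (x y : GG) : (x * y).a = x.a + u x.i * y.a := rfl
@[simp] lemma mul_b (x y : GG) : (x * y).b = x.b + v x.i * y.b := rfl
@[simp] lemma mul_i (x y : GG) : (x * y).i = x.i + y.i := rfl
@[simp] lemma one_a : (1 : GG).a = 0 := rfl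
@[simp] lemma one_b : (1 : GG).b = 0 := rfl
@[simp] lemma one_i : (1 : GG).i = 0 := rfl
@[simp] lemma inv_a (x : GG) : (x⁻¹).a = -(u (-x.i) * x.a) := rfl
@[simp] lemma inv_b (x : GG) : (x⁻¹).b = -(v (-x.i) * x.b) := rfl
@[simp] lemma inv_i (x : GG) : (x⁻¹).i = -x.i := rfl

instance : Group GG :=
  Group.ofLeftAxioms
    (by
      intro x y z
      ext
      · simp only [mul_a, mul_i, u_add]; ring
      · simp only [mul_b, mul_i, v_add]; ring
      · simp only [mul_i]; ring)
    (by
      intro x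
      ext <;> simp [u_zero, v_zero])
    (by
      intro x
      ext <;> simp)

end GG

namespace HH

instance : Mul HH := ⟨fun x y => ⟨y.a + u y.i * x.a, x.b + v x.i * y.b, x.i + y.i⟩⟩
instance : One HH := ⟨⟨0, 0, 0⟩⟩
instance : Inv HH := ⟨fun x => ⟨-(u (-x.i) * x.a), -(v (-x.i) * x.b), -x.i⟩⟩

@[simp] lemma mul_a (x y : HH) : (x * y).a = y.a + u y.i * x.a := rfl
@[simp] lemma mul_b (x y : HH) : (x * y).b = x.b + v x.i * y.b := rfl
@[simp] lemma mul_i (x y : HH) : (x * y).i = x.i + y.i := rfl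
@[simp] lemma one_a : (1 : HH).a = 0 := rfl
@[simp] lemma one_b : (1 : HH).b = 0 := rfl
@[simp] lemma one_i : (1 : HH).i = 0 := rfl
@[simp] lemma inv_a (x : HH) : (x⁻¹).a = -(u (-x.i) * x.a) := rfl
@[simp] lemma inv_b (x : HH) : (x⁻¹).b = -(v (-x.i) * x.b) := rfl
@[simp] lemma inv_i (x : HH) : (x⁻¹).i = -x.i := rfl

instance : Group HH :=
  Group.ofLeftAxioms
    (by
      intro x y z
      ext
      · simp only [mul_a, mul_i, u_add]; ring
      · simp only [mul_b, mul_i, v_add]; ring
      · simp only [mul_i]; ring)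
    (by
      intro x
      ext <;> simp [v_zero])
    (by
      intro x
      ext
      · simp only [mul_a, inv_a, one_a]
        have := u_neg x.i
        linear_combination (-x.a) * this
      · simp
      · simp)

end HH

/-- The identity map. -/
def e : GG ≃ HH where
  toFun x := ⟨x.a, x.b, x.i⟩
  invFun x := ⟨x.a, x.b, x.i⟩
  left_inv _ := rfl
  right_inv _ := rfl

lemma e_one : e 1 = 1 := rfl
lemma e_symm_one : e.symm 1 = 1 := rfl
lemma e_inv (x : GG) : e x⁻¹ = (e x)⁻¹ := rfl
lemma e_symm_inv (x : HH) : e.symm x⁻¹ = (e.symm x)⁻¹ := rfl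

lemma powG_a (x : GG) (h : x.i = 0) (n : ℕ) :
    (x ^ n).a = n * x.a ∧ (x ^ n).b = n * x.b ∧ (x ^ n).i = 0 := by
  induction n with
  | zero => simp
  | succ n ih =>
    obtain ⟨h1, h2, h3⟩ := ih
    rw [pow_succ]
    refine ⟨?_, ?_, ?_⟩
    · simp only [GG.mul_a, h1, h3, u_zero]; push_cast; ring
    · simp only [GG.mul_b, h2, h3, v_zero]; push_cast; ring
    · simp [h, h3]

lemma powH_a (x : HH) (h : x.i = 0) (n : ℕ) :
    (x ^ n).a = n * x.a ∧ (x ^ n).b = n * x.b ∧ (x ^ n).i = 0 := by
  induction n with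
  | zero => simp
  | succ n ih =>
    obtain ⟨h1, h2, h3⟩ := ih
    rw [pow_succ]
    refine ⟨?_, ?_, ?_⟩
    · simp only [HH.mul_a, h1, h, u_zero]; push_cast; ring
    · simp only [HH.mul_b, h2, h3, v_zero]; push_cast; ring
    · simp [h, h3]

/-- arithmetic in the `C_9`-part -/
lemma arithG : ∀ (i j : ZMod 3) (a c : ZMod 9),
    c + u j * a = (a + u i * c) + u (i + j) * (7 *
      (-(u (-j) * c) + u (-j) * (-(u (-i) * a)) + u (-j + -i) * c + u (-j + -i + j) * a)) := by
  decide

lemma seven : (7 : ZMod 7) = 0 := by decide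

/-- The operation of `HH` is given by a word in `GG`. -/
lemma word_G (x y : GG) : e.symm (e x * e y) = x * y * (y⁻¹ * x⁻¹ * y * x) ^ 7 := by
  have hi : (y⁻¹ * x⁻¹ * y * x).i = 0 := by simp
  obtain ⟨h1, h2, h3⟩ := powG_a _ hi 7
  ext
  · rw [GG.mul_a, h1]
    have := arithG x.i y.i x.a y.a
    simp only [GG.mul_a, GG.mul_i, GG.inv_a, GG.inv_i]
    change y.a + u y.i * x.a = _
    rw [this]
    norm_num
  · rw [GG.mul_b, h2]
    have : ((7 : ℕ) : ZMod 7) = 0 := by decide
    rw [this]
    simp only [GG.mul_b, zero_mul, mul_zero, add_zero]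
    rfl
  · rw [GG.mul_i, h3]
    simp only [GG.mul_i, add_zero]
    rfl

/-- arithmetic in the `C_9`-part of the second group -/
lemma arithH : ∀ (i j : ZMod 3) (a c : ZMod 9),
    a + u i * c = 7 * (a + u i * (c + u j * (-(u (-i) * a) + u (-i) * -(u (-j) * c)))) +
      (c + u j * a) := by
  decide

/-- The operation of `GG` is given by the same word in `HH`. -/
lemma word_H (x y : HH) : e (e.symm x * e.symm y) = x * y * (y⁻¹ * x⁻¹ * y * x) ^ 7 := by
  have hi : (y⁻¹ * x⁻¹ * y * x).i = 0 := by simp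
  obtain ⟨h1, h2, h3⟩ := powH_a _ hi 7
  ext
  · rw [HH.mul_a, h1, h3, u_zero]
    have := arithH x.i y.i x.a y.a
    simp only [HH.mul_a, HH.inv_a, HH.inv_i]
    change x.a + u x.i * y.a = _
    rw [this]
    norm_num
  · rw [HH.mul_b, h2]
    have : ((7 : ℕ) : ZMod 7) = 0 := by decide
    rw [this]
    simp only [HH.mul_b, zero_mul, mul_zero, add_zero]
    rfl
  · rw [HH.mul_i, h3]
    simp only [HH.mul_i, add_zero]
    rfl

/-- The groups are not isomorphic. -/
lemma not_iso : IsEmpty (HH ≃* GG) := by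
  constructor
  intro f'
  let f : GG ≃* HH := f'.symm
  let a : GG := ⟨1, 0, 0⟩
  let b : GG := ⟨0, 1, 0⟩
  let t : GG := ⟨0, 0, 1⟩
  have hb7 : b ^ 7 = 1 := by
    obtain ⟨h1, h2, h3⟩ := powG_a b rfl 7
    ext
    · rw [h1]; decide
    · rw [h2]; decide
    · rw [h3]; rfl
  have ha9 : a ^ 9 = 1 := by
    obtain ⟨h1, h2, h3⟩ := powG_a a rfl 9
    ext
    · rw [h1]; decide
    · rw [h2]; decide
    · rw [h3]; rfl
  have ha3 : a ^ 3 ≠ 1 := by
    intro h
    obtain ⟨h1, -, -⟩ := powG_a a rfl 3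
    rw [h] at h1
    revert h1
    decide
  have hb1 : b ≠ 1 := by
    intro h
    have := congrArg GG.b h
    revert this
    decide
  have hab : a * b = b * a := by ext <;> decide
  have htb : t * b = b ^ 2 * t := by rw [pow_two]; ext <;> decide
  have hta : t * a = a ^ 4 * t := by
    obtain ⟨h1, h2, h3⟩ := powG_a a rfl 4
    ext
    · rw [GG.mul_a, GG.mul_a, h1, h3]; decide
    · rw [GG.mul_b, GG.mul_b, h2, h3]; decide
    · rw [GG.mul_i, GG.mul_i, h3]; decide
  -- the images
  have hB7 : f b ^ 7 = 1 := by rw [← map_pow, hb7, map_one]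
  have hA9 : f a ^ 9 = 1 := by rw [← map_pow, ha9, map_one]
  have hA3 : f a ^ 3 ≠ 1 := by
    rw [← map_pow]
    intro h
    exact ha3 (f.injective (h.trans (map_one f).symm))
  have hB1 : f b ≠ 1 := by
    intro h
    exact hb1 (f.injective (h.trans (map_one f).symm))
  have hAB : f a * f b = f b * f a := by rw [← map_mul, hab, map_mul]
  have hTB : f t * f b = f b ^ 2 * f t := by rw [← map_mul, htb, map_mul, map_pow]
  have hTA : f t * f a = f a ^ 4 * f t := by rw [← map_mul, hta, map_mul, map_pow]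
  generalize f a = A at *
  generalize f b = B at *
  generalize f t = T at *
  have powi : ∀ (x : HH) (n : ℕ), (x ^ n).i = n * x.i := by
    intro x n
    induction n with
    | zero => simp
    | succ n ih => rw [pow_succ, HH.mul_i, ih]; push_cast; ring
  have hBi : B.i = 0 := by
    have h := congrArg HH.i hB7
    rw [powi] at h
    have h7 : ((7 : ℕ) : ZMod 3) = 1 := by decide
    rw [h7, one_mul] at h
    exact h
  have hBa : B.a = 0 := by
    have h := congrArg HH.a hB7
    rw [(powH_a B hBi 7).1] at h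
    have key : ∀ x : ZMod 9, ((7 : ℕ) : ZMod 9) * x = 0 → x = 0 := by decide
    exact key _ h
  have hBb : B.b ≠ 0 := by
    intro h
    apply hB1
    ext
    · exact hBa
    · exact h
    · exact hBi
  have hAi : A.i = 0 := by
    have h := congrArg HH.b hAB
    rw [HH.mul_b, HH.mul_b, hBi, v_zero, one_mul] at h
    have key : ∀ (s : ZMod 3) (x y : ZMod 7), x ≠ 0 → y + v s * x = x + y → s = 0 := by decide
    exact key _ _ _ hBb h
  have hTi : T.i = 1 := by
    have h := congrArg HH.b hTB
    rw [HH.mul_b, HH.mul_b, (powH_a B hBi 2).2.1, (powH_a B hBi 2).2.2, v_zero, one_mul] at h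
    have key : ∀ (s : ZMod 3) (x y : ZMod 7), x ≠ 0 →
        y + v s * x = ((2 : ℕ) : ZMod 7) * x + y → s = 1 := by decide
    exact key _ _ _ hBb h
  have h := congrArg HH.a hTA
  rw [HH.mul_a, HH.mul_a, (powH_a A hAi 4).1, hAi, hTi, u_zero, one_mul] at h
  have key : ∀ x y : ZMod 9, x + y = y + u 1 * (((4 : ℕ) : ZMod 9) * x) →
      ((3 : ℕ) : ZMod 9) * x = 0 := by decide
  have h3 := key _ _ h
  have hAb : A.b = 0 := by
    have h := congrArg HH.b hA9
    rw [(powH_a A hAi 9).2.1] at h
    have key : ∀ x : ZMod 7, ((9 : ℕ) : ZMod 7) * x = 0 → x = 0 := by decide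
    exact key _ h
  apply hA3
  obtain ⟨k1, k2, k3⟩ := powH_a A hAi 3
  ext
  · rw [k1]; exact h3
  · rw [k2, hAb, mul_zero]; rfl
  · rw [k3]; rfl

section Transport

variable {ι : Type}

/-- Closure under the word. -/
lemma mem_word {G H : Type} [Group G] [Group H] (φ : G → H) (ψ : H → G)
    (hw : ∀ x y : G, ψ (φ x * φ y) = x * y * (y⁻¹ * x⁻¹ * y * x) ^ 7)
    (L : Subgroup (ι → G)) (f g : ι → G) (hf : f ∈ L) (hg : g ∈ L) :
    (fun i => ψ (φ (f i) * φ (g i))) ∈ L := by
  have : (fun i => ψ (φ (f i) * φ (g i))) = f * g * (g⁻¹ * f⁻¹ * g * f) ^ 7 := by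
    funext i
    rw [hw]
    rfl
  rw [this]
  exact L.mul_mem (L.mul_mem hf hg)
    (L.pow_mem (L.mul_mem (L.mul_mem (L.mul_mem (L.inv_mem hg) (L.inv_mem hf)) hg) hf) 7)

/-- The subgroup of `HH ^ ι` with the same elements. -/
def toH (L : Subgroup (ι → GG)) : Subgroup (ι → HH) where
  carrier := {f | (fun i => e.symm (f i)) ∈ L}
  mul_mem' := by
    intro f g hf hg
    have h := mem_word (G := GG) (H := HH) e e.symm word_G L
      (fun i => e.symm (f i)) (fun i => e.symm (g i)) hf hg
    simp only [Equiv.apply_symm_apply] at h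
    exact h
  one_mem' := by
    have h : (fun i => e.symm ((1 : ι → HH) i)) = (1 : ι → GG) := by
      funext i
      exact e_symm_one
    exact (congrArg (· ∈ L) h).mpr L.one_mem
  inv_mem' := by
    intro f hf
    have h : (fun i => e.symm ((f⁻¹) i)) = (fun i => e.symm (f i))⁻¹ := by
      funext i
      exact e_symm_inv _
    have hf' : (fun i => e.symm (f i)) ∈ L := hf
    exact (congrArg (· ∈ L) h).mpr (L.inv_mem hf')

/-- The subgroup of `GG ^ ι` with the same elements. -/
def toG (L : Subgroup (ι → HH)) : Subgroup (ι → GG) where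
  carrier := {f | (fun i => e (f i)) ∈ L}
  mul_mem' := by
    intro f g hf hg
    have h := mem_word (G := HH) (H := GG) e.symm e word_H L
      (fun i => e (f i)) (fun i => e (g i)) hf hg
    simp only [Equiv.symm_apply_apply] at h
    exact h
  one_mem' := by
    have h : (fun i => e ((1 : ι → GG) i)) = (1 : ι → HH) := by
      funext i
      exact e_one
    exact (congrArg (· ∈ L) h).mpr L.one_mem
  inv_mem' := by
    intro f hf
    have h : (fun i => e ((f⁻¹) i)) = (fun i => e (f i))⁻¹ := by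
      funext i
      exact e_inv _
    have hf' : (fun i => e (f i)) ∈ L := hf
    exact (congrArg (· ∈ L) h).mpr (L.inv_mem hf')

lemma mem_toH (L : Subgroup (ι → GG)) (f : ι → HH) :
    f ∈ toH L ↔ (fun i => e.symm (f i)) ∈ L := Iff.rfl

lemma mem_toG (L : Subgroup (ι → HH)) (f : ι → GG) :
    f ∈ toG L ↔ (fun i => e (f i)) ∈ L := Iff.rfl

/-- The lattice isomorphism. -/
def latticeIso (ι : Type) : Subgroup (ι → GG) ≃o Subgroup (ι → HH) where
  toFun := toH
  invFun := toG
  left_inv L := by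
    ext f
    rw [mem_toG, mem_toH]
    simp only [Equiv.symm_apply_apply]
  right_inv L := by
    ext f
    rw [mem_toH, mem_toG]
    simp only [Equiv.apply_symm_apply]
  map_rel_iff' := by
    intro L M
    constructor
    · intro h f hf
      have h1 : (fun i => e (f i)) ∈ toH L := by
        rw [mem_toH]
        simpa only [Equiv.symm_apply_apply] using hf
      have h2 := h h1
      rw [Equiv.coe_fn_mk, mem_toH] at h2
      simpa only [Equiv.symm_apply_apply] using h2
    · intro h f hf
      rw [Equiv.coe_fn_mk, mem_toH] at hf ⊢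
      exact h hf

end Transport

lemma lattice_range (n : ℕ) (i : Fin n) :
    latticeIso (Fin n) (MonoidHom.mulSingle (fun _ : Fin n => GG) i).range =
      (MonoidHom.mulSingle (fun _ : Fin n => HH) i).range := by
  ext f
  change f ∈ toH _ ↔ _
  rw [mem_toH, MonoidHom.mem_range, MonoidHom.mem_range]
  constructor
  · rintro ⟨g, hg⟩
    refine ⟨e g, ?_⟩
    funext j
    have := congrFun hg j
    simp only [MonoidHom.mulSingle_apply] at this ⊢
    by_cases hj : j = i
    · subst hj
      rw [Pi.mulSingle_eq_same] at this ⊢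
      rw [this]; exact e.apply_symm_apply _
    · rw [Pi.mulSingle_eq_of_ne hj] at this ⊢
      have h2 := congrArg e this
      rw [e.apply_symm_apply] at h2
      exact h2
  · rintro ⟨g, rfl⟩
    refine ⟨e.symm g, ?_⟩
    funext j
    simp only [MonoidHom.mulSingle_apply]
    by_cases hj : j = i
    · subst hj
      rw [Pi.mulSingle_eq_same, Pi.mulSingle_eq_same]
    · rw [Pi.mulSingle_eq_of_ne hj, Pi.mulSingle_eq_of_ne hj]
      rfl

end Pool.Agent.Zk65.Schmidt
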