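import Pool.Agent.Zk11.LC.St

set_option autoImplicit false

namespace Pool.Agent.Zk65

open Finset Pool.Agent.Zk11.LC

theorem lc_total2 (hOP : Pool.Agent.Zk11.LC.OffPair) : Pool.Agent.Zk11.LC.Total2 := by
  intro ρ h L R J Q ℳ x y hL1 hh hR hy hyx hQJ hQ hM hRy hRm
  have hL : 0 < L := hL1
  have hL' : (0 : ℝ) < L := by exact_mod_cast hL
  have hh' : (0 : ℝ) < h := by exact_mod_cast hh
  obtain ⟨ℬ, hℬ⟩ : ∃ ℬ : Finset (ℕ × ℕ), ℬ = range J ×ˢ range L := ⟨_, rfl⟩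
  have hQB : ∀ p ∈ Q, (p / h, p % L) ∈ ℬ := by
    intro p hp
    rw [hℬ, mem_product, mem_range, mem_range]
    exact ⟨hQJ p hp, Nat.mod_lt _ hL⟩
  have hmR : ∀ m ∈ ℳ, m * h ≤ R := by
    intro m hm
    have h1 := (hM m hm).2.2.2
    have : ((m * h : ℕ) : ℝ) ≤ R := by
      push_cast
      exact (mul_le_mul_of_nonneg_right h1 hh'.le).trans hRm
    exact_mod_cast this
  have hc : (((ℬ ×ˢ ℬ).card : ℕ) : ℝ) = (J * L) ^ 2 := by
    rw [card_product, hℬ, card_product, card_range, card_range]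
    push_cast
    ring
  obtain ⟨C, hC⟩ : ∃ C : ℝ, C = 4 * ((4 * y * h / x / L + 1) * (h / L + 1)) / y +
      4 * Real.sqrt (2 * y) := ⟨_, rfl⟩
  rw [← hC]
  have hoff : ∀ m' ∈ ℳ, ((∑ m ∈ ℳ.erase m', TT ρ h L Q m m' : ℕ) : ℝ) ≤ (J * L) ^ 2 * C := by
    intro m' hm'
    have h1 : ∑ m ∈ ℳ.erase m', TT ρ h L Q m m' =
        (((ℳ.erase m') ×ˢ (Q ×ˢ Q)).filter fun v : ℕ × (ℕ × ℕ) =>
          val ρ h L v.1 v.2.1 = val ρ h L m' v.2.2).card := by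
      rw [card_filter, sum_product]
      refine sum_congr rfl fun m _ => ?_
      unfold TT
      rw [card_filter]
    have h2 : (((ℳ.erase m') ×ˢ (Q ×ˢ Q)).filter fun v : ℕ × (ℕ × ℕ) =>
          val ρ h L v.1 v.2.1 = val ρ h L m' v.2.2).card =
        ∑ w ∈ ℬ ×ˢ ℬ, (((ℳ.erase m') ×ˢ (Q ×ˢ Q)).filter fun v : ℕ × (ℕ × ℕ) =>
          val ρ h L v.1 v.2.1 = val ρ h L m' v.2.2 ∧
            (v.2.1 / h, v.2.1 % L) = w.1 ∧ (v.2.2 / h, v.2.2 % L) = w.2).card := by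
      rw [card_eq_sum_card_fiberwise (f := fun v : ℕ × (ℕ × ℕ) =>
        (((v.2.1 / h, v.2.1 % L), (v.2.2 / h, v.2.2 % L)) : (ℕ × ℕ) × (ℕ × ℕ))) (t := ℬ ×ˢ ℬ)]
      · refine sum_congr rfl fun w _ => ?_
        rw [filter_filter]
        congr 1
        refine filter_congr fun v _ => ?_
        rw [Prod.ext_iff]
      · intro v hv
        rw [mem_coe, mem_filter, mem_product, mem_product] at hv
        rw [mem_coe, mem_product]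
        exact ⟨hQB _ hv.1.2.1, hQB _ hv.1.2.2⟩
    rw [h1, h2, Nat.cast_sum]
    calc ∑ w ∈ ℬ ×ˢ ℬ, (((((ℳ.erase m') ×ˢ (Q ×ˢ Q)).filter fun v : ℕ × (ℕ × ℕ) =>
          val ρ h L v.1 v.2.1 = val ρ h L m' v.2.2 ∧
            (v.2.1 / h, v.2.1 % L) = w.1 ∧ (v.2.2 / h, v.2.2 % L) = w.2).card : ℕ) : ℝ) ≤
        ∑ w ∈ ℬ ×ˢ ℬ, C := sum_le_sum fun w _ => by
          rw [hC]
          exact hOP ρ h L Q ℳ x y hL1 hh hy hyx hQ hM m' hm' w.1 w.2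
      _ = (J * L) ^ 2 * C := by rw [sum_const, nsmul_eq_mul, hc]
  have hdiag : ∀ m ∈ ℳ, (TT ρ h L Q m m : ℝ) ≤ AA ρ h L R ℬ m m * ((h : ℝ) / L + 1) := by
    intro m hm
    have h2 := TT_le ρ hh hL hR hQB (hM m hm).1 (hM m hm).1 (hmR m hm) (hmR m hm)
      (hM m hm).2.1 hy (hM m hm).2.2.1
    rwa [if_pos rfl] at h2
  have hD := sum_AA_diag ρ (J := J) hh hL hR hy (fun m hm => (hM m hm).2.2) hRy
  rw [← hℬ] at hD
  calc ((∑ m ∈ ℳ, ∑ m' ∈ ℳ, TT ρ h L Q m m' : ℕ) : ℝ) =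
      ∑ m' ∈ ℳ, ((TT ρ h L Q m' m' : ℝ) + ((∑ m ∈ ℳ.erase m', TT ρ h L Q m m' : ℕ) : ℝ)) := by
        rw [sum_comm, Nat.cast_sum]
        refine sum_congr rfl fun m' hm' => ?_
        rw [← add_sum_erase ℳ _ hm', Nat.cast_add]
    _ ≤ ∑ m' ∈ ℳ, ((AA ρ h L R ℬ m' m' : ℝ) * ((h : ℝ) / L + 1) + (J * L) ^ 2 * C) :=
        sum_le_sum fun m' hm' => add_le_add (hdiag m' hm') (hoff m' hm')
    _ = ((∑ m ∈ ℳ, AA ρ h L R ℬ m m : ℕ) : ℝ) * ((h : ℝ) / L + 1) +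
        (J * L) ^ 2 * ℳ.card * C := by
        rw [sum_add_distrib, ← sum_mul, sum_const, nsmul_eq_mul, Nat.cast_sum]
        ring
    _ ≤ _ := by
        refine add_le_add (mul_le_mul_of_nonneg_right hD (by positivity)) le_rfl

end Pool.Agent.Zk65
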