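import Mathlib

/-!
# Weak limits along ultrafilters in reflexive spaces, and the interlacing argument of Kalton
-/

set_option autoImplicit false

namespace Pool.Agent.Zk65.Refl

open Filter Topology

lemma ulim_real {I : Type*} (U : Ultrafilter I) (f : I → ℝ) (B : ℝ) (h : ∀ i, |f i| ≤ B) :
    ∃ c, Tendsto f U (𝓝 c) := by
  have hc : IsCompact (Set.Icc (-B) B) := isCompact_Icc
  have hle : ((Ultrafilter.map f U : Ultrafilter ℝ) : Filter ℝ) ≤ 𝓟 (Set.Icc (-B) B) := by
    rw [le_principal_iff, Ultrafilter.coe_map, mem_map]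
    refine Filter.univ_mem' fun i => ?_
    exact abs_le.1 (h i)
  obtain ⟨c, -, hc⟩ := hc.ultrafilter_le_nhds (Ultrafilter.map f U) hle
  exact ⟨c, hc⟩

lemma dual_lim {I V : Type*} [NormedAddCommGroup V] [NormedSpace ℝ V] (U : Ultrafilter I)
    (T : I → StrongDual ℝ V) (B : ℝ) (hB : ∀ i, ‖T i‖ ≤ B) :
    ∃ S : StrongDual ℝ V, ‖S‖ ≤ B ∧ ∀ v, Tendsto (fun i => T i v) U (𝓝 (S v)) := by
  have hB0 : 0 ≤ B := by
    obtain ⟨i, -⟩ := (U : Filter I).nonempty_of_mem univ_mem
    exact (norm_nonneg _).trans (hB i)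
  have h1 : ∀ v, ∀ i, |T i v| ≤ B * ‖v‖ := fun v i =>
    ((T i).le_opNorm v).trans (mul_le_mul_of_nonneg_right (hB i) (norm_nonneg _))
  choose c hc using fun v => ulim_real U (fun i => T i v) _ (h1 v)
  let L : V →ₗ[ℝ] ℝ :=
    { toFun := c
      map_add' := by
        intro v w
        refine tendsto_nhds_unique (hc (v + w)) ?_
        have := (hc v).add (hc w)
        simpa using this
      map_smul' := by
        intro r v
        refine tendsto_nhds_unique (hc (r • v)) ?_
        have := (hc v).const_mul r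
        simpa using this }
  refine ⟨L.mkContinuous B ?_, L.mkContinuous_norm_le hB0 _, ?_⟩
  · intro v
    change |c v| ≤ B * ‖v‖
    exact le_of_tendsto (hc v).abs (Filter.Eventually.of_forall (h1 v))
  · intro v
    exact hc v

section Reflexive

variable {E : Type*} [NormedAddCommGroup E] [NormedSpace ℝ E]

lemma weak_lim (hrefl : Function.Surjective (NormedSpace.inclusionInDoubleDual ℝ E))
    {I : Type*} (U : Ultrafilter I) (x : I → E) (B : ℝ) (hB : ∀ i, ‖x i‖ ≤ B) :
    ∃ w : E, ‖w‖ ≤ B ∧ ∀ φ : StrongDual ℝ E, Tendsto (fun i => φ (x i)) U (𝓝 (φ w)) := by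
  have hB0 : 0 ≤ B := by
    obtain ⟨i, -⟩ := (U : Filter I).nonempty_of_mem univ_mem
    exact (norm_nonneg _).trans (hB i)
  obtain ⟨S, hS, hS'⟩ := dual_lim U (fun i => NormedSpace.inclusionInDoubleDual ℝ E (x i)) B
    (fun i => (NormedSpace.double_dual_bound ℝ E (x i)).trans (hB i))
  obtain ⟨w, rfl⟩ := hrefl S
  refine ⟨w, ?_, hS'⟩
  refine NormedSpace.norm_le_dual_bound ℝ w hB0 fun φ => ?_
  have := (NormedSpace.inclusionInDoubleDual ℝ E w).le_opNorm φ
  exact this.trans (mul_le_mul_of_nonneg_right hS (norm_nonneg _))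

/-- A point which is a weak limit is in the closed convex hull. -/
lemma mazur {I : Type*} (U : Ultrafilter I) (x : I → E) (w : E)
    (h : ∀ φ : StrongDual ℝ E, Tendsto (fun i => φ (x i)) U (𝓝 (φ w))) (S : Set I)
    (hS : S ∈ U) : w ∈ closure (convexHull ℝ (x '' S)) := by
  by_contra hw
  obtain ⟨φ, u, h1, h2⟩ := geometric_hahn_banach_point_closed
    (convex_convexHull ℝ (x '' S)).closure isClosed_closure hw
  have h3 : u ≤ φ w := by
    refine ge_of_tendsto (h φ) ?_
    filter_upwards [hS] with i hi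
    exact (h2 _ (subset_closure (subset_convexHull ℝ _ ⟨i, hi, rfl⟩))).le
  exact absurd h1 (not_lt.2 h3)

end Reflexive

/-! ### iterated quantifiers -/

section Iter

variable (U : Ultrafilter ℕ)

/-- iterated `U`-quantifier for pairs of lists -/
def Q : ℕ → (List ℕ → List ℕ → Prop) → List ℕ → List ℕ → Prop
  | 0, P, l, m => P l m
  | n + 1, P, l, m => ∀ᶠ a in (U : Filter ℕ), ∀ᶠ b in (U : Filter ℕ), Q n P (l ++ [a]) (m ++ [b])

/-- iterated `U`-quantifier for lists -/
def Q1 : ℕ → (List ℕ → Prop) → List ℕ → Prop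
  | 0, P, l => P l
  | n + 1, P, l => ∀ᶠ a in (U : Filter ℕ), Q1 n P (l ++ [a])

variable {U}

lemma Q_mono {P R : List ℕ → List ℕ → Prop} (h : ∀ l m, P l m → R l m) :
    ∀ (n : ℕ) (l m : List ℕ), Q U n P l m → Q U n R l m := by
  intro n
  induction n with
  | zero => exact h
  | succ n ih =>
    intro l m hP
    filter_upwards [hP] with a ha
    filter_upwards [ha] with b hb
    exact ih _ _ hb

lemma Q_and {P R : List ℕ → List ℕ → Prop} :
    ∀ (n : ℕ) (l m : List ℕ), Q U n P l m → Q U n R l m →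
      Q U n (fun l m => P l m ∧ R l m) l m := by
  intro n
  induction n with
  | zero => exact fun l m h1 h2 => ⟨h1, h2⟩
  | succ n ih =>
    intro l m hP hR
    filter_upwards [hP, hR] with a ha ha'
    filter_upwards [ha, ha'] with b hb hb'
    exact ih _ _ hb hb'

lemma Q_left {P : List ℕ → Prop} :
    ∀ (n : ℕ) (l m : List ℕ), Q U n (fun l _ => P l) l m → Q1 U n P l := by
  intro n
  induction n with
  | zero => exact fun l m h => h
  | succ n ih =>
    intro l m hP
    filter_upwards [hP] with a ha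
    obtain ⟨b, hb⟩ := ha.exists
    exact ih _ _ hb

lemma Q1_and {P R : List ℕ → Prop} :
    ∀ (n : ℕ) (l : List ℕ), Q1 U n P l → Q1 U n R l → Q1 U n (fun l => P l ∧ R l) l := by
  intro n
  induction n with
  | zero => exact fun l h1 h2 => ⟨h1, h2⟩
  | succ n ih =>
    intro l hP hR
    filter_upwards [hP, hR] with a ha ha'
    exact ih _ ha ha'

lemma Q1_exists {P : List ℕ → Prop} :
    ∀ (n : ℕ) (l : List ℕ), Q1 U n P l → ∃ l', l'.length = l.length + n ∧ P l' := by
  intro n
  induction n with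
  | zero => exact fun l h => ⟨l, rfl, h⟩
  | succ n ih =>
    intro l hP
    obtain ⟨a, ha⟩ := hP.exists
    obtain ⟨l', h1, h2⟩ := ih _ ha
    refine ⟨l', ?_, h2⟩
    rw [h1, List.length_append, List.length_singleton]
    omega

/-- all entries are large, eventually -/
lemma Q1_large (hU : (U : Filter ℕ) ≤ atTop) (N : ℕ) :
    ∀ (n : ℕ) (l : List ℕ), (∀ x ∈ l, N < x) → Q1 U n (fun l => ∀ x ∈ l, N < x) l := by
  intro n
  induction n with
  | zero => exact fun l h => h
  | succ n ih =>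
    intro l hl
    have : ∀ᶠ a in (U : Filter ℕ), N < a := hU (eventually_gt_atTop N)
    filter_upwards [this] with a ha
    apply ih
    intro x hx
    rw [List.mem_append, List.mem_singleton] at hx
    rcases hx with hx | rfl
    · exact hl x hx
    · exact ha

/-- Interlaced pairs of lists. -/
inductive Inter : List ℕ → List ℕ → Prop
  | nil : Inter [] []
  | snoc {a b : List ℕ} {x y : ℕ} (h : Inter a b) (ha : ∀ z ∈ a, z < x) (hb : ∀ z ∈ b, z < x)
      (hxy : x < y) : Inter (a ++ [x]) (b ++ [y])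

lemma Inter.length {a b : List ℕ} (h : Inter a b) : a.length = b.length := by
  induction h with
  | nil => rfl
  | snoc h _ _ _ ih => simp [ih]

lemma exists_bound (l : List ℕ) : ∃ N, ∀ z ∈ l, z < N := by
  refine ⟨l.sum + 1, fun z hz => ?_⟩
  exact Nat.lt_succ_of_le (List.single_le_sum (fun _ _ => Nat.zero_le _) z hz)

lemma Q_inter (hU : (U : Filter ℕ) ≤ atTop) :
    ∀ (n : ℕ) (l m : List ℕ), Inter l m → Q U n Inter l m := by
  intro n
  induction n with
  | zero => exact fun l m h => h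
  | succ n ih =>
    intro l m hlm
    obtain ⟨N, hN⟩ := exists_bound l
    obtain ⟨M, hM⟩ := exists_bound m
    have h1 : ∀ᶠ a in (U : Filter ℕ), max N M < a := hU (eventually_gt_atTop _)
    filter_upwards [h1] with a ha
    have h2 : ∀ᶠ b in (U : Filter ℕ), a < b := hU (eventually_gt_atTop _)
    filter_upwards [h2] with b hb
    apply ih
    refine Inter.snoc hlm ?_ ?_ hb
    · intro z hz
      exact (hN z hz).trans ((le_max_left _ _).trans_lt ha)
    · intro z hz
      exact (hM z hz).trans ((le_max_right _ _).trans_lt ha)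

lemma Q_length : ∀ (n : ℕ) (l m : List ℕ),
    Q U n (fun l' m' => l'.length = l.length + n ∧ m'.length = m.length + n) l m := by
  intro n
  induction n with
  | zero => exact fun l m => ⟨rfl, rfl⟩
  | succ n ih =>
    intro l m
    refine Filter.Eventually.of_forall fun a => Filter.Eventually.of_forall fun b => ?_
    refine Q_mono ?_ _ _ _ (ih (l ++ [a]) (m ++ [b]))
    intro l' m' h
    rw [List.length_append, List.length_append, List.length_singleton, List.length_singleton] at h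
    constructor <;> omega

end Iter

/-! ### The argument of Kalton -/

section Kalton

variable {E : Type*} [NormedAddCommGroup E] [NormedSpace ℝ E]

/-- The iterated limits. -/
lemma pairing (hrefl : Function.Surjective (NormedSpace.inclusionInDoubleDual ℝ E))
    (U : Ultrafilter ℕ) (f : List ℕ → E) (g : List ℕ → StrongDual ℝ E) (B B' : ℝ)
    (hf : ∀ l, ‖f l‖ ≤ B) (hg : ∀ l, ‖g l‖ ≤ B') :
    ∃ (F : ℕ → List ℕ → E) (G : ℕ → List ℕ → StrongDual ℝ E), F 0 = f ∧ G 0 = g ∧
      (∀ n l, ‖F n l‖ ≤ B) ∧ (∀ n l, ‖G n l‖ ≤ B') ∧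
      (∀ n l, ∀ φ : StrongDual ℝ E,
        Tendsto (fun a => φ (F n (l ++ [a]))) U (𝓝 (φ (F (n + 1) l)))) ∧
      (∀ n l, ∀ v : E, Tendsto (fun a => G n (l ++ [a]) v) U (𝓝 (G (n + 1) l v))) := by
  classical
  have h1 : ∀ x : {x : ℕ → E // ∀ i, ‖x i‖ ≤ B}, ∃ w : {w : E // ‖w‖ ≤ B},
      ∀ φ : StrongDual ℝ E, Tendsto (fun i => φ (x.1 i)) U (𝓝 (φ w.1)) := by
    intro x
    obtain ⟨w, hw, hw'⟩ := weak_lim hrefl U x.1 B x.2
    exact ⟨⟨w, hw⟩, hw'⟩
  have h2 : ∀ x : {x : ℕ → StrongDual ℝ E // ∀ i, ‖x i‖ ≤ B'},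
      ∃ w : {w : StrongDual ℝ E // ‖w‖ ≤ B'},
      ∀ v : E, Tendsto (fun i => x.1 i v) U (𝓝 (w.1 v)) := by
    intro x
    obtain ⟨w, hw, hw'⟩ := dual_lim U x.1 B' x.2
    exact ⟨⟨w, hw⟩, hw'⟩
  choose wl hwl using h1
  choose dl hdl using h2
  let F : ℕ → List ℕ → {w : E // ‖w‖ ≤ B} := fun n => Nat.rec (fun l => ⟨f l, hf l⟩)
    (fun _ F l => wl ⟨fun a => (F (l ++ [a])).1, fun a => (F (l ++ [a])).2⟩) n
  let G : ℕ → List ℕ → {w : StrongDual ℝ E // ‖w‖ ≤ B'} := fun n => Nat.rec (fun l => ⟨g l, hg l⟩)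
    (fun _ G l => dl ⟨fun a => (G (l ++ [a])).1, fun a => (G (l ++ [a])).2⟩) n
  refine ⟨fun n l => (F n l).1, fun n l => (G n l).1, rfl, rfl, fun n l => (F n l).2,
    fun n l => (G n l).2, ?_, ?_⟩
  · intro n l φ
    exact hwl ⟨fun a => (F n (l ++ [a])).1, fun a => (F n (l ++ [a])).2⟩ φ
  · intro n l v
    exact hdl ⟨fun a => (G n (l ++ [a])).1, fun a => (G n (l ++ [a])).2⟩ v

lemma pairing_Q (U : Ultrafilter ℕ) (F : ℕ → List ℕ → E) (G : ℕ → List ℕ → StrongDual ℝ E)
    (hF : ∀ n l, ∀ φ : StrongDual ℝ E,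
        Tendsto (fun a => φ (F n (l ++ [a]))) U (𝓝 (φ (F (n + 1) l))))
    (hG : ∀ n l, ∀ v : E, Tendsto (fun a => G n (l ++ [a]) v) U (𝓝 (G (n + 1) l v)))
    (ε : ℝ) (hε : 0 < ε) : ∀ (n : ℕ) (l m : List ℕ),
      Q U n (fun l' m' => |G 0 l' (F 0 m') - G n l (F n m)| ≤ 2 * n * ε) l m := by
  intro n
  induction n with
  | zero =>
    intro l m
    simp [Q]
  | succ n ih =>
    intro l m
    have h1 := hG n l (F (n + 1) m)
    have h1' : ∀ᶠ a in (U : Filter ℕ),
        |G n (l ++ [a]) (F (n + 1) m) - G (n + 1) l (F (n + 1) m)| < ε := by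
      have := (Metric.tendsto_nhds.1 h1) ε hε
      simpa [Real.dist_eq] using this
    filter_upwards [h1'] with a ha
    have h2 := hF n m (G n (l ++ [a]))
    have h2' : ∀ᶠ b in (U : Filter ℕ),
        |G n (l ++ [a]) (F n (m ++ [b])) - G n (l ++ [a]) (F (n + 1) m)| < ε := by
      have := (Metric.tendsto_nhds.1 h2) ε hε
      simpa [Real.dist_eq] using this
    filter_upwards [h2'] with b hb
    refine Q_mono ?_ _ _ _ (ih (l ++ [a]) (m ++ [b]))
    intro l' m' h
    have h3 := abs_sub_le (G 0 l' (F 0 m')) (G n (l ++ [a]) (F n (m ++ [b])))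
      (G (n + 1) l (F (n + 1) m))
    have h4 := abs_sub_le (G n (l ++ [a]) (F n (m ++ [b]))) (G n (l ++ [a]) (F (n + 1) m))
      (G (n + 1) l (F (n + 1) m))
    push_cast
    linarith

/-- Kalton's interlacing lemma: if `f` is bounded on the `k`-subsets and `‖f a - f b‖ ≤ C` for
interlaced `a`, `b`, then there are `a < b` with `‖f a - f b‖ ≤ 2 C + ε`. -/
theorem kalton (hrefl : Function.Surjective (NormedSpace.inclusionInDoubleDual ℝ E))
    (k : ℕ) (f : List ℕ → E) (B C : ℝ) (hf : ∀ l, l.length = k → ‖f l‖ ≤ B)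
    (hC : ∀ a b, Inter a b → a.length = k → ‖f a - f b‖ ≤ C) (ε : ℝ) (hε : 0 < ε) :
    ∃ a b : List ℕ, a.length = k ∧ b.length = k ∧ (∀ x ∈ a, ∀ y ∈ b, x < y) ∧
      ‖f a - f b‖ ≤ 2 * C + ε := by
  classical
  let U : Ultrafilter ℕ := hyperfilter ℕ
  have hU : (U : Filter ℕ) ≤ atTop := by
    rw [← Nat.cofinite_eq_atTop]
    exact hyperfilter_le_cofinite
  have hB0 : 0 ≤ B := (norm_nonneg _).trans (hf (List.replicate k 0) (List.length_replicate ..))
  let f' : List ℕ → E := fun l => if l.length = k then f l else 0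
  have hf' : ∀ l, ‖f' l‖ ≤ B := by
    intro l
    by_cases h : l.length = k
    · simp only [f', h, if_true]; exact hf l h
    · simp only [f', h, if_false, norm_zero]; exact hB0
  -- first the limit w of f'
  obtain ⟨F, -, hF0, -, hFB, -, hF, -⟩ := pairing hrefl U f' (fun _ => 0) B 0 hf'
    (fun _ => by simp)
  set w := F k [] with hw
  -- norming functionals
  have hn : ∀ l, ∃ φ : StrongDual ℝ E, ‖φ‖ ≤ 1 ∧ φ (f' l - w) = ‖f' l - w‖ := by
    intro l
    obtain ⟨φ, h1, h2⟩ := exists_dual_vector'' ℝ (f' l - w)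
    exact ⟨φ, h1, by simpa using h2⟩
  choose g hg1 hg2 using hn
  obtain ⟨-, G, -, hG0, -, hGB, -, hG⟩ := pairing hrefl U f' g B 1 hf' hg1
  -- the constant function w
  let W : ℕ → List ℕ → E := fun _ _ => w
  set δ : ℝ := ε / (2 * (4 * k + 1)) with hδ
  have hk0 : (0 : ℝ) ≤ k := Nat.cast_nonneg k
  have hδ0 : 0 < δ := by positivity
  have e1 := pairing_Q U F G hF hG δ hδ0 k [] []
  have e2 := pairing_Q U W G (fun _ _ _ => tendsto_const_nhds) hG δ hδ0 k [] []
  have e3 := Q_inter hU k [] [] Inter.nil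
  have e4 := Q_length (U := U) k [] []
  have e5 := Q_and _ _ _ (Q_and _ _ _ e1 e2) (Q_and _ _ _ e3 e4)
  have e6 : Q U k (fun l _ => ‖f' l - w‖ ≤ C + ε / 2) [] [] := by
    refine Q_mono ?_ _ _ _ e5
    rintro l m ⟨⟨h1, h2⟩, h3, h4, h5⟩
    rw [hG0, hF0] at h1
    rw [hG0] at h2
    have hlk : l.length = k := by simpa using h4
    have hmk : m.length = k := by simpa using h5
    have hfl : f' l = f l := by simp [f', hlk]
    have hfm : f' m = f m := by simp [f', hmk]
    have h6 : ‖f' l - f' m‖ ≤ C := by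
      rw [hfl, hfm]
      exact hC l m h3 hlk
    have h7 : ‖f' l - w‖ = g l (f' l - f' m) + (g l (f' m) - g l w) := by
      rw [← hg2 l, ← map_sub, ← map_add]
      congr 1
      abel
    have h8 : g l (f' l - f' m) ≤ C := by
      refine (le_abs_self _).trans (((g l).le_opNorm _).trans ?_)
      calc ‖g l‖ * ‖f' l - f' m‖ ≤ 1 * ‖f' l - f' m‖ :=
            mul_le_mul_of_nonneg_right (hg1 l) (norm_nonneg _)
        _ ≤ C := by rw [one_mul]; exact h6
    have h9 : g l (f' m) - g l w ≤ 4 * k * δ := by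
      have a1 := (abs_le.1 h1).2
      have a2 := (abs_le.1 h2).1
      change -(2 * k * δ) ≤ g l w - G k [] w at a2
      change g l (f' m) - G k [] w ≤ 2 * k * δ at a1
      linarith
    have h10 : 4 * k * δ ≤ ε / 2 := by
      rw [hδ]
      rw [← mul_div_assoc, div_le_div_iff₀ (by positivity) (by norm_num)]
      nlinarith
    rw [h7]
    linarith
  have e7 : Q1 U k (fun l => ‖f' l - w‖ ≤ C + ε / 2) [] := Q_left _ _ _ e6
  obtain ⟨a, ha1, ha2⟩ := Q1_exists _ _ e7
  obtain ⟨N, hN⟩ := exists_bound a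
  have e8 := Q1_large hU N k [] (by simp)
  obtain ⟨b, hb1, hb2, hb3⟩ := Q1_exists _ _ (Q1_and _ _ e7 e8)
  have hak : a.length = k := by simpa using ha1
  have hbk : b.length = k := by simpa using hb1
  refine ⟨a, b, hak, hbk, ?_, ?_⟩
  · intro x hx y hy
    exact (hN x hx).trans (hb3 y hy)
  · have hfa : f' a = f a := by simp [f', hak]
    have hfb : f' b = f b := by simp [f', hbk]
    rw [hfa] at ha2
    rw [hfb] at hb2
    have : f a - f b = (f a - w) - (f b - w) := by abel
    rw [this]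
    refine (norm_sub_le _ _).trans ?_
    linarith

end Kalton

end Pool.Agent.Zk65.Refl
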