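import Mathlib
import Pool.Agent.Zk65.Refl

/-!
# Averages of exchangeable sequences in reflexive spaces
-/

set_option autoImplicit false

namespace Pool.Agent.Zk65.Refl

open Filter Topology

variable {E : Type*} [NormedAddCommGroup E] [NormedSpace ℝ E]

/-- Extracting a finite combination. -/
lemma comb_of_mem (x : ℕ → E) (N : ℕ) (c : E) (hc : c ∈ convexHull ℝ (x '' {i | N ≤ i})) :
    ∃ (n : ℕ) (a : Fin (n + 1) → ℝ), (∀ i, 0 ≤ a i) ∧ ∑ i, a i = 1 ∧
      ∑ i, a i • x (N + i) = c := by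
  classical
  obtain ⟨ι, _, w, z, hw0, hw1, hz, hsum⟩ := mem_convexHull_iff_exists_fintype.1 hc
  choose k hk1 hk2 using hz
  -- bound
  obtain ⟨M, hM⟩ : ∃ M, ∀ i, k i ≤ N + M := by
    refine ⟨∑ i, k i, fun i => ?_⟩
    have := Finset.single_le_sum (f := k) (fun _ _ => Nat.zero_le _) (Finset.mem_univ i)
    omega
  have hk1' : ∀ i, N ≤ k i := hk1
  let κ : ι → Fin (M + 1) := fun i => ⟨k i - N, by have := hM i; omega⟩
  have hκ : ∀ i, N + (κ i : ℕ) = k i := by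
    intro i
    have := hk1' i
    simp only [κ]
    omega
  refine ⟨M, fun j => ∑ i with κ i = j, w i, fun j => Finset.sum_nonneg fun i _ => hw0 i, ?_, ?_⟩
  · rw [Finset.sum_fiberwise]
    exact hw1
  · rw [← hsum]
    have : ∀ j, (∑ i with κ i = j, w i) • x (N + (j : ℕ)) = ∑ i with κ i = j, w i • z i := by
      intro j
      rw [Finset.sum_smul]
      refine Finset.sum_congr rfl fun i hi => ?_
      rw [Finset.mem_filter] at hi
      rw [← hi.2, hκ, hk2]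
    rw [Finset.sum_congr rfl fun j _ => this j, Finset.sum_fiberwise]

/-- Averaging over shifts. -/
lemma avg_core {n m : ℕ} (y : Fin (n + 1) → E) (z : Fin (m + 1) → E) (a : Fin (n + 1) → ℝ)
    (b : Fin (m + 1) → ℝ) (ha : ∑ i, a i = 1) (hb : ∑ i, b i = 1) (M : ℝ)
    (h : ∀ p q, ‖∑ i, a i • y (i + p) - ∑ j, b j • z (j + q)‖ ≤ M) :
    ‖((n : ℝ) + 1)⁻¹ • ∑ i, y i - ((m : ℝ) + 1)⁻¹ • ∑ j, z j‖ ≤ M := by
  have h1 : ∑ p : Fin (n + 1), ∑ i, a i • y (i + p) = ∑ i, y i := by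
    rw [Finset.sum_comm]
    have : ∀ i : Fin (n + 1), ∑ p, a i • y (i + p) = a i • ∑ p, y p := by
      intro i
      rw [← Finset.smul_sum]
      congr 1
      exact Equiv.sum_comp (Equiv.addLeft i) y
    rw [Finset.sum_congr rfl fun i _ => this i, ← Finset.sum_smul, ha, one_smul]
  have h2 : ∑ q : Fin (m + 1), ∑ j, b j • z (j + q) = ∑ j, z j := by
    rw [Finset.sum_comm]
    have : ∀ i : Fin (m + 1), ∑ p, b i • z (i + p) = b i • ∑ p, z p := by
      intro i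
      rw [← Finset.smul_sum]
      congr 1
      exact Equiv.sum_comp (Equiv.addLeft i) z
    rw [Finset.sum_congr rfl fun i _ => this i, ← Finset.sum_smul, hb, one_smul]
  have h3 : ∑ p : Fin (n + 1), ∑ q : Fin (m + 1),
      (∑ i, a i • y (i + p) - ∑ j, b j • z (j + q)) =
      ((m : ℝ) + 1) • ∑ i, y i - ((n : ℝ) + 1) • ∑ j, z j := by
    simp only [Finset.sum_sub_distrib, Finset.sum_const, Finset.card_univ, Fintype.card_fin]
    rw [h2, ← Finset.smul_sum, h1]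
    rw [← Nat.cast_smul_eq_nsmul ℝ, ← Nat.cast_smul_eq_nsmul ℝ]
    push_cast
    rfl
  have h4 : ‖∑ p : Fin (n + 1), ∑ q : Fin (m + 1),
      (∑ i, a i • y (i + p) - ∑ j, b j • z (j + q))‖ ≤ ((n : ℝ) + 1) * (((m : ℝ) + 1) * M) := by
    refine (norm_sum_le _ _).trans ?_
    have : ∀ p ∈ (Finset.univ : Finset (Fin (n + 1))), ‖∑ q : Fin (m + 1),
        (∑ i, a i • y (i + p) - ∑ j, b j • z (j + q))‖ ≤ ((m : ℝ) + 1) * M := by
      intro p _
      refine (norm_sum_le _ _).trans ?_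
      refine (Finset.sum_le_card_nsmul _ _ M fun q _ => h p q).trans ?_
      simp
    refine (Finset.sum_le_card_nsmul _ _ _ this).trans ?_
    simp
  rw [h3] at h4
  have hn : (0 : ℝ) < (n : ℝ) + 1 := by positivity
  have hm : (0 : ℝ) < (m : ℝ) + 1 := by positivity
  have h5 : ((n : ℝ) + 1)⁻¹ • ∑ i, y i - ((m : ℝ) + 1)⁻¹ • ∑ j, z j =
      ((((n : ℝ) + 1) * ((m : ℝ) + 1))⁻¹) •
        (((m : ℝ) + 1) • ∑ i, y i - ((n : ℝ) + 1) • ∑ j, z j) := by
    rw [smul_sub, smul_smul, smul_smul]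
    congr 2
    · field_simp
    · field_simp
  rw [h5, norm_smul, Real.norm_of_nonneg (by positivity)]
  calc (((n : ℝ) + 1) * ((m : ℝ) + 1))⁻¹ *
        ‖((m : ℝ) + 1) • ∑ i, y i - ((n : ℝ) + 1) • ∑ j, z j‖
      ≤ (((n : ℝ) + 1) * ((m : ℝ) + 1))⁻¹ * (((n : ℝ) + 1) * (((m : ℝ) + 1) * M)) :=
        mul_le_mul_of_nonneg_left h4 (by positivity)
    _ = M := by field_simp

/-- In a reflexive space, for a bounded sequence there are two disjoint blocks with convex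
combinations close to each other. -/
lemma two_blocks (hrefl : Function.Surjective (NormedSpace.inclusionInDoubleDual ℝ E))
    (x : ℕ → E) (B : ℝ) (hB : ∀ i, ‖x i‖ ≤ B) (ε : ℝ) (hε : 0 < ε) :
    ∃ (n m : ℕ) (a : Fin (n + 1) → ℝ) (b : Fin (m + 1) → ℝ), (∀ i, 0 ≤ a i) ∧ (∀ i, 0 ≤ b i) ∧
      ∑ i, a i = 1 ∧ ∑ i, b i = 1 ∧
      ‖∑ i, a i • x i - ∑ j, b j • x (n + 1 + j)‖ ≤ ε := by
  let U : Ultrafilter ℕ := hyperfilter ℕ
  have hU : (U : Filter ℕ) ≤ atTop := by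
    rw [← Nat.cofinite_eq_atTop]
    exact hyperfilter_le_cofinite
  obtain ⟨w, -, hw⟩ := weak_lim hrefl U x B hB
  have h1 := mazur U x w hw {i | 0 ≤ i} (hU (eventually_ge_atTop 0))
  obtain ⟨c, hc, hcw⟩ := Metric.mem_closure_iff.1 h1 (ε / 2) (by positivity)
  obtain ⟨n, a, ha0, ha1, ha2⟩ := comb_of_mem x 0 c hc
  have h2 := mazur U x w hw {i | n + 1 ≤ i} (hU (eventually_ge_atTop (n + 1)))
  obtain ⟨c', hc', hcw'⟩ := Metric.mem_closure_iff.1 h2 (ε / 2) (by positivity)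
  obtain ⟨m, b, hb0, hb1, hb2⟩ := comb_of_mem x (n + 1) c' hc'
  refine ⟨n, m, a, b, ha0, hb0, ha1, hb1, ?_⟩
  have h3 : ∑ i, a i • x i = c := by
    rw [← ha2]
    refine Finset.sum_congr rfl fun i _ => ?_
    rw [zero_add]
  rw [h3, hb2, ← dist_eq_norm]
  have := dist_triangle_left c c' w
  linarith

end Pool.Agent.Zk65.Refl
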