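import Mathlib

/-!
# Base sizes of symmetric groups never exceed the degree

For every faithful action of `Sym(α)` there is a base with at most `|α|` points.
-/

open Equiv Equiv.Perm
open scoped Pointwise

namespace Pool.Agent.Zk65.BaseSym

/-! ### Halving lemma -/

section Halving

variable {G X : Type*} [Group G] [Finite G] [MulAction G X] [FaithfulSMul G X]

theorem extend_base (m : ℕ) : ∀ (B : Finset X),
    Nat.card (fixingSubgroup G (B : Set X)) < 2 ^ (m + 1) →
    ∃ B' : Finset X, B'.card ≤ B.card + m ∧ ∀ g : G, (∀ x ∈ B', g • x = x) → g = 1 := by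
  classical
  induction m with
  | zero =>
    intro B hB
    refine ⟨B, by simp, fun g hg => ?_⟩
    have h1 : Nat.card (fixingSubgroup G (B : Set X)) = 1 := by
      have : 0 < Nat.card (fixingSubgroup G (B : Set X)) := Nat.card_pos
      omega
    have h2 : fixingSubgroup G (B : Set X) = ⊥ := Subgroup.eq_bot_of_card_eq _ h1
    have h3 : g ∈ fixingSubgroup G (B : Set X) := by
      rw [mem_fixingSubgroup_iff]
      intro y hy
      exact hg y (by simpa using hy)
    rw [h2] at h3
    simpa using h3
  | succ m ih =>
    intro B hB
    by_cases htriv : ∀ g : G, (∀ x ∈ B, g • x = x) → g = 1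
    · exact ⟨B, by omega, htriv⟩
    · push Not at htriv
      obtain ⟨g, hg, hg1⟩ := htriv
      have hex : ∃ x : X, g • x ≠ x := by
        by_contra hcon
        push Not at hcon
        apply hg1
        apply FaithfulSMul.eq_of_smul_eq_smul (α := X)
        intro a
        rw [hcon a, one_smul]
      obtain ⟨x, hx⟩ := hex
      have hle : fixingSubgroup G ((insert x B : Finset X) : Set X) ≤
          fixingSubgroup G (B : Set X) := by
        intro k hk
        rw [mem_fixingSubgroup_iff] at hk ⊢
        intro y hy
        exact hk y (by simp only [Finset.coe_insert]; exact Set.mem_insert_of_mem _ hy)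
      have hgB : g ∈ fixingSubgroup G (B : Set X) := by
        rw [mem_fixingSubgroup_iff]
        intro y hy
        exact hg y (by simpa using hy)
      have hgn : g ∉ fixingSubgroup G ((insert x B : Finset X) : Set X) := by
        intro hcon
        rw [mem_fixingSubgroup_iff] at hcon
        exact hx (hcon x (by simp))
      have hdvd := Subgroup.card_dvd_of_le hle
      have hne : Nat.card (fixingSubgroup G ((insert x B : Finset X) : Set X)) ≠
          Nat.card (fixingSubgroup G (B : Set X)) := by
        intro heq
        have := Subgroup.eq_of_le_of_card_ge hle heq.ge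
        rw [this] at hgn
        exact hgn hgB
      have hpos : 0 < Nat.card (fixingSubgroup G (B : Set X)) := Nat.card_pos
      obtain ⟨k, hk⟩ := hdvd
      have hk2 : 2 ≤ k := by
        rcases k with _ | _ | k
        · rw [mul_zero] at hk; omega
        · rw [zero_add, mul_one] at hk
          exact absurd hk.symm hne
        · omega
      have hlt : Nat.card (fixingSubgroup G ((insert x B : Finset X) : Set X)) < 2 ^ (m + 1) := by
        have h2 : 2 * Nat.card (fixingSubgroup G ((insert x B : Finset X) : Set X)) ≤
            Nat.card (fixingSubgroup G (B : Set X)) := by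
          rw [hk]; nlinarith
        rw [pow_succ] at hB
        omega
      obtain ⟨B', hB', hB'2⟩ := ih (insert x B) hlt
      refine ⟨B', ?_, hB'2⟩
      have := Finset.card_insert_le x B
      omega

end Halving

/-! ### Intersections of conjugates -/

variable {α : Type*} [Fintype α] [DecidableEq α]

/-- The intersection of the conjugates `c H c⁻¹`, `c ∈ S`. -/
def KS {G : Type*} [Group G] (H : Subgroup G) (S : Finset G) : Subgroup G where
  carrier := {h | ∀ c ∈ S, c⁻¹ * h * c ∈ H}
  mul_mem' := by
    intro a b ha hb c hc
    have := H.mul_mem (ha c hc) (hb c hc)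
    have e : c⁻¹ * (a * b) * c = (c⁻¹ * a * c) * (c⁻¹ * b * c) := by group
    rw [e]; exact this
  one_mem' := by
    intro c _
    simp
  inv_mem' := by
    intro a ha c hc
    have := H.inv_mem (ha c hc)
    have e : c⁻¹ * a⁻¹ * c = (c⁻¹ * a * c)⁻¹ := by group
    rw [e]; exact this

theorem mem_KS {G : Type*} [Group G] {H : Subgroup G} {S : Finset G} {h : G} :
    h ∈ KS H S ↔ ∀ c ∈ S, c⁻¹ * h * c ∈ H := Iff.rfl

/-- `Good H`: few conjugates of `H` have small intersection. -/
def Good (H : Subgroup (Perm α)) : Prop :=
  ∃ (S : Finset (Perm α)) (m : ℕ), S.card + m ≤ Fintype.card α ∧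
    Nat.card (KS H S) < 2 ^ (m + 1)

omit [DecidableEq α] in
theorem good_of_trivial {H : Subgroup (Perm α)} (S : Finset (Perm α))
    (hS : S.card ≤ Fintype.card α) (h1 : ∀ h ∈ KS H S, h = 1) : Good H := by
  refine ⟨S, 0, by simpa using hS, ?_⟩
  have : KS H S = ⊥ := by
    rw [eq_bot_iff]
    intro h hh
    simpa using h1 h hh
  rw [this]
  simp

omit [DecidableEq α] in
/-- a subgroup in which only the identity fixes `x`, with `x` moved inside `T`. -/
theorem card_le_of_semireg (K : Subgroup (Perm α)) (x : α) (T : Finset α)
    (h1 : ∀ h ∈ K, h x = x → h = 1) (h2 : ∀ h ∈ K, h x ∈ T) : Nat.card K ≤ T.card := by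
  have : Nat.card K ≤ Nat.card T := by
    apply Nat.card_le_card_of_injective (fun k : K => (⟨k.1 x, h2 k.1 k.2⟩ : T))
    intro a b hab
    simp only [Subtype.mk.injEq] at hab
    have hm : (b.1)⁻¹ * a.1 ∈ K := K.mul_mem (K.inv_mem b.2) a.2
    have h3 := h1 _ hm (by rw [Perm.mul_apply, hab]; simp)
    apply Subtype.ext
    have : a.1 = b.1 := by
      have := congrArg (fun z => b.1 * z) h3
      simpa using this
    exact this
  simpa using this

/-! ### Case A: intransitive -/

theorem caseA (H : Subgroup (Perm α)) (Δ : Set α) (p q : α) (hp : p ∈ Δ) (hq : q ∉ Δ)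
    (hinv : ∀ h ∈ H, ∀ x ∈ Δ, h x ∈ Δ) : Good H := by
  classical
  have hinv' : ∀ h ∈ H, ∀ x, h x ∈ Δ → x ∈ Δ := by
    intro h hh x hx
    have := hinv _ (H.inv_mem hh) _ hx
    simpa using this
  let f : α → Perm α := fun z => if z ∈ Δ then swap z q else swap p z
  let S : Finset (Perm α) := insert 1 ((Finset.univ.erase p).image f)
  have hfS : ∀ z, f z ∈ S := by
    intro z
    by_cases hz : z = p
    · have hne : q ≠ p := by rintro rfl; exact hq hp
      have : f z = f q := by
        simp only [f, hz, hp, hq, if_true, if_false]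
      rw [this]
      apply Finset.mem_insert_of_mem
      apply Finset.mem_image_of_mem
      simp [hne]
    · apply Finset.mem_insert_of_mem
      apply Finset.mem_image_of_mem
      simp [hz]
  refine good_of_trivial S ?_ ?_
  · have h1 := Finset.card_insert_le (1 : Perm α) ((Finset.univ.erase p).image f)
    have h2 := Finset.card_image_le (s := (Finset.univ.erase p)) (f := f)
    have h3 : (Finset.univ.erase p).card = Fintype.card α - 1 := by
      rw [Finset.card_erase_of_mem (Finset.mem_univ _), Finset.card_univ]
    have h4 : 0 < Fintype.card α := Fintype.card_pos_iff.mpr ⟨p⟩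
    show (insert 1 ((Finset.univ.erase p).image f)).card ≤ _
    omega
  · intro h hh
    have hH : h ∈ H := by
      have := hh 1 (Finset.mem_insert_self _ _)
      simpa using this
    have key : ∀ z, h⁻¹ z = z := by
      intro z
      have hc := hh (f z) (hfS z)
      by_cases hz : z ∈ Δ
      · have hf : f z = swap z q := by simp only [f, hz, if_true]
        rw [hf] at hc
        by_contra hne
        have hwΔ : h⁻¹ z ∈ Δ := hinv _ (H.inv_mem hH) _ hz
        have hwq : h⁻¹ z ≠ q := by intro e; rw [e] at hwΔ; exact hq hwΔ
        have := hinv _ hc _ hwΔ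
        rw [Perm.mul_apply, Perm.mul_apply, swap_apply_of_ne_of_ne hne hwq] at this
        simp at this
        exact hq this
      · have hf : f z = swap p z := by simp only [f, hz, if_false]
        rw [hf] at hc
        by_contra hne
        have hwΔ : h⁻¹ z ∉ Δ := fun hcon => hz (hinv' _ (H.inv_mem hH) _ hcon)
        have hwp : h⁻¹ z ≠ p := by intro e; rw [e] at hwΔ; exact hwΔ hp
        apply hwΔ
        apply hinv' _ hc
        rw [Perm.mul_apply, Perm.mul_apply, swap_apply_of_ne_of_ne hwp hne]
        simp
        exact hp
    ext z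
    have := key z
    rw [Perm.inv_eq_iff_eq] at this
    simpa using this.symm

/-! ### Case B: imprimitive -/

section CaseB

variable (H : Subgroup (Perm α)) (r : α → α → Prop)

theorem caseB_large (hr : Equivalence r) (hinv : ∀ h ∈ H, ∀ u v, r u v → r (h u) (h v))
    (x x' : α) (hxx' : ¬ r x x')
    (h3 : ∀ u, ∃ a b, a ≠ u ∧ b ≠ u ∧ a ≠ b ∧ r u a ∧ r u b) : Good H := by
  classical
  have hinv' : ∀ h ∈ H, ∀ u v, r (h u) (h v) → r u v := by
    intro h hh u v huv
    have := hinv _ (H.inv_mem hh) _ _ huv
    simpa using this
  -- the key lemma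
  have key : ∀ h ∈ H, ∀ u v, ¬ r u v → (swap u v)⁻¹ * h * (swap u v) ∈ H → h u = u ∨ h u = v := by
    intro h hh u v huv hc
    obtain ⟨a, b, hau, hbu, hab, hra, hrb⟩ := h3 u
    have hav : a ≠ v := by rintro rfl; exact huv hra
    have hbv : b ≠ v := by rintro rfl; exact huv hrb
    by_contra hcon
    push Not at hcon
    obtain ⟨hc1, hc2⟩ := hcon
    set k := (swap u v)⁻¹ * h * (swap u v) with hk
    have hkv : k v = h u := by
      rw [hk, Perm.mul_apply, Perm.mul_apply, swap_apply_right, swap_inv,
        swap_apply_of_ne_of_ne hc1 hc2]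
    have hk' : ∀ w, w ≠ u → w ≠ v → k w = swap u v (h w) := by
      intro w h1 h2
      rw [hk, Perm.mul_apply, Perm.mul_apply, swap_apply_of_ne_of_ne h1 h2, swap_inv]
    have hmem : ∀ w, w ≠ u → w ≠ v → r u w → h w = u ∨ h w = v := by
      intro w h1 h2 hw
      by_contra hcon2
      push Not at hcon2
      have e : k w = h w := by rw [hk' w h1 h2, swap_apply_of_ne_of_ne hcon2.1 hcon2.2]
      have h4 : r (h u) (h w) := hinv h hh _ _ hw
      rw [← hkv, ← e] at h4
      have h5 := hinv' k hc _ _ h4
      exact huv (hr.trans hw (hr.symm h5))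
    have ha := hmem a hau hav hra
    have hb := hmem b hbu hbv hrb
    have hrab : r (h a) (h b) := hinv h hh _ _ (hr.trans (hr.symm hra) hrb)
    have hneab : h a ≠ h b := fun e => hab (h.injective e)
    rcases ha with ha | ha <;> rcases hb with hb | hb
    · exact hneab (ha.trans hb.symm)
    · rw [ha, hb] at hrab; exact huv hrab
    · rw [ha, hb] at hrab; exact huv (hr.symm hrab)
    · exact hneab (ha.trans hb.symm)
  have key2 : ∀ h ∈ H, ∀ u v, ¬ r u v → (swap u v)⁻¹ * h * (swap u v) ∈ H → h v = u ∨ h v = v := by
    intro h hh u v huv hc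
    have := key h hh v u (fun e => huv (hr.symm e)) (by rw [swap_comm v u]; exact hc)
    tauto
  let f : α → Perm α := fun z => if r z x then swap x' z else swap x z
  let S : Finset (Perm α) := insert 1 ((Finset.univ.erase x).image f)
  have hne : x' ≠ x := by rintro rfl; exact hxx' (hr.refl _)
  have hfS : ∀ z, f z ∈ S := by
    intro z
    by_cases hz : z = x
    · have : f z = f x' := by
        have h1 : r z x := by rw [hz]; exact hr.refl _
        have h2 : ¬ r x' x := fun e => hxx' (hr.symm e)
        simp only [f, h1, h2, if_true, if_false]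
        rw [hz, swap_comm]
      rw [this]
      apply Finset.mem_insert_of_mem
      apply Finset.mem_image_of_mem
      simp [hne]
    · apply Finset.mem_insert_of_mem
      apply Finset.mem_image_of_mem
      simp [hz]
  refine good_of_trivial S ?_ ?_
  · have h1 := Finset.card_insert_le (1 : Perm α) ((Finset.univ.erase x).image f)
    have h2 := Finset.card_image_le (s := (Finset.univ.erase x)) (f := f)
    have h3 : (Finset.univ.erase x).card = Fintype.card α - 1 := by
      rw [Finset.card_erase_of_mem (Finset.mem_univ _), Finset.card_univ]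
    have h4 : 0 < Fintype.card α := Fintype.card_pos_iff.mpr ⟨x⟩
    show (insert 1 ((Finset.univ.erase x).image f)).card ≤ _
    omega
  · intro h hh
    have hH : h ∈ H := by
      have := hh 1 (Finset.mem_insert_self _ _)
      simpa using this
    -- edges at x
    have hedge : ∀ y, ¬ r y x → (h x = x ∨ h x = y) ∧ (h y = x ∨ h y = y) := by
      intro y hy
      have hc := hh (f y) (hfS y)
      have hf : f y = swap x y := by simp only [f, hy, if_false]
      rw [hf] at hc
      have hxy : ¬ r x y := fun e => hy (hr.symm e)
      exact ⟨key h hH x y hxy hc, key2 h hH x y hxy hc⟩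
    have hx : h x = x := by
      obtain ⟨a, b, ha, hb, hab, hra, hrb⟩ := h3 x'
      have hna : ¬ r a x := fun e => hxx' (hr.symm (hr.trans hra e))
      have hnb : ¬ r b x := fun e => hxx' (hr.symm (hr.trans hrb e))
      rcases (hedge a hna).1 with h1 | h1
      · exact h1
      · rcases (hedge b hnb).1 with h2 | h2
        · exact h2
        · exact absurd (h1.symm.trans h2) hab
    have hfix : ∀ y, ¬ r y x → h y = y := by
      intro y hy
      rcases (hedge y hy).2 with h1 | h1
      · exfalso
        have : h y = h x := by rw [h1, hx]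
        have := h.injective this
        rw [this] at hy
        exact hy (hr.refl _)
      · exact h1
    have hx' : h x' = x' := hfix x' (fun e => hxx' (hr.symm e))
    ext z
    show h z = z
    by_cases hz : r z x
    · have hc := hh (f z) (hfS z)
      have hf : f z = swap x' z := by simp only [f, hz, if_true]
      rw [hf] at hc
      have hx'z : ¬ r x' z := fun e => hxx' (hr.symm (hr.trans e hz))
      rcases key2 h hH x' z hx'z hc with h1 | h1
      · exfalso
        have : h z = h x' := by rw [h1, hx']
        have := h.injective this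
        rw [this] at hx'z
        exact hx'z (hr.refl _)
      · exact h1
    · exact hfix z hz

theorem caseB_two (hr : Equivalence r) (hinv : ∀ h ∈ H, ∀ u v, r u v → r (h u) (h v))
    (mt : α → α) (hm1 : ∀ u, mt u ≠ u) (hm2 : ∀ u, r u (mt u))
    (hm3 : ∀ u v, r u v → v = u ∨ v = mt u) (hcard : 5 ≤ Fintype.card α) : Good H := by
  classical
  have hinv' : ∀ h ∈ H, ∀ u v, r (h u) (h v) → r u v := by
    intro h hh u v huv
    have := hinv _ (H.inv_mem hh) _ _ huv
    simpa using this
  have key : ∀ h ∈ H, ∀ u v, ¬ r u v → (swap u v)⁻¹ * h * (swap u v) ∈ H →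
      (h u = u ∨ h u = v) ∨ (h (mt u) = u ∨ h (mt u) = v) := by
    intro h hh u v huv hc
    have hav : mt u ≠ v := by intro e; apply huv; rw [← e]; exact hm2 u
    by_contra hcon
    push Not at hcon
    obtain ⟨⟨hc1, hc2⟩, hc3, hc4⟩ := hcon
    set k := (swap u v)⁻¹ * h * (swap u v) with hk
    have hkv : k v = h u := by
      rw [hk, Perm.mul_apply, Perm.mul_apply, swap_apply_right, swap_inv,
        swap_apply_of_ne_of_ne hc1 hc2]
    have hkm : k (mt u) = h (mt u) := by
      rw [hk, Perm.mul_apply, Perm.mul_apply, swap_apply_of_ne_of_ne (hm1 u) hav, swap_inv,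
        swap_apply_of_ne_of_ne hc3 hc4]
    have h4 : r (h u) (h (mt u)) := hinv h hh _ _ (hm2 u)
    rw [← hkv, ← hkm] at h4
    have h5 := hinv' k hc _ _ h4
    exact huv (hr.trans (hm2 u) (hr.symm h5))
  have hne0 : Nonempty α := Fintype.card_pos_iff.mp (by omega)
  obtain ⟨x⟩ := hne0
  let S : Finset (Perm α) := insert 1 (((Finset.univ.erase x).erase (mt x)).image (fun y => swap x y))
  have hSmem : ∀ y, ¬ r x y → swap x y ∈ S := by
    intro y hy
    apply Finset.mem_insert_of_mem
    apply Finset.mem_image_of_mem
    have h1 : y ≠ x := by rintro rfl; exact hy (hr.refl _)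
    have h2 : y ≠ mt x := by rintro rfl; exact hy (hm2 _)
    simp [h1, h2]
  refine ⟨S, 1, ?_, ?_⟩
  · have h1 := Finset.card_insert_le (1 : Perm α)
      (((Finset.univ.erase x).erase (mt x)).image (fun y => swap x y))
    have h2 := Finset.card_image_le (s := ((Finset.univ.erase x).erase (mt x)))
      (f := (fun y => swap x y))
    have h3 : ((Finset.univ.erase x).erase (mt x)).card = Fintype.card α - 1 - 1 := by
      rw [Finset.card_erase_of_mem (by simp [hm1 x]),
        Finset.card_erase_of_mem (Finset.mem_univ _), Finset.card_univ]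
    show (insert 1 (((Finset.univ.erase x).erase (mt x)).image (fun y => swap x y))).card + 1 ≤ _
    omega
  · -- main facts
    have hxmem : ∀ h ∈ KS H S, h ∈ H := by
      intro h hh
      have := hh 1 (Finset.mem_insert_self _ _)
      simpa using this
    have hmx : ∀ u, mt (mt u) = u := by
      intro u
      rcases hm3 (mt u) u (hr.symm (hm2 u)) with h1 | h1
      · exact absurd h1.symm (hm1 u)
      · exact h1.symm
    -- two outside blocks
    have hout1 : ∃ y, ¬ r x y := by
      by_contra hcon
      push Not at hcon
      have : (Finset.univ : Finset α) ⊆ {x, mt x} := by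
        intro z _
        have := hm3 x z (hcon z)
        simpa using this
      have := Finset.card_le_card this
      have h2 : ({x, mt x} : Finset α).card ≤ 2 := Finset.card_le_two
      rw [Finset.card_univ] at this
      omega
    have hout2 : ∀ y, ∃ z, ¬ r x z ∧ ¬ r y z := by
      intro y
      by_contra hcon
      push Not at hcon
      have : (Finset.univ : Finset α) ⊆ {x, mt x, y, mt y} := by
        intro z _
        by_cases hz : r x z
        · have := hm3 x z hz
          simp; tauto
        · have := hm3 y z (hcon z hz)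
          simp; tauto
      have := Finset.card_le_card this
      have h2 : ({x, mt x, y, mt y} : Finset α).card ≤ 4 := Finset.card_le_four
      rw [Finset.card_univ] at this
      omega
    have hxblock : ∀ h ∈ KS H S, h x = x ∨ h x = mt x := by
      intro h hh
      have hH := hxmem h hh
      have hkey := fun y (hy : ¬ r x y) => key h hH x y hy (hh _ (hSmem y hy))
      have hcore : h x = x ∨ h (mt x) = x := by
        by_contra hcon
        push Not at hcon
        obtain ⟨y, hy⟩ := hout1
        obtain ⟨z, hz, hyz⟩ := hout2 y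
        have h1 := hkey y hy
        have h2 := hkey z hz
        have hrr : r (h x) (h (mt x)) := hinv h hH _ _ (hm2 x)
        have h1' : h x = y ∨ h (mt x) = y := by tauto
        have h2' : h x = z ∨ h (mt x) = z := by tauto
        rcases h1' with h1' | h1' <;> rcases h2' with h2' | h2'
        · apply hyz; rw [← h1', h2']; exact hr.refl _
        · apply hyz; rw [← h1', ← h2']; exact hrr
        · apply hyz; rw [← h1', ← h2']; exact hr.symm hrr
        · apply hyz; rw [← h1', h2']; exact hr.refl _
      rcases hcore with h1 | h1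
      · exact Or.inl h1
      · have hrr : r (h x) (h (mt x)) := hinv h hH _ _ (hm2 x)
        rw [h1] at hrr
        exact hm3 x _ (hr.symm hrr)
    have hfix : ∀ h ∈ KS H S, h x = x → h = 1 := by
      intro h hh hx
      have hH := hxmem h hh
      have hmtx : h (mt x) = mt x := by
        have hrr : r (h x) (h (mt x)) := hinv h hH _ _ (hm2 x)
        rw [hx] at hrr
        rcases hm3 x _ hrr with h1 | h1
        · exfalso
          apply hm1 x
          apply h.injective
          rw [h1, hx]
        · exact h1
      have hy : ∀ y, ¬ r x y → h y = y := by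
        intro y hy
        have hc := hh _ (hSmem y hy)
        have hy' : ¬ r y x := fun e => hy (hr.symm e)
        have hk := key h hH y x hy' (by rw [swap_comm y x]; exact hc)
        have hyx : h y ≠ x := by
          intro e
          apply hy
          rw [← hx] at e
          rw [h.injective e]
          exact hr.refl _
        have hmyx : h (mt y) ≠ x := by
          intro e
          apply hy
          rw [← hx] at e
          rw [← h.injective e]
          exact hr.symm (hm2 y)
        have hk2 : h y = y ∨ h (mt y) = y := by tauto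
        rcases hk2 with h1 | h1
        · exact h1
        · exfalso
          -- then `h y = mt y`
          have hrr : r (h y) (h (mt y)) := hinv h hH _ _ (hm2 y)
          rw [h1] at hrr
          have h2 : h y = mt y := by
            rcases hm3 y _ (hr.symm hrr) with h2 | h2
            · exfalso
              apply hm1 y
              apply h.injective
              rw [h1, h2]
            · exact h2
          have hmyx2 : mt y ≠ x := by
            intro e; apply hy'; rw [← e]; exact hm2 y
          have hmxy2 : mt x ≠ y := by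
            intro e; apply hy; rw [← e]; exact hm2 x
          set k := (swap x y)⁻¹ * h * (swap x y) with hk
          have e1 : k x = mt y := by
            rw [hk, Perm.mul_apply, Perm.mul_apply, swap_apply_left, swap_inv, h2,
              swap_apply_of_ne_of_ne hmyx2 (hm1 y)]
          have e2 : k (mt x) = mt x := by
            rw [hk, Perm.mul_apply, Perm.mul_apply, swap_apply_of_ne_of_ne (hm1 x) hmxy2,
              swap_inv, hmtx, swap_apply_of_ne_of_ne (hm1 x) hmxy2]
          have h5 := hinv k hc _ _ (hm2 x)
          rw [e1, e2] at h5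
          exact hy (hr.trans (hm2 x) (hr.trans (hr.symm h5) (hr.symm (hm2 y))))
      ext z
      show h z = z
      by_cases hz : r x z
      · rcases hm3 x z hz with h1 | h1
        · rw [h1]; exact hx
        · rw [h1]; exact hmtx
      · exact hy z hz
    have := card_le_of_semireg (KS H S) x {x, mt x} hfix (by
      intro h hh
      have := hxblock h hh
      simpa using this)
    have h2 : ({x, mt x} : Finset α).card ≤ 2 := Finset.card_le_two
    omega

end CaseB

/-! ### Case C: primitive, no transposition, no 3-cycle -/

section CaseC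

variable (H : Subgroup (Perm α))

theorem C1 (h3 : ∀ g ∈ H, ¬ g.IsThreeCycle) (h : Perm α) (hh : h ∈ H) (x y : α) (hxy : x ≠ y)
    (hc : (swap x y)⁻¹ * h * (swap x y) ∈ H) :
    swap x y * swap (h x) (h y) ∈ H ∧ (h x = x ↔ h y = y) ∧ (h x = y ↔ h y = x) := by
  have hm : swap x y * swap (h x) (h y) ∈ H := by
    have := H.mul_mem hc (H.inv_mem hh)
    rw [swap_apply_apply]
    rw [swap_inv] at this
    have e : swap x y * (h * swap x y * h⁻¹) = swap x y * h * swap x y * h⁻¹ := by group
    rw [e]; exact this
  have hne : h x ≠ h y := fun e => hxy (h.injective e)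
  refine ⟨hm, ⟨?_, ?_⟩, ?_, ?_⟩
  · intro h1
    by_contra h2
    rw [h1] at hm hne
    exact h3 _ hm (isThreeCycle_swap_mul_swap_same hxy hne (Ne.symm h2))
  · intro h1
    by_contra h2
    rw [h1] at hm hne
    rw [swap_comm x y, swap_comm (h x) y] at hm
    exact h3 _ hm (isThreeCycle_swap_mul_swap_same hxy.symm hne.symm (Ne.symm h2))
  · intro h1
    by_contra h2
    rw [h1] at hm hne
    rw [swap_comm x y] at hm
    exact h3 _ hm (isThreeCycle_swap_mul_swap_same hxy.symm hne (Ne.symm h2))
  · intro h1
    by_contra h2
    rw [h1] at hm hne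
    rw [swap_comm (h x) x] at hm
    exact h3 _ hm (isThreeCycle_swap_mul_swap_same hxy hne.symm (Ne.symm h2))

theorem caseC_small (h3 : ∀ g ∈ H, ¬ g.IsThreeCycle) (h2 : ∀ g ∈ H, ¬ g.IsSwap)
    (hcard : 5 ≤ Fintype.card α) (hcard2 : Fintype.card α ≤ 15) : Good H := by
  classical
  have hne0 : Nonempty α := Fintype.card_pos_iff.mp (by omega)
  obtain ⟨x⟩ := hne0
  obtain ⟨Y, hYsub, hYcard⟩ : ∃ Y ⊆ (Finset.univ.erase x : Finset α), Y.card = Fintype.card α - 4 := by
    apply Finset.exists_subset_card_eq
    rw [Finset.card_erase_of_mem (Finset.mem_univ _), Finset.card_univ]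
    omega
  let S : Finset (Perm α) := insert 1 (Y.image (fun y => swap x y))
  have hSmem : ∀ y ∈ Y, swap x y ∈ S := by
    intro y hy
    apply Finset.mem_insert_of_mem
    exact Finset.mem_image_of_mem _ hy
  refine ⟨S, 3, ?_, ?_⟩
  · have h1 := Finset.card_insert_le (1 : Perm α) (Y.image (fun y => swap x y))
    have h2 := Finset.card_image_le (s := Y) (f := (fun y => swap x y))
    show (insert 1 (Y.image (fun y => swap x y))).card + 3 ≤ _
    omega
  · have hxmem : ∀ h ∈ KS H S, h ∈ H := by
      intro h hh
      have := hh 1 (Finset.mem_insert_self _ _)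
      simpa using this
    have hfix : ∀ h ∈ KS H S, h x = x → h = 1 := by
      intro h hh hx
      have hH := hxmem h hh
      have hY : ∀ y ∈ Y, h y = y := by
        intro y hy
        have hxy : x ≠ y := by
          have := hYsub hy
          simp at this
          exact fun e => this e.symm
        exact (C1 H h3 h hH x y hxy (hh _ (hSmem y hy))).2.1.mp hx
      have hsupp : h.support ⊆ Finset.univ \ (insert x Y) := by
        intro z hz
        rw [Perm.mem_support] at hz
        simp only [Finset.mem_sdiff, Finset.mem_univ, true_and, Finset.mem_insert, not_or]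
        refine ⟨?_, ?_⟩
        · rintro rfl; exact hz hx
        · intro hzY; exact hz (hY z hzY)
      have hcs := Finset.card_le_card hsupp
      have hxY : x ∉ Y := by
        intro hxY
        have := hYsub hxY
        simp at this
      rw [Finset.card_sdiff_of_subset (Finset.subset_univ _), Finset.card_insert_of_notMem hxY,
        Finset.card_univ, hYcard] at hcs
      have hle : h.support.card ≤ 3 := by omega
      by_contra hne
      have h0 : h.support.card ≠ 0 := by
        rw [Ne, Finset.card_eq_zero, Perm.support_eq_empty_iff]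
        exact hne
      have h1 : h.support.card ≠ 1 := Perm.card_support_ne_one h
      have h23 : h.support.card = 2 ∨ h.support.card = 3 := by omega
      rcases h23 with h23 | h23
      · exact h2 h hH (Perm.card_support_eq_two.mp h23)
      · exact h3 h hH (card_support_eq_three_iff.mp h23)
    have := card_le_of_semireg (KS H S) x Finset.univ hfix (by simp)
    rw [Finset.card_univ] at this
    omega

theorem caseC_large (h3 : ∀ g ∈ H, ¬ g.IsThreeCycle) (hprim : MulAction.IsPreprimitive H α)
    (hcard : 16 ≤ Fintype.card α) : Good H := by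
  classical
  have hne0 : Nonempty α := Fintype.card_pos_iff.mp (by omega)
  obtain ⟨x⟩ := hne0
  let S : Finset (Perm α) := insert 1 ((Finset.univ.erase x).image (fun y => swap x y))
  have hSmem : ∀ y, y ≠ x → swap x y ∈ S := by
    intro y hy
    apply Finset.mem_insert_of_mem
    apply Finset.mem_image_of_mem
    simp [hy]
  refine good_of_trivial S ?_ ?_
  · have h1 := Finset.card_insert_le (1 : Perm α) ((Finset.univ.erase x).image (fun y => swap x y))
    have h2 := Finset.card_image_le (s := (Finset.univ.erase x)) (f := (fun y => swap x y))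
    have h3 : (Finset.univ.erase x).card = Fintype.card α - 1 := by
      rw [Finset.card_erase_of_mem (Finset.mem_univ _), Finset.card_univ]
    show (insert 1 ((Finset.univ.erase x).image (fun y => swap x y))).card ≤ _
    omega
  have hxmem : ∀ h ∈ KS H S, h ∈ H := by
    intro h hh
    have := hh 1 (Finset.mem_insert_self _ _)
    simpa using this
  have hstar : ∀ h ∈ KS H S, ∀ y, y ≠ x →
      swap x y * swap (h x) (h y) ∈ H ∧ (h x = x ↔ h y = y) ∧ (h x = y ↔ h y = x) :=
    fun h hh y hy => C1 H h3 h (hxmem h hh) x y hy.symm (hh _ (hSmem y hy))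
  have hfix : ∀ h ∈ KS H S, h x = x → h = 1 := by
    intro h hh hx
    ext z
    show h z = z
    by_cases hz : z = x
    · rw [hz]; exact hx
    · exact (hstar h hh z hz).2.1.mp hx
  intro h hh
  by_contra hne1
  have hx : h x ≠ x := fun e => hne1 (hfix h hh e)
  have hhx : h (h x) = x := (hstar h hh (h x) hx).2.2.mp rfl
  have hinvol : ∀ z, h (h z) = z := by
    have h2 := hfix (h * h) ((KS H S).mul_mem hh hh) (by rw [Perm.mul_apply]; exact hhx)
    intro z
    have := congrArg (fun g : Perm α => g z) h2
    simpa using this
  have hfpf : ∀ z, h z ≠ z := by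
    intro z
    by_cases hz : z = x
    · rw [hz]; exact hx
    · intro e
      exact hx ((hstar h hh z hz).2.1.mpr e)
  have hne : ∀ {a b : α}, a ≠ b → h a ≠ h b := fun hab e => hab (h.injective e)
  -- double transpositions at `x`
  have hPx : ∀ y, y ≠ x → swap x y * swap (h x) (h y) ∈ H := fun y hy => (hstar h hh y hy).1
  -- double transpositions in general
  have hP : ∀ u w, u ≠ w → u ≠ h w → w ≠ x → w ≠ h x → swap u w * swap (h u) (h w) ∈ H := by
    intro u w huw huhw hwx hwhx
    by_cases hux : u = x
    · rw [hux]; exact hPx w hwx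
    by_cases huhx : u = h x
    · have h1 := hPx (h w) (by
        intro e; apply hwhx; rw [← e, hinvol])
      rw [hinvol] at h1
      have h2 := H.inv_mem h1
      rw [mul_inv_rev, swap_inv, swap_inv] at h2
      rw [huhx, hinvol]
      exact h2
    · -- conjugate `P(x,w)` by `P(x,u)`
      have hg := hPx u hux
      have hd := hPx w hwx
      set g := swap x u * swap (h x) (h u) with hgdef
      have hconj := H.mul_mem (H.mul_mem hg hd) (H.inv_mem hg)
      have e : g * (swap x w * swap (h x) (h w)) * g⁻¹ =
          swap (g x) (g w) * swap (g (h x)) (g (h w)) := by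
        rw [swap_apply_apply g x w, swap_apply_apply g (h x) (h w)]; group
      rw [e] at hconj
      have hxhu : x ≠ h u := by
        intro e; apply huhx; rw [e, hinvol]
      have e1 : g x = u := by
        rw [hgdef, Perm.mul_apply, swap_apply_of_ne_of_ne hx.symm hxhu, swap_apply_left]
      have hwhu : w ≠ h u := by
        intro e; apply huhw; rw [e, hinvol]
      have e2 : g w = w := by
        rw [hgdef, Perm.mul_apply, swap_apply_of_ne_of_ne hwhx hwhu,
          swap_apply_of_ne_of_ne hwx huw.symm]
      have e3 : g (h x) = h u := by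
        rw [hgdef, Perm.mul_apply, swap_apply_left,
          swap_apply_of_ne_of_ne hxhu.symm (hfpf u)]
      have hhwx : h w ≠ x := by
        intro e; apply hwhx; rw [← e, hinvol]
      have e4 : g (h w) = h w := by
        rw [hgdef, Perm.mul_apply, swap_apply_of_ne_of_ne (hne hwx) (hne huw.symm),
          swap_apply_of_ne_of_ne hhwx huhw.symm]
      rw [e1, e2, e3, e4] at hconj
      exact hconj
  -- an element of `H` fixing a pair `{w, h w}` pointwise fixes `y` iff it fixes `h y`
  have hC2 : ∀ s ∈ H, ∀ w, w ≠ x → w ≠ h x → s w = w → s (h w) = h w → ∀ y, y ≠ w → y ≠ h w →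
      s (h y) = h y → s y = y := by
    intro s hs w hwx hwhx hsw hshw y hyw hyhw hshy
    by_contra hsy
    have ht := hP y w hyw hyhw hwx hwhx
    have hc := H.mul_mem (H.mul_mem (H.mul_mem hs ht) (H.inv_mem hs)) (H.inv_mem ht)
    have e : s * (swap y w * swap (h y) (h w)) * s⁻¹ * (swap y w * swap (h y) (h w))⁻¹ =
        swap (s y) (s w) * swap (s (h y)) (s (h w)) * (swap y w * swap (h y) (h w))⁻¹ := by
      rw [swap_apply_apply s y w, swap_apply_apply s (h y) (h w)]; group
    rw [e, hsw, hshy, hshw] at hc
    have e2 : swap (s y) w * swap (h y) (h w) * (swap y w * swap (h y) (h w))⁻¹ =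
        swap w (s y) * swap w y := by
      rw [mul_inv_rev, swap_inv, swap_inv, swap_comm (s y) w, swap_comm y w]
      rw [mul_assoc, ← mul_assoc (swap (h y) (h w)), swap_mul_self, one_mul]
    rw [e2] at hc
    have hsyw : s y ≠ w := by
      intro e; apply hyw; apply s.injective; rw [e, hsw]
    exact h3 _ hc (isThreeCycle_swap_mul_swap_same hsyw.symm hyw.symm hsy)
  -- `h` commutes with `H` at `x`
  have hcomm : ∀ g ∈ H, h (g x) = g (h x) := by
    intro g hg
    have hstep : ∀ u, u ≠ x → u ≠ h x → h (g x) = g u ∨ h (g x) = g (h x) ∨ h (g x) = g (h u) := by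
      intro u hux huhx
      set s := swap (g x) (g u) * swap (g (h x)) (g (h u)) with hsdef
      have hs : s ∈ H := by
        have := H.mul_mem (H.mul_mem hg (hPx u hux)) (H.inv_mem hg)
        have e : g * (swap x u * swap (h x) (h u)) * g⁻¹ = s := by
          rw [hsdef, swap_apply_apply g x u, swap_apply_apply g (h x) (h u)]; group
        rw [e] at this
        exact this
      have hsfix : ∀ z, z ≠ g x → z ≠ g u → z ≠ g (h x) → z ≠ g (h u) → s z = z := by
        intro z h1 h2 h3 h4
        rw [hsdef, Perm.mul_apply, swap_apply_of_ne_of_ne h3 h4, swap_apply_of_ne_of_ne h1 h2]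
      have hxhu : x ≠ h u := by
        intro e; apply huhx; rw [e, hinvol]
      have hsmove : s (g x) ≠ g x := by
        have : s (g x) = g u := by
          rw [hsdef, Perm.mul_apply, swap_apply_of_ne_of_ne
            (fun e => hx (g.injective e).symm) (fun e => hxhu (g.injective e)), swap_apply_left]
        rw [this]
        exact fun e => hux (g.injective e)
      -- choose `w`
      obtain ⟨w, hw⟩ : ∃ w, w ∉ ({g x, g u, g (h x), g (h u)} ∪
          {h (g x), h (g u), h (g (h x)), h (g (h u))} ∪ {x, h x} : Finset α) := by
        by_contra hcon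
        push Not at hcon
        have h1 : (Finset.univ : Finset α) ⊆ ({g x, g u, g (h x), g (h u)} ∪
          {h (g x), h (g u), h (g (h x)), h (g (h u))} ∪ {x, h x} : Finset α) :=
          fun z _ => hcon z
        have h2 := Finset.card_le_card h1
        have h3 := Finset.card_union_le ({g x, g u, g (h x), g (h u)} ∪
          {h (g x), h (g u), h (g (h x)), h (g (h u))}) ({x, h x} : Finset α)
        have h4 := Finset.card_union_le ({g x, g u, g (h x), g (h u)} : Finset α)
          {h (g x), h (g u), h (g (h x)), h (g (h u))}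
        have h5 : ({g x, g u, g (h x), g (h u)} : Finset α).card ≤ 4 := Finset.card_le_four
        have h6 : ({h (g x), h (g u), h (g (h x)), h (g (h u))} : Finset α).card ≤ 4 :=
          Finset.card_le_four
        have h7 : ({x, h x} : Finset α).card ≤ 2 := Finset.card_le_two
        rw [Finset.card_univ] at h2
        omega
      simp only [Finset.mem_union, Finset.mem_insert, Finset.mem_singleton, not_or] at hw
      obtain ⟨⟨⟨hw1, hw2, hw3, hw4⟩, hw5, hw6, hw7, hw8⟩, hw9, hw10⟩ := hw
      have hswap : ∀ z, w ≠ h z → h w ≠ z := by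
        intro z hz e; apply hz; rw [← e, hinvol]
      have hsw : s w = w := hsfix w hw1 hw2 hw3 hw4
      have hshw : s (h w) = h w :=
        hsfix (h w) (hswap _ hw5) (hswap _ hw6) (hswap _ hw7) (hswap _ hw8)
      by_contra hcon
      push Not at hcon
      obtain ⟨hc1, hc2, hc3⟩ := hcon
      have hshy : s (h (g x)) = h (g x) := hsfix _ (hfpf _) hc1 hc2 hc3
      exact hsmove (hC2 s hs w hw9 hw10 hsw hshw (g x) (Ne.symm hw1) (fun e => hswap _ hw5 e.symm) hshy)
    -- two choices of `u`
    obtain ⟨u, hu⟩ : ∃ u, u ∉ ({x, h x} : Finset α) := by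
      by_contra hcon
      push Not at hcon
      have h1 : (Finset.univ : Finset α) ⊆ {x, h x} := fun z _ => hcon z
      have h2 := Finset.card_le_card h1
      have h7 : ({x, h x} : Finset α).card ≤ 2 := Finset.card_le_two
      rw [Finset.card_univ] at h2
      omega
    obtain ⟨v, hv⟩ : ∃ v, v ∉ ({x, h x, u, h u} : Finset α) := by
      by_contra hcon
      push Not at hcon
      have h1 : (Finset.univ : Finset α) ⊆ {x, h x, u, h u} := fun z _ => hcon z
      have h2 := Finset.card_le_card h1
      have h7 : ({x, h x, u, h u} : Finset α).card ≤ 4 := Finset.card_le_four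
      rw [Finset.card_univ] at h2
      omega
    simp only [Finset.mem_insert, Finset.mem_singleton, not_or] at hu hv
    by_contra hcon
    have h1 := hstep u hu.1 hu.2
    have h2 := hstep v hv.1 hv.2.1
    have h1' : h (g x) = g u ∨ h (g x) = g (h u) := by tauto
    have h2' : h (g x) = g v ∨ h (g x) = g (h v) := by tauto
    rcases h1' with h1' | h1' <;> rcases h2' with h2' | h2' <;> rw [h1'] at h2' <;>
      have h2'' := g.injective h2'
    · exact hv.2.2.1 h2''.symm
    · apply hv.2.2.2
      rw [h2'', hinvol]
    · exact hv.2.2.2 h2''.symm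
    · exact hv.2.2.1 (h.injective h2'').symm
  -- `{x, h x}` is a block
  have hblock : MulAction.IsBlock H ({x, h x} : Set α) := by
    rw [MulAction.isBlock_iff_smul_eq_of_nonempty]
    rintro ⟨g, hg⟩ ⟨z, hz1, hz2⟩
    have hgx : g x = x ∨ g x = h x := by
      rw [Set.mem_smul_set] at hz1
      obtain ⟨y, hy, hyz⟩ := hz1
      have hyz' : g y = z := hyz
      rcases hy with hy | hy
      · rw [hy] at hyz'
        rw [hyz']
        simpa using hz2
      · rw [Set.mem_singleton_iff] at hy
        rw [hy, ← hcomm g hg] at hyz'
        rcases hz2 with h1 | h1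
        · right
          rw [h1] at hyz'
          have h9 := congrArg h hyz'
          rw [hinvol] at h9
          exact h9
        · left
          rw [Set.mem_singleton_iff] at h1
          rw [h1] at hyz'
          exact h.injective hyz'
    have e1 : (⟨g, hg⟩ : H) • x = g x := rfl
    have e2 : (⟨g, hg⟩ : H) • (h x) = g (h x) := rfl
    rw [Set.smul_set_insert, Set.smul_set_singleton, e1, e2, ← hcomm g hg]
    rcases hgx with h1 | h1
    · rw [h1]
    · rw [h1, hhx]
      exact Set.pair_comm _ _
  have htriv := hprim.isTrivialBlock_of_isBlock hblock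
  rcases htriv with h1 | h1
  · exact hx (h1 (by simp) (by simp))
  · have h2 : (Finset.univ : Finset α) ⊆ {x, h x} := by
      intro z _
      have : z ∈ ({x, h x} : Set α) := by rw [h1]; trivial
      simpa using this
    have h3 := Finset.card_le_card h2
    have h7 : ({x, h x} : Finset α).card ≤ 2 := Finset.card_le_two
    rw [Finset.card_univ] at h3
    omega

end CaseC

/-! ### Assembling -/

theorem good (H : Subgroup (Perm α)) (hH : ¬ alternatingGroup α ≤ H)
    (hcard : 5 ≤ Fintype.card α) : Good H := by
  classical
  by_cases hT : MulAction.IsPretransitive H α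
  swap
  · -- intransitive
    have : ∃ p q : α, ∀ g ∈ H, g p ≠ q := by
      by_contra hcon
      push Not at hcon
      apply hT
      refine ⟨fun a b => ?_⟩
      obtain ⟨g, hg, hgab⟩ := hcon a b
      exact ⟨⟨g, hg⟩, hgab⟩
    obtain ⟨p, q, hpq⟩ := this
    refine caseA H {y | ∃ g ∈ H, g p = y} p q ⟨1, H.one_mem, rfl⟩ ?_ ?_
    · rintro ⟨g, hg, hgq⟩
      exact hpq g hg hgq
    · rintro h hh y ⟨g, hg, rfl⟩
      exact ⟨h * g, H.mul_mem hh hg, rfl⟩
  by_cases hP : MulAction.IsPreprimitive H α
  · have h3 : ∀ g ∈ H, ¬ g.IsThreeCycle := by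
      intro g hg h3
      exact hH (alternatingGroup_le_of_isPreprimitive_of_isThreeCycle_mem hP h3 hg)
    have h2 : ∀ g ∈ H, ¬ g.IsSwap := by
      intro g hg h2
      apply hH
      rw [subgroup_eq_top_of_isPreprimitive_of_isSwap_mem hP g h2 hg]
      exact le_top
    by_cases h15 : Fintype.card α ≤ 15
    · exact caseC_small H h3 h2 hcard h15
    · exact caseC_large H h3 hP (by omega)
  · -- imprimitive
    have : ∃ B : Set α, MulAction.IsBlock H B ∧ ¬ MulAction.IsTrivialBlock B := by
      by_contra hcon
      push Not at hcon
      exact hP { toIsPretransitive := hT, isTrivialBlock_of_isBlock := fun {B} hB => hcon B hB }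
    obtain ⟨B, hB, hBt⟩ := this
    rw [MulAction.IsTrivialBlock, not_or] at hBt
    obtain ⟨hBs, hBu⟩ := hBt
    let r : α → α → Prop := fun u v => ∀ h ∈ H, (h u ∈ B ↔ h v ∈ B)
    have hr : Equivalence r := by
      refine ⟨fun u h _ => Iff.rfl, fun {u v} huv h hh => (huv h hh).symm, ?_⟩
      intro u v w huv hvw h hh
      exact (huv h hh).trans (hvw h hh)
    have hinv : ∀ h ∈ H, ∀ u v, r u v → r (h u) (h v) := by
      intro h hh u v huv g hg
      have := huv (g * h) (H.mul_mem hg hh)
      simpa using this
    rw [Set.not_subsingleton_iff] at hBs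
    obtain ⟨u0, hu0, v0, hv0, huv0⟩ := hBs
    have hr0 : r u0 v0 := by
      have haux : ∀ a ∈ B, ∀ b ∈ B, ∀ h ∈ H, h a ∈ B → h b ∈ B := by
        intro a ha b hb h hh hha
        have h1 := hB.smul_eq_of_mem (g := (⟨h, hh⟩ : H)) (a := a) ha hha
        have h2 : (⟨h, hh⟩ : H) • b ∈ (⟨h, hh⟩ : H) • B := Set.smul_mem_smul_set hb
        rw [h1] at h2
        exact h2
      intro h hh
      exact ⟨haux u0 hu0 v0 hv0 h hh, haux v0 hv0 u0 hu0 h hh⟩
    obtain ⟨q, hq⟩ : ∃ q, q ∉ B := by
      by_contra hcon
      push Not at hcon
      exact hBu (Set.eq_univ_of_forall hcon)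
    have hrq : ¬ r u0 q := by
      intro hcon
      have := hcon 1 H.one_mem
      simp only [Perm.coe_one, id] at this
      exact hq (this.mp hu0)
    have htrans : ∀ a b : α, ∃ g ∈ H, g a = b := by
      intro a b
      obtain ⟨⟨g, hg⟩, hgab⟩ := hT.exists_smul_eq a b
      exact ⟨g, hg, hgab⟩
    have hmate : ∀ u, ∃ v, v ≠ u ∧ r u v := by
      intro u
      obtain ⟨g, hg, hgu⟩ := htrans u0 u
      refine ⟨g v0, ?_, ?_⟩
      · rw [← hgu]; exact fun e => huv0 (g.injective e).symm
      · rw [← hgu]; exact hinv g hg _ _ hr0
    by_cases hthree : ∃ u a b, a ≠ u ∧ b ≠ u ∧ a ≠ b ∧ r u a ∧ r u b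
    · obtain ⟨u, a, b, hau, hbu, hab, hra, hrb⟩ := hthree
      refine caseB_large H r hr hinv u0 q hrq ?_
      intro v
      obtain ⟨g, hg, hgu⟩ := htrans u v
      refine ⟨g a, g b, ?_, ?_, ?_, ?_, ?_⟩
      · rw [← hgu]; exact fun e => hau (g.injective e)
      · rw [← hgu]; exact fun e => hbu (g.injective e)
      · exact fun e => hab (g.injective e)
      · rw [← hgu]; exact hinv g hg _ _ hra
      · rw [← hgu]; exact hinv g hg _ _ hrb
    · choose mt hm1 hm2 using hmate
      refine caseB_two H r hr hinv mt hm1 hm2 ?_ hcard
      intro u v huv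
      by_contra hcon
      push Not at hcon
      exact hthree ⟨u, v, mt u, hcon.1, hm1 u, hcon.2, huv, hm2 u⟩

/-- Every faithful action of `Sym(α)` has a base with at most `|α|` points. -/
theorem exists_base (X : Type*) [MulAction (Perm α) X] [FaithfulSMul (Perm α) X] :
    ∃ B : Finset X, B.card ≤ Fintype.card α ∧ ∀ g : Perm α, (∀ x ∈ B, g • x = x) → g = 1 := by
  classical
  by_cases hcard : 5 ≤ Fintype.card α
  swap
  · -- small degree
    have hfac : Nat.card (Perm α) < 2 ^ (Fintype.card α + 1) := by
      rw [Nat.card_eq_fintype_card, Fintype.card_perm]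
      have : Fintype.card α ≤ 4 := by omega
      interval_cases (Fintype.card α) <;> decide
    obtain ⟨B', h1, h2⟩ := extend_base (G := Perm α) (X := X) (Fintype.card α) ∅
      (lt_of_le_of_lt (Subgroup.card_le_card_group _) hfac)
    exact ⟨B', by simpa using h1, h2⟩
  · -- choose `x₀`
    have hx0 : ∃ x₀ : X, ¬ alternatingGroup α ≤ MulAction.stabilizer (Perm α) x₀ := by
      by_contra hcon
      push Not at hcon
      have hcard3 : 3 ≤ Fintype.card α := by omega
      obtain ⟨a, b, c, hab, hac, hbc⟩ := Fintype.two_lt_card_iff.mp (show 2 < Fintype.card α by omega)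
      have h3 := isThreeCycle_swap_mul_swap_same hab hac hbc
      have hmem : swap a b * swap a c ∈ alternatingGroup α := h3.mem_alternatingGroup
      have h1 : swap a b * swap a c = 1 := by
        apply FaithfulSMul.eq_of_smul_eq_smul (α := X)
        intro x
        have := hcon x hmem
        rw [MulAction.mem_stabilizer_iff] at this
        rw [this, one_smul]
      rw [h1] at h3
      exact h3.isCycle.ne_one rfl
    obtain ⟨x₀, hx0⟩ := hx0
    obtain ⟨S, m, hSm, hK⟩ := good (MulAction.stabilizer (Perm α) x₀) hx0 hcard
    have heq : fixingSubgroup (Perm α) ((S.image (fun c => c • x₀) : Finset X) : Set X) =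
        KS (MulAction.stabilizer (Perm α) x₀) S := by
      ext g
      rw [mem_fixingSubgroup_iff, mem_KS]
      constructor
      · intro hg c hc
        rw [MulAction.mem_stabilizer_iff, mul_smul, mul_smul,
          hg (c • x₀) (by simp only [Finset.coe_image]; exact ⟨c, hc, rfl⟩), inv_smul_smul]
      · intro hg y hy
        simp only [Finset.coe_image] at hy
        obtain ⟨c, hc, rfl⟩ := hy
        have := hg c hc
        rw [MulAction.mem_stabilizer_iff, mul_smul, mul_smul, inv_smul_eq_iff] at this
        exact this
    obtain ⟨B', h1, h2⟩ := extend_base (G := Perm α) (X := X) m (S.image (fun c => c • x₀))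
      (by rw [heq]; exact hK)
    refine ⟨B', ?_, h2⟩
    have := Finset.card_image_le (s := S) (f := fun c => c • x₀)
    omega

end Pool.Agent.Zk65.BaseSym
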