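import Mathlib

/-!
# The rational Urysohn space

Existence of a countable metric space with rational distances and the one-point extension
property for finite subsets; ultrahomogeneity and embedding of countable rational metric spaces.
-/

set_option autoImplicit false

namespace Pool.Agent.Zk65.Ury

open Set

/-! ### existence -/

/-- `D` is a metric on `{0, ..., n-1}`. -/
structure Met (n : ℕ) (D : ℕ → ℕ → ℚ) : Prop where
  self : ∀ i < n, D i i = 0
  pos : ∀ i < n, ∀ j < n, i ≠ j → 0 < D i j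
  symm : ∀ i < n, ∀ j < n, D i j = D j i
  tri : ∀ i < n, ∀ j < n, ∀ k < n, D i k ≤ D i j + D j k

/-- The task given by a list of pairs (point, distance) is consistent. -/
def Good (n : ℕ) (D : ℕ → ℕ → ℚ) (L : List (ℕ × ℚ)) : Prop :=
  (∀ p ∈ L, p.1 < n ∧ 0 < p.2) ∧
    ∀ p ∈ L, ∀ q ∈ L, p.2 ≤ q.2 + D q.1 p.1 ∧ D p.1 q.1 ≤ p.2 + q.2

lemma exists_fun {n : ℕ} {D : ℕ → ℕ → ℚ} (hD : Met n D) (L : List (ℕ × ℚ)) :
    ∃ f : ℕ → ℚ, (∀ i < n, 0 < f i) ∧
      (∀ i < n, ∀ j < n, f i ≤ f j + D j i ∧ D i j ≤ f i + f j) ∧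
      (Good n D L → ∀ p ∈ L, f p.1 = p.2) := by
  classical
  by_cases hG : Good n D L ∧ L ≠ []
  · obtain ⟨hG, hL⟩ := hG
    have hne : (L.toFinset).Nonempty := by
      obtain ⟨p, hp⟩ := List.exists_mem_of_ne_nil L hL
      exact ⟨p, List.mem_toFinset.2 hp⟩
    let F : ℕ → ℚ := fun i => L.toFinset.inf' hne (fun p => p.2 + D p.1 i)
    have hF1 : ∀ i, ∀ p ∈ L, F i ≤ p.2 + D p.1 i := by
      intro i p hp
      exact Finset.inf'_le (fun p : ℕ × ℚ => p.2 + D p.1 i) (List.mem_toFinset.2 hp)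
    have hF2 : ∀ i, ∃ p ∈ L, F i = p.2 + D p.1 i := by
      intro i
      obtain ⟨p, hp, hp'⟩ := Finset.exists_mem_eq_inf' hne (fun p : ℕ × ℚ => p.2 + D p.1 i)
      exact ⟨p, List.mem_toFinset.1 hp, hp'⟩
    have hnn : ∀ i < n, ∀ j < n, 0 ≤ D i j := by
      intro i hi j hj
      by_cases h : i = j
      · subst h; rw [hD.self i hi]
      · exact (hD.pos i hi j hj h).le
    refine ⟨F, ?_, ?_, ?_⟩
    · intro i hi
      obtain ⟨p, hp, hp'⟩ := hF2 i
      rw [hp']
      have h1 := (hG.1 p hp).2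
      have h2 := hnn p.1 (hG.1 p hp).1 i hi
      linarith
    · intro i hi j hj
      constructor
      · obtain ⟨p, hp, hp'⟩ := hF2 j
        have h1 := hF1 i p hp
        have h2 := hD.tri p.1 (hG.1 p hp).1 j hj i hi
        linarith
      · obtain ⟨p, hp, hp'⟩ := hF2 i
        obtain ⟨q, hq, hq'⟩ := hF2 j
        have h1 := (hG.2 p hp q hq).2
        have h2 := hD.tri i hi p.1 (hG.1 p hp).1 j hj
        have h3 := hD.tri p.1 (hG.1 p hp).1 q.1 (hG.1 q hq).1 j hj
        have h4 := hD.symm i hi p.1 (hG.1 p hp).1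
        linarith
    · intro _ p hp
      apply le_antisymm
      · have := hF1 p.1 p hp
        rw [hD.self p.1 (hG.1 p hp).1] at this
        linarith
      · obtain ⟨q, hq, hq'⟩ := hF2 p.1
        rw [hq']
        exact (hG.2 p hp q hq).1
  · rcases Nat.eq_zero_or_pos n with rfl | hn
    · refine ⟨fun _ => 0, fun i hi => absurd hi (by omega), fun i hi => absurd hi (by omega), ?_⟩
      intro h p hp
      exact absurd (h.1 p hp).1 (by omega)
    · refine ⟨fun i => 1 + D 0 i, ?_, ?_, ?_⟩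
      · intro i hi
        change 0 < 1 + D 0 i
        by_cases h : 0 = i
        · subst h; rw [hD.self 0 hi]; norm_num
        · have := hD.pos 0 hn i hi h
          linarith
      · intro i hi j hj
        constructor
        · have := hD.tri 0 hn j hj i hi
          linarith
        · have := hD.tri i hi 0 hn j hj
          have h2 := hD.symm i hi 0 hn
          linarith
      · intro h p hp
        exfalso
        apply hG
        refine ⟨h, ?_⟩
        rintro rfl
        simp at hp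

lemma exists_ext {n : ℕ} {D : ℕ → ℕ → ℚ} (hD : Met n D) (L : List (ℕ × ℚ)) :
    ∃ D' : ℕ → ℕ → ℚ, Met (n + 1) D' ∧ (∀ i < n, ∀ j < n, D' i j = D i j) ∧
      (Good n D L → ∀ p ∈ L, D' n p.1 = p.2) := by
  classical
  obtain ⟨f, hf1, hf2, hf3⟩ := exists_fun hD L
  let D' : ℕ → ℕ → ℚ :=
    fun i j => if i < n then (if j < n then D i j else f i) else (if j < n then f j else 0)
  have e1 : ∀ i < n, ∀ j < n, D' i j = D i j := by
    intro i hi j hj; simp [D', hi, hj]
  have e2 : ∀ i < n, D' i n = f i := by intro i hi; simp [D', hi]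
  have e3 : ∀ i < n, D' n i = f i := by intro i hi; simp [D', hi]
  have e4 : D' n n = 0 := by simp [D']
  refine ⟨D', ⟨?_, ?_, ?_, ?_⟩, e1, ?_⟩
  · intro i hi
    rcases Nat.lt_succ_iff_lt_or_eq.1 hi with h | rfl
    · rw [e1 i h i h, hD.self i h]
    · exact e4
  · intro i hi j hj hij
    rcases Nat.lt_succ_iff_lt_or_eq.1 hi with h | rfl <;>
      rcases Nat.lt_succ_iff_lt_or_eq.1 hj with h' | rfl
    · rw [e1 i h j h']; exact hD.pos i h j h' hij
    · rw [e2 i h]; exact hf1 i h
    · rw [e3 j h']; exact hf1 j h'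
    · exact absurd rfl hij
  · intro i hi j hj
    rcases Nat.lt_succ_iff_lt_or_eq.1 hi with h | rfl <;>
      rcases Nat.lt_succ_iff_lt_or_eq.1 hj with h' | rfl
    · rw [e1 i h j h', e1 j h' i h]; exact hD.symm i h j h'
    · rw [e2 i h, e3 i h]
    · rw [e3 j h', e2 j h']
    · rfl
  · intro i hi j hj k hk
    rcases Nat.lt_succ_iff_lt_or_eq.1 hi with h | rfl <;>
      rcases Nat.lt_succ_iff_lt_or_eq.1 hj with h' | rfl <;>
      rcases Nat.lt_succ_iff_lt_or_eq.1 hk with h'' | rfl
    · rw [e1 i h j h', e1 j h' k h'', e1 i h k h'']; exact hD.tri i h j h' k h''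
    · rw [e2 i h, e1 i h j h', e2 j h']
      have := (hf2 i h j h').1
      rw [hD.symm j h' i h] at this
      linarith
    · rw [e1 i h k h'', e2 i h, e3 k h'']; exact (hf2 i h k h'').2
    · rw [e2 i h, e4]; linarith
    · rw [e3 k h'', e3 j h', e1 j h' k h'']
      exact (hf2 k h'' j h').1
    · rw [e4, e3 j h', e2 j h']
      have := hf1 j h'
      linarith
    · rw [e4]; linarith
    · rw [e4]; norm_num
  · intro hG p hp
    rw [e3 p.1 (hG.1 p hp).1]
    exact hf3 hG p hp

/-- The tasks. -/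
noncomputable def task (n : ℕ) : List (ℕ × ℚ) := (Encodable.decode n.unpair.1).getD []

lemma task_surj (L : List (ℕ × ℚ)) (N : ℕ) : ∃ n, N ≤ n ∧ task n = L := by
  refine ⟨Nat.pair (Encodable.encode L) N, Nat.right_le_pair _ _, ?_⟩
  simp [task]

theorem exists_matrix : ∃ D : ℕ → ℕ → ℚ, (∀ n, Met n D) ∧
    ∀ n, Good n D (task n) → ∀ p ∈ task n, D n p.1 = p.2 := by
  classical
  let St : ℕ → Type := fun n => {D : ℕ → ℕ → ℚ // Met n D}
  have step : ∀ (n : ℕ) (s : St n), ∃ t : St (n + 1), (∀ i < n, ∀ j < n, t.1 i j = s.1 i j) ∧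
      (Good n s.1 (task n) → ∀ p ∈ task n, t.1 n p.1 = p.2) := by
    rintro n ⟨D, hD⟩
    obtain ⟨D', h1, h2, h3⟩ := exists_ext hD (task n)
    exact ⟨⟨D', h1⟩, h2, h3⟩
  choose nxt hn1 hn2 using step
  let s0 : St 0 := ⟨fun _ _ => 0, ⟨fun i hi => absurd hi (by omega), fun i hi => absurd hi (by omega),
    fun i hi => absurd hi (by omega), fun i hi => absurd hi (by omega)⟩⟩
  let S : (n : ℕ) → St n := fun n => Nat.rec s0 (fun n s => nxt n s) n
  have hS : ∀ n, S (n + 1) = nxt n (S n) := fun n => rfl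
  have hagree : ∀ k l, k ≤ l → ∀ i < k, ∀ j < k, (S l).1 i j = (S k).1 i j := by
    intro k l h
    induction h with
    | refl => intros; rfl
    | @step m h ih =>
      intro i hi j hj
      rw [hS, hn1 m (S m) i (lt_of_lt_of_le hi h) j (lt_of_lt_of_le hj h)]
      exact ih i hi j hj
  let D : ℕ → ℕ → ℚ := fun i j => (S (max i j + 1)).1 i j
  have hD : ∀ k, ∀ i < k, ∀ j < k, D i j = (S k).1 i j := by
    intro k i hi j hj
    have h : max i j + 1 ≤ k := by
      have := max_lt hi hj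
      omega
    exact (hagree _ _ h i (by have := le_max_left i j; omega) j
      (by have := le_max_right i j; omega)).symm
  refine ⟨D, fun n => ⟨?_, ?_, ?_, ?_⟩, ?_⟩
  · intro i hi
    rw [hD n i hi i hi]; exact (S n).2.self i hi
  · intro i hi j hj hij
    rw [hD n i hi j hj]; exact (S n).2.pos i hi j hj hij
  · intro i hi j hj
    rw [hD n i hi j hj, hD n j hj i hi]; exact (S n).2.symm i hi j hj
  · intro i hi j hj k hk
    rw [hD n i hi j hj, hD n j hj k hk, hD n i hi k hk]; exact (S n).2.tri i hi j hj k hk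
  · intro n hG p hp
    have hp1 : p.1 < n := (hG.1 p hp).1
    rw [hD (n + 1) n (by omega) p.1 (by omega), hS]
    refine hn2 n (S n) ⟨hG.1, ?_⟩ p hp
    intro p hp q hq
    rw [← hD n q.1 (hG.1 q hq).1 p.1 (hG.1 p hp).1, ← hD n p.1 (hG.1 p hp).1 q.1 (hG.1 q hq).1]
    exact hG.2 p hp q hq

/-- The extension property. -/
def ExtProp (X : Type) [MetricSpace X] : Prop :=
  ∀ (A : Finset X) (f : X → ℚ), (∀ a ∈ A, 0 < f a) →
    (∀ a ∈ A, ∀ b ∈ A, |(f a : ℝ) - (f b : ℝ)| ≤ dist a b ∧ dist a b ≤ (f a : ℝ) + (f b : ℝ)) →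
    ∃ x : X, ∀ a ∈ A, dist x a = (f a : ℝ)

/-- There is a rational Urysohn space. -/
theorem exists_urysohn : ∃ (X : Type) (_ : MetricSpace X), Countable X ∧
    (∀ x y : X, ∃ q : ℚ, dist x y = (q : ℝ)) ∧ ExtProp X := by
  classical
  obtain ⟨D, hD, hT⟩ := exists_matrix
  let M : MetricSpace ℕ :=
    { dist := fun i j => ((D i j : ℚ) : ℝ)
      dist_self := by
        intro i
        rw [(hD (i + 1)).self i (by omega)]
        simp
      dist_comm := by
        intro i j
        rw [(hD (max i j + 1)).symm i (by have := le_max_left i j; omega) j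
          (by have := le_max_right i j; omega)]
      dist_triangle := by
        intro i j k
        have := (hD (i + j + k + 1)).tri i (by omega) j (by omega) k (by omega)
        exact_mod_cast this
      eq_of_dist_eq_zero := by
        intro i j h
        change ((D i j : ℚ) : ℝ) = 0 at h
        by_contra hij
        have := (hD (i + j + 1)).pos i (by omega) j (by omega) hij
        have h2 : D i j = 0 := by exact_mod_cast h
        linarith }
  refine ⟨ℕ, M, inferInstance, fun x y => ⟨D x y, rfl⟩, ?_⟩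
  intro A f hf1 hf2
  let L : List (ℕ × ℚ) := A.toList.map (fun a => (a, f a))
  obtain ⟨N, hN⟩ : ∃ N, ∀ a ∈ A, a < N := by
    refine ⟨A.sup id + 1, fun a ha => ?_⟩
    exact Nat.lt_succ_of_le (Finset.le_sup (f := id) ha)
  obtain ⟨n, hn, hnL⟩ := task_surj L N
  have hmem : ∀ p ∈ L, p.1 ∈ A ∧ p.2 = f p.1 := by
    intro p hp
    obtain ⟨a, ha, rfl⟩ := List.mem_map.1 hp
    exact ⟨Finset.mem_toList.1 ha, rfl⟩
  have hG : Good n D (task n) := by
    rw [hnL]
    refine ⟨?_, ?_⟩
    · intro p hp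
      obtain ⟨h1, h2⟩ := hmem p hp
      exact ⟨(hN _ h1).trans_le hn, by rw [h2]; exact hf1 _ h1⟩
    · intro p hp q hq
      obtain ⟨h1, h2⟩ := hmem p hp
      obtain ⟨h3, h4⟩ := hmem q hq
      have h5 := hf2 _ h1 _ h3
      change |(f p.1 : ℝ) - (f q.1 : ℝ)| ≤ ((D p.1 q.1 : ℚ) : ℝ) ∧
        ((D p.1 q.1 : ℚ) : ℝ) ≤ (f p.1 : ℝ) + (f q.1 : ℝ) at h5
      have h6 : D q.1 p.1 = D p.1 q.1 := (hD n).symm _ ((hN _ h3).trans_le hn) _
        ((hN _ h1).trans_le hn)
      rw [h2, h4, h6]
      constructor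
      · have h7 := (abs_le.1 h5.1).2
        have : (f p.1 : ℝ) ≤ (f q.1 : ℝ) + ((D p.1 q.1 : ℚ) : ℝ) := by linarith
        exact_mod_cast this
      · exact_mod_cast h5.2
  refine ⟨n, fun a ha => ?_⟩
  have h1 := hT n hG (a, f a) (by
    rw [hnL]
    exact List.mem_map.2 ⟨a, Finset.mem_toList.2 ha, rfl⟩)
  change ((D n a : ℚ) : ℝ) = (f a : ℝ)
  rw [h1]

/-! ### consequences of the extension property -/

section

variable {X : Type} [MetricSpace X]

/-- Extension property for families. -/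
lemma ext_fin (hext : ExtProp X) {ι : Type*} [Finite ι] (x : ι → X) (r : ι → ℚ)
    (h1 : ∀ i j, (r i : ℝ) ≤ r j + dist (x i) (x j))
    (h2 : ∀ i j, dist (x i) (x j) ≤ (r i : ℝ) + r j) :
    ∃ y, ∀ i, dist y (x i) = r i := by
  classical
  have := Fintype.ofFinite ι
  have hnn : ∀ i, 0 ≤ r i := by
    intro i
    have := h2 i i
    rw [dist_self] at this
    have h3 : (0 : ℝ) ≤ r i := by linarith
    exact_mod_cast h3
  by_cases h0 : ∃ i, r i = 0
  · obtain ⟨i, hi⟩ := h0
    refine ⟨x i, fun j => ?_⟩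
    apply le_antisymm
    · have := h2 i j
      rw [hi] at this
      simpa using this
    · have := h1 j i
      rw [hi, dist_comm] at this
      simpa using this
  · push Not at h0
    have hpos : ∀ i, 0 < r i := fun i => lt_of_le_of_ne (hnn i) (Ne.symm (h0 i))
    -- function on X
    let f : X → ℚ := fun z => if h : ∃ i, x i = z then r h.choose else 1
    have hf : ∀ i, f (x i) = r i := by
      intro i
      have h : ∃ j, x j = x i := ⟨i, rfl⟩
      have hc := h.choose_spec
      simp only [f, h, dif_pos]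
      set j := h.choose
      have e1 := h1 j i
      have e2 := h1 i j
      rw [hc, dist_self, add_zero] at e1
      rw [hc, dist_self, add_zero] at e2
      have : (r j : ℝ) = r i := le_antisymm e1 e2
      exact_mod_cast this
    obtain ⟨y, hy⟩ := hext (Finset.univ.image x) f (by
      intro a ha
      obtain ⟨i, -, rfl⟩ := Finset.mem_image.1 ha
      rw [hf]
      exact hpos i) (by
      intro a ha b hb
      obtain ⟨i, -, rfl⟩ := Finset.mem_image.1 ha
      obtain ⟨j, -, rfl⟩ := Finset.mem_image.1 hb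
      rw [hf, hf]
      refine ⟨?_, h2 i j⟩
      rw [abs_le]
      have e1 := h1 i j
      have e2 := h1 j i
      rw [dist_comm (x j) (x i)] at e2
      constructor <;> linarith)
    refine ⟨y, fun i => ?_⟩
    rw [hy _ (Finset.mem_image_of_mem x (Finset.mem_univ i)), hf]

/-- Countable rational pseudo-metric spaces embed. -/
lemma realize_nat (hext : ExtProp X) (δ : ℕ → ℕ → ℚ) (h0 : ∀ i, δ i i = 0)
    (hs : ∀ i j, δ i j = δ j i) (ht : ∀ i j k, δ i k ≤ δ i j + δ j k) :
    ∃ p : ℕ → X, ∀ i j, dist (p i) (p j) = (δ i j : ℝ) := by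
  classical
  obtain ⟨x0, -⟩ := hext ∅ (fun _ => 0) (by simp) (by simp)
  let St : ℕ → Type := fun n => {p : ℕ → X // ∀ i < n, ∀ j < n, dist (p i) (p j) = (δ i j : ℝ)}
  have step : ∀ (n : ℕ) (s : St n), ∃ t : St (n + 1), (∀ i < n, t.1 i = s.1 i) := by
    rintro n ⟨p, hp⟩
    obtain ⟨y, hy⟩ := ext_fin hext (fun i : Fin n => p i) (fun i => δ n i)
      (by
        intro i j
        rw [hp i i.2 j j.2]
        have := ht n j i
        rw [hs j i] at this
        exact_mod_cast this)
      (by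
        intro i j
        rw [hp i i.2 j j.2]
        have := ht i n j
        rw [hs i n] at this
        exact_mod_cast this)
    refine ⟨⟨Function.update p n y, ?_⟩, ?_⟩
    · intro i hi j hj
      rcases Nat.lt_succ_iff_lt_or_eq.1 hi with h | rfl <;>
        rcases Nat.lt_succ_iff_lt_or_eq.1 hj with h' | rfl
      · rw [Function.update_of_ne h.ne, Function.update_of_ne h'.ne]
        exact hp i h j h'
      · rw [Function.update_of_ne h.ne, Function.update_self, dist_comm, hs]
        exact hy ⟨i, h⟩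
      · rw [Function.update_of_ne h'.ne, Function.update_self]
        exact hy ⟨j, h'⟩
      · rw [dist_self, h0]; simp
    · intro i hi
      exact Function.update_of_ne hi.ne _ _
  choose nxt hn using step
  let S : (n : ℕ) → St n := fun n => Nat.rec
    (⟨fun _ => x0, fun i hi => absurd hi (by omega)⟩ : St 0) (fun n s => nxt n s) n
  have hS : ∀ n, S (n + 1) = nxt n (S n) := fun n => rfl
  have hagree : ∀ k l, k ≤ l → ∀ i < k, (S l).1 i = (S k).1 i := by
    intro k l h
    induction h with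
    | refl => intros; rfl
    | @step m h ih =>
      intro i hi
      rw [hS, hn m (S m) i (lt_of_lt_of_le hi h)]
      exact ih i hi
  refine ⟨fun i => (S (i + 1)).1 i, fun i j => ?_⟩
  have hi := hagree (i + 1) (i + j + 1) (by omega) i (by omega)
  have hj := hagree (j + 1) (i + j + 1) (by omega) j (by omega)
  change dist ((S (i + 1)).1 i) ((S (j + 1)).1 j) = _
  rw [← hi, ← hj]
  exact (S (i + j + 1)).2 i (by omega) j (by omega)

lemma realize (hext : ExtProp X) {J : Type*} [Countable J] (δ : J → J → ℝ)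
    (hq : ∀ i j, ∃ q : ℚ, δ i j = q) (h0 : ∀ i, δ i i = 0)
    (hs : ∀ i j, δ i j = δ j i) (ht : ∀ i j k, δ i k ≤ δ i j + δ j k) :
    ∃ p : J → X, ∀ i j, dist (p i) (p j) = δ i j := by
  classical
  rcases isEmpty_or_nonempty J with hJ | hJ
  · exact ⟨fun i => (hJ.false i).elim, fun i => (hJ.false i).elim⟩
  · obtain ⟨e, he⟩ := exists_surjective_nat J
    choose q hq using hq
    obtain ⟨p, hp⟩ := realize_nat hext (fun i j => q (e i) (e j))
      (fun i => by have := hq (e i) (e i); rw [h0] at this; exact_mod_cast this.symm)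
      (fun i j => by
        have h1 := hq (e i) (e j)
        have h2 := hq (e j) (e i)
        rw [hs] at h1
        rw [h1] at h2
        exact_mod_cast h2)
      (fun i j k => by
        have h := ht (e i) (e j) (e k)
        rw [hq, hq, hq] at h
        exact_mod_cast h)
    choose s hs' using he
    refine ⟨fun i => p (s i), fun i j => ?_⟩
    rw [hp, hs', hs', ← hq]

/-- Finite partial isometries. -/
structure PI (X : Type) [MetricSpace X] where
  s : Finset (X × X)
  iso : ∀ p ∈ s, ∀ q ∈ s, dist p.1 q.1 = dist p.2 q.2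

instance : Preorder (PI X) where
  le a b := a.s ⊆ b.s
  le_refl _ := Finset.Subset.refl _
  le_trans _ _ _ h1 h2 := Finset.Subset.trans h1 h2

lemma PI.le_def {a b : PI X} : a ≤ b ↔ a.s ⊆ b.s := Iff.rfl

/-- the inverse -/
noncomputable def PI.symm [DecidableEq X] (a : PI X) : PI X where
  s := a.s.image Prod.swap
  iso := by
    intro p hp q hq
    obtain ⟨p', hp', rfl⟩ := Finset.mem_image.1 hp
    obtain ⟨q', hq', rfl⟩ := Finset.mem_image.1 hq
    exact (a.iso p' hp' q' hq').symm

lemma PI.extend (hq : ∀ x y : X, ∃ q : ℚ, dist x y = (q : ℝ)) (hext : ExtProp X) (a : PI X)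
    (x : X) : ∃ b : PI X, a ≤ b ∧ ∃ y, (x, y) ∈ b.s := by
  classical
  choose r hr using hq x
  obtain ⟨y, hy⟩ := ext_fin hext (ι := {p // p ∈ a.s}) (fun p => p.1.2) (fun p => r p.1.1)
    (by
      rintro ⟨p, hp⟩ ⟨q, hq⟩
      simp only
      rw [← hr, ← hr, ← a.iso p hp q hq]
      have := dist_triangle x q.1 p.1
      rw [dist_comm p.1 q.1]
      exact this)
    (by
      rintro ⟨p, hp⟩ ⟨q, hq⟩
      simp only
      rw [← hr, ← hr, ← a.iso p hp q hq]
      exact dist_triangle_left p.1 q.1 x)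
  refine ⟨⟨insert (x, y) a.s, ?_⟩, Finset.subset_insert _ _, y, Finset.mem_insert_self _ _⟩
  have key : ∀ q ∈ a.s, dist x q.1 = dist y q.2 := by
    intro q hq
    rw [hr q.1]
    exact (hy ⟨q, hq⟩).symm
  intro p hp q hq
  rw [Finset.mem_insert] at hp hq
  rcases hp with rfl | hp <;> rcases hq with rfl | hq
  · simp
  · exact key q hq
  · simp only
    rw [dist_comm p.1 x, dist_comm p.2 y]
    exact key p hp
  · exact a.iso p hp q hq

/-- Ultrahomogeneity. -/
theorem homog [Countable X] (hq : ∀ x y : X, ∃ q : ℚ, dist x y = (q : ℝ)) (hext : ExtProp X)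
    {ι : Type*} [Finite ι] (x y : ι → X) (h : ∀ i j, dist (x i) (x j) = dist (y i) (y j)) :
    ∃ g : X ≃ᵢ X, ∀ i, g (x i) = y i := by
  classical
  have := Fintype.ofFinite ι
  obtain ⟨x0, -⟩ := hext ∅ (fun _ => 0) (by simp) (by simp)
  have : Encodable X := Encodable.ofCountable X
  let a0 : PI X := ⟨Finset.univ.image (fun i => (x i, y i)), by
    intro p hp q hq
    obtain ⟨i, -, rfl⟩ := Finset.mem_image.1 hp
    obtain ⟨j, -, rfl⟩ := Finset.mem_image.1 hq
    exact h i j⟩
  let DL : X → Order.Cofinal (PI X) := fun z =>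
    ⟨{b | ∃ w, (z, w) ∈ b.s}, fun a => by
      obtain ⟨b, hb, w, hw⟩ := a.extend hq hext z
      exact ⟨b, ⟨w, hw⟩, hb⟩⟩
  let DR : X → Order.Cofinal (PI X) := fun z =>
    ⟨{b | ∃ w, (w, z) ∈ b.s}, fun a => by
      obtain ⟨b, hb, w, hw⟩ := a.symm.extend hq hext z
      refine ⟨b.symm, ⟨w, ?_⟩, ?_⟩
      · exact Finset.mem_image.2 ⟨(z, w), hw, rfl⟩
      · intro p hp
        refine Finset.mem_image.2 ⟨p.swap, hb (Finset.mem_image.2 ⟨p, hp, rfl⟩), Prod.swap_swap p⟩⟩
  let DD : X ⊕ X → Order.Cofinal (PI X) := fun z => Sum.elim DL DR z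
  let I := Order.idealOfCofinals a0 DD
  have hL : ∀ z, ∃ w, ∃ b ∈ I, (z, w) ∈ b.s := by
    intro z
    obtain ⟨b, hb1, hb2⟩ := Order.cofinal_meets_idealOfCofinals a0 DD (Sum.inl z)
    obtain ⟨w, hw⟩ := hb1
    exact ⟨w, b, hb2, hw⟩
  have hR : ∀ z, ∃ w, ∃ b ∈ I, (w, z) ∈ b.s := by
    intro z
    obtain ⟨b, hb1, hb2⟩ := Order.cofinal_meets_idealOfCofinals a0 DD (Sum.inr z)
    obtain ⟨w, hw⟩ := hb1
    exact ⟨w, b, hb2, hw⟩
  have hiso : ∀ p q : X × X, (∃ b ∈ I, p ∈ b.s) → (∃ b ∈ I, q ∈ b.s) →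
      dist p.1 q.1 = dist p.2 q.2 := by
    rintro p q ⟨b, hb, hp⟩ ⟨c, hc, hq⟩
    obtain ⟨d, hd, hbd, hcd⟩ := I.directed b hb c hc
    exact d.iso p (hbd hp) q (hcd hq)
  choose f hf using hL
  choose g hg using hR
  have hfg : ∀ z, f (g z) = z := by
    intro z
    have := hiso (g z, f (g z)) (g z, z) (hf (g z)) (hg z)
    rw [dist_self] at this
    exact dist_eq_zero.1 this.symm
  have hgf : ∀ z, g (f z) = z := by
    intro z
    have := hiso (g (f z), f z) (z, f z) (hg (f z)) (hf z)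
    simp only [dist_self] at this
    exact dist_eq_zero.1 this
  refine ⟨⟨⟨f, g, hgf, hfg⟩, ?_⟩, ?_⟩
  · apply Isometry.of_dist_eq
    intro z w
    exact (hiso (z, f z) (w, f w) (hf z) (hf w)).symm
  · intro i
    have ha0 : a0 ∈ I := Order.mem_idealOfCofinals a0 DD
    have := hiso (x i, f (x i)) (x i, y i) (hf (x i)) ⟨a0, ha0,
      Finset.mem_image.2 ⟨i, Finset.mem_univ i, rfl⟩⟩
    rw [dist_self] at this
    exact dist_eq_zero.1 this.symm

end

end Pool.Agent.Zk65.Ury
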