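import Mathlib
import Pool.Agent.Zk65.Refl
import Pool.Agent.Zk65.Ury

/-!
# Configurations of copies of a finite set in the rational Urysohn space
-/

set_option autoImplicit false

namespace Pool.Agent.Zk65.Conf

open Pool.Agent.Zk65.Ury Pool.Agent.Zk65.Refl

variable {X : Type} [MetricSpace X]

/-- Copies of the finite set `F`, at constant distances from each other and from a base `B`. -/
lemma conf [Countable X] (hq : ∀ x y : X, ∃ q : ℚ, dist x y = (q : ℝ)) (hext : ExtProp X)
    (F B : Finset X) {I : Type} [Countable I] (ρ : I → I → ℚ) (c : ℚ)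
    (hρs : ∀ i j, ρ i j = ρ j i)
    (hρt : ∀ i j k, i ≠ j → j ≠ k → i ≠ k → ρ i k ≤ ρ i j + ρ j k)
    (hρc : ∀ i j, i ≠ j → ρ i j ≤ 2 * c)
    (hFρ : ∀ i j, i ≠ j → ∀ x ∈ F, ∀ y ∈ F, dist x y ≤ 2 * (ρ i j : ℝ))
    (hFc : ∀ x ∈ F, ∀ y ∈ F, dist x y ≤ 2 * (c : ℝ))
    (hBc : ∀ x ∈ B, ∀ y ∈ B, dist x y ≤ 2 * (c : ℝ)) (hc : 0 ≤ c) (hρ0 : ∀ i j, 0 ≤ ρ i j) :
    ∃ g : I → (X ≃ᵢ X), (∀ i, ∀ b ∈ B, ∀ x ∈ F, dist b (g i x) = c) ∧
      ∀ i j, i ≠ j → ∀ x ∈ F, ∀ y ∈ F, dist (g i x) (g j y) = ρ i j := by
  classical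
  let δ : {b // b ∈ B} ⊕ (I × {x // x ∈ F}) → {b // b ∈ B} ⊕ (I × {x // x ∈ F}) → ℝ :=
    fun p q => match p, q with
    | Sum.inl b, Sum.inl b' => dist b.1 b'.1
    | Sum.inl _, Sum.inr _ => c
    | Sum.inr _, Sum.inl _ => c
    | Sum.inr (i, x), Sum.inr (j, y) => if i = j then dist x.1 y.1 else ρ i j
  have hc' : (0 : ℝ) ≤ c := by exact_mod_cast hc
  have hρ0' : ∀ i j, (0 : ℝ) ≤ ρ i j := fun i j => by exact_mod_cast hρ0 i j
  have hρc' : ∀ i j, i ≠ j → (ρ i j : ℝ) ≤ 2 * c := fun i j h => by exact_mod_cast hρc i j h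
  have hρt' : ∀ i j k, i ≠ j → j ≠ k → i ≠ k → (ρ i k : ℝ) ≤ ρ i j + ρ j k :=
    fun i j k h1 h2 h3 => by exact_mod_cast hρt i j k h1 h2 h3
  obtain ⟨p, hp⟩ := realize hext δ
    (by
      rintro (b | ⟨i, x⟩) (b' | ⟨j, y⟩)
      · exact hq _ _
      · exact ⟨c, rfl⟩
      · exact ⟨c, rfl⟩
      · by_cases h : i = j
        · obtain ⟨q, hq⟩ := hq x.1 y.1
          exact ⟨q, by simp only [δ, h, if_true]; exact hq⟩
        · exact ⟨ρ i j, by simp only [δ, h, if_false]⟩)
    (by
      rintro (b | ⟨i, x⟩)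
      · exact dist_self _
      · simp [δ])
    (by
      rintro (b | ⟨i, x⟩) (b' | ⟨j, y⟩)
      · exact dist_comm _ _
      · rfl
      · rfl
      · by_cases h : i = j
        · subst h; simp only [δ, if_true]; exact dist_comm _ _
        · simp only [δ, h, Ne.symm h, if_false]; rw [hρs])
    (by
      rintro (b | ⟨i, x⟩) (b' | ⟨j, y⟩) (b'' | ⟨k, z⟩)
      · exact dist_triangle _ _ _
      · simp only [δ]; have := dist_nonneg (x := b.1) (y := b'.1); linarith
      · simp only [δ]; have := hBc b.1 b.2 b''.1 b''.2; linarith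
      · simp only [δ]
        by_cases h : j = k
        · simp only [h, if_true]; have := dist_nonneg (x := y.1) (y := z.1); linarith
        · simp only [h, if_false]; have := hρ0' j k; linarith
      · simp only [δ]; have := dist_nonneg (x := b'.1) (y := b''.1); linarith
      · simp only [δ]
        by_cases h : i = k
        · simp only [h, if_true]; have := hFc x.1 x.2 z.1 z.2; linarith
        · simp only [h, if_false]; have := hρc' i k h; linarith
      · simp only [δ]
        by_cases h : i = j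
        · simp only [h, if_true]; have := dist_nonneg (x := x.1) (y := y.1); linarith
        · simp only [h, if_false]; have := hρ0' i j; linarith
      · simp only [δ]
        by_cases h1 : i = j
        · subst h1
          by_cases h2 : i = k
          · subst h2
            simp only [if_true]
            exact dist_triangle _ _ _
          · simp only [if_true, h2, if_false]
            have := dist_nonneg (x := x.1) (y := y.1); linarith
        · by_cases h2 : j = k
          · subst h2
            simp only [h1, if_true, if_false]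
            have := dist_nonneg (x := y.1) (y := z.1); linarith
          · by_cases h3 : i = k
            · subst h3
              simp only [h1, h2, if_true, if_false]
              have e1 := hFρ i j h1 x.1 x.2 z.1 z.2
              rw [hρs j i]; linarith
            · simp only [h1, h2, h3, if_false]
              exact hρt' i j k h1 h2 h3)
  -- move the base to its place
  obtain ⟨u, hu⟩ := homog hq hext (fun b : {b // b ∈ B} => p (Sum.inl b)) (fun b => b.1)
    (fun b b' => by rw [hp])
  have h2 : ∀ i, ∃ g : X ≃ᵢ X, ∀ x : {x // x ∈ F}, g x.1 = u (p (Sum.inr (i, x))) := by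
    intro i
    refine homog hq hext (fun x : {x // x ∈ F} => x.1) (fun x => u (p (Sum.inr (i, x))))
      (fun x y => ?_)
    rw [u.isometry.dist_eq, hp]
    simp [δ]
  choose g hg using h2
  refine ⟨g, ?_, ?_⟩
  · intro i b hb x hx
    have e : dist (u (p (Sum.inl ⟨b, hb⟩))) (u (p (Sum.inr (i, ⟨x, hx⟩)))) = (c : ℝ) := by
      rw [u.isometry.dist_eq, hp]
    rw [hg i ⟨x, hx⟩]
    rwa [hu ⟨b, hb⟩] at e
  · intro i j hij x hx y hy
    rw [hg i ⟨x, hx⟩, hg j ⟨y, hy⟩, u.isometry.dist_eq, hp]
    simp [δ, hij]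

/-! ### the interlacing metric on lists -/

/-- number of entries `≤ n` -/
def N (l : List ℕ) (n : ℕ) : ℤ := (l.countP (· ≤ n) : ℕ)

lemma N_nonneg (l : List ℕ) (n : ℕ) : 0 ≤ N l n := Int.natCast_nonneg _

lemma N_le (l : List ℕ) (n : ℕ) : N l n ≤ l.length := by
  unfold N
  exact_mod_cast List.countP_le_length

lemma N_snoc (l : List ℕ) (x n : ℕ) : N (l ++ [x]) n = N l n + if x ≤ n then 1 else 0 := by
  unfold N
  rw [List.countP_append, List.countP_singleton]
  by_cases h : x ≤ n <;> simp [h]

lemma N_all (l : List ℕ) (n : ℕ) (h : ∀ z ∈ l, z ≤ n) : N l n = l.length := by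
  unfold N
  have : l.countP (· ≤ n) = l.length := by
    rw [List.countP_eq_length]
    intro z hz
    simpa using h z hz
  rw [this]

lemma N_none (l : List ℕ) (n : ℕ) (h : ∀ z ∈ l, n < z) : N l n = 0 := by
  unfold N
  have : l.countP (· ≤ n) = 0 := by
    rw [List.countP_eq_zero]
    intro z hz
    simpa using h z hz
  rw [this]
  rfl

lemma inter_N {a b : List ℕ} (h : Inter a b) (n : ℕ) : (N a n - N b n).natAbs ≤ 1 := by
  have key : 0 ≤ N a n - N b n ∧ N a n - N b n ≤ 1 := by
    induction h with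
    | nil => simp [N]
    | @snoc a b x y h ha hb hxy ih =>
      rw [N_snoc, N_snoc]
      by_cases h1 : x ≤ n
      · have e1 := N_all a n (fun z hz => (ha z hz).le.trans h1)
        have e2 := N_all b n (fun z hz => (hb z hz).le.trans h1)
        have e3 := h.length
        rw [e1, e2, e3]
        by_cases h2 : y ≤ n <;> simp [h1, h2]
      · have h2 : ¬ y ≤ n := by omega
        simp only [h1, h2, if_false]
        simpa using ih
  omega

/-- The interlacing distance. -/
noncomputable def rho (a b : List ℕ) : ℕ := ⨆ n, (N a n - N b n).natAbs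

lemma rho_bdd (a b : List ℕ) (k : ℕ) (ha : a.length = k) (hb : b.length = k) (n : ℕ) :
    (N a n - N b n).natAbs ≤ k := by
  have h1 := N_nonneg a n
  have h2 := N_nonneg b n
  have h3 := N_le a n
  have h4 := N_le b n
  rw [ha] at h3
  rw [hb] at h4
  omega

lemma le_rho (a b : List ℕ) (k : ℕ) (ha : a.length = k) (hb : b.length = k) (n : ℕ) :
    (N a n - N b n).natAbs ≤ rho a b := by
  refine le_ciSup (f := fun n => (N a n - N b n).natAbs) ⟨k, ?_⟩ n
  rintro _ ⟨m, rfl⟩
  exact rho_bdd a b k ha hb m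

lemma rho_le (a b : List ℕ) (c : ℕ) (h : ∀ n, (N a n - N b n).natAbs ≤ c) : rho a b ≤ c :=
  ciSup_le h

lemma rho_comm (a b : List ℕ) : rho a b = rho b a := by
  unfold rho
  congr 1
  funext n
  omega

lemma rho_tri (a b c : List ℕ) (k : ℕ) (ha : a.length = k) (hb : b.length = k)
    (hc : c.length = k) : rho a c ≤ rho a b + rho b c := by
  apply rho_le
  intro n
  have h1 := le_rho a b k ha hb n
  have h2 := le_rho b c k hb hc n
  omega

lemma rho_inter {a b : List ℕ} (h : Inter a b) : rho a b ≤ 1 := rho_le _ _ _ (inter_N h)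

lemma rho_sep {a b : List ℕ} (k : ℕ) (ha : a.length = k) (hb : b.length = k)
    (h : ∀ x ∈ a, ∀ y ∈ b, x < y) : rho a b = k := by
  apply le_antisymm
  · exact rho_le _ _ _ (rho_bdd a b k ha hb)
  · rcases Nat.eq_zero_or_pos k with rfl | hk
    · exact Nat.zero_le _
    · -- take `n` the maximum of `a`
      have hne : a ≠ [] := by
        rintro rfl
        simp at ha
        omega
      obtain ⟨n, hn, hn'⟩ : ∃ n ∈ a, ∀ z ∈ a, z ≤ n := by
        obtain ⟨n, hn⟩ := Option.ne_none_iff_exists'.1 (fun h0 => hne (List.max?_eq_none_iff.1 h0) :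
          a.max? ≠ none)
        rw [List.max?_eq_some_iff] at hn
        exact ⟨n, hn.1, hn.2⟩
      have h1 := N_all a n hn'
      have h2 := N_none b n (fun z hz => h n hn z hz)
      have h3 := le_rho a b k ha hb n
      rw [h1, h2, ha] at h3
      omega

lemma inter_ne {a b : List ℕ} (h : Inter a b) (ha : a ≠ []) : a ≠ b := by
  cases h with
  | nil => exact absurd rfl ha
  | snoc h _ _ hxy =>
    intro e
    have := List.append_inj' e rfl
    simp only [List.cons.injEq, and_true] at this
    omega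

end Pool.Agent.Zk65.Conf
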