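import Mathlib

/-!
An inequality for families of hermitian matrices whose minors of order two are zero or large.
-/

set_option autoImplicit false
set_option linter.unusedSectionVars false

open scoped BigOperators Classical ComplexConjugate

noncomputable section

namespace Pool.Agent.Zk65.HZ

variable {ι T : Type*} [Fintype T]

/-- sum of the phases -/
theorem star_one {I : Finset ι} {G : ι → ι → ℂ} {P : ℝ}
    (hop : ∀ u v : ι → ℂ, (∀ χ ∈ I, ‖u χ‖ = 1) → (∀ χ ∈ I, ‖v χ‖ = 1) →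
      ‖∑ χ ∈ I, ∑ ψ ∈ I, conj (u χ) * G χ ψ * v ψ‖ ≤ P * I.card)
    (hne : ∀ χ ∈ I, ∀ ψ ∈ I, G χ ψ ≠ 0) {θ θ' : ι} (hθ : θ ∈ I) (hθ' : θ' ∈ I)
    (nz : ι → ι → Prop)
    (hz : ∀ χ ∈ I, ∀ ψ ∈ I, ¬ nz χ ψ → G χ ψ * G θ θ' = G χ θ' * G θ ψ) :
    ∑ χ ∈ I, ∑ ψ ∈ I, ‖G χ ψ‖ - P * I.card ≤
      2 * ∑ χ ∈ I, ∑ ψ ∈ I, (if nz χ ψ then ‖G χ ψ‖ else 0) := by
  set c := G θ θ' with hc
  have hc0 : c ≠ 0 := hne θ hθ θ' hθ'
  set u : ι → ℂ := fun χ => G χ θ' / (‖G χ θ'‖ : ℂ) with hu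
  set v : ι → ℂ := fun ψ => conj (G θ ψ) / (‖G θ ψ‖ : ℂ) with hv
  have hu1 : ∀ χ ∈ I, ‖u χ‖ = 1 := by
    intro χ hχ
    have h := hne χ hχ θ' hθ'
    simp only [hu, norm_div, Complex.norm_real, norm_norm]
    exact div_self (norm_ne_zero_iff.mpr h)
  have hv1 : ∀ χ ∈ I, ‖v χ‖ = 1 := by
    intro χ hχ
    have h := hne θ hθ χ hχ
    simp only [hv, norm_div, Complex.norm_real, norm_norm, RCLike.norm_conj]
    exact div_self (norm_ne_zero_iff.mpr h)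
  have h1 := hop u v hu1 hv1
  -- the terms with vanishing minor
  have h2 : ∀ χ ∈ I, ∀ ψ ∈ I, ¬ nz χ ψ → conj (u χ) * G χ ψ * v ψ =
      (‖G χ ψ‖ : ℂ) * ((‖c‖ : ℂ) / c) := by
    intro χ hχ ψ hψ h
    have e := hz χ hχ ψ hψ h
    have ha := hne χ hχ θ' hθ'
    have hb := hne θ hθ ψ hψ
    have hna : (‖G χ θ'‖ : ℂ) ≠ 0 := by exact_mod_cast norm_ne_zero_iff.mpr ha
    have hnb : (‖G θ ψ‖ : ℂ) ≠ 0 := by exact_mod_cast norm_ne_zero_iff.mpr hb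
    have hn : (‖G χ ψ‖ : ℂ) * (‖c‖ : ℂ) = (‖G χ θ'‖ : ℂ) * (‖G θ ψ‖ : ℂ) := by
      have : ‖G χ ψ‖ * ‖c‖ = ‖G χ θ'‖ * ‖G θ ψ‖ := by rw [← norm_mul, e, norm_mul]
      exact_mod_cast this
    have e1 : conj (G χ θ') * G χ θ' = (‖G χ θ'‖ : ℂ) ^ 2 := by
      rw [mul_comm, Complex.mul_conj, Complex.normSq_eq_norm_sq]
      push_cast
      rfl
    have e2 : conj (G θ ψ) * G θ ψ = (‖G θ ψ‖ : ℂ) ^ 2 := by
      rw [mul_comm, Complex.mul_conj, Complex.normSq_eq_norm_sq]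
      push_cast
      rfl
    simp only [hu, hv, map_div₀, Complex.conj_ofReal]
    have h3 : conj (G χ θ') / (‖G χ θ'‖ : ℂ) * G χ ψ * (conj (G θ ψ) / (‖G θ ψ‖ : ℂ)) * c =
        (‖G χ θ'‖ : ℂ) * (‖G θ ψ‖ : ℂ) := by
      have h4 : conj (G χ θ') / (‖G χ θ'‖ : ℂ) * G χ ψ * (conj (G θ ψ) / (‖G θ ψ‖ : ℂ)) * c =
          (conj (G χ θ') * G χ θ') * (conj (G θ ψ) * G θ ψ) /
            ((‖G χ θ'‖ : ℂ) * (‖G θ ψ‖ : ℂ)) := by
        rw [eq_div_iff (mul_ne_zero hna hnb)]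
        field_simp
        linear_combination (conj (G χ θ') * conj (G θ ψ)) * e
      rw [h4, e1, e2]
      field_simp
    have h5 : conj (G χ θ') / (‖G χ θ'‖ : ℂ) * G χ ψ * (conj (G θ ψ) / (‖G θ ψ‖ : ℂ)) =
        (‖G χ ψ‖ : ℂ) * (‖c‖ : ℂ) / c := by
      rw [eq_div_iff hc0, h3, hn]
    rw [h5, mul_div_assoc]
  have hnorm1 : ‖((‖c‖ : ℂ) / c)‖ = 1 := by
    rw [norm_div, Complex.norm_real, norm_norm]
    exact div_self (norm_ne_zero_iff.mpr hc0)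
  set S := ∑ χ ∈ I, ∑ ψ ∈ I, (if nz χ ψ then ‖G χ ψ‖ else 0) with hS
  set W := ∑ χ ∈ I, ∑ ψ ∈ I, ‖G χ ψ‖ with hW
  have h3 : ∑ χ ∈ I, ∑ ψ ∈ I, conj (u χ) * G χ ψ * v ψ = ((W - S : ℝ) : ℂ) * ((‖c‖ : ℂ) / c) +
      ∑ χ ∈ I, ∑ ψ ∈ I, (if nz χ ψ then conj (u χ) * G χ ψ * v ψ else 0) := by
    rw [hW, hS, ← Finset.sum_sub_distrib]
    push_cast
    rw [Finset.sum_mul, ← Finset.sum_add_distrib]
    refine Finset.sum_congr rfl fun χ hχ => ?_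
    rw [← Finset.sum_sub_distrib, Finset.sum_mul, ← Finset.sum_add_distrib]
    refine Finset.sum_congr rfl fun ψ hψ => ?_
    by_cases h : nz χ ψ
    · simp only [h, if_true]
      ring
    · simp only [h, if_false, sub_zero, add_zero]
      rw [h2 χ hχ ψ hψ h]
      push_cast
      ring
  have h4 : ‖∑ χ ∈ I, ∑ ψ ∈ I, (if nz χ ψ then conj (u χ) * G χ ψ * v ψ else 0)‖ ≤ S := by
    refine (norm_sum_le _ _).trans (Finset.sum_le_sum fun χ hχ => ?_)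
    refine (norm_sum_le _ _).trans (Finset.sum_le_sum fun ψ hψ => ?_)
    split_ifs
    · rw [norm_mul, norm_mul, RCLike.norm_conj, hu1 χ hχ, hv1 ψ hψ, one_mul, mul_one]
    · rw [norm_zero]
  have h5 : W - S ≤ ‖∑ χ ∈ I, ∑ ψ ∈ I, conj (u χ) * G χ ψ * v ψ‖ + S := by
    have h6 : ‖((W - S : ℝ) : ℂ) * ((‖c‖ : ℂ) / c)‖ = |W - S| := by
      rw [norm_mul, hnorm1, mul_one, Complex.norm_real, Real.norm_eq_abs]
    have h7 : ((W - S : ℝ) : ℂ) * ((‖c‖ : ℂ) / c) =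
        ∑ χ ∈ I, ∑ ψ ∈ I, conj (u χ) * G χ ψ * v ψ -
        ∑ χ ∈ I, ∑ ψ ∈ I, (if nz χ ψ then conj (u χ) * G χ ψ * v ψ else 0) := by
      rw [h3]
      ring
    have h8 := norm_sub_le (∑ χ ∈ I, ∑ ψ ∈ I, conj (u χ) * G χ ψ * v ψ)
      (∑ χ ∈ I, ∑ ψ ∈ I, (if nz χ ψ then conj (u χ) * G χ ψ * v ψ else 0))
    rw [← h7, h6] at h8
    have h9 := le_abs_self (W - S)
    linarith
  linarith

/-- The main inequality. -/
theorem core [Nonempty T] {I : Finset ι} {G : T → ι → ι → ℂ} {P q : ℝ} (hP : 0 < P) (hq : 0 ≤ q)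
    (herm : ∀ t χ ψ, G t ψ χ = conj (G t χ ψ))
    (hop : ∀ t, ∀ u v : ι → ℂ, (∀ χ ∈ I, ‖u χ‖ = 1) → (∀ χ ∈ I, ‖v χ‖ = 1) →
      ‖∑ χ ∈ I, ∑ ψ ∈ I, conj (u χ) * G t χ ψ * v ψ‖ ≤ P * I.card)
    (hne : ∀ t, ∀ χ ∈ I, ∀ ψ ∈ I, G t χ ψ ≠ 0)
    (h1 : ∀ χ ∈ I, ∀ ψ ∈ I, (Fintype.card T : ℝ) ≤ ∑ t, ‖G t χ ψ‖)
    (hm : ∀ χ ∈ I, ∀ ψ ∈ I, ∀ θ ∈ I, ∀ θ' ∈ I,
      (∀ t, G t χ ψ * G t θ θ' = G t χ θ' * G t θ ψ) ∨
      q * Fintype.card T ≤ ∑ t, ‖G t χ ψ * G t θ θ' - G t χ θ' * G t θ ψ‖)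
    {m : ι → ℝ} {mm : ℝ}
    (hrow : ∀ χ ∈ I, ∑ t, ∑ ψ ∈ I, ‖G t χ ψ‖ ^ 2 ≤ Fintype.card T * (P * m χ))
    (hmm : ∀ χ ∈ I, m χ ≤ mm) :
    q / 2 * ((I.card : ℝ) ^ 2 - P * I.card) ≤ P * (∑ χ ∈ I, m χ + I.card * mm) := by
  rcases I.eq_empty_or_nonempty with hI | hI
  · subst hI
    simp
  set ν : ℝ := (I.card : ℝ) with hν
  have hν0 : 0 < ν := by
    rw [hν]
    exact_mod_cast hI.card_pos
  set τ : ℝ := (Fintype.card T : ℝ) with hτ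
  have hτ0 : 0 < τ := by
    rw [hτ]
    exact_mod_cast Fintype.card_pos
  set y : T → ι → ι → ℝ := fun t χ ψ => ‖G t χ ψ‖ with hy
  have hy0 : ∀ t χ ψ, 0 ≤ y t χ ψ := fun t χ ψ => norm_nonneg _
  have hys : ∀ t χ ψ, y t ψ χ = y t χ ψ := by
    intro t χ ψ
    simp only [hy]
    rw [herm t χ ψ, RCLike.norm_conj]
  obtain ⟨nz, hnz⟩ : ∃ nz : ι → ι → ι → ι → Prop, ∀ χ ψ θ θ', nz χ ψ θ θ' ↔
      ∃ t, G t χ ψ * G t θ θ' ≠ G t χ θ' * G t θ ψ := ⟨_, fun _ _ _ _ => Iff.rfl⟩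
  set W : T → ℝ := fun t => ∑ χ ∈ I, ∑ ψ ∈ I, y t χ ψ with hW
  set N : ι → ι → ℝ := fun χ ψ => ∑ θ ∈ I, ∑ θ' ∈ I, (if nz χ ψ θ θ' then 1 else 0) with hN
  set R : T → ι → ℝ := fun t χ => ∑ θ ∈ I, y t χ θ with hR
  have hW0 : ∀ t, 0 ≤ W t := fun t =>
    Finset.sum_nonneg fun χ _ => Finset.sum_nonneg fun ψ _ => hy0 t χ ψ
  have hR0 : ∀ t χ, 0 ≤ R t χ := fun t χ => Finset.sum_nonneg fun ψ _ => hy0 t χ ψ
  -- the first inequality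
  have hst : ∀ t, ν ^ 2 * (W t - P * ν) ≤ 2 * ∑ χ ∈ I, ∑ ψ ∈ I, N χ ψ * y t χ ψ := by
    intro t
    have h2 : ∀ θ ∈ I, ∀ θ' ∈ I, W t - P * ν ≤
        2 * ∑ χ ∈ I, ∑ ψ ∈ I, (if nz χ ψ θ θ' then y t χ ψ else 0) := by
      intro θ hθ θ' hθ'
      exact star_one (hop t) (hne t) hθ hθ' (fun χ ψ => nz χ ψ θ θ')
        (fun χ _ ψ _ h => by
          by_contra h'
          exact h ((hnz _ _ _ _).mpr ⟨t, h'⟩))
    have h3 : ∑ θ ∈ I, ∑ θ' ∈ I, (W t - P * ν) ≤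
        ∑ θ ∈ I, ∑ θ' ∈ I, (2 * ∑ χ ∈ I, ∑ ψ ∈ I, (if nz χ ψ θ θ' then y t χ ψ else 0)) :=
      Finset.sum_le_sum fun θ hθ => Finset.sum_le_sum fun θ' hθ' => h2 θ hθ θ' hθ'
    have h4 : ∑ θ ∈ I, ∑ θ' ∈ I, (W t - P * ν) = ν ^ 2 * (W t - P * ν) := by
      simp only [Finset.sum_const, nsmul_eq_mul]
      ring
    have h5 : ∑ θ ∈ I, ∑ θ' ∈ I, (2 * ∑ χ ∈ I, ∑ ψ ∈ I, (if nz χ ψ θ θ' then y t χ ψ else 0)) =
        2 * ∑ χ ∈ I, ∑ ψ ∈ I, N χ ψ * y t χ ψ := by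
      simp only [← Finset.mul_sum]
      congr 1
      calc ∑ θ ∈ I, ∑ θ' ∈ I, ∑ χ ∈ I, ∑ ψ ∈ I, (if nz χ ψ θ θ' then y t χ ψ else 0)
          = ∑ a ∈ I ×ˢ I, ∑ b ∈ I ×ˢ I, (if nz b.1 b.2 a.1 a.2 then y t b.1 b.2 else 0) := by
            rw [Finset.sum_product]
            refine Finset.sum_congr rfl fun θ _ => Finset.sum_congr rfl fun θ' _ => ?_
            rw [Finset.sum_product]
        _ = ∑ b ∈ I ×ˢ I, ∑ a ∈ I ×ˢ I, (if nz b.1 b.2 a.1 a.2 then y t b.1 b.2 else 0) :=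
            Finset.sum_comm
        _ = ∑ χ ∈ I, ∑ ψ ∈ I, N χ ψ * y t χ ψ := by
            rw [Finset.sum_product]
            refine Finset.sum_congr rfl fun χ _ => Finset.sum_congr rfl fun ψ _ => ?_
            simp only [hN]
            rw [Finset.sum_product, Finset.sum_mul]
            refine Finset.sum_congr rfl fun θ _ => ?_
            rw [Finset.sum_mul]
            refine Finset.sum_congr rfl fun θ' _ => ?_
            split_ifs <;> simp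
    rw [h4, h5] at h3
    exact h3
  -- rows
  have hRR : ∀ χ ∈ I, ∑ t, R t χ ^ 2 ≤ ν * (τ * (P * mm)) := by
    intro χ hχ
    have h2 : ∀ t, R t χ ^ 2 ≤ ν * ∑ ψ ∈ I, y t χ ψ ^ 2 := by
      intro t
      have := Finset.sum_mul_sq_le_sq_mul_sq I (fun _ => (1 : ℝ)) (fun ψ => y t χ ψ)
      simp only [one_mul, one_pow, Finset.sum_const, nsmul_eq_mul, mul_one] at this
      exact this
    calc ∑ t, R t χ ^ 2 ≤ ∑ t, ν * ∑ ψ ∈ I, y t χ ψ ^ 2 := Finset.sum_le_sum fun t _ => h2 t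
      _ = ν * ∑ t, ∑ ψ ∈ I, y t χ ψ ^ 2 := by rw [Finset.mul_sum]
      _ ≤ ν * (τ * (P * m χ)) := mul_le_mul_of_nonneg_left (hrow χ hχ) hν0.le
      _ ≤ ν * (τ * (P * mm)) := by
          apply mul_le_mul_of_nonneg_left _ hν0.le
          apply mul_le_mul_of_nonneg_left _ hτ0.le
          exact mul_le_mul_of_nonneg_left (hmm χ hχ) hP.le
  set ρ : ℝ := ν * (P * mm) with hρ
  have hA : ∀ χ ∈ I, ∀ ψ ∈ I, τ * (q * N χ ψ - ρ) ≤ ∑ t, y t χ ψ * W t := by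
    intro χ hχ ψ hψ
    have h2 : ∀ θ ∈ I, ∀ θ' ∈ I, q * τ * (if nz χ ψ θ θ' then 1 else 0) ≤
        ∑ t, (y t χ ψ * y t θ θ' + y t χ θ' * y t θ ψ) := by
      intro θ hθ θ' hθ'
      split_ifs with h
      · rw [mul_one]
        have h3 := (hm χ hχ ψ hψ θ hθ θ' hθ').resolve_left
          (fun h' => by
            obtain ⟨t, ht⟩ := (hnz _ _ _ _).mp h
            exact ht (h' t))
        refine h3.trans (Finset.sum_le_sum fun t _ => ?_)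
        refine (norm_sub_le _ _).trans ?_
        rw [norm_mul, norm_mul]
      · rw [mul_zero]
        exact Finset.sum_nonneg fun t _ => add_nonneg (mul_nonneg (hy0 _ _ _) (hy0 _ _ _))
          (mul_nonneg (hy0 _ _ _) (hy0 _ _ _))
    have h3 : q * τ * N χ ψ ≤ ∑ t, (y t χ ψ * W t + R t χ * R t ψ) := by
      calc q * τ * N χ ψ = ∑ θ ∈ I, ∑ θ' ∈ I, q * τ * (if nz χ ψ θ θ' then 1 else 0) := by
            simp only [hN, Finset.mul_sum]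
        _ ≤ ∑ θ ∈ I, ∑ θ' ∈ I, ∑ t, (y t χ ψ * y t θ θ' + y t χ θ' * y t θ ψ) :=
            Finset.sum_le_sum fun θ hθ => Finset.sum_le_sum fun θ' hθ' => h2 θ hθ θ' hθ'
        _ = ∑ t, ∑ θ ∈ I, ∑ θ' ∈ I, (y t χ ψ * y t θ θ' + y t χ θ' * y t θ ψ) := by
            rw [Finset.sum_comm (s := Finset.univ)]
            refine Finset.sum_congr rfl fun θ _ => ?_
            rw [Finset.sum_comm]
        _ = _ := by
            refine Finset.sum_congr rfl fun t _ => ?_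
            simp only [Finset.sum_add_distrib]
            congr 1
            · simp only [hW, Finset.mul_sum]
            · simp only [hR]
              rw [Finset.sum_mul_sum, Finset.sum_comm]
              refine Finset.sum_congr rfl fun θ' _ => Finset.sum_congr rfl fun θ _ => ?_
              rw [hys t θ ψ]
    have h4 : ∑ t, R t χ * R t ψ ≤ τ * ρ := by
      have h5 : ∀ t, R t χ * R t ψ ≤ (R t χ ^ 2 + R t ψ ^ 2) / 2 := by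
        intro t
        nlinarith [sq_nonneg (R t χ - R t ψ)]
      calc ∑ t, R t χ * R t ψ ≤ ∑ t, (R t χ ^ 2 + R t ψ ^ 2) / 2 :=
            Finset.sum_le_sum fun t _ => h5 t
        _ = (∑ t, R t χ ^ 2 + ∑ t, R t ψ ^ 2) / 2 := by
            rw [← Finset.sum_div, Finset.sum_add_distrib]
        _ ≤ (ν * (τ * (P * mm)) + ν * (τ * (P * mm))) / 2 := by
            have := hRR χ hχ
            have := hRR ψ hψ
            linarith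
        _ = τ * ρ := by rw [hρ]; ring
    rw [Finset.sum_add_distrib] at h3
    nlinarith [h3, h4]
  set C : ℝ := ∑ t, W t ^ 2 with hC
  set A : ι → ι → ℝ := fun χ ψ => ∑ t, y t χ ψ * W t with hAd
  set B : ι → ι → ℝ := fun χ ψ => ∑ t, y t χ ψ ^ 2 with hBd
  have hA0 : ∀ χ ψ, 0 ≤ A χ ψ := fun χ ψ =>
    Finset.sum_nonneg fun t _ => mul_nonneg (hy0 _ _ _) (hW0 t)
  have hABC : ∀ χ ψ, A χ ψ ^ 2 ≤ B χ ψ * C := fun χ ψ =>
    Finset.sum_mul_sq_le_sq_mul_sq _ _ _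
  have hAB : ∀ χ ∈ I, ∀ ψ ∈ I, A χ ψ * (τ * (q * N χ ψ - ρ)) ≤ B χ ψ * C := by
    intro χ hχ ψ hψ
    refine le_trans ?_ (hABC χ ψ)
    rw [sq]
    exact mul_le_mul_of_nonneg_left (hA χ hχ ψ hψ) (hA0 χ ψ)
  have hsum : ∑ χ ∈ I, ∑ ψ ∈ I, A χ ψ * (τ * (q * N χ ψ - ρ)) ≤
      ∑ χ ∈ I, ∑ ψ ∈ I, B χ ψ * C :=
    Finset.sum_le_sum fun χ hχ => Finset.sum_le_sum fun ψ hψ => hAB χ hχ ψ hψ
  have hAN : ∑ χ ∈ I, ∑ ψ ∈ I, A χ ψ * N χ ψ = ∑ t, W t * ∑ χ ∈ I, ∑ ψ ∈ I, N χ ψ * y t χ ψ := by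
    simp only [hAd, Finset.mul_sum, Finset.sum_mul]
    rw [Finset.sum_comm' (s := Finset.univ) (t := fun _ => I) (t' := I)
      (s' := fun _ => Finset.univ) (by simp)]
    refine Finset.sum_congr rfl fun χ _ => ?_
    rw [Finset.sum_comm]
    refine Finset.sum_congr rfl fun t _ => Finset.sum_congr rfl fun ψ _ => ?_
    ring
  have hAA : ∑ χ ∈ I, ∑ ψ ∈ I, A χ ψ = C := by
    have : ∀ t, W t ^ 2 = ∑ χ ∈ I, ∑ ψ ∈ I, y t χ ψ * W t := by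
      intro t
      rw [sq]
      nth_rw 1 [hW]
      rw [Finset.sum_mul]
      refine Finset.sum_congr rfl fun χ _ => ?_
      rw [Finset.sum_mul]
    rw [hC]
    simp only [this, hAd]
    rw [Finset.sum_comm' (s := Finset.univ) (t := fun _ => I) (t' := I)
      (s' := fun _ => Finset.univ) (by simp)]
    refine Finset.sum_congr rfl fun χ _ => ?_
    rw [Finset.sum_comm]
  have hBB : ∑ χ ∈ I, ∑ ψ ∈ I, B χ ψ ≤ τ * (P * ∑ χ ∈ I, m χ) := by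
    rw [Finset.mul_sum, Finset.mul_sum]
    refine Finset.sum_le_sum fun χ hχ => ?_
    refine le_trans (le_of_eq ?_) (hrow χ hχ)
    simp only [hBd]
    rw [Finset.sum_comm]
  have hWt : τ * ν ^ 2 ≤ ∑ t, W t := by
    have : ∑ t, W t = ∑ χ ∈ I, ∑ ψ ∈ I, ∑ t, y t χ ψ := by
      simp only [hW]
      rw [Finset.sum_comm' (s := Finset.univ) (t := fun _ => I) (t' := I)
        (s' := fun _ => Finset.univ) (by simp)]
      refine Finset.sum_congr rfl fun χ _ => ?_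
      rw [Finset.sum_comm]
    rw [this]
    calc τ * ν ^ 2 = ∑ χ ∈ I, ∑ ψ ∈ I, τ := by
          simp only [Finset.sum_const, nsmul_eq_mul]
          ring
      _ ≤ _ := Finset.sum_le_sum fun χ hχ => Finset.sum_le_sum fun ψ hψ => h1 χ hχ ψ hψ
  have hCW : ν ^ 2 * ∑ t, W t ≤ C := by
    have h2 := Finset.sum_mul_sq_le_sq_mul_sq Finset.univ (fun _ : T => (1 : ℝ)) W
    simp only [one_mul, one_pow, Finset.sum_const, nsmul_eq_mul, mul_one] at h2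
    have h3 : (∑ t, W t) ^ 2 ≤ τ * C := by
      rw [hτ, hC]
      simpa using h2
    have h4 : 0 ≤ ∑ t, W t := Finset.sum_nonneg fun t _ => hW0 t
    have h5 : τ * ν ^ 2 * ∑ t, W t ≤ τ * C := by
      refine le_trans ?_ h3
      rw [sq (∑ t, W t)]
      exact mul_le_mul_of_nonneg_right hWt h4
    have h6 : τ * (ν ^ 2 * ∑ t, W t) ≤ τ * C := by linarith
    exact le_of_mul_le_mul_left h6 hτ0
  have hWpos : 0 < ∑ t, W t := lt_of_lt_of_le (mul_pos hτ0 (pow_pos hν0 2)) hWt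
  have hCpos : 0 < C := lt_of_lt_of_le (mul_pos (pow_pos hν0 2) hWpos) hCW
  -- the conclusion
  have e1 : ∑ χ ∈ I, ∑ ψ ∈ I, A χ ψ * (τ * (q * N χ ψ - ρ)) =
      τ * (q * ∑ t, W t * ∑ χ ∈ I, ∑ ψ ∈ I, N χ ψ * y t χ ψ - ρ * C) := by
    rw [← hAN, ← hAA]
    simp only [Finset.mul_sum, ← Finset.sum_sub_distrib]
    refine Finset.sum_congr rfl fun χ _ => Finset.sum_congr rfl fun ψ _ => ?_
    ring
  have e2 : ∑ χ ∈ I, ∑ ψ ∈ I, B χ ψ * C = (∑ χ ∈ I, ∑ ψ ∈ I, B χ ψ) * C := by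
    simp only [Finset.sum_mul]
  have e3 : ν ^ 2 / 2 * (C - P * ν * ∑ t, W t) ≤
      ∑ t, W t * ∑ χ ∈ I, ∑ ψ ∈ I, N χ ψ * y t χ ψ := by
    have : ν ^ 2 / 2 * (C - P * ν * ∑ t, W t) = ∑ t, W t * (ν ^ 2 * (W t - P * ν) / 2) := by
      rw [hC, Finset.mul_sum, ← Finset.sum_sub_distrib, Finset.mul_sum]
      refine Finset.sum_congr rfl fun t _ => ?_
      ring
    rw [this]
    refine Finset.sum_le_sum fun t _ => mul_le_mul_of_nonneg_left ?_ (hW0 t)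
    have := hst t
    linarith
  rw [e1, e2] at hsum
  have h7 : (∑ χ ∈ I, ∑ ψ ∈ I, B χ ψ) * C ≤ τ * (P * ∑ χ ∈ I, m χ) * C :=
    mul_le_mul_of_nonneg_right hBB hCpos.le
  have h8 : τ * (q * (ν ^ 2 / 2 * (C - P * ν * ∑ t, W t)) - ρ * C) ≤
      τ * (P * ∑ χ ∈ I, m χ) * C := by
    refine le_trans ?_ (hsum.trans h7)
    apply mul_le_mul_of_nonneg_left _ hτ0.le
    have := mul_le_mul_of_nonneg_left e3 hq
    linarith
  have h9 : q * (ν ^ 2 / 2 * (C - P * ν * ∑ t, W t)) - ρ * C ≤ (P * ∑ χ ∈ I, m χ) * C := by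
    have : τ * (q * (ν ^ 2 / 2 * (C - P * ν * ∑ t, W t)) - ρ * C) ≤
        τ * ((P * ∑ χ ∈ I, m χ) * C) := by linarith
    exact le_of_mul_le_mul_left this hτ0
  have h10 : q / 2 * ((ν ^ 2 - P * ν) * C) ≤ q * (ν ^ 2 / 2 * (C - P * ν * ∑ t, W t)) := by
    have h11 : P * ν * (ν ^ 2 * ∑ t, W t) ≤ P * ν * C :=
      mul_le_mul_of_nonneg_left hCW (mul_nonneg hP.le hν0.le)
    have h12 : (ν ^ 2 - P * ν) * C ≤ ν ^ 2 * (C - P * ν * ∑ t, W t) := by nlinarith [h11]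
    have := mul_le_mul_of_nonneg_left h12 (div_nonneg hq zero_le_two : (0:ℝ) ≤ q / 2)
    linarith
  have h13 : (q / 2 * (ν ^ 2 - P * ν)) * C ≤ (P * (∑ χ ∈ I, m χ + ν * mm)) * C := by
    have : (P * (∑ χ ∈ I, m χ + ν * mm)) * C = (P * ∑ χ ∈ I, m χ) * C + ρ * C := by
      rw [hρ]
      ring
    rw [this]
    linarith
  exact le_of_mul_le_mul_right h13 hCpos

end Pool.Agent.Zk65.HZ
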