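import Pool.Agent.Zk65.HZ1

/-!
The inequality for families of projections.
-/

set_option autoImplicit false
set_option linter.unusedSectionVars false

open scoped BigOperators Classical ComplexConjugate

noncomputable section

namespace Pool.Agent.Zk65.HZ

variable {ι T : Type*} [Fintype T] [Fintype ι]

theorem cs {a c : ι → ℂ} : ‖∑ χ, conj (a χ) * c χ‖ ^ 2 ≤ (∑ χ, ‖a χ‖ ^ 2) * ∑ χ, ‖c χ‖ ^ 2 := by
  have h1 : ‖∑ χ, conj (a χ) * c χ‖ ≤ ∑ χ, ‖a χ‖ * ‖c χ‖ := by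
    refine (norm_sum_le _ _).trans (Finset.sum_le_sum fun χ _ => ?_)
    rw [norm_mul, RCLike.norm_conj]
  calc ‖∑ χ, conj (a χ) * c χ‖ ^ 2 ≤ (∑ χ, ‖a χ‖ * ‖c χ‖) ^ 2 :=
        pow_le_pow_left₀ (norm_nonneg _) h1 2
    _ ≤ _ := Finset.sum_mul_sq_le_sq_mul_sq _ _ _

theorem norm_bound {G : ι → ι → ℂ} {P : ℝ} (hP : 0 < P)
    (herm : ∀ χ ψ, G ψ χ = conj (G χ ψ)) (hsq : ∀ χ ψ, ∑ θ, G χ θ * G θ ψ = P * G χ ψ)
    (b : ι → ℂ) : ∑ χ, ‖∑ ψ, G χ ψ * b ψ‖ ^ 2 ≤ P ^ 2 * ∑ χ, ‖b χ‖ ^ 2 := by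
  set c : ι → ℂ := fun χ => ∑ ψ, G χ ψ * b ψ with hc
  set S := ∑ χ, ‖c χ‖ ^ 2 with hS
  have hS0 : 0 ≤ S := Finset.sum_nonneg fun χ _ => sq_nonneg _
  have h1 : (S : ℂ) = P * ∑ χ, conj (b χ) * c χ := by
    rw [hS, Complex.ofReal_sum]
    have h3 : ∀ χ, ((‖c χ‖ ^ 2 : ℝ) : ℂ) = ∑ φ, conj (b φ) * (G φ χ * c χ) := by
      intro χ
      have h4 : ((‖c χ‖ ^ 2 : ℝ) : ℂ) = conj (c χ) * c χ := by
        rw [mul_comm, Complex.mul_conj, Complex.normSq_eq_norm_sq]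
      rw [h4]
      nth_rw 1 [hc]
      simp only [map_sum, map_mul]
      rw [Finset.sum_mul]
      refine Finset.sum_congr rfl fun φ _ => ?_
      rw [herm χ φ]
      ring
    simp only [h3]
    rw [Finset.sum_comm, Finset.mul_sum]
    refine Finset.sum_congr rfl fun φ _ => ?_
    rw [← Finset.mul_sum]
    have h5 : ∑ χ, G φ χ * c χ = P * c φ := by
      simp only [hc, Finset.mul_sum]
      rw [Finset.sum_comm]
      refine Finset.sum_congr rfl fun ψ _ => ?_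
      rw [← mul_assoc, ← hsq, Finset.sum_mul]
      refine Finset.sum_congr rfl fun χ _ => ?_
      ring
    rw [h5]
    ring
  have h6 : S = P * ‖∑ χ, conj (b χ) * c χ‖ := by
    have := congrArg norm h1
    rw [Complex.norm_real, Real.norm_of_nonneg hS0, norm_mul, Complex.norm_real,
      Real.norm_of_nonneg hP.le] at this
    exact this
  have h7 : S * S ≤ (P ^ 2 * ∑ χ, ‖b χ‖ ^ 2) * S := by
    calc S * S = P ^ 2 * ‖∑ χ, conj (b χ) * c χ‖ ^ 2 := by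
          nth_rw 1 2 [h6]
          ring
      _ ≤ P ^ 2 * ((∑ χ, ‖b χ‖ ^ 2) * S) :=
          mul_le_mul_of_nonneg_left cs (by positivity)
      _ = _ := by ring
  rcases hS0.eq_or_lt with h | h
  · rw [← h]
    positivity
  · exact le_of_mul_le_mul_right h7 h

theorem op_bound {G : ι → ι → ℂ} {P : ℝ} (hP : 0 < P)
    (herm : ∀ χ ψ, G ψ χ = conj (G χ ψ)) (hsq : ∀ χ ψ, ∑ θ, G χ θ * G θ ψ = P * G χ ψ)
    (I : Finset ι) (u v : ι → ℂ) (hu : ∀ χ ∈ I, ‖u χ‖ = 1) (hv : ∀ χ ∈ I, ‖v χ‖ = 1) :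
    ‖∑ χ ∈ I, ∑ ψ ∈ I, conj (u χ) * G χ ψ * v ψ‖ ≤ P * I.card := by
  set a : ι → ℂ := fun χ => if χ ∈ I then u χ else 0 with ha
  set b : ι → ℂ := fun χ => if χ ∈ I then v χ else 0 with hb
  have hsa : ∑ χ, ‖a χ‖ ^ 2 = I.card := by
    have : ∀ χ, ‖a χ‖ ^ 2 = if χ ∈ I then 1 else 0 := by
      intro χ
      simp only [ha]
      split_ifs with h
      · rw [hu χ h, one_pow]
      · simp
    simp [this]
  have hsb : ∑ χ, ‖b χ‖ ^ 2 = I.card := by
    have : ∀ χ, ‖b χ‖ ^ 2 = if χ ∈ I then 1 else 0 := by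
      intro χ
      simp only [hb]
      split_ifs with h
      · rw [hv χ h, one_pow]
      · simp
    simp [this]
  have h1 : ∑ χ ∈ I, ∑ ψ ∈ I, conj (u χ) * G χ ψ * v ψ =
      ∑ χ, conj (a χ) * ∑ ψ, G χ ψ * b ψ := by
    rw [← Finset.sum_subset (Finset.subset_univ I)]
    · refine Finset.sum_congr rfl fun χ hχ => ?_
      simp only [ha, if_pos hχ]
      rw [Finset.mul_sum, ← Finset.sum_subset (Finset.subset_univ I)]
      · refine Finset.sum_congr rfl fun ψ hψ => ?_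
        simp only [hb, if_pos hψ]
        ring
      · intro ψ _ hψ
        simp only [hb, if_neg hψ, mul_zero]
    · intro χ _ hχ
      simp only [ha, if_neg hχ, map_zero, zero_mul]
  rw [h1]
  have h2 := cs (a := a) (c := fun χ => ∑ ψ, G χ ψ * b ψ)
  have h3 := norm_bound hP herm hsq b
  rw [hsa] at h2
  rw [hsb] at h3
  have h4 : ‖∑ χ, conj (a χ) * ∑ ψ, G χ ψ * b ψ‖ ^ 2 ≤ (P * I.card) ^ 2 := by
    calc _ ≤ (I.card : ℝ) * (P ^ 2 * I.card) :=
          h2.trans (mul_le_mul_of_nonneg_left h3 (Nat.cast_nonneg _))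
      _ = _ := by ring
  exact le_of_sq_le_sq h4 (mul_nonneg hP.le (Nat.cast_nonneg _))

theorem row_eq {G : ι → ι → ℂ} {P : ℝ} 
    (herm : ∀ χ ψ, G ψ χ = conj (G χ ψ)) (hsq : ∀ χ ψ, ∑ θ, G χ θ * G θ ψ = P * G χ ψ)
    (χ : ι) : ∑ ψ, ‖G χ ψ‖ ^ 2 = P * (G χ χ).re := by
  have h1 := congrArg Complex.re (hsq χ χ)
  rw [Complex.re_ofReal_mul] at h1
  rw [← h1, Complex.re_sum]
  refine Finset.sum_congr rfl fun ψ _ => ?_
  rw [herm χ ψ, Complex.mul_conj, Complex.normSq_eq_norm_sq]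
  rw [Complex.ofReal_re]

/-- The inequality for sets of indices with nonzero entries and large minors. -/
theorem total [Nonempty T] {I₀ : Finset ι} {G : T → ι → ι → ℂ} {P q l : ℝ} (hP : 0 < P)
    (hq : 0 ≤ q)
    (herm : ∀ t χ ψ, G t ψ χ = conj (G t χ ψ))
    (hsq : ∀ t χ ψ, ∑ θ, G t χ θ * G t θ ψ = P * G t χ ψ)
    (htr : ∀ t, ∑ χ, (G t χ χ).re ≤ P * l)
    (hne : ∀ t, ∀ χ ∈ I₀, ∀ ψ ∈ I₀, G t χ ψ ≠ 0)
    (h1 : ∀ χ ∈ I₀, ∀ ψ ∈ I₀, (Fintype.card T : ℝ) ≤ ∑ t, ‖G t χ ψ‖)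
    (hm : ∀ χ ∈ I₀, ∀ ψ ∈ I₀, ∀ θ ∈ I₀, ∀ θ' ∈ I₀,
      (∀ t, G t χ ψ * G t θ θ' = G t χ θ' * G t θ ψ) ∨
      q * Fintype.card T ≤ ∑ t, ‖G t χ ψ * G t θ θ' - G t χ θ' * G t θ ψ‖) :
    q * (I₀.card * (2 * I₀.card + 1 - 3 * P)) ≤ 12 * P ^ 2 * l := by
  have hτ0 : (0 : ℝ) < Fintype.card T := by exact_mod_cast Fintype.card_pos
  set m : ι → ℝ := fun χ => (∑ t, (G t χ χ).re) / Fintype.card T with hmd
  have hm0 : ∀ χ, 0 ≤ m χ := by
    intro χ
    apply div_nonneg _ hτ0.le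
    refine Finset.sum_nonneg fun t _ => ?_
    have := row_eq (herm t) (hsq t) χ
    have h2 : 0 ≤ P * (G t χ χ).re := by
      rw [← this]
      exact Finset.sum_nonneg fun ψ _ => sq_nonneg _
    exact nonneg_of_mul_nonneg_right h2 hP
  have hrow : ∀ I : Finset ι, ∀ χ, ∑ t, ∑ ψ ∈ I, ‖G t χ ψ‖ ^ 2 ≤
      Fintype.card T * (P * m χ) := by
    intro I χ
    have e : (Fintype.card T : ℝ) * (P * m χ) = ∑ t, P * (G t χ χ).re := by
      rw [hmd, ← Finset.mul_sum]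
      field_simp
    rw [e]
    refine Finset.sum_le_sum fun t _ => ?_
    rw [← row_eq (herm t) (hsq t) χ]
    exact Finset.sum_le_sum_of_subset_of_nonneg (Finset.subset_univ _) fun _ _ _ => sq_nonneg _
  have key : ∀ k : ℕ, ∀ I : Finset ι, I ⊆ I₀ → I.card = k →
      q / 12 * ((k : ℝ) * (k + 1) * (2 * k + 1 - 3 * P)) ≤ P * ((k + 1) * ∑ χ ∈ I, m χ) := by
    intro k
    induction k with
    | zero =>
      intro I _ hI
      rw [Finset.card_eq_zero] at hI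
      subst hI
      simp
    | succ k ih =>
      intro I hI hk
      have hne' : I.Nonempty := by
        rw [← Finset.card_pos, hk]
        exact Nat.succ_pos _
      obtain ⟨χ, hχ, hmax⟩ := Finset.exists_max_image I m hne'
      have hc := core (I := I) hP hq herm (fun t => op_bound hP (herm t) (hsq t) I)
        (fun t χ hχ ψ hψ => hne t χ (hI hχ) ψ (hI hψ))
        (fun χ hχ ψ hψ => h1 χ (hI hχ) ψ (hI hψ))
        (fun χ hχ ψ hψ θ hθ θ' hθ' => hm χ (hI hχ) ψ (hI hψ) θ (hI hθ) θ' (hI hθ'))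
        (fun χ _ => hrow I χ) hmax
      have hi := ih (I.erase χ) ((Finset.erase_subset _ _).trans hI)
        (by rw [Finset.card_erase_of_mem hχ, hk]; rfl)
      have hs := Finset.add_sum_erase I m hχ
      rw [← hs] at hc ⊢
      rw [hk] at hc
      push_cast at hc ⊢
      nlinarith [hc, hi]
  have hfin := key I₀.card I₀ subset_rfl rfl
  have hsum : ∑ χ ∈ I₀, m χ ≤ P * l := by
    calc ∑ χ ∈ I₀, m χ ≤ ∑ χ, m χ :=
          Finset.sum_le_sum_of_subset_of_nonneg (Finset.subset_univ _) fun χ _ _ => hm0 χ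
      _ = (∑ t, ∑ χ, (G t χ χ).re) / Fintype.card T := by
          simp only [hmd]
          rw [← Finset.sum_div, Finset.sum_comm]
      _ ≤ (∑ _t : T, P * l) / Fintype.card T := by
          apply div_le_div_of_nonneg_right _ hτ0.le
          exact Finset.sum_le_sum fun t _ => htr t
      _ = P * l := by
          rw [Finset.sum_const, Finset.card_univ, nsmul_eq_mul]
          field_simp
  have hpos : (0 : ℝ) < (I₀.card : ℝ) + 1 := Nat.cast_add_one_pos _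
  have h3 : q / 12 * ((I₀.card : ℝ) * (I₀.card + 1) * (2 * I₀.card + 1 - 3 * P)) ≤
      P * ((I₀.card + 1) * (P * l)) :=
    hfin.trans (mul_le_mul_of_nonneg_left (mul_le_mul_of_nonneg_left hsum hpos.le) hP.le)
  have h4 : (q / 12 * ((I₀.card : ℝ) * (2 * I₀.card + 1 - 3 * P))) * (I₀.card + 1) ≤
      (P * (P * l)) * (I₀.card + 1) := by linarith
  have h5 := le_of_mul_le_mul_right h4 hpos
  linarith

end Pool.Agent.Zk65.HZ
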