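import Mathlib

/-!
Averages of the absolute values of the conjugates of an algebraic integer.
-/

set_option autoImplicit false
set_option linter.unusedSectionVars false

open scoped BigOperators Classical ComplexConjugate

noncomputable section

namespace Pool.Agent.Zk65.HZ

/-- the average of numbers with product at least one -/
theorem am_gm {T : Type*} [Fintype T] {y : T → ℝ} (hy : ∀ t, 0 ≤ y t) (h : 1 ≤ ∏ t, y t) :
    (Fintype.card T : ℝ) ≤ ∑ t, y t := by
  have hpos : ∀ t, 0 < y t := by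
    intro t
    rcases (hy t).eq_or_lt with h0 | h0
    · exfalso
      have : ∏ t, y t = 0 := Finset.prod_eq_zero (Finset.mem_univ t) h0.symm
      linarith
    · exact h0
  have h1 : ∀ t, 1 + Real.log (y t) ≤ y t := by
    intro t
    have := Real.log_le_sub_one_of_pos (hpos t)
    linarith
  have h2 : ∑ t, (1 + Real.log (y t)) ≤ ∑ t, y t := Finset.sum_le_sum fun t _ => h1 t
  rw [Finset.sum_add_distrib, Finset.sum_const, Finset.card_univ, nsmul_eq_mul, mul_one,
    ← Real.log_prod (s := Finset.univ) (f := y) (fun t _ => (hpos t).ne')] at h2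
  have h3 : 0 ≤ Real.log (∏ t, y t) := Real.log_nonneg h
  linarith

variable (N : ℕ) [NeZero N]

/-- the embeddings of the cyclotomic field -/
abbrev Em : Type := CyclotomicField N ℚ →ₐ[ℚ] ℂ

instance : Fintype (Em N) := inferInstance

variable {N}

theorem norm_ge {x : CyclotomicField N ℚ} (hx : IsIntegral ℤ x) (h0 : x ≠ 0) :
    1 ≤ ∏ σ : Em N, ‖σ x‖ := by
  have h1 := Algebra.norm_eq_prod_embeddings ℚ ℂ x
  have h2 : IsIntegral ℤ (Algebra.norm ℚ x) := Algebra.isIntegral_norm ℚ hx
  obtain ⟨n, hn⟩ := IsIntegrallyClosed.isIntegral_iff.mp h2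
  have hn0 : n ≠ 0 := by
    rintro rfl
    rw [map_zero] at hn
    exact h0 (Algebra.norm_eq_zero_iff.mp hn.symm)
  rw [← norm_prod, ← h1, ← hn]
  have h3 : (algebraMap ℚ ℂ) ((algebraMap ℤ ℚ) n) = (n : ℂ) := by simp
  rw [h3, Complex.norm_intCast]
  exact_mod_cast Int.one_le_abs hn0

theorem avg {x : CyclotomicField N ℚ} (hx : IsIntegral ℤ x) (h0 : x ≠ 0) :
    (Fintype.card (Em N) : ℝ) ≤ ∑ σ : Em N, ‖σ x‖ :=
  am_gm (fun _ => norm_nonneg _) (norm_ge hx h0)

instance : Nonempty (Em N) := by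
  have h : Fintype.card (Em N) = Module.finrank ℚ (CyclotomicField N ℚ) := 
    AlgHom.card ℚ (CyclotomicField N ℚ) ℂ
  rw [← Fintype.card_pos_iff, h]
  exact Module.finrank_pos

end Pool.Agent.Zk65.HZ
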