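import Pool.Agent.Zk65.HZ7
import Pool.Agent.Zk65.HZ3

/-!
Projections given by integral forms and roots of unity.
-/

set_option autoImplicit false
set_option linter.unusedSectionVars false

open scoped BigOperators Classical ComplexConjugate

noncomputable section

namespace Pool.Agent.Zk65.HZ

variable {ι Θ : Type*} [Fintype ι] [Fintype Θ]

/-- the form -/
def GG (M : Θ → Θ → ℤ) (v : ι → Θ → ℂ) (χ ψ : ι) : ℂ :=
  ∑ η, ∑ η', v χ η * M η η' * conj (v ψ η')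

theorem GG_herm {M : Θ → Θ → ℤ} (hsym : ∀ θ η, M θ η = M η θ) (v : ι → Θ → ℂ) (χ ψ : ι) :
    GG M v ψ χ = conj (GG M v χ ψ) := by
  unfold GG
  simp only [map_sum, map_mul, Complex.conj_conj, map_intCast]
  rw [Finset.sum_comm]
  refine Finset.sum_congr rfl fun η _ => Finset.sum_congr rfl fun η' _ => ?_
  rw [hsym η' η]
  ring

theorem GG_sq {M : Θ → Θ → ℤ} {P : ℝ} (hsym : ∀ θ η, M θ η = M η θ) (v : ι → Θ → ℂ)
    (hfr : ∀ θ θ', ∑ χ, conj (∑ η, (M θ η : ℂ) * v χ η) * (∑ η, (M θ' η : ℂ) * v χ η) =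
      P * M θ θ')
    (χ ψ : ι) : ∑ φ, GG M v χ φ * GG M v φ ψ = P * GG M v χ ψ := by
  have e1 : ∀ φ, GG M v χ φ = ∑ η, v χ η * conj (∑ η', (M η η' : ℂ) * v φ η') := by
    intro φ
    unfold GG
    refine Finset.sum_congr rfl fun η _ => ?_
    simp only [map_sum, map_mul, map_intCast, Finset.mul_sum]
    refine Finset.sum_congr rfl fun η' _ => ?_
    ring
  have e2 : ∀ φ, GG M v φ ψ = ∑ η', (∑ η, (M η' η : ℂ) * v φ η) * conj (v ψ η') := by
    intro φ
    unfold GG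
    rw [Finset.sum_comm]
    refine Finset.sum_congr rfl fun η' _ => ?_
    rw [Finset.sum_mul]
    refine Finset.sum_congr rfl fun η _ => ?_
    rw [hsym η' η]
    ring
  calc ∑ φ, GG M v χ φ * GG M v φ ψ
      = ∑ φ, ∑ η, ∑ η', v χ η * conj (v ψ η') *
          (conj (∑ ξ, (M η ξ : ℂ) * v φ ξ) * (∑ ξ, (M η' ξ : ℂ) * v φ ξ)) := by
        refine Finset.sum_congr rfl fun φ _ => ?_
        rw [e1, e2, Finset.sum_mul_sum]
        refine Finset.sum_congr rfl fun η _ => Finset.sum_congr rfl fun η' _ => ?_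
        ring
    _ = ∑ η, ∑ η', v χ η * conj (v ψ η') *
          ∑ φ, (conj (∑ ξ, (M η ξ : ℂ) * v φ ξ) * (∑ ξ, (M η' ξ : ℂ) * v φ ξ)) := by
        rw [Finset.sum_comm]
        refine Finset.sum_congr rfl fun η _ => ?_
        rw [Finset.sum_comm]
        refine Finset.sum_congr rfl fun η' _ => ?_
        rw [Finset.mul_sum]
    _ = _ := by
        simp only [hfr]
        unfold GG
        rw [Finset.mul_sum]
        refine Finset.sum_congr rfl fun η _ => ?_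
        rw [Finset.mul_sum]
        refine Finset.sum_congr rfl fun η' _ => ?_
        ring

theorem GG_tr {M : Θ → Θ → ℤ} {P l : ℝ} (hP : P ≠ 0) (hsym : ∀ θ η, M θ η = M η θ)
    (hsq : ∀ θ η, ∑ φ, (M θ φ : ℂ) * M φ η = P * M θ η) (htr : ∑ θ, (M θ θ : ℂ) = P * l)
    (v : ι → Θ → ℂ)
    (hfr : ∀ θ θ', ∑ χ, conj (∑ η, (M θ η : ℂ) * v χ η) * (∑ η, (M θ' η : ℂ) * v χ η) =
      P * M θ θ') : ∑ χ, GG M v χ χ = P * l := by
  have h1 : ∀ χ, (P : ℂ) * GG M v χ χ =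
      ∑ φ, conj (∑ η, (M φ η : ℂ) * v χ η) * (∑ η, (M φ η : ℂ) * v χ η) := by
    intro χ
    have h2 : ∀ φ, conj (∑ η, (M φ η : ℂ) * v χ η) * (∑ η, (M φ η : ℂ) * v χ η) =
        ∑ η, ∑ η', v χ η * conj (v χ η') * ((M η φ : ℂ) * M φ η') := by
      intro φ
      rw [mul_comm, map_sum, Finset.sum_mul_sum]
      refine Finset.sum_congr rfl fun η _ => Finset.sum_congr rfl fun η' _ => ?_
      rw [map_mul, map_intCast, hsym η φ]
      ring
    simp only [h2]
    rw [Finset.sum_comm]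
    unfold GG
    rw [Finset.mul_sum]
    refine Finset.sum_congr rfl fun η _ => ?_
    rw [Finset.sum_comm, Finset.mul_sum]
    refine Finset.sum_congr rfl fun η' _ => ?_
    rw [← Finset.mul_sum, hsq]
    ring
  have hP' : (P : ℂ) ≠ 0 := by exact_mod_cast hP
  apply mul_left_cancel₀ hP'
  rw [Finset.mul_sum]
  simp only [h1]
  rw [Finset.sum_comm]
  simp only [hfr]
  rw [← Finset.mul_sum, htr]

theorem minor_expand {R : Type*} [CommRing R] {M : Θ → Θ → ℤ} (a b a' b' : Θ → R) :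
    (∑ η, ∑ η', a η * M η η' * b η') * (∑ η, ∑ η', a' η * M η η' * b' η') -
      (∑ η, ∑ η', a η * M η η' * b' η') * (∑ η, ∑ η', a' η * M η η' * b η') =
    ∑ i, ∑ j, ∑ k, ∑ t, a i * b j * (a' k * b' t) *
      ((M i j * M k t - M i t * M k j : ℤ) : R) := by
  have e1 : (∑ η, ∑ η', a η * M η η' * b η') * (∑ η, ∑ η', a' η * M η η' * b' η') =
      ∑ i, ∑ j, ∑ k, ∑ t, a i * b j * (a' k * b' t) * (M i j * M k t) := by
    rw [Finset.sum_mul]
    refine Finset.sum_congr rfl fun i _ => ?_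
    rw [Finset.sum_mul]
    refine Finset.sum_congr rfl fun j _ => ?_
    rw [Finset.mul_sum]
    refine Finset.sum_congr rfl fun k _ => ?_
    rw [Finset.mul_sum]
    refine Finset.sum_congr rfl fun t _ => ?_
    ring
  have e2 : (∑ η, ∑ η', a η * M η η' * b' η') * (∑ η, ∑ η', a' η * M η η' * b η') =
      ∑ i, ∑ j, ∑ k, ∑ t, a i * b j * (a' k * b' t) * (M i t * M k j) := by
    rw [Finset.sum_mul]
    refine Finset.sum_congr rfl fun i _ => ?_
    have e3 : ∑ j, ∑ k, ∑ t, a i * b j * (a' k * b' t) * ((M i t : R) * M k j) =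
        ∑ t, ∑ k, ∑ j, a i * b j * (a' k * b' t) * ((M i t : R) * M k j) := by
      rw [Finset.sum_comm]
      rw [Finset.sum_comm (s := (Finset.univ : Finset Θ)) (t := (Finset.univ : Finset Θ))
        (f := fun t k => ∑ j, a i * b j * (a' k * b' t) * ((M i t : R) * M k j))]
      refine Finset.sum_congr rfl fun k _ => ?_
      rw [Finset.sum_comm]
    rw [e3, Finset.sum_mul]
    refine Finset.sum_congr rfl fun t _ => ?_
    rw [Finset.mul_sum]
    refine Finset.sum_congr rfl fun k _ => ?_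
    rw [Finset.mul_sum]
    refine Finset.sum_congr rfl fun j _ => ?_
    ring
  rw [e1, e2, ← Finset.sum_sub_distrib]
  refine Finset.sum_congr rfl fun i _ => ?_
  rw [← Finset.sum_sub_distrib]
  refine Finset.sum_congr rfl fun j _ => ?_
  rw [← Finset.sum_sub_distrib]
  refine Finset.sum_congr rfl fun k _ => ?_
  rw [← Finset.sum_sub_distrib]
  refine Finset.sum_congr rfl fun t _ => ?_
  push_cast
  ring

instance cycInst (N : ℕ) [NeZero N] : IsCyclotomicExtension {N} ℚ (CyclotomicField N ℚ) :=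
  CyclotomicField.isCyclotomicExtension N ℚ

/-- The primitive root of unity. -/
abbrev zt (N : ℕ) [NeZero N] : CyclotomicField N ℚ :=
  IsCyclotomicExtension.zeta N ℚ (CyclotomicField N ℚ)

lemma zt_prim (N : ℕ) [NeZero N] : IsPrimitiveRoot (zt N) N :=
  IsCyclotomicExtension.zeta_spec N ℚ (CyclotomicField N ℚ)

lemma em_prim {N : ℕ} [NeZero N] (σ : Em N) : IsPrimitiveRoot (σ (zt N)) N :=
  (zt_prim N).map_of_injective (f := σ) σ.injective

lemma zt_int (N : ℕ) [NeZero N] : IsIntegral ℤ (zt N) :=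
  (zt_prim N).isIntegral (NeZero.pos N)

lemma zt_inv_int (N : ℕ) [NeZero N] : IsIntegral ℤ (zt N)⁻¹ :=
  (zt_prim N).inv.isIntegral (NeZero.pos N)

lemma em_inv {N : ℕ} [NeZero N] (σ : Em N) : (σ (zt N))⁻¹ = conj (σ (zt N)) :=
  Complex.inv_eq_conj (Complex.norm_eq_one_of_pow_eq_one (em_prim σ).pow_eq_one
    (NeZero.ne N))

/-- The inequality for Galois conjugates. -/
theorem galois_avg {N : ℕ} [NeZero N] {M : Θ → Θ → ℤ} {n : ι → Θ → ℤ} {e : Θ → ℕ} {P : ℝ}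
    (hP : 0 < P) {q : ℕ} (hq : 2 ≤ q) (hsym : ∀ θ η, M θ η = M η θ)
    (hfr : ∀ σ : Em N, ∀ θ θ', ∑ χ, conj (∑ η, (M θ η : ℂ) * (n χ η * σ (zt N) ^ e η)) *
      (∑ η, (M θ' η : ℂ) * (n χ η * σ (zt N) ^ e η)) = P * M θ θ')
    (hmin : ∀ i j k t, (q : ℤ) ∣ M i j * M k t - M i t * M k j)
    {I₀ : Finset ι} (σ₁ : Em N)
    (hne : ∀ χ ∈ I₀, ∀ ψ ∈ I₀, GG M (fun χ η => n χ η * σ₁ (zt N) ^ e η) χ ψ ≠ 0) :
    Fintype.card (Em N) * (((q : ℝ) + 2) * (I₀.card : ℝ) ^ 2 - ((q : ℝ) - 2) * P * I₀.card) ≤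
      4 * ∑ σ : Em N, ∑ χ ∈ I₀, ∑ ψ ∈ I₀,
        ‖GG M (fun χ η => n χ η * σ (zt N) ^ e η) χ ψ‖ ^ 2 := by
  set a : ι → Θ → CyclotomicField N ℚ := fun χ η => n χ η * zt N ^ e η with ha
  set b : ι → Θ → CyclotomicField N ℚ := fun χ η => n χ η * (zt N)⁻¹ ^ e η with hb
  set g : ι → ι → CyclotomicField N ℚ := fun χ ψ => ∑ η, ∑ η', a χ η * M η η' * b ψ η' with hg
  have hint : ∀ m : ℤ, IsIntegral ℤ (m : CyclotomicField N ℚ) := fun m => by
    simpa using isIntegral_algebraMap (R := ℤ) (A := CyclotomicField N ℚ) (x := m)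
  have haI : ∀ χ η, IsIntegral ℤ (a χ η) := fun χ η =>
    (hint (n χ η)).mul ((zt_int N).pow (e η))
  have hbI : ∀ χ η, IsIntegral ℤ (b χ η) := fun χ η =>
    (hint (n χ η)).mul ((zt_inv_int N).pow (e η))
  have hgI : ∀ χ ψ, IsIntegral ℤ (g χ ψ) := fun χ ψ =>
    IsIntegral.sum _ fun η _ => IsIntegral.sum _ fun η' _ =>
      ((haI χ η).mul (hint _)).mul (hbI ψ η')
  have hσ : ∀ (σ : Em N) χ ψ, σ (g χ ψ) = GG M (fun χ η => n χ η * σ (zt N) ^ e η) χ ψ := by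
    intro σ χ ψ
    simp only [hg, ha, hb, GG, map_sum, map_mul, map_pow, map_inv₀, map_intCast, em_inv]
  have hg0 : ∀ χ ∈ I₀, ∀ ψ ∈ I₀, g χ ψ ≠ 0 := by
    intro χ hχ ψ hψ h0
    apply hne χ hχ ψ hψ
    rw [← hσ, h0, map_zero]
  simp only [← hσ]
  refine total_avg (T := Em N) (G := fun σ χ ψ => σ (g χ ψ)) hP (by exact_mod_cast hq) ?_ ?_ ?_ ?_ ?_
  · intro σ χ ψ
    simp only [hσ]
    exact GG_herm hsym _ χ ψ
  · intro σ χ ψ
    simp only [hσ]
    exact GG_sq hsym _ (hfr σ) χ ψ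
  · intro σ χ hχ ψ hψ h0
    exact hg0 χ hχ ψ hψ ((map_eq_zero σ).mp h0)
  · intro χ hχ ψ hψ θ hθ θ' hθ'
    refine (avg ((hgI χ ψ).mul (hgI θ θ')) (mul_ne_zero (hg0 χ hχ ψ hψ) (hg0 θ hθ θ' hθ'))).trans
      (le_of_eq ?_)
    refine Finset.sum_congr rfl fun σ _ => ?_
    rw [map_mul, norm_mul]
  · intro χ hχ ψ hψ θ hθ θ' hθ'
    choose c hc using hmin
    set w : CyclotomicField N ℚ := ∑ i, ∑ j, ∑ k, ∑ t, a χ i * b ψ j * (a θ k * b θ' t) *
      (c i j k t : ℤ) with hw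
    have hwI : IsIntegral ℤ w :=
      IsIntegral.sum _ fun i _ => IsIntegral.sum _ fun j _ => IsIntegral.sum _ fun k _ =>
        IsIntegral.sum _ fun t _ =>
          (((haI χ i).mul (hbI ψ j)).mul ((haI θ k).mul (hbI θ' t))).mul (hint _)
    have hqw : g χ ψ * g θ θ' - g χ θ' * g θ ψ = q * w := by
      have h := minor_expand (M := M) (a χ) (b ψ) (a θ) (b θ')
      simp only [hg]
      rw [h, hw]
      simp only [Finset.mul_sum]
      refine Finset.sum_congr rfl fun i _ => Finset.sum_congr rfl fun j _ =>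
        Finset.sum_congr rfl fun k _ => Finset.sum_congr rfl fun t _ => ?_
      rw [hc]
      push_cast
      ring
    by_cases hw0 : w = 0
    · left
      intro σ
      rw [hw0, mul_zero, sub_eq_zero] at hqw
      rw [← map_mul, ← map_mul, hqw]
    · right
      have h1 := avg hwI hw0
      calc (q : ℝ) * Fintype.card (Em N) ≤ q * ∑ σ : Em N, ‖σ w‖ :=
            mul_le_mul_of_nonneg_left h1 (Nat.cast_nonneg q)
        _ = ∑ σ : Em N, ‖σ (g χ ψ) * σ (g θ θ') - σ (g χ θ') * σ (g θ ψ)‖ := by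
            rw [Finset.mul_sum]
            refine Finset.sum_congr rfl fun σ _ => ?_
            rw [← map_mul, ← map_mul, ← map_sub, hqw, map_mul, norm_mul, map_natCast]
            simp

/-- The average of the squares of the absolute values of a nonzero entry. -/
theorem galois_row {N : ℕ} [NeZero N] {M : Θ → Θ → ℤ} {n : ι → Θ → ℤ} {e : Θ → ℕ}
    (σ₁ : Em N) {χ ψ : ι} (hne : GG M (fun χ η => n χ η * σ₁ (zt N) ^ e η) χ ψ ≠ 0) :
    (Fintype.card (Em N) : ℝ) ≤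
      ∑ σ : Em N, ‖GG M (fun χ η => n χ η * σ (zt N) ^ e η) χ ψ‖ ^ 2 := by
  have hint : ∀ m : ℤ, IsIntegral ℤ (m : CyclotomicField N ℚ) := fun m => by
    simpa using isIntegral_algebraMap (R := ℤ) (A := CyclotomicField N ℚ) (x := m)
  set g : CyclotomicField N ℚ :=
    ∑ η, ∑ η', (n χ η * zt N ^ e η) * M η η' * (n ψ η' * (zt N)⁻¹ ^ e η') with hg
  have hgI : IsIntegral ℤ g :=
    IsIntegral.sum _ fun η _ => IsIntegral.sum _ fun η' _ =>
      (((hint (n χ η)).mul ((zt_int N).pow (e η))).mul (hint _)).mul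
        ((hint (n ψ η')).mul ((zt_inv_int N).pow (e η')))
  have hσ : ∀ (σ : Em N), σ g = GG M (fun χ η => n χ η * σ (zt N) ^ e η) χ ψ := by
    intro σ
    simp only [hg, GG, map_sum, map_mul, map_pow, map_inv₀, map_intCast, em_inv]
  have hg0 : g ≠ 0 := by
    intro h0
    apply hne
    rw [← hσ, h0, map_zero]
  simp only [← hσ]
  have h1 := avg hgI hg0
  have h2 : ∀ σ : Em N, 2 * ‖σ g‖ - 1 ≤ ‖σ g‖ ^ 2 := by
    intro σ
    nlinarith [sq_nonneg (‖σ g‖ - 1)]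
  have h3 : ∑ σ : Em N, (2 * ‖σ g‖ - 1) ≤ ∑ σ : Em N, ‖σ g‖ ^ 2 :=
    Finset.sum_le_sum fun σ _ => h2 σ
  rw [Finset.sum_sub_distrib, ← Finset.mul_sum, Finset.sum_const, Finset.card_univ,
    nsmul_eq_mul, mul_one] at h3
  linarith

end Pool.Agent.Zk65.HZ
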