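import Pool.Agent.Zk65.HZ4
import Pool.Agent.Zk65.SE7
import Pool.Agent.Zk65.BF3

/-!
The contributions of a subsection.
-/

set_option autoImplicit false
set_option linter.style.haveILetI false
set_option linter.unusedSectionVars false

open scoped BigOperators Classical ComplexConjugate
open Pool.Agent.Helper884 Pool.Agent.H254R3.IN Pool.Agent.N20 Pool.Agent.Zk65.TB
open Pool.Agent.Zk65.SE Pool.Agent.Zk65.BF

noncomputable section

namespace Pool.Agent.Zk65.HZ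

variable {G : Type} [Group G] [Fintype G]

/-- exponents of the Galois conjugates -/
lemma exists_exp {p : ℕ} (hp : p.Prime) {r : ℕ} [NeZero (p ^ r)] (σ₁ : Em (p ^ r))
    (σ : Em (p ^ r)) : ∃ t : ℕ, Nat.Coprime t p ∧ σ (zt (p ^ r)) = σ₁ (zt (p ^ r)) ^ t := by
  obtain ⟨t, -, ht⟩ := (em_prim σ₁).eq_pow_of_pow_eq_one (em_prim σ).pow_eq_one
  rcases Nat.eq_zero_or_pos r with hr | hr
  · refine ⟨1, Nat.coprime_one_left p, ?_⟩
    have h1 := (em_prim σ).pow_eq_one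
    have h2 := (em_prim σ₁).pow_eq_one
    subst hr
    simp only [pow_zero, pow_one] at h1 h2 ⊢
    rw [h1, h2]
  · refine ⟨t, ?_, ht.symm⟩
    have h1 := em_prim σ
    rw [← ht] at h1
    have h2 := ((em_prim σ₁).pow_iff_coprime (NeZero.pos _) t).mp h1
    exact Nat.Coprime.coprime_dvd_right (dvd_pow_self p hr.ne') h2

/-- The contributions as values of an integral form. -/
theorem data {p : ℕ} (hp : p.Prime) {O : ValuationSubring ℂ}
    (hpO : (p : ℂ) ∈ O.nonunits) {u : G} {k : ℕ}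
    (hu : orderOf u = p ^ k) {b : Set (CC u → ℂ)} (hb : IsBlock O b) {D' : Subgroup (CC u)}
    (hD' : IsDefectGroup p O b D') {r : ℕ} [NeZero (p ^ r)] (hr : orderOf u ∣ p ^ r)
    (σ₁ : Em (p ^ r)) :
    ∃ (M : {θ // θ ∈ XB b} → {θ // θ ∈ XB b} → ℤ)
      (n : {χ // χ ∈ IC.Irr G} → {θ // θ ∈ XB b} → ℤ) (e : {θ // θ ∈ XB b} → ℕ),
      (∀ θ η, M θ η = M η θ) ∧
      (∀ θ η, ∑ φ, (M θ φ : ℂ) * M φ η = ((Nat.card D' : ℝ) : ℂ) * M θ η) ∧
      (∑ θ, (M θ θ : ℂ) = ((Nat.card D' : ℝ) : ℂ) * ((lB p b : ℝ) : ℂ)) ∧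
      (∀ q : ℕ, MinorsDvd p b D' q → ∀ i j k t, (q : ℤ) ∣ M i j * M k t - M i t * M k j) ∧
      ∀ (σ : Em (p ^ r)) (t : ℕ), Nat.Coprime t p → σ (zt (p ^ r)) = σ₁ (zt (p ^ r)) ^ t →
        (∀ θ θ', ∑ χ, conj (∑ η, (M θ η : ℂ) * (n χ η * σ (zt (p ^ r)) ^ e η)) *
          (∑ η, (M θ' η : ℂ) * (n χ η * σ (zt (p ^ r)) ^ e η)) =
            ((Nat.card D' : ℝ) : ℂ) * M θ θ') ∧
        ∀ χ ψ, GG M (fun χ η => n χ η * σ (zt (p ^ r)) ^ e η) χ ψ =
          (Nat.card D' : ℂ) * conj (BF.mt p u t b (χ : G → ℂ) (ψ : G → ℂ)) := by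
  haveI : Fact (Nat.Prime p) := ⟨hp⟩
  have hmem : ∀ θ : {θ // θ ∈ XB b}, (θ : CC u → ℂ) ∈ b := fun θ => (mem_XB hb.irr).mp θ.2
  have hirr : ∀ θ : {θ // θ ∈ XB b}, IsIrr (θ : CC u → ℂ) := fun θ => hb.irr _ (hmem θ)
  choose M hM using fun θ η : {θ // θ ∈ XB b} => contr_int hpO hb hD' (hmem θ) (hmem η)
  have hX : ∀ χ : {χ // χ ∈ IC.Irr G}, IsIrr (χ : G → ℂ) := fun χ => mem_Irr.mp χ.2
  choose n hn using fun (χ : {χ // χ ∈ IC.Irr G}) (η : {θ // θ ∈ XB b}) =>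
    mm_int u (hX χ) (hirr η)
  have hroot : ∀ η : {θ // θ ∈ XB b}, cu u (η : CC u → ℂ) ^ p ^ r = 1 := by
    intro η
    obtain ⟨c, hc⟩ := hr
    rw [hc, pow_mul, cu_pow u (hirr η), one_pow]
  have hex : ∀ η : {θ // θ ∈ XB b}, ∃ e : ℕ, σ₁ (zt (p ^ r)) ^ e = cu u (η : CC u → ℂ) := by
    intro η
    obtain ⟨e, -, he⟩ := (em_prim σ₁).eq_pow_of_pow_eq_one (hroot η)
    exact ⟨e, he⟩
  choose e he using hex
  have K1 : ∀ (t : ℕ) (θ : {θ // θ ∈ XB b}) (χ : {χ // χ ∈ IC.Irr G}),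
      (Nat.card D' : ℂ) * JJ p u t θ χ = ∑ η : {θ // θ ∈ XB b},
        (M θ η : ℂ) * (n χ η * cu u (η : CC u → ℂ) ^ t) := by
    intro t θ χ
    rw [JJ_eq hpO u hb (hmem θ) (hX χ) t, Finset.mul_sum,
      ← Finset.sum_coe_sort (XB b) (fun η : CC u → ℂ =>
        (Nat.card D' : ℂ) * (mm u χ η * cu u η ^ t * IC.B (cut p (θ : CC u → ℂ)) η))]
    refine Finset.sum_congr rfl fun η _ => ?_
    rw [hM, hn]
    ring
  have K2 : ∀ (t : ℕ), Nat.Coprime t p → ∀ θ θ' : {θ // θ ∈ XB b},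
      ∑ χ : {χ // χ ∈ IC.Irr G}, (starRingEnd ℂ) ((Nat.card D' : ℂ) * JJ p u t θ χ) *
        ((Nat.card D' : ℂ) * JJ p u t θ' χ) = (Nat.card D' : ℂ) * M θ θ' := by
    intro t ht θ θ'
    have h1 := sec_frame hu ht (a := (θ : CC u → ℂ)) (a' := (θ' : CC u → ℂ))
      (fun s => (Pool.Agent.Y62.conj_char (hirr θ) s).symm) (fun g y => (hirr θ').conj g y)
      (fun s => (Pool.Agent.Y62.conj_char (hirr θ') s).symm)
    rw [← Finset.sum_coe_sort (IC.Irr G) (fun χ : G → ℂ =>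
      (starRingEnd ℂ) (JJ p u t (θ : CC u → ℂ) χ) * JJ p u t (θ' : CC u → ℂ) χ)] at h1
    rw [hM, ← h1, Finset.mul_sum, Finset.mul_sum]
    refine Finset.sum_congr rfl fun χ _ => ?_
    rw [map_mul, Complex.conj_natCast]
    ring
  refine ⟨M, n, e, ?_, ?_, ?_, ?_, ?_⟩
  · intro θ η
    have : (M θ η : ℂ) = M η θ := by
      rw [hM, hM, B_cut_comm]
    exact_mod_cast this
  · intro θ η
    have h1 := B_cut_idem hpO hb (χ := θ) (ψ := η) (hmem θ)
    rw [← Finset.sum_coe_sort (XB b)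
      (fun φ : CC u → ℂ => IC.B (cut p (θ : CC u → ℂ)) φ * IC.B (cut p φ) η)] at h1
    simp only [hM]
    rw [← h1, Finset.mul_sum, Finset.mul_sum]
    refine Finset.sum_congr rfl fun φ _ => ?_
    push_cast
    ring
  · simp only [hM]
    push_cast
    rw [← trace_eq hpO hb, ← Finset.mul_sum,
      ← Finset.sum_coe_sort (XB b) (fun φ : CC u → ℂ => IC.B (cut p φ) φ)]
  · intro q hq i j k t
    obtain ⟨c, hc⟩ := hq i (hmem i) k (hmem k) j (hmem j) t (hmem t)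
    refine ⟨c, ?_⟩
    have : ((M i j * M k t - M i t * M k j : ℤ) : ℂ) = ((q * c : ℤ) : ℂ) := by
      push_cast
      rw [hM, hM, hM, hM, ← hc]
      ring
    exact_mod_cast this
  · intro σ t ht hσt
    have hpw : ∀ η : {θ // θ ∈ XB b}, σ (zt (p ^ r)) ^ e η = cu u (η : CC u → ℂ) ^ t := by
      intro η
      rw [hσt, ← he, ← pow_mul, ← pow_mul, mul_comm t]
    simp only [hpw]
    constructor
    · intro θ θ'
      simp only [← K1]
      rw [K2 t ht]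
      push_cast
      rfl
    · intro χ ψ
      unfold GG BF.mt
      rw [map_sum, Finset.mul_sum, ← Finset.sum_coe_sort (XB b) (fun θ : CC u → ℂ =>
        (Nat.card D' : ℂ) * conj ((starRingEnd ℂ) (mm u χ θ * cu u θ ^ t) * JJ p u t θ ψ))]
      refine Finset.sum_congr rfl fun η _ => ?_
      have h1 := congrArg conj (K1 t η ψ)
      rw [map_mul, Complex.conj_natCast] at h1
      rw [map_mul, Complex.conj_conj]
      calc ∑ η', n χ η * cu u (η : CC u → ℂ) ^ t * M η η' *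
            conj (n ψ η' * cu u (η' : CC u → ℂ) ^ t)
          = (n χ η * cu u (η : CC u → ℂ) ^ t) *
              conj (∑ η', (M η η' : ℂ) * (n ψ η' * cu u (η' : CC u → ℂ) ^ t)) := by
            rw [map_sum, Finset.mul_sum]
            refine Finset.sum_congr rfl fun η' _ => ?_
            rw [map_mul (f := conj) (x := ((M η η' : ℤ) : ℂ)), map_intCast]
            ring
        _ = _ := by
            rw [← h1, ← hn]
            ring

end Pool.Agent.Zk65.HZ
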