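import Pool.Agent.Zk65.HZ2

/-!
The weighted inequality for families of hermitian matrices whose minors of order two are zero or
large.
-/

set_option autoImplicit false
set_option linter.unusedSectionVars false

open scoped BigOperators Classical ComplexConjugate

noncomputable section

namespace Pool.Agent.Zk65.HZ

variable {ι T : Type*} [Fintype T] [Fintype ι]

/-- weighted sum of the phases -/
theorem star_w {G : ι → ι → ℂ} {P : ℝ} {a : ι → ℝ} (ha : ∀ χ, 0 ≤ a χ)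
    (hop : ∀ u v : ι → ℂ, (∀ χ, ‖u χ‖ = a χ) → (∀ χ, ‖v χ‖ = a χ) →
      ‖∑ χ, ∑ ψ, conj (u χ) * G χ ψ * v ψ‖ ≤ P * ∑ χ, a χ ^ 2)
    (hne : ∀ χ, a χ ≠ 0 → ∀ ψ, a ψ ≠ 0 → G χ ψ ≠ 0) {θ θ' : ι} (hθ : a θ ≠ 0) (hθ' : a θ' ≠ 0)
    (nz : ι → ι → Prop)
    (hz : ∀ χ, a χ ≠ 0 → ∀ ψ, a ψ ≠ 0 → ¬ nz χ ψ → G χ ψ * G θ θ' = G χ θ' * G θ ψ) :
    ∑ χ, ∑ ψ, a χ * a ψ * ‖G χ ψ‖ - P * ∑ χ, a χ ^ 2 ≤
      2 * ∑ χ, ∑ ψ, (if nz χ ψ then a χ * a ψ * ‖G χ ψ‖ else 0) := by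
  set c := G θ θ' with hc
  have hc0 : c ≠ 0 := hne θ hθ θ' hθ'
  set u : ι → ℂ := fun χ => a χ * (G χ θ' / (‖G χ θ'‖ : ℂ)) with hu
  set v : ι → ℂ := fun ψ => a ψ * (conj (G θ ψ) / (‖G θ ψ‖ : ℂ)) with hv
  have hu1 : ∀ χ, ‖u χ‖ = a χ := by
    intro χ
    simp only [hu, norm_mul, norm_div, Complex.norm_real, abs_norm, Real.norm_eq_abs,
      abs_of_nonneg (ha χ)]
    by_cases h0 : a χ = 0
    · rw [h0, zero_mul]
    · rw [div_self (norm_ne_zero_iff.mpr (hne χ h0 θ' hθ')), mul_one]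
  have hv1 : ∀ χ, ‖v χ‖ = a χ := by
    intro χ
    simp only [hv, norm_mul, norm_div, Complex.norm_real, abs_norm, Real.norm_eq_abs,
      abs_of_nonneg (ha χ), RCLike.norm_conj]
    by_cases h0 : a χ = 0
    · rw [h0, zero_mul]
    · rw [div_self (norm_ne_zero_iff.mpr (hne θ hθ χ h0)), mul_one]
  have h1 := hop u v hu1 hv1
  -- the terms with vanishing minor
  have h2 : ∀ χ ψ, ¬ nz χ ψ → conj (u χ) * G χ ψ * v ψ =
      ((a χ * a ψ * ‖G χ ψ‖ : ℝ) : ℂ) * ((‖c‖ : ℂ) / c) := by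
    intro χ ψ h
    by_cases hχ : a χ = 0
    · simp only [hu, hχ]
      simp
    by_cases hψ : a ψ = 0
    · simp only [hv, hψ]
      simp
    have e := hz χ hχ ψ hψ h
    have ha := hne χ hχ θ' hθ'
    have hb := hne θ hθ ψ hψ
    have hna : (‖G χ θ'‖ : ℂ) ≠ 0 := by exact_mod_cast norm_ne_zero_iff.mpr ha
    have hnb : (‖G θ ψ‖ : ℂ) ≠ 0 := by exact_mod_cast norm_ne_zero_iff.mpr hb
    have hn : (‖G χ ψ‖ : ℂ) * (‖c‖ : ℂ) = (‖G χ θ'‖ : ℂ) * (‖G θ ψ‖ : ℂ) := by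
      have : ‖G χ ψ‖ * ‖c‖ = ‖G χ θ'‖ * ‖G θ ψ‖ := by rw [← norm_mul, e, norm_mul]
      exact_mod_cast this
    have e1 : conj (G χ θ') * G χ θ' = (‖G χ θ'‖ : ℂ) ^ 2 := by
      rw [mul_comm, Complex.mul_conj, Complex.normSq_eq_norm_sq]
      push_cast
      rfl
    have e2 : conj (G θ ψ) * G θ ψ = (‖G θ ψ‖ : ℂ) ^ 2 := by
      rw [mul_comm, Complex.mul_conj, Complex.normSq_eq_norm_sq]
      push_cast
      rfl
    simp only [hu, hv, map_mul, map_div₀, Complex.conj_ofReal]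
    have h3 : conj (G χ θ') / (‖G χ θ'‖ : ℂ) * G χ ψ * (conj (G θ ψ) / (‖G θ ψ‖ : ℂ)) * c =
        (‖G χ θ'‖ : ℂ) * (‖G θ ψ‖ : ℂ) := by
      have h4 : conj (G χ θ') / (‖G χ θ'‖ : ℂ) * G χ ψ * (conj (G θ ψ) / (‖G θ ψ‖ : ℂ)) * c =
          (conj (G χ θ') * G χ θ') * (conj (G θ ψ) * G θ ψ) /
            ((‖G χ θ'‖ : ℂ) * (‖G θ ψ‖ : ℂ)) := by
        rw [eq_div_iff (mul_ne_zero hna hnb)]
        field_simp
        linear_combination (conj (G χ θ') * conj (G θ ψ)) * e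
      rw [h4, e1, e2]
      field_simp
    have h5 : conj (G χ θ') / (‖G χ θ'‖ : ℂ) * G χ ψ * (conj (G θ ψ) / (‖G θ ψ‖ : ℂ)) =
        (‖G χ ψ‖ : ℂ) * (‖c‖ : ℂ) / c := by
      rw [eq_div_iff hc0, h3, hn]
    push_cast
    linear_combination ((a χ : ℂ) * a ψ) * h5
  have hnorm1 : ‖((‖c‖ : ℂ) / c)‖ = 1 := by
    rw [norm_div, Complex.norm_real, norm_norm]
    exact div_self (norm_ne_zero_iff.mpr hc0)
  set S := ∑ χ, ∑ ψ, (if nz χ ψ then a χ * a ψ * ‖G χ ψ‖ else 0) with hS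
  set W := ∑ χ, ∑ ψ, a χ * a ψ * ‖G χ ψ‖ with hW
  have h3 : ∑ χ, ∑ ψ, conj (u χ) * G χ ψ * v ψ = ((W - S : ℝ) : ℂ) * ((‖c‖ : ℂ) / c) +
      ∑ χ, ∑ ψ, (if nz χ ψ then conj (u χ) * G χ ψ * v ψ else 0) := by
    rw [hW, hS, ← Finset.sum_sub_distrib]
    push_cast
    rw [Finset.sum_mul, ← Finset.sum_add_distrib]
    refine Finset.sum_congr rfl fun χ _ => ?_
    rw [← Finset.sum_sub_distrib, Finset.sum_mul, ← Finset.sum_add_distrib]
    refine Finset.sum_congr rfl fun ψ _ => ?_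
    by_cases h : nz χ ψ
    · simp only [h, if_true]
      push_cast
      ring
    · simp only [h, if_false, sub_zero, add_zero]
      rw [h2 χ ψ h]
      push_cast
      ring
  have h4 : ‖∑ χ, ∑ ψ, (if nz χ ψ then conj (u χ) * G χ ψ * v ψ else 0)‖ ≤ S := by
    refine (norm_sum_le _ _).trans (Finset.sum_le_sum fun χ _ => ?_)
    refine (norm_sum_le _ _).trans (Finset.sum_le_sum fun ψ _ => ?_)
    split_ifs
    · rw [norm_mul, norm_mul, RCLike.norm_conj, hu1 χ, hv1 ψ]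
      apply le_of_eq
      ring
    · rw [norm_zero]
  have h5 : W - S ≤ ‖∑ χ, ∑ ψ, conj (u χ) * G χ ψ * v ψ‖ + S := by
    have h6 : ‖((W - S : ℝ) : ℂ) * ((‖c‖ : ℂ) / c)‖ = |W - S| := by
      rw [norm_mul, hnorm1, mul_one, Complex.norm_real, Real.norm_eq_abs]
    have h7 : ((W - S : ℝ) : ℂ) * ((‖c‖ : ℂ) / c) =
        ∑ χ, ∑ ψ, conj (u χ) * G χ ψ * v ψ -
        ∑ χ, ∑ ψ, (if nz χ ψ then conj (u χ) * G χ ψ * v ψ else 0) := by
      rw [h3]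
      ring
    have h8 := norm_sub_le (∑ χ, ∑ ψ, conj (u χ) * G χ ψ * v ψ)
      (∑ χ, ∑ ψ, (if nz χ ψ then conj (u χ) * G χ ψ * v ψ else 0))
    rw [← h7, h6] at h8
    have h9 := le_abs_self (W - S)
    linarith
  linarith

theorem op_w {G : ι → ι → ℂ} {P : ℝ} (hP : 0 < P)
    (herm : ∀ χ ψ, G ψ χ = conj (G χ ψ)) (hsq : ∀ χ ψ, ∑ θ, G χ θ * G θ ψ = P * G χ ψ)
    {a : ι → ℝ} (u v : ι → ℂ) (hu : ∀ χ, ‖u χ‖ = a χ) (hv : ∀ χ, ‖v χ‖ = a χ) :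
    ‖∑ χ, ∑ ψ, conj (u χ) * G χ ψ * v ψ‖ ≤ P * ∑ χ, a χ ^ 2 := by
  have h1 : ∑ χ, ∑ ψ, conj (u χ) * G χ ψ * v ψ = ∑ χ, conj (u χ) * ∑ ψ, G χ ψ * v ψ := by
    refine Finset.sum_congr rfl fun χ _ => ?_
    rw [Finset.mul_sum]
    refine Finset.sum_congr rfl fun ψ _ => ?_
    ring
  rw [h1]
  have h2 := cs (a := u) (c := fun χ => ∑ ψ, G χ ψ * v ψ)
  have h3 := norm_bound hP herm hsq v
  simp only [hu] at h2
  simp only [hv] at h3
  have hA : 0 ≤ ∑ χ, a χ ^ 2 := Finset.sum_nonneg fun χ _ => sq_nonneg _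
  have h4 : ‖∑ χ, conj (u χ) * ∑ ψ, G χ ψ * v ψ‖ ^ 2 ≤ (P * ∑ χ, a χ ^ 2) ^ 2 := by
    calc _ ≤ (∑ χ, a χ ^ 2) * (P ^ 2 * ∑ χ, a χ ^ 2) :=
          h2.trans (mul_le_mul_of_nonneg_left h3 hA)
      _ = _ := by ring
  exact le_of_sq_le_sq h4 (mul_nonneg hP.le hA)


/-- The main inequality for a minimiser `a`. -/
theorem core_w [Nonempty T] {G : T → ι → ι → ℂ} {P q κ : ℝ} (hP : 0 < P) (hq : 2 ≤ q)
    (hκ : κ = P * (q - 2) / 4) {a : ι → ℝ} (ha : ∀ χ, 0 ≤ a χ) (ha1 : ∑ χ, a χ = 1)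
    (herm : ∀ t χ ψ, G t ψ χ = conj (G t χ ψ))
    (hsq : ∀ t χ ψ, ∑ θ, G t χ θ * G t θ ψ = P * G t χ ψ)
    (hne : ∀ t, ∀ χ, a χ ≠ 0 → ∀ ψ, a ψ ≠ 0 → G t χ ψ ≠ 0)
    (h2 : ∀ χ, a χ ≠ 0 → ∀ ψ, a ψ ≠ 0 → ∀ θ, a θ ≠ 0 → ∀ θ', a θ' ≠ 0 →
      (Fintype.card T : ℝ) ≤ ∑ t, ‖G t χ ψ‖ * ‖G t θ θ'‖)
    (hm : ∀ χ, a χ ≠ 0 → ∀ ψ, a ψ ≠ 0 → ∀ θ, a θ ≠ 0 → ∀ θ', a θ' ≠ 0 →
      (∀ t, G t χ ψ * G t θ θ' = G t χ θ' * G t θ ψ) ∨
      q * Fintype.card T ≤ ∑ t, ‖G t χ ψ * G t θ θ' - G t χ θ' * G t θ ψ‖)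
    {μ : ℝ}
    (hμ : ∀ χ, a χ ≠ 0 → ∑ ψ, a ψ * (∑ t, ‖G t χ ψ‖ ^ 2) + κ * Fintype.card T * a χ ≤ μ)
    (hμ' : ∑ χ, ∑ ψ, a χ * a ψ * (∑ t, ‖G t χ ψ‖ ^ 2) + κ * Fintype.card T * ∑ χ, a χ ^ 2 = μ) :
    (q + 2) * Fintype.card T ≤ 4 * μ := by
  set τ : ℝ := (Fintype.card T : ℝ) with hτ
  have hτ0 : 0 < τ := by
    rw [hτ]
    exact_mod_cast Fintype.card_pos
  have hκ0 : 0 ≤ κ := by
    rw [hκ]
    have : 0 ≤ q - 2 := by linarith
    positivity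
  set y : T → ι → ι → ℝ := fun t χ ψ => ‖G t χ ψ‖ with hy
  have hy0 : ∀ t χ ψ, 0 ≤ y t χ ψ := fun t χ ψ => norm_nonneg _
  have hys : ∀ t χ ψ, y t ψ χ = y t χ ψ := by
    intro t χ ψ
    simp only [hy]
    rw [herm t χ ψ, RCLike.norm_conj]
  set B : ι → ι → ℝ := fun χ ψ => ∑ t, y t χ ψ ^ 2 with hB
  set A2 : ℝ := ∑ χ, a χ ^ 2 with hA2
  have hA20 : 0 ≤ A2 := Finset.sum_nonneg fun χ _ => sq_nonneg _
  obtain ⟨nz, hnz⟩ : ∃ nz : ι → ι → ι → ι → Prop, ∀ χ ψ θ θ', nz χ ψ θ θ' ↔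
      ∃ t, G t χ ψ * G t θ θ' ≠ G t χ θ' * G t θ ψ := ⟨_, fun _ _ _ _ => Iff.rfl⟩
  set W : T → ℝ := fun t => ∑ χ, ∑ ψ, a χ * a ψ * y t χ ψ with hW
  set N : ι → ι → ℝ := fun χ ψ => ∑ θ, ∑ θ', a θ * a θ' * (if nz χ ψ θ θ' then 1 else 0) with hN
  set R : T → ι → ℝ := fun t χ => ∑ θ, a θ * y t χ θ with hR
  have hW0 : ∀ t, 0 ≤ W t := fun t =>
    Finset.sum_nonneg fun χ _ => Finset.sum_nonneg fun ψ _ =>
      mul_nonneg (mul_nonneg (ha χ) (ha ψ)) (hy0 t χ ψ)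
  have hR0 : ∀ t χ, 0 ≤ R t χ := fun t χ =>
    Finset.sum_nonneg fun ψ _ => mul_nonneg (ha ψ) (hy0 t χ ψ)
  have haa : ∀ c : ℝ, ∑ θ, ∑ θ', a θ * a θ' * c = c := by
    intro c
    have : ∑ θ, ∑ θ', a θ * a θ' * c = (∑ θ, a θ) * (∑ θ', a θ') * c := by
      rw [Finset.sum_mul_sum, Finset.sum_mul]
      refine Finset.sum_congr rfl fun θ _ => ?_
      rw [Finset.sum_mul]
    rw [this, ha1]
    ring
  -- the first inequality
  have hst : ∀ t, W t - P * A2 ≤ 2 * ∑ χ, ∑ ψ, a χ * a ψ * (N χ ψ * y t χ ψ) := by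
    intro t
    have h3 : ∀ θ θ', a θ * a θ' * (W t - P * A2) ≤ a θ * a θ' *
        (2 * ∑ χ, ∑ ψ, (if nz χ ψ θ θ' then a χ * a ψ * y t χ ψ else 0)) := by
      intro θ θ'
      by_cases hθ : a θ = 0
      · rw [hθ]; simp
      by_cases hθ' : a θ' = 0
      · rw [hθ']; simp
      refine mul_le_mul_of_nonneg_left ?_ (mul_nonneg (ha θ) (ha θ'))
      exact star_w ha (fun u v => op_w hP (herm t) (hsq t) u v) (hne t) hθ hθ'
        (fun χ ψ => nz χ ψ θ θ')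
        (fun χ _ ψ _ h => by
          by_contra h'
          exact h ((hnz _ _ _ _).mpr ⟨t, h'⟩))
    have h4 : ∑ θ, ∑ θ', a θ * a θ' * (W t - P * A2) ≤ ∑ θ, ∑ θ', a θ * a θ' *
        (2 * ∑ χ, ∑ ψ, (if nz χ ψ θ θ' then a χ * a ψ * y t χ ψ else 0)) :=
      Finset.sum_le_sum fun θ _ => Finset.sum_le_sum fun θ' _ => h3 θ θ'
    rw [haa] at h4
    refine h4.trans (le_of_eq ?_)
    have h5 : ∀ θ θ', a θ * a θ' *
        (2 * ∑ χ, ∑ ψ, (if nz χ ψ θ θ' then a χ * a ψ * y t χ ψ else 0)) =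
        2 * ∑ χ, ∑ ψ, a θ * a θ' * (if nz χ ψ θ θ' then a χ * a ψ * y t χ ψ else 0) := by
      intro θ θ'
      rw [Finset.mul_sum, Finset.mul_sum, Finset.mul_sum]
      refine Finset.sum_congr rfl fun χ _ => ?_
      simp only [Finset.mul_sum]
      refine Finset.sum_congr rfl fun ψ _ => ?_
      ring
    simp only [h5]
    have h6 : ∑ θ, ∑ θ', 2 * (∑ χ, ∑ ψ, a θ * a θ' *
        (if nz χ ψ θ θ' then a χ * a ψ * y t χ ψ else 0)) = 2 * ∑ θ, ∑ θ', ∑ χ, ∑ ψ, a θ * a θ' *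
        (if nz χ ψ θ θ' then a χ * a ψ * y t χ ψ else 0) := by
      rw [Finset.mul_sum]
      refine Finset.sum_congr rfl fun θ _ => ?_
      rw [Finset.mul_sum]
    rw [h6]
    congr 1
    calc ∑ θ, ∑ θ', ∑ χ, ∑ ψ, a θ * a θ' * (if nz χ ψ θ θ' then a χ * a ψ * y t χ ψ else 0)
        = ∑ s : ι × ι, ∑ r : ι × ι, a s.1 * a s.2 *
            (if nz r.1 r.2 s.1 s.2 then a r.1 * a r.2 * y t r.1 r.2 else 0) := by
          rw [Fintype.sum_prod_type]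
          refine Finset.sum_congr rfl fun θ _ => Finset.sum_congr rfl fun θ' _ => ?_
          rw [Fintype.sum_prod_type]
      _ = ∑ r : ι × ι, ∑ s : ι × ι, a s.1 * a s.2 *
            (if nz r.1 r.2 s.1 s.2 then a r.1 * a r.2 * y t r.1 r.2 else 0) := Finset.sum_comm
      _ = ∑ χ, ∑ ψ, a χ * a ψ * (N χ ψ * y t χ ψ) := by
          rw [Fintype.sum_prod_type]
          refine Finset.sum_congr rfl fun χ _ => Finset.sum_congr rfl fun ψ _ => ?_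
          simp only [hN]
          rw [Fintype.sum_prod_type, Finset.sum_mul, Finset.mul_sum]
          refine Finset.sum_congr rfl fun θ _ => ?_
          rw [Finset.sum_mul, Finset.mul_sum]
          refine Finset.sum_congr rfl fun θ' _ => ?_
          split_ifs
          · ring
          · ring
  -- the second inequality
  set A : ι → ι → ℝ := fun χ ψ => ∑ t, y t χ ψ * W t with hAd
  have hA0 : ∀ χ ψ, 0 ≤ A χ ψ := fun χ ψ =>
    Finset.sum_nonneg fun t _ => mul_nonneg (hy0 _ _ _) (hW0 t)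
  set Z : ι → ι → ℝ := fun χ ψ => ∑ t, R t χ * R t ψ with hZ
  have h3 : ∀ χ, a χ ≠ 0 → ∀ ψ, a ψ ≠ 0 → τ * (2 + (q - 2) * N χ ψ) ≤ A χ ψ + Z χ ψ := by
    intro χ hχ ψ hψ
    have h4 : ∀ θ θ', a θ * a θ' * (τ * (2 + (q - 2) * (if nz χ ψ θ θ' then 1 else 0))) ≤
        a θ * a θ' * ∑ t, (y t χ ψ * y t θ θ' + y t χ θ' * y t θ ψ) := by
      intro θ θ'
      by_cases hθ : a θ = 0
      · rw [hθ]; simp
      by_cases hθ' : a θ' = 0
      · rw [hθ']; simp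
      refine mul_le_mul_of_nonneg_left ?_ (mul_nonneg (ha θ) (ha θ'))
      split_ifs with h
      · have h5 := (hm χ hχ ψ hψ θ hθ θ' hθ').resolve_left
          (fun h' => by
            obtain ⟨t, ht⟩ := (hnz _ _ _ _).mp h
            exact ht (h' t))
        calc τ * (2 + (q - 2) * 1) = q * τ := by ring
          _ ≤ _ := h5
          _ ≤ _ := by
            refine Finset.sum_le_sum fun t _ => ?_
            refine (norm_sub_le _ _).trans ?_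
            rw [norm_mul, norm_mul]
      · rw [Finset.sum_add_distrib]
        have e1 := h2 χ hχ ψ hψ θ hθ θ' hθ'
        have e2 := h2 χ hχ θ' hθ' θ hθ ψ hψ
        simp only [hy]
        linarith
    have h5 : ∑ θ, ∑ θ', a θ * a θ' * (τ * (2 + (q - 2) * (if nz χ ψ θ θ' then 1 else 0))) ≤
        ∑ θ, ∑ θ', a θ * a θ' * ∑ t, (y t χ ψ * y t θ θ' + y t χ θ' * y t θ ψ) :=
      Finset.sum_le_sum fun θ _ => Finset.sum_le_sum fun θ' _ => h4 θ θ'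
    have h6 : ∑ θ, ∑ θ', a θ * a θ' * (τ * (2 + (q - 2) * (if nz χ ψ θ θ' then 1 else 0))) =
        τ * (2 + (q - 2) * N χ ψ) := by
      have e1 : ∀ θ θ', a θ * a θ' * (τ * (2 + (q - 2) * (if nz χ ψ θ θ' then 1 else 0))) =
          a θ * a θ' * (2 * τ) + τ * (q - 2) * (a θ * a θ' * (if nz χ ψ θ θ' then 1 else 0)) := by
        intro θ θ'
        ring
      simp only [e1, Finset.sum_add_distrib, haa, ← Finset.mul_sum]
      ring
    have h7 : ∑ θ, ∑ θ', a θ * a θ' * ∑ t, (y t χ ψ * y t θ θ' + y t χ θ' * y t θ ψ) =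
        A χ ψ + Z χ ψ := by
      have e1 : ∀ t, ∑ θ, ∑ θ', a θ * a θ' * (y t χ ψ * y t θ θ' + y t χ θ' * y t θ ψ) =
          y t χ ψ * W t + R t χ * R t ψ := by
        intro t
        have e2 : ∀ θ θ', a θ * a θ' * (y t χ ψ * y t θ θ' + y t χ θ' * y t θ ψ) =
            y t χ ψ * (a θ * a θ' * y t θ θ') + (a θ * y t ψ θ) * (a θ' * y t χ θ') := by
          intro θ θ'
          rw [hys t ψ θ]
          ring
        simp only [e2, Finset.sum_add_distrib, ← Finset.mul_sum, ← Finset.sum_mul]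
        simp only [hW, hR]
        ring
      simp only [hAd, hZ]
      rw [← Finset.sum_add_distrib]
      simp only [← e1]
      simp only [Finset.mul_sum]
      rw [Finset.sum_comm (s := (Finset.univ : Finset T))]
      refine Finset.sum_congr rfl fun θ _ => ?_
      rw [Finset.sum_comm (s := (Finset.univ : Finset T))]
    rw [h6, h7] at h5
    exact h5
  set C : ℝ := ∑ t, W t ^ 2 with hC
  set Ω : ℝ := ∑ t, W t with hΩ
  have hABC : ∀ χ ψ, A χ ψ ^ 2 ≤ B χ ψ * C := fun χ ψ =>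
    Finset.sum_mul_sq_le_sq_mul_sq _ _ _
  have hAA : ∑ χ, ∑ ψ, a χ * a ψ * A χ ψ = C := by
    have e1 : ∀ t, W t ^ 2 = ∑ χ, ∑ ψ, a χ * a ψ * (y t χ ψ * W t) := by
      intro t
      rw [sq]
      nth_rw 1 [hW]
      rw [Finset.sum_mul]
      refine Finset.sum_congr rfl fun χ _ => ?_
      rw [Finset.sum_mul]
      refine Finset.sum_congr rfl fun ψ _ => ?_
      ring
    rw [hC]
    simp only [e1, hAd]
    rw [Finset.sum_comm (s := (Finset.univ : Finset T))]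
    refine Finset.sum_congr rfl fun χ _ => ?_
    rw [Finset.sum_comm (s := (Finset.univ : Finset T))]
    refine Finset.sum_congr rfl fun ψ _ => ?_
    rw [Finset.mul_sum]
  set Ar : ι → ℝ := fun χ => ∑ t, R t χ * W t with hAr
  have hArA : ∀ χ, ∑ ψ, a ψ * A χ ψ = Ar χ := by
    intro χ
    simp only [hAd, hAr, hR, Finset.mul_sum, Finset.sum_mul]
    rw [Finset.sum_comm]
    refine Finset.sum_congr rfl fun t _ => Finset.sum_congr rfl fun ψ _ => ?_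
    ring
  -- lower bounds from integrality
  have hCτ : ∀ χ, a χ ≠ 0 → τ ≤ Ar χ := by
    intro χ hχ
    have e1 : Ar χ = ∑ ψ, ∑ θ, ∑ θ', a ψ * (a θ * a θ') * ∑ t, y t χ ψ * y t θ θ' := by
      have g1 : ∀ t, R t χ * W t =
          ∑ ψ, ∑ θ, ∑ θ', a ψ * (a θ * a θ') * (y t χ ψ * y t θ θ') := by
        intro t
        simp only [hR, hW]
        rw [Finset.sum_mul]
        refine Finset.sum_congr rfl fun ψ _ => ?_
        rw [Finset.mul_sum]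
        refine Finset.sum_congr rfl fun θ _ => ?_
        rw [Finset.mul_sum]
        refine Finset.sum_congr rfl fun θ' _ => ?_
        ring
      simp only [hAr, g1, Finset.mul_sum]
      rw [Finset.sum_comm]
      refine Finset.sum_congr rfl fun ψ _ => ?_
      rw [Finset.sum_comm]
      refine Finset.sum_congr rfl fun θ _ => ?_
      rw [Finset.sum_comm]
    have e2 : ∑ ψ, ∑ θ, ∑ θ', a ψ * (a θ * a θ') * τ = τ := by
      have g1 : ∀ ψ, ∑ θ, ∑ θ', a ψ * (a θ * a θ') * τ = a ψ * τ := by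
        intro ψ
        calc ∑ θ, ∑ θ', a ψ * (a θ * a θ') * τ = ∑ θ, ∑ θ', a θ * a θ' * (a ψ * τ) := by
              refine Finset.sum_congr rfl fun θ _ => Finset.sum_congr rfl fun θ' _ => ?_
              ring
          _ = _ := haa _
      rw [Finset.sum_congr rfl (fun ψ _ => g1 ψ), ← Finset.sum_mul, ha1, one_mul]
    rw [e1]
    refine e2.symm.le.trans ?_
    refine Finset.sum_le_sum fun ψ _ => Finset.sum_le_sum fun θ _ =>
      Finset.sum_le_sum fun θ' _ => ?_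
    by_cases hψ : a ψ = 0
    · rw [hψ]; simp
    by_cases hθ : a θ = 0
    · rw [hθ]; simp
    by_cases hθ' : a θ' = 0
    · rw [hθ']; simp
    exact mul_le_mul_of_nonneg_left (h2 χ hχ ψ hψ θ hθ θ' hθ')
      (mul_nonneg (ha ψ) (mul_nonneg (ha θ) (ha θ')))
  have hC1 : 2 * Ω ≤ C + τ := by
    have : 0 ≤ ∑ t, (W t - 1) ^ 2 := Finset.sum_nonneg fun t _ => sq_nonneg _
    have e1 : ∑ t, (W t - 1) ^ 2 = C - 2 * Ω + τ := by
      have : ∀ t, (W t - 1) ^ 2 = W t ^ 2 - 2 * W t + 1 := fun t => by ring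
      simp only [this, Finset.sum_add_distrib, Finset.sum_sub_distrib, ← Finset.mul_sum]
      rw [hC, hΩ, hτ]
      simp
    linarith
  have hCpos : 0 < C := by
    have e1 : C = ∑ χ, a χ * Ar χ := by
      rw [← hAA]
      refine Finset.sum_congr rfl fun χ _ => ?_
      rw [← hArA, Finset.mul_sum]
      refine Finset.sum_congr rfl fun ψ _ => ?_
      ring
    have e2 : τ ≤ C := by
      rw [e1]
      calc τ = ∑ χ, a χ * τ := by rw [← Finset.sum_mul, ha1, one_mul]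
        _ ≤ _ := by
          refine Finset.sum_le_sum fun χ _ => ?_
          by_cases hχ : a χ = 0
          · rw [hχ]; simp
          · exact mul_le_mul_of_nonneg_left (hCτ χ hχ) (ha χ)
    linarith
  -- the rows
  have hRR : ∀ χ, a χ ≠ 0 → ∑ t, R t χ ^ 2 ≤ μ - κ * τ * a χ := by
    intro χ hχ
    have e1 : ∀ t, R t χ ^ 2 ≤ ∑ ψ, a ψ * y t χ ψ ^ 2 := by
      intro t
      have h5 := Finset.sum_mul_sq_le_sq_mul_sq Finset.univ (fun ψ => Real.sqrt (a ψ))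
        (fun ψ => Real.sqrt (a ψ) * y t χ ψ)
      have e2 : ∀ ψ, Real.sqrt (a ψ) * (Real.sqrt (a ψ) * y t χ ψ) = a ψ * y t χ ψ := by
        intro ψ
        rw [← mul_assoc, Real.mul_self_sqrt (ha ψ)]
      have e3 : ∀ ψ, Real.sqrt (a ψ) ^ 2 = a ψ := fun ψ => Real.sq_sqrt (ha ψ)
      simp only [e2, mul_pow, e3, ha1, one_mul] at h5
      exact h5
    have e2 : ∑ t, R t χ ^ 2 ≤ ∑ ψ, a ψ * B χ ψ := by
      calc ∑ t, R t χ ^ 2 ≤ ∑ t, ∑ ψ, a ψ * y t χ ψ ^ 2 := Finset.sum_le_sum fun t _ => e1 t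
        _ = _ := by
          rw [Finset.sum_comm]
          refine Finset.sum_congr rfl fun ψ _ => ?_
          rw [hB, Finset.mul_sum]
    have e3 := hμ χ hχ
    simp only [hB, hy] at e2
    linarith
  have hZ' : ∀ χ, a χ ≠ 0 → ∀ ψ, a ψ ≠ 0 → Z χ ψ ≤ μ - κ * τ * ((a χ + a ψ) / 2) := by
    intro χ hχ ψ hψ
    have e1 : ∀ t, R t χ * R t ψ ≤ (R t χ ^ 2 + R t ψ ^ 2) / 2 := by
      intro t
      nlinarith [sq_nonneg (R t χ - R t ψ)]
    calc Z χ ψ ≤ ∑ t, (R t χ ^ 2 + R t ψ ^ 2) / 2 := Finset.sum_le_sum fun t _ => e1 t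
      _ = (∑ t, R t χ ^ 2 + ∑ t, R t ψ ^ 2) / 2 := by
          rw [← Finset.sum_div, Finset.sum_add_distrib]
      _ ≤ _ := by
          have := hRR χ hχ
          have := hRR ψ hψ
          linarith
  -- the conclusion
  have f1 : C - P * A2 * Ω ≤ 2 * ∑ χ, ∑ ψ, a χ * a ψ * (N χ ψ * A χ ψ) := by
    have e1 : C - P * A2 * Ω = ∑ t, W t * (W t - P * A2) := by
      rw [hC, hΩ, Finset.mul_sum, ← Finset.sum_sub_distrib]
      refine Finset.sum_congr rfl fun t _ => ?_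
      ring
    have e2 : ∑ χ, ∑ ψ, a χ * a ψ * (N χ ψ * A χ ψ) =
        ∑ t, W t * ∑ χ, ∑ ψ, a χ * a ψ * (N χ ψ * y t χ ψ) := by
      simp only [hAd, Finset.mul_sum]
      rw [Finset.sum_comm (s := (Finset.univ : Finset T))]
      refine Finset.sum_congr rfl fun χ _ => ?_
      rw [Finset.sum_comm (s := (Finset.univ : Finset T))]
      refine Finset.sum_congr rfl fun ψ _ => Finset.sum_congr rfl fun t _ => ?_
      ring
    rw [e1, e2]
    calc ∑ t, W t * (W t - P * A2)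
        ≤ ∑ t, 2 * (W t * ∑ χ, ∑ ψ, a χ * a ψ * (N χ ψ * y t χ ψ)) := by
          refine Finset.sum_le_sum fun t _ => ?_
          have := mul_le_mul_of_nonneg_left (hst t) (hW0 t)
          linarith
      _ = _ := by rw [← Finset.mul_sum]
  have f2 : τ * (2 * C + (q - 2) * ∑ χ, ∑ ψ, a χ * a ψ * (N χ ψ * A χ ψ)) ≤
      C * (∑ χ, ∑ ψ, a χ * a ψ * B χ ψ) + (μ * C - κ * τ * ∑ χ, a χ ^ 2 * Ar χ) := by
    have e1 : τ * (2 * C + (q - 2) * ∑ χ, ∑ ψ, a χ * a ψ * (N χ ψ * A χ ψ)) =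
        ∑ χ, ∑ ψ, a χ * a ψ * (A χ ψ * (τ * (2 + (q - 2) * N χ ψ))) := by
      nth_rw 1 [← hAA]
      simp only [Finset.mul_sum, ← Finset.sum_add_distrib]
      refine Finset.sum_congr rfl fun χ _ => Finset.sum_congr rfl fun ψ _ => ?_
      ring
    have e2 : μ * C - κ * τ * ∑ χ, a χ ^ 2 * Ar χ =
        ∑ χ, ∑ ψ, a χ * a ψ * (A χ ψ * (μ - κ * τ * ((a χ + a ψ) / 2))) := by
      have hAs : ∀ χ ψ, A ψ χ = A χ ψ := by
        intro χ ψ
        simp only [hAd]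
        refine Finset.sum_congr rfl fun t _ => ?_
        rw [hys t χ ψ]
      have e3 : ∑ χ, ∑ ψ, a χ * a ψ * (A χ ψ * a χ) = ∑ χ, a χ ^ 2 * Ar χ := by
        refine Finset.sum_congr rfl fun χ _ => ?_
        rw [← hArA, Finset.mul_sum]
        refine Finset.sum_congr rfl fun ψ _ => ?_
        ring
      have e4 : ∑ χ, ∑ ψ, a χ * a ψ * (A χ ψ * a ψ) = ∑ χ, a χ ^ 2 * Ar χ := by
        rw [← e3, Finset.sum_comm]
        refine Finset.sum_congr rfl fun χ _ => Finset.sum_congr rfl fun ψ _ => ?_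
        rw [hAs χ ψ]
        ring
      have e5 : ∀ χ ψ, a χ * a ψ * (A χ ψ * (μ - κ * τ * ((a χ + a ψ) / 2))) =
          μ * (a χ * a ψ * A χ ψ) - κ * τ / 2 * (a χ * a ψ * (A χ ψ * a χ)) -
            κ * τ / 2 * (a χ * a ψ * (A χ ψ * a ψ)) := by
        intro χ ψ
        ring
      simp only [e5, Finset.sum_sub_distrib, ← Finset.mul_sum]
      rw [e3, e4, hAA]
      ring
    have e3 : C * (∑ χ, ∑ ψ, a χ * a ψ * B χ ψ) = ∑ χ, ∑ ψ, a χ * a ψ * (B χ ψ * C) := by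
      rw [Finset.mul_sum]
      refine Finset.sum_congr rfl fun χ _ => ?_
      rw [Finset.mul_sum]
      refine Finset.sum_congr rfl fun ψ _ => ?_
      ring
    rw [e1, e2, e3, ← Finset.sum_add_distrib]
    refine Finset.sum_le_sum fun χ _ => ?_
    rw [← Finset.sum_add_distrib]
    refine Finset.sum_le_sum fun ψ _ => ?_
    by_cases hχ : a χ = 0
    · rw [hχ]; simp
    by_cases hψ : a ψ = 0
    · rw [hψ]; simp
    rw [← mul_add]
    refine mul_le_mul_of_nonneg_left ?_ (mul_nonneg (ha χ) (ha ψ))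
    have g1 := mul_le_mul_of_nonneg_left (h3 χ hχ ψ hψ) (hA0 χ ψ)
    have g2 := mul_le_mul_of_nonneg_left (hZ' χ hχ ψ hψ) (hA0 χ ψ)
    have g3 := hABC χ ψ
    nlinarith [g1, g2, g3]
  have f3 : ∑ χ, ∑ ψ, a χ * a ψ * B χ ψ = μ - κ * τ * A2 := by
    have := hμ'
    simp only [hB, hy]
    linarith
  have f4 : 2 * Ω * A2 ≤ A2 * C + ∑ χ, a χ ^ 2 * Ar χ := by
    have e1 : A2 * τ ≤ ∑ χ, a χ ^ 2 * Ar χ := by
      rw [hA2, Finset.sum_mul]
      refine Finset.sum_le_sum fun χ _ => ?_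
      by_cases hχ : a χ = 0
      · rw [hχ]; simp
      · exact mul_le_mul_of_nonneg_left (hCτ χ hχ) (sq_nonneg _)
    have e2 := mul_le_mul_of_nonneg_left hC1 hA20
    linarith
  rw [f3] at f2
  have f5 : τ * (2 * C + (q - 2) * ((C - P * A2 * Ω) / 2)) ≤
      C * (μ - κ * τ * A2) + (μ * C - κ * τ * ∑ χ, a χ ^ 2 * Ar χ) := by
    refine le_trans ?_ f2
    refine mul_le_mul_of_nonneg_left ?_ hτ0.le
    have : (q - 2) * ((C - P * A2 * Ω) / 2) ≤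
        (q - 2) * ∑ χ, ∑ ψ, a χ * a ψ * (N χ ψ * A χ ψ) :=
      mul_le_mul_of_nonneg_left (by linarith) (by linarith)
    linarith
  have f6 : κ * τ * (2 * Ω * A2) ≤ κ * τ * (A2 * C + ∑ χ, a χ ^ 2 * Ar χ) :=
    mul_le_mul_of_nonneg_left f4 (mul_nonneg hκ0 hτ0.le)
  have f7 : (τ * (q + 2)) * C ≤ (4 * μ) * C := by
    have e1 : κ * τ * (2 * Ω * A2) = τ * ((q - 2) * (P * A2 * Ω / 2)) := by
      rw [hκ]
      ring
    rw [e1] at f6
    nlinarith [f5, f6]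
  have f8 := le_of_mul_le_mul_right f7 hCpos
  linarith

end Pool.Agent.Zk65.HZ
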