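import Pool.Agent.Zk65.HZ6

/-!
Minimisers of quadratic forms on a simplex, and the inequality for sets of indices.
-/

set_option autoImplicit false
set_option linter.unusedSectionVars false

open scoped BigOperators Classical ComplexConjugate

noncomputable section

namespace Pool.Agent.Zk65.HZ

variable {ι T : Type*} [Fintype T] [Fintype ι]

/-- quadratic form -/
def qf (S : ι → ι → ℝ) (a : ι → ℝ) : ℝ := ∑ χ, ∑ ψ, a χ * a ψ * S χ ψ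

lemma qf_add {S : ι → ι → ℝ} (hS : ∀ χ ψ, S ψ χ = S χ ψ) (a : ι → ℝ) (χ : ι) (c : ℝ) :
    qf S (fun ψ => a ψ + (if ψ = χ then c else 0)) =
      qf S a + 2 * c * (∑ ψ, a ψ * S χ ψ) + c ^ 2 * S χ χ := by
  unfold qf
  have h1 : ∀ θ ψ, (a θ + (if θ = χ then c else 0)) * (a ψ + (if ψ = χ then c else 0)) * S θ ψ =
      a θ * a ψ * S θ ψ + (if θ = χ then c * a ψ * S θ ψ else 0) +
        (if ψ = χ then c * a θ * S θ ψ else 0) +
        (if θ = χ then (if ψ = χ then c ^ 2 * S θ ψ else 0) else 0) := by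
    intro θ ψ
    split_ifs <;> ring
  simp only [h1, Finset.sum_add_distrib]
  have h2 : ∑ θ, ∑ ψ, (if θ = χ then c * a ψ * S θ ψ else 0) = c * ∑ ψ, a ψ * S χ ψ := by
    rw [Finset.sum_eq_single χ]
    · simp only [if_true]
      rw [Finset.mul_sum]
      refine Finset.sum_congr rfl fun ψ _ => ?_
      ring
    · intro θ _ hne
      simp [hne]
    · intro h
      exact absurd (Finset.mem_univ _) h
  have h3 : ∑ θ, ∑ ψ, (if ψ = χ then c * a θ * S θ ψ else 0) = c * ∑ ψ, a ψ * S χ ψ := by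
    rw [Finset.sum_comm, ← h2]
    refine Finset.sum_congr rfl fun θ _ => Finset.sum_congr rfl fun ψ _ => ?_
    split_ifs
    · rw [hS θ ψ]
    · rfl
  have h4 : ∑ θ, ∑ ψ, (if θ = χ then (if ψ = χ then c ^ 2 * S θ ψ else 0) else 0) =
      c ^ 2 * S χ χ := by
    rw [Finset.sum_eq_single χ]
    · simp
    · intro θ _ hne
      simp [hne]
    · intro h
      exact absurd (Finset.mem_univ _) h
  rw [h2, h3, h4]
  ring

lemma qf_smul (S : ι → ι → ℝ) (a : ι → ℝ) (c : ℝ) :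
    qf S (fun ψ => c * a ψ) = c ^ 2 * qf S a := by
  unfold qf
  simp only [Finset.mul_sum]
  refine Finset.sum_congr rfl fun χ _ => Finset.sum_congr rfl fun ψ _ => ?_
  ring

theorem exists_min {S : ι → ι → ℝ} (hS : ∀ χ ψ, S ψ χ = S χ ψ) {I₀ : Finset ι}
    (hI : I₀.Nonempty) : ∃ a : ι → ℝ, (∀ χ, 0 ≤ a χ) ∧ ∑ χ, a χ = 1 ∧ (∀ χ, χ ∉ I₀ → a χ = 0) ∧
      (∀ χ, a χ ≠ 0 → ∑ ψ, a ψ * S χ ψ ≤ qf S a) ∧
      ∀ b : ι → ℝ, (∀ χ, 0 ≤ b χ) → ∑ χ, b χ = 1 → (∀ χ, χ ∉ I₀ → b χ = 0) → qf S a ≤ qf S b := by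
  set Δ : Set (ι → ℝ) := stdSimplex ℝ ι ∩ {a | ∀ χ, χ ∉ I₀ → a χ = 0} with hΔ
  have hclosed : IsClosed {a : ι → ℝ | ∀ χ, χ ∉ I₀ → a χ = 0} := by
    simp only [Set.setOf_forall]
    refine isClosed_iInter fun χ => isClosed_iInter fun _ => ?_
    exact isClosed_eq (continuous_apply χ) continuous_const
  have hcomp : IsCompact Δ := (isCompact_stdSimplex ℝ ι).inter_right hclosed
  have hne : Δ.Nonempty := by
    obtain ⟨χ, hχ⟩ := hI
    refine ⟨fun ψ => if ψ = χ then 1 else 0, ⟨⟨?_, ?_⟩, ?_⟩⟩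
    · intro ψ
      show 0 ≤ (if ψ = χ then (1 : ℝ) else 0)
      split_ifs <;> norm_num
    · simp
    · intro ψ hψ
      show (if ψ = χ then (1 : ℝ) else 0) = 0
      rw [if_neg]
      rintro rfl
      exact hψ hχ
  have hcont : Continuous (qf S) := by
    unfold qf
    fun_prop
  obtain ⟨a, haΔ, hmin⟩ := hcomp.exists_isMinOn hne hcont.continuousOn
  obtain ⟨⟨ha0, ha1⟩, haI⟩ := haΔ
  refine ⟨a, ha0, ha1, haI, ?_, ?_⟩
  · intro χ hχ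
    by_contra hcon
    push Not at hcon
    set f := ∑ ψ, a ψ * S χ ψ with hf
    set μ := qf S a with hμ
    set β := S χ χ with hβ
    have haχ : 0 < a χ := lt_of_le_of_ne (ha0 χ) (Ne.symm hχ)
    have haχ1 : a χ ≤ 1 := by
      rw [← ha1]
      exact Finset.single_le_sum (fun ψ _ => ha0 ψ) (Finset.mem_univ χ)
    set d := |β - μ| + 1 with hd
    have hd0 : 0 < d := by positivity
    set s := min (a χ / 2) ((f - μ) / d) with hs
    have hs0 : 0 < s := lt_min (by linarith) (div_pos (by linarith) hd0)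
    have hs1 : s ≤ a χ / 2 := min_le_left _ _
    have hs2 : s * d ≤ f - μ := by
      have : s ≤ (f - μ) / d := min_le_right _ _
      rwa [le_div_iff₀ hd0] at this
    have hs3 : s * (β - μ) ≤ f - μ := by
      have : β - μ ≤ d := by
        rw [hd]
        have := le_abs_self (β - μ)
        linarith
      exact (mul_le_mul_of_nonneg_left this hs0.le).trans hs2
    have h1s : 0 < 1 - s := by linarith
    set b : ι → ℝ := fun ψ => (1 - s)⁻¹ * (a ψ + (if ψ = χ then -s else 0)) with hb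
    have hbΔ : b ∈ Δ := by
      refine ⟨⟨?_, ?_⟩, ?_⟩
      · intro ψ
        show 0 ≤ (1 - s)⁻¹ * (a ψ + (if ψ = χ then -s else 0))
        apply mul_nonneg (inv_nonneg.mpr h1s.le)
        split_ifs with h
        · rw [h]
          linarith
        · rw [add_zero]
          exact ha0 ψ
      · show ∑ ψ, (1 - s)⁻¹ * (a ψ + (if ψ = χ then -s else 0)) = 1
        rw [← Finset.mul_sum, Finset.sum_add_distrib, ha1]
        simp only [Finset.sum_ite_eq', Finset.mem_univ, if_true]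
        rw [← sub_eq_add_neg]
        exact inv_mul_cancel₀ h1s.ne'
      · intro ψ hψ
        show (1 - s)⁻¹ * (a ψ + (if ψ = χ then -s else 0)) = 0
        have h1 : ψ ≠ χ := by
          rintro rfl
          exact hχ (haI ψ hψ)
        rw [if_neg h1, haI ψ hψ]
        ring
    have h2 : μ ≤ qf S b := hmin hbΔ
    rw [hb, qf_smul, qf_add hS] at h2
    have h3 : (1 - s) ^ 2 * ((1 - s)⁻¹ ^ 2 * (qf S a + 2 * -s * (∑ ψ, a ψ * S χ ψ) +
        (-s) ^ 2 * S χ χ)) = μ - 2 * s * f + s ^ 2 * β := by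
      rw [← mul_assoc, ← mul_pow, mul_inv_cancel₀ h1s.ne', one_pow, one_mul]
      ring
    have h4 := mul_le_mul_of_nonneg_left h2 (sq_nonneg (1 - s))
    rw [h3] at h4
    have h5 : s * (2 * (f - μ)) ≤ s * (s * (β - μ)) := by linarith
    have h6 := le_of_mul_le_mul_left h5 hs0
    linarith
  · intro b hb0 hb1 hbI
    exact hmin ⟨⟨hb0, hb1⟩, hbI⟩

/-- The inequality for sets of indices with nonzero entries and large minors. -/
theorem total_avg [Nonempty T] {I₀ : Finset ι} {G : T → ι → ι → ℂ} {P q : ℝ} (hP : 0 < P)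
    (hq : 2 ≤ q)
    (herm : ∀ t χ ψ, G t ψ χ = conj (G t χ ψ))
    (hsq : ∀ t χ ψ, ∑ θ, G t χ θ * G t θ ψ = P * G t χ ψ)
    (hne : ∀ t, ∀ χ ∈ I₀, ∀ ψ ∈ I₀, G t χ ψ ≠ 0)
    (h2 : ∀ χ ∈ I₀, ∀ ψ ∈ I₀, ∀ θ ∈ I₀, ∀ θ' ∈ I₀,
      (Fintype.card T : ℝ) ≤ ∑ t, ‖G t χ ψ‖ * ‖G t θ θ'‖)
    (hm : ∀ χ ∈ I₀, ∀ ψ ∈ I₀, ∀ θ ∈ I₀, ∀ θ' ∈ I₀,
      (∀ t, G t χ ψ * G t θ θ' = G t χ θ' * G t θ ψ) ∨
      q * Fintype.card T ≤ ∑ t, ‖G t χ ψ * G t θ θ' - G t χ θ' * G t θ ψ‖) :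
    Fintype.card T * ((q + 2) * (I₀.card : ℝ) ^ 2 - (q - 2) * P * I₀.card) ≤
      4 * ∑ t, ∑ χ ∈ I₀, ∑ ψ ∈ I₀, ‖G t χ ψ‖ ^ 2 := by
  have hτ0 : (0 : ℝ) < Fintype.card T := by exact_mod_cast Fintype.card_pos
  rcases I₀.eq_empty_or_nonempty with hI | hI
  · subst hI
    simp
  set κ : ℝ := P * (q - 2) / 4 with hκ
  set B : ι → ι → ℝ := fun χ ψ => ∑ t, ‖G t χ ψ‖ ^ 2 with hB
  have hBs : ∀ χ ψ, B ψ χ = B χ ψ := by
    intro χ ψ
    simp only [hB]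
    refine Finset.sum_congr rfl fun t _ => ?_
    rw [herm t χ ψ, RCLike.norm_conj]
  set S : ι → ι → ℝ := fun χ ψ => B χ ψ + (if ψ = χ then κ * Fintype.card T else 0) with hS
  have hSs : ∀ χ ψ, S ψ χ = S χ ψ := by
    intro χ ψ
    simp only [hS, hBs χ ψ]
    by_cases h : ψ = χ
    · rw [if_pos h, if_pos h.symm]
    · rw [if_neg h, if_neg (Ne.symm h)]
  have hqf : ∀ a : ι → ℝ, qf S a = ∑ χ, ∑ ψ, a χ * a ψ * B χ ψ +
      κ * Fintype.card T * ∑ χ, a χ ^ 2 := by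
    intro a
    unfold qf
    rw [Finset.mul_sum, ← Finset.sum_add_distrib]
    refine Finset.sum_congr rfl fun χ _ => ?_
    simp only [hS, mul_add, Finset.sum_add_distrib]
    congr 1
    rw [Finset.sum_eq_single χ]
    · rw [if_pos rfl]
      ring
    · intro ψ _ hne
      rw [if_neg hne, mul_zero]
    · intro h
      exact absurd (Finset.mem_univ _) h
  obtain ⟨a, ha0, ha1, haI, hfoc, hmin⟩ := exists_min hSs hI
  have hsupp : ∀ χ, a χ ≠ 0 → χ ∈ I₀ := by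
    intro χ h
    by_contra h'
    exact h (haI χ h')
  have hcore := core_w (G := G) (P := P) (q := q) (κ := κ) hP hq hκ ha0 ha1 herm hsq
    (fun t χ hχ ψ hψ => hne t χ (hsupp χ hχ) ψ (hsupp ψ hψ))
    (fun χ hχ ψ hψ θ hθ θ' hθ' => h2 χ (hsupp χ hχ) ψ (hsupp ψ hψ) θ (hsupp θ hθ) θ' (hsupp θ' hθ'))
    (fun χ hχ ψ hψ θ hθ θ' hθ' => hm χ (hsupp χ hχ) ψ (hsupp ψ hψ) θ (hsupp θ hθ) θ' (hsupp θ' hθ'))
    (μ := qf S a)
    (by
      intro χ hχ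
      refine le_trans (le_of_eq ?_) (hfoc χ hχ)
      simp only [hS, mul_add, Finset.sum_add_distrib, hB]
      congr 1
      rw [Finset.sum_eq_single χ]
      · rw [if_pos rfl]
        ring
      · intro ψ _ hne
        rw [if_neg hne, mul_zero]
      · intro h
        exact absurd (Finset.mem_univ _) h)
    (by rw [hqf])
  -- the uniform weight
  set K : ℝ := (I₀.card : ℝ) with hK
  have hK0 : 0 < K := by
    rw [hK]
    exact_mod_cast hI.card_pos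
  have hu := hmin (fun χ => if χ ∈ I₀ then K⁻¹ else 0) (by
      intro χ
      show 0 ≤ (if χ ∈ I₀ then K⁻¹ else 0)
      split_ifs
      · exact inv_nonneg.mpr hK0.le
      · exact le_rfl) (by
      rw [Finset.sum_ite_mem, Finset.univ_inter, Finset.sum_const, nsmul_eq_mul]
      exact mul_inv_cancel₀ hK0.ne') (by
      intro χ hχ
      show (if χ ∈ I₀ then K⁻¹ else 0) = 0
      rw [if_neg hχ])
  rw [hqf (fun χ => if χ ∈ I₀ then K⁻¹ else 0)] at hu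
  have e1 : ∑ χ, ∑ ψ, (if χ ∈ I₀ then K⁻¹ else 0) * (if ψ ∈ I₀ then K⁻¹ else 0) * B χ ψ =
      K⁻¹ ^ 2 * ∑ t, ∑ χ ∈ I₀, ∑ ψ ∈ I₀, ‖G t χ ψ‖ ^ 2 := by
    have g1 : ∑ t, ∑ χ ∈ I₀, ∑ ψ ∈ I₀, ‖G t χ ψ‖ ^ 2 = ∑ χ ∈ I₀, ∑ ψ ∈ I₀, B χ ψ := by
      rw [Finset.sum_comm]
      refine Finset.sum_congr rfl fun χ _ => ?_
      rw [Finset.sum_comm]
    rw [g1, Finset.mul_sum, ← Finset.sum_subset (Finset.subset_univ I₀)]
    · refine Finset.sum_congr rfl fun χ hχ => ?_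
      rw [Finset.mul_sum, ← Finset.sum_subset (Finset.subset_univ I₀)]
      · refine Finset.sum_congr rfl fun ψ hψ => ?_
        rw [if_pos hχ, if_pos hψ]
        ring
      · intro ψ _ hψ
        rw [if_neg hψ]
        ring
    · intro χ _ hχ
      refine Finset.sum_eq_zero fun ψ _ => ?_
      rw [if_neg hχ]
      ring
  have e2 : ∑ χ, (if χ ∈ I₀ then K⁻¹ else 0) ^ 2 = K⁻¹ := by
    have : ∀ χ, (if χ ∈ I₀ then K⁻¹ else 0) ^ 2 = (if χ ∈ I₀ then K⁻¹ ^ 2 else 0) := by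
      intro χ
      split_ifs
      · rfl
      · ring
    simp only [this]
    rw [Finset.sum_ite_mem, Finset.univ_inter, Finset.sum_const, nsmul_eq_mul]
    change K * K⁻¹ ^ 2 = K⁻¹
    field_simp
  rw [e1, e2] at hu
  set τ : ℝ := (Fintype.card T : ℝ) with hτ
  have h4 : K ^ 2 * qf S a ≤ (∑ t, ∑ χ ∈ I₀, ∑ ψ ∈ I₀, ‖G t χ ψ‖ ^ 2) + κ * τ * K := by
    have h5 := mul_le_mul_of_nonneg_left hu (sq_nonneg K)
    have h6 : K ^ 2 * (K⁻¹ ^ 2 * (∑ t, ∑ χ ∈ I₀, ∑ ψ ∈ I₀, ‖G t χ ψ‖ ^ 2) + κ * τ * K⁻¹) =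
        (∑ t, ∑ χ ∈ I₀, ∑ ψ ∈ I₀, ‖G t χ ψ‖ ^ 2) + κ * τ * K := by
      field_simp
    rw [h6] at h5
    exact h5
  have h8 := mul_le_mul_of_nonneg_left hcore (sq_nonneg K)
  have h9 : κ * τ * K = τ * (P * (q - 2) / 4) * K := by rw [hκ]; ring
  nlinarith [h4, h8, h9]

/-- The sum of the squares. -/
theorem sum_sq_le {G : ι → ι → ℂ} {P l : ℝ} (hP : 0 < P)
    (herm : ∀ χ ψ, G ψ χ = conj (G χ ψ))
    (hsq : ∀ χ ψ, ∑ θ, G χ θ * G θ ψ = P * G χ ψ)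
    (htr : ∑ χ, (G χ χ).re ≤ P * l) (I₀ J : Finset ι) (hJ : Disjoint I₀ J) :
    ∑ χ ∈ I₀, ∑ ψ ∈ I₀, ‖G χ ψ‖ ^ 2 + 2 * ∑ χ ∈ I₀, ∑ ψ ∈ J, ‖G χ ψ‖ ^ 2 ≤ P * (P * l) := by
  have h1 : ∑ χ ∈ J, ∑ ψ ∈ I₀, ‖G χ ψ‖ ^ 2 = ∑ χ ∈ I₀, ∑ ψ ∈ J, ‖G χ ψ‖ ^ 2 := by
    rw [Finset.sum_comm]
    refine Finset.sum_congr rfl fun χ _ => Finset.sum_congr rfl fun ψ _ => ?_
    rw [herm χ ψ, RCLike.norm_conj]
  have h2 : ∑ χ ∈ I₀ ∪ J, ∑ ψ ∈ I₀ ∪ J, ‖G χ ψ‖ ^ 2 ≤ ∑ χ, ∑ ψ, ‖G χ ψ‖ ^ 2 := by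
    calc ∑ χ ∈ I₀ ∪ J, ∑ ψ ∈ I₀ ∪ J, ‖G χ ψ‖ ^ 2 ≤ ∑ χ ∈ I₀ ∪ J, ∑ ψ, ‖G χ ψ‖ ^ 2 := by
          refine Finset.sum_le_sum fun χ _ => ?_
          exact Finset.sum_le_sum_of_subset_of_nonneg (Finset.subset_univ _)
            fun _ _ _ => sq_nonneg _
      _ ≤ _ := Finset.sum_le_sum_of_subset_of_nonneg (Finset.subset_univ _)
            fun χ _ _ => Finset.sum_nonneg fun _ _ => sq_nonneg _
  have h3 : ∑ χ, ∑ ψ, ‖G χ ψ‖ ^ 2 ≤ P * (P * l) := by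
    calc ∑ χ, ∑ ψ, ‖G χ ψ‖ ^ 2 = P * ∑ χ, (G χ χ).re := by
          rw [Finset.mul_sum]
          exact Finset.sum_congr rfl fun χ _ => row_eq herm hsq χ
      _ ≤ _ := mul_le_mul_of_nonneg_left htr hP.le
  rw [Finset.sum_union hJ] at h2
  simp only [Finset.sum_union hJ, Finset.sum_add_distrib] at h2
  rw [h1] at h2
  have h4 : 0 ≤ ∑ χ ∈ J, ∑ ψ ∈ J, ‖G χ ψ‖ ^ 2 :=
    Finset.sum_nonneg fun χ _ => Finset.sum_nonneg fun _ _ => sq_nonneg _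
  linarith

end Pool.Agent.Zk65.HZ
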