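import Mathlib
import Pool.Agent.Zk65.Avg
import Pool.Agent.Zk65.Conf

/-!
# Affine isometric actions of `Isom(QU)` on reflexive spaces have fixed points
-/

set_option autoImplicit false

namespace Pool.Agent.Zk65.IsoQU

open Pool.Agent.Zk65.Ury Pool.Agent.Zk65.Refl Pool.Agent.Zk65.Conf Filter Topology

variable {X : Type} [MetricSpace X]

/-- All distances between points of `g F` and `h F` are `t`. -/
def Cross (F : Finset X) (g h : X ≃ᵢ X) (t : ℝ) : Prop :=
  ∀ x ∈ F, ∀ y ∈ F, dist (g x) (h y) = t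

section

variable {E : Type} [NormedAddCommGroup E] [NormedSpace ℝ E]

/-- Comparison of configurations of the same type. -/
lemma comp [Countable X] (hq : ∀ x y : X, ∃ q : ℚ, dist x y = (q : ℝ)) (hext : ExtProp X)
    (α : (X ≃ᵢ X) →* (E ≃ᵃⁱ[ℝ] E)) (v : E) (F : Finset X) (η : ℝ)
    (hη : ∀ h : X ≃ᵢ X, (∀ x ∈ F, h x = x) → dist (α h v) v ≤ η)
    {ι : Type} [Finite ι] (g g' : ι → (X ≃ᵢ X))
    (h : ∀ i j, i ≠ j → ∃ t, Cross F (g i) (g j) t ∧ Cross F (g' i) (g' j) t) :
    ∃ u : X ≃ᵢ X, ∀ i, dist (α (g i) v) (α u (α (g' i) v)) ≤ η := by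
  classical
  obtain ⟨u, hu⟩ := homog hq hext (ι := ι × {x // x ∈ F}) (fun p => g' p.1 p.2.1)
    (fun p => g p.1 p.2.1) (by
      rintro ⟨i, x⟩ ⟨j, y⟩
      by_cases hij : i = j
      · subst hij
        simp only
        rw [(g' i).isometry.dist_eq, (g i).isometry.dist_eq]
      · obtain ⟨t, h1, h2⟩ := h i j hij
        simp only
        rw [h1 x.1 x.2 y.1 y.2, h2 x.1 x.2 y.1 y.2])
  refine ⟨u, fun i => ?_⟩
  have hs : ∀ x ∈ F, ((g i)⁻¹ * u * g' i) x = x := by
    intro x hx
    have := hu (i, ⟨x, hx⟩)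
    simp only at this
    change (g i)⁻¹ (u (g' i x)) = x
    rw [this]
    exact (g i).symm_apply_apply x
  have h1 := hη _ hs
  have h2 : α u (α (g' i) v) = α (g i) (α ((g i)⁻¹ * u * g' i) v) := by
    have e : g i * ((g i)⁻¹ * u * g' i) = u * g' i := by group
    have e2 : α (g i) * α ((g i)⁻¹ * u * g' i) = α u * α (g' i) := by
      rw [← map_mul, e, map_mul]
    have e3 := congrArg (fun f : E ≃ᵃⁱ[ℝ] E => f v) e2
    exact e3.symm
  rw [h2, (α (g i)).dist_map, dist_comm]
  exact h1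

lemma comp2 [Countable X] (hq : ∀ x y : X, ∃ q : ℚ, dist x y = (q : ℝ)) (hext : ExtProp X)
    (α : (X ≃ᵢ X) →* (E ≃ᵃⁱ[ℝ] E)) (v : E) (F : Finset X) (η : ℝ)
    (hη : ∀ h : X ≃ᵢ X, (∀ x ∈ F, h x = x) → dist (α h v) v ≤ η)
    (g h g' h' : X ≃ᵢ X) (t : ℝ) (h1 : Cross F g h t) (h2 : Cross F g' h' t) :
    dist (α g v) (α h v) ≤ dist (α g' v) (α h' v) + 2 * η := by
  have hsymm : ∀ a b : X ≃ᵢ X, Cross F a b t → Cross F b a t := by
    intro a b hab x hx y hy
    rw [dist_comm]
    exact hab y hy x hx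
  obtain ⟨u, hu⟩ := comp hq hext α v F η hη ![g, h] ![g', h'] (by
    intro i j hij
    refine ⟨t, ?_⟩
    fin_cases i <;> fin_cases j
    · exact absurd rfl hij
    · exact ⟨h1, h2⟩
    · exact ⟨hsymm _ _ h1, hsymm _ _ h2⟩
    · exact absurd rfl hij)
  have e1 := hu 0
  have e2 := hu 1
  simp only [Matrix.cons_val_zero, Matrix.cons_val_one] at e1 e2
  have e3 : dist (α u (α g' v)) (α u (α h' v)) = dist (α g' v) (α h' v) := (α u).dist_map _ _
  have e4 := dist_triangle4 (α g v) (α u (α g' v)) (α u (α h' v)) (α h v)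
  rw [dist_comm (α u (α h' v)) (α h v)] at e4
  linarith

/-- The orbits are bounded. -/
theorem orbit_bounded [Countable X] (hq : ∀ x y : X, ∃ q : ℚ, dist x y = (q : ℝ))
    (hext : ExtProp X) (hrefl : Function.Surjective (NormedSpace.inclusionInDoubleDual ℝ E))
    (α : (X ≃ᵢ X) →* (E ≃ᵃⁱ[ℝ] E)) (v : E) (F : Finset X) (η : ℝ)
    (hη : ∀ h : X ≃ᵢ X, (∀ x ∈ F, h x = x) → dist (α h v) v ≤ η) :
    ∃ R, ∀ g, dist (α g v) v ≤ R := by
  classical
  have hη0 : 0 ≤ η := by
    have := hη 1 (fun x _ => rfl)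
    exact dist_nonneg.trans this
  -- a bound for the diameter of `F`
  obtain ⟨r, hr0, hr⟩ : ∃ r : ℚ, 0 < r ∧ ∀ x ∈ F, ∀ y ∈ F, dist x y ≤ r := by
    obtain ⟨M, hM⟩ : ∃ M : ℝ, ∀ x ∈ F, ∀ y ∈ F, dist x y ≤ M := by
      refine ⟨∑ x ∈ F, ∑ y ∈ F, dist x y, fun x hx y hy => ?_⟩
      refine le_trans ?_ (Finset.single_le_sum (f := fun x => ∑ y ∈ F, dist x y)
        (fun _ _ => Finset.sum_nonneg fun _ _ => dist_nonneg) hx)
      exact Finset.single_le_sum (f := fun y => dist x y) (fun _ _ => dist_nonneg) hy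
    obtain ⟨q, hq⟩ := exists_rat_gt (max M 0)
    refine ⟨q, ?_, fun x hx y hy => (hM x hx y hy).trans ((le_max_left _ _).trans hq.le)⟩
    have : (0 : ℝ) < q := (le_max_right M 0).trans_lt hq
    exact_mod_cast this
  -- bound for each cross distance
  have hbd : ∀ t : ℝ, ∃ C, ∀ g h, Cross F g h t → dist (α g v) (α h v) ≤ C := by
    intro t
    by_cases hex : ∃ g h, Cross F g h t
    · obtain ⟨g', h', hgh⟩ := hex
      exact ⟨_, fun g h h1 => comp2 hq hext α v F η hη g h g' h' t h1 hgh⟩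
    · exact ⟨0, fun g h h1 => absurd ⟨g, h, h1⟩ hex⟩
  choose C hC using hbd
  have hr0' : (0 : ℝ) < r := by exact_mod_cast hr0
  -- the interlacing argument
  have hkal : ∀ k : ℕ, 1 ≤ k → ∃ g h, Cross F g h (k * r) ∧
      dist (α g v) (α h v) ≤ 2 * C r + 1 := by
    intro k hk
    let I := {l : List ℕ // l.length = k}
    let ρ : I → I → ℚ := fun a b => r * (max 1 (rho a.1 b.1) : ℕ)
    have hρ0 : ∀ i j, 0 ≤ ρ i j := fun i j => by positivity
    have hkr : (0 : ℚ) ≤ k * r := by positivity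
    have hone : ∀ i j : I, r ≤ ρ i j := by
      intro i j
      have h1 : (1 : ℚ) ≤ ((max 1 (rho i.1 j.1) : ℕ) : ℚ) := by
        exact_mod_cast le_max_left _ _
      calc r = r * 1 := (mul_one r).symm
        _ ≤ _ := mul_le_mul_of_nonneg_left h1 hr0.le
    have hone' : ∀ i j : I, (r : ℝ) ≤ ρ i j := fun i j => by exact_mod_cast hone i j
    have hupper : ∀ i j : I, ρ i j ≤ k * r := by
      intro i j
      have h1 : max 1 (rho i.1 j.1) ≤ k :=
        max_le hk (rho_le _ _ _ (rho_bdd i.1 j.1 k i.2 j.2))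
      have h2 : ((max 1 (rho i.1 j.1) : ℕ) : ℚ) ≤ k := by exact_mod_cast h1
      calc ρ i j ≤ r * k := mul_le_mul_of_nonneg_left h2 hr0.le
        _ = k * r := mul_comm _ _
    obtain ⟨g, -, hg⟩ := conf hq hext F ∅ (I := I) ρ (k * r)
      (by intro i j; simp only [ρ]; rw [rho_comm])
      (by
        intro i j l _ _ _
        have h1 : max 1 (rho i.1 l.1) ≤ max 1 (rho i.1 j.1) + max 1 (rho j.1 l.1) := by
          have := rho_tri i.1 j.1 l.1 k i.2 j.2 l.2
          omega
        have h2 : ((max 1 (rho i.1 l.1) : ℕ) : ℚ) ≤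
            ((max 1 (rho i.1 j.1) : ℕ) : ℚ) + ((max 1 (rho j.1 l.1) : ℕ) : ℚ) := by
          exact_mod_cast h1
        have h3 := mul_le_mul_of_nonneg_left h2 hr0.le
        simp only [ρ]
        linarith)
      (by intro i j _; have := hupper i j; linarith)
      (by
        intro i j _ x hx y hy
        have h1 := hr x hx y hy
        have h2 := hone' i j
        linarith)
      (by
        intro x hx y hy
        have h1 := hr x hx y hy
        have h2 : (1 : ℝ) ≤ k := by exact_mod_cast hk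
        push_cast
        nlinarith)
      (by simp) hkr hρ0
    -- the function
    let f : List ℕ → E := fun l => if h : l.length = k then α (g ⟨l, h⟩) v else 0
    have hf : ∀ (l : List ℕ) (h : l.length = k), f l = α (g ⟨l, h⟩) v := by
      intro l h
      simp [f, h]
    -- boundedness
    let l0 : I := ⟨List.replicate k 0, List.length_replicate ..⟩
    let K : ℝ := ∑ j ∈ Finset.range (k + 1), |C (r * j)|
    have hK : ∀ j ≤ k, |C (r * j)| ≤ K := fun j hj =>
      Finset.single_le_sum (f := fun j : ℕ => |C (r * j)|) (fun _ _ => abs_nonneg _)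
        (Finset.mem_range.2 (Nat.lt_succ_of_le hj))
    have hK0 : 0 ≤ K := Finset.sum_nonneg fun _ _ => abs_nonneg _
    have hfB : ∀ l, l.length = k → ‖f l‖ ≤ ‖α (g l0) v‖ + K := by
      intro l hl
      rw [hf l hl]
      by_cases he : (⟨l, hl⟩ : I) = l0
      · rw [he]; linarith
      · have h1 := hg ⟨l, hl⟩ l0 he
        set j := max 1 (rho l l0.1) with hj
        have hjk : j ≤ k := max_le hk (rho_le _ _ _ (rho_bdd l l0.1 k hl l0.2))
        have h2 : Cross F (g ⟨l, hl⟩) (g l0) (r * j) := by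
          intro x hx y hy
          rw [h1 x hx y hy, hj]
          simp only [ρ]
          push_cast
          rfl
        have h3 := hC _ _ _ h2
        have h4 := hK j hjk
        have h5 := le_abs_self (C (r * j))
        have h6 : ‖α (g ⟨l, hl⟩) v‖ ≤ ‖α (g l0) v‖ + dist (α (g ⟨l, hl⟩) v) (α (g l0) v) := by
          rw [dist_eq_norm]
          have := norm_add_le (α (g l0) v) (α (g ⟨l, hl⟩) v - α (g l0) v)
          simpa using this
        linarith
    have hfC : ∀ a b, Inter a b → a.length = k → ‖f a - f b‖ ≤ C r := by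
      intro a b hab ha
      have hb : b.length = k := hab.length ▸ ha
      have hne : a ≠ [] := by rintro rfl; simp at ha; omega
      have hne' : (⟨a, ha⟩ : I) ≠ ⟨b, hb⟩ := fun h => inter_ne hab hne (Subtype.ext_iff.1 h)
      rw [hf a ha, hf b hb, ← dist_eq_norm]
      apply hC
      intro x hx y hy
      rw [hg _ _ hne' x hx y hy]
      simp only [ρ]
      have : max 1 (rho a b) = 1 := max_eq_left (rho_inter hab)
      rw [this]
      simp
    obtain ⟨a, b, ha, hb, hab, hle⟩ := kalton hrefl k f _ _ hfB hfC 1 one_pos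
    have hne' : (⟨a, ha⟩ : I) ≠ ⟨b, hb⟩ := by
      intro h
      have h1 : a = b := Subtype.ext_iff.1 h
      subst h1
      have hne : a ≠ [] := by rintro rfl; simp at ha; omega
      obtain ⟨x, hx⟩ := List.exists_mem_of_ne_nil a hne
      exact lt_irrefl _ (hab x hx x hx)
    refine ⟨g ⟨a, ha⟩, g ⟨b, hb⟩, ?_, ?_⟩
    · intro x hx y hy
      rw [hg _ _ hne' x hx y hy]
      simp only [ρ]
      have : max 1 (rho a b) = k := by
        rw [rho_sep k ha hb hab]
        exact max_eq_right hk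
      rw [this]
      push_cast
      ring
    · rw [hf a ha, hf b hb, ← dist_eq_norm] at hle
      exact hle
  -- conclusion
  refine ⟨2 * (2 * C r + 1 + 2 * η), fun g => ?_⟩
  obtain ⟨M, hM⟩ : ∃ M : ℝ, ∀ x ∈ F ∪ F.image g, ∀ y ∈ F ∪ F.image g, dist x y ≤ M := by
    refine ⟨∑ x ∈ F ∪ F.image g, ∑ y ∈ F ∪ F.image g, dist x y, fun x hx y hy => ?_⟩
    refine le_trans ?_ (Finset.single_le_sum (f := fun x => ∑ y ∈ F ∪ F.image g, dist x y)
      (fun _ _ => Finset.sum_nonneg fun _ _ => dist_nonneg) hx)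
    exact Finset.single_le_sum (f := fun y => dist x y) (fun _ _ => dist_nonneg) hy
  obtain ⟨k, hk⟩ := exists_nat_gt (M / r)
  have hk1 : 1 ≤ k + 1 := by omega
  have hMk : M ≤ 2 * ((((k + 1 : ℕ) : ℚ) * r : ℚ) : ℝ) := by
    rw [div_lt_iff₀ hr0'] at hk
    push_cast
    nlinarith
  obtain ⟨h, hh, -⟩ := conf hq hext F (F ∪ F.image g) (I := Unit) (fun _ _ => 0)
    (((k + 1 : ℕ) : ℚ) * r) (fun _ _ => rfl) (fun i j _ h1 => absurd rfl h1)
    (fun i j h1 => absurd rfl h1) (fun i j h1 => absurd rfl h1)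
    (fun x hx y hy => (hM x (Finset.mem_union_left _ hx) y (Finset.mem_union_left _ hy)).trans hMk)
    (fun x hx y hy => (hM x hx y hy).trans hMk) (by positivity) (fun _ _ => le_rfl)
  obtain ⟨g1, h1, hc1, hd1⟩ := hkal (k + 1) hk1
  have hX1 : Cross F 1 (h ()) (((k + 1 : ℕ) : ℝ) * r) := by
    intro x hx y hy
    have := hh () x (Finset.mem_union_left _ hx) y hy
    push_cast at this ⊢
    exact this
  have hX2 : Cross F g (h ()) (((k + 1 : ℕ) : ℝ) * r) := by
    intro x hx y hy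
    have := hh () (g x) (Finset.mem_union_right _ (Finset.mem_image_of_mem g hx)) y hy
    push_cast at this ⊢
    exact this
  have e1 := comp2 hq hext α v F η hη _ _ _ _ _ hX1 hc1
  have e2 := comp2 hq hext α v F η hη _ _ _ _ _ hX2 hc1
  have e3 := dist_triangle_right (α g v) (α 1 v) (α (h ()) v)
  have e4 : α 1 v = v := by rw [map_one]; rfl
  rw [e4] at e1 e3
  linarith

/-- affine isometries and combinations with sum one -/
lemma affine_sum {ι : Type*} [Fintype ι] (f : E ≃ᵃⁱ[ℝ] E) (a : ι → ℝ) (ha : ∑ i, a i = 1)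
    (x : ι → E) : ∑ i, a i • f (x i) = f (∑ i, a i • x i) := by
  have h1 : ∀ y : E, f y = f.linearIsometryEquiv y + f 0 := by
    intro y
    have := f.map_vadd 0 y
    simpa using this
  rw [h1 (∑ i, a i • x i), map_sum]
  have h2 : ∀ i, a i • f (x i) = f.linearIsometryEquiv (a i • x i) + a i • f 0 := by
    intro i
    rw [h1 (x i), smul_add, map_smul]
  rw [Finset.sum_congr rfl fun i _ => h2 i, Finset.sum_add_distrib, ← Finset.sum_smul, ha, one_smul]

lemma affine_sub (f : E ≃ᵃⁱ[ℝ] E) (x y : E) : ‖f x - f y‖ = ‖x - y‖ := by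
  rw [← dist_eq_norm, ← dist_eq_norm, f.dist_map]

/-- Almost fixed vectors. -/
theorem almost_fixed [Countable X] (hq : ∀ x y : X, ∃ q : ℚ, dist x y = (q : ℝ))
    (hext : ExtProp X) (hrefl : Function.Surjective (NormedSpace.inclusionInDoubleDual ℝ E))
    (α : (X ≃ᵢ X) →* (E ≃ᵃⁱ[ℝ] E)) (v : E) (R : ℝ) (hR : ∀ g, dist (α g v) v ≤ R)
    (hcont : ∀ ε : ℝ, 0 < ε → ∃ F : Finset X, ∀ h : X ≃ᵢ X, (∀ x ∈ F, h x = x) →
      dist (α h v) v ≤ ε)
    (S : Finset (X ≃ᵢ X)) (ε : ℝ) (hε : 0 < ε) :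
    ∃ w : E, ‖w‖ ≤ ‖v‖ + R ∧ ∀ s ∈ S, dist (α s w) w ≤ ε := by
  classical
  obtain ⟨x0, -⟩ := hext ∅ (fun _ => 0) (by simp) (by simp)
  have hη0 : 0 < ε / 6 := by positivity
  obtain ⟨F, hF⟩ := hcont (ε / 6) hη0
  set η := ε / 6 with hη
  have hxb : ∀ g, ‖α g v‖ ≤ ‖v‖ + R := by
    intro g
    have h1 := hR g
    rw [dist_eq_norm] at h1
    have h2 := norm_add_le v (α g v - v)
    rw [add_sub_cancel] at h2
    linarith
  -- the distance `t`
  let S' : Finset (X ≃ᵢ X) := insert 1 S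
  obtain ⟨t, ht0, htF, htS⟩ : ∃ t : ℚ, 0 < t ∧ (∀ x ∈ F, ∀ y ∈ F, dist x y ≤ t) ∧
      ∀ s ∈ S', ∀ s' ∈ S', dist (s x0) (s' x0) ≤ t := by
    obtain ⟨q, hq⟩ := exists_rat_gt (max (max (∑ x ∈ F, ∑ y ∈ F, dist x y)
      (∑ s ∈ S', ∑ s' ∈ S', dist (s x0) (s' x0))) 0)
    refine ⟨q, ?_, fun x hx y hy => ?_, fun s hs s' hs' => ?_⟩
    · have : (0 : ℝ) < q := (le_max_right _ _).trans_lt hq
      exact_mod_cast this
    · refine le_trans ?_ (((le_max_left _ _).trans (le_max_left _ _)).trans hq.le)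
      refine le_trans ?_ (Finset.single_le_sum (f := fun x => ∑ y ∈ F, dist x y)
        (fun _ _ => Finset.sum_nonneg fun _ _ => dist_nonneg) hx)
      exact Finset.single_le_sum (f := fun y => dist x y) (fun _ _ => dist_nonneg) hy
    · refine le_trans ?_ (((le_max_right _ _).trans (le_max_left _ _)).trans hq.le)
      refine le_trans ?_ (Finset.single_le_sum (f := fun s => ∑ s' ∈ S', dist (s x0) (s' x0))
        (fun _ _ => Finset.sum_nonneg fun _ _ => dist_nonneg) hs)
      exact Finset.single_le_sum (f := fun s' => dist (s x0) (s' x0))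
        (fun _ _ => dist_nonneg) hs'
  have ht0' : (0 : ℝ) < t := by exact_mod_cast ht0
  -- a generic sequence
  obtain ⟨g, hg1, hg2⟩ := conf hq hext F {x0} (I := ℕ) (fun _ _ => t) (t / 2)
    (fun _ _ => rfl) (fun _ _ _ _ _ _ => by linarith) (fun _ _ _ => by linarith)
    (fun _ _ _ x hx y hy => by have := htF x hx y hy; linarith)
    (fun x hx y hy => by have := htF x hx y hy; push_cast; linarith)
    (fun x hx y hy => by
      rw [Finset.mem_singleton] at hx hy
      rw [hx, hy, dist_self]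
      push_cast
      linarith) (by positivity) (fun _ _ => ht0.le)
  obtain ⟨n, m, a, b, ha0, hb0, ha1, hb1, hab⟩ := two_blocks hrefl (fun i => α (g i) v) _
    (fun i => hxb (g i)) η hη0
  -- the claim
  have claim : ∀ (y : Fin (n + 1) → (X ≃ᵢ X)) (z : Fin (m + 1) → (X ≃ᵢ X)),
      (∀ i j, i ≠ j → Cross F (y i) (y j) t) → (∀ i j, i ≠ j → Cross F (z i) (z j) t) →
      (∀ i j, Cross F (y i) (z j) t) →
      ‖((n : ℝ) + 1)⁻¹ • ∑ i, α (y i) v - ((m : ℝ) + 1)⁻¹ • ∑ j, α (z j) v‖ ≤ 3 * η := by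
    intro y z hy hz hyz
    refine avg_core (fun i => α (y i) v) (fun j => α (z j) v) a b ha1 hb1 _ ?_
    intro p q
    have hsym : ∀ a b : X ≃ᵢ X, Cross F a b t → Cross F b a t := by
      intro a b hab x hx y hy
      rw [dist_comm]
      exact hab y hy x hx
    obtain ⟨u, hu⟩ := comp hq hext α v F η hF (ι := Fin (n + 1) ⊕ Fin (m + 1))
      (Sum.elim (fun i => y (i + p)) (fun j => z (j + q)))
      (Sum.elim (fun i => g i) (fun j => g (n + 1 + j))) (by
        rintro (i | i) (j | j) hij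
        · refine ⟨t, hy _ _ ?_, hg2 _ _ ?_⟩
          · intro h; exact hij (by rw [add_right_cancel h])
          · intro h; exact hij (by rw [Fin.ext h])
        · refine ⟨t, hyz _ _, hg2 _ _ ?_⟩
          have := i.2
          omega
        · refine ⟨t, hsym _ _ (hyz _ _), hg2 _ _ ?_⟩
          have := j.2
          omega
        · refine ⟨t, hz _ _ ?_, hg2 _ _ ?_⟩
          · intro h; exact hij (by rw [add_right_cancel h])
          · intro h
            apply hij
            have h' : i = j := Fin.ext (by omega)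
            rw [h'])
    have e1 : ‖∑ i, a i • α (y (i + p)) v - ∑ i, a i • α u (α (g i) v)‖ ≤ η := by
      rw [← Finset.sum_sub_distrib]
      refine (norm_sum_le _ _).trans ?_
      calc ∑ i, ‖a i • α (y (i + p)) v - a i • α u (α (g i) v)‖ ≤ ∑ i, a i * η := by
            refine Finset.sum_le_sum fun i _ => ?_
            rw [← smul_sub, norm_smul, Real.norm_of_nonneg (ha0 i), ← dist_eq_norm]
            exact mul_le_mul_of_nonneg_left (hu (Sum.inl i)) (ha0 i)
        _ = η := by rw [← Finset.sum_mul, ha1, one_mul]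
    have e2 : ‖∑ j, b j • α (z (j + q)) v - ∑ j, b j • α u (α (g (n + 1 + j)) v)‖ ≤ η := by
      rw [← Finset.sum_sub_distrib]
      refine (norm_sum_le _ _).trans ?_
      calc ∑ i, ‖b i • α (z (i + q)) v - b i • α u (α (g (n + 1 + i)) v)‖ ≤ ∑ i, b i * η := by
            refine Finset.sum_le_sum fun i _ => ?_
            rw [← smul_sub, norm_smul, Real.norm_of_nonneg (hb0 i), ← dist_eq_norm]
            exact mul_le_mul_of_nonneg_left (hu (Sum.inr i)) (hb0 i)
        _ = η := by rw [← Finset.sum_mul, hb1, one_mul]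
    have e3 : ‖∑ i, a i • α u (α (g i) v) - ∑ j, b j • α u (α (g (n + 1 + j)) v)‖ ≤ η := by
      rw [affine_sum _ _ ha1, affine_sum _ _ hb1, affine_sub]
      exact hab
    rw [← dist_eq_norm] at e1 e2 e3 ⊢
    have e4 := dist_triangle4 (∑ i, a i • α (y (i + p)) v) (∑ i, a i • α u (α (g i) v))
      (∑ j, b j • α u (α (g (n + 1 + j)) v)) (∑ j, b j • α (z (j + q)) v)
    rw [dist_comm (∑ j, b j • α u (α (g (n + 1 + j)) v))] at e4
    linarith
  -- the second batch
  let B : Finset X := S'.biUnion fun s => (Finset.univ : Finset (Fin (n + 1))).biUnion fun i =>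
    F.image fun x => s (g i x)
  have hB : ∀ b ∈ B, ∃ s ∈ S', ∃ i : Fin (n + 1), ∃ x ∈ F, b = s (g i x) := by
    intro b hb
    simp only [B, Finset.mem_biUnion, Finset.mem_image, Finset.mem_univ, true_and] at hb
    obtain ⟨s, hs, i, x, hx, rfl⟩ := hb
    exact ⟨s, hs, i, x, hx, rfl⟩
  obtain ⟨h, hh1, hh2⟩ := conf hq hext F B (I := ℕ) (fun _ _ => t) t
    (fun _ _ => rfl) (fun _ _ _ _ _ _ => by linarith) (fun _ _ _ => by linarith)
    (fun _ _ _ x hx y hy => by have := htF x hx y hy; linarith)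
    (fun x hx y hy => by have := htF x hx y hy; linarith)
    (by
      intro b hb b' hb'
      obtain ⟨s, hs, i, x, hx, rfl⟩ := hB b hb
      obtain ⟨s', hs', i', x', hx', rfl⟩ := hB b' hb'
      have e1 := dist_triangle4 (s (g i x)) (s x0) (s' x0) (s' (g i' x'))
      have e2 := htS s hs s' hs'
      have e3 := hg1 i x0 (Finset.mem_singleton_self _) x hx
      have e4 := hg1 i' x0 (Finset.mem_singleton_self _) x' hx'
      have e5 : dist (s (g i x)) (s x0) = (t / 2 : ℚ) := by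
        rw [s.isometry.dist_eq, dist_comm]; exact e3
      have e6 : dist (s' x0) (s' (g i' x')) = (t / 2 : ℚ) := by
        rw [s'.isometry.dist_eq]; exact e4
      rw [e5, e6] at e1
      push_cast at e1
      linarith) ht0.le (fun _ _ => ht0.le)
  have key : ∀ s ∈ S', ‖((n : ℝ) + 1)⁻¹ • ∑ i : Fin (n + 1), α (s * g i) v -
      ((m : ℝ) + 1)⁻¹ • ∑ j : Fin (m + 1), α (h j) v‖ ≤ 3 * η := by
    intro s hs
    refine claim (fun i => s * g i) (fun j => h j) ?_ ?_ ?_
    · intro i j hij x hx y hy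
      change dist (s (g i x)) (s (g j y)) = t
      rw [s.isometry.dist_eq]
      exact hg2 _ _ (fun h => hij (Fin.ext h)) x hx y hy
    · intro i j hij x hx y hy
      exact hh2 _ _ (fun h => hij (Fin.ext h)) x hx y hy
    · intro i j x hx y hy
      refine hh1 j (s (g i x)) ?_ y hy
      simp only [B, Finset.mem_biUnion, Finset.mem_image, Finset.mem_univ, true_and]
      exact ⟨s, hs, i, x, hx, rfl⟩
  have hn0 : ((n : ℝ) + 1) ≠ 0 := by positivity
  have hsum : ∑ _i : Fin (n + 1), ((n : ℝ) + 1)⁻¹ = 1 := by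
    simp only [Finset.sum_const, Finset.card_univ, Fintype.card_fin, nsmul_eq_mul]
    push_cast
    field_simp
  have haff : ∀ s : X ≃ᵢ X, α s (((n : ℝ) + 1)⁻¹ • ∑ i : Fin (n + 1), α (g i) v) =
      ((n : ℝ) + 1)⁻¹ • ∑ i : Fin (n + 1), α (s * g i) v := by
    intro s
    rw [Finset.smul_sum, Finset.smul_sum, ← affine_sum (α s) _ hsum]
    refine Finset.sum_congr rfl fun i _ => ?_
    rw [map_mul]
    rfl
  refine ⟨((n : ℝ) + 1)⁻¹ • ∑ i : Fin (n + 1), α (g i) v, ?_, ?_⟩
  · rw [norm_smul, Real.norm_of_nonneg (by positivity), inv_mul_le_iff₀ (by positivity)]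
    refine (norm_sum_le _ _).trans ?_
    refine (Finset.sum_le_card_nsmul (Finset.univ : Finset (Fin (n + 1)))
      (fun i => ‖α (g i) v‖) (‖v‖ + R) fun i _ => hxb (g i)).trans (le_of_eq ?_)
    simp only [Finset.card_univ, Fintype.card_fin, nsmul_eq_mul]
    push_cast
    ring
  · intro s hs
    have k1 := key s (Finset.mem_insert_of_mem hs)
    have k2 := key 1 (Finset.mem_insert_self _ _)
    rw [haff s]
    simp only [one_mul] at k2
    rw [← dist_eq_norm] at k1 k2
    have k3 := dist_triangle_right (((n : ℝ) + 1)⁻¹ • ∑ i : Fin (n + 1), α (s * g i) v)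
      (((n : ℝ) + 1)⁻¹ • ∑ i : Fin (n + 1), α (g i) v)
      (((m : ℝ) + 1)⁻¹ • ∑ j : Fin (m + 1), α (h j) v)
    have : η = ε / 6 := hη
    linarith

/-- Every continuous affine isometric action on a reflexive space has a fixed point. -/
theorem fixed_point [Countable X] (hq : ∀ x y : X, ∃ q : ℚ, dist x y = (q : ℝ))
    (hext : ExtProp X) (hrefl : Function.Surjective (NormedSpace.inclusionInDoubleDual ℝ E))
    (α : (X ≃ᵢ X) →* (E ≃ᵃⁱ[ℝ] E))
    (hcont : ∀ ε : ℝ, 0 < ε → ∃ F : Finset X, ∀ h : X ≃ᵢ X, (∀ x ∈ F, h x = x) →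
      dist (α h 0) 0 ≤ ε) :
    ∃ w : E, ∀ g, α g w = w := by
  classical
  obtain ⟨F, hF⟩ := hcont 1 one_pos
  obtain ⟨R, hR⟩ := orbit_bounded hq hext hrefl α 0 F 1 hF
  have h1 : ∀ p : Finset (X ≃ᵢ X) × ℕ, ∃ w : E, ‖w‖ ≤ ‖(0 : E)‖ + R ∧
      ∀ s ∈ p.1, dist (α s w) w ≤ 1 / ((p.2 : ℝ) + 1) := fun p =>
    almost_fixed hq hext hrefl α 0 R hR hcont p.1 (1 / ((p.2 : ℝ) + 1)) (by positivity)
  choose w hw1 hw2 using h1
  let U : Ultrafilter (Finset (X ≃ᵢ X) × ℕ) := Ultrafilter.of atTop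
  have hU : (U : Filter (Finset (X ≃ᵢ X) × ℕ)) ≤ atTop := Ultrafilter.of_le _
  obtain ⟨z, -, hz⟩ := weak_lim hrefl U w _ hw1
  refine ⟨z, fun g => ?_⟩
  -- all functionals agree
  have key : ∀ φ : StrongDual ℝ E, φ (α g z) = φ z := by
    intro φ
    have e1 : ∀ y : E, φ (α g y) = (φ.comp (α g).linearIsometryEquiv.toContinuousLinearEquiv.toContinuousLinearMap) y +
        φ (α g 0) := by
      intro y
      have h1 : α g y = (α g).linearIsometryEquiv y + α g 0 := by
        have := (α g).map_vadd 0 y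
        simpa using this
      rw [h1, map_add]
      rfl
    have t1 : Tendsto (fun p => φ (α g (w p))) U (𝓝 (φ (α g z))) := by
      have := (hz (φ.comp (α g).linearIsometryEquiv.toContinuousLinearEquiv.toContinuousLinearMap)).add_const
        (φ (α g 0))
      simp only [← e1] at this
      exact this
    have t2 : Tendsto (fun p => φ (α g (w p)) - φ (w p)) U (𝓝 0) := by
      rw [Metric.tendsto_nhds]
      intro ε hε
      obtain ⟨n, hn⟩ := exists_nat_gt ((‖φ‖ + 1) / ε)
      have hev : ∀ᶠ p in (atTop : Filter (Finset (X ≃ᵢ X) × ℕ)), ({g}, n) ≤ p :=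
        eventually_ge_atTop _
      filter_upwards [hU hev] with p hp
      have hg : g ∈ p.1 := hp.1 (Finset.mem_singleton_self g)
      have hn2 : (n : ℝ) ≤ p.2 := by exact_mod_cast hp.2
      have h2 := hw2 p g hg
      rw [dist_eq_norm] at h2
      rw [Real.dist_eq, sub_zero, ← map_sub]
      have h3 : |φ (α g (w p) - w p)| ≤ ‖φ‖ * (1 / ((p.2 : ℝ) + 1)) :=
        (φ.le_opNorm _).trans (mul_le_mul_of_nonneg_left h2 (norm_nonneg _))
      refine lt_of_le_of_lt h3 ?_
      rw [mul_one_div, div_lt_iff₀ (by positivity)]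
      rw [div_lt_iff₀ hε] at hn
      nlinarith [norm_nonneg φ]
    have t3 := t1.sub (hz φ)
    have t4 := tendsto_nhds_unique t3 t2
    linarith
  have : α g z - z = 0 := by
    by_contra hne
    obtain ⟨φ, -, hφ⟩ := exists_dual_vector ℝ (α g z - z) (norm_ne_zero_iff.2 hne)
    rw [map_sub, key φ, sub_self] at hφ
    have : ‖α g z - z‖ = 0 := by
      have := hφ.symm
      exact_mod_cast this
    exact hne (norm_eq_zero.1 this)
  exact sub_eq_zero.1 this

end

end Pool.Agent.Zk65.IsoQU
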