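import Mathlib
import Pool.Agent.Zk65.TB9

/-!
Brauer's inequality for subsections of 2-blocks.
-/

set_option autoImplicit false
set_option linter.style.haveILetI false
set_option linter.unusedSectionVars false

open scoped BigOperators Classical
open Pool.Agent.Helper884 Pool.Agent.H254R3.IN Pool.Agent.N20

noncomputable section

namespace Pool.Agent.Zk65.TB

variable {G : Type} [Group G] [Fintype G] {O : ValuationSubring ℂ}

lemma hz_unit (hpO : ((2 : ℕ) : ℂ) ∈ O.nonunits) {D : Subgroup G} {B : Set (G → ℂ)}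
    (hB : IsBlock O B) (hD : IsDefectGroup 2 O B D) {u : G} {k : ℕ} (hu : orderOf u = 2 ^ k)
    {b : Set (CC u → ℂ)} (hb : IsBlock O b) {D' : Subgroup (CC u)}
    (hD' : IsDefectGroup 2 O b D') (hbB : Induces O B (CC u) b)
    (z : {θ // θ ∈ XB b} → ℤ) (hz : (∑ θ, (z θ : RF O) * red O (uu D' (θ : CC u → ℂ))) ≠ 0)
    {χ : G → ℂ} (hχ : χ ∈ B) (hh : HeightZero 2 D χ) :
    red O (∑ θ : {θ // θ ∈ XB b}, (z θ : ℂ) * ((Nat.card D' : ℂ) * JJ 2 u 1 θ χ)) ≠ 0 := by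
  haveI : Fact (Nat.Prime 2) := ⟨Nat.prime_two⟩
  have hmem : ∀ θ : {θ // θ ∈ XB b}, (θ : CC u → ℂ) ∈ b := fun θ => (mem_XB hb.irr).mp θ.2
  have hirr : ∀ θ : {θ // θ ∈ XB b}, IsIrr (θ : CC u → ℂ) := fun θ => hb.irr _ (hmem θ)
  have hX := hB.irr χ hχ
  have hm : ∀ θ : {θ // θ ∈ XB b}, uu D' (θ : CC u → ℂ) * TH 2 u χ θ ∈ O :=
    fun θ => O.mul_mem _ _ (Pool.Agent.N20.uu_mem hpO hb hD' (hmem θ)) (TH_mem hX (hirr θ))
  have h4 : ∀ θ : {θ // θ ∈ XB b}, (z θ : ℂ) * ((Nat.card D' : ℂ) * JJ 2 u 1 θ χ) =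
      (z θ : ℂ) * (uu D' (θ : CC u → ℂ) * TH 2 u χ θ) := by
    intro θ
    rw [card_JJ2 D' hX (hirr θ)]
  have h5 : red O (∑ θ : {θ // θ ∈ XB b}, (z θ : ℂ) * ((Nat.card D' : ℂ) * JJ 2 u 1 θ χ)) =
      (∑ θ, (z θ : RF O) * red O (uu D' (θ : CC u → ℂ))) * sr 2 O χ χ := by
    rw [Finset.sum_congr rfl (fun θ _ => h4 θ),
      red_sum _ _ (fun θ _ => O.mul_mem _ _ (intCast_mem' _) (hm θ)), Finset.sum_mul]
    refine Finset.sum_congr rfl fun θ _ => ?_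
    rw [red_mul (intCast_mem' _) (hm θ), red_intCast,
      red_mul (Pool.Agent.N20.uu_mem hpO hb hD' (hmem θ)) (TH_mem hX (hirr θ)),
      red_TH hpO hB hu hb hbB hχ (hmem θ)]
    ring
  rw [h5]
  refine mul_ne_zero hz ?_
  rw [sr_eq hpO hB hD hχ hχ]
  exact mul_ne_zero (uu_unit hpO hX hh) (cc_ne hpO hB hD hχ)

/-- **Major subsections of 2-blocks.** -/
theorem major_two (hpO : ((2 : ℕ) : ℂ) ∈ O.nonunits) {D : Subgroup G} {B : Set (G → ℂ)}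
    (hB : IsBlock O B) (hD : IsDefectGroup 2 O B D) {u : G} {k : ℕ} (hu : orderOf u = 2 ^ k)
    {b : Set (CC u → ℂ)} (hb : IsBlock O b) {D' : Subgroup (CC u)}
    (hD' : IsDefectGroup 2 O b D') (hcard : Nat.card D' = Nat.card D)
    (hbB : Induces O B (CC u) b) :
    4 * Nat.card B ≤ Nat.card D * max 4 (lB 2 b) ∧
      4 * Nat.card B + Nat.card {χ : G → ℂ // χ ∈ B ∧ HeightZero 2 D χ} ≤
        Nat.card D * max 5 (lB 2 b) := by
  haveI : Fact (Nat.Prime 2) := ⟨Nat.prime_two⟩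
  have hmem : ∀ θ : {θ // θ ∈ XB b}, (θ : CC u → ℂ) ∈ b := fun θ => (mem_XB hb.irr).mp θ.2
  have hirr : ∀ θ : {θ // θ ∈ XB b}, IsIrr (θ : CC u → ℂ) := fun θ => hb.irr _ (hmem θ)
  rw [← hcard]
  refine sub_count2 hpO hu hb hD' B {χ | χ ∈ B ∧ HeightZero 2 D χ} hB.irr
    (fun χ hχ => hB.irr χ hχ.1) ?_ ?_
  · intro z hz χ hχ h0
    rw [hcard] at h0
    have hX := hB.irr χ hχ
    have h1 : uu D χ * ∑ θ : {θ // θ ∈ XB b}, (z θ : ℂ) * TG 2 u χ θ = 0 := by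
      rw [← h0, Finset.mul_sum]
      refine Finset.sum_congr rfl fun θ _ => ?_
      rw [card_JJ hu D hX (hirr θ)]
      ring
    have h2 := (mul_eq_zero.mp h1).resolve_left (uu_ne hX)
    have h3 := congrArg (red O) h2
    rw [red_zero, red_sum _ _ (fun θ _ => O.mul_mem _ _ (intCast_mem' _)
      (TG_mem hX (hirr θ)))] at h3
    have h4 : (∑ θ, (z θ : RF O) * red O (uu D' (θ : CC u → ℂ))) * ccG O 2 D χ = 0 := by
      rw [← h3, Finset.sum_mul]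
      refine Finset.sum_congr rfl fun θ _ => ?_
      rw [red_mul (intCast_mem' _) (TG_mem hX (hirr θ)), red_intCast,
        red_TG hpO hB hD hu hb hD' hcard hbB hχ (hmem θ)]
      ring
    exact (mul_ne_zero hz (cc_ne hpO hB hD hχ)) h4
  · rintro z hz χ ⟨hχ, hh⟩
    exact hz_unit hpO hB hD hu hb hD' hbB z hz hχ hh

/-- **Characters of height zero in 2-blocks.** -/
theorem height_two (hpO : ((2 : ℕ) : ℂ) ∈ O.nonunits) {D : Subgroup G} {B : Set (G → ℂ)}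
    (hB : IsBlock O B) (hD : IsDefectGroup 2 O B D) {u : G} {k : ℕ} (hu : orderOf u = 2 ^ k)
    {b : Set (CC u → ℂ)} (hb : IsBlock O b) {D' : Subgroup (CC u)}
    (hD' : IsDefectGroup 2 O b D') (hbB : Induces O B (CC u) b) :
    5 * Nat.card {χ : G → ℂ // χ ∈ B ∧ HeightZero 2 D χ} ≤ Nat.card D' * max 5 (lB 2 b) := by
  have h1 := (sub_count2 hpO hu hb hD' {χ | χ ∈ B ∧ HeightZero 2 D χ}
    {χ | χ ∈ B ∧ HeightZero 2 D χ} (fun χ hχ => hB.irr χ hχ.1) (fun χ hχ => hB.irr χ hχ.1)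
    (fun z hz χ hχ h0 => hz_unit hpO hB hD hu hb hD' hbB z hz hχ.1 hχ.2 (by rw [h0, red_zero]))
    (fun z hz χ hχ => hz_unit hpO hB hD hu hb hD' hbB z hz hχ.1 hχ.2)).2
  have h2 : Nat.card {χ : G → ℂ // χ ∈ B ∧ HeightZero 2 D χ} =
      Nat.card ({χ | χ ∈ B ∧ HeightZero 2 D χ} : Set (G → ℂ)) := rfl
  rw [h2]
  omega

end Pool.Agent.Zk65.TB
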