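import Mathlib
import Pool.Agent.Zk65.TB10

/-!
Brauer's inequality `k(B) ≤ |D|` for 2-blocks having a major subsection `(u, b)` with `l(b) ≤ 4`.
-/

namespace Pool.Agent.Zk65.TwoBlocks

open Pool.Agent.H254R3.IN Pool.Agent.N20

/-- Let `B` be a `2`-block of a finite group `G` with defect group `D`, let `k(B)` be the number of
its irreducible characters and `k₀(B)` the number of those of height zero. Let `(u, b)` be a
subsection of `B`: `u` is a `2`-element of `G` and `b` is a block of `C_G(u)` with `b^G = B` (for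
example `u = 1` and `b = B`), let `Q` be a defect group of `b` and `l(b)` the number of irreducible
Brauer characters of `b`. Then `5 k₀(B) ≤ |Q| max(5, l(b))`. If `(u, b)` is a major subsection, i.e.
`|Q| = |D|`, then also `4 k(B) ≤ |D| max(4, l(b))` and `4 k(B) + k₀(B) ≤ |D| max(5, l(b))`. In
particular `k(B) ≤ |D|` if `l(b) ≤ 4` for some major subsection `(u, b)`. -/
theorem result {G : Type} [Group G] [Finite G] (O : ValuationSubring ℂ)
    (hO : ((2 : ℕ) : ℂ) ∈ O.nonunits) (B : Set (G → ℂ)) (hB : IsBlock O B) (D : Subgroup G)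
    (hD : IsDefectGroup 2 O B D) (u : G) (k : ℕ) (hu : orderOf u = 2 ^ k)
    (b : Set (Subgroup.centralizer ({u} : Set G) → ℂ)) (hb : IsBlock O b)
    (Q : Subgroup (Subgroup.centralizer ({u} : Set G))) (hQ : IsDefectGroup 2 O b Q)
    (hbB : Induces O B (Subgroup.centralizer ({u} : Set G)) b) :
    5 * Nat.card {χ : G → ℂ // χ ∈ B ∧ HeightZero 2 D χ} ≤ Nat.card Q * max 5 (lB 2 b) ∧
    (Nat.card Q = Nat.card D →
      4 * Nat.card B ≤ Nat.card D * max 4 (lB 2 b) ∧
      4 * Nat.card B + Nat.card {χ : G → ℂ // χ ∈ B ∧ HeightZero 2 D χ} ≤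
        Nat.card D * max 5 (lB 2 b)) := by
  have := Fintype.ofFinite G
  exact ⟨Pool.Agent.Zk65.TB.height_two hO hB hD hu hb hQ hbB,
    fun hcard => Pool.Agent.Zk65.TB.major_two hO hB hD hu hb hQ hcard hbB⟩

end Pool.Agent.Zk65.TwoBlocks
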